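import Mathlib

set_option autoImplicit false

/-!
# H98T.WA1: longest common prefix of two lists
-/

namespace H98T

/-- The length of the longest common prefix. -/
def lcp {α : Type} [DecidableEq α] : List α → List α → ℕ
  | a :: l, b :: m => if a = b then lcp l m + 1 else 0
  | _, _ => 0

/-- WA1a. Chunk WA1 (size S). Induction on `l`. -/
theorem lcp_props {α : Type} [DecidableEq α] (l m : List α) :
    lcp l m ≤ l.length ∧ lcp l m ≤ m.length ∧ l.take (lcp l m) = m.take (lcp l m) ∧ lcp l m = lcp m l ∧
      (∀ (h : lcp l m < l.length) (h' : lcp l m < m.length), l[lcp l m] ≠ m[lcp l m]) := by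
  induction l generalizing m with
  | nil => cases m <;> simp [lcp]
  | cons a l ih =>
    cases m with
    | nil => simp [lcp]
    | cons b m =>
      by_cases hab : a = b
      · subst hab
        obtain ⟨h1, h2, h3, h4, h5⟩ := ih m
        have e1 : lcp (a :: l) (a :: m) = lcp l m + 1 := by simp [lcp]
        have e2 : lcp (a :: m) (a :: l) = lcp m l + 1 := by simp [lcp]
        refine ⟨?_, ?_, ?_, ?_, ?_⟩
        · rw [e1]
          simpa using h1
        · rw [e1]
          simpa using h2
        · rw [e1]
          simp [h3]
        · rw [e1, e2, h4]
        · intro h h'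
          have h6 := h5 (by rw [e1] at h; simpa using h) (by rw [e1] at h'; simpa using h')
          simpa [e1] using h6
      · have e1 : lcp (a :: l) (b :: m) = 0 := by simp [lcp, hab]
        have e2 : lcp (b :: m) (a :: l) = 0 := by simp [lcp, Ne.symm hab]
        refine ⟨?_, ?_, ?_, ?_, ?_⟩
        · rw [e1]
          exact Nat.zero_le _
        · rw [e1]
          exact Nat.zero_le _
        · rw [e1]
          simp
        · rw [e1, e2]
        · intro h h'
          simpa [e1] using hab

/-- WA1b. Chunk WA1. Characterisation. -/
theorem lcp_eq {α : Type} [DecidableEq α] (l m : List α) (k : ℕ) (h1 : k ≤ l.length) (h2 : k ≤ m.length)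
    (h3 : l.take k = m.take k) (h4 : ∀ (h : k < l.length) (h' : k < m.length), l[k] ≠ m[k]) : lcp l m = k := by
  induction l generalizing m k with
  | nil =>
    have hk : k = 0 := by simpa using h1
    subst hk
    cases m <;> simp [lcp]
  | cons a l ih =>
    cases m with
    | nil =>
      have hk : k = 0 := by simpa using h2
      subst hk
      simp [lcp]
    | cons b m =>
      cases k with
      | zero =>
        have hab : a ≠ b := fun e => h4 (by simp) (by simp) e
        simp [lcp, hab]
      | succ k =>
        simp only [List.take_succ_cons, List.cons.injEq] at h3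
        obtain ⟨hab, h3⟩ := h3
        subst hab
        have h5 := ih m k (by simpa using h1) (by simpa using h2) h3 (fun h h' e =>
          h4 (by simpa using h) (by simpa using h') e)
        simp [lcp, h5]

end H98T
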