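import Mathlib
import Pool.Agent.Lib.H98T.WA1

set_option autoImplicit false

/-!
# H98T.WA2: the reduced word of a product, and the tripod lemma
-/

namespace H98T

theorem wa2_getLast {α : Type} (s : List (α × Bool)) (a : α × Bool)
    (h : (FreeGroup.invRev s).getLast? = some a) : s.head? = some (a.1, !a.2) := by
  rw [FreeGroup.invRev, List.getLast?_reverse, List.head?_map] at h
  cases s with
  | nil => simp at h
  | cons b s =>
    simp only [List.head?_cons, Option.map_some, Option.some.injEq] at h ⊢
    rw [← h]
    simp

/-- WA2a. Chunk WA2 (size M). The reduced word of a product: with `c` the length of the longest common prefix of `x⁻¹` and `y`,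
`x y` has the reduced word (`x` without its last `c` letters) followed by (`y` without its first `c` letters).
Proof: `toWord (x * y) = reduce (toWord x ++ toWord y)` (`FreeGroup.toWord_mul`).  Write `toWord x = p ++ invRev r`, `toWord y = r ++ q` with
`r` of length `c`; `mk (p ++ invRev r ++ r ++ q) = mk (p ++ q)` and `p ++ q` is reduced: both parts are reduced, and the last letter of `p` is
not the inverse of the first letter of `q`, since otherwise the common prefix would be longer (if `c > 0` or `c = 0` alike). -/
theorem toWord_mul_lcp {α : Type} [DecidableEq α] (x y : FreeGroup α) :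
    (x * y).toWord = x.toWord.take (x.toWord.length - lcp (x⁻¹).toWord y.toWord) ++ y.toWord.drop (lcp (x⁻¹).toWord y.toWord) := by
  have hu : (x⁻¹).toWord = FreeGroup.invRev x.toWord := FreeGroup.toWord_inv x
  obtain ⟨h1, h2, h3, -, h5⟩ := lcp_props (x⁻¹).toWord y.toWord
  set c := lcp (x⁻¹).toWord y.toWord with hc
  set u := (x⁻¹).toWord with hud
  set v := y.toWord with hvd
  have hux : x.toWord = FreeGroup.invRev u := by rw [hu, FreeGroup.invRev_invRev]
  have hlen : x.toWord.length = u.length := by rw [hux, FreeGroup.invRev_length]
  have hsplit : x.toWord = FreeGroup.invRev (u.drop c) ++ FreeGroup.invRev (u.take c) := by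
    rw [hux, ← FreeGroup.invRev_append, List.take_append_drop]
  have htake : x.toWord.take (x.toWord.length - c) = FreeGroup.invRev (u.drop c) := by
    have h6 : (FreeGroup.invRev (u.drop c)).length = x.toWord.length - c := by
      rw [FreeGroup.invRev_length, List.length_drop, hlen]
    rw [← h6]
    conv_lhs => rw [hsplit]
    exact List.take_left
  have hv : v = u.take c ++ v.drop c := by
    rw [h3, List.take_append_drop]
  rw [htake]
  have hxy : x * y = FreeGroup.mk (FreeGroup.invRev (u.drop c) ++ v.drop c) := by
    have hx : x = FreeGroup.mk (FreeGroup.invRev (u.drop c)) * (FreeGroup.mk (u.take c))⁻¹ := by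
      rw [FreeGroup.inv_mk, FreeGroup.mul_mk, ← hsplit, FreeGroup.mk_toWord]
    have hy : y = FreeGroup.mk (u.take c) * FreeGroup.mk (v.drop c) := by
      rw [FreeGroup.mul_mk, ← hv, hvd, FreeGroup.mk_toWord]
    rw [hx, hy, ← FreeGroup.mul_mk]
    group
  rw [hxy, FreeGroup.toWord_mk]
  apply FreeGroup.IsReduced.reduce_eq
  have hrx : FreeGroup.IsReduced x.toWord := FreeGroup.isReduced_toWord
  have hrv : FreeGroup.IsReduced v := FreeGroup.isReduced_toWord
  have hr1 : FreeGroup.IsReduced (FreeGroup.invRev (u.drop c)) := by
    have h1 : FreeGroup.IsReduced (FreeGroup.invRev (u.drop c) ++ FreeGroup.invRev (u.take c)) := by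
      rw [← hsplit]; exact hrx
    exact List.IsChain.left_of_append h1
  have hr2 : FreeGroup.IsReduced (v.drop c) := by
    have h1 : FreeGroup.IsReduced (v.take c ++ v.drop c) := by
      rw [List.take_append_drop]; exact hrv
    exact List.IsChain.right_of_append h1
  refine List.IsChain.append hr1 hr2 fun a ha b hb hab => ?_
  have h7 := wa2_getLast _ a ha
  have h8 : (v.drop c).head? = some b := hb
  rw [List.head?_drop] at h7 h8
  obtain ⟨h9, h10⟩ := List.getElem?_eq_some_iff.1 h7
  obtain ⟨h11, h12⟩ := List.getElem?_eq_some_iff.1 h8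
  have h13 := h5 h9 h11
  rw [h10, h12] at h13
  by_contra hne
  apply h13
  rw [Prod.ext_iff]
  have key : ∀ p q : Bool, ¬ p = q → (!p) = q := by decide
  exact ⟨hab, key _ _ hne⟩

end H98T
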