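import Pool.Agent.Lib.H98T.H05

/-! # H06: iterates of TT -/

namespace H98T

open Finset

variable {G : Type*} [Group G] [Fintype G]

theorem sum_iter (f : G → ℝ) (k : ℕ) :
    ∑ x, (TT^[k] f) x = (Fintype.card G : ℝ) ^ (2 * k) * ∑ x, f x := by
  induction k with
  | zero => simp
  | succ k ih =>
    rw [Function.iterate_succ_apply', sum_TT, ih]
    ring

theorem h06_adj (k : ℕ) : ∀ f h : G → ℝ,
    ∑ x, f x * (TT^[k] h) x = ∑ x, (TT^[k] f) x * h x := by
  induction k with
  | zero => intro f h; rfl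
  | succ k ih =>
    intro f h
    rw [Function.iterate_succ_apply', TT_adj, ih (TT f) h, ← Function.iterate_succ_apply]

/-- PROOF. Induction on `k` with `TT_adj` (`Function.iterate_succ_apply`, `iterate_succ_apply'`). -/
theorem iter_adj (f h : G → ℝ) (k : ℕ) :
    ∑ x, f x * (TT^[k] h) x = ∑ x, (TT^[k] f) x * h x := h06_adj k f h

/-- PROOF. `m = k + k`: the right sum is `∑ x, (TT^[k] f x)^2` (`iter_adj`, `Function.iterate_add_apply`)
and `(∑ x, TT^[k] f x)^2 ≤ |G| * ∑ x, (TT^[k] f x)^2` (`sq_sum_le_card_mul_sum_sq`), `sum_iter`.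
`m = k + k + 1`: the right sum is `∑ x, h x * TT h x` with `h = TT^[k] f`; `quad_form`, `sum_iter`,
multiply by `|G|`: `|G| ^ (2 (2 k + 1)) S^2 = |G|^2 (|G|^(2k) S)^2`. -/
theorem iter_form (f : G → ℝ) (m : ℕ) :
    (Fintype.card G : ℝ) ^ (2 * m) * (∑ x, f x) ^ 2 ≤
      Fintype.card G * ∑ x, f x * (TT^[m] f) x := by
  obtain ⟨k, hk | hk⟩ : ∃ k, m = k + k ∨ m = k + k + 1 := by
    rcases Nat.even_or_odd m with ⟨k, hk⟩ | ⟨k, hk⟩
    · exact ⟨k, Or.inl hk⟩
    · exact ⟨k, Or.inr (by omega)⟩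
  · subst hk
    have h1 : ∑ x, f x * (TT^[k + k] f) x = ∑ x, (TT^[k] f) x ^ 2 := by
      rw [Function.iterate_add_apply, h06_adj]
      exact sum_congr rfl fun x _ => by ring
    have h2 := sq_sum_le_card_mul_sum_sq (s := (univ : Finset G)) (f := fun x => (TT^[k] f) x)
    rw [card_univ, sum_iter] at h2
    rw [h1]
    refine le_trans (le_of_eq ?_) h2
    ring
  · subst hk
    have h1 : ∑ x, f x * (TT^[k + k + 1] f) x = ∑ x, (TT^[k] f) x * TT (TT^[k] f) x := by
      have e : k + k + 1 = k + (k + 1) := by ring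
      rw [e, Function.iterate_add_apply, h06_adj]
      refine sum_congr rfl fun x _ => ?_
      rw [Function.iterate_succ_apply']
    have h2 := quad_form (TT^[k] f)
    rw [sum_iter] at h2
    rw [h1]
    have h3 := mul_le_mul_of_nonneg_left h2 (Nat.cast_nonneg (α := ℝ) (Fintype.card G))
    refine le_trans (le_of_eq ?_) h3
    ring

end H98T
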