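import Pool.Agent.Lib.H98T.H02
import Pool.Agent.Lib.H98T.H06

/-! # H07: lower bound for the number of covers -/

namespace H98T

open Finset

variable {V : Type*} [Fintype V] [DecidableEq V] (Q : (Fin 2 → Equiv.Perm V) → Prop)

theorem h07_swap (F : Equiv.Perm V → ℝ) (x : Equiv.Perm V) :
    ∑ p : Equiv.Perm V × Equiv.Perm V, F ((cm p.1 p.2)⁻¹ * x) = TT F x := by
  unfold TT
  refine Fintype.sum_equiv (Equiv.prodComm _ _) _ _ (fun p => ?_)
  rw [cm_inv]
  rfl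

theorem h07_fiber (F : Equiv.Perm V → ℝ) :
    ∑ p : Equiv.Perm V × Equiv.Perm V, F (cm p.1 p.2)⁻¹ = ∑ y : Equiv.Perm V, (nn y : ℝ) * F y⁻¹ := by
  classical
  rw [← sum_fiberwise (univ : Finset (Equiv.Perm V × Equiv.Perm V)) (fun p => cm p.1 p.2)]
  refine sum_congr rfl fun y _ => ?_
  have h1 : ∑ p ∈ (univ : Finset (Equiv.Perm V × Equiv.Perm V)).filter (fun p => cm p.1 p.2 = y), F (cm p.1 p.2)⁻¹ =
      ∑ p ∈ (univ : Finset (Equiv.Perm V × Equiv.Perm V)).filter (fun p => cm p.1 p.2 = y), F y⁻¹ := by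
    refine sum_congr rfl fun p hp => ?_
    rw [(mem_filter.mp hp).2]
  rw [h1, sum_const, nsmul_eq_mul]
  congr 2
  unfold nn
  exact Finset.card_bijective id Function.bijective_id (fun p => by simp)

theorem h07_nn_inv {G : Type*} [Group G] [Fintype G] (z : G) : nn z⁻¹ = nn z := by
  classical
  unfold nn
  refine Finset.card_bijective Prod.swap Prod.swap_bijective (fun p => ?_)
  simp only [mem_filter, mem_univ, true_and, Prod.fst_swap, Prod.snd_swap]
  rw [← cm_inv, inv_eq_iff_eq_inv, inv_inv]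

/-- PROOF. Induction on `m`, `cnt_succ`; the sum over `(a, b)` of `F ((cm a b)⁻¹ * x)` equals the sum of
`F (cm a b * x)` (`cm_inv`, exchange `a` and `b`: `Equiv.prodComm`). -/
theorem cnt_iter (m : ℕ) (x : Equiv.Perm V) :
    (cnt Q (m + 1) x : ℝ) = (TT^[m] fun y => (cnt Q 1 y : ℝ)) x := by
  induction m generalizing x with
  | zero => rfl
  | succ m ih =>
    rw [Function.iterate_succ_apply', ← h07_swap, cnt_succ Q (by omega) x]
    push_cast
    exact sum_congr rfl fun p _ => ih _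

/-- PROOF. `u σ 4 = cm (σ 0) (σ 1)`; the `σ : Fin (2 * 1) → Perm V` with `u σ (4 * 1) = x` are among the
pairs with `cm = x` (`σ ↦ (σ 0, σ 1)` is injective). -/
theorem cnt_one_le (x : Equiv.Perm V) : cnt Q 1 x ≤ nn x := by
  classical
  unfold cnt nn
  refine card_le_card_of_injOn (fun σ => (σ ⟨0, by norm_num⟩, σ ⟨1, by norm_num⟩)) ?_ ?_
  · intro σ hσ
    rw [mem_coe, mem_filter] at hσ
    simp only [mem_coe, mem_filter, mem_univ, true_and]
    obtain ⟨p, hp⟩ := (ext2_bijective (α := Equiv.Perm V) 0).2 σ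
    simp only at hp
    have h1 : σ ⟨0, by norm_num⟩ = p.2.1 := by
      rw [← hp]
      rfl
    have h2 : σ ⟨1, by norm_num⟩ = p.2.2 := by
      rw [← hp]
      rfl
    have h3 := u_ext2 p.1 p.2.1 p.2.2
    rw [hp] at h3
    rw [h1, h2, ← hσ.2.2]
    have h4 : u p.1 (4 * 0) = 1 := rfl
    rw [h4, mul_one] at h3
    exact h3.symm
  · intro σ _ σ' _ hσ
    simp only [Prod.mk.injEq] at hσ
    funext i
    have hi := i.isLt
    rcases Nat.lt_or_ge i.val 1 with h | h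
    · have : i = ⟨0, by norm_num⟩ := Fin.ext (by simp only; omega)
      rw [this]
      exact hσ.1
    · have : i = ⟨1, by norm_num⟩ := Fin.ext (by simp only; omega)
      rw [this]
      exact hσ.2

theorem nn_inv {G : Type*} [Group G] [Fintype G] (z : G) : nn z⁻¹ = nn z := h07_nn_inv z

/-- PROOF. `cnt Q (m + 2) 1 = ∑ p, cnt Q (m + 1) (cm p)⁻¹ = ∑ y, cnt Q (m + 1) y * nn y⁻¹
= ∑ y, cnt Q (m + 1) y * nn y ≥ ∑ y, cnt Q (m + 1) y * cnt Q 1 y`; then `cnt_iter`, `iter_form` with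
`f = cnt Q 1`, and `∑ x, cnt Q 1 x = cnt2 Q` (`sum_cnt` with `m = 0`). -/
theorem le_cnt (m : ℕ) : (Fintype.card (Equiv.Perm V) : ℝ) ^ (2 * m) * (cnt2 Q : ℝ) ^ 2 ≤
    Fintype.card (Equiv.Perm V) * cnt Q (m + 2) 1 := by
  have h1 : (cnt Q (m + 2) 1 : ℝ) = ∑ y : Equiv.Perm V, (nn y : ℝ) * (cnt Q (m + 1) y : ℝ) := by
    have e1 : (cnt Q (m + 2) 1 : ℝ) = ∑ p : Equiv.Perm V × Equiv.Perm V, (cnt Q (m + 1) (cm p.1 p.2)⁻¹ : ℝ) := by
      have e2 := cnt_succ Q (g := m + 1) (by omega) 1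
      rw [e2]
      push_cast
      exact sum_congr rfl fun p _ => by rw [mul_one]
    rw [e1, h07_fiber (fun z => (cnt Q (m + 1) z : ℝ))]
    refine Fintype.sum_equiv (Equiv.inv _) _ _ (fun y => ?_)
    rw [Equiv.inv_apply, h07_nn_inv]
  have h2 : ∑ y : Equiv.Perm V, (cnt Q 1 y : ℝ) * (cnt Q (m + 1) y : ℝ) ≤ cnt Q (m + 2) 1 := by
    rw [h1]
    refine sum_le_sum fun y _ => ?_
    exact mul_le_mul_of_nonneg_right (by exact_mod_cast cnt_one_le Q y) (Nat.cast_nonneg _)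
  have h3 := iter_form (fun y : Equiv.Perm V => (cnt Q 1 y : ℝ)) m
  have h4 : ∑ y : Equiv.Perm V, (cnt Q 1 y : ℝ) = (cnt2 Q : ℝ) := by
    have e3 := sum_cnt Q 0
    rw [mul_zero, pow_zero, mul_one] at e3
    exact_mod_cast e3
  rw [h4] at h3
  refine h3.trans (mul_le_mul_of_nonneg_left ?_ (Nat.cast_nonneg _))
  refine le_trans (le_of_eq ?_) h2
  exact sum_congr rfl fun y _ => by rw [← cnt_iter]

end H98T
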