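import Pool.Agent.Lib.H98T.H13
import Pool.Agent.Lib.H98T.H07

/-! # H14: the boundary theorem `hom_lower` -/

namespace H98T

open Finset

open Classical in
/-- PROOF. `g = m + 2`. `le_cnt` with `Q = Expand`, `expand_half`, `Fintype.card_perm`: the number is at least
`(d!)^(2 m) ((d!)^2/2)^2 / d! = (d!)^(2 g - 1) / 4` (`cnt_one`), and `exp (- ε d) ≤ 1/2` for
`d ≥ 1/ε` (`exp (-1) < 1/2`). -/
theorem hom_lower {g : ℕ} (hg : 2 ≤ g) {ε : ℝ} (hε : 0 < ε) : ∃ d0 : ℕ, ∀ d : ℕ, d0 ≤ d →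
    1 / 2 * Real.exp (-(ε * d)) * (d.factorial : ℝ) ^ (2 * g - 1) ≤
      ((univ.filter fun σ : Fin (2 * g) → Equiv.Perm (Fin d) =>
        IsCov σ ∧ Expand (two σ)).card : ℝ) := by
  obtain ⟨m, rfl⟩ : ∃ m, g = m + 2 := ⟨g - 2, by omega⟩
  refine ⟨max 400 (Nat.ceil (1 / ε)), fun d hd => ?_⟩
  have hd1 : 400 ≤ d := (le_max_left _ _).trans hd
  have hd2 : 1 / ε ≤ d := (Nat.le_ceil _).trans (by exact_mod_cast (le_max_right _ _).trans hd)
  have hf : (0 : ℝ) < d.factorial := by exact_mod_cast Nat.factorial_pos d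
  have hcard : (Fintype.card (Equiv.Perm (Fin d)) : ℝ) = d.factorial := by
    rw [Fintype.card_perm, Fintype.card_fin]
  have h1 := le_cnt (fun ρ : Fin 2 → Equiv.Perm (Fin d) => Expand ρ) m
  have h2 := expand_half hd1
  rw [cnt_one, hcard] at h1
  have hexp : Real.exp (-(ε * d)) ≤ 1 / 2 := by
    have h3 : 1 ≤ ε * d := by
      rw [div_le_iff₀ hε] at hd2
      linarith
    have h4 : Real.exp (-(ε * d)) ≤ Real.exp (-1) := Real.exp_le_exp.2 (by linarith)
    refine h4.trans ?_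
    rw [Real.exp_neg, one_div]
    refine inv_anti₀ (by norm_num) ?_
    have := Real.add_one_le_exp (1 : ℝ)
    linarith
  set N : ℝ := ((univ.filter fun σ : Fin (2 * (m + 2)) → Equiv.Perm (Fin d) =>
        IsCov σ ∧ Expand (two σ)).card : ℝ) with hN
  have h5 : (d.factorial : ℝ) ^ (2 * m) * (((d.factorial : ℝ) ^ 2) / 2) ^ 2 ≤ d.factorial * N := by
    refine le_trans ?_ h1
    refine mul_le_mul_of_nonneg_left ?_ (by positivity)
    exact pow_le_pow_left₀ (by positivity) h2 2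
  have h6 : (d.factorial : ℝ) * (1 / 4 * (d.factorial : ℝ) ^ (2 * (m + 2) - 1)) ≤
      d.factorial * N := by
    refine le_trans (le_of_eq ?_) h5
    have h7 : 2 * (m + 2) - 1 = 2 * m + 3 := by omega
    rw [h7]
    ring
  have h8 : 1 / 4 * (d.factorial : ℝ) ^ (2 * (m + 2) - 1) ≤ N := le_of_mul_le_mul_left h6 hf
  refine le_trans ?_ h8
  refine mul_le_mul_of_nonneg_right ?_ (by positivity)
  linarith

end H98T
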