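import Mathlib

/-!
H98T (MP_d8119f_gt, part B), module E (entropy calculus): definitions.  See PROOF.md, section 5.
Un-normalised entropy: Ent Om f = |Om| log |Om| - sum_a n_a log n_a, n_a = number of x in Om with f x = a,
written as a sum over x in Om of log |Om| - log (size of the class of x).
-/

set_option autoImplicit false

namespace H98T

open Finset

noncomputable section

open Classical in
/-- size of the class of x: the number of y in Om with f y = f x -/
def cl {X A : Type*} (Om : Finset X) (f : X → A) (x : X) : ℕ :=
  (Om.filter (fun y => f y = f x)).card

/-- un-normalised entropy of f on Om -/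
def Ent {X A : Type*} (Om : Finset X) (f : X → A) : ℝ :=
  ∑ x ∈ Om, (Real.log (Om.card : ℝ) - Real.log (cl Om f x : ℝ))

/-- edit operations on lists of cells: (i, true, c) inserts c at index i, (i, false, c) deletes the entry with
index i (which was c) -/
abbrev Ed (C : Type) := ℕ × Bool × C

/-- one edit -/
def ap1 {C : Type} (l : List C) (e : Ed C) : List C :=
  if e.2.1 then l.insertIdx e.1 e.2.2 else l.eraseIdx e.1

/-- a list of edits, from left to right -/
def ap {C : Type} (l : List C) (z : List (Ed C)) : List C := z.foldl ap1 l

/-- the inverse edit -/
def edInv {C : Type} (e : Ed C) : Ed C := (e.1, !e.2.1, e.2.2)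

/-- the inverse edits, in the inverse order -/
def ap' {C : Type} (l : List C) (z : List (Ed C)) : List C := ap l (z.reverse.map edInv)

/-- reversed or not -/
def rvl {C : Type} (r : Bool) (l : List C) : List C := if r then l.reverse else l

/-- size of a side label -/
def bsz {C : Type} : Option (Option (List C)) → ℕ
  | none => 0
  | some none => 0
  | some (some l) => l.length

end

end H98T
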