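import Mathlib
import Pool.Agent.Lib.H98T.E0

set_option autoImplicit false

namespace H98T

open Finset

/-!
Module E, chunk E01 (S): first facts on class sizes.
cl Om f x = number of y in Om with f y = f x.
(3): group the sum over x in Om by the value a = f x (Finset.sum_fiberwise_of_maps_to or sum_comp / card_eq_sum):
the class of a has cl many elements, each contributes q a / cl.
-/

theorem cl_pos {X A : Type*} (Om : Finset X) (f : X → A) (x : X) (hx : x ∈ Om) : 0 < cl Om f x := by
  classical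
  unfold cl
  apply Finset.card_pos.mpr
  exact ⟨x, Finset.mem_filter.mpr ⟨hx, rfl⟩⟩

theorem cl_le_card {X A : Type*} (Om : Finset X) (f : X → A) (x : X) : cl Om f x ≤ Om.card := by
  classical
  unfold cl
  exact Finset.card_filter_le _ _

/-- if g determines f on Om then the g-classes are smaller -/
theorem cl_le_cl {X A B : Type*} (Om : Finset X) (f : X → A) (g : X → B)
    (h : ∀ x ∈ Om, ∀ y ∈ Om, g x = g y → f x = f y) (x : X) (hx : x ∈ Om) :
    cl Om g x ≤ cl Om f x := by
  classical
  unfold cl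
  apply Finset.card_le_card
  intro y hy
  rw [Finset.mem_filter] at hy ⊢
  exact ⟨hy.1, h y hy.1 x hx hy.2⟩

open Classical in
theorem sum_div_cl {X A : Type*} (Om : Finset X) (f : X → A) (q : A → ℝ) :
    ∑ x ∈ Om, q (f x) / (cl Om f x : ℝ) = ∑ a ∈ Om.image f, q a := by
  have h1 : ∑ x ∈ Om, q (f x) / (cl Om f x : ℝ) = ∑ a ∈ Om.image f, ∑ x ∈ Om.filter (fun x => f x = a), q (f x) / (cl Om f x : ℝ) :=
    (Finset.sum_fiberwise_of_maps_to (fun x hx => Finset.mem_image_of_mem f hx) _).symm
  rw [h1]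
  refine Finset.sum_congr rfl (fun a ha => ?_)
  obtain ⟨x0, hx0, rfl⟩ := Finset.mem_image.mp ha
  have h2 : ∀ x ∈ Om.filter (fun x => f x = f x0), q (f x) / (cl Om f x : ℝ) = q (f x0) / (cl Om f x0 : ℝ) := by
    intro x hx
    have he := (Finset.mem_filter.mp hx).2
    have hc : cl Om f x = cl Om f x0 := by unfold cl; rw [he]
    rw [he, hc]
  rw [Finset.sum_congr rfl h2, Finset.sum_const, nsmul_eq_mul]
  have hpos : (0 : ℝ) < (cl Om f x0 : ℝ) := Nat.cast_pos.mpr (cl_pos Om f x0 hx0)
  have hcard : ((Om.filter (fun x => f x = f x0)).card : ℝ) = (cl Om f x0 : ℝ) := by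
    unfold cl
    congr 2
  rw [hcard]
  field_simp

open Classical in
/-- the sum of 1 / (class size) over the members of one class is 1 -/
theorem sum_inv_cl {X A : Type*} (Om : Finset X) (f : X → A) (x : X) (hx : x ∈ Om) :
    ∑ y ∈ Om.filter (fun y => f y = f x), (1 : ℝ) / (cl Om f y : ℝ) = 1 := by
  have h2 : ∀ y ∈ Om.filter (fun y => f y = f x), (1 : ℝ) / (cl Om f y : ℝ) = 1 / (cl Om f x : ℝ) := by
    intro y hy
    have he := (Finset.mem_filter.mp hy).2
    have hc : cl Om f y = cl Om f x := by unfold cl; rw [he]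
    rw [hc]
  rw [Finset.sum_congr rfl h2, Finset.sum_const, nsmul_eq_mul]
  have hpos : (0 : ℝ) < (cl Om f x : ℝ) := Nat.cast_pos.mpr (cl_pos Om f x hx)
  have hcard : ((Om.filter (fun y => f y = f x)).card : ℝ) = (cl Om f x : ℝ) := by
    unfold cl
    congr 2
  rw [hcard]
  field_simp

end H98T
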