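import Mathlib
import Pool.Agent.Lib.H98T.E0
import Pool.Agent.Lib.H98T.E01

set_option autoImplicit false

namespace H98T

open Finset

/-!
Module C, chunk C01 (M): the number of labellings with given entropy.  tt = finite set of functions t : Fin d -> T with values in TT:
sum over tt of exp (- Ent univ t) <= (d+1)^|TT|.
Proof (d = 0: at most one function, Ent = 0; now d >= 1).  Profile of t: n : TT -> {0..d}, n a = number of x with t x = a; there are (d+1)^|TT| possible profiles.
Group the sum by the profile n: for t with profile n, exp (- Ent univ t) = prod_x (cl univ t x / d) = prod_x q(t x), q a = n a / d (Ent = sum_x (log d - log cl)).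
So the sum over the t with profile n is <= sum over ALL t : Fin d -> TT of prod_x q(t x) = (sum_a q a)^d = 1 (Finset.prod_univ_sum / Finset.sum_pow / Fintype.sum_pow).
-/

open Classical in
theorem c01_exp {d : ℕ} {T : Type} (t : Fin d → T) :
    Real.exp (- Ent Finset.univ t) = ∏ x : Fin d, ((Finset.univ.filter (fun y => t y = t x)).card : ℝ) / (d : ℝ) := by
  unfold Ent
  rw [← Finset.sum_neg_distrib, Real.exp_sum]
  refine Finset.prod_congr rfl (fun x _ => ?_)
  have p1 : (0 : ℝ) < ((cl Finset.univ t x : ℕ) : ℝ) := Nat.cast_pos.mpr (cl_pos Finset.univ t x (Finset.mem_univ x))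
  have hd : 0 < d := lt_of_le_of_lt (Nat.zero_le _) x.2
  have p2 : (0 : ℝ) < (d : ℝ) := Nat.cast_pos.mpr hd
  have e1 : ((Finset.univ : Finset (Fin d)).card : ℝ) = (d : ℝ) := by simp
  rw [e1, neg_sub, Real.exp_sub, Real.exp_log p1, Real.exp_log p2]
  rfl

open Classical in
theorem c01_inner {d : ℕ} {T : Type} (TT : Finset T) (W : Finset (Fin d → T)) (hT : ∀ t ∈ W, ∀ x, t x ∈ TT)
    (hp : ∀ t ∈ W, ∀ t' ∈ W, ∀ a ∈ TT, (Finset.univ.filter (fun y => t y = a)).card = (Finset.univ.filter (fun y => t' y = a)).card) :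
    ∑ t ∈ W, Real.exp (- Ent Finset.univ t) ≤ 1 := by
  rcases W.eq_empty_or_nonempty with h | ⟨t0, ht0⟩
  · rw [h, Finset.sum_empty]; norm_num
  · set q : T → ℝ := fun a => ((Finset.univ.filter (fun y => t0 y = a)).card : ℝ) / (d : ℝ) with hq
    have h1 : ∀ t ∈ W, Real.exp (- Ent Finset.univ t) = ∏ x : Fin d, q (t x) := by
      intro t ht
      rw [c01_exp]
      refine Finset.prod_congr rfl (fun x _ => ?_)
      rw [hp t ht t0 ht0 (t x) (hT t ht x)]
    rw [Finset.sum_congr rfl h1]
    have h2 : W ⊆ Fintype.piFinset (fun _ : Fin d => TT) := fun t ht => Fintype.mem_piFinset.mpr (hT t ht)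
    have hq0 : ∀ a, 0 ≤ q a := fun a => by simp only [hq]; positivity
    refine (Finset.sum_le_sum_of_subset_of_nonneg h2 (fun t _ _ => Finset.prod_nonneg (fun x _ => hq0 _))).trans ?_
    rw [← Finset.prod_univ_sum, Finset.prod_const, Finset.card_univ, Fintype.card_fin]
    rcases Nat.eq_zero_or_pos d with h0 | h0
    · subst h0; simp
    · have hd : (0 : ℝ) < d := Nat.cast_pos.mpr h0
      have h3 : ∑ a ∈ TT, q a = 1 := by
        simp only [hq]
        rw [← Finset.sum_div, div_eq_one_iff_eq hd.ne']
        have h4 := Finset.card_eq_sum_card_fiberwise (f := t0) (s := (Finset.univ : Finset (Fin d))) (t := TT) (fun x _ => hT t0 ht0 x)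
        rw [Finset.card_univ, Fintype.card_fin] at h4
        have h5 : (∑ b ∈ TT, ((Finset.univ.filter (fun y => t0 y = b)).card : ℝ)) = ((∑ b ∈ TT, (Finset.univ.filter (fun y => t0 y = b)).card : ℕ) : ℝ) := by
          push_cast; rfl
        rw [h5]
        refine congrArg Nat.cast (Eq.trans ?_ h4.symm)
        refine Finset.sum_congr rfl (fun a _ => ?_)
        congr!
      rw [h3, one_pow]

theorem sum_exp_ent_le {d : ℕ} {T : Type} (TT : Finset T) (tt : Finset (Fin d → T)) (hT : ∀ t ∈ tt, ∀ x, t x ∈ TT) :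
    ∑ t ∈ tt, Real.exp (- Ent Finset.univ t) ≤ ((d : ℝ) + 1) ^ TT.card := by
  classical
  set prof : (Fin d → T) → (TT → Fin (d + 1)) := fun t a => ⟨(Finset.univ.filter (fun y => t y = a.1)).card, by
    have := Finset.card_filter_le (Finset.univ : Finset (Fin d)) (fun y => t y = a.1)
    rw [Finset.card_univ, Fintype.card_fin] at this
    omega⟩ with hprof
  rw [← Finset.sum_fiberwise tt prof]
  have h1 : ∀ p ∈ (Finset.univ : Finset (TT → Fin (d + 1))), ∑ t ∈ tt.filter (fun t => prof t = p), Real.exp (- Ent Finset.univ t) ≤ 1 := by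
    intro p _
    apply c01_inner TT
    · intro t ht x
      exact hT t (Finset.mem_filter.mp ht).1 x
    · intro t ht t' ht' a ha
      have e := ((Finset.mem_filter.mp ht).2).trans ((Finset.mem_filter.mp ht').2).symm
      have e2 := congrFun e ⟨a, ha⟩
      simp only [hprof, Fin.mk.injEq] at e2
      convert e2
  refine (Finset.sum_le_sum h1).trans (le_of_eq ?_)
  rw [Finset.sum_const, Finset.card_univ, Fintype.card_fun, Fintype.card_fin, Fintype.card_coe, nsmul_eq_mul, mul_one]
  push_cast
  rfl

end H98T
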