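import Mathlib
import Pool.Agent.Lib.H98T.E0
import Pool.Agent.Lib.H98T.E01

set_option autoImplicit false

namespace H98T

open Finset

/-!
Module C, chunk C02 (S/M): gluings with given labels.  V finite, k kinds, Fp i = label of the positive side of kind i, Fn i = label of the negative side.
EE = finite set of tuples of permutations with Fn i (e i x) = Fp i x, determined by their values at the sides with label <> none.
Then |EE| <= prod_i prod_(x : Fp i x <> none) (number of y with Fp i y = Fp i x).
Proof.  EE empty: trivial (the right side is >= 0).  Let e0 in EE: it maps {y : Fp i y = a} bijectively onto {y : Fn i y = a}, so these have equal cardinality.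
The map e -> (e i x)_(i, x in NF i) into the product over (i,x) of {y : Fn i y = Fp i x} is injective on EE (hinj): Finset.card_le_card_of_injOn into
Finset.univ.pi / Fintype.piFinset over the index type (Sigma i, NF i); its card is the product of the cards (Fintype.card_piFinset).
cl (NF i) (Fp i) x = number of y in NF i with Fp i y = Fp i x = number of all y with Fp i y = Fp i x for x in NF i.
-/

open Classical in
theorem card_gluings_le {V Lab : Type} [Fintype V] {k : ℕ} (Fp Fn : Fin k → V → Option Lab) (EE : Finset (Fin k → Equiv.Perm V))
    (h : ∀ e ∈ EE, ∀ i x, Fn i (e i x) = Fp i x)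
    (hinj : ∀ e ∈ EE, ∀ e' ∈ EE, (∀ i x, Fp i x ≠ none → e i x = e' i x) → e = e') :
    (EE.card : ℝ) ≤ ∏ i, ∏ x ∈ Finset.univ.filter (fun x => Fp i x ≠ none),
      (cl (Finset.univ.filter (fun x => Fp i x ≠ none)) (Fp i) x : ℝ) := by
  rcases EE.eq_empty_or_nonempty with h0 | ⟨e0, he0⟩
  · rw [h0, Finset.card_empty, Nat.cast_zero]
    exact Finset.prod_nonneg (fun i _ => Finset.prod_nonneg (fun x _ => Nat.cast_nonneg _))
  · set S : Fin k × V → Finset V := fun p => if Fp p.1 p.2 ≠ none then Finset.univ.filter (fun y => Fn p.1 y = Fp p.1 p.2) else {p.2} with hS
    set φ : (Fin k → Equiv.Perm V) → (Fin k × V → V) := fun e p => if Fp p.1 p.2 ≠ none then e p.1 p.2 else p.2 with hφ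
    have h1 : EE.card ≤ (Fintype.piFinset S).card := by
      apply Finset.card_le_card_of_injOn φ
      · intro e he
        rw [Finset.mem_coe, Fintype.mem_piFinset]
        intro p
        simp only [hS, hφ]
        by_cases hp : Fp p.1 p.2 ≠ none
        · rw [if_pos hp, if_pos hp, Finset.mem_filter]
          exact ⟨Finset.mem_univ _, h e he p.1 p.2⟩
        · rw [if_neg hp, if_neg hp, Finset.mem_singleton]
      · intro e he e' he' hee
        apply hinj e he e' he'
        intro i x hx
        have := congrFun hee (i, x)
        simp only [hφ] at this
        rw [if_pos hx, if_pos hx] at this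
        exact this
    have h2 : ((Fintype.piFinset S).card : ℝ) = ∏ i, ∏ x ∈ Finset.univ.filter (fun x => Fp i x ≠ none),
      (cl (Finset.univ.filter (fun x => Fp i x ≠ none)) (Fp i) x : ℝ) := by
      rw [Fintype.card_piFinset, Nat.cast_prod, Fintype.prod_prod_type]
      refine Finset.prod_congr rfl (fun i _ => ?_)
      rw [Finset.prod_filter]
      refine Finset.prod_congr rfl (fun x _ => ?_)
      simp only [hS]
      by_cases hp : Fp i x ≠ none
      · rw [if_pos hp, if_pos hp]
        congr 1
        have e1 : (Finset.univ.filter (fun y => Fn i y = Fp i x)).card = (Finset.univ.filter (fun y => Fp i y = Fp i x)).card := by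
          symm
          apply Finset.card_bij (fun y _ => e0 i y)
          · intro y hy
            rw [Finset.mem_filter] at hy ⊢
            exact ⟨Finset.mem_univ _, (h e0 he0 i y).trans hy.2⟩
          · intro y _ y' _ hyy
            exact (e0 i).injective hyy
          · intro y hy
            rw [Finset.mem_filter] at hy
            refine ⟨(e0 i).symm y, ?_, by simp⟩
            rw [Finset.mem_filter]
            refine ⟨Finset.mem_univ _, ?_⟩
            have := h e0 he0 i ((e0 i).symm y)
            rw [Equiv.apply_symm_apply] at this
            exact this.symm.trans hy.2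
        rw [e1]
        unfold cl
        rw [Finset.filter_filter]
        congr 1
        ext y
        simp only [Finset.mem_filter, Finset.mem_univ, true_and]
        constructor
        · intro hy
          exact ⟨by rw [hy]; exact hp, hy⟩
        · intro hy
          exact hy.2
      · rw [if_neg hp, if_neg hp, Finset.card_singleton, Nat.cast_one]
    rw [← h2]
    exact_mod_cast h1

end H98T
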