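import Mathlib
import Pool.Agent.Lib.H98T.E0
import Pool.Agent.Lib.H98T.E01
import Pool.Agent.Lib.H98T.C01
import Pool.Agent.Lib.H98T.C02

set_option autoImplicit false

namespace H98T

open Finset

/-!
Module C, chunk C03 (M): the counting theorem (PROOF.md, C1), abstract form.
Proof.  tt = image of t over SS.  |SS| = sum over u in tt of #{s in SS : t s = u} (Finset.card_eq_sum_card_image or card_eq_sum_card_fiberwise).
For u in tt the map s -> e s is injective on {s in SS : t s = u} (hrig), its image EE satisfies the hypotheses of card_gluings_le with Fp i x = fp i (u x), Fn i x = fn i (u x)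
(hinj: if e s i x = e s' i x whenever Fp i x <> none, then s = s' by hrig, so e s = e s').  So #{..} <= prod prod cl = exp (M u), M u = sum_i sum_(x in NF i) log cl, and
M u <= B - Ent univ u.  So |SS| <= exp B * sum over tt of exp (- Ent univ u) <= exp B (d+1)^|TT|  (sum_exp_ent_le).
-/

open Classical in
theorem count_abs {d k : ℕ} {T Lab Sg : Type} (TT : Finset T) (fp fn : Fin k → T → Option Lab) (SS : Finset Sg)
    (e : Sg → Fin k → Equiv.Perm (Fin d)) (t : Sg → Fin d → T) (hT : ∀ s ∈ SS, ∀ x, t s x ∈ TT)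
    (hlab : ∀ s ∈ SS, ∀ i x, fn i (t s (e s i x)) = fp i (t s x))
    (hrig : ∀ s ∈ SS, ∀ s' ∈ SS, t s = t s' → (∀ i x, fp i (t s x) ≠ none → e s i x = e s' i x) → s = s')
    (B : ℝ)
    (hB : ∀ s ∈ SS, Ent Finset.univ (t s) + ∑ i, ∑ x ∈ Finset.univ.filter (fun x => fp i (t s x) ≠ none),
      Real.log (cl (Finset.univ.filter (fun x => fp i (t s x) ≠ none)) (fun x => fp i (t s x)) x : ℝ) ≤ B) :
    (SS.card : ℝ) ≤ ((d : ℝ) + 1) ^ TT.card * Real.exp B := by
  have h1 : SS.card = ∑ u ∈ SS.image t, (SS.filter (fun s => t s = u)).card :=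
    Finset.card_eq_sum_card_fiberwise (fun s hs => Finset.mem_image_of_mem t hs)
  have h2 : ∀ u ∈ SS.image t, ((SS.filter (fun s => t s = u)).card : ℝ) ≤ Real.exp B * Real.exp (- Ent Finset.univ u) := by
    intro u hu
    obtain ⟨s0, hs0, hs0u⟩ := Finset.mem_image.mp hu
    have hinjE : Set.InjOn e (SS.filter (fun s => t s = u) : Set Sg) := by
      intro s hs s' hs' hee
      rw [Finset.mem_coe, Finset.mem_filter] at hs hs'
      exact hrig s hs.1 s' hs'.1 (hs.2.trans hs'.2.symm) (fun i x _ => by rw [hee])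
    have h3 : ((SS.filter (fun s => t s = u)).card : ℝ) = (((SS.filter (fun s => t s = u)).image e).card : ℝ) := by
      rw [Finset.card_image_of_injOn hinjE]
    rw [h3]
    have h4 := card_gluings_le (fun i x => fp i (u x)) (fun i x => fn i (u x)) ((SS.filter (fun s => t s = u)).image e) (by
      intro e' he' i x
      obtain ⟨s, hs, rfl⟩ := Finset.mem_image.mp he'
      rw [Finset.mem_filter] at hs
      have := hlab s hs.1 i x
      rw [hs.2] at this
      exact this) (by
      intro e1 he1 e2 he2 hee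
      obtain ⟨s, hs, rfl⟩ := Finset.mem_image.mp he1
      obtain ⟨s', hs', rfl⟩ := Finset.mem_image.mp he2
      rw [Finset.mem_filter] at hs hs'
      have : s = s' := hrig s hs.1 s' hs'.1 (hs.2.trans hs'.2.symm) (fun i x hx => hee i x (by rw [← hs.2]; exact hx))
      rw [this])
    refine h4.trans ?_
    have h5 := hB s0 hs0
    rw [hs0u] at h5
    rw [← Real.exp_add]
    have h6 : ∏ i, ∏ x ∈ Finset.univ.filter (fun x => fp i (u x) ≠ none),
      (cl (Finset.univ.filter (fun x => fp i (u x) ≠ none)) (fun x => fp i (u x)) x : ℝ) =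
      Real.exp (∑ i, ∑ x ∈ Finset.univ.filter (fun x => fp i (u x) ≠ none),
      Real.log (cl (Finset.univ.filter (fun x => fp i (u x) ≠ none)) (fun x => fp i (u x)) x : ℝ)) := by
      rw [Real.exp_sum]
      refine Finset.prod_congr rfl (fun i _ => ?_)
      rw [Real.exp_sum]
      refine Finset.prod_congr rfl (fun x hx => ?_)
      rw [Real.exp_log]
      exact Nat.cast_pos.mpr (cl_pos _ _ x hx)
    rw [h6]
    apply Real.exp_le_exp.mpr
    linarith
  rw [h1]
  push_cast
  refine (Finset.sum_le_sum h2).trans ?_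
  rw [← Finset.mul_sum, mul_comm]
  apply mul_le_mul_of_nonneg_right _ (Real.exp_pos B).le
  apply sum_exp_ent_le
  intro u hu x
  obtain ⟨s, hs, rfl⟩ := Finset.mem_image.mp hu
  exact hT s hs x

end H98T
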