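import Mathlib
import Pool.Agent.Lib.H98T.E0
import Pool.Agent.Lib.H98T.E01

set_option autoImplicit false

namespace H98T

open Finset

/-!
Module E, chunk E02 (S): nonnegativity and monotonicity of the entropy.
Ent_nonneg: cl <= card, log monotone (cl > 0 for x in Om).  Ent_mono: termwise from cl_le_cl.  Ent_const: cl = card for
a constant function.  Ent_congr: le_antisymm of two Ent_mono.
-/

theorem Ent_nonneg {X A : Type*} (Om : Finset X) (f : X → A) : 0 ≤ Ent Om f := by
  unfold Ent
  apply Finset.sum_nonneg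
  intro x hx
  have h1 : (0 : ℝ) < (cl Om f x : ℝ) := Nat.cast_pos.mpr (cl_pos Om f x hx)
  have h2 : (cl Om f x : ℝ) ≤ (Om.card : ℝ) := Nat.cast_le.mpr (cl_le_card Om f x)
  have h3 := Real.log_le_log h1 h2
  linarith

/-- if g determines f on Om then f has smaller entropy -/
theorem Ent_mono {X A B : Type*} (Om : Finset X) (f : X → A) (g : X → B)
    (h : ∀ x ∈ Om, ∀ y ∈ Om, g x = g y → f x = f y) : Ent Om f ≤ Ent Om g := by
  unfold Ent
  apply Finset.sum_le_sum
  intro x hx
  have h1 : (0 : ℝ) < (cl Om g x : ℝ) := Nat.cast_pos.mpr (cl_pos Om g x hx)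
  have h2 : (cl Om g x : ℝ) ≤ (cl Om f x : ℝ) := Nat.cast_le.mpr (cl_le_cl Om f g h x hx)
  have h3 := Real.log_le_log h1 h2
  linarith

theorem Ent_congr {X A B : Type*} (Om : Finset X) (f : X → A) (g : X → B)
    (h : ∀ x ∈ Om, ∀ y ∈ Om, (g x = g y ↔ f x = f y)) : Ent Om f = Ent Om g :=
  le_antisymm (Ent_mono Om f g (fun x hx y hy => (h x hx y hy).mp)) (Ent_mono Om g f (fun x hx y hy => (h x hx y hy).mpr))

theorem Ent_const {X A : Type*} (Om : Finset X) (f : X → A)
    (h : ∀ x ∈ Om, ∀ y ∈ Om, f x = f y) : Ent Om f = 0 := by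
  unfold Ent
  apply Finset.sum_eq_zero
  intro x hx
  have h1 : cl Om f x = Om.card := by
    classical
    unfold cl
    congr 1
    apply Finset.filter_true_of_mem
    intro y hy
    exact h y hy x hx
  rw [h1, sub_self]

theorem Ent_empty {X A : Type*} (f : X → A) : Ent (∅ : Finset X) f = 0 := by
  unfold Ent
  rw [Finset.sum_empty]

end H98T
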