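import Mathlib
import Pool.Agent.Lib.H98T.E0
import Pool.Agent.Lib.H98T.E01

set_option autoImplicit false

namespace H98T

open Finset

/-!
Module E, chunk E03 (S/M): Gibbs' inequality.
Proof: for x in Om: log |Om| - log cl + log q = log (|Om| q / cl) <= |Om| q(f x) / cl(x) - 1 (Real.log_le_sub_one_of_pos);
sum over x in Om, with sum_div_cl: <= |Om| (sum over the image of q) - |Om| <= 0.
-/

open Classical in
theorem Ent_gibbs {X A : Type*} (Om : Finset X) (f : X → A) (q : A → ℝ)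
    (hq : ∀ x ∈ Om, 0 < q (f x)) (hs : ∑ a ∈ Om.image f, q a ≤ 1) :
    Ent Om f ≤ ∑ x ∈ Om, (- Real.log (q (f x))) := by
  have h1 : ∀ x ∈ Om, (Real.log (Om.card : ℝ) - Real.log (cl Om f x : ℝ)) ≤
      - Real.log (q (f x)) + ((Om.card : ℝ) * (q (f x) / (cl Om f x : ℝ)) - 1) := by
    intro x hx
    have p1 : (0 : ℝ) < (cl Om f x : ℝ) := Nat.cast_pos.mpr (cl_pos Om f x hx)
    have p2 : (0 : ℝ) < (Om.card : ℝ) := Nat.cast_pos.mpr (Finset.card_pos.mpr ⟨x, hx⟩)
    have p3 := hq x hx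
    have hl : Real.log ((Om.card : ℝ) * (q (f x) / (cl Om f x : ℝ))) ≤ (Om.card : ℝ) * (q (f x) / (cl Om f x : ℝ)) - 1 :=
      Real.log_le_sub_one_of_pos (by positivity)
    rw [Real.log_mul p2.ne' (by positivity), Real.log_div p3.ne' p1.ne'] at hl
    linarith
  unfold Ent
  refine (Finset.sum_le_sum h1).trans ?_
  rw [Finset.sum_add_distrib, Finset.sum_sub_distrib (g := fun _ => (1 : ℝ)), ← Finset.mul_sum, sum_div_cl]
  have h2 : ∑ x ∈ Om, (1 : ℝ) = Om.card := by simp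
  rw [h2]
  have h3 : (0 : ℝ) ≤ (Om.card : ℝ) := Nat.cast_nonneg _
  nlinarith [mul_le_mul_of_nonneg_left hs h3]

end H98T
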