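import Mathlib
import Pool.Agent.Lib.H98T.E0
import Pool.Agent.Lib.H98T.E01

set_option autoImplicit false

namespace H98T

open Finset

/-!
Module E, chunk E04 (M): submodularity.
Ent(f,g,h) + Ent(h) <= Ent(f,h) + Ent(g,h).
Proof.  Write N_f(x) = cl Om f x etc.  The difference is sum over x in Om of log (N_fh N_gh / (N_fgh N_h)) <=
sum over x of (N_fh N_gh / (N_fgh N_h) - 1), so it is enough that  sum_x N_fh(x) N_gh(x) / (N_fgh(x) N_h(x)) <= |Om|.
Now N_fh(x) N_gh(x) = number of pairs (y,z) in Om x Om with (f,h)(y) = (f,h)(x), (g,h)(z) = (g,h)(x).  Exchange the sums: the left side is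
the sum over the pairs (y,z) with h y = h z of (1/N_h(y)) * sum over the x with f x = f y, g x = g z, h x = h y of 1/N_fgh(x); these x are
one class of (f,g,h) or none, so the inner sum is 1 or 0 (sum_inv_cl).  So the left side is <= sum over y of sum over z with h z = h y of 1/N_h(y) = |Om|.
-/

open Classical in
theorem e04_cl {X A : Type*} (Om : Finset X) (f : X → A) (x : X) :
    (cl Om f x : ℝ) = ∑ y ∈ Om, (if f y = f x then (1 : ℝ) else 0) := by
  unfold cl
  rw [Finset.card_filter]
  push_cast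
  rfl

open Classical in
theorem e04_main {X A B C : Type*} (Om : Finset X) (f : X → A) (g : X → B) (h : X → C) :
    ∑ x ∈ Om, ((cl Om (fun x => (f x, h x)) x : ℝ) * (cl Om (fun x => (g x, h x)) x : ℝ) *
      (1 / ((cl Om (fun x => (f x, g x, h x)) x : ℝ) * (cl Om h x : ℝ)))) ≤ (Om.card : ℝ) := by
  set w : X → ℝ := fun x => 1 / ((cl Om (fun x => (f x, g x, h x)) x : ℝ) * (cl Om h x : ℝ)) with hw
  have h1 : ∑ x ∈ Om, ((cl Om (fun x => (f x, h x)) x : ℝ) * (cl Om (fun x => (g x, h x)) x : ℝ) * w x) =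
      ∑ y ∈ Om, ∑ z ∈ Om, ∑ x ∈ Om, ((if (f y, h y) = (f x, h x) then (1 : ℝ) else 0) * (if (g z, h z) = (g x, h x) then (1 : ℝ) else 0) * w x) := by
    have h2 : ∀ x ∈ Om, ((cl Om (fun x => (f x, h x)) x : ℝ) * (cl Om (fun x => (g x, h x)) x : ℝ) * w x) =
        ∑ y ∈ Om, ∑ z ∈ Om, ((if (f y, h y) = (f x, h x) then (1 : ℝ) else 0) * (if (g z, h z) = (g x, h x) then (1 : ℝ) else 0) * w x) := by
      intro x _
      rw [e04_cl, e04_cl, Finset.sum_mul_sum, Finset.sum_mul]
      refine Finset.sum_congr rfl (fun y _ => ?_)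
      rw [Finset.sum_mul]
      refine Finset.sum_congr rfl (fun z _ => ?_)
      congr!
    rw [Finset.sum_congr rfl h2, Finset.sum_comm]
    exact Finset.sum_congr rfl (fun y _ => Finset.sum_comm)
  rw [h1]
  have h3 : ∀ y ∈ Om, ∀ z ∈ Om, ∑ x ∈ Om, ((if (f y, h y) = (f x, h x) then (1 : ℝ) else 0) * (if (g z, h z) = (g x, h x) then (1 : ℝ) else 0) * w x) ≤
      (if h z = h y then 1 / (cl Om h y : ℝ) else 0) := by
    intro y hy z hz
    by_cases hex : ∃ x0 ∈ Om, f x0 = f y ∧ g x0 = g z ∧ h x0 = h y ∧ h x0 = h z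
    · obtain ⟨x0, hx0, e1, e2, e3, e4⟩ := hex
      rw [if_pos (e4.symm.trans e3)]
      have h4 := sum_inv_cl Om (fun x => (f x, g x, h x)) x0 hx0
      rw [Finset.sum_filter] at h4
      have h5 : ∀ x ∈ Om, ((if (f y, h y) = (f x, h x) then (1 : ℝ) else 0) * (if (g z, h z) = (g x, h x) then (1 : ℝ) else 0) * w x) =
          (if (f x, g x, h x) = (f x0, g x0, h x0) then 1 / (cl Om (fun x => (f x, g x, h x)) x : ℝ) else 0) * (1 / (cl Om h y : ℝ)) := by
        intro x _
        by_cases hx : (f x, g x, h x) = (f x0, g x0, h x0)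
        · rw [if_pos hx]
          simp only [Prod.mk.injEq] at hx
          obtain ⟨k1, k2, k3⟩ := hx
          have c1 : (f y, h y) = (f x, h x) := by rw [k1, k3, e1, e3]
          have c2 : (g z, h z) = (g x, h x) := by rw [k2, k3, e2, ← e4]
          rw [if_pos c1, if_pos c2, hw]
          have c3 : cl Om h x = cl Om h y := by unfold cl; rw [k3, e3]
          simp only
          rw [c3, one_mul, one_mul, one_div_mul_one_div]
        · rw [if_neg hx, zero_mul]
          by_cases c1 : (f y, h y) = (f x, h x)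
          · by_cases c2 : (g z, h z) = (g x, h x)
            · exfalso
              apply hx
              simp only [Prod.mk.injEq] at c1 c2 ⊢
              exact ⟨c1.1.symm.trans e1.symm, c2.1.symm.trans e2.symm, c1.2.symm.trans e3.symm⟩
            · rw [if_neg c2]; ring
          · rw [if_neg c1]; ring
      rw [Finset.sum_congr rfl h5, ← Finset.sum_mul]
      have h6 : (∑ i ∈ Om, if (f i, g i, h i) = (f x0, g x0, h x0) then 1 / (cl Om (fun x => (f x, g x, h x)) i : ℝ) else 0) = 1 := by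
        rw [← h4]
        refine Finset.sum_congr rfl (fun z _ => ?_)
        congr!
      rw [h6, one_mul]
    · have h5 : ∀ x ∈ Om, ((if (f y, h y) = (f x, h x) then (1 : ℝ) else 0) * (if (g z, h z) = (g x, h x) then (1 : ℝ) else 0) * w x) = 0 := by
        intro x hx
        by_cases c1 : (f y, h y) = (f x, h x)
        · by_cases c2 : (g z, h z) = (g x, h x)
          · exfalso
            apply hex
            simp only [Prod.mk.injEq] at c1 c2
            exact ⟨x, hx, c1.1.symm, c2.1.symm, c1.2.symm, c2.2.symm⟩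
          · rw [if_neg c2]; ring
        · rw [if_neg c1]; ring
      rw [Finset.sum_congr rfl h5, Finset.sum_const_zero]
      split_ifs
      · positivity
      · exact le_rfl
  refine (Finset.sum_le_sum (fun y hy => Finset.sum_le_sum (fun z hz => h3 y hy z hz))).trans (le_of_eq ?_)
  have h6 : ∀ y ∈ Om, ∑ z ∈ Om, (if h z = h y then 1 / (cl Om h y : ℝ) else 0) = 1 := by
    intro y hy
    have hpos : (0 : ℝ) < (cl Om h y : ℝ) := Nat.cast_pos.mpr (cl_pos Om h y hy)
    have h7 : ∑ z ∈ Om, (if h z = h y then 1 / (cl Om h y : ℝ) else 0) = (cl Om h y : ℝ) * (1 / (cl Om h y : ℝ)) := by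
      conv_rhs => rw [e04_cl Om h y]
      rw [Finset.sum_mul]
      refine Finset.sum_congr rfl (fun z _ => ?_)
      rw [e04_cl Om h y]
      split_ifs <;> simp
    rw [h7]
    field_simp
  rw [Finset.sum_congr rfl h6]
  simp

theorem Ent_submod {X A B C : Type*} (Om : Finset X) (f : X → A) (g : X → B) (h : X → C) :
    Ent Om (fun x => (f x, g x, h x)) + Ent Om h ≤ Ent Om (fun x => (f x, h x)) + Ent Om (fun x => (g x, h x)) := by
  have hmain := e04_main Om f g h
  unfold Ent
  rw [← Finset.sum_add_distrib, ← Finset.sum_add_distrib]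
  have hterm : ∀ x ∈ Om, (Real.log (Om.card : ℝ) - Real.log (cl Om (fun x => (f x, g x, h x)) x : ℝ)) +
      (Real.log (Om.card : ℝ) - Real.log (cl Om h x : ℝ)) ≤
      ((Real.log (Om.card : ℝ) - Real.log (cl Om (fun x => (f x, h x)) x : ℝ)) +
      (Real.log (Om.card : ℝ) - Real.log (cl Om (fun x => (g x, h x)) x : ℝ))) +
      (((cl Om (fun x => (f x, h x)) x : ℝ) * (cl Om (fun x => (g x, h x)) x : ℝ) *
      (1 / ((cl Om (fun x => (f x, g x, h x)) x : ℝ) * (cl Om h x : ℝ)))) - 1) := by
    intro x hx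
    have p1 : (0 : ℝ) < cl Om (fun x => (f x, g x, h x)) x := Nat.cast_pos.mpr (cl_pos Om _ x hx)
    have p2 : (0 : ℝ) < cl Om h x := Nat.cast_pos.mpr (cl_pos Om _ x hx)
    have p3 : (0 : ℝ) < cl Om (fun x => (f x, h x)) x := Nat.cast_pos.mpr (cl_pos Om _ x hx)
    have p4 : (0 : ℝ) < cl Om (fun x => (g x, h x)) x := Nat.cast_pos.mpr (cl_pos Om _ x hx)
    set a : ℝ := ((cl Om (fun x => (f x, g x, h x)) x : ℕ) : ℝ)
    set b : ℝ := ((cl Om h x : ℕ) : ℝ)
    set c : ℝ := ((cl Om (fun x => (f x, h x)) x : ℕ) : ℝ)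
    set d : ℝ := ((cl Om (fun x => (g x, h x)) x : ℕ) : ℝ)
    have hl : Real.log (c * d * (1 / (a * b))) ≤ c * d * (1 / (a * b)) - 1 := Real.log_le_sub_one_of_pos (by positivity)
    have he : Real.log (c * d * (1 / (a * b))) = Real.log c + Real.log d - (Real.log a + Real.log b) := by
      rw [mul_one_div, Real.log_div (by positivity) (by positivity), Real.log_mul p3.ne' p4.ne', Real.log_mul p1.ne' p2.ne']
    linarith
  refine (Finset.sum_le_sum hterm).trans ?_
  rw [Finset.sum_add_distrib, Finset.sum_sub_distrib (g := fun _ => (1 : ℝ))]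
  have : ∑ x ∈ Om, (1 : ℝ) = Om.card := by simp
  rw [this]
  linarith

end H98T
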