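import Mathlib
import Pool.Agent.Lib.H98T.E0
import Pool.Agent.Lib.H98T.E02
import Pool.Agent.Lib.H98T.E03
import Pool.Agent.Lib.H98T.E04

set_option autoImplicit false

namespace H98T

open Finset

/-!
Module E, chunk E06 (S/M): partition of Om by a flag with values in a finite type J.
For x in Om the class of x for g in the part {fl = fl x} is the class of x for (fl, g) in Om:
cl (Om.filter (fl = fl x)) g x = cl Om (fun y => (fl y, g y)) x and the card of the part of x is cl Om fl x.  Hence (sum_fiberwise)
sum over j of Ent (Om.filter (fl = j)) g = sum over x of (log cl(fl) - log cl(fl,g)) = Ent (fl,g) - Ent fl.     (chain rule)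
(2) Ent (fl,g) - Ent fl <= Ent g (submodularity with h constant).
(3) Ent g <= Ent (fl,g) = Ent fl + sum, Ent fl <= |Om| log |J| by Gibbs with q = 1/|J| (J nonempty if Om is nonempty).
-/

open Classical in
theorem Ent_chain {X A J : Type*} [Fintype J] (Om : Finset X) (fl : X → J) (g : X → A) :
    Ent Om (fun x => (fl x, g x)) = Ent Om fl + ∑ j : J, Ent (Om.filter (fun x => fl x = j)) g := by
  have h1 : ∑ j : J, Ent (Om.filter (fun x => fl x = j)) g =
      ∑ j : J, ∑ x ∈ Om.filter (fun x => fl x = j), (Real.log (cl Om fl x : ℝ) - Real.log (cl Om (fun x => (fl x, g x)) x : ℝ)) := by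
    refine Finset.sum_congr rfl (fun j _ => ?_)
    unfold Ent
    refine Finset.sum_congr rfl (fun x hx => ?_)
    rw [Finset.mem_filter] at hx
    obtain ⟨hx, hj⟩ := hx
    have e1 : (Om.filter (fun x => fl x = j)).card = cl Om fl x := by
      unfold cl
      congr 1
      apply Finset.filter_congr
      intro y _
      rw [hj]
    have e2 : cl (Om.filter (fun x => fl x = j)) g x = cl Om (fun x => (fl x, g x)) x := by
      unfold cl
      congr 1
      ext y
      simp only [Finset.mem_filter, Prod.mk.injEq, hj]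
      tauto
    rw [e1, e2]
  have h2 : ∑ j : J, ∑ x ∈ Om.filter (fun x => fl x = j), (Real.log (cl Om fl x : ℝ) - Real.log (cl Om (fun x => (fl x, g x)) x : ℝ)) =
      ∑ x ∈ Om, (Real.log (cl Om fl x : ℝ) - Real.log (cl Om (fun x => (fl x, g x)) x : ℝ)) := by
    rw [← Finset.sum_fiberwise Om fl]
  rw [h1, h2]
  unfold Ent
  rw [← Finset.sum_add_distrib]
  exact Finset.sum_congr rfl (fun x _ => by ring)

open Classical in
theorem Ent_parts_le {X A J : Type*} [Fintype J] (Om : Finset X) (fl : X → J) (g : X → A) :
    ∑ j : J, Ent (Om.filter (fun x => fl x = j)) g ≤ Ent Om g := by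
  have h1 := Ent_chain Om fl g
  have h2 := Ent_submod Om fl g (fun _ => ())
  have h3 : Ent Om (fun x => (fl x, g x, ())) = Ent Om (fun x => (fl x, g x)) :=
    Ent_congr Om _ _ (fun x _ y _ => by simp)
  have h4 : Ent Om (fun x => (fl x, ())) = Ent Om fl := Ent_congr Om _ _ (fun x _ y _ => by simp)
  have h5 : Ent Om (fun x => (g x, ())) = Ent Om g := Ent_congr Om _ _ (fun x _ y _ => by simp)
  have h6 := Ent_nonneg Om (fun _ : X => ())
  rw [h3, h4, h5] at h2
  linarith

theorem Ent_le_card_log {X J : Type*} [Fintype J] (Om : Finset X) (fl : X → J) :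
    Ent Om fl ≤ (Om.card : ℝ) * Real.log (Fintype.card J) := by
  classical
  have h := Ent_gibbs Om fl (fun _ => 1 / (Fintype.card J : ℝ)) (fun x _ => by
      have : 0 < Fintype.card J := Fintype.card_pos_iff.mpr ⟨fl x⟩
      positivity) (by
      rw [Finset.sum_const, nsmul_eq_mul]
      rcases Nat.eq_zero_or_pos (Fintype.card J) with h0 | h0
      · rw [h0]; simp
      · have h1 : (0 : ℝ) < Fintype.card J := Nat.cast_pos.mpr h0
        rw [mul_one_div, div_le_one h1]
        exact_mod_cast Finset.card_le_univ _)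
  refine h.trans (le_of_eq ?_)
  rw [Finset.sum_const, nsmul_eq_mul, one_div, Real.log_inv, neg_neg]

open Classical in
theorem Ent_le_parts {X A J : Type*} [Fintype J] (Om : Finset X) (fl : X → J) (g : X → A) :
    Ent Om g ≤ (Om.card : ℝ) * Real.log (Fintype.card J) + ∑ j : J, Ent (Om.filter (fun x => fl x = j)) g := by
  have h1 := Ent_chain Om fl g
  have h2 := Ent_le_card_log Om fl
  have h3 : Ent Om g ≤ Ent Om (fun x => (fl x, g x)) := Ent_mono Om _ _ (fun x _ y _ h => by
    simp only [Prod.mk.injEq] at h
    exact h.2)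
  linarith

end H98T
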