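import Mathlib
import Pool.Agent.Lib.H98T.E0
import Pool.Agent.Lib.H98T.E01
import Pool.Agent.Lib.H98T.E02
import Pool.Agent.Lib.H98T.E06

set_option autoImplicit false

namespace H98T

open Finset

/-!
Module C, chunk C04 (S/M): entropy of the two versions of a side.
Ent_equiv: transport by a permutation e of V with f' (e x) = f x, restricted to the labels <> none: sum_bij / Finset.sum_nbij with e; classes and cards correspond.
Ent_le_nonF: Ent univ f <= |V| log 2 + Ent NF f: Ent_le_parts with the flag x -> decide (f x <> none) in Bool; the part f = none has entropy 0 (Ent_const).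
glue_le: with m_i = |NF_i| <= D = |V|: sum_(x in NF_i) log cl = m_i log m_i - Ent NF_i (Fp i) <= m_i log D - Ent NF_i (Fp i) (definition of Ent), and
Ent NF_i (Fp i) = (1/2)(Ent NF_i (Fp i) + Ent NF'_i (Fn i)) >= (1/2)(Ent univ (Fp i) + Ent univ (Fn i)) - D log 2.
-/

theorem c04_sum_log_cl {X A : Type*} (S : Finset X) (f : X → A) :
    ∑ x ∈ S, Real.log (cl S f x : ℝ) = (S.card : ℝ) * Real.log (S.card : ℝ) - Ent S f := by
  unfold Ent
  rw [Finset.sum_sub_distrib, Finset.sum_const, nsmul_eq_mul]
  ring

theorem c04_log_le (m D : ℕ) (h : m ≤ D) : (m : ℝ) * Real.log (m : ℝ) ≤ (m : ℝ) * Real.log (D : ℝ) := by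
  rcases Nat.eq_zero_or_pos m with h0 | h0
  · subst h0
    simp
  · refine mul_le_mul_of_nonneg_left ?_ (Nat.cast_nonneg m)
    exact Real.log_le_log (Nat.cast_pos.mpr h0) (Nat.cast_le.mpr h)

open Classical in
theorem Ent_equiv {V Lab : Type} [Fintype V] (e : Equiv.Perm V) (f f' : V → Option Lab) (h : ∀ x, f' (e x) = f x) :
    Ent (Finset.univ.filter (fun x => f x ≠ none)) f = Ent (Finset.univ.filter (fun x => f' x ≠ none)) f' := by
  have hS : ∀ x, x ∈ (Finset.univ.filter (fun x => f x ≠ none)) ↔ e x ∈ (Finset.univ.filter (fun x => f' x ≠ none)) := by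
    intro x
    rw [mem_filter, mem_filter, h]
    simp
  have hcard : (Finset.univ.filter (fun x => f x ≠ none)).card = (Finset.univ.filter (fun x => f' x ≠ none)).card :=
    Finset.card_bijective e e.bijective hS
  have hcl : ∀ x, cl (Finset.univ.filter (fun x => f x ≠ none)) f x = cl (Finset.univ.filter (fun x => f' x ≠ none)) f' (e x) := by
    intro x
    unfold cl
    refine Finset.card_bijective e e.bijective (fun y => ?_)
    have h1 := hS y
    simp only [mem_filter] at h1 ⊢
    rw [h1, h, h]
  unfold Ent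
  rw [hcard]
  exact Finset.sum_bijective e e.bijective hS (fun x _ => by rw [hcl])

open Classical in
theorem Ent_le_nonF {V Lab : Type} [Fintype V] (f : V → Option Lab) :
    Ent Finset.univ f ≤ (Fintype.card V : ℝ) * Real.log 2 + Ent (Finset.univ.filter (fun x => f x ≠ none)) f := by
  have h1 := Ent_le_parts (Finset.univ : Finset V) (fun x => decide (f x ≠ none)) f
  rw [Fintype.sum_bool, Fintype.card_bool, Finset.card_univ] at h1
  have h2 : ∀ inst : DecidablePred (fun x => decide (f x ≠ none) = false),
      Ent (@Finset.filter V (fun x => decide (f x ≠ none) = false) inst Finset.univ) f = 0 := by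
    intro inst
    refine Ent_const _ _ ?_
    intro x hx y hy
    rw [mem_filter, decide_eq_false_iff_not, not_not] at hx hy
    rw [hx.2, hy.2]
  have h3 : ∀ inst : DecidablePred (fun x => decide (f x ≠ none) = true),
      @Finset.filter V (fun x => decide (f x ≠ none) = true) inst Finset.univ = Finset.univ.filter (fun x => f x ≠ none) := by
    intro inst
    ext x
    simp
  rw [h2, h3] at h1
  push_cast at h1
  linarith

open Classical in
theorem glue_le {V Lab : Type} [Fintype V] {k : ℕ} (e : Fin k → Equiv.Perm V) (Fp Fn : Fin k → V → Option Lab)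
    (h : ∀ i x, Fn i (e i x) = Fp i x) :
    ∑ i, ∑ x ∈ Finset.univ.filter (fun x => Fp i x ≠ none),
        Real.log (cl (Finset.univ.filter (fun x => Fp i x ≠ none)) (Fp i) x : ℝ) ≤
      (∑ i, ((Finset.univ.filter (fun x => Fp i x ≠ none)).card : ℝ)) * Real.log (Fintype.card V : ℝ)
      - (1 / 2) * ∑ i, (Ent Finset.univ (Fp i) + Ent Finset.univ (Fn i)) + (k : ℝ) * (Fintype.card V : ℝ) * Real.log 2 := by
  have key : ∀ i, ∑ x ∈ Finset.univ.filter (fun x => Fp i x ≠ none),
        Real.log (cl (Finset.univ.filter (fun x => Fp i x ≠ none)) (Fp i) x : ℝ) ≤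
      ((Finset.univ.filter (fun x => Fp i x ≠ none)).card : ℝ) * Real.log (Fintype.card V : ℝ)
      - (1 / 2) * (Ent Finset.univ (Fp i) + Ent Finset.univ (Fn i)) + (Fintype.card V : ℝ) * Real.log 2 := by
    intro i
    rw [c04_sum_log_cl]
    have h1 := c04_log_le (Finset.univ.filter (fun x => Fp i x ≠ none)).card (Fintype.card V) (card_le_univ _)
    have h2 := Ent_le_nonF (Fp i)
    have h3 := Ent_le_nonF (Fn i)
    have h4 := Ent_equiv (e i) (Fp i) (Fn i) (h i)
    linarith
  refine (Finset.sum_le_sum (fun i _ => key i)).trans (le_of_eq ?_)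
  rw [Finset.sum_add_distrib, Finset.sum_sub_distrib, ← Finset.sum_mul, ← Finset.mul_sum, Finset.sum_const, Finset.card_univ,
    Fintype.card_fin, nsmul_eq_mul]
  ring

end H98T
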