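import Mathlib
import Pool.Agent.Lib.H98T.E0

set_option autoImplicit false

namespace H98T

open Finset

/-!
Module E: the labelled net (definitions).  X = polygons, C = cells (including infinity), m = number of nodes of a polygon (4g-2).
Node k < m, darts j : Fin 3.  Dart (k,0) is glued to dart (k-1,2) (k >= 1) inside the polygon; the outer darts are (0,0), (k,1), (m-1,2);
outer index o < m + 2: 0 -> (0,0), k+1 -> (k,1), m+1 -> (m-1,2).
reg = regular polygons; pat x k : 0 = no F-dart at the node, 1 = dart 1 is in F0, 2 = dart 1 is in F1.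
l k j x = list of the cells at the positions of P on the dart, p k j x = index of the centre in it, c k x = centre cell,
z k j x = edits between the two versions of leg j of the node, b o x = label of the outer side o (none = F, some none = null,
some (some l) = list read along the positive direction), rv o = is the positive direction the inverse of the dart direction.
-/

structure LNet (X C : Type) (m : ℕ) where
  reg : Finset X
  pat : X → ℕ → Fin 3
  l : ℕ → Fin 3 → X → List C
  p : ℕ → Fin 3 → X → ℕ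
  c : ℕ → X → C
  z : ℕ → Fin 3 → X → List (Ed C)
  b : ℕ → X → Option (Option (List C))
  rv : ℕ → Bool
  hp : ∀ x ∈ reg, ∀ k < m, ∀ j, p k j x < (l k j x).length
  hc : ∀ x ∈ reg, ∀ k < m, ∀ j, (l k j x)[p k j x]? = some (c k x)
  h1 : ∀ x ∈ reg, ∀ k < m, ∀ j, ((l k j x).drop (p k j x + 1)).reverse =
    ap ((l k (j + 1) x).take (p k (j + 1) x)) (z k (j + 1) x)
  h2 : ∀ x ∈ reg, ∀ k < m, ∀ j, (l k (j + 1) x).take (p k (j + 1) x) =
    ap' (((l k j x).drop (p k j x + 1)).reverse) (z k (j + 1) x)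
  hF0 : ∀ x ∈ reg, ∀ k < m, pat x k = 1 → (l k 1 x).length = 1
  hdiag : ∀ x ∈ reg, ∀ k, k + 1 < m → l (k + 1) 0 x = (l k 2 x).reverse
  hb0 : ∀ x ∈ reg, b 0 x = some (some (rvl (rv 0) (l 0 0 x)))
  hb1 : ∀ x ∈ reg, ∀ k < m, b (k + 1) x = if pat x k = 0 then some (some (rvl (rv (k + 1)) (l k 1 x))) else none
  hb2 : ∀ x ∈ reg, b (m + 1) x = some (some (rvl (rv (m + 1)) (l (m - 1) 2 x)))

/-- the finite data of a polygon: pattern and visible lists (none / empty outside reg), outer labels -/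
abbrev Typ (C : Type) (m : ℕ) :=
  Option (Fin m → Fin 3) × (Fin m → Fin 3 → List C) × (Fin (m + 2) → Option (Option (List C)))

noncomputable section

open Classical in
def LNet.flag {X C : Type} {m : ℕ} (A : LNet X C m) (x : X) : Option (Fin m → Fin 3) :=
  if x ∈ A.reg then some (fun k => A.pat x k) else none

open Classical in
/-- visible lists -/
def LNet.vis {X C : Type} {m : ℕ} (A : LNet X C m) (x : X) (k : ℕ) (j : Fin 3) : List C :=
  if x ∈ A.reg ∧ ¬ (j = 1 ∧ A.pat x k ≠ 0) then A.l k j x else []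

def LNet.typ {X C : Type} {m : ℕ} (A : LNet X C m) (x : X) : Typ C m :=
  (A.flag x, fun k j => A.vis x k j, fun o => A.b o x)

open Classical in
/-- the numerical hypotheses -/
structure LNet.Bd {X C : Type} {m : ℕ} [Fintype X] (A : LNet X C m) (Lam kap th eta eta1 : ℝ) (Lmax : ℕ) : Prop where
  len : ∀ x ∈ A.reg, ∀ k < m, ∀ j, (A.l k j x).length ≤ Lmax
  lenb : ∀ x, ∀ o < m + 2, bsz (A.b o x) ≤ Lmax
  sum : ∀ k < m, ∀ j, ∑ x ∈ A.reg, ((A.l k j x).length : ℝ) ≤ Lam * Fintype.card X
  cen : ∀ k < m, ∀ q : C, ((A.reg.filter (fun x => A.c k x = q)).card : ℝ) ≤ kap * Fintype.card X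
  edit : ∑ x ∈ A.reg, ∑ k ∈ Finset.range m, ∑ j, ((A.z k j x).length : ℝ) ≤ th * Fintype.card X
  edi : ∀ x ∈ A.reg, ∀ k < m, ∀ j, ∀ e ∈ A.z k j x, e.1 ≤ Lmax
  f1 : ∑ x ∈ A.reg, ∑ k ∈ (Finset.range m).filter (fun k => A.pat x k = 2), ((A.l k 1 x).length : ℝ) ≤ eta * Fintype.card X
  f1n : ∑ x ∈ A.reg, (((Finset.range m).filter (fun k => A.pat x k = 2)).card : ℝ) ≤ eta1 * Fintype.card X
  rest : ∑ x ∈ Finset.univ \ A.reg, ∑ o ∈ Finset.range (m + 2), (bsz (A.b o x) : ℝ) ≤ eta * Fintype.card X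

open Classical in
/-- number of nodes without F-dart in regular polygons -/
def LNet.nN {X C : Type} {m : ℕ} (A : LNet X C m) : ℕ :=
  ∑ k ∈ Finset.range m, (A.reg.filter (fun x => A.pat x k = 0)).card

/-- the constant of the assembly -/
def CE (m : ℕ) : ℝ :=
  Real.log (3 ^ m + 1) + (3 / 2) * m + (m / 2) * (3 : ℝ) ^ m + (15 / 2) * m * Real.log 2 + (m + 2) * Real.log 4

end

end H98T
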