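import Mathlib
import Pool.Agent.Lib.H98T.E0
import Pool.Agent.Lib.H98T.EN

set_option autoImplicit false

namespace H98T

open Finset

/-!
Module C, chunk C05 (S): the possible types of polygons form a finite set which depends only on C, m, Lmax.
The set of lists over C of length <= Lmax is finite (List.finite_length_le); LL its Finset; take TT = all (u, v, w) with u arbitrary (finite type), v k j in LL for all k j,
w o = none or some none or some (some l), l in LL (Set.Finite.pi, Set.Finite.prod, toFinset).  vis is [] or l k j x with x in reg (Bd.len), bsz (b o x) <= Lmax (Bd.lenb).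
-/

theorem exists_types (C : Type) [Fintype C] (m Lmax : ℕ) : ∃ TT : Finset (Typ C m),
    ∀ (d : ℕ) (A : LNet (Fin d) C m) (Lam kap th eta eta1 : ℝ), A.Bd Lam kap th eta eta1 Lmax → ∀ x, A.typ x ∈ TT := by
  classical
  have h1 : {l : List C | l.length ≤ Lmax}.Finite := List.finite_length_le C Lmax
  have h2 : {o : Option (Option (List C)) | o = none ∨ o = some none ∨ ∃ l : List C, l.length ≤ Lmax ∧ o = some (some l)}.Finite := by
    refine (((Set.finite_singleton (none : Option (Option (List C)))).union
      (Set.finite_singleton (some none))).union (h1.image (fun l => some (some l)))).subset ?_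
    rintro o (h | h | ⟨l, hl, h⟩)
    · exact Or.inl (Or.inl h)
    · exact Or.inl (Or.inr h)
    · exact Or.inr ⟨l, hl, h.symm⟩
  have h3 : {v : Fin m → Fin 3 → List C | ∀ k, v k ∈ {w : Fin 3 → List C | ∀ j, w j ∈ {l : List C | l.length ≤ Lmax}}}.Finite :=
    Set.Finite.pi' (fun _ => Set.Finite.pi' (fun _ => h1))
  have h4 : {w : Fin (m + 2) → Option (Option (List C)) | ∀ o, w o ∈
      {o : Option (Option (List C)) | o = none ∨ o = some none ∨ ∃ l : List C, l.length ≤ Lmax ∧ o = some (some l)}}.Finite :=
    Set.Finite.pi' (fun _ => h2)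
  have h5 := (Set.finite_univ (α := Option (Fin m → Fin 3))).prod (h3.prod h4)
  refine ⟨h5.toFinset, ?_⟩
  intro d A Lam kap th eta eta1 hA x
  rw [Set.Finite.mem_toFinset]
  refine ⟨Set.mem_univ _, ?_, ?_⟩
  · intro k j
    change (A.vis x k j).length ≤ Lmax
    unfold LNet.vis
    split_ifs with h
    · exact hA.len x h.1 k k.2 j
    · exact Nat.zero_le _
  · intro o
    change A.b o x = none ∨ A.b o x = some none ∨ ∃ l : List C, l.length ≤ Lmax ∧ A.b o x = some (some l)
    have h6 := hA.lenb x o o.2
    rcases hb : A.b o x with _ | _ | l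
    · exact Or.inl rfl
    · exact Or.inr (Or.inl rfl)
    · refine Or.inr (Or.inr ⟨l, ?_, rfl⟩)
      rw [hb] at h6
      exact h6

end H98T
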