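import Mathlib
import Pool.Agent.Lib.H98T.E0
import Pool.Agent.Lib.H98T.EN

set_option autoImplicit false

namespace H98T

open Finset

/-!
Module C: sides and kinds (definitions).  g = genus, sides s < 4g, kinds i < 2g; kind i = 2h + r (r < 2) has positive side 4h + r and negative side 4h + r + 2.
Outer index of the side s: (s + 4g - 6) mod 4g  (side 6 -> 0, side 7 + k mod 4g -> k + 1, side 5 -> 4g - 1 = m + 1, m = 4g - 2).
-/

/-- positive side of kind i -/
def spos (i : ℕ) : ℕ := 4 * (i / 2) + i % 2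

/-- negative side of kind i -/
def sneg (i : ℕ) : ℕ := 4 * (i / 2) + i % 2 + 2

/-- outer index of side s -/
def osd (g s : ℕ) : ℕ := (s + 4 * g - 6) % (4 * g)

noncomputable section

/-- the constant in the counting theorem -/
def CK (g : ℕ) (N Lmax : ℕ) (th eta eta1 : ℝ) : ℝ :=
  CE (4 * g - 2) + (5 / 2) * th * Real.log (4 * ((Lmax : ℝ) + 1) * (N : ℝ)) + 2 * eta * Real.log (2 * (N : ℝ))
    + eta1 * (Real.log 2 + 2 * Real.log (Lmax : ℝ)) + 2 * g * Real.log 2 + (2 * g - 1)

end

end H98T
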