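import Mathlib
import Pool.Agent.Lib.H98T.E0
import Pool.Agent.Lib.H98T.EN
import Pool.Agent.Lib.H98T.CN

set_option autoImplicit false

namespace H98T

open Finset

/-!
Module C, chunk C06 (S/M): arithmetic of the sides, m = 4g - 2, g >= 2.
The map from {spos, sneg} x {i < 2g} to {o < 4g}, i -> osd g (spos i), osd g (sneg i), is a bijection onto range (4g) = range (m+2).
sum_sides: reindex the sum over o < 4g.  (Every o < 4g is osd g s for exactly one s < 4g, and every s < 4g is spos i (s % 4 < 2) or sneg i (s % 4 >= 2) for exactly one i < 2g.)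
-/

theorem c06_osd (g : ℕ) (hg : 2 ≤ g) (s : ℕ) (hs : s < 4 * g) : osd g s = if 6 ≤ s then s - 6 else s + 4 * g - 6 := by
  unfold osd
  split_ifs with h
  · have h1 : s + 4 * g - 6 = (s - 6) + 4 * g := by omega
    rw [h1, Nat.add_mod_right, Nat.mod_eq_of_lt (by omega)]
  · rw [Nat.mod_eq_of_lt (by omega)]

theorem c06_inv (g : ℕ) (hg : 2 ≤ g) (o : ℕ) (ho : o < 4 * g) :
    (o + 6) % (4 * g) = if o + 6 < 4 * g then o + 6 else o + 6 - 4 * g := by
  split_ifs with h
  · rw [Nat.mod_eq_of_lt h]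
  · have h1 : o + 6 = (o + 6 - 4 * g) + 4 * g := by omega
    conv_lhs => rw [h1]
    rw [Nat.add_mod_right, Nat.mod_eq_of_lt (by omega)]

theorem c06_io (g : ℕ) (hg : 2 ≤ g) (s : ℕ) (hs : s < 4 * g) : (osd g s + 6) % (4 * g) = s := by
  have h1 := c06_osd g hg s hs
  have h2 : osd g s < 4 * g := by
    rw [h1]
    split_ifs <;> omega
  rw [c06_inv g hg _ h2, h1]
  split_ifs <;> omega

theorem c06_oi (g : ℕ) (hg : 2 ≤ g) (o : ℕ) (ho : o < 4 * g) : osd g ((o + 6) % (4 * g)) = o := by
  have h1 := c06_inv g hg o ho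
  have h2 : (o + 6) % (4 * g) < 4 * g := Nat.mod_lt _ (by omega)
  rw [c06_osd g hg _ h2, h1]
  split_ifs <;> omega

theorem sum_sides (g : ℕ) (hg : 2 ≤ g) (f : ℕ → ℝ) :
    ∑ o ∈ Finset.range (4 * g - 2 + 2), f o = ∑ i : Fin (2 * g), (f (osd g (spos i)) + f (osd g (sneg i))) := by
  have h0 : 4 * g - 2 + 2 = 4 * g := by omega
  rw [h0]
  have h1 : ∑ i : Fin (2 * g), (f (osd g (spos i)) + f (osd g (sneg i))) =
      ∑ p ∈ (Finset.univ : Finset (Fin (2 * g))) ×ˢ Finset.range 2, f (osd g (spos p.1 + 2 * p.2)) := by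
    rw [Finset.sum_product]
    refine Finset.sum_congr rfl fun i _ => ?_
    rw [Finset.sum_range_succ, Finset.sum_range_one]
    rfl
  rw [h1]
  refine Finset.sum_nbij' (fun o => ((⟨2 * (((o + 6) % (4 * g)) / 4) + ((o + 6) % (4 * g)) % 2, by
      have h2 : (o + 6) % (4 * g) < 4 * g := Nat.mod_lt _ (by omega)
      omega⟩ : Fin (2 * g)), (((o + 6) % (4 * g)) % 4) / 2))
    (fun p => osd g (spos p.1 + 2 * p.2)) ?_ ?_ ?_ ?_ ?_
  · intro o _
    refine Finset.mem_product.2 ⟨Finset.mem_univ _, Finset.mem_range.2 ?_⟩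
    simp only
    omega
  · rintro ⟨i, b⟩ h
    have hb := Finset.mem_range.1 (Finset.mem_product.1 h).2
    simp only at hb
    have hi := i.isLt
    have hs : spos i + 2 * b < 4 * g := by
      unfold spos
      omega
    refine Finset.mem_range.2 ?_
    simp only
    rw [c06_osd g hg _ hs]
    split_ifs <;> omega
  · intro o ho
    have ho' := Finset.mem_range.1 ho
    simp only
    have h2 : (o + 6) % (4 * g) < 4 * g := Nat.mod_lt _ (by omega)
    have h3 : spos (2 * (((o + 6) % (4 * g)) / 4) + ((o + 6) % (4 * g)) % 2) + 2 * ((((o + 6) % (4 * g)) % 4) / 2) =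
        (o + 6) % (4 * g) := by
      unfold spos
      omega
    rw [h3, c06_oi g hg o ho']
  · rintro ⟨i, b⟩ h
    have hb := Finset.mem_range.1 (Finset.mem_product.1 h).2
    simp only at hb
    have hi := i.isLt
    have hs : spos i + 2 * b < 4 * g := by
      unfold spos
      omega
    simp only
    have h3 := c06_io g hg _ hs
    refine Prod.ext (Fin.ext ?_) ?_
    · simp only
      rw [h3]
      unfold spos
      omega
    · simp only
      rw [h3]
      unfold spos
      omega
  · intro o ho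
    have ho' := Finset.mem_range.1 ho
    simp only
    have h3 : spos (2 * (((o + 6) % (4 * g)) / 4) + ((o + 6) % (4 * g)) % 2) + 2 * ((((o + 6) % (4 * g)) % 4) / 2) =
        (o + 6) % (4 * g) := by
      unfold spos
      omega
    rw [h3, c06_oi g hg o ho']


theorem osd_lt (g : ℕ) (hg : 2 ≤ g) (s : ℕ) : osd g s < 4 * g - 2 + 2 := by
  have h0 : 4 * g - 2 + 2 = 4 * g := by omega
  rw [h0]
  exact Nat.mod_lt _ (by omega)


end H98T
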