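import Mathlib
import Pool.Agent.Lib.H98T.E0
import Pool.Agent.Lib.H98T.EN
import Pool.Agent.Lib.H98T.CN
import Pool.Agent.Lib.H98T.C06

set_option autoImplicit false

namespace H98T

open Finset

/-!
Module C, chunk C07 (M): the number of nodes without F-dart.  m = 4g-2.  For x in reg and k < m: pat x k <> 0 iff b (k+1) x = none (hb1).
So nN = (4g-2) |reg| - #{(x,k) : x in reg, k < m, b (k+1) x = none} >= (4g-2)|reg| - #{(x,o) : o < m+2, b o x = none}, and by sum_sides and the matching of labels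
(#{x : b (osd (sneg i)) x = none} = #{x : b (osd (spos i)) x = none}, by the permutation e i) the last number is 2 (d-1).
|reg| >= d - nu d.  So nN >= (4g-2)(1-nu) d - 2(d-1) >= ((4g-4) - (4g-2) nu) d.
-/

open Classical in
theorem nN_ge (g d : ℕ) (hg : 2 ≤ g) (hd : 1 ≤ d) {C : Type} (A : LNet (Fin d) C (4 * g - 2)) (e : Fin (2 * g) → Equiv.Perm (Fin d))
    (hlab : ∀ (i : Fin (2 * g)) x, A.b (osd g (sneg i)) (e i x) = A.b (osd g (spos i)) x)
    (hF : ∑ i : Fin (2 * g), (Finset.univ.filter (fun x => A.b (osd g (spos i)) x = none)).card = d - 1)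
    (nu : ℝ) (hnu : ((Finset.univ \ A.reg).card : ℝ) ≤ nu * d) :
    ((4 * g - 4) - (4 * g - 2) * nu) * (d : ℝ) ≤ (A.nN : ℝ) := by
  set c : ℕ → ℕ := fun o => (Finset.univ.filter (fun x : Fin d => A.b o x = none)).card with hc
  have h1 : ∀ k ∈ Finset.range (4 * g - 2), ((A.reg.card : ℕ) : ℝ) - (c (k + 1) : ℝ) ≤ ((A.reg.filter (fun x => A.pat x k = 0)).card : ℝ) := by
    intro k hk
    rw [Finset.mem_range] at hk
    have e1 : A.reg.card ≤ (A.reg.filter (fun x => A.pat x k = 0)).card + c (k + 1) := by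
      rw [← Finset.card_filter_add_card_filter_not (s := A.reg) (fun x => A.pat x k = 0)]
      apply Nat.add_le_add_left
      apply Finset.card_le_card
      intro x hx
      rw [Finset.mem_filter] at hx ⊢
      refine ⟨Finset.mem_univ _, ?_⟩
      rw [A.hb1 x hx.1 k hk, if_neg hx.2]
    have e2 : (A.reg.card : ℝ) ≤ ((A.reg.filter (fun x => A.pat x k = 0)).card : ℝ) + (c (k + 1) : ℝ) := by exact_mod_cast e1
    linarith
  have h2 : ((4 * g - 2 : ℕ) : ℝ) * (A.reg.card : ℝ) - ∑ k ∈ Finset.range (4 * g - 2), (c (k + 1) : ℝ) ≤ (A.nN : ℝ) := by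
    have e3 := Finset.sum_le_sum h1
    rw [Finset.sum_sub_distrib (f := fun _ => (A.reg.card : ℝ)), Finset.sum_const, Finset.card_range, nsmul_eq_mul] at e3
    refine e3.trans (le_of_eq ?_)
    unfold LNet.nN
    push_cast
    rfl
  have h3 : ∑ k ∈ Finset.range (4 * g - 2), (c (k + 1) : ℝ) ≤ ∑ o ∈ Finset.range (4 * g - 2 + 2), (c o : ℝ) := by
    rw [Finset.sum_range_succ, Finset.sum_range_succ']
    have e4 : (0 : ℝ) ≤ (c 0 : ℝ) := Nat.cast_nonneg _
    have e5 : (0 : ℝ) ≤ (c (4 * g - 2 + 1) : ℝ) := Nat.cast_nonneg _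
    linarith
  have h4 : ∀ i : Fin (2 * g), c (osd g (sneg i)) = c (osd g (spos i)) := by
    intro i
    simp only [hc]
    symm
    apply Finset.card_bij (fun x _ => e i x)
    · intro x hx
      rw [Finset.mem_filter] at hx ⊢
      exact ⟨Finset.mem_univ _, (hlab i x).trans hx.2⟩
    · intro x _ y _ hxy
      exact (e i).injective hxy
    · intro y hy
      rw [Finset.mem_filter] at hy
      refine ⟨(e i).symm y, ?_, by simp⟩
      rw [Finset.mem_filter]
      refine ⟨Finset.mem_univ _, ?_⟩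
      have := hlab i ((e i).symm y)
      rw [Equiv.apply_symm_apply] at this
      exact this.symm.trans hy.2
  have h5 : ∑ o ∈ Finset.range (4 * g - 2 + 2), (c o : ℝ) = 2 * ((d : ℝ) - 1) := by
    rw [sum_sides g hg (fun o => (c o : ℝ))]
    have e6 : ∑ i : Fin (2 * g), ((c (osd g (spos i)) : ℝ) + (c (osd g (sneg i)) : ℝ)) = 2 * ((∑ i : Fin (2 * g), c (osd g (spos i)) : ℕ) : ℝ) := by
      push_cast
      rw [Finset.mul_sum]
      refine Finset.sum_congr rfl (fun i _ => ?_)
      rw [h4 i]; ring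
    rw [e6]
    have e7 : (∑ i : Fin (2 * g), c (osd g (spos i))) = d - 1 := by
      rw [← hF]
    rw [e7, Nat.cast_sub hd, Nat.cast_one]
  have h6 : (A.reg.card : ℝ) + ((Finset.univ \ A.reg).card : ℝ) = d := by
    have := Finset.card_sdiff_add_card_eq_card (Finset.subset_univ A.reg)
    rw [Finset.card_univ, Fintype.card_fin] at this
    have e8 : (((Finset.univ \ A.reg).card + A.reg.card : ℕ) : ℝ) = (d : ℝ) := by rw [this]
    push_cast at e8
    linarith
  have h7 : ((4 * g - 2 : ℕ) : ℝ) = 4 * (g : ℝ) - 2 := by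
    rw [Nat.cast_sub (by omega)]; push_cast; ring
  have hg' : (2 : ℝ) ≤ (g : ℝ) := by exact_mod_cast hg
  rw [h7] at h2
  have h8 : (4 * (g : ℝ) - 2) * ((d : ℝ) - nu * d) ≤ (4 * (g : ℝ) - 2) * (A.reg.card : ℝ) :=
    mul_le_mul_of_nonneg_left (by linarith) (by linarith)
  nlinarith

end H98T
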