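import Mathlib
import Pool.Agent.Lib.H98T.E0
import Pool.Agent.Lib.H98T.E01

set_option autoImplicit false

namespace H98T

open Finset

/-!
Module E, chunk E09 (S): lower bound.  If every value of c is taken at most P times on Om (P > 0 real), Ent Om c >= |Om| (log |Om| - log P).
(2) the form used in the assembly: for P <= kap * D, 0 < kap, |Om| <= D:  |Om| log (1/kap) - D <= Ent Om c.
Proof of (2): |Om| log (|Om| / (kap D)) = |Om| log (1/kap) - |Om| log (D/|Om|), and y log (1/y) <= 1 for 0 < y <= 1 (log(1/y) <= 1/y - 1 <= 1/y), y = |Om|/D.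
-/

theorem Ent_lower {X C : Type*} (Om : Finset X) (c : X → C) (P : ℝ) (hP : 0 < P) (h : ∀ x ∈ Om, (cl Om c x : ℝ) ≤ P) :
    (Om.card : ℝ) * (Real.log (Om.card : ℝ) - Real.log P) ≤ Ent Om c := by
  unfold Ent
  have h1 : (Om.card : ℝ) * (Real.log (Om.card : ℝ) - Real.log P) = ∑ x ∈ Om, (Real.log (Om.card : ℝ) - Real.log P) := by
    rw [Finset.sum_const, nsmul_eq_mul]
  rw [h1]
  apply Finset.sum_le_sum
  intro x hx
  have p1 : (0 : ℝ) < (cl Om c x : ℝ) := Nat.cast_pos.mpr (cl_pos Om c x hx)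
  have := Real.log_le_log p1 (h x hx)
  linarith

theorem Ent_lower' {X C : Type*} (Om : Finset X) (c : X → C) (D kap : ℝ) (hD : 0 < D) (hk : 0 < kap) (hc : (Om.card : ℝ) ≤ D)
    (h : ∀ x ∈ Om, (cl Om c x : ℝ) ≤ kap * D) :
    (Om.card : ℝ) * Real.log (1 / kap) - D ≤ Ent Om c := by
  rcases Nat.eq_zero_or_pos Om.card with h0 | h0
  · have he : Om = ∅ := Finset.card_eq_zero.mp h0
    subst he
    unfold Ent
    simp
    linarith
  · have h1 := Ent_lower Om c (kap * D) (by positivity) h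
    have hp : (0 : ℝ) < (Om.card : ℝ) := Nat.cast_pos.mpr h0
    rw [Real.log_mul hk.ne' hD.ne'] at h1
    have h2 : Real.log (D / (Om.card : ℝ)) ≤ D / (Om.card : ℝ) - 1 := Real.log_le_sub_one_of_pos (by positivity)
    rw [Real.log_div hD.ne' hp.ne'] at h2
    have h3 := mul_le_mul_of_nonneg_left h2 hp.le
    have h4 : (Om.card : ℝ) * (D / (Om.card : ℝ) - 1) = D - (Om.card : ℝ) := by field_simp
    rw [h4] at h3
    rw [one_div, Real.log_inv]
    nlinarith

/-- log of sizes: sum of log (size) over a set R is at most |R| log Lam + D if the total size is at most Lam * D -/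
theorem sum_log_le {X : Type*} (R : Finset X) (s : X → ℕ) (Lam D : ℝ) (hL : 1 ≤ Lam) (hs : ∀ x ∈ R, 1 ≤ s x)
    (hD : ∑ x ∈ R, (s x : ℝ) ≤ Lam * D) :
    ∑ x ∈ R, Real.log (s x : ℝ) ≤ (R.card : ℝ) * Real.log Lam + D := by
  have hL0 : 0 < Lam := by linarith
  have h1 : ∀ x ∈ R, Real.log (s x : ℝ) ≤ Real.log Lam + (1 / Lam) * (s x : ℝ) := by
    intro x hx
    have p1 : (0 : ℝ) < (s x : ℝ) := Nat.cast_pos.mpr (hs x hx)
    have h2 : Real.log ((s x : ℝ) / Lam) ≤ (s x : ℝ) / Lam - 1 := Real.log_le_sub_one_of_pos (by positivity)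
    rw [Real.log_div p1.ne' hL0.ne'] at h2
    have h3 : (1 / Lam) * (s x : ℝ) = (s x : ℝ) / Lam := by ring
    rw [h3]
    linarith
  refine (Finset.sum_le_sum h1).trans ?_
  rw [Finset.sum_add_distrib, Finset.sum_const, nsmul_eq_mul, ← Finset.mul_sum]
  have h4 : (1 / Lam) * ∑ x ∈ R, (s x : ℝ) ≤ (1 / Lam) * (Lam * D) := mul_le_mul_of_nonneg_left hD (by positivity)
  have h5 : (1 / Lam) * (Lam * D) = D := by field_simp
  linarith

end H98T
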