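import Mathlib
import Pool.Agent.Lib.H98T.E0
import Pool.Agent.Lib.H98T.E03

set_option autoImplicit false

namespace H98T

open Finset

/-!
Module E, chunk E07 (S/M): entropy of lists.
(1) for a finite set W of lists over the alphabet AA (card N >= 1): sum over W of (2N)^(-length) / 2 <= 1.  Proof: group by the length k
(Finset.sum_fiberwise_of_maps_to with range (m+1), m = maximal length): at most N^k lists of length k over AA in W (inject into Fin k -> AA, or
List.Vector; card_le_card_of_injOn), so the sum over the length k is <= N^k (2N)^(-k) / 2 = 2^(-k-1), and sum over k of 2^(-k-1) <= 1.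
(2) Gibbs (Ent_gibbs) with q l = (2N)^(-length l)/2: - log q l = length l * log (2N) + log 2.
(3) the same for side labels o : Option (Option (List C)): at most 3 shapes; q none = 1/4, q (some none) = 1/4, q (some (some l)) = (2N)^(-length)/4:
- log q <= bsz * log (2N) + log 4.
-/

theorem e07_geom (n : ℕ) : ∑ k ∈ Finset.range n, (1 / 2 : ℝ) * (1 / 2) ^ k ≤ 1 := by
  have h : ∑ k ∈ Finset.range n, (1 / 2 : ℝ) * (1 / 2) ^ k = 1 - (1 / 2) ^ n := by
    induction n with
    | zero => simp
    | succ n ih => rw [Finset.sum_range_succ, ih, pow_succ]; ring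
  rw [h]
  have : (0 : ℝ) ≤ (1 / 2) ^ n := by positivity
  linarith

theorem e07_card {C : Type*} [DecidableEq C] (AA : Finset C) (W : Finset (List C)) (hW : ∀ l ∈ W, ∀ a ∈ l, a ∈ AA) (k : ℕ) :
    (W.filter (fun l => l.length = k)).card ≤ AA.card ^ k := by
  have h1 : W.filter (fun l => l.length = k) ⊆ (Fintype.piFinset (fun _ : Fin k => AA)).image List.ofFn := by
    intro l hl
    rw [Finset.mem_filter] at hl
    obtain ⟨hl, hk⟩ := hl
    subst hk
    rw [Finset.mem_image]
    refine ⟨l.get, ?_, List.ofFn_get l⟩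
    rw [Fintype.mem_piFinset]
    intro i
    exact hW l hl _ (List.get_mem l i)
  refine (Finset.card_le_card h1).trans (Finset.card_image_le.trans ?_)
  rw [Fintype.card_piFinset]
  simp

theorem sum_lists_le {C : Type*} [DecidableEq C] (AA : Finset C) (N : ℕ) (hN : 1 ≤ N) (hA : AA.card ≤ N) (W : Finset (List C))
    (hW : ∀ l ∈ W, ∀ a ∈ l, a ∈ AA) : ∑ l ∈ W, (1 / 2 : ℝ) * (1 / (2 * (N : ℝ))) ^ l.length ≤ 1 := by
  have hN' : (0 : ℝ) < N := Nat.cast_pos.mpr hN
  set M := W.sup List.length + 1 with hM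
  have h1 : ∀ l ∈ W, l.length ∈ Finset.range M := by
    intro l hl
    rw [Finset.mem_range, hM]
    exact Nat.lt_succ_of_le (Finset.le_sup (f := List.length) hl)
  rw [← Finset.sum_fiberwise_of_maps_to h1]
  refine le_trans ?_ (e07_geom M)
  apply Finset.sum_le_sum
  intro k _
  have h2 : ∀ l ∈ W.filter (fun l => l.length = k), (1 / 2 : ℝ) * (1 / (2 * (N : ℝ))) ^ l.length = (1 / 2 : ℝ) * (1 / (2 * (N : ℝ))) ^ k := by
    intro l hl
    rw [(Finset.mem_filter.mp hl).2]
  rw [Finset.sum_congr rfl h2, Finset.sum_const, nsmul_eq_mul]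
  have h3 : ((W.filter (fun l => l.length = k)).card : ℝ) ≤ (N : ℝ) ^ k := by
    have := (e07_card AA W hW k).trans (Nat.pow_le_pow_left hA k)
    exact_mod_cast this
  refine (mul_le_mul_of_nonneg_right h3 (by positivity)).trans (le_of_eq ?_)
  rw [one_div_pow, mul_pow, one_div_pow]
  field_simp

theorem e07_log (N : ℕ) (hN : 1 ≤ N) (k : ℕ) (c : ℝ) (hc : 0 < c) :
    - Real.log ((1 / c) * (1 / (2 * (N : ℝ))) ^ k) = (k : ℝ) * Real.log (2 * (N : ℝ)) + Real.log c := by
  have hN' : (0 : ℝ) < N := Nat.cast_pos.mpr hN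
  rw [Real.log_mul (by positivity) (by positivity), Real.log_pow, one_div, one_div, Real.log_inv, Real.log_inv]
  ring

theorem e07_sum {A B : Type*} (i1 i2 : DecidableEq B) (s : Finset A) (f : A → B) (q : B → ℝ) :
    ∑ v ∈ @Finset.image A B i1 f s, q v = ∑ v ∈ @Finset.image A B i2 f s, q v := by
  rw [Subsingleton.elim i1 i2]

theorem Ent_list_le {X C : Type*} (Om : Finset X) (l : X → List C) (AA : Finset C) (N : ℕ) (hN : 1 ≤ N) (hA : AA.card ≤ N)
    (hl : ∀ x ∈ Om, ∀ a ∈ l x, a ∈ AA) :
    Ent Om l ≤ ∑ x ∈ Om, (((l x).length : ℝ) * Real.log (2 * (N : ℝ)) + Real.log 2) := by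
  classical
  have hN' : (0 : ℝ) < N := Nat.cast_pos.mpr hN
  have h := Ent_gibbs Om l (fun v => (1 / 2 : ℝ) * (1 / (2 * (N : ℝ))) ^ v.length) (fun x _ => by positivity)
    (by
      have h0 := sum_lists_le AA N hN hA (Om.image l) (by
        intro v hv
        obtain ⟨x, hx, rfl⟩ := Finset.mem_image.mp hv
        exact hl x hx)
      exact le_trans (le_of_eq (e07_sum _ _ Om l _)) h0)
  refine h.trans (le_of_eq ?_)
  exact Finset.sum_congr rfl (fun x _ => e07_log N hN _ 2 (by norm_num))

theorem Ent_label_le {X C : Type} [Fintype C] [Nonempty C] (Om : Finset X) (b : X → Option (Option (List C))) :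
    Ent Om b ≤ ∑ x ∈ Om, ((bsz (b x) : ℝ) * Real.log (2 * (Fintype.card C : ℝ)) + Real.log 4) := by
  classical
  set N := Fintype.card C with hNd
  have hN : 1 ≤ N := Fintype.card_pos
  have hN' : (0 : ℝ) < N := Nat.cast_pos.mpr hN
  set q : Option (Option (List C)) → ℝ := fun o => (1 / 4 : ℝ) * (1 / (2 * (N : ℝ))) ^ (bsz o) with hq
  have hqpos : ∀ o, 0 < q o := fun o => by simp only [hq]; positivity
  set W : Finset (List C) := Om.image (fun x => ((b x).getD none).getD []) with hW
  have hsub : Om.image b ⊆ insert none (insert (some none) (W.image (fun l => some (some l)))) := by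
    intro o ho
    obtain ⟨x, hx, rfl⟩ := Finset.mem_image.mp ho
    rcases hb : b x with _ | (_ | l)
    · simp
    · simp
    · rw [Finset.mem_insert, Finset.mem_insert]
      refine Or.inr (Or.inr (Finset.mem_image.mpr ⟨l, ?_, rfl⟩))
      rw [hW, Finset.mem_image]
      exact ⟨x, hx, by rw [hb]; rfl⟩
  have hs : ∑ o ∈ Om.image b, q o ≤ 1 := by
    refine (Finset.sum_le_sum_of_subset_of_nonneg hsub (fun o _ _ => (hqpos o).le)).trans ?_
    rw [Finset.sum_insert (by simp), Finset.sum_insert (by simp), Finset.sum_image (fun l _ l' _ h => by simpa using h)]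
    have h1 : q none = 1 / 4 := by simp [hq, bsz]
    have h2 : q (some none) = 1 / 4 := by simp [hq, bsz]
    have h3 : ∑ l ∈ W, q (some (some l)) = (1 / 2) * ∑ l ∈ W, (1 / 2 : ℝ) * (1 / (2 * (N : ℝ))) ^ l.length := by
      rw [Finset.mul_sum]
      refine Finset.sum_congr rfl (fun l _ => ?_)
      simp only [hq, bsz]
      ring
    have h4 := sum_lists_le (Finset.univ : Finset C) N hN (le_of_eq Finset.card_univ) W (fun l _ a _ => Finset.mem_univ a)
    rw [h1, h2, h3]
    linarith
  have h := Ent_gibbs Om b q (fun x _ => hqpos _) (le_trans (le_of_eq (e07_sum _ _ Om b _)) hs)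
  refine h.trans (le_of_eq ?_)
  exact Finset.sum_congr rfl (fun x _ => e07_log N hN _ 4 (by norm_num))

end H98T
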