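import Mathlib
import Pool.Agent.Lib.H98T.E0
import Pool.Agent.Lib.H98T.E02
import Pool.Agent.Lib.H98T.E04

set_option autoImplicit false

namespace H98T

open Finset

/-!
Module E, chunk E05 (S): consequences of submodularity (Ent_submod) and monotonicity (Ent_mono, Ent_congr).
Ent_pair: Ent_submod with h constant (Unit), Ent of a constant is 0.
Ent_submod': F determines f, G determines g, both F and G determine h: from Ent_submod for (F, G, h) and Ent_congr / Ent_mono:
k is determined by (F, G): Ent k + Ent h <= Ent (F,G,h) + Ent h <= Ent (F,h) + Ent (G,h) = Ent F + Ent G.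
Ent_shearer: c determined by each of a0, a1, a2: twice Ent_submod': Ent(a0,a1,a2) + Ent(a1) <= Ent(a0,a1) + Ent(a1,a2) and
Ent(a0,a1,a2) + Ent(c) <= Ent(a2,a0) + Ent(a1); add.
Ent_pi_le: induction on the finite set of indices (or on n for Fin n), with Ent_pair.
-/

theorem Ent_pair {X A B : Type*} (Om : Finset X) (f : X → A) (g : X → B) :
    Ent Om (fun x => (f x, g x)) ≤ Ent Om f + Ent Om g := by
  have h2 := Ent_submod Om f g (fun _ => ())
  have h3 : Ent Om (fun x => (f x, g x, ())) = Ent Om (fun x => (f x, g x)) :=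
    Ent_congr Om _ _ (fun x _ y _ => by simp)
  have h4 : Ent Om (fun x => (f x, ())) = Ent Om f := Ent_congr Om _ _ (fun x _ y _ => by simp)
  have h5 : Ent Om (fun x => (g x, ())) = Ent Om g := Ent_congr Om _ _ (fun x _ y _ => by simp)
  have h6 := Ent_nonneg Om (fun _ : X => ())
  rw [h3, h4, h5] at h2
  linarith

theorem Ent_submod' {X A B C K : Type*} (Om : Finset X) (F : X → A) (G : X → B) (h : X → C) (k : X → K)
    (hF : ∀ x ∈ Om, ∀ y ∈ Om, F x = F y → h x = h y) (hG : ∀ x ∈ Om, ∀ y ∈ Om, G x = G y → h x = h y)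
    (hk : ∀ x ∈ Om, ∀ y ∈ Om, F x = F y → G x = G y → k x = k y) :
    Ent Om k + Ent Om h ≤ Ent Om F + Ent Om G := by
  have h2 := Ent_submod Om F G h
  have h3 : Ent Om k ≤ Ent Om (fun x => (F x, G x, h x)) := Ent_mono Om _ _ (fun x hx y hy he => by
    simp only [Prod.mk.injEq] at he
    exact hk x hx y hy he.1 he.2.1)
  have h4 : Ent Om (fun x => (F x, h x)) ≤ Ent Om F := Ent_mono Om _ _ (fun x hx y hy he => by
    simp only [Prod.mk.injEq]
    exact ⟨he, hF x hx y hy he⟩)
  have h5 : Ent Om (fun x => (G x, h x)) ≤ Ent Om G := Ent_mono Om _ _ (fun x hx y hy he => by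
    simp only [Prod.mk.injEq]
    exact ⟨he, hG x hx y hy he⟩)
  linarith

theorem Ent_shearer {X A C : Type*} (Om : Finset X) (a0 a1 a2 : X → A) (c : X → C)
    (h0 : ∀ x ∈ Om, ∀ y ∈ Om, a0 x = a0 y → c x = c y) (h1 : ∀ x ∈ Om, ∀ y ∈ Om, a1 x = a1 y → c x = c y)
    (h2 : ∀ x ∈ Om, ∀ y ∈ Om, a2 x = a2 y → c x = c y) :
    2 * Ent Om (fun x => (a0 x, a1 x, a2 x)) + Ent Om c ≤
      Ent Om (fun x => (a0 x, a1 x)) + Ent Om (fun x => (a1 x, a2 x)) + Ent Om (fun x => (a2 x, a0 x)) := by
  have k1 := Ent_submod' Om (fun x => (a0 x, a1 x)) (fun x => (a1 x, a2 x)) a1 (fun x => (a0 x, a1 x, a2 x))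
    (fun x _ y _ he => (Prod.mk.inj he).2) (fun x _ y _ he => (Prod.mk.inj he).1)
    (fun x _ y _ he1 he2 => by
      simp only [Prod.mk.injEq] at he1 he2 ⊢
      exact ⟨he1.1, he1.2, he2.2⟩)
  have k2 := Ent_submod' Om (fun x => (a2 x, a0 x)) a1 c (fun x => (a0 x, a1 x, a2 x))
    (fun x hx y hy he => h2 x hx y hy (Prod.mk.inj he).1) h1
    (fun x _ y _ he1 he2 => by
      simp only [Prod.mk.injEq] at he1 he2 ⊢
      exact ⟨he1.2, he2, he1.1⟩)
  linarith

/-- the statement for a finite set of indices -/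
theorem e05_pi {X A I : Type*} [DecidableEq I] (Om : Finset X) (f : I → X → A) (s : Finset I) :
    Ent Om (fun x => fun i : s => f i.1 x) ≤ ∑ i ∈ s, Ent Om (f i) := by
  induction s using Finset.induction_on with
  | empty =>
    rw [Finset.sum_empty, Ent_const]
    intro x _ y _
    funext i
    exact absurd i.2 (Finset.notMem_empty _)
  | insert a s ha ih =>
    rw [Finset.sum_insert ha]
    have h1 : Ent Om (fun x => fun i : ((insert a s : Finset I)) => f i.1 x) ≤ Ent Om (fun x => (f a x, fun i : s => f i.1 x)) := by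
      apply Ent_mono
      intro x _ y _ he
      simp only [Prod.mk.injEq] at he
      funext i
      rcases Finset.mem_insert.mp i.2 with h | h
      · rw [h]; exact he.1
      · exact congrFun he.2 ⟨i.1, h⟩
    exact h1.trans ((Ent_pair Om _ _).trans (add_le_add le_rfl ih))

/-- a family of functions indexed by a finite set -/
theorem Ent_pi_le {X A I : Type*} [Fintype I] (Om : Finset X) (f : I → X → A) :
    Ent Om (fun x i => f i x) ≤ ∑ i, Ent Om (f i) := by
  classical
  refine le_trans ?_ (e05_pi Om f Finset.univ)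
  apply Ent_mono
  intro x _ y _ he
  funext i
  exact congrFun he ⟨i, Finset.mem_univ i⟩

end H98T
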