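import Mathlib
import Pool.Agent.Lib.H98T.E0
import Pool.Agent.Lib.H98T.E02
import Pool.Agent.Lib.H98T.E05

set_option autoImplicit false

namespace H98T

open Finset

/-!
Module E, chunk E13 (S): a path of nodes.  tau k = label of the node k, s k = shared label of the nodes k and k+1 (determined by both).
Induction on m: with F = (tau 0 .. tau (m-1)), G = tau m, h = s (m-1) (determined by F and by G), Ent_submod':
Ent (tau 0 .. tau m) + Ent (s (m-1)) <= Ent (tau 0 .. tau (m-1)) + Ent (tau m).
m = 1: Ent_mono.
-/

theorem Ent_path {X B S : Type} (Om : Finset X) (m : ℕ) (hm : 1 ≤ m) (tau : ℕ → X → B) (s : ℕ → X → S)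
    (h1 : ∀ k, k + 1 < m → ∀ x ∈ Om, ∀ y ∈ Om, tau k x = tau k y → s k x = s k y)
    (h2 : ∀ k, k + 1 < m → ∀ x ∈ Om, ∀ y ∈ Om, tau (k + 1) x = tau (k + 1) y → s k x = s k y) :
    Ent Om (fun x => fun k : Fin m => tau (k : ℕ) x) ≤
      ∑ k ∈ Finset.range m, Ent Om (tau k) - ∑ k ∈ Finset.range (m - 1), Ent Om (s k) := by
  induction m, hm using Nat.le_induction with
  | base =>
    simp only [Finset.range_one, Finset.sum_singleton, Nat.sub_self, Finset.range_zero, Finset.sum_empty, sub_zero]
    apply Ent_mono
    intro x _ y _ he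
    funext k
    have : (k : ℕ) = 0 := by omega
    rw [this]
    exact he
  | succ m hm ih =>
    have ih' := ih (fun k hk => h1 k (by omega)) (fun k hk => h2 k (by omega))
    have hk := Ent_submod' Om (fun x => fun k : Fin m => tau (k : ℕ) x) (tau m) (s (m - 1)) (fun x => fun k : Fin (m + 1) => tau (k : ℕ) x)
      (fun x hx y hy he => by
        have := congrFun he ⟨m - 1, by omega⟩
        exact h1 (m - 1) (by omega) x hx y hy this)
      (fun x hx y hy he => by
        have e : m - 1 + 1 = m := by omega
        have := h2 (m - 1) (by omega) x hx y hy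
        rw [e] at this
        exact this he)
      (fun x _ y _ he1 he2 => by
        funext k
        rcases Nat.lt_or_ge (k : ℕ) m with h | h
        · exact congrFun he1 ⟨k, h⟩
        · have : (k : ℕ) = m := by omega
          rw [this]
          exact he2)
    rw [Finset.sum_range_succ]
    have e2 : m + 1 - 1 = (m - 1) + 1 := by omega
    rw [e2, Finset.sum_range_succ]
    linarith

end H98T
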