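import Mathlib
import Pool.Agent.Lib.H98T.E0
import Pool.Agent.Lib.H98T.E01

set_option autoImplicit false

namespace H98T

open Finset

/-!
Module E, chunk E08 (S/M): adding an index.  p x < m x on Om, and m is determined by g on Om: then
Ent (g, p) <= Ent g + sum of log m.
Proof: Ent (g,p) - Ent g = sum over x in Om of (log cl(g) - log cl(g,p)), and log cl(g)(x) - log cl(g,p)(x) - log m(x) = log (cl(g) / (cl(g,p) m)) <=
cl(g)/(cl(g,p) m) - 1.  And sum over x in Om of cl(g)(x) / (cl(g,p)(x) m(x)) <= |Om|: by sum_div_cl for the function (g,p) it is the sum over the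
values (a,i) of (g,p) on Om of n_a / m_a where n_a = class size, m_a = common value of m; for given a there are at most m_a values i, so it is
<= sum over the values a of g of n_a = |Om|.
(2) is the special case m x = length of a list which is a function of g.
-/

open Classical in
theorem e08_inner {X A : Type*} (Om : Finset X) (g : X → A) (p m : X → ℕ) (hp : ∀ x ∈ Om, p x < m x)
    (hm : ∀ x ∈ Om, ∀ y ∈ Om, g x = g y → m x = m y) (y : X) (hy : y ∈ Om) :
    ∑ x ∈ Om.filter (fun x => g x = g y), (1 : ℝ) / (cl Om (fun x => (g x, p x)) x : ℝ) ≤ (m y : ℝ) := by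
  have h1 : ∀ x ∈ Om.filter (fun x => g x = g y), p x ∈ Finset.range (m y) := by
    intro x hx
    rw [Finset.mem_filter] at hx
    rw [Finset.mem_range, ← hm x hx.1 y hy hx.2]
    exact hp x hx.1
  rw [← Finset.sum_fiberwise_of_maps_to h1]
  have h2 : ∀ i ∈ Finset.range (m y), ∑ x ∈ (Om.filter (fun x => g x = g y)).filter (fun x => p x = i), (1 : ℝ) / (cl Om (fun x => (g x, p x)) x : ℝ) ≤ 1 := by
    intro i _
    by_cases hex : ∃ x0 ∈ Om, g x0 = g y ∧ p x0 = i
    · obtain ⟨x0, hx0, e1, e2⟩ := hex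
      have h3 := sum_inv_cl Om (fun x => (g x, p x)) x0 hx0
      refine le_of_eq (Eq.trans ?_ h3)
      apply Finset.sum_congr
      · ext x
        simp only [Finset.mem_filter, Prod.mk.injEq, e1, e2]
        tauto
      · intro x _
        rfl
    · have h3 : (Om.filter (fun x => g x = g y)).filter (fun x => p x = i) = ∅ := by
        apply Finset.filter_eq_empty_iff.mpr
        intro x hx he
        rw [Finset.mem_filter] at hx
        exact hex ⟨x, hx.1, hx.2, he⟩
      rw [h3, Finset.sum_empty]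
      norm_num
  refine (Finset.sum_le_sum h2).trans ?_
  simp

open Classical in
theorem e08_main {X A : Type*} (Om : Finset X) (g : X → A) (p m : X → ℕ) (hp : ∀ x ∈ Om, p x < m x)
    (hm : ∀ x ∈ Om, ∀ y ∈ Om, g x = g y → m x = m y) :
    ∑ x ∈ Om, ((cl Om g x : ℝ) * (1 / ((cl Om (fun x => (g x, p x)) x : ℝ) * (m x : ℝ)))) ≤ (Om.card : ℝ) := by
  have h0 : ∀ x ∈ Om, ((cl Om g x : ℝ) * (1 / ((cl Om (fun x => (g x, p x)) x : ℝ) * (m x : ℝ)))) =
      ∑ y ∈ Om, (if g x = g y then (1 / (m y : ℝ)) * (1 / (cl Om (fun x => (g x, p x)) x : ℝ)) else 0) := by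
    intro x hx
    have h1 : (cl Om g x : ℝ) = ∑ y ∈ Om, (if g y = g x then (1 : ℝ) else 0) := by
      unfold cl
      rw [Finset.card_filter]
      push_cast
      rfl
    rw [h1, Finset.sum_mul]
    refine Finset.sum_congr rfl (fun y hy => ?_)
    by_cases he : g y = g x
    · rw [if_pos he, if_pos he.symm, hm x hx y hy he.symm, one_mul, one_div_mul_one_div, mul_comm]
    · rw [if_neg he, if_neg (fun h => he h.symm), zero_mul]
  rw [Finset.sum_congr rfl h0, Finset.sum_comm]
  have h2 : ∀ y ∈ Om, ∑ x ∈ Om, (if g x = g y then (1 / (m y : ℝ)) * (1 / (cl Om (fun x => (g x, p x)) x : ℝ)) else 0) ≤ 1 := by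
    intro y hy
    rw [← Finset.sum_filter, ← Finset.mul_sum]
    have hmpos : (0 : ℝ) < (m y : ℝ) := Nat.cast_pos.mpr (lt_of_le_of_lt (Nat.zero_le _) (hp y hy))
    refine (mul_le_mul_of_nonneg_left (e08_inner Om g p m hp hm y hy) (by positivity)).trans (le_of_eq ?_)
    field_simp
  refine (Finset.sum_le_sum h2).trans ?_
  simp

theorem Ent_index {X A : Type*} (Om : Finset X) (g : X → A) (p m : X → ℕ) (hp : ∀ x ∈ Om, p x < m x)
    (hm : ∀ x ∈ Om, ∀ y ∈ Om, g x = g y → m x = m y) :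
    Ent Om (fun x => (g x, p x)) ≤ Ent Om g + ∑ x ∈ Om, Real.log (m x : ℝ) := by
  have hmain := e08_main Om g p m hp hm
  unfold Ent
  rw [← Finset.sum_add_distrib]
  have hterm : ∀ x ∈ Om, (Real.log (Om.card : ℝ) - Real.log (cl Om (fun x => (g x, p x)) x : ℝ)) ≤
      (Real.log (Om.card : ℝ) - Real.log (cl Om g x : ℝ) + Real.log (m x : ℝ)) +
      (((cl Om g x : ℝ) * (1 / ((cl Om (fun x => (g x, p x)) x : ℝ) * (m x : ℝ)))) - 1) := by
    intro x hx
    have p1 : (0 : ℝ) < ((cl Om (fun x => (g x, p x)) x : ℕ) : ℝ) := Nat.cast_pos.mpr (cl_pos Om _ x hx)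
    have p2 : (0 : ℝ) < ((cl Om g x : ℕ) : ℝ) := Nat.cast_pos.mpr (cl_pos Om _ x hx)
    have p3 : (0 : ℝ) < (m x : ℝ) := Nat.cast_pos.mpr (lt_of_le_of_lt (Nat.zero_le _) (hp x hx))
    set a : ℝ := ((cl Om (fun x => (g x, p x)) x : ℕ) : ℝ)
    set b : ℝ := ((cl Om g x : ℕ) : ℝ)
    have hl : Real.log (b * (1 / (a * (m x : ℝ)))) ≤ b * (1 / (a * (m x : ℝ))) - 1 := Real.log_le_sub_one_of_pos (by positivity)
    have he : Real.log (b * (1 / (a * (m x : ℝ)))) = Real.log b - (Real.log a + Real.log (m x : ℝ)) := by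
      rw [mul_one_div, Real.log_div p2.ne' (by positivity), Real.log_mul p1.ne' p3.ne']
    linarith
  refine (Finset.sum_le_sum hterm).trans ?_
  rw [Finset.sum_add_distrib, Finset.sum_sub_distrib (g := fun _ => (1 : ℝ))]
  have : ∑ x ∈ Om, (1 : ℝ) = Om.card := by simp
  rw [this]
  linarith

end H98T
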