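import Mathlib
import Pool.Agent.Lib.H98T.E0
import Pool.Agent.Lib.H98T.E02
import Pool.Agent.Lib.H98T.E05
import Pool.Agent.Lib.H98T.E08

set_option autoImplicit false

namespace H98T

open Finset

/-!
Module E, chunk E11 (M): the node inequality (node without F-dart).  Three lists l j (j : Fin 3, indices mod 3), centre index p j, common
centre cell c.  Leg j without the centre, version a: A j := take (p j) (l j); version b: A' j := reverse (drop (p (j-1) + 1) (l (j-1))).  The hypotheses say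
A' (j+1) = ap (A (j+1)) (z (j+1)) and A (j+1) = ap' (A' (j+1)) (z (j+1)).
Proof.  (i) l j = A j ++ c :: reverse (A' (j+1)).  So all three lists are determined by a j := (c, A j), j = 0, 1, 2, and z 0, z 1, z 2:
Ent (l) <= Ent (a 0, a 1, a 2) + sum Ent (z j)       (Ent_mono, Ent_pair).
(ii) c is determined by a j for each j.  Ent_shearer:
2 Ent (a 0, a 1, a 2) + Ent c <= Ent (a 0, a 1) + Ent (a 1, a 2) + Ent (a 2, a 0).
(iii) (a j, a (j+1)) is determined by (l j, p j) and z (j+1): c = entry number p j, A j = take (p j) (l j), A' (j+1) = reverse (drop (p j + 1) (l j)), A (j+1) = ap' (A' (j+1)) (z (j+1)).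
So Ent (a j, a (j+1)) <= Ent (l j, p j) + Ent (z (j+1)) <= Ent (l j) + sum_x log (length (l j x)) + Ent (z (j+1))       (Ent_index).
Sum up: Ent(l) <= (1/2) sum_j (Ent (l j) + sum_x log length) + (1/2) sum Ent (z j) - (1/2) Ent c + sum Ent (z j); 3/2 <= 5/2 (Ent_nonneg).
-/

/-- decomposition of a list at an index -/
theorem e11_dec {C : Type} (l : List C) (p : ℕ) (c : C) (hc : l[p]? = some c) : l = l.take p ++ c :: l.drop (p + 1) := by
  obtain ⟨h, he⟩ := List.getElem?_eq_some_iff.mp hc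
  conv_lhs => rw [← List.take_append_drop p l]
  rw [List.drop_eq_getElem_cons h, he]

theorem node_N {X C : Type} (Om : Finset X) (l : Fin 3 → X → List C) (p : Fin 3 → X → ℕ) (z : Fin 3 → X → List (Ed C)) (c : X → C)
    (hp : ∀ x ∈ Om, ∀ j, p j x < (l j x).length)
    (hc : ∀ x ∈ Om, ∀ j, (l j x)[p j x]? = some (c x))
    (h1 : ∀ x ∈ Om, ∀ j, ((l j x).drop (p j x + 1)).reverse = ap ((l (j + 1) x).take (p (j + 1) x)) (z (j + 1) x))
    (h2 : ∀ x ∈ Om, ∀ j, (l (j + 1) x).take (p (j + 1) x) = ap' (((l j x).drop (p j x + 1)).reverse) (z (j + 1) x)) :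
    Ent Om (fun x j => l j x) ≤ (1 / 2) * ∑ j, Ent Om (l j) + (1 / 2) * ∑ j, ∑ x ∈ Om, Real.log ((l j x).length : ℝ)
      - (1 / 2) * Ent Om c + (5 / 2) * ∑ j, Ent Om (z j) := by
  have h01 : (0 : Fin 3) + 1 = 1 := rfl
  have h12 : (1 : Fin 3) + 1 = 2 := rfl
  have h20 : (2 : Fin 3) + 1 = 0 := rfl
  -- the data of leg j
  set a : Fin 3 → X → C × List C := fun j x => (c x, (l j x).take (p j x)) with ha
  -- (i)
  have hi : Ent Om (fun x j => l j x) ≤ Ent Om (fun x => ((a 0 x, a 1 x, a 2 x), fun j => z j x)) := by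
    apply Ent_mono
    intro x hx y hy hxy
    simp only [ha, Prod.mk.injEq] at hxy
    obtain ⟨⟨⟨hcc, hA0⟩, ⟨_, hA1⟩, ⟨_, hA2⟩⟩, hz⟩ := hxy
    have hz' : ∀ j, z j x = z j y := fun j => congrFun hz j
    have hA : ∀ j, (l j x).take (p j x) = (l j y).take (p j y) := by
      intro j
      fin_cases j
      · exact hA0
      · exact hA1
      · exact hA2
    funext j
    have e1 := e11_dec (l j x) (p j x) (c x) (hc x hx j)
    have e2 := e11_dec (l j y) (p j y) (c y) (hc y hy j)
    have e3 : (l j x).drop (p j x + 1) = (l j y).drop (p j y + 1) := by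
      apply List.reverse_injective
      rw [h1 x hx j, h1 y hy j, hA (j + 1), hz' (j + 1)]
    rw [e1, e2, hA j, hcc, e3]
  have hi2 : Ent Om (fun x => ((a 0 x, a 1 x, a 2 x), fun j => z j x)) ≤ Ent Om (fun x => (a 0 x, a 1 x, a 2 x)) + ∑ j, Ent Om (z j) :=
    (Ent_pair Om _ _).trans (add_le_add le_rfl (Ent_pi_le Om z))
  -- (ii)
  have hs := Ent_shearer Om (a 0) (a 1) (a 2) c (fun x _ y _ h => (Prod.mk.inj h).1) (fun x _ y _ h => (Prod.mk.inj h).1)
    (fun x _ y _ h => (Prod.mk.inj h).1)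
  -- (iii)
  have h3 : ∀ j : Fin 3, Ent Om (fun x => (a j x, a (j + 1) x)) ≤ Ent Om (l j) + ∑ x ∈ Om, Real.log ((l j x).length : ℝ) + Ent Om (z (j + 1)) := by
    intro j
    have k1 : Ent Om (fun x => (a j x, a (j + 1) x)) ≤ Ent Om (fun x => ((l j x, p j x), z (j + 1) x)) := by
      apply Ent_mono
      intro x hx y hy hxy
      simp only [Prod.mk.injEq] at hxy
      obtain ⟨⟨hl, hpp⟩, hz⟩ := hxy
      have hcc : c x = c y := by
        have e1 := hc x hx j
        rw [hl, hpp, hc y hy j] at e1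
        exact (Option.some.inj e1).symm
      have hA1 : (l (j + 1) x).take (p (j + 1) x) = (l (j + 1) y).take (p (j + 1) y) := by
        rw [h2 x hx j, h2 y hy j, hl, hpp, hz]
      simp only [ha, Prod.mk.injEq]
      exact ⟨⟨hcc, by rw [hl, hpp]⟩, ⟨hcc, hA1⟩⟩
    have k2 := Ent_pair Om (fun x => (l j x, p j x)) (z (j + 1))
    have k3 := Ent_index Om (l j) (p j) (fun x => (l j x).length) (fun x hx => hp x hx j) (fun x _ y _ h => by
      show (l j x).length = (l j y).length
      rw [h])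
    linarith
  have q0 := h3 0
  have q1 := h3 1
  have q2 := h3 2
  rw [h01] at q0
  rw [h12] at q1
  rw [h20] at q2
  have n0 := Ent_nonneg Om (z 0)
  have n1 := Ent_nonneg Om (z 1)
  have n2 := Ent_nonneg Om (z 2)
  simp only [Fin.sum_univ_three] at hi2 ⊢
  linarith

end H98T
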