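import Mathlib
import Pool.Agent.Lib.H98T.E0
import Pool.Agent.Lib.H98T.E02
import Pool.Agent.Lib.H98T.E05
import Pool.Agent.Lib.H98T.E08

set_option autoImplicit false

namespace H98T

open Finset

/-!
Module E, chunk E12 (S/M): the node inequalities for a node whose dart 1 is an F-dart (its list is hidden).  Notation of E11: A j := take (p j) (l j),
A' (j+1) := reverse (drop (p j + 1) (l j)), l j = A j ++ c :: reverse (A' (j+1)).
node_F0: l 1 has length one, so p 1 = 0, A 1 = [] and A' 2 = [].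
(l 0, l 2) is determined by l 0 and z 0, z 1, z 2: A' 1 = ap [] (z 1), so p 0 = length (l 0) - 1 - length (A' 1), A 0 and c; A' 0 = ap (A 0) (z 0), A 2 = ap' [] (z 2), l 2 = A 2 ++ c :: reverse (A' 0).
(l 0, l 2) is determined by l 2 and z 0, z 1, z 2: A 2 = ap' [] (z 2), so p 2 = length (A 2), c and A' 0; A 0 = ap' (A' 0) (z 0), A' 1 = ap [] (z 1), l 0 = A 0 ++ c :: reverse (A' 1).
Average of the two bounds (Ent_mono, Ent_pair).
node_F1: (l 0, l 2) is determined by (l 0, p 0), (l 1, p 1), z 0, z 2: c and A 0 from (l 0, p 0), A' 0 = ap (A 0) (z 0), A' 2 = reverse (drop (p 1 + 1) (l 1)), A 2 = ap' (A' 2) (z 2), l 2 = A 2 ++ c :: reverse (A' 0).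
(l 0, l 2) is determined by (l 2, p 2), (l 1, p 1), z 0, z 1: c and A' 0 = reverse (drop (p 2 + 1) (l 2)), A 0 = ap' (A' 0) (z 0), A 1 = take (p 1) (l 1), A' 1 = ap (A 1) (z 1), l 0 = A 0 ++ c :: reverse (A' 1).
Average of the two bounds, with Ent_index for (l j, p j) and Ent_pair.
-/

/-- decomposition of a list at an index -/
theorem e12_dec {C : Type} (l : List C) (p : ℕ) (c : C) (hc : l[p]? = some c) : l = l.take p ++ c :: l.drop (p + 1) := by
  obtain ⟨h, he⟩ := List.getElem?_eq_some_iff.mp hc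
  conv_lhs => rw [← List.take_append_drop p l]
  rw [List.drop_eq_getElem_cons h, he]

theorem node_F0 {X C : Type} (Om : Finset X) (l : Fin 3 → X → List C) (p : Fin 3 → X → ℕ) (z : Fin 3 → X → List (Ed C)) (c : X → C)
    (hl : ∀ x ∈ Om, (l 1 x).length = 1)
    (hp : ∀ x ∈ Om, ∀ j, p j x < (l j x).length)
    (hc : ∀ x ∈ Om, ∀ j, (l j x)[p j x]? = some (c x))
    (h1 : ∀ x ∈ Om, ∀ j, ((l j x).drop (p j x + 1)).reverse = ap ((l (j + 1) x).take (p (j + 1) x)) (z (j + 1) x))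
    (h2 : ∀ x ∈ Om, ∀ j, (l (j + 1) x).take (p (j + 1) x) = ap' (((l j x).drop (p j x + 1)).reverse) (z (j + 1) x)) :
    Ent Om (fun x => (l 0 x, l 2 x)) ≤ (1 / 2) * (Ent Om (l 0) + Ent Om (l 2)) + ∑ j, Ent Om (z j) := by
  have h01 : (0 : Fin 3) + 1 = 1 := rfl
  have h12 : (1 : Fin 3) + 1 = 2 := rfl
  have h20 : (2 : Fin 3) + 1 = 0 := rfl
  have hp1 : ∀ x ∈ Om, p 1 x = 0 := fun x hx => by
    have := hp x hx 1
    rw [hl x hx] at this
    omega
  -- A' 1 = ap [] (z 1)
  have f1 : ∀ x ∈ Om, ((l 0 x).drop (p 0 x + 1)).reverse = ap [] (z 1 x) := fun x hx => by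
    have := h1 x hx 0
    rw [h01, hp1 x hx, List.take_zero] at this
    exact this
  -- A 2 = ap' [] (z 2)
  have f2 : ∀ x ∈ Om, (l 2 x).take (p 2 x) = ap' [] (z 2 x) := fun x hx => by
    have := h2 x hx 1
    rw [h12, hp1 x hx] at this
    have e : (l 1 x).drop (0 + 1) = [] := List.drop_eq_nil_of_le (by rw [hl x hx])
    rw [e, List.reverse_nil] at this
    exact this
  have f3 : ∀ x ∈ Om, ((l 2 x).drop (p 2 x + 1)).reverse = ap ((l 0 x).take (p 0 x)) (z 0 x) := fun x hx => by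
    have := h1 x hx 2
    rw [h20] at this
    exact this
  have f4 : ∀ x ∈ Om, (l 0 x).take (p 0 x) = ap' (((l 2 x).drop (p 2 x + 1)).reverse) (z 0 x) := fun x hx => by
    have := h2 x hx 2
    rw [h20] at this
    exact this
  have b1 : Ent Om (fun x => (l 0 x, l 2 x)) ≤ Ent Om (fun x => (l 0 x, fun j => z j x)) := by
    apply Ent_mono
    intro x hx y hy hxy
    simp only [Prod.mk.injEq] at hxy
    obtain ⟨hl0, hz⟩ := hxy
    have hz' : ∀ j, z j x = z j y := fun j => congrFun hz j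
    have hpp : p 0 x = p 0 y := by
      have e1 : ((l 0 x).drop (p 0 x + 1)).length = ((l 0 y).drop (p 0 y + 1)).length := by
        rw [← List.length_reverse, f1 x hx, hz' 1, ← f1 y hy, List.length_reverse]
      rw [List.length_drop, List.length_drop, hl0] at e1
      have e2 := hp x hx 0
      have e3 := hp y hy 0
      rw [hl0] at e2
      omega
    have hcc : c x = c y := by
      have e1 := hc x hx 0
      rw [hl0, hpp, hc y hy 0] at e1
      exact (Option.some.inj e1).symm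
    have e3 : (l 2 x).drop (p 2 x + 1) = (l 2 y).drop (p 2 y + 1) := by
      apply List.reverse_injective
      rw [f3 x hx, f3 y hy, hl0, hpp, hz' 0]
    have e4 : (l 2 x).take (p 2 x) = (l 2 y).take (p 2 y) := by rw [f2 x hx, f2 y hy, hz' 2]
    simp only [Prod.mk.injEq]
    refine ⟨hl0, ?_⟩
    rw [e12_dec (l 2 x) (p 2 x) (c x) (hc x hx 2), e12_dec (l 2 y) (p 2 y) (c y) (hc y hy 2), e3, e4, hcc]
  have b2 : Ent Om (fun x => (l 0 x, l 2 x)) ≤ Ent Om (fun x => (l 2 x, fun j => z j x)) := by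
    apply Ent_mono
    intro x hx y hy hxy
    simp only [Prod.mk.injEq] at hxy
    obtain ⟨hl2, hz⟩ := hxy
    have hz' : ∀ j, z j x = z j y := fun j => congrFun hz j
    have hpp : p 2 x = p 2 y := by
      have e1 : ((l 2 x).take (p 2 x)).length = ((l 2 y).take (p 2 y)).length := by
        rw [f2 x hx, f2 y hy, hz' 2]
      rw [List.length_take, List.length_take] at e1
      have e2 := hp x hx 2
      have e3 := hp y hy 2
      rw [min_eq_left e2.le, min_eq_left e3.le] at e1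
      exact e1
    have hcc : c x = c y := by
      have e1 := hc x hx 2
      rw [hl2, hpp, hc y hy 2] at e1
      exact (Option.some.inj e1).symm
    have e3 : (l 0 x).take (p 0 x) = (l 0 y).take (p 0 y) := by
      rw [f4 x hx, f4 y hy, hl2, hpp, hz' 0]
    have e4 : (l 0 x).drop (p 0 x + 1) = (l 0 y).drop (p 0 y + 1) := by
      apply List.reverse_injective
      rw [f1 x hx, f1 y hy, hz' 1]
    simp only [Prod.mk.injEq]
    refine ⟨?_, hl2⟩
    rw [e12_dec (l 0 x) (p 0 x) (c x) (hc x hx 0), e12_dec (l 0 y) (p 0 y) (c y) (hc y hy 0), e3, e4, hcc]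
  have g1 := Ent_pair Om (l 0) (fun x j => z j x)
  have g2 := Ent_pair Om (l 2) (fun x j => z j x)
  have g3 := Ent_pi_le Om z
  linarith

theorem node_F1 {X C : Type} (Om : Finset X) (l : Fin 3 → X → List C) (p : Fin 3 → X → ℕ) (z : Fin 3 → X → List (Ed C)) (c : X → C)
    (hp : ∀ x ∈ Om, ∀ j, p j x < (l j x).length)
    (hc : ∀ x ∈ Om, ∀ j, (l j x)[p j x]? = some (c x))
    (h1 : ∀ x ∈ Om, ∀ j, ((l j x).drop (p j x + 1)).reverse = ap ((l (j + 1) x).take (p (j + 1) x)) (z (j + 1) x))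
    (h2 : ∀ x ∈ Om, ∀ j, (l (j + 1) x).take (p (j + 1) x) = ap' (((l j x).drop (p j x + 1)).reverse) (z (j + 1) x)) :
    Ent Om (fun x => (l 0 x, l 2 x)) ≤ (1 / 2) * (Ent Om (l 0) + Ent Om (l 2)) + Ent Om (l 1)
      + (1 / 2) * ∑ x ∈ Om, Real.log ((l 0 x).length : ℝ) + (1 / 2) * ∑ x ∈ Om, Real.log ((l 2 x).length : ℝ)
      + ∑ x ∈ Om, Real.log ((l 1 x).length : ℝ) + ∑ j, Ent Om (z j) := by
  have h01 : (0 : Fin 3) + 1 = 1 := rfl
  have h12 : (1 : Fin 3) + 1 = 2 := rfl
  have h20 : (2 : Fin 3) + 1 = 0 := rfl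
  have f3 : ∀ x ∈ Om, ((l 2 x).drop (p 2 x + 1)).reverse = ap ((l 0 x).take (p 0 x)) (z 0 x) := fun x hx => by
    have := h1 x hx 2
    rw [h20] at this
    exact this
  have f4 : ∀ x ∈ Om, (l 0 x).take (p 0 x) = ap' (((l 2 x).drop (p 2 x + 1)).reverse) (z 0 x) := fun x hx => by
    have := h2 x hx 2
    rw [h20] at this
    exact this
  have f5 : ∀ x ∈ Om, (l 2 x).take (p 2 x) = ap' (((l 1 x).drop (p 1 x + 1)).reverse) (z 2 x) := fun x hx => by
    have := h2 x hx 1
    rw [h12] at this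
    exact this
  have f6 : ∀ x ∈ Om, ((l 0 x).drop (p 0 x + 1)).reverse = ap ((l 1 x).take (p 1 x)) (z 1 x) := fun x hx => by
    have := h1 x hx 0
    rw [h01] at this
    exact this
  have b1 : Ent Om (fun x => (l 0 x, l 2 x)) ≤ Ent Om (fun x => ((l 0 x, p 0 x), ((l 1 x, p 1 x), fun j => z j x))) := by
    apply Ent_mono
    intro x hx y hy hxy
    simp only [Prod.mk.injEq] at hxy
    obtain ⟨⟨hl0, hp0⟩, ⟨hl1, hp1⟩, hz⟩ := hxy
    have hz' : ∀ j, z j x = z j y := fun j => congrFun hz j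
    have hcc : c x = c y := by
      have e1 := hc x hx 0
      rw [hl0, hp0, hc y hy 0] at e1
      exact (Option.some.inj e1).symm
    have e3 : (l 2 x).drop (p 2 x + 1) = (l 2 y).drop (p 2 y + 1) := by
      apply List.reverse_injective
      rw [f3 x hx, f3 y hy, hl0, hp0, hz' 0]
    have e4 : (l 2 x).take (p 2 x) = (l 2 y).take (p 2 y) := by rw [f5 x hx, f5 y hy, hz' 2, hl1, hp1]
    simp only [Prod.mk.injEq]
    refine ⟨hl0, ?_⟩
    rw [e12_dec (l 2 x) (p 2 x) (c x) (hc x hx 2), e12_dec (l 2 y) (p 2 y) (c y) (hc y hy 2), e3, e4, hcc]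
  have b2 : Ent Om (fun x => (l 0 x, l 2 x)) ≤ Ent Om (fun x => ((l 2 x, p 2 x), ((l 1 x, p 1 x), fun j => z j x))) := by
    apply Ent_mono
    intro x hx y hy hxy
    simp only [Prod.mk.injEq] at hxy
    obtain ⟨⟨hl2, hp2⟩, ⟨hl1, hp1⟩, hz⟩ := hxy
    have hz' : ∀ j, z j x = z j y := fun j => congrFun hz j
    have hcc : c x = c y := by
      have e1 := hc x hx 2
      rw [hl2, hp2, hc y hy 2] at e1
      exact (Option.some.inj e1).symm
    have e3 : (l 0 x).take (p 0 x) = (l 0 y).take (p 0 y) := by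
      rw [f4 x hx, f4 y hy, hl2, hp2, hz' 0]
    have e4 : (l 0 x).drop (p 0 x + 1) = (l 0 y).drop (p 0 y + 1) := by
      apply List.reverse_injective
      rw [f6 x hx, f6 y hy, hz' 1, hl1, hp1]
    simp only [Prod.mk.injEq]
    refine ⟨?_, hl2⟩
    rw [e12_dec (l 0 x) (p 0 x) (c x) (hc x hx 0), e12_dec (l 0 y) (p 0 y) (c y) (hc y hy 0), e3, e4, hcc]
  have g0 := Ent_pair Om (fun x => (l 0 x, p 0 x)) (fun x => ((l 1 x, p 1 x), fun j => z j x))
  have g2 := Ent_pair Om (fun x => (l 2 x, p 2 x)) (fun x => ((l 1 x, p 1 x), fun j => z j x))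
  have g1 := Ent_pair Om (fun x => (l 1 x, p 1 x)) (fun x j => z j x)
  have g3 := Ent_pi_le Om z
  have k : ∀ j : Fin 3, Ent Om (fun x => (l j x, p j x)) ≤ Ent Om (l j) + ∑ x ∈ Om, Real.log ((l j x).length : ℝ) := fun j =>
    Ent_index Om (l j) (p j) (fun x => (l j x).length) (fun x hx => hp x hx j) (fun x _ y _ h => by
      show (l j x).length = (l j y).length
      rw [h])
  have k0 := k 0
  have k1 := k 1
  have k2 := k 2
  linarith

end H98T
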