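import Mathlib
import Pool.Agent.Lib.H98T.E0
import Pool.Agent.Lib.H98T.EN
import Pool.Agent.Lib.H98T.E02
import Pool.Agent.Lib.H98T.E11
import Pool.Agent.Lib.H98T.E12

set_option autoImplicit false

namespace H98T

open Finset

/-!
Module E, chunk E14 (S/M): the node inequality in a net, all patterns.  Om = a set of regular polygons on which pat x k is constant = f.
Node label tau k x = (A.vis x k 0, A.vis x k 1, A.vis x k 2) as a function Fin 3 -> List C.
Case f = 0: tau k x j = l k j x on Om: node_N (hypotheses = fields hp, hc, h1, h2 of the net).  Case f = 1: vis x k 1 = [] and Ent tau = Ent (l k 0, l k 2) (Ent_congr): node_F0, the other terms on the right are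
nonnegative.  Case f = 2: node_F1.  The right side is written with the indicators of the three cases.
-/

theorem e14_vis {X C : Type} {m : ℕ} (A : LNet X C m) (x : X) (hx : x ∈ A.reg) (k : ℕ) (j : Fin 3) (h : j ≠ 1 ∨ A.pat x k = 0) :
    A.vis x k j = A.l k j x := by
  unfold LNet.vis
  rw [if_pos]
  refine ⟨hx, ?_⟩
  rintro ⟨h1, h2⟩
  rcases h with h | h
  · exact h h1
  · exact h2 h

theorem e14_vis1 {X C : Type} {m : ℕ} (A : LNet X C m) (x : X) (k : ℕ) (h : A.pat x k ≠ 0) :
    A.vis x k 1 = [] := by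
  unfold LNet.vis
  rw [if_neg]
  rintro ⟨_, h2⟩
  exact h2 ⟨rfl, h⟩

theorem net_node {X C : Type} {m : ℕ} (A : LNet X C m) (Om : Finset X) (hO : Om ⊆ A.reg) (k : ℕ) (hk : k < m) (f : Fin 3)
    (hf : ∀ x ∈ Om, A.pat x k = f) :
    Ent Om (fun x j => A.vis x k j) ≤
      (1 / 2) * (Ent Om (A.l k 0) + Ent Om (A.l k 2))
      + (if f = 0 then (1 / 2) * Ent Om (A.l k 1) + (1 / 2) * ∑ j, ∑ x ∈ Om, Real.log ((A.l k j x).length : ℝ)
            - (1 / 2) * Ent Om (A.c k) else 0)
      + (if f = 2 then Ent Om (A.l k 1) + (1 / 2) * ∑ x ∈ Om, Real.log ((A.l k 0 x).length : ℝ)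
            + (1 / 2) * ∑ x ∈ Om, Real.log ((A.l k 2 x).length : ℝ) + ∑ x ∈ Om, Real.log ((A.l k 1 x).length : ℝ) else 0)
      + (5 / 2) * ∑ j, Ent Om (A.z k j) := by
  have hp' : ∀ x ∈ Om, ∀ j, A.p k j x < (A.l k j x).length := fun x hx j => A.hp x (hO hx) k hk j
  have hc' : ∀ x ∈ Om, ∀ j, (A.l k j x)[A.p k j x]? = some (A.c k x) := fun x hx j => A.hc x (hO hx) k hk j
  have h1' : ∀ x ∈ Om, ∀ j, ((A.l k j x).drop (A.p k j x + 1)).reverse = ap ((A.l k (j + 1) x).take (A.p k (j + 1) x)) (A.z k (j + 1) x) :=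
    fun x hx j => A.h1 x (hO hx) k hk j
  have h2' : ∀ x ∈ Om, ∀ j, (A.l k (j + 1) x).take (A.p k (j + 1) x) = ap' (((A.l k j x).drop (A.p k j x + 1)).reverse) (A.z k (j + 1) x) :=
    fun x hx j => A.h2 x (hO hx) k hk j
  have hz : 0 ≤ ∑ j, Ent Om (A.z k j) := Finset.sum_nonneg (fun j _ => Ent_nonneg Om _)
  have hcases : f = 0 ∨ f = 1 ∨ f = 2 := by
    revert f
    intro f _
    fin_cases f <;> simp
  rcases hcases with rfl | rfl | rfl
  · have hv : ∀ x ∈ Om, (fun j => A.vis x k j) = (fun j => A.l k j x) := fun x hx => by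
      funext j
      exact e14_vis A x (hO hx) k j (Or.inr (hf x hx))
    have hm : Ent Om (fun x j => A.vis x k j) ≤ Ent Om (fun x j => A.l k j x) := Ent_mono Om _ _ (fun x hx y hy he => by
      show (fun j => A.vis x k j) = (fun j => A.vis y k j)
      rw [hv x hx, hv y hy]
      exact he)
    have hn := node_N Om (A.l k) (A.p k) (A.z k) (A.c k) hp' hc' h1' h2'
    rw [if_pos rfl, if_neg (by decide)]
    simp only [Fin.sum_univ_three] at hn ⊢
    linarith
  · have hm : Ent Om (fun x j => A.vis x k j) ≤ Ent Om (fun x => (A.l k 0 x, A.l k 2 x)) := Ent_mono Om _ _ (fun x hx y hy he => by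
      simp only [Prod.mk.injEq] at he
      have q1 : A.pat x k ≠ 0 := by rw [hf x hx]; decide
      have q2 : A.pat y k ≠ 0 := by rw [hf y hy]; decide
      funext j
      fin_cases j
      · show A.vis x k 0 = A.vis y k 0
        rw [e14_vis A x (hO hx) k 0 (Or.inl (by decide)), e14_vis A y (hO hy) k 0 (Or.inl (by decide))]
        exact he.1
      · show A.vis x k 1 = A.vis y k 1
        rw [e14_vis1 A x k q1, e14_vis1 A y k q2]
      · show A.vis x k 2 = A.vis y k 2
        rw [e14_vis A x (hO hx) k 2 (Or.inl (by decide)), e14_vis A y (hO hy) k 2 (Or.inl (by decide))]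
        exact he.2)
    have hn := node_F0 Om (A.l k) (A.p k) (A.z k) (A.c k) (fun x hx => A.hF0 x (hO hx) k hk (hf x hx)) hp' hc' h1' h2'
    rw [if_neg (by decide), if_neg (by decide)]
    linarith
  · have hm : Ent Om (fun x j => A.vis x k j) ≤ Ent Om (fun x => (A.l k 0 x, A.l k 2 x)) := Ent_mono Om _ _ (fun x hx y hy he => by
      simp only [Prod.mk.injEq] at he
      have q1 : A.pat x k ≠ 0 := by rw [hf x hx]; decide
      have q2 : A.pat y k ≠ 0 := by rw [hf y hy]; decide
      funext j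
      fin_cases j
      · show A.vis x k 0 = A.vis y k 0
        rw [e14_vis A x (hO hx) k 0 (Or.inl (by decide)), e14_vis A y (hO hy) k 0 (Or.inl (by decide))]
        exact he.1
      · show A.vis x k 1 = A.vis y k 1
        rw [e14_vis1 A x k q1, e14_vis1 A y k q2]
      · show A.vis x k 2 = A.vis y k 2
        rw [e14_vis A x (hO hx) k 2 (Or.inl (by decide)), e14_vis A y (hO hy) k 2 (Or.inl (by decide))]
        exact he.2)
    have hn := node_F1 Om (A.l k) (A.p k) (A.z k) (A.c k) hp' hc' h1' h2'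
    rw [if_neg (by decide), if_pos rfl]
    linarith

end H98T
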