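import Mathlib
import Pool.Agent.Lib.H98T.E0
import Pool.Agent.Lib.H98T.EN
import Pool.Agent.Lib.H98T.E02
import Pool.Agent.Lib.H98T.E13
import Pool.Agent.Lib.H98T.E14

set_option autoImplicit false

namespace H98T

open Finset

/-!
Module E, chunk E15 (M): one pattern.  Om = the set of all x with flag = some f (so Om ⊆ reg and pat x k = f k for k < m on Om).
(i) On Om the type typ x is determined by the node labels (fun j => vis x k j), k < m: flag is constant, the b o x are given by hb0, hb1, hb2 in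
terms of visible lists (b (k+1) x = none if f k <> 0, and vis x k 1 = l k 1 x if f k = 0).  So Ent Om typ <= Ent Om (all node labels).
(ii) Ent_path with tau k x = (fun j => vis x k j), s k x = l k 2 x = vis x k 2; (vis x (k+1) 0).reverse = l k 2 x by hdiag:
Ent Om typ <= sum_(k<m) Ent (tau k) - sum_(k<m-1) Ent (l k 2).
(iii) net_node for each k < m with f k; sum_(k<m) (1/2)(Ent (l k 0) + Ent (l k 2)) - sum_(k<m-1) Ent (l k 2) = (1/2) Ent (l 0 0) + (1/2) Ent (l (m-1) 2), because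
Ent (l (k+1) 0) = Ent (l k 2) (reverse, Ent_congr).
(iv) Ent (b 0) = Ent (l 0 0), Ent (b (m+1)) = Ent (l (m-1) 2), Ent (b (k+1)) = Ent (l k 1) if f k = 0 and 0 otherwise (Ent_congr, Ent_const; rvl r is injective).
-/

theorem e15_tel (n : ℕ) (e0 e2 : ℕ → ℝ) (h : ∀ k, k < n → e0 (k + 1) = e2 k) :
    ∑ k ∈ Finset.range (n + 1), (1 / 2) * (e0 k + e2 k) - ∑ k ∈ Finset.range n, e2 k = (1 / 2) * e0 0 + (1 / 2) * e2 n := by
  rw [← Finset.mul_sum, Finset.sum_add_distrib, Finset.sum_range_succ', Finset.sum_range_succ (f := e2)]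
  have h1 : ∑ k ∈ Finset.range n, e0 (k + 1) = ∑ k ∈ Finset.range n, e2 k :=
    Finset.sum_congr rfl (fun k hk => h k (Finset.mem_range.mp hk))
  rw [h1]
  ring

theorem e15_rvl {C : Type} (r : Bool) (l l' : List C) (h : rvl r l = rvl r l') : l = l' := by
  unfold rvl at h
  split_ifs at h
  · exact List.reverse_injective h
  · exact h

open Classical in
theorem net_pattern {X C : Type} {m : ℕ} (hm : 1 ≤ m) (A : LNet X C m) (f : Fin m → Fin 3) (Om : Finset X)
    (hO : ∀ x ∈ Om, A.flag x = some f) :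
    Ent Om A.typ ≤ (1 / 2) * ∑ o ∈ Finset.range (m + 2), Ent Om (A.b o)
      + ∑ k : Fin m, (if f k = 0 then (1 / 2) * ∑ j, ∑ x ∈ Om, Real.log ((A.l k j x).length : ℝ)
            - (1 / 2) * Ent Om (A.c k) else 0)
      + ∑ k : Fin m, (if f k = 2 then Ent Om (A.l k 1) + (1 / 2) * ∑ x ∈ Om, Real.log ((A.l k 0 x).length : ℝ)
            + (1 / 2) * ∑ x ∈ Om, Real.log ((A.l k 2 x).length : ℝ) + ∑ x ∈ Om, Real.log ((A.l k 1 x).length : ℝ) else 0)
      + (5 / 2) * ∑ k : Fin m, ∑ j, Ent Om (A.z k j) := by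
  have hreg : ∀ x ∈ Om, x ∈ A.reg := by
    intro x hx
    by_contra hc
    have := hO x hx
    unfold LNet.flag at this
    rw [if_neg hc] at this
    exact absurd this (by simp)
  have hpat : ∀ x ∈ Om, ∀ k : Fin m, A.pat x k = f k := by
    intro x hx k
    have := hO x hx
    unfold LNet.flag at this
    rw [if_pos (hreg x hx)] at this
    exact congrFun (Option.some.inj this) k
  -- the visible lists
  have v0 : ∀ x ∈ Om, ∀ k, A.vis x k 0 = A.l k 0 x := fun x hx k => e14_vis A x (hreg x hx) k 0 (Or.inl (by decide))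
  have v2 : ∀ x ∈ Om, ∀ k, A.vis x k 2 = A.l k 2 x := fun x hx k => e14_vis A x (hreg x hx) k 2 (Or.inl (by decide))
  have v1 : ∀ x ∈ Om, ∀ k, A.pat x k = 0 → A.vis x k 1 = A.l k 1 x := fun x hx k h => e14_vis A x (hreg x hx) k 1 (Or.inr h)
  -- (i)
  have s1 : Ent Om A.typ ≤ Ent Om (fun x => fun k : Fin m => fun j => A.vis x k j) := by
    apply Ent_mono
    intro x hx y hy he
    have hvis : ∀ k, k < m → ∀ j, A.vis x k j = A.vis y k j := fun k hk j => congrFun (congrFun he ⟨k, hk⟩) j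
    unfold LNet.typ
    have e1 : A.flag x = A.flag y := by rw [hO x hx, hO y hy]
    have e3 : (fun (o : Fin (m + 2)) => A.b o x) = (fun (o : Fin (m + 2)) => A.b o y) := by
      funext o
      have hcases : (o : ℕ) = 0 ∨ (∃ k, k < m ∧ (o : ℕ) = k + 1) ∨ (o : ℕ) = m + 1 := by
        rcases Nat.eq_zero_or_pos (o : ℕ) with h | h
        · exact Or.inl h
        · rcases Nat.lt_or_ge (o : ℕ) (m + 1) with h' | h'
          · exact Or.inr (Or.inl ⟨(o : ℕ) - 1, by omega, by omega⟩)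
          · exact Or.inr (Or.inr (by omega))
      rcases hcases with h | ⟨k, hk, h⟩ | h
      · rw [h, A.hb0 x (hreg x hx), A.hb0 y (hreg y hy), ← v0 x hx, ← v0 y hy, hvis 0 hm 0]
      · rw [h, A.hb1 x (hreg x hx) k hk, A.hb1 y (hreg y hy) k hk]
        have q1 := hpat x hx ⟨k, hk⟩
        have q2 := hpat y hy ⟨k, hk⟩
        by_cases h0 : f ⟨k, hk⟩ = 0
        · rw [h0] at q1 q2
          rw [if_pos q1, if_pos q2, ← v1 x hx k q1, ← v1 y hy k q2, hvis k hk 1]
        · rw [if_neg (by rw [q1]; exact h0), if_neg (by rw [q2]; exact h0)]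
      · rw [h, A.hb2 x (hreg x hx), A.hb2 y (hreg y hy), ← v2 x hx, ← v2 y hy, hvis (m - 1) (by omega) 2]
    have e2 : (fun (k : Fin m) j => A.vis x k j) = (fun (k : Fin m) j => A.vis y k j) := he
    rw [e1, e2, e3]
  -- (ii)
  have s2 := Ent_path Om m hm (fun k x => fun j => A.vis x k j) (fun k x => A.l k 2 x)
    (fun k _ x hx y hy he => by
      have : A.vis x k 2 = A.vis y k 2 := congrFun he 2
      rw [v2 x hx, v2 y hy] at this
      exact this)
    (fun k hk x hx y hy he => by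
      have : A.vis x (k + 1) 0 = A.vis y (k + 1) 0 := congrFun he 0
      rw [v0 x hx, v0 y hy, A.hdiag x (hreg x hx) k hk, A.hdiag y (hreg y hy) k hk] at this
      exact List.reverse_injective this)
  -- (iii)
  have s3 : ∑ k ∈ Finset.range m, Ent Om (fun x => fun j => A.vis x k j) = ∑ k : Fin m, Ent Om (fun x => fun j => A.vis x k j) :=
    (Fin.sum_univ_eq_sum_range (fun k => Ent Om (fun x => fun j => A.vis x k j)) m).symm
  have s4 : ∀ k : Fin m, Ent Om (fun x => fun j => A.vis x k j) ≤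
      (1 / 2) * (Ent Om (A.l k 0) + Ent Om (A.l k 2))
      + (if f k = 0 then (1 / 2) * Ent Om (A.l k 1) else 0)
      + (if f k = 0 then (1 / 2) * ∑ j, ∑ x ∈ Om, Real.log ((A.l k j x).length : ℝ) - (1 / 2) * Ent Om (A.c k) else 0)
      + (if f k = 2 then Ent Om (A.l k 1) + (1 / 2) * ∑ x ∈ Om, Real.log ((A.l k 0 x).length : ℝ)
            + (1 / 2) * ∑ x ∈ Om, Real.log ((A.l k 2 x).length : ℝ) + ∑ x ∈ Om, Real.log ((A.l k 1 x).length : ℝ) else 0)
      + (5 / 2) * ∑ j, Ent Om (A.z k j) := by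
    intro k
    have := net_node A Om hreg k k.2 (f k) (fun x hx => hpat x hx k)
    refine this.trans (le_of_eq ?_)
    by_cases h0 : f k = 0
    · rw [if_pos h0, if_pos h0, if_pos h0]; ring
    · rw [if_neg h0, if_neg h0, if_neg h0]; ring
  have s5 := Finset.sum_le_sum (fun (k : Fin m) (_ : k ∈ Finset.univ) => s4 k)
  rw [Finset.sum_add_distrib, Finset.sum_add_distrib, Finset.sum_add_distrib, Finset.sum_add_distrib, ← Finset.mul_sum (f := fun k : Fin m => ∑ j, Ent Om (A.z k j))] at s5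
  -- telescoping
  obtain ⟨n, rfl⟩ : ∃ n, m = n + 1 := ⟨m - 1, by omega⟩
  have t0 := e15_tel n (fun k => Ent Om (A.l k 0)) (fun k => Ent Om (A.l k 2)) (fun k hk =>
    Ent_congr Om _ _ (fun x hx y hy => by
      rw [A.hdiag x (hreg x hx) k (by omega), A.hdiag y (hreg y hy) k (by omega), List.reverse_inj]))
  have t1 : ∑ k : Fin (n + 1), (1 / 2) * (Ent Om (A.l k 0) + Ent Om (A.l k 2)) = ∑ k ∈ Finset.range (n + 1), (1 / 2) * (Ent Om (A.l k 0) + Ent Om (A.l k 2)) :=
    Fin.sum_univ_eq_sum_range (fun k => (1 / 2) * (Ent Om (A.l k 0) + Ent Om (A.l k 2))) (n + 1)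
  -- (iv)
  have u0 : Ent Om (A.l 0 0) ≤ Ent Om (A.b 0) := Ent_mono Om _ _ (fun x hx y hy he => by
    rw [A.hb0 x (hreg x hx), A.hb0 y (hreg y hy)] at he
    exact e15_rvl _ _ _ (Option.some.inj (Option.some.inj he)))
  have u2 : Ent Om (A.l n 2) ≤ Ent Om (A.b (n + 1 + 1)) := Ent_mono Om _ _ (fun x hx y hy he => by
    rw [A.hb2 x (hreg x hx), A.hb2 y (hreg y hy)] at he
    exact e15_rvl _ _ _ (Option.some.inj (Option.some.inj he)))
  have u1 : ∀ k : Fin (n + 1), (if f k = 0 then (1 / 2) * Ent Om (A.l k 1) else 0) ≤ (1 / 2) * Ent Om (A.b ((k : ℕ) + 1)) := by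
    intro k
    by_cases h0 : f k = 0
    · rw [if_pos h0]
      have : Ent Om (A.l k 1) ≤ Ent Om (A.b ((k : ℕ) + 1)) := Ent_mono Om _ _ (fun x hx y hy he => by
        rw [A.hb1 x (hreg x hx) k k.2, A.hb1 y (hreg y hy) k k.2, if_pos (by rw [hpat x hx k]; exact h0), if_pos (by rw [hpat y hy k]; exact h0)] at he
        exact e15_rvl _ _ _ (Option.some.inj (Option.some.inj he)))
      linarith
    · rw [if_neg h0]
      have := Ent_nonneg Om (A.b ((k : ℕ) + 1))
      linarith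
  have u3 := Finset.sum_le_sum (fun (k : Fin (n + 1)) (_ : k ∈ Finset.univ) => u1 k)
  have u4 : ∑ k : Fin (n + 1), (1 / 2) * Ent Om (A.b ((k : ℕ) + 1)) = (1 / 2) * ∑ k ∈ Finset.range (n + 1), Ent Om (A.b (k + 1)) := by
    rw [← Finset.mul_sum]
    congr 1
    exact Fin.sum_univ_eq_sum_range (fun k => Ent Om (A.b (k + 1))) (n + 1)
  have u5 : ∑ o ∈ Finset.range (n + 1 + 2), Ent Om (A.b o) = Ent Om (A.b 0) + ∑ k ∈ Finset.range (n + 1), Ent Om (A.b (k + 1)) + Ent Om (A.b (n + 1 + 1)) := by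
    rw [Finset.sum_range_succ, Finset.sum_range_succ']
    ring
  have e9 : n + 1 - 1 = n := by omega
  rw [e9, s3] at s2
  rw [u4] at u3
  rw [t1] at s5
  rw [u5]
  linarith

end H98T
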