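import Mathlib
import Pool.Agent.Lib.H98T.E0
import Pool.Agent.Lib.H98T.EN
import Pool.Agent.Lib.H98T.E07
import Pool.Agent.Lib.H98T.E09
import Pool.Agent.Lib.H98T.E15

set_option autoImplicit false

namespace H98T

open Finset

/-!
Module E, chunk E16 (M): one pattern, numerical form.  D = card X, N = card C, Om = all x with flag = some f (Om ⊆ reg, pat x k = f k).
From net_pattern:
- Ent Om (c k) >= |Om| log (1/kap) - D     (Ent_lower', with Bd.cen: cl Om (c k) x <= card of {x in reg : c k x = q} <= kap D; |Om| <= D);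
- Ent Om (z k j) <= sum (length * log (2 * (2 (Lmax+1) N)) + log 2)   (Ent_list_le, alphabet range (Lmax+1) x Bool x C, by Bd.edi);
- Ent Om (l k 1) <= sum (length * log (2 N) + log 2)    (Ent_list_le, alphabet = univ);
- log (length) <= log Lmax for the three lists of a node with f k = 2 (1 <= length by hp).
-/

open Classical in
theorem net_pattern_num {X C : Type} [Fintype X] [Fintype C] [Nonempty C] {m : ℕ} (hm : 1 ≤ m) (A : LNet X C m) (Lam kap th eta eta1 : ℝ) (Lmax : ℕ)
    (hk : 0 < kap) (hB : A.Bd Lam kap th eta eta1 Lmax) (f : Fin m → Fin 3) (Om : Finset X)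
    (hO : ∀ x ∈ Om, A.flag x = some f) (hX : 0 < Fintype.card X) :
    Ent Om A.typ ≤ (1 / 2) * ∑ o ∈ Finset.range (m + 2), Ent Om (A.b o)
      + ∑ k : Fin m, (if f k = 0 then (1 / 2) * ∑ j, ∑ x ∈ Om, Real.log ((A.l k j x).length : ℝ)
            - (1 / 2) * ((Om.card : ℝ) * Real.log (1 / kap) - Fintype.card X) else 0)
      + ∑ k : Fin m, (if f k = 2 then ∑ x ∈ Om, (((A.l k 1 x).length : ℝ) * Real.log (2 * (Fintype.card C : ℝ))
            + Real.log 2 + 2 * Real.log (Lmax : ℝ)) else 0)
      + (5 / 2) * ∑ k : Fin m, ∑ j, ∑ x ∈ Om, (((A.z k j x).length : ℝ) * Real.log (4 * ((Lmax : ℝ) + 1) * (Fintype.card C : ℝ)) + Real.log 2) := by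
  have hreg : ∀ x ∈ Om, x ∈ A.reg := by
    intro x hx
    by_contra hc
    have := hO x hx
    unfold LNet.flag at this
    rw [if_neg hc] at this
    exact absurd this (by simp)
  have hN : 1 ≤ Fintype.card C := Fintype.card_pos
  have hD : (0 : ℝ) < Fintype.card X := by exact_mod_cast hX
  have hcard : (Om.card : ℝ) ≤ Fintype.card X := by exact_mod_cast Finset.card_le_univ Om
  refine (net_pattern hm A f Om hO).trans ?_
  have T1 : ∀ k : Fin m, (if f k = 0 then (1 / 2) * ∑ j, ∑ x ∈ Om, Real.log ((A.l k j x).length : ℝ) - (1 / 2) * Ent Om (A.c k) else 0) ≤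
      (if f k = 0 then (1 / 2) * ∑ j, ∑ x ∈ Om, Real.log ((A.l k j x).length : ℝ)
            - (1 / 2) * ((Om.card : ℝ) * Real.log (1 / kap) - Fintype.card X) else 0) := by
    intro k
    by_cases h0 : f k = 0
    · rw [if_pos h0, if_pos h0]
      have := Ent_lower' Om (A.c k) (Fintype.card X : ℝ) kap hD hk hcard (fun x hx => by
        refine le_trans ?_ (hB.cen k k.2 (A.c k x))
        have : cl Om (A.c k) x ≤ (A.reg.filter (fun y => A.c k y = A.c k x)).card := by
          unfold cl
          apply Finset.card_le_card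
          intro y hy
          rw [Finset.mem_filter] at hy ⊢
          exact ⟨hreg y hy.1, hy.2⟩
        exact_mod_cast this)
      linarith
    · rw [if_neg h0, if_neg h0]
  have hlogs : ∀ k : Fin m, ∀ j : Fin 3, ∑ x ∈ Om, Real.log ((A.l k j x).length : ℝ) ≤ ∑ x ∈ Om, Real.log (Lmax : ℝ) := by
    intro k j
    apply Finset.sum_le_sum
    intro x hx
    have h1 := A.hp x (hreg x hx) k k.2 j
    have h2 := hB.len x (hreg x hx) k k.2 j
    apply Real.log_le_log
    · exact_mod_cast (by omega : 0 < (A.l k j x).length)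
    · exact_mod_cast h2
  have T2 : ∀ k : Fin m, (if f k = 2 then Ent Om (A.l k 1) + (1 / 2) * ∑ x ∈ Om, Real.log ((A.l k 0 x).length : ℝ)
            + (1 / 2) * ∑ x ∈ Om, Real.log ((A.l k 2 x).length : ℝ) + ∑ x ∈ Om, Real.log ((A.l k 1 x).length : ℝ) else 0) ≤
      (if f k = 2 then ∑ x ∈ Om, (((A.l k 1 x).length : ℝ) * Real.log (2 * (Fintype.card C : ℝ)) + Real.log 2 + 2 * Real.log (Lmax : ℝ)) else 0) := by
    intro k
    by_cases h0 : f k = 2
    · rw [if_pos h0, if_pos h0]
      have q1 := Ent_list_le Om (A.l k 1) (Finset.univ : Finset C) (Fintype.card C) hN (le_of_eq Finset.card_univ) (fun x _ a _ => Finset.mem_univ a)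
      have q2 := hlogs k 0
      have q3 := hlogs k 1
      have q4 := hlogs k 2
      rw [Finset.sum_add_distrib (g := fun _ => 2 * Real.log (Lmax : ℝ)), ← Finset.mul_sum (f := fun _ => Real.log (Lmax : ℝ))]
      linarith
    · rw [if_neg h0, if_neg h0]
  have T3 : ∀ k : Fin m, ∀ j : Fin 3, Ent Om (A.z k j) ≤
      ∑ x ∈ Om, (((A.z k j x).length : ℝ) * Real.log (4 * ((Lmax : ℝ) + 1) * (Fintype.card C : ℝ)) + Real.log 2) := by
    intro k j
    have q1 := Ent_list_le Om (A.z k j) ((Finset.range (Lmax + 1)) ×ˢ ((Finset.univ : Finset Bool) ×ˢ (Finset.univ : Finset C)))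
      ((Lmax + 1) * (2 * Fintype.card C)) (by
        have : 0 < (Lmax + 1) * (2 * Fintype.card C) := by positivity
        omega) (by
        rw [Finset.card_product, Finset.card_product, Finset.card_range, Finset.card_univ, Finset.card_univ, Fintype.card_bool]) (by
        intro x hx e he
        have := hB.edi x (hreg x hx) k k.2 j e he
        rw [Finset.mem_product, Finset.mem_product]
        exact ⟨Finset.mem_range.mpr (by omega), Finset.mem_univ _, Finset.mem_univ _⟩)
    refine q1.trans (le_of_eq ?_)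
    refine Finset.sum_congr rfl (fun x _ => ?_)
    congr 3
    push_cast
    ring
  have S1 := Finset.sum_le_sum (fun (k : Fin m) (_ : k ∈ Finset.univ) => T1 k)
  have S2 := Finset.sum_le_sum (fun (k : Fin m) (_ : k ∈ Finset.univ) => T2 k)
  have S3 : ∑ k : Fin m, ∑ j : Fin 3, Ent Om (A.z k j) ≤ ∑ k : Fin m, ∑ j : Fin 3,
      ∑ x ∈ Om, (((A.z k j x).length : ℝ) * Real.log (4 * ((Lmax : ℝ) + 1) * (Fintype.card C : ℝ)) + Real.log 2) :=
    Finset.sum_le_sum (fun k _ => Finset.sum_le_sum (fun j _ => T3 k j))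
  linarith

end H98T
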