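import Mathlib
import Pool.Agent.Lib.H98T.E0
import Pool.Agent.Lib.H98T.EN
import Pool.Agent.Lib.H98T.E02
import Pool.Agent.Lib.H98T.E05
import Pool.Agent.Lib.H98T.E07

set_option autoImplicit false

namespace H98T

open Finset

/-!
Module E, chunk E17 (S): the polygons outside reg.  On Om (all x not in reg) typ x is determined by the labels b o x, o < m+2 (flag = none, vis = []), so
Ent Om typ <= sum_o Ent Om (b o) (Ent_mono, Ent_pi_le) <= sum_o sum_x (bsz * log (2N) + log 4) (Ent_label_le).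
-/

open Classical in
theorem net_rest {X C : Type} [Fintype X] [Fintype C] [Nonempty C] {m : ℕ} (A : LNet X C m) (Lam kap th eta eta1 : ℝ) (Lmax : ℕ)
    (hB : A.Bd Lam kap th eta eta1 Lmax) (Om : Finset X) (hO : Om = Finset.univ \ A.reg) :
    Ent Om A.typ ≤ eta * Fintype.card X * Real.log (2 * (Fintype.card C : ℝ)) + (m + 2) * Real.log 4 * Fintype.card X := by
  have hN : 1 ≤ Fintype.card C := Fintype.card_pos
  have hN' : (1 : ℝ) ≤ Fintype.card C := by exact_mod_cast hN
  have hlog : 0 ≤ Real.log (2 * (Fintype.card C : ℝ)) := Real.log_nonneg (by linarith)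
  have hreg : ∀ x ∈ Om, x ∉ A.reg := by
    intro x hx
    rw [hO, Finset.mem_sdiff] at hx
    exact hx.2
  have h1 : Ent Om A.typ ≤ Ent Om (fun x => fun o : Fin (m + 2) => A.b o x) := Ent_mono Om _ _ (fun x hx y hy he => by
    unfold LNet.typ
    have e1 : A.flag x = A.flag y := by
      unfold LNet.flag
      rw [if_neg (hreg x hx), if_neg (hreg y hy)]
    have e2 : (fun (k : Fin m) j => A.vis x k j) = (fun (k : Fin m) j => A.vis y k j) := by
      funext k j
      unfold LNet.vis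
      rw [if_neg (fun h => hreg x hx h.1), if_neg (fun h => hreg y hy h.1)]
    rw [e1, e2, he])
  have h2 := Ent_pi_le Om (fun o : Fin (m + 2) => A.b o)
  have h3 : ∑ o : Fin (m + 2), Ent Om (A.b o) ≤ ∑ o : Fin (m + 2), ∑ x ∈ Om, ((bsz (A.b o x) : ℝ) * Real.log (2 * (Fintype.card C : ℝ)) + Real.log 4) :=
    Finset.sum_le_sum (fun o _ => Ent_label_le Om (A.b o))
  have h4 : ∑ o : Fin (m + 2), ∑ x ∈ Om, ((bsz (A.b o x) : ℝ) * Real.log (2 * (Fintype.card C : ℝ)) + Real.log 4) =
      (∑ x ∈ Om, ∑ o ∈ Finset.range (m + 2), (bsz (A.b o x) : ℝ)) * Real.log (2 * (Fintype.card C : ℝ)) + (m + 2) * Real.log 4 * (Om.card : ℝ) := by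
    have h5 : ∀ o : Fin (m + 2), ∑ x ∈ Om, ((bsz (A.b o x) : ℝ) * Real.log (2 * (Fintype.card C : ℝ)) + Real.log 4) =
        (∑ x ∈ Om, (bsz (A.b o x) : ℝ)) * Real.log (2 * (Fintype.card C : ℝ)) + (Om.card : ℝ) * Real.log 4 := by
      intro o
      rw [Finset.sum_add_distrib, ← Finset.sum_mul, Finset.sum_const, nsmul_eq_mul]
    rw [Finset.sum_congr rfl (fun o _ => h5 o), Finset.sum_add_distrib, ← Finset.sum_mul, Finset.sum_const, nsmul_eq_mul, Finset.sum_comm]
    have h6 : ∀ x ∈ Om, ∑ o : Fin (m + 2), (bsz (A.b o x) : ℝ) = ∑ o ∈ Finset.range (m + 2), (bsz (A.b o x) : ℝ) := fun x _ =>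
      Fin.sum_univ_eq_sum_range (fun o => (bsz (A.b o x) : ℝ)) (m + 2)
    rw [Finset.sum_congr rfl h6, Finset.card_univ, Fintype.card_fin]
    push_cast
    ring
  have h7 := hB.rest
  rw [← hO] at h7
  have h8 : (Om.card : ℝ) ≤ Fintype.card X := by exact_mod_cast Finset.card_le_univ Om
  have h9 : (m + 2) * Real.log 4 * (Om.card : ℝ) ≤ (m + 2) * Real.log 4 * Fintype.card X :=
    mul_le_mul_of_nonneg_left h8 (by
      have : 0 ≤ Real.log 4 := Real.log_nonneg (by norm_num)
      positivity)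
  have h10 := mul_le_mul_of_nonneg_right h7 hlog
  linarith

end H98T
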