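import Mathlib
import Pool.Agent.Lib.H98T.E0
import Pool.Agent.Lib.H98T.EN
import Pool.Agent.Lib.H98T.E02
import Pool.Agent.Lib.H98T.E06
import Pool.Agent.Lib.H98T.E09
import Pool.Agent.Lib.H98T.E16
import Pool.Agent.Lib.H98T.E17

set_option autoImplicit false

/-!
Module E, chunk E18 (M/L): assembly.  D = card X, N = card C.  Partition of univ by flag (Ent_le_parts, J = Option (Fin m -> Fin 3), card 3^m + 1):
Ent univ typ <= D log (3^m + 1) + sum_f Ent Om_f typ + Ent Om_none typ.   Om_none = univ \ reg: E17.  Om_f: E16.  Sum over f: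
(i) sum_f (1/2) sum_o Ent Om_f (b o) <= (1/2) sum_o Ent univ (b o)   (Ent_parts_le and Ent_nonneg for the part none).
(ii) sum_f sum_(k : f k = 0) sum_(x in Om_f) = sum_k sum over R_k := {x in reg : pat x k = 0}.  So the logarithms give (1/2) sum_k sum_j sum_(x in R_k) log (length) <=
(1/2) sum_k 3 (|R_k| log Lam + D) (sum_log_le with Bd.sum, 1 <= length by hp) = (3/2) nN log Lam + (3/2) m D.
(iii) - (1/2) log (1/kap) sum_k |R_k| = - (1/2) nN log (1/kap);   (1/2) D times the number of (f,k) with f k = 0: <= (1/2) m 3^m D.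
(iv) f k = 2: sum over f, k, x in Om_f of (length l k 1) log (2N) <= eta D log (2N) (Bd.f1), number of (x,k): <= eta1 D (Bd.f1n), times (log 2 + 2 log Lmax).
(v) edits: <= (5/2) (th D log (4 (Lmax+1) N) + 3 m D log 2).
All logarithms are >= 0 (N >= 1).
-/

namespace H98T

open Finset

/-!
Module E, chunk E18 (M/L): assembly.
-/

/-- the part flag = j -/
noncomputable def e18_om {X C : Type} [Fintype X] {m : ℕ} (A : LNet X C m) (j : Option (Fin m → Fin 3)) : Finset X :=
  @Finset.filter X (fun x => A.flag x = j) (fun _ => Classical.propDecidable _) Finset.univ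

theorem e18_mem {X C : Type} [Fintype X] {m : ℕ} (A : LNet X C m) (j : Option (Fin m → Fin 3)) (x : X) :
    x ∈ e18_om A j ↔ A.flag x = j := by
  have h := @Finset.mem_filter X (fun x => A.flag x = j) (fun _ => Classical.propDecidable _) Finset.univ x
  exact ⟨fun h' => (h.1 h').2, fun h' => h.2 ⟨Finset.mem_univ _, h'⟩⟩

theorem e18_parts {X C B : Type} [Fintype X] {m : ℕ} (A : LNet X C m) (g : X → B) :
    Ent (e18_om A none) g + ∑ f : Fin m → Fin 3, Ent (e18_om A (some f)) g ≤ Ent Finset.univ g := by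
  have h := Ent_parts_le (Finset.univ : Finset X) A.flag g
  rw [Fintype.sum_option] at h
  exact h

theorem e18_parts' {X C B : Type} [Fintype X] {m : ℕ} (A : LNet X C m) (g : X → B) :
    Ent Finset.univ g ≤ (Fintype.card X : ℝ) * Real.log (3 ^ m + 1) +
      (Ent (e18_om A none) g + ∑ f : Fin m → Fin 3, Ent (e18_om A (some f)) g) := by
  have h0 := Ent_le_parts (Finset.univ : Finset X) A.flag g
  rw [Fintype.sum_option] at h0
  have hcardJ : (Fintype.card (Option (Fin m → Fin 3)) : ℝ) = 3 ^ m + 1 := by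
    rw [Fintype.card_option, Fintype.card_fun, Fintype.card_fin, Fintype.card_fin]
    push_cast
    ring
  rw [hcardJ, Finset.card_univ] at h0
  exact h0

open Classical in
theorem e18_fib {X C : Type} [Fintype X] {m : ℕ} (A : LNet X C m) (k : Fin m) (v : Fin 3) (φ : X → ℝ) :
    ∑ f : Fin m → Fin 3, (if f k = v then ∑ x ∈ e18_om A (some f), φ x else 0) =
      ∑ x ∈ A.reg.filter (fun x => A.pat x k = v), φ x := by
  rw [← Finset.sum_fiberwise (A.reg.filter (fun x => A.pat x k = v)) (fun x (k : Fin m) => A.pat x k) φ]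
  refine Finset.sum_congr rfl fun f _ => ?_
  have hfl : ∀ x, A.flag x = some f ↔ x ∈ A.reg ∧ (fun k : Fin m => A.pat x k) = f := by
    intro x
    unfold LNet.flag
    by_cases hx : x ∈ A.reg
    · simp [hx]
    · simp [hx]
  split_ifs with hf
  · refine Finset.sum_congr ?_ fun _ _ => rfl
    ext x
    rw [e18_mem, hfl, Finset.mem_filter, Finset.mem_filter]
    constructor
    · rintro ⟨h1, h2⟩
      refine ⟨⟨h1, ?_⟩, h2⟩
      rw [← hf, ← h2]
    · rintro ⟨⟨h1, _⟩, h2⟩
      exact ⟨h1, h2⟩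
  · symm
    apply Finset.sum_eq_zero
    intro x hx
    simp only [Finset.mem_filter] at hx
    exfalso
    apply hf
    rw [← hx.2]
    exact hx.1.2

open Classical in
theorem e18_all {X C : Type} [Fintype X] {m : ℕ} (A : LNet X C m) (φ : X → ℝ) :
    ∑ f : Fin m → Fin 3, ∑ x ∈ e18_om A (some f), φ x = ∑ x ∈ A.reg, φ x := by
  rw [← Finset.sum_fiberwise A.reg (fun x (k : Fin m) => A.pat x k) φ]
  refine Finset.sum_congr rfl fun f _ => ?_
  refine Finset.sum_congr ?_ fun _ _ => rfl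
  ext x
  rw [e18_mem, Finset.mem_filter]
  unfold LNet.flag
  by_cases hx : x ∈ A.reg
  · simp [hx]
  · simp [hx]

theorem net_assembly {X C : Type} [Fintype X] [Fintype C] [Nonempty C] {m : ℕ} (hm : 1 ≤ m) (A : LNet X C m) (Lam kap th eta eta1 : ℝ) (Lmax : ℕ)
    (hL : 1 ≤ Lam) (hk : 0 < kap) (hM : 1 ≤ Lmax) (hB : A.Bd Lam kap th eta eta1 Lmax) (hX : 0 < Fintype.card X) :
    Ent Finset.univ A.typ ≤ (1 / 2) * ∑ o ∈ Finset.range (m + 2), Ent Finset.univ (A.b o)
      - (A.nN : ℝ) * ((1 / 2) * Real.log (1 / kap) - (3 / 2) * Real.log Lam)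
      + (Fintype.card X : ℝ) * (CE m + (5 / 2) * th * Real.log (4 * ((Lmax : ℝ) + 1) * (Fintype.card C : ℝ))
        + 2 * eta * Real.log (2 * (Fintype.card C : ℝ)) + eta1 * (Real.log 2 + 2 * Real.log (Lmax : ℝ))) := by
  classical
  set D : ℝ := (Fintype.card X : ℝ) with hD
  have hD0 : 0 < D := by rw [hD]; exact_mod_cast hX
  have hNc : 1 ≤ Fintype.card C := Fintype.card_pos
  have hNr : (1 : ℝ) ≤ (Fintype.card C : ℝ) := by exact_mod_cast hNc
  have hMr : (1 : ℝ) ≤ (Lmax : ℝ) := by exact_mod_cast hM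
  set L2 : ℝ := Real.log (2 * (Fintype.card C : ℝ)) with hL2
  have hL20 : 0 ≤ L2 := Real.log_nonneg (by linarith)
  set L4 : ℝ := Real.log (4 * ((Lmax : ℝ) + 1) * (Fintype.card C : ℝ)) with hL4
  have hL40 : 0 ≤ L4 := Real.log_nonneg (by nlinarith)
  have hl2 : 0 ≤ Real.log 2 := Real.log_nonneg (by norm_num)
  have hlM : 0 ≤ Real.log (Lmax : ℝ) := Real.log_nonneg hMr
  have hmr : (1 : ℝ) ≤ m := by exact_mod_cast hm
  -- partition
  have h0 := e18_parts' A A.typ
  -- the rest
  have hrest : Ent (e18_om A none) A.typ ≤ eta * D * L2 + (m + 2) * Real.log 4 * D := by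
    apply net_rest A Lam kap th eta eta1 Lmax hB
    ext x
    rw [e18_mem, Finset.mem_sdiff]
    unfold LNet.flag
    by_cases hx : x ∈ A.reg
    · simp [hx]
    · simp [hx]
  -- one pattern
  have hpat : ∀ f : Fin m → Fin 3, Ent (e18_om A (some f)) A.typ ≤ _ := fun f =>
    net_pattern_num hm A Lam kap th eta eta1 Lmax hk hB f (e18_om A (some f))
      (fun x hx => (e18_mem A _ x).1 hx) hX
  have hsum := Finset.sum_le_sum fun (f : Fin m → Fin 3) (_ : f ∈ Finset.univ) => hpat f
  rw [Finset.sum_add_distrib, Finset.sum_add_distrib, Finset.sum_add_distrib] at hsum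
  -- (i)
  have t1 : ∑ f : Fin m → Fin 3, (1 / 2) * ∑ o ∈ Finset.range (m + 2), Ent (e18_om A (some f)) (A.b o) ≤
      (1 / 2) * ∑ o ∈ Finset.range (m + 2), Ent Finset.univ (A.b o) := by
    rw [← Finset.mul_sum, Finset.sum_comm]
    refine mul_le_mul_of_nonneg_left (Finset.sum_le_sum fun o _ => ?_) (by norm_num)
    have h := e18_parts A (A.b o)
    have h' := Ent_nonneg (e18_om A none) (A.b o)
    linarith
  -- (ii), (iii)
  have hR : ∀ k : Fin m, ∑ f : Fin m → Fin 3, (if f k = 0 then (1 / 2) * ∑ j, ∑ x ∈ e18_om A (some f), Real.log ((A.l k j x).length : ℝ)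
            - (1 / 2) * ((((e18_om A (some f)).card : ℕ) : ℝ) * Real.log (1 / kap) - D) else 0) ≤
      (3 / 2) * (((A.reg.filter (fun x => A.pat x k = 0)).card : ℝ) * Real.log Lam + D)
        - (1 / 2) * (((A.reg.filter (fun x => A.pat x k = 0)).card : ℝ) * Real.log (1 / kap)) + (1 / 2) * (3 : ℝ) ^ m * D := by
    intro k
    have e1 : ∀ f : Fin m → Fin 3, (if f k = 0 then (1 / 2) * ∑ j, ∑ x ∈ e18_om A (some f), Real.log ((A.l k j x).length : ℝ)
            - (1 / 2) * ((((e18_om A (some f)).card : ℕ) : ℝ) * Real.log (1 / kap) - D) else 0) =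
        (1 / 2) * ∑ j, (if f k = 0 then ∑ x ∈ e18_om A (some f), Real.log ((A.l k j x).length : ℝ) else 0)
          - (1 / 2) * Real.log (1 / kap) * (if f k = 0 then ∑ x ∈ e18_om A (some f), (1 : ℝ) else 0)
          + (1 / 2) * D * (if f k = 0 then (1 : ℝ) else 0) := by
      intro f
      split_ifs
      · rw [Finset.sum_const, nsmul_eq_mul]
        ring
      · simp
    rw [Finset.sum_congr rfl fun f _ => e1 f, Finset.sum_add_distrib, Finset.sum_sub_distrib, ← Finset.mul_sum, ← Finset.mul_sum, ← Finset.mul_sum,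
      Finset.sum_comm, e18_fib A k 0 (fun _ => (1 : ℝ)), Finset.sum_congr rfl fun j _ => e18_fib A k 0 (fun x => Real.log ((A.l k j x).length : ℝ))]
    have e2 : ∀ j : Fin 3, ∑ x ∈ A.reg.filter (fun x => A.pat x k = 0), Real.log ((A.l k j x).length : ℝ) ≤
        ((A.reg.filter (fun x => A.pat x k = 0)).card : ℝ) * Real.log Lam + D := by
      intro j
      refine sum_log_le _ (fun x => (A.l k j x).length) Lam D hL ?_ ?_
      · intro x hx
        have := A.hp x (Finset.mem_filter.1 hx).1 k k.2 j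
        omega
      · refine le_trans ?_ (hB.sum k k.2 j)
        exact Finset.sum_le_sum_of_subset_of_nonneg (Finset.filter_subset _ _) fun _ _ _ => Nat.cast_nonneg _
    have e3 := Finset.sum_le_sum fun (j : Fin 3) (_ : j ∈ Finset.univ) => e2 j
    rw [Finset.sum_const, Finset.card_univ, Fintype.card_fin, nsmul_eq_mul] at e3
    push_cast at e3
    have e4 : ∑ f : Fin m → Fin 3, (if f k = 0 then (1 : ℝ) else 0) ≤ (3 : ℝ) ^ m := by
      refine (Finset.sum_le_sum (g := fun _ => (1 : ℝ)) fun f _ => ?_).trans ?_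
      · show (if f k = 0 then (1 : ℝ) else 0) ≤ 1
        split_ifs <;> norm_num
      · rw [Finset.sum_const, Finset.card_univ, Fintype.card_fun, Fintype.card_fin, Fintype.card_fin, nsmul_eq_mul]
        push_cast
        linarith
    have e5 : ∑ x ∈ A.reg.filter (fun x => A.pat x k = 0), (1 : ℝ) = ((A.reg.filter (fun x => A.pat x k = 0)).card : ℝ) := by
      rw [Finset.sum_const, nsmul_eq_mul, mul_one]
    rw [e5]
    have e6 := mul_le_mul_of_nonneg_left e4 hD0.le
    nlinarith [e3, e6]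
  have t2 : ∑ f : Fin m → Fin 3, ∑ k : Fin m, (if f k = 0 then (1 / 2) * ∑ j, ∑ x ∈ e18_om A (some f), Real.log ((A.l k j x).length : ℝ)
            - (1 / 2) * ((((e18_om A (some f)).card : ℕ) : ℝ) * Real.log (1 / kap) - D) else 0) ≤
      (3 / 2) * ((A.nN : ℝ) * Real.log Lam + m * D) - (1 / 2) * ((A.nN : ℝ) * Real.log (1 / kap)) + (m / 2) * (3 : ℝ) ^ m * D := by
    rw [Finset.sum_comm]
    refine (Finset.sum_le_sum fun k _ => hR k).trans (le_of_eq ?_)
    have hn : (A.nN : ℝ) = ∑ k : Fin m, ((A.reg.filter (fun x => A.pat x k = 0)).card : ℝ) := by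
      unfold LNet.nN
      rw [Nat.cast_sum, Finset.sum_range]
    rw [hn, Finset.sum_add_distrib, Finset.sum_sub_distrib, ← Finset.mul_sum, ← Finset.mul_sum, Finset.sum_add_distrib, Finset.sum_const,
      Finset.sum_const, Finset.card_univ, Fintype.card_fin, nsmul_eq_mul, nsmul_eq_mul, ← Finset.sum_mul, ← Finset.sum_mul]
    ring
  -- (iv)
  have t3 : ∑ f : Fin m → Fin 3, ∑ k : Fin m, (if f k = 2 then ∑ x ∈ e18_om A (some f), (((A.l k 1 x).length : ℝ) * L2
            + Real.log 2 + 2 * Real.log (Lmax : ℝ)) else 0) ≤ eta * D * L2 + eta1 * D * (Real.log 2 + 2 * Real.log (Lmax : ℝ)) := by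
    rw [Finset.sum_comm, Finset.sum_congr rfl fun k _ => e18_fib A k 2 (fun x => ((A.l k 1 x).length : ℝ) * L2
            + Real.log 2 + 2 * Real.log (Lmax : ℝ))]
    have e1 : ∀ ψ : ℕ → X → ℝ, ∑ k : Fin m, ∑ x ∈ A.reg.filter (fun x => A.pat x k = 2), ψ k x =
        ∑ x ∈ A.reg, ∑ k ∈ (Finset.range m).filter (fun k => A.pat x k = 2), ψ k x := by
      intro ψ
      rw [← Finset.sum_range (fun k => ∑ x ∈ A.reg.filter (fun x => A.pat x k = 2), ψ k x)]
      simp_rw [Finset.sum_filter]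
      rw [Finset.sum_comm]
    rw [e1 (fun k x => ((A.l k 1 x).length : ℝ) * L2 + Real.log 2 + 2 * Real.log (Lmax : ℝ))]
    have e2 : ∑ x ∈ A.reg, ∑ k ∈ (Finset.range m).filter (fun k => A.pat x k = 2), (((A.l k 1 x).length : ℝ) * L2 + Real.log 2 + 2 * Real.log (Lmax : ℝ)) =
        (∑ x ∈ A.reg, ∑ k ∈ (Finset.range m).filter (fun k => A.pat x k = 2), ((A.l k 1 x).length : ℝ)) * L2 +
        (∑ x ∈ A.reg, (((Finset.range m).filter (fun k => A.pat x k = 2)).card : ℝ)) * (Real.log 2 + 2 * Real.log (Lmax : ℝ)) := by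
      rw [Finset.sum_mul, Finset.sum_mul, ← Finset.sum_add_distrib]
      refine Finset.sum_congr rfl fun x _ => ?_
      rw [Finset.sum_mul, Finset.sum_congr rfl fun k _ => add_assoc _ _ _, Finset.sum_add_distrib, Finset.sum_const, nsmul_eq_mul]
    rw [e2]
    exact add_le_add (mul_le_mul_of_nonneg_right hB.f1 hL20) (mul_le_mul_of_nonneg_right hB.f1n (by linarith))
  -- (v)
  have t4 : ∑ f : Fin m → Fin 3, (5 / 2) * ∑ k : Fin m, ∑ j, ∑ x ∈ e18_om A (some f), (((A.z k j x).length : ℝ) * L4 + Real.log 2) ≤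
      (5 / 2) * (th * D * L4 + 3 * m * D * Real.log 2) := by
    rw [← Finset.mul_sum]
    refine mul_le_mul_of_nonneg_left ?_ (by norm_num)
    have e0 : ∑ f : Fin m → Fin 3, ∑ k : Fin m, ∑ j, ∑ x ∈ e18_om A (some f), (((A.z k j x).length : ℝ) * L4 + Real.log 2) =
        ∑ k : Fin m, ∑ j, ∑ x ∈ A.reg, (((A.z k j x).length : ℝ) * L4 + Real.log 2) := by
      rw [Finset.sum_comm]
      refine Finset.sum_congr rfl fun k _ => ?_
      rw [Finset.sum_comm]
      refine Finset.sum_congr rfl fun j _ => ?_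
      exact e18_all A (fun x => ((A.z k j x).length : ℝ) * L4 + Real.log 2)
    rw [e0]
    have e1 : ∑ k : Fin m, ∑ j, ∑ x ∈ A.reg, (((A.z k j x).length : ℝ) * L4 + Real.log 2) =
        (∑ x ∈ A.reg, ∑ k ∈ Finset.range m, ∑ j, ((A.z k j x).length : ℝ)) * L4 + m * 3 * (A.reg.card : ℝ) * Real.log 2 := by
      rw [Finset.sum_comm (s := A.reg), Finset.sum_range, Finset.sum_mul]
      rw [show (m : ℝ) * 3 * (A.reg.card : ℝ) * Real.log 2 = ∑ k : Fin m, 3 * (A.reg.card : ℝ) * Real.log 2 by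
        rw [Finset.sum_const, Finset.card_univ, Fintype.card_fin, nsmul_eq_mul]; ring, ← Finset.sum_add_distrib]
      refine Finset.sum_congr rfl fun k _ => ?_
      rw [Finset.sum_comm (s := A.reg), Finset.sum_mul]
      rw [show 3 * (A.reg.card : ℝ) * Real.log 2 = ∑ j : Fin 3, (A.reg.card : ℝ) * Real.log 2 by
        rw [Finset.sum_const, Finset.card_univ, Fintype.card_fin, nsmul_eq_mul]; push_cast; ring, ← Finset.sum_add_distrib]
      refine Finset.sum_congr rfl fun j _ => ?_
      rw [Finset.sum_add_distrib, Finset.sum_const, nsmul_eq_mul, Finset.sum_mul]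
    rw [e1]
    have hreg : (A.reg.card : ℝ) ≤ D := by
      rw [hD]
      exact_mod_cast Finset.card_le_univ _
    have e3 := mul_le_mul_of_nonneg_right hB.edit hL40
    have e4 : m * 3 * (A.reg.card : ℝ) * Real.log 2 ≤ 3 * m * D * Real.log 2 := by
      apply mul_le_mul_of_nonneg_right _ hl2
      nlinarith
    linarith
  have hCE : CE m = Real.log (3 ^ m + 1) + (3 / 2) * m + (m / 2) * (3 : ℝ) ^ m + (15 / 2) * m * Real.log 2 + (m + 2) * Real.log 4 := rfl
  rw [hCE]
  have hfin := add_le_add hrest (hsum.trans (add_le_add (add_le_add (add_le_add t1 t2) t3) t4))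
  refine h0.trans ((add_le_add_right hfin _).trans (le_of_eq ?_))
  ring

end H98T
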