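import Mathlib

/-!
# H98T: base definitions (sections 0, 2, 3 of PROOF.md)

`V` is the finite set of vertices (= polygons), `g` the genus of the base,
`σ : Fin (2 * g) → Equiv.Perm V` the permutations of the generators.
`ρ : Fin 2 → Equiv.Perm V` always denotes a pair (module F and dense sets), `two σ` is the pair
`(σ 0, σ 1)`.
-/

namespace H98T

open Finset

variable {V : Type*}

/-! ### Section 0: sides, words, covers, gluings -/

/-- The generator of the side `s` (sides of the `4g`-gon are `0, …, 4g-1`). -/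
def gen {g : ℕ} (s : Fin (4 * g)) : Fin (2 * g) :=
  ⟨2 * (s.val / 4) + s.val % 2, by have := s.isLt; omega⟩

/-- The side with which the side `s` is glued: `s + 2` if `s % 4 < 2`, and `s - 2` else. -/
def partner {g : ℕ} (s : Fin (4 * g)) : Fin (4 * g) :=
  if h : s.val % 4 < 2 then ⟨s.val + 2, by have := s.isLt; omega⟩
  else ⟨s.val - 2, by have := s.isLt; omega⟩

/-- The permutation read along the side `s`. -/
def tau {g : ℕ} (σ : Fin (2 * g) → Equiv.Perm V) (s : Fin (4 * g)) : Equiv.Perm V :=
  if s.val % 4 < 2 then σ (gen s) else (σ (gen s))⁻¹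

/-- `u σ s x` is the corner number `s` of the polygon `x`:
`u 0 = 1`, `u (s + 1) = tau s * u s` for `s < 4 g` (constant afterwards). -/
def u {g : ℕ} (σ : Fin (2 * g) → Equiv.Perm V) : ℕ → Equiv.Perm V
  | 0 => 1
  | s + 1 => if h : s < 4 * g then tau σ ⟨s, h⟩ * u σ s else u σ s

/-- `σ` defines a covering: the surface relation holds. -/
def IsCov {g : ℕ} (σ : Fin (2 * g) → Equiv.Perm V) : Prop := u σ (4 * g) = 1

/-- The gluing of the polygons: the side `s` of `x` is glued with the side `partner s` of the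
polygon `x'` with `u (partner s + 1) x' = u s x`. -/
def iota {g : ℕ} (σ : Fin (2 * g) → Equiv.Perm V) (c : V × Fin (4 * g)) : V × Fin (4 * g) :=
  ((u σ ((partner c.2).val + 1))⁻¹ (u σ c.2.val c.1), partner c.2)

/-- The start vertex of the (oriented) edge carried by the side `c`; the edge of the side is
`(gen c.2, edgeV σ c)`, it goes from `edgeV σ c` to `σ (gen c.2) (edgeV σ c)`. -/
def edgeV {g : ℕ} (σ : Fin (2 * g) → Equiv.Perm V) (c : V × Fin (4 * g)) : V :=
  if c.2.val % 4 < 2 then u σ c.2.val c.1 else u σ (c.2.val + 1) c.1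

/-- The pair `(σ 0, σ 1)`. -/
def two {g : ℕ} (σ : Fin (2 * g) → Equiv.Perm V) (i : Fin 2) : Equiv.Perm V :=
  if h : i.val < 2 * g then σ ⟨i.val, h⟩ else 1

/-- The side `c` carries an edge of `F` (`F` is a set of edges of kinds `0, 1`): such sides are
among the sides `0, 1, 2, 3`. -/
def Fside {g : ℕ} (σ : Fin (2 * g) → Equiv.Perm V) (F : Finset (Fin 2 × V))
    (c : V × Fin (4 * g)) : Prop :=
  ∃ i : Fin 2, c.2.val < 4 ∧ i.val = c.2.val % 2 ∧ (i, edgeV σ c) ∈ F

/-- Expansion of a pair, constant `1/100`. -/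
def Expand [Fintype V] [DecidableEq V] (ρ : Fin 2 → Equiv.Perm V) : Prop :=
  ∀ U : Finset V, U.Nonempty → 2 * U.card ≤ Fintype.card V →
    U.card ≤ 100 * ((U.image (ρ 0) \ U).card + (U.image (ρ 1) \ U).card)

/-! ### Section 2: dense sets, spanning trees -/

/-- The edges of `F` inside `U`. -/
def inside [DecidableEq V] (ρ : Fin 2 → Equiv.Perm V) (F : Finset (Fin 2 × V)) (U : Finset V) :
    Finset (Fin 2 × V) :=
  F.filter (fun e => e.2 ∈ U ∧ ρ e.1 e.2 ∈ U)

/-- Dense set of vertices of a pair: nonempty, and at least as many internal edges as vertices. -/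
def Dense [Fintype V] [DecidableEq V] (ρ : Fin 2 → Equiv.Perm V) (U : Finset V) : Prop :=
  U.Nonempty ∧ U.card ≤ (inside ρ Finset.univ U).card

/-- Forest: fewer edges than vertices in every nonempty set. -/
def IsForest [DecidableEq V] (ρ : Fin 2 → Equiv.Perm V) (F : Finset (Fin 2 × V)) : Prop :=
  ∀ U : Finset V, U.Nonempty → (inside ρ F U).card < U.card

/-- Spanning tree. -/
def IsSpanTree [Fintype V] [DecidableEq V] (ρ : Fin 2 → Equiv.Perm V)
    (F : Finset (Fin 2 × V)) : Prop :=
  IsForest ρ F ∧ F.card + 1 = Fintype.card V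

open Classical in
/-- `F`-dense set of polygons: nonempty, at least `2 |U|` sides of polygons of `U` that are glued
to polygons of `U` and do not carry an edge of `F`. -/
def FDense [Fintype V] {g : ℕ} (σ : Fin (2 * g) → Equiv.Perm V) (F : Finset (Fin 2 × V))
    (U : Finset V) : Prop :=
  U.Nonempty ∧ 2 * U.card ≤ ((Finset.univ : Finset (V × Fin (4 * g))).filter
    (fun c => c.1 ∈ U ∧ (iota σ c).1 ∈ U ∧ ¬ Fside σ F c)).card

/-- Fewer than `k` pairwise disjoint sets of size `≤ t` with the property `P`. -/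
def Few (P : Finset V → Prop) (t k : ℕ) : Prop :=
  ∀ 𝒟 : Finset (Finset V), (∀ U ∈ 𝒟, P U ∧ U.card ≤ t) →
    (𝒟 : Set (Finset V)).PairwiseDisjoint id → 𝒟.card < k

end H98T
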