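import Mathlib

set_option autoImplicit false

/-!
# H98T, module W: definitions (see `PROOF.md`, section 9)

A `Net` is a trivalent net: nodes `N`, darts `N × Fin 3`, an involution `inv` (the other side of the edge), a list of letters `word e` on every
dart (read away from the start of the dart).  At an uncut node the three words form a tripod: the first `leg e` letters of `word e` are
the reversed last `leg e` letters of `word (prv e)`.

Letters are numbered from `0`; position `j` of `word e` lies between the letters `j - 1` and `j`, so there are the positions `0 .. length`.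
The position `leg e` is the centre of the node `e.1`.  A `y`-gap `(i, i')` (two consecutive occurrences `i < i'` of the letter `y`) contains the
positions `j` with `i < j ≤ i'`.
-/

namespace H98T

open Finset

/-- The darts of a trivalent net with node type `N`. -/
abbrev Dart (N : Type) := N × Fin 3

/-- The next dart at the same node. -/
def nxt {N : Type} (e : Dart N) : Dart N := (e.1, e.2 + 1)

/-- The previous dart at the same node. -/
def prv {N : Type} (e : Dart N) : Dart N := (e.1, e.2 + 2)

structure Net (N Y : Type) where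
  inv : Dart N → Dart N
  inv_inv : ∀ e, inv (inv e) = e
  inv_ne : ∀ e, inv e ≠ e
  cut : N → Prop
  F : Dart N → Prop
  F_inv : ∀ e, F (inv e) ↔ F e
  word : Dart N → List Y
  word_inv : ∀ e, word (inv e) = (word e).reverse
  leg : Dart N → ℕ
  len : ∀ e, ¬ cut e.1 → (word e).length = leg e + leg (nxt e)
  leg_eq : ∀ e, ¬ cut e.1 → (word e).take (leg e) = ((word (prv e)).reverse).take (leg e)

variable {N Y : Type}

/-- `(i, i')` is a `y`-gap of the list `l`: consecutive occurrences of `y`. -/
def IsGap (l : List Y) (y : Y) (i i' : ℕ) : Prop :=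
  i < i' ∧ l[i]? = some y ∧ l[i']? = some y ∧ ∀ t, i < t → t < i' → l[t]? ≠ some y

/-- A state: a dart together with a gap `(i, i')` of its word. -/
abbrev St (N : Type) := Dart N × ℕ × ℕ

/-- The same gap seen from the other side of the edge. -/
def Net.rfl' (M : Net N Y) (s : St N) : St N :=
  (M.inv s.1, (M.word s.1).length - 1 - s.2.2, (M.word s.1).length - 1 - s.2.1)

/-- The same gap on the other dart of the node which contains it; `none` if the gap contains the centre of the node. -/
def Net.link (M : Net N Y) (s : St N) : Option (St N) :=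
  if s.2.2 < M.leg s.1 then
    some (prv s.1, (M.word (prv s.1)).length - 1 - s.2.2, (M.word (prv s.1)).length - 1 - s.2.1)
  else if M.leg s.1 ≤ s.2.1 then
    some (nxt s.1, (M.word s.1).length - 1 - s.2.2, (M.word s.1).length - 1 - s.2.1)
  else none

/-- The dart `e` is passable for the letter `y` (with respect to the colouring `col`). -/
def Net.Pass (M : Net N Y) (col : Y → N → ℕ) (y : Y) (e : Dart N) : Prop :=
  y ∈ M.word e ∧ ¬ M.F e ∧ ¬ M.cut e.1 ∧ ¬ M.cut (M.inv e).1 ∧ col y e.1 = col y (M.inv e).1

open Classical in
/-- One step of a strip: cross the edge (if it is passable), then go on to the other dart of the new node which contains the gap. -/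
noncomputable def Net.step (M : Net N Y) (col : Y → N → ℕ) (y : Y) (s : St N) : Option (St N) :=
  if M.Pass col y s.1 then M.link (M.rfl' s) else none

/-- The strip starting in `s`. -/
noncomputable def Net.strip (M : Net N Y) (col : Y → N → ℕ) (y : Y) (s : St N) : ℕ → Option (St N)
  | 0 => some s
  | t + 1 => (Net.strip M col y s t).bind (M.step col y)

/-- `s` is a start: a `y`-gap at an uncut node which contains the centre of this node. -/
def Net.Start (M : Net N Y) (y : Y) (s : St N) : Prop :=
  ¬ M.cut s.1.1 ∧ IsGap (M.word s.1) y s.2.1 s.2.2 ∧ s.2.1 < M.leg s.1 ∧ M.leg s.1 ≤ s.2.2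

/-- The state `s` is open: its strip has a start. -/
def Net.Open (M : Net N Y) (col : Y → N → ℕ) (y : Y) (s : St N) : Prop :=
  ∃ b t, M.Start y b ∧ (M.strip col y b t = some s ∨ (M.Pass col y s.1 ∧ M.strip col y b t = some (M.rfl' s)))

open Classical in
/-- The positions all of whose gaps are open. -/
noncomputable def Net.P0 (M : Net N Y) (col : Y → N → ℕ) (e : Dart N) : Finset ℕ :=
  (range ((M.word e).length + 1)).filter
    (fun j => ∀ y i i', IsGap (M.word e) y i i' → i < j → j ≤ i' → M.Open col y (e, i, i'))

open Classical in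
/-- Acyclicity: for every letter `y` the edges (not in `F`) whose word contains `y` form a forest on the uncut nodes. -/
def Net.AC (M : Net N Y) [Fintype N] : Prop :=
  ∀ y, ∀ U : Finset N, U.Nonempty → (∀ z ∈ U, ¬ M.cut z) →
    (univ.filter (fun e : Dart N => e.1 ∈ U ∧ (M.inv e).1 ∈ U ∧ y ∈ M.word e ∧ ¬ M.F e)).card < 2 * U.card

open Classical in
/-- Every colour class of every letter has at most `B` nodes. -/
def Net.ColB (M : Net N Y) [Fintype N] (col : Y → N → ℕ) (B : ℕ) : Prop :=
  ∀ y c, (univ.filter (fun z : N => ¬ M.cut z ∧ (∃ j, y ∈ M.word (z, j)) ∧ col y z = c)).card ≤ B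

/-- The number of dangling pairs (letter, dart at an uncut node whose word contains the letter and which is not passable for it). -/
noncomputable def Net.dang (M : Net N Y) (col : Y → N → ℕ) : ℕ :=
  Set.ncard {p : Y × Dart N | ¬ M.cut p.2.1 ∧ p.1 ∈ M.word p.2 ∧ ¬ M.Pass col p.1 p.2}

/-- The number of starts (over all letters). -/
noncomputable def Net.nst (M : Net N Y) : ℕ := Set.ncard {p : Y × St N | M.Start p.1 p.2}

/-- The number of darts between uncut nodes of different colours (over all letters). -/
noncomputable def Net.ncut (M : Net N Y) (col : Y → N → ℕ) : ℕ :=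
  Set.ncard {p : Y × Dart N | ¬ M.cut p.2.1 ∧ ¬ M.cut (M.inv p.2).1 ∧ p.1 ∈ M.word p.2 ∧ ¬ M.F p.2 ∧
    col p.1 p.2.1 ≠ col p.1 (M.inv p.2).1}

/-- The number of pairs (letter, uncut node having the letter). -/
noncomputable def Net.nz (M : Net N Y) : ℕ :=
  Set.ncard {p : Y × N | ¬ M.cut p.2 ∧ ∃ j, p.1 ∈ M.word (p.2, j)}

/-- The number of positions at the corner between `prv e` and `e` which belong to exactly one of the two sets. -/
def mism (M : Net N Y) (P : Dart N → Finset ℕ) (e : Dart N) : ℕ :=
  ((range (M.leg e + 1)).filter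
    (fun j => ¬ (j ∈ P e ↔ (M.word (prv e)).length - j ∈ P (prv e)))).card

/-- The positions of the gap of `s` (on the dart `s.1`) together with those of the reflected gap which belong to `P`: their number. -/
def Net.amass (M : Net N Y) (P : Dart N → Finset ℕ) (s : St N) : ℕ :=
  (P s.1 ∩ Ioc s.2.1 s.2.2).card + (P (M.inv s.1) ∩ Ioc (M.rfl' s).2.1 (M.rfl' s).2.2).card

/-- `amass` along a strip (`0` after its end). -/
noncomputable def Net.aseq (M : Net N Y) (col : Y → N → ℕ) (y : Y) (P : Dart N → Finset ℕ) (b : St N) (t : ℕ) : ℕ :=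
  match M.strip col y b t with
  | some s => M.amass P s
  | none => 0

/-- The weights along a strip (`1` after its end). -/
noncomputable def Net.lseq (M : Net N Y) (col : Y → N → ℕ) (y : Y) (lam : Dart N → ℝ) (b : St N) (t : ℕ) : ℝ :=
  match M.strip col y b t with
  | some s => lam s.1
  | none => 1

/-- Remove from `P` all positions of the gaps number `t`, `i < t < k`, of the strip of `b` (on both sides of the edges). -/
noncomputable def Net.remv (M : Net N Y) (col : Y → N → ℕ) (y : Y) (P : Dart N → Finset ℕ) (b : St N) (i k : ℕ)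
    (e : Dart N) : Finset ℕ :=
  open Classical in
  (P e).filter (fun j => ¬ ∃ t s, i < t ∧ t < k ∧ M.strip col y b t = some s ∧
    ((s.1 = e ∧ s.2.1 < j ∧ j ≤ s.2.2) ∨ (M.inv s.1 = e ∧ (M.rfl' s).2.1 < j ∧ j ≤ (M.rfl' s).2.2)))

/-- `El` is an admissible set of labelled darts: they start at uncut nodes, have at most `t1` letters, and a labelled dart outside `F` is
passable for all its letters and its inverse is labelled. -/
structure Net.LabOK (M : Net N Y) (col : Y → N → ℕ) (El : Dart N → Prop) (t1 : ℕ) : Prop where
  uncut : ∀ e, El e → ¬ M.cut e.1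
  supp : ∀ e, El e → Set.ncard {y | y ∈ M.word e} ≤ t1
  inv : ∀ e, El e → ¬ M.F e → El (M.inv e)
  pass : ∀ e, El e → ¬ M.F e → ∀ y ∈ M.word e, M.Pass col y e

/-- `P` is a good choice of positions. -/
structure Net.Good (M : Net N Y) (col : Y → N → ℕ) (El : Dart N → Prop) (P : Dart N → Finset ℕ) : Prop where
  out : ∀ e, ¬ El e → P e = ∅
  sub : ∀ e, P e ⊆ M.P0 col e
  cen : ∀ z, (∀ j, El (z, j)) → ∀ j, M.leg (z, j) ∈ P (z, j)
  sym : ∀ e, El e → ¬ M.F e → ∀ j, j ≤ (M.word e).length → (j ∈ P e ↔ (M.word e).length - j ∈ P (M.inv e))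

open Classical in
/-- The total number of inconsistent positions at nodes all of whose darts are labelled. -/
noncomputable def Net.Mis (M : Net N Y) [Fintype N] (El : Dart N → Prop) (P : Dart N → Finset ℕ) : ℕ :=
  ∑ e : Dart N, if ∀ j, El (e.1, j) then mism M P e else 0

/-- The weighted total number of positions. -/
noncomputable def LL [Fintype N] (lam : Dart N → ℝ) (P : Dart N → Finset ℕ) : ℝ :=
  ∑ e : Dart N, lam e * ((P e).card : ℝ)

open Classical in
/-- The weighted number of darts and letters. -/
noncomputable def Net.LS (M : Net N Y) [Fintype N] (El : Dart N → Prop) (lam : Dart N → ℝ) : ℝ :=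
  ∑ e : Dart N, if El e then lam e * (1 + (Set.ncard {y | y ∈ M.word e} : ℝ)) else 0

end H98T
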