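import Mathlib
import Pool.Agent.Lib.H98T.Defs
import Pool.Agent.Lib.H98T.WDefs

set_option autoImplicit false

/-!
# H98T: the data handed over to the entropy count (`PROOF.md`, sections 5, 8, 10)

Nodes of the trivalent net of a covering: `(x, k)`, `x` a polygon, `k < 4g - 2` the triangle with corners `6`, `7 + k`, `8 + k` (mod `4g`).
The dart `((x, k), 0)` goes from corner `6` to corner `7 + k`, `((x, k), 1)` from corner `7 + k` to corner `8 + k` (it is the side `7 + k`), `((x, k), 2)` from corner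
`8 + k` to corner `6`.  `((x, 0), 0)` is the side `6`, `((x, 4g-3), 2)` is the side `5`; the other darts with `j = 0, 2` are diagonals.
-/

namespace H98T

open Finset

/-- Nodes of the net. -/
abbrev Nd (g : ℕ) (V : Type) := V × Fin (4 * g - 2)

/-- The side of the polygon carried by the dart number `(k, j)`, if it is not a diagonal. -/
def sideOf {g : ℕ} (hg : 2 ≤ g) (k : Fin (4 * g - 2)) (j : Fin 3) : Option (Fin (4 * g)) :=
  if j = 1 then some ⟨(7 + k.val) % (4 * g), Nat.mod_lt _ (by omega)⟩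
  else if j = 0 ∧ k.val = 0 then some ⟨6, by omega⟩
  else if j = 2 ∧ k.val = 4 * g - 3 then some ⟨5, by omega⟩
  else none

/-- The dart carrying the side `s`. -/
def dartOf {g : ℕ} (hg : 2 ≤ g) (s : Fin (4 * g)) : Fin (4 * g - 2) × Fin 3 :=
  if h6 : s.val = 6 then (⟨0, by omega⟩, 0)
  else if h5 : s.val = 5 then (⟨4 * g - 3, by omega⟩, 2)
  else if h : 7 ≤ s.val then (⟨s.val - 7, by have := s.isLt; omega⟩, 1)
  else (⟨s.val + 4 * g - 7, by omega⟩, 1)

/-- The inverse dart. -/
def dinv {g : ℕ} {V : Type} (hg : 2 ≤ g) (σ : Fin (2 * g) → Equiv.Perm V) (e : Dart (Nd g V)) : Dart (Nd g V) :=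
  match sideOf hg e.1.2 e.2 with
  | some s => (((iota σ (e.1.1, s)).1, (dartOf hg (iota σ (e.1.1, s)).2).1), (dartOf hg (iota σ (e.1.1, s)).2).2)
  | none =>
    if e.2 = 0 then ((e.1.1, ⟨e.1.2.val - 1, by have := e.1.2.isLt; omega⟩), 2)
    else ((e.1.1, ⟨(e.1.2.val + 1) % (4 * g - 2), Nat.mod_lt _ (by omega)⟩), 0)

/-- The dart carries an edge of `F`. -/
def FD {g : ℕ} {V : Type} (hg : 2 ≤ g) (σ : Fin (2 * g) → Equiv.Perm V) (F : Finset (Fin 2 × V)) (e : Dart (Nd g V)) : Prop :=
  ∃ s, sideOf hg e.1.2 e.2 = some s ∧ Fside σ F (e.1.1, s)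

/-- Two lists differ by at most `b` insertions and deletions: both are sublists of a common list whose entries are tagged by membership; at most `b` entries belong to exactly
one of them. -/
def Edit {α : Type} (A B : List α) (b : ℕ) : Prop :=
  ∃ U : List (α × Bool × Bool), (U.filter (fun a => a.2.1)).map Prod.fst = A ∧ (U.filter (fun a => a.2.2)).map Prod.fst = B ∧
    (U.filter (fun a => a.2.1 != a.2.2)).length ≤ b

open Classical in
/-- The data for the entropy count of one covering `σ` of degree `d = |V|`.  `Nc` = number of cells, `Pm` = bound for the length of the labels.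
`El e`: the dart is labelled, `L e`: its label (the cells at the chosen positions, read from the start of the dart).
A polygon is regular if all its darts are labelled. At a regular polygon, node `k`: `pc e` is the index of the centre in `L e`, `ctr z` the cell of the centre; the part of
`L e` before the centre and the reversed part of `L (prv e)` after the centre differ by `b e` edits. -/
structure Enc {g : ℕ} {V : Type} [Fintype V] (hg : 2 ≤ g) (σ : Fin (2 * g) → Equiv.Perm V) (Nc Pm : ℕ)
    (A1 kap th e1 e2 : ℝ) where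
  F : Finset (Fin 2 × V)
  tree : IsSpanTree (two σ) F
  El : Dart (Nd g V) → Prop
  F0 : Dart (Nd g V) → Prop
  L : Dart (Nd g V) → List (Fin Nc)
  pc : Dart (Nd g V) → ℕ
  ctr : Nd g V → Fin Nc
  b : Dart (Nd g V) → ℕ
  /-- labelled darts outside `F` are labelled on both sides, with reversed labels -/
  El_inv : ∀ e, El e → ¬ FD hg σ F e → El (dinv hg σ e)
  L_inv : ∀ e, El e → ¬ FD hg σ F e → L (dinv hg σ e) = (L e).reverse
  L_len : ∀ e, El e → (L e).length ≤ Pm
  /-- `F0`-darts carry an edge of `F` and have a label of length one -/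
  F0_F : ∀ e, F0 e → FD hg σ F e ∧ (L e).length = 1
  /-- tripods at the nodes of regular polygons -/
  cen : ∀ z, (∀ k j, El ((z.1, k), j)) → ∀ j, (L (z, j))[pc (z, j)]? = some (ctr z)
  edit : ∀ z, (∀ k j, El ((z.1, k), j)) → ∀ j,
    Edit ((L (z, j)).take (pc (z, j))) (((L (prv (z, j))).drop (pc (prv (z, j)) + 1)).reverse) (b (z, j))
  /-- the numbers -/
  sumL : (∑ e : Dart (Nd g V), if El e then ((L e).length : ℝ) else 0) ≤ A1 * Fintype.card V
  fib : ∀ (Q : Fin Nc) (k : Fin (4 * g - 2)),
    (Set.ncard {x : V | (∀ k' j, El ((x, k'), j)) ∧ ctr (x, k) = Q} : ℝ) ≤ kap * Fintype.card V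
  sumb : (∑ e : Dart (Nd g V), if (∀ k j, El ((e.1.1, k), j)) then (b e : ℝ) else 0) ≤ th * Fintype.card V
  sumS : (∑ e : Dart (Nd g V), if El e ∧ ((FD hg σ F e ∧ ¬ F0 e) ∨ ¬ (∀ k j, El ((e.1.1, k), j))) then ((L e).length : ℝ) + 1 else 0)
    ≤ e1 * Fintype.card V
  numR : (Set.ncard {x : V | ¬ (∀ k j, El ((x, k), j))} : ℝ) ≤ e1 * Fintype.card V
  numF1 : (Set.ncard {e : Dart (Nd g V) | FD hg σ F e ∧ ¬ F0 e ∧ El e} : ℝ) ≤ e2 * Fintype.card V

end H98T
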