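import Pool.Agent.Lib.H98T.Defs

/-!
# H98T, modules L and D: definitions

A corner is a pair `(x, s)`, `x` a polygon, `s` a side: the start of the side `s` of `x`; it lies at
the vertex `u σ s x`.
-/

namespace H98T

open Finset

variable {V : Type*} {g : ℕ}

/-- The positive side of kind `i`. -/
def sp (i : Fin (2 * g)) : Fin (4 * g) :=
  ⟨4 * (i.val / 2) + i.val % 2, by have := i.isLt; omega⟩

/-- The negative side of kind `i`. -/
def sn (i : Fin (2 * g)) : Fin (4 * g) :=
  ⟨4 * (i.val / 2) + i.val % 2 + 2, by have := i.isLt; omega⟩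

/-- The gluing permutations: `iota (x, sp i) = (glue i x, sn i)`. -/
def glue (σ : Fin (2 * g) → Equiv.Perm V) (i : Fin (2 * g)) : Equiv.Perm V :=
  (u σ ((sn i).val + 1))⁻¹ * u σ (sp i).val

/-- The vertex of a corner. -/
def cv (σ : Fin (2 * g) → Equiv.Perm V) (c : V × Fin (4 * g)) : V := u σ c.2.val c.1

/-- Rotation of the sides: `psi s = partner s + 1` modulo `4 g`. -/
def psi (s : Fin (4 * g)) : Fin (4 * g) :=
  ⟨((partner s).val + 1) % (4 * g), Nat.mod_lt _ (by have := s.isLt; omega)⟩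

/-- Rotation of the corners around their vertex. -/
def phi (σ : Fin (2 * g) → Equiv.Perm V) (c : V × Fin (4 * g)) : V × Fin (4 * g) :=
  ((iota σ c).1, psi c.2)

/-- The order in which `psi` visits the sides starting from `0`:
`4 h + (0, 1, 2, 3) ↦ 4 h + (0, 3, 2, 1)`. -/
def psiEnum (t : ℕ) : ℕ := 4 * (t / 4) + (4 - t % 4) % 4

/-- Number of edge-ends of `F` at `v`. -/
def endsAt [DecidableEq V] (ρ : Fin 2 → Equiv.Perm V) (F : Finset (Fin 2 × V)) (v : V) : ℕ :=
  (Finset.univ.filter (fun i : Fin 2 => (i, v) ∈ F)).card +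
    (Finset.univ.filter (fun i : Fin 2 => (i, (ρ i)⁻¹ v) ∈ F)).card

end H98T
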