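import Mathlib
import Pool.Agent.Lib.H98T.E0
import Pool.Agent.Lib.H98T.EN
import Pool.Agent.Lib.H98T.CN
import Pool.Agent.Lib.H98T.Defs
import Pool.Agent.Lib.H98T.LDefs
import Pool.Agent.Lib.H98T.WDefs
import Pool.Agent.Lib.H98T.Enc

set_option autoImplicit false

namespace H98T

open Finset

/-!
Module C: bridge from the structure Enc to labelled nets (definitions).  sp i, sn i = positive and negative side of kind i, glue σ i = gluing of the positive sides (LDefs).
-/

/-- the side with outer index o -/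
def sideO {g : ℕ} (hg : 2 ≤ g) (o : ℕ) : Fin (4 * g) := ⟨(o + 6) % (4 * g), Nat.mod_lt _ (by omega)⟩

/-- the dart of the side s of the polygon x -/
def sdart {g : ℕ} {V : Type} (hg : 2 ≤ g) (x : V) (s : Fin (4 * g)) : Dart (Nd g V) :=
  ((x, (dartOf hg s).1), (dartOf hg s).2)

noncomputable section

open Classical in
/-- label of the outer side o of the polygon x -/
def blab {g : ℕ} {V : Type} [Fintype V] {hg : 2 ≤ g} {σ : Fin (2 * g) → Equiv.Perm V} {Nc Pm : ℕ} {A1 kap th e1 e2 : ℝ}
    (E : Enc hg σ Nc Pm A1 kap th e1 e2) (o : ℕ) (x : V) : Option (Option (List (Fin Nc))) :=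
  if Fside σ E.F (x, sideO hg o) then none
  else if E.El (sdart hg x (sideO hg o)) then
    some (some (rvl (decide (2 ≤ (sideO hg o).val % 4)) (E.L (sdart hg x (sideO hg o)))))
  else some none

/-- the regular polygons -/
def regE {g : ℕ} {V : Type} [Fintype V] {hg : 2 ≤ g} {σ : Fin (2 * g) → Equiv.Perm V} {Nc Pm : ℕ} {A1 kap th e1 e2 : ℝ}
    (E : Enc hg σ Nc Pm A1 kap th e1 e2) : Finset V :=
  open Classical in Finset.univ.filter (fun x => ∀ k j, E.El ((x, k), j))

end

end H98T
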