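import Pool.Agent.Lib.H98T.LDefs

/-!
# H98T L01 (M): sides, partners, gluing (11 small statements)
-/

namespace H98T

open Finset

variable {V : Type*} {g : ℕ} (σ : Fin (2 * g) → Equiv.Perm V)

theorem l01_partner_val (s : Fin (4 * g)) :
    (partner s).val = if s.val % 4 < 2 then s.val + 2 else s.val - 2 := by
  unfold partner
  split_ifs <;> rfl

/-- Arithmetic modulo `4` (`omega` after unfolding). -/
theorem partner_partner (s : Fin (4 * g)) : partner (partner s) = s := by
  apply Fin.ext
  rw [l01_partner_val, l01_partner_val]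
  have := s.isLt
  split_ifs <;> omega

theorem gen_partner (s : Fin (4 * g)) : gen (partner s) = gen s := by
  apply Fin.ext
  simp only [gen]
  rw [l01_partner_val]
  have := s.isLt
  split_ifs <;> omega

theorem partner_pos_iff (s : Fin (4 * g)) : (partner s).val % 4 < 2 ↔ ¬ s.val % 4 < 2 := by
  rw [l01_partner_val]
  have := s.isLt
  split_ifs <;> omega

theorem partner_ne (s : Fin (4 * g)) : partner s ≠ s := by
  intro h
  have h1 := partner_pos_iff s
  rw [h] at h1
  exact (iff_not_self h1)

theorem partner_sp (i : Fin (2 * g)) : partner (sp i) = sn i := by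
  apply Fin.ext
  rw [l01_partner_val]
  simp only [sp, sn]
  rw [if_pos (by omega)]

theorem partner_sn (i : Fin (2 * g)) : partner (sn i) = sp i := by
  rw [← partner_sp, partner_partner]

theorem gen_sp (i : Fin (2 * g)) : gen (sp i) = i := by
  apply Fin.ext
  simp only [gen, sp]
  omega

theorem gen_sn (i : Fin (2 * g)) : gen (sn i) = i := by
  apply Fin.ext
  simp only [gen, sn]
  omega

theorem eq_sp_or_sn (s : Fin (4 * g)) : s = sp (gen s) ∨ s = sn (gen s) := by
  have := s.isLt
  by_cases h : s.val % 4 < 2
  · left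
    apply Fin.ext
    simp only [gen, sp]
    omega
  · right
    apply Fin.ext
    simp only [gen, sn]
    omega

theorem tau_partner (s : Fin (4 * g)) : tau σ (partner s) = (tau σ s)⁻¹ := by
  unfold tau
  rw [gen_partner]
  have h := partner_pos_iff s
  by_cases h1 : s.val % 4 < 2
  · rw [if_pos h1, if_neg (by rw [h]; exact not_not.2 h1)]
  · rw [if_neg h1, if_pos (h.2 h1), inv_inv]

theorem u_succ (s : Fin (4 * g)) : u σ (s.val + 1) = tau σ s * u σ s.val := by
  have h : u σ (s.val + 1) = if h : s.val < 4 * g then tau σ ⟨s.val, h⟩ * u σ s.val else u σ s.val := rfl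
  rw [h, dif_pos s.isLt]

end H98T
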