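import Pool.Agent.Lib.H98T.L01

/-!
# H98T L02 (M): the gluing is an involution
-/

namespace H98T

open Finset

variable {V : Type*} {g : ℕ} (σ : Fin (2 * g) → Equiv.Perm V)

/-- Definition: the end `s' + 1` of the partner side is the start of the side. -/
theorem u_iota_succ (c : V × Fin (4 * g)) :
    u σ ((partner c.2).val + 1) (iota σ c).1 = u σ c.2.val c.1 := by
  simp only [iota]
  exact Equiv.apply_symm_apply _ _

/-- The start of the partner side is the end of the side: `u (s'+1) = tau s' * u s'`,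
`tau s' = (tau s)⁻¹` (`u_succ`, `tau_partner`). -/
theorem u_iota (c : V × Fin (4 * g)) :
    u σ (partner c.2).val (iota σ c).1 = u σ (c.2.val + 1) c.1 := by
  have h1 := u_iota_succ σ c
  rw [u_succ, tau_partner, Equiv.Perm.mul_apply, Equiv.Perm.inv_eq_iff_eq] at h1
  rw [h1, u_succ, Equiv.Perm.mul_apply]

/-- `iota (iota c) = c`: second components `partner_partner`; first: by `u_iota`,
`(u (s+1))⁻¹ (u s' x') = x`. -/
theorem iota_iota (c : V × Fin (4 * g)) : iota σ (iota σ c) = c := by
  have h2 : (iota σ c).2 = partner c.2 := rfl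
  refine Prod.ext ?_ ?_
  · show (u σ ((partner (iota σ c).2).val + 1))⁻¹ (u σ (iota σ c).2.val (iota σ c).1) = c.1
    rw [h2, partner_partner, u_iota]
    exact Equiv.symm_apply_apply _ _
  · show partner (iota σ c).2 = c.2
    rw [h2, partner_partner]

theorem iota_ne (c : V × Fin (4 * g)) : iota σ c ≠ c := by
  intro h
  exact partner_ne c.2 (congrArg Prod.snd h)

theorem iota_sp (x : V) (i : Fin (2 * g)) : iota σ (x, sp i) = (glue σ i x, sn i) := by
  simp only [iota, partner_sp, glue, Equiv.Perm.mul_apply]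

/-- `iota` is an involution. -/
theorem iota_sn (x : V) (i : Fin (2 * g)) : iota σ (x, sn i) = ((glue σ i)⁻¹ x, sp i) := by
  have h1 := iota_sp σ ((glue σ i)⁻¹ x) i
  have h2 : (glue σ i) ((glue σ i)⁻¹ x) = x := Equiv.apply_symm_apply _ _
  rw [h2] at h1
  rw [← h1, iota_iota]

/-- Both sides carry the same edge: four cases, `u_iota`, `u_iota_succ`, `partner_pos_iff`. -/
theorem edgeV_iota (c : V × Fin (4 * g)) : edgeV σ (iota σ c) = edgeV σ c := by
  have h2 : (iota σ c).2 = partner c.2 := rfl
  have h3 := partner_pos_iff c.2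
  unfold edgeV
  rw [h2]
  by_cases h : c.2.val % 4 < 2
  · rw [if_pos h, if_neg (by rw [h3]; exact not_not.2 h), u_iota_succ]
  · rw [if_neg h, if_pos (h3.2 h), u_iota]

/-- `s < 4 ↔ partner s < 4`, same parity, `edgeV_iota`. -/
theorem Fside_iota (F : Finset (Fin 2 × V)) (c : V × Fin (4 * g)) :
    Fside σ F (iota σ c) ↔ Fside σ F c := by
  have h2 : (iota σ c).2 = partner c.2 := rfl
  unfold Fside
  rw [edgeV_iota, h2]
  have h3 : (partner c.2).val < 4 ↔ c.2.val < 4 := by
    rw [l01_partner_val]
    split_ifs <;> omega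
  have h4 : (partner c.2).val % 2 = c.2.val % 2 := by
    rw [l01_partner_val]
    split_ifs <;> omega
  rw [h3, h4]

end H98T
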