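import Mathlib
import Pool.Agent.Lib.H98T.CD
import Pool.Agent.Lib.H98T.L01
import Pool.Agent.Lib.H98T.L02

set_option autoImplicit false

namespace H98T

open Finset

/-!
Module C, chunk C10 (S/M): the number of F-sides on positive sides is |F|.
sp_val / sn_val: the values of sp i, sn i are spos i, sneg i (unfold).
For i >= 2 the side sp i is >= 4, so no F-side.  For i = 0, 1 (sp i = i): Fside (x, sp i) iff (i, u σ i x) in F; x -> (i, u σ i x) is a bijection from {x : Fside (x, sp i)} onto
{e in F : e.1 = i}.  So the sum is |F| = d - 1.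
-/

theorem sp_val {g : ℕ} (i : Fin (2 * g)) : (sp i).val = spos i := rfl

theorem sn_val {g : ℕ} (i : Fin (2 * g)) : (sn i).val = sneg i := rfl

theorem c10_edgeV {g : ℕ} {V : Type} (σ : Fin (2 * g) → Equiv.Perm V) (x : V) (i : Fin (2 * g)) :
    edgeV σ (x, sp i) = u σ (sp i).val x := by
  unfold edgeV
  rw [if_pos]
  show (4 * (i.val / 2) + i.val % 2) % 4 < 2
  omega

open Classical in
theorem sum_Fside {g d : ℕ} (hg : 2 ≤ g) (σ : Fin (2 * g) → Equiv.Perm (Fin d)) (F : Finset (Fin 2 × Fin d))
    (hF : IsSpanTree (two σ) F) :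
    ∑ i : Fin (2 * g), (Finset.univ.filter (fun x => Fside σ F (x, sp i))).card = d - 1 := by
  rw [← Finset.card_sigma]
  have hcard : F.card + 1 = d := by
    have h := hF.2
    rwa [Fintype.card_fin] at h
  have h1 : (Finset.univ.sigma (fun i : Fin (2 * g) => Finset.univ.filter (fun x : Fin d => Fside σ F (x, sp i)))).card = F.card := by
    refine Finset.card_nbij' (fun p => ((⟨p.1.val % 2, Nat.mod_lt _ (by norm_num)⟩ : Fin 2), u σ (p.1.val % 2) p.2))
      (fun e => ⟨⟨e.1.val, by have := e.1.isLt; omega⟩, (u σ e.1.val)⁻¹ e.2⟩) ?_ ?_ ?_ ?_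
    · rintro ⟨i, x⟩ h
      have h2 := (Finset.mem_filter.1 (Finset.mem_sigma.1 (Finset.mem_coe.1 h)).2).2
      obtain ⟨j, h3, h4, h5⟩ := h2
      rw [c10_edgeV] at h5
      simp only [sp] at h3 h4 h5
      have h6 : 4 * (i.val / 2) + i.val % 2 = i.val % 2 := by omega
      have h7 : j = (⟨i.val % 2, Nat.mod_lt _ (by norm_num)⟩ : Fin 2) := by
        apply Fin.ext
        show j.val = i.val % 2
        omega
      rw [h7, h6] at h5
      exact Finset.mem_coe.2 h5
    · rintro ⟨j, v⟩ h
      refine Finset.mem_coe.2 (Finset.mem_sigma.2 ⟨Finset.mem_univ _, Finset.mem_filter.2 ⟨Finset.mem_univ _, j, ?_, ?_, ?_⟩⟩)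
      · show 4 * (j.val / 2) + j.val % 2 < 4
        have := j.isLt
        omega
      · show j.val = (4 * (j.val / 2) + j.val % 2) % 2
        have := j.isLt
        omega
      · rw [c10_edgeV]
        have h6 : (sp (⟨j.val, by have := j.isLt; omega⟩ : Fin (2 * g))).val = j.val := by
          show 4 * (j.val / 2) + j.val % 2 = j.val
          have := j.isLt
          omega
        rw [h6]
        have h7 : (u σ j.val) ((u σ j.val)⁻¹ v) = v := Equiv.apply_symm_apply _ _
        rw [h7]
        exact Finset.mem_coe.1 h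
    · rintro ⟨i, x⟩ h
      have h2 := (Finset.mem_filter.1 (Finset.mem_sigma.1 (Finset.mem_coe.1 h)).2).2
      obtain ⟨j, h3, h4, h5⟩ := h2
      simp only [sp] at h3
      have h6 : i.val % 2 = i.val := by omega
      have h7 : (u σ (i.val % 2))⁻¹ ((u σ (i.val % 2)) x) = x := Equiv.symm_apply_apply _ _
      simp only
      rw [h7]
      have h8 : (⟨i.val % 2, by omega⟩ : Fin (2 * g)) = i := Fin.ext h6
      rw [h8]
    · rintro ⟨j, v⟩ h
      have h6 : j.val % 2 = j.val := by
        have := j.isLt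
        omega
      simp only [h6]
      have h7 : (u σ j.val) ((u σ j.val)⁻¹ v) = v := Equiv.apply_symm_apply _ _
      rw [h7]
  rw [h1]
  omega


end H98T
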