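import Mathlib
import Pool.Agent.Lib.H98T.CD
import Pool.Agent.Lib.H98T.L01
import Pool.Agent.Lib.H98T.L02
import Pool.Agent.Lib.H98T.C10

set_option autoImplicit false

namespace H98T

open Finset

/-!
Module C, chunk C11 (M): labels of the sides.
side arithmetic: sideO (osd g s) = s for s < 4g  (((s + 4g - 6) % 4g + 6) % 4g = s).  sideO hg 0 = 6, sideO hg (k+1) = (7+k) % 4g, sideO hg (4g-2+1) = 5;
dartOf of these sides: (0,0), (k,1), (4g-3,2)  (k < 4g-2).
sideOf (dartOf s) = some s.  FD (sdart x s) iff Fside (x, s).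
dinv_sdart: dinv (sdart x s) = sdart x' s' with (x', s') = iota (x, s)   (definition of dinv, c11_sideOf_dartOf).
blab_match: iota (x, sp i) = (glue i x, sn i) (L02.iota_sp), Fside_iota; El_inv in both directions (dinv is an involution on side darts by iota_iota) and L_inv: for the positive side the list is
read forwards, for the negative side it is reversed.
blab_none: blab = none iff Fside.
-/

variable {g : ℕ} {V : Type}

theorem c11_io (g : ℕ) (hg : 2 ≤ g) (s : ℕ) (hs : s < 4 * g) : (osd g s + 6) % (4 * g) = s := by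
  unfold osd
  rw [Nat.mod_add_mod]
  have h : s + 4 * g - 6 + 6 = s + 4 * g := by omega
  rw [h, Nat.add_mod_right, Nat.mod_eq_of_lt hs]

theorem sideO_osd (hg : 2 ≤ g) (s : Fin (4 * g)) : sideO hg (osd g s) = s := by
  apply Fin.ext
  exact c11_io g hg s s.isLt

theorem sideO_zero (hg : 2 ≤ g) : (sideO (g := g) hg 0).val = 6 := by
  show (0 + 6) % (4 * g) = 6
  exact Nat.mod_eq_of_lt (by omega)

theorem sideO_succ (hg : 2 ≤ g) (k : ℕ) : (sideO (g := g) hg (k + 1)).val = (7 + k) % (4 * g) := by
  show (k + 1 + 6) % (4 * g) = (7 + k) % (4 * g)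
  congr 1
  omega

theorem sideO_last (hg : 2 ≤ g) : (sideO (g := g) hg (4 * g - 2 + 1)).val = 5 := by
  show (4 * g - 2 + 1 + 6) % (4 * g) = 5
  have h : 4 * g - 2 + 1 + 6 = 5 + 4 * g := by omega
  rw [h, Nat.add_mod_right, Nat.mod_eq_of_lt (by omega)]

theorem dartOf_sideO_succ (hg : 2 ≤ g) (k : ℕ) (hk : k < 4 * g - 2) : dartOf hg (sideO hg (k + 1)) = (⟨k, hk⟩, 1) := by
  have h1 := sideO_succ (g := g) hg k
  have h2 : (7 + k) % (4 * g) = if 7 + k < 4 * g then 7 + k else 7 + k - 4 * g := by
    split_ifs with h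
    · exact Nat.mod_eq_of_lt h
    · have h3 : 7 + k = (7 + k - 4 * g) + 4 * g := by omega
      conv_lhs => rw [h3]
      rw [Nat.add_mod_right, Nat.mod_eq_of_lt (by omega)]
  rw [h2] at h1
  unfold dartOf
  by_cases h : 7 + k < 4 * g
  · rw [if_pos h] at h1
    rw [dif_neg (by omega), dif_neg (by omega), dif_pos (by omega)]
    refine Prod.ext (Fin.ext ?_) rfl
    simp only
    omega
  · rw [if_neg h] at h1
    rw [dif_neg (by omega), dif_neg (by omega), dif_neg (by omega)]
    refine Prod.ext (Fin.ext ?_) rfl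
    simp only
    omega

theorem c11_sideOf_dartOf (hg : 2 ≤ g) (s : Fin (4 * g)) : sideOf hg (dartOf hg s).1 (dartOf hg s).2 = some s := by
  have hs := s.isLt
  unfold dartOf
  by_cases h6 : s.val = 6
  · rw [dif_pos h6]
    unfold sideOf
    simp only
    rw [if_neg (by decide), if_pos (by simp)]
    exact congrArg some (Fin.ext h6.symm)
  · rw [dif_neg h6]
    by_cases h5 : s.val = 5
    · rw [dif_pos h5]
      unfold sideOf
      simp only
      rw [if_neg (by decide), if_neg (by rintro ⟨h, -⟩; exact absurd h (by decide)), if_pos (by simp)]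
      exact congrArg some (Fin.ext h5.symm)
    · rw [dif_neg h5]
      by_cases h : 7 ≤ s.val
      · rw [dif_pos h]
        unfold sideOf
        simp only
        rw [if_pos trivial]
        refine congrArg some (Fin.ext ?_)
        simp only
        have h7 : 7 + (s.val - 7) = s.val := by omega
        rw [h7, Nat.mod_eq_of_lt hs]
      · rw [dif_neg h]
        unfold sideOf
        simp only
        rw [if_pos trivial]
        refine congrArg some (Fin.ext ?_)
        simp only
        have h7 : 7 + (s.val + 4 * g - 7) = s.val + 4 * g := by omega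
        rw [h7, Nat.add_mod_right, Nat.mod_eq_of_lt hs]

theorem FD_sdart (hg : 2 ≤ g) (σ : Fin (2 * g) → Equiv.Perm V) (F : Finset (Fin 2 × V)) (x : V) (s : Fin (4 * g)) :
    FD hg σ F (sdart hg x s) ↔ Fside σ F (x, s) := by
  unfold FD
  have h1 : sideOf hg (sdart hg x s).1.2 (sdart hg x s).2 = some s := c11_sideOf_dartOf hg s
  rw [h1]
  constructor
  · rintro ⟨s', h2, h3⟩
    rw [← Option.some.inj h2] at h3
    exact h3
  · intro h2
    exact ⟨s, rfl, h2⟩

theorem dinv_sdart (hg : 2 ≤ g) (σ : Fin (2 * g) → Equiv.Perm V) (x : V) (s : Fin (4 * g)) :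
    dinv hg σ (sdart hg x s) = sdart hg (iota σ (x, s)).1 (iota σ (x, s)).2 := by
  unfold dinv
  have h1 : sideOf hg (sdart hg x s).1.2 (sdart hg x s).2 = some s := c11_sideOf_dartOf hg s
  rw [h1]
  rfl

theorem blab_match [Fintype V] {hg : 2 ≤ g} {σ : Fin (2 * g) → Equiv.Perm V} {Nc Pm : ℕ} {A1 kap th e1 e2 : ℝ}
    (E : Enc hg σ Nc Pm A1 kap th e1 e2) (i : Fin (2 * g)) (x : V) :
    blab E (osd g (sneg i)) (glue σ i x) = blab E (osd g (spos i)) x := by
  have hp : sideO hg (osd g (spos i)) = sp i := sideO_osd hg (sp i)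
  have hn : sideO hg (osd g (sneg i)) = sn i := sideO_osd hg (sn i)
  have hi : iota σ (x, sp i) = (glue σ i x, sn i) := iota_sp σ x i
  have hi' : iota σ (glue σ i x, sn i) = (x, sp i) := by rw [← hi, iota_iota]
  have hF : Fside σ E.F (glue σ i x, sn i) ↔ Fside σ E.F (x, sp i) := by
    rw [← hi]
    exact Fside_iota σ E.F (x, sp i)
  unfold blab
  rw [hp, hn]
  by_cases h1 : Fside σ E.F (x, sp i)
  · rw [if_pos h1, if_pos (hF.2 h1)]
  · have h1' : ¬ Fside σ E.F (glue σ i x, sn i) := fun h => h1 (hF.1 h)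
    rw [if_neg h1, if_neg h1']
    have hd : dinv hg σ (sdart hg x (sp i)) = sdart hg (glue σ i x) (sn i) := by
      rw [dinv_sdart, hi]
    have hd' : dinv hg σ (sdart hg (glue σ i x) (sn i)) = sdart hg x (sp i) := by
      rw [dinv_sdart, hi']
    have hEl : E.El (sdart hg (glue σ i x) (sn i)) ↔ E.El (sdart hg x (sp i)) := by
      constructor
      · intro h
        have h2 := E.El_inv _ h (by rw [FD_sdart]; exact h1')
        rwa [hd'] at h2
      · intro h
        have h2 := E.El_inv _ h (by rw [FD_sdart]; exact h1)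
        rwa [hd] at h2
    by_cases h2 : E.El (sdart hg x (sp i))
    · rw [if_pos h2, if_pos (hEl.2 h2)]
      have h3 := E.L_inv _ h2 (by rw [FD_sdart]; exact h1)
      rw [hd] at h3
      rw [h3]
      have h4 : decide (2 ≤ (sn i).val % 4) = true := by
        apply decide_eq_true
        show 2 ≤ (4 * (i.val / 2) + i.val % 2 + 2) % 4
        omega
      have h5 : decide (2 ≤ (sp i).val % 4) = false := by
        apply decide_eq_false
        show ¬ 2 ≤ (4 * (i.val / 2) + i.val % 2) % 4
        omega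
      rw [h4, h5]
      unfold rvl
      simp
    · rw [if_neg h2, if_neg (fun h => h2 (hEl.1 h))]

theorem blab_none [Fintype V] {hg : 2 ≤ g} {σ : Fin (2 * g) → Equiv.Perm V} {Nc Pm : ℕ} {A1 kap th e1 e2 : ℝ}
    (E : Enc hg σ Nc Pm A1 kap th e1 e2) (s : Fin (4 * g)) (x : V) :
    blab E (osd g s) x = none ↔ Fside σ E.F (x, s) := by
  unfold blab
  rw [sideO_osd]
  constructor
  · intro h
    by_contra h1
    rw [if_neg h1] at h
    split_ifs at h
  · intro h
    rw [if_pos h]

end H98T
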