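import Mathlib
import Pool.Agent.Lib.H98T.E0

set_option autoImplicit false

namespace H98T

open Finset

/-!
Module E, chunk E10 (S): edits.  U = list of entries with two membership tags; A = entries with first tag, B = entries with second tag.  A can be changed into B by
as many edits as there are entries with different tags, all at indices <= length of B, and the inverse edits in the inverse order lead back.
Proof: with a list K already treated in front, induction on U (going from left to right):
(c,true,true): K becomes K ++ [c]; (c,true,false): delete the entry with index length K; (c,false,true): insert c at index length K, K becomes K ++ [c]; (c,false,false): nothing.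
ap (e :: z) = ap z o ap1 e; ap' l (e :: z) = ap1 (ap' l z) (edInv e) (List.reverse_cons, map_append, foldl_append).
The index used is always length K <= length of the final list.
-/

theorem ap_cons {C : Type} (l : List C) (e : Ed C) (z : List (Ed C)) : ap l (e :: z) = ap (ap1 l e) z := rfl

theorem ap'_cons {C : Type} (l : List C) (e : Ed C) (z : List (Ed C)) : ap' l (e :: z) = ap1 (ap' l z) (edInv e) := by
  unfold ap' ap
  rw [List.reverse_cons, List.map_append, List.foldl_append]
  rfl

theorem e10_ins {C : Type} (K l : List C) (c : C) : ap1 (K ++ l) (K.length, true, c) = K ++ c :: l := by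
  unfold ap1
  simp only [if_true]
  induction K with
  | nil => rfl
  | cons a K ih =>
    rw [List.cons_append, List.length_cons, List.insertIdx_succ_cons, ih]
    rfl

theorem e10_del {C : Type} (K l : List C) (c c' : C) : ap1 (K ++ c :: l) (K.length, false, c') = K ++ l := by
  unfold ap1
  simp only [Bool.false_eq_true, if_false]
  induction K with
  | nil => rfl
  | cons a K ih =>
    rw [List.cons_append, List.length_cons, List.eraseIdx_cons_succ, ih]
    rfl

theorem edits_aux {C : Type} (U : List (C × Bool × Bool)) (K : List C) :
    ∃ z : List (Ed C), z.length = (U.filter (fun a => a.2.1 != a.2.2)).length ∧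
      (∀ e ∈ z, e.1 ≤ K.length + (U.filter (fun a => a.2.2)).length) ∧
      ap (K ++ (U.filter (fun a => a.2.1)).map Prod.fst) z = K ++ (U.filter (fun a => a.2.2)).map Prod.fst ∧
      ap' (K ++ (U.filter (fun a => a.2.2)).map Prod.fst) z = K ++ (U.filter (fun a => a.2.1)).map Prod.fst := by
  induction U generalizing K with
  | nil => exact ⟨[], rfl, fun e he => absurd he List.not_mem_nil, rfl, rfl⟩
  | cons a U ih =>
    obtain ⟨c, s, t⟩ := a
    cases s <;> cases t
    · -- (false, false)
      obtain ⟨z, h1, h2, h3, h4⟩ := ih K
      refine ⟨z, ?_, ?_, ?_, ?_⟩
      · simpa using h1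
      · simpa using h2
      · simpa using h3
      · simpa using h4
    · -- (false, true)
      obtain ⟨z, h1, h2, h3, h4⟩ := ih (K ++ [c])
      refine ⟨(K.length, true, c) :: z, ?_, ?_, ?_, ?_⟩
      · simpa using h1
      · intro e he
        rcases List.mem_cons.mp he with rfl | he
        · simp
        · have := h2 e he
          simp only [List.length_append, List.length_singleton] at this
          simp only [List.filter_cons, if_true, List.length_cons]
          omega
      · rw [ap_cons]
        simp only [List.filter_cons, Bool.false_eq_true, if_false, if_true, List.map_cons]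
        rw [e10_ins]
        simpa using h3
      · rw [ap'_cons]
        simp only [List.filter_cons, Bool.false_eq_true, if_false, if_true, List.map_cons]
        have h5 : K ++ c :: (U.filter (fun a => a.2.2)).map Prod.fst = (K ++ [c]) ++ (U.filter (fun a => a.2.2)).map Prod.fst := by simp
        rw [h5, h4]
        have h6 : (K ++ [c]) ++ (U.filter (fun a => a.2.1)).map Prod.fst = K ++ c :: (U.filter (fun a => a.2.1)).map Prod.fst := by simp
        rw [h6]
        exact e10_del K _ c c
    · -- (true, false)
      obtain ⟨z, h1, h2, h3, h4⟩ := ih K
      refine ⟨(K.length, false, c) :: z, ?_, ?_, ?_, ?_⟩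
      · simpa using h1
      · intro e he
        rcases List.mem_cons.mp he with rfl | he
        · simp
        · have := h2 e he
          simp only [List.filter_cons, Bool.false_eq_true, if_false]
          exact this
      · rw [ap_cons]
        simp only [List.filter_cons, Bool.false_eq_true, if_false, if_true, List.map_cons]
        rw [e10_del]
        exact h3
      · rw [ap'_cons]
        simp only [List.filter_cons, Bool.false_eq_true, if_false, if_true, List.map_cons]
        rw [h4]
        exact e10_ins K _ c
    · -- (true, true)
      obtain ⟨z, h1, h2, h3, h4⟩ := ih (K ++ [c])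
      refine ⟨z, ?_, ?_, ?_, ?_⟩
      · simpa using h1
      · intro e he
        have := h2 e he
        simp only [List.length_append, List.length_singleton] at this
        simp only [List.filter_cons, if_true, List.length_cons]
        omega
      · simpa using h3
      · simpa using h4

theorem edits_exist {C : Type} (A B : List C) (b : ℕ)
    (h : ∃ U : List (C × Bool × Bool), (U.filter (fun a => a.2.1)).map Prod.fst = A ∧ (U.filter (fun a => a.2.2)).map Prod.fst = B ∧
      (U.filter (fun a => a.2.1 != a.2.2)).length ≤ b) :
    ∃ z : List (Ed C), z.length ≤ b ∧ (∀ e ∈ z, e.1 ≤ B.length) ∧ ap A z = B ∧ ap' B z = A := by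
  obtain ⟨U, hA, hB, hb⟩ := h
  obtain ⟨z, h1, h2, h3, h4⟩ := edits_aux U []
  rw [List.nil_append, List.nil_append, hA, hB] at h3 h4
  refine ⟨z, by omega, ?_, h3, h4⟩
  intro e he
  have := h2 e he
  rw [List.length_nil, zero_add] at this
  rw [← hB, List.length_map]
  exact this

end H98T
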