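import Mathlib
import Pool.Agent.Lib.H98T.E10
import Pool.Agent.Lib.H98T.CD
import Pool.Agent.Lib.H98T.C11

set_option autoImplicit false

namespace H98T

open Finset

/-!
Module C, chunk C12 (M): the labelled net of an Enc (structure part).
reg = regE E; pat x k = 1 if FD and F0 hold for the dart ((x,k),1), 2 if FD and not F0, 0 if not FD; l k j x = E.L ((x,k),j), p k j x = E.pc ((x,k),j), c k x = E.ctr (x,k) for k < 4g-2 (arbitrary
otherwise: [], 0, some default: Fin Nc is nonempty); b = blab E; rv o = decide (2 <= (sideO hg o) % 4); z k j x for regular x from edits_exist applied to E.edit (prv (z, j+1) = (z, j)), so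
length <= E.b, all indices <= length of the second list <= Pm, ap A z = B, ap' B z = A.
hp, hc from cen.  hF0 from F0_F.  hdiag: dinv ((x,k),2) = ((x,k+1),0) for k + 1 < 4g-2 (sideOf = none), L_inv.  hb0, hb1, hb2: C11 (sides 5 and 6 are never F-sides; for regular x all darts are labelled).
-/

theorem c12_reg {g d : ℕ} {hg : 2 ≤ g} {σ : Fin (2 * g) → Equiv.Perm (Fin d)} {Nc Pm : ℕ}
    {A1 kap th e1 e2 : ℝ} (E : Enc hg σ Nc Pm A1 kap th e1 e2) (x : Fin d) :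
    x ∈ regE E ↔ ∀ k j, E.El ((x, k), j) := by
  unfold regE
  simp

theorem c12_nF {g d : ℕ} (hg : 2 ≤ g) (σ : Fin (2 * g) → Equiv.Perm (Fin d)) (F : Finset (Fin 2 × Fin d)) (x : Fin d)
    (s : Fin (4 * g)) (hs : 4 ≤ s.val) : ¬ Fside σ F (x, s) := by
  rintro ⟨i, h1, -, -⟩
  simp only at h1
  omega

theorem c12_z {g d : ℕ} {hg : 2 ≤ g} {σ : Fin (2 * g) → Equiv.Perm (Fin d)} {Nc Pm : ℕ}
    {A1 kap th e1 e2 : ℝ} (E : Enc hg σ Nc Pm A1 kap th e1 e2) (k : ℕ) (j : Fin 3) (x : Fin d) :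
    ∃ z : List (Ed (Fin Nc)), x ∈ regE E → ∀ hk : k < 4 * g - 2, z.length ≤ E.b ((x, ⟨k, hk⟩), j) ∧
      (∀ e ∈ z, e.1 ≤ Pm) ∧
      ap ((E.L ((x, ⟨k, hk⟩), j)).take (E.pc ((x, ⟨k, hk⟩), j))) z =
        ((E.L (prv ((x, ⟨k, hk⟩), j))).drop (E.pc (prv ((x, ⟨k, hk⟩), j)) + 1)).reverse ∧
      ap' (((E.L (prv ((x, ⟨k, hk⟩), j))).drop (E.pc (prv ((x, ⟨k, hk⟩), j)) + 1)).reverse) z =
        (E.L ((x, ⟨k, hk⟩), j)).take (E.pc ((x, ⟨k, hk⟩), j)) := by
  by_cases h : x ∈ regE E ∧ k < 4 * g - 2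
  · obtain ⟨hx, hk⟩ := h
    have hx' := (c12_reg E x).1 hx
    obtain ⟨z, h1, h2, h3, h4⟩ := edits_exist _ _ _ (E.edit (x, ⟨k, hk⟩) hx' j)
    refine ⟨z, fun _ _ => ⟨h1, ?_, h3, h4⟩⟩
    intro e he
    have h5 := h2 e he
    have h6 : (E.L (prv ((x, (⟨k, hk⟩ : Fin (4 * g - 2))), j))).length ≤ Pm := E.L_len _ (hx' _ _)
    rw [List.length_reverse, List.length_drop] at h5
    omega
  · refine ⟨[], fun hx hk => absurd ⟨hx, hk⟩ h⟩

theorem exists_lnet {g d : ℕ} {hg : 2 ≤ g} {σ : Fin (2 * g) → Equiv.Perm (Fin d)} {Nc Pm : ℕ} (hN : 1 ≤ Nc)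
    {A1 kap th e1 e2 : ℝ} (E : Enc hg σ Nc Pm A1 kap th e1 e2) :
    ∃ A : LNet (Fin d) (Fin Nc) (4 * g - 2), A.reg = regE E ∧
      (∀ x k, ∀ hk : k < 4 * g - 2, (A.pat x k = 2 ↔ FD hg σ E.F ((x, ⟨k, hk⟩), 1) ∧ ¬ E.F0 ((x, ⟨k, hk⟩), 1))) ∧
      (∀ x k j, ∀ hk : k < 4 * g - 2, A.l k j x = E.L ((x, ⟨k, hk⟩), j)) ∧
      (∀ x k, ∀ hk : k < 4 * g - 2, A.c k x = E.ctr (x, ⟨k, hk⟩)) ∧
      (∀ x ∈ A.reg, ∀ k j, ∀ hk : k < 4 * g - 2, (A.z k j x).length ≤ E.b ((x, ⟨k, hk⟩), j)) ∧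
      (∀ x ∈ A.reg, ∀ k j, k < 4 * g - 2 → ∀ e ∈ A.z k j x, e.1 ≤ Pm) ∧
      (∀ o x, A.b o x = blab E o x) := by
  classical
  choose z hz using fun k j x => c12_z E k j x
  have hprv : ∀ (n : Nd g (Fin d)) (j : Fin 3), prv (n, j + 1) = (n, j) := by
    intro n j
    unfold prv
    refine Prod.ext rfl ?_
    simp only
    fin_cases j <;> rfl
  refine ⟨{
    reg := regE E
    pat := fun x k => if hk : k < 4 * g - 2 then
      (if FD hg σ E.F ((x, ⟨k, hk⟩), 1) ∧ E.F0 ((x, ⟨k, hk⟩), 1) then 1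
        else if FD hg σ E.F ((x, ⟨k, hk⟩), 1) then 2 else 0) else 0
    l := fun k j x => if hk : k < 4 * g - 2 then E.L ((x, ⟨k, hk⟩), j) else []
    p := fun k j x => if hk : k < 4 * g - 2 then E.pc ((x, ⟨k, hk⟩), j) else 0
    c := fun k x => if hk : k < 4 * g - 2 then E.ctr (x, ⟨k, hk⟩) else ⟨0, by omega⟩
    z := z
    b := fun o x => blab E o x
    rv := fun o => decide (2 ≤ (sideO hg o).val % 4)
    hp := ?_
    hc := ?_
    h1 := ?_
    h2 := ?_
    hF0 := ?_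
    hdiag := ?_
    hb0 := ?_
    hb1 := ?_
    hb2 := ?_ }, rfl, ?_, ?_, ?_, ?_, ?_, ?_⟩
  · intro x hx k hk j
    rw [dif_pos hk, dif_pos hk]
    have h1 := E.cen (x, ⟨k, hk⟩) ((c12_reg E x).1 hx) j
    by_contra h2
    rw [List.getElem?_eq_none (by omega)] at h1
    exact absurd h1 (by simp)
  · intro x hx k hk j
    rw [dif_pos hk, dif_pos hk, dif_pos hk]
    exact E.cen (x, ⟨k, hk⟩) ((c12_reg E x).1 hx) j
  · intro x hx k hk j
    rw [dif_pos hk, dif_pos hk, dif_pos hk, dif_pos hk]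
    have h1 := (hz k (j + 1) x hx hk).2.2.1
    rw [hprv] at h1
    exact h1.symm
  · intro x hx k hk j
    rw [dif_pos hk, dif_pos hk, dif_pos hk, dif_pos hk]
    have h1 := (hz k (j + 1) x hx hk).2.2.2
    rw [hprv] at h1
    exact h1.symm
  · intro x hx k hk hpat
    rw [dif_pos hk] at hpat ⊢
    by_cases h1 : FD hg σ E.F ((x, ⟨k, hk⟩), 1) ∧ E.F0 ((x, ⟨k, hk⟩), 1)
    · exact (E.F0_F _ h1.2).2
    · rw [if_neg h1] at hpat
      split_ifs at hpat <;> exact absurd hpat (by decide)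
  · intro x hx k hk
    have hk' : k < 4 * g - 2 := by omega
    rw [dif_pos hk, dif_pos hk']
    have hs : sideOf hg (⟨k, hk'⟩ : Fin (4 * g - 2)) 2 = none := by
      unfold sideOf
      rw [if_neg (by decide), if_neg (by rintro ⟨h, -⟩; exact absurd h (by decide)),
        if_neg (by rintro ⟨-, h⟩; simp only at h; omega)]
    have hFD : ¬ FD hg σ E.F ((x, ⟨k, hk'⟩), 2) := by
      rintro ⟨s, h1, -⟩
      simp only at h1
      rw [hs] at h1
      exact absurd h1 (by simp)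
    have h1 := E.L_inv ((x, ⟨k, hk'⟩), 2) ((c12_reg E x).1 hx _ _) hFD
    rw [← h1]
    congr 1
    unfold dinv
    simp only
    rw [hs]
    simp only
    rw [if_neg (by decide)]
    have h2 : (k + 1) % (4 * g - 2) = k + 1 := Nat.mod_eq_of_lt hk
    simp only [h2]
  · intro x hx
    have hm : 0 < 4 * g - 2 := by omega
    rw [dif_pos hm]
    unfold blab
    have h6 : (sideO (g := g) hg 0).val = 6 := sideO_zero hg
    have h1 : sdart hg x (sideO hg 0) = ((x, ⟨0, hm⟩), 0) := by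
      unfold sdart dartOf
      rw [dif_pos h6]
    rw [if_neg (c12_nF hg σ E.F x _ (by omega)), h1, if_pos ((c12_reg E x).1 hx _ _)]
  · intro x hx k hk
    rw [dif_pos hk, dif_pos hk]
    unfold blab
    have h1 : sdart hg x (sideO hg (k + 1)) = ((x, ⟨k, hk⟩), 1) := by
      unfold sdart
      rw [dartOf_sideO_succ hg k hk]
    have h2 := FD_sdart hg σ E.F x (sideO hg (k + 1))
    rw [h1] at h2
    rw [h1]
    by_cases h3 : Fside σ E.F (x, sideO hg (k + 1))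
    · rw [if_pos h3]
      rw [if_neg]
      have h4 := h2.2 h3
      by_cases h5 : E.F0 ((x, ⟨k, hk⟩), 1)
      · rw [if_pos ⟨h4, h5⟩]
        decide
      · rw [if_neg (fun h => h5 h.2), if_pos h4]
        decide
    · have h4 : ¬ FD hg σ E.F ((x, ⟨k, hk⟩), 1) := fun h => h3 (h2.1 h)
      have hpat : (if FD hg σ E.F ((x, ⟨k, hk⟩), 1) ∧ E.F0 ((x, ⟨k, hk⟩), 1) then (1 : Fin 3)
        else if FD hg σ E.F ((x, ⟨k, hk⟩), 1) then 2 else 0) = 0 := by
        rw [if_neg (fun h => h4 h.1), if_neg h4]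
      rw [if_neg h3, if_pos ((c12_reg E x).1 hx _ _), if_pos hpat]
  · intro x hx
    have hm : 4 * g - 2 - 1 < 4 * g - 2 := by omega
    rw [dif_pos hm]
    unfold blab
    have h5 : (sideO (g := g) hg (4 * g - 2 + 1)).val = 5 := sideO_last hg
    have h1 : sdart hg x (sideO hg (4 * g - 2 + 1)) = ((x, ⟨4 * g - 2 - 1, hm⟩), 2) := by
      unfold sdart dartOf
      rw [dif_neg (by omega), dif_pos h5]
      rfl
    rw [if_neg (c12_nF hg σ E.F x _ (by omega)), h1, if_pos ((c12_reg E x).1 hx _ _)]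
  · intro x k hk
    simp only
    rw [dif_pos hk]
    by_cases h1 : FD hg σ E.F ((x, ⟨k, hk⟩), 1)
    · by_cases h2 : E.F0 ((x, ⟨k, hk⟩), 1)
      · rw [if_pos ⟨h1, h2⟩]
        constructor
        · intro h
          exact absurd h (by decide)
        · intro h
          exact absurd h2 h.2
      · rw [if_neg (fun h => h2 h.2), if_pos h1]
        exact ⟨fun _ => ⟨h1, h2⟩, fun _ => rfl⟩
    · rw [if_neg (fun h => h1 h.1), if_neg h1]
      constructor
      · intro h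
        exact absurd h (by decide)
      · intro h
        exact absurd h.1 h1
  · intro x k j hk
    simp only
    rw [dif_pos hk]
  · intro x k hk
    simp only
    rw [dif_pos hk]
  · intro x hx k j hk
    exact (hz k j x hx hk).1
  · intro x hx k j hk
    exact (hz k j x hx hk).2.1
  · intro o x
    rfl


end H98T
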