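import Pool.Agent.Lib.H98T.LDefs

/-!
# H98T L04 (M): a forest has a leaf
-/

namespace H98T

open Finset

variable {V : Type*} [DecidableEq V] {g : ℕ}

omit [DecidableEq V] in
theorem L04_inv_apply (r : Equiv.Perm V) (x : V) : r⁻¹ (r x) = x := r.symm_apply_apply x

omit [DecidableEq V] in
theorem L04_apply_inv (r : Equiv.Perm V) (x : V) : r (r⁻¹ x) = x := r.apply_symm_apply x

/-- Let `U` be the set of the vertices `v` with `(i, v) ∈ F` or `(i, (ρ i)⁻¹ v) ∈ F` for some `i`
(a finite set: the starts and the ends of the edges of `F`).  `∑_(v ∈ U) endsAt v = 2 |F|`: every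
edge has its start and its end in `U`, `inside ρ F U = F`, so `2 |F| < 2 |U|`, and some `v ∈ U` has
`endsAt v < 2`; `endsAt v ≥ 1` on `U`. -/
theorem exists_leaf (ρ : Fin 2 → Equiv.Perm V) (F : Finset (Fin 2 × V)) (hF : IsForest ρ F)
    (hne : F.Nonempty) : ∃ v, endsAt ρ F v = 1 := by
  by_contra hcon
  push Not at hcon
  set U : Finset V := F.image (fun e => e.2) ∪ F.image (fun e => ρ e.1 e.2) with hU
  have hs : ∀ e ∈ F, e.2 ∈ U := fun e he =>
    Finset.mem_union_left _ (Finset.mem_image_of_mem (fun e : Fin 2 × V => e.2) he)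
  have ht : ∀ e ∈ F, ρ e.1 e.2 ∈ U := fun e he =>
    Finset.mem_union_right _ (Finset.mem_image_of_mem (fun e : Fin 2 × V => ρ e.1 e.2) he)
  have hUne : U.Nonempty := by
    obtain ⟨e, he⟩ := hne
    exact ⟨e.2, hs e he⟩
  have hin : inside ρ F U = F := by
    unfold inside
    rw [Finset.filter_eq_self]
    exact fun e he => ⟨hs e he, ht e he⟩
  have hlt := hF U hUne
  rw [hin] at hlt
  have e1 : F.card = ∑ v ∈ U, (Finset.univ.filter (fun i : Fin 2 => (i, v) ∈ F)).card := by
    rw [Finset.card_eq_sum_card_fiberwise (f := fun e : Fin 2 × V => e.2) (t := U) hs]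
    refine Finset.sum_congr rfl fun v _ => ?_
    refine Finset.card_bij (fun e _ => e.1) ?_ ?_ ?_
    · rintro ⟨i, w⟩ he
      simp only [Finset.mem_filter, Finset.mem_univ, true_and] at he ⊢
      rw [← he.2]
      exact he.1
    · rintro ⟨i, w⟩ he ⟨j, w'⟩ he' h
      simp only [Finset.mem_filter] at he he'
      have h1 : i = j := h
      rw [h1, he.2, he'.2]
    · intro i hi
      simp only [Finset.mem_filter, Finset.mem_univ, true_and] at hi
      exact ⟨(i, v), by simp only [Finset.mem_filter]; exact ⟨hi, trivial⟩, rfl⟩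
  have e2 : F.card = ∑ v ∈ U, (Finset.univ.filter (fun i : Fin 2 => (i, (ρ i)⁻¹ v) ∈ F)).card := by
    rw [Finset.card_eq_sum_card_fiberwise (f := fun e : Fin 2 × V => ρ e.1 e.2) (t := U) ht]
    refine Finset.sum_congr rfl fun v _ => ?_
    refine Finset.card_bij (fun e _ => e.1) ?_ ?_ ?_
    · rintro ⟨i, w⟩ he
      simp only [Finset.mem_filter, Finset.mem_univ, true_and] at he ⊢
      rw [← he.2, L04_inv_apply]
      exact he.1
    · rintro ⟨i, w⟩ he ⟨j, w'⟩ he' h
      simp only [Finset.mem_filter] at he he'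
      have h1 : i = j := h
      subst h1
      have h2 : ρ i w = ρ i w' := he.2.trans he'.2.symm
      rw [(ρ i).injective h2]
    · intro i hi
      simp only [Finset.mem_filter, Finset.mem_univ, true_and] at hi
      refine ⟨(i, (ρ i)⁻¹ v), ?_, rfl⟩
      simp only [Finset.mem_filter]
      exact ⟨hi, L04_apply_inv _ _⟩
  have e3 : 2 * F.card = ∑ v ∈ U, endsAt ρ F v := by
    unfold endsAt
    rw [Finset.sum_add_distrib, ← e1, ← e2]
    ring
  have e4 : ∀ v ∈ U, 2 ≤ endsAt ρ F v := by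
    intro v hv
    have h1 : endsAt ρ F v ≠ 0 := by
      intro h0
      unfold endsAt at h0
      rw [Nat.add_eq_zero_iff, Finset.card_eq_zero, Finset.card_eq_zero,
        Finset.filter_eq_empty_iff, Finset.filter_eq_empty_iff] at h0
      rw [hU, Finset.mem_union, Finset.mem_image, Finset.mem_image] at hv
      rcases hv with ⟨⟨i, w⟩, he, rfl⟩ | ⟨⟨i, w⟩, he, rfl⟩
      · exact h0.1 (Finset.mem_univ i) he
      · apply h0.2 (Finset.mem_univ i)
        show (i, (ρ i)⁻¹ (ρ i w)) ∈ F
        rw [L04_inv_apply]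
        exact he
    have h2 := hcon v
    omega
  have e5 : ∑ v ∈ U, 2 ≤ ∑ v ∈ U, endsAt ρ F v := Finset.sum_le_sum e4
  rw [Finset.sum_const, smul_eq_mul, ← e3] at e5
  omega

omit [DecidableEq V] in
theorem L04_u_succ (σ : Fin (2 * g) → Equiv.Perm V) (s : Fin (4 * g)) :
    u σ (s.val + 1) = tau σ s * u σ s.val := by
  have h : u σ (s.val + 1) = if h : s.val < 4 * g then tau σ ⟨s.val, h⟩ * u σ s.val else u σ s.val := rfl
  rw [h, dif_pos s.isLt]

omit [DecidableEq V] in
/-- The corners at `v` with an `F`-side: `s ∈ {0, 1}` and `(s, v) ∈ F`, or `s ∈ {2, 3}` and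
`(s - 2, (ρ (s - 2))⁻¹ v) ∈ F`. Here for a corner `c` with `cv σ c = v`, `ρ = two σ`:
`edgeV c = u s x = v` if `s < 2`, and `edgeV c = u (s + 1) x = tau s v = (σ (s-2))⁻¹ v` if
`s = 2, 3`. -/
theorem Fside_iff_end (hg : 1 ≤ g) (σ : Fin (2 * g) → Equiv.Perm V) (F : Finset (Fin 2 × V))
    (c : V × Fin (4 * g)) :
    Fside σ F c ↔ (∃ i : Fin 2, c.2.val = i.val ∧ (i, cv σ c) ∈ F) ∨
      (∃ i : Fin 2, c.2.val = i.val + 2 ∧ (i, (two σ i)⁻¹ (cv σ c)) ∈ F) := by
  have h1 : c.2.val < 2 → edgeV σ c = cv σ c := by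
    intro h
    unfold edgeV cv
    rw [if_pos (by omega)]
  have h2 : ∀ i : Fin 2, c.2.val = i.val + 2 → edgeV σ c = (two σ i)⁻¹ (cv σ c) := by
    intro i h
    have hi := i.isLt
    unfold edgeV
    rw [if_neg (by omega), L04_u_succ σ c.2, Equiv.Perm.mul_apply]
    have h3 : tau σ c.2 = (two σ i)⁻¹ := by
      unfold tau two
      rw [if_neg (by omega), dif_pos (by omega)]
      congr 2
      apply Fin.ext
      show 2 * (c.2.val / 4) + c.2.val % 2 = i.val
      omega
    rw [h3]
    rfl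
  unfold Fside
  constructor
  · rintro ⟨i, hlt, hi, hF⟩
    by_cases h : c.2.val < 2
    · left
      refine ⟨i, by omega, ?_⟩
      rw [← h1 h]
      exact hF
    · right
      have h3 : c.2.val = i.val + 2 := by omega
      refine ⟨i, h3, ?_⟩
      rw [← h2 i h3]
      exact hF
  · rintro (⟨i, hi, hF⟩ | ⟨i, hi, hF⟩)
    · have h3 := i.isLt
      refine ⟨i, by omega, by omega, ?_⟩
      rw [h1 (by omega)]
      exact hF
    · have h3 := i.isLt
      refine ⟨i, by omega, by omega, ?_⟩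
      rw [h2 i hi]
      exact hF

/-- At a leaf exactly one corner has an `F`-side: by `Fside_iff_end` the corners `c` at `v` with an
`F`-side correspond (through `s`) to the ends at `v`, and a corner at `v` is determined by its
side `s` (`c.1 = (u s)⁻¹ v`). -/
theorem exists_unique_corner (hg : 1 ≤ g) (σ : Fin (2 * g) → Equiv.Perm V)
    (F : Finset (Fin 2 × V)) (v : V) (hv : endsAt (two σ) F v = 1) :
    ∃ c : V × Fin (4 * g), cv σ c = v ∧ Fside σ F c ∧
      ∀ c' : V × Fin (4 * g), cv σ c' = v → Fside σ F c' → c' = c := by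
  have key : ∀ (s : Fin (4 * g)) (c' : V × Fin (4 * g)), cv σ c' = v → c'.2 = s →
      c' = ((u σ s.val)⁻¹ v, s) := by
    intro s c' h1 h2
    refine Prod.ext ?_ h2
    show c'.1 = (u σ s.val)⁻¹ v
    rw [← h2, ← h1]
    unfold cv
    rw [L04_inv_apply]
  have hcv : ∀ s : Fin (4 * g), cv σ ((u σ s.val)⁻¹ v, s) = v := by
    intro s
    unfold cv
    exact L04_apply_inv _ _
  have hcases : ((Finset.univ.filter (fun i : Fin 2 => (i, v) ∈ F)).card = 1 ∧
      (Finset.univ.filter (fun i : Fin 2 => (i, (two σ i)⁻¹ v) ∈ F)).card = 0) ∨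
      ((Finset.univ.filter (fun i : Fin 2 => (i, v) ∈ F)).card = 0 ∧
      (Finset.univ.filter (fun i : Fin 2 => (i, (two σ i)⁻¹ v) ∈ F)).card = 1) := by
    unfold endsAt at hv
    omega
  rcases hcases with ⟨ha, hb⟩ | ⟨ha, hb⟩
  · rw [Finset.card_eq_one] at ha
    obtain ⟨i, hi⟩ := ha
    have hmem : (i, v) ∈ F := by
      have : i ∈ Finset.univ.filter (fun i : Fin 2 => (i, v) ∈ F) := by
        rw [hi]
        exact Finset.mem_singleton_self i
      exact (Finset.mem_filter.1 this).2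
    have huniq : ∀ j : Fin 2, (j, v) ∈ F → j = i := by
      intro j hj
      have : j ∈ Finset.univ.filter (fun i : Fin 2 => (i, v) ∈ F) :=
        Finset.mem_filter.2 ⟨Finset.mem_univ j, hj⟩
      rw [hi] at this
      exact Finset.mem_singleton.1 this
    rw [Finset.card_eq_zero, Finset.filter_eq_empty_iff] at hb
    have hlt := i.isLt
    refine ⟨((u σ (⟨i.val, by omega⟩ : Fin (4 * g)).val)⁻¹ v, ⟨i.val, by omega⟩), hcv _, ?_, ?_⟩
    · rw [Fside_iff_end hg]
      left
      refine ⟨i, rfl, ?_⟩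
      rw [hcv]
      exact hmem
    · intro c' h1 h2
      apply key _ _ h1
      rw [Fside_iff_end hg, h1] at h2
      rcases h2 with ⟨j, hj, hjF⟩ | ⟨j, hj, hjF⟩
      · rw [huniq j hjF] at hj
        exact Fin.ext hj
      · exact absurd hjF (hb (Finset.mem_univ j))
  · rw [Finset.card_eq_one] at hb
    obtain ⟨i, hi⟩ := hb
    have hmem : (i, (two σ i)⁻¹ v) ∈ F := by
      have : i ∈ Finset.univ.filter (fun i : Fin 2 => (i, (two σ i)⁻¹ v) ∈ F) := by
        rw [hi]
        exact Finset.mem_singleton_self i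
      exact (Finset.mem_filter.1 this).2
    have huniq : ∀ j : Fin 2, (j, (two σ j)⁻¹ v) ∈ F → j = i := by
      intro j hj
      have : j ∈ Finset.univ.filter (fun i : Fin 2 => (i, (two σ i)⁻¹ v) ∈ F) :=
        Finset.mem_filter.2 ⟨Finset.mem_univ j, hj⟩
      rw [hi] at this
      exact Finset.mem_singleton.1 this
    rw [Finset.card_eq_zero, Finset.filter_eq_empty_iff] at ha
    have hlt := i.isLt
    refine ⟨((u σ (⟨i.val + 2, by omega⟩ : Fin (4 * g)).val)⁻¹ v, ⟨i.val + 2, by omega⟩), hcv _, ?_, ?_⟩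
    · rw [Fside_iff_end hg]
      right
      refine ⟨i, rfl, ?_⟩
      rw [hcv]
      exact hmem
    · intro c' h1 h2
      apply key _ _ h1
      rw [Fside_iff_end hg, h1] at h2
      rcases h2 with ⟨j, hj, hjF⟩ | ⟨j, hj, hjF⟩
      · exact absurd hjF (ha (Finset.mem_univ j))
      · rw [huniq j hjF] at hj
        exact Fin.ext hj

end H98T
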