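import Pool.Agent.Lib.H98T.L03
import Pool.Agent.Lib.H98T.L04

/-!
# H98T L05 (M): leaf peeling (L2 of PROOF.md)
-/

namespace H98T

open Finset

variable {V : Type*} [DecidableEq V] {g : ℕ}

omit [DecidableEq V] in
/-- Let `c₀` be a corner such that no other corner at its vertex (for `σ`) has a side where `iota`
and `iota'` differ.  Then they agree at `c₀`.  Proof: `c_t = (phi σ)^[t] c₀`; for `1 ≤ t < 4 g`
`c_t` is a corner at the same vertex (`cv_phi_iterate`), different from `c₀` (`phi_iterate_snd`,
`psi_iterate_ne`), so `phi σ' c_t = phi σ c_t`.  Hence `(phi σ')^[4g-1] c_1 = c_(4g) = c_0`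
(`phi_iterate_full`) and `c_1 = (phi σ')^[4g] c_1 = phi σ' c_0`.  So `(iota σ' c₀).1 = (iota σ c₀).1`. -/
theorem iota_eq_of_corner (hg : 1 ≤ g) (σ σ' : Fin (2 * g) → Equiv.Perm V) (h : IsCov σ)
    (h' : IsCov σ') (c₀ : V × Fin (4 * g))
    (hc : ∀ c : V × Fin (4 * g), cv σ c = cv σ c₀ → c ≠ c₀ → iota σ' c = iota σ c) :
    iota σ' c₀ = iota σ c₀ := by
  have step : ∀ t : ℕ, 0 < t → t < 4 * g → phi σ' ((phi σ)^[t] c₀) = (phi σ)^[t + 1] c₀ := by
    intro t h0 ht
    rw [Function.iterate_succ_apply']
    have h1 : cv σ ((phi σ)^[t] c₀) = cv σ c₀ := cv_phi_iterate σ h c₀ t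
    have h2 : (phi σ)^[t] c₀ ≠ c₀ := by
      intro h3
      have h4 := congrArg Prod.snd h3
      rw [phi_iterate_snd] at h4
      exact psi_iterate_ne c₀.2 t h0 ht h4
    have h3 := hc _ h1 h2
    unfold phi
    unfold phi at h3
    rw [h3]
  have all : ∀ n : ℕ, n + 1 ≤ 4 * g → (phi σ')^[n] (phi σ c₀) = (phi σ)^[n + 1] c₀ := by
    intro n
    induction n with
    | zero =>
      intro _
      rfl
    | succ n ih =>
      intro hn
      rw [Function.iterate_succ_apply', ih (by omega)]
      exact step (n + 1) (by omega) (by omega)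
  have h1 : (phi σ')^[4 * g - 1] (phi σ c₀) = c₀ := by
    rw [all (4 * g - 1) (by omega)]
    have h2 : 4 * g - 1 + 1 = 4 * g := by omega
    rw [h2]
    exact phi_iterate_full σ h c₀
  have h2 : phi σ c₀ = phi σ' c₀ := by
    have h3 : ∀ n : ℕ, n = 4 * g → (phi σ')^[n] (phi σ c₀) = phi σ c₀ := by
      intro n hn
      rw [hn]
      exact phi_iterate_full σ' h' (phi σ c₀)
    have h5 := h3 ((4 * g - 1) + 1) (by omega)
    rw [Function.iterate_succ_apply', h1] at h5
    exact h5.symm
  have h3 := congrArg Prod.fst h2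
  exact Prod.ext h3.symm rfl

omit [DecidableEq V] in
theorem L05_edgeV_inj (σ : Fin (2 * g) → Equiv.Perm V) (c c' : V × Fin (4 * g))
    (h : edgeV σ c = edgeV σ c') (h2 : c.2 = c'.2) : c = c' := by
  unfold edgeV at h
  rw [h2] at h
  refine Prod.ext ?_ h2
  split_ifs at h
  · exact (u σ c'.2.val).injective h
  · exact (u σ (c'.2.val + 1)).injective h

omit [DecidableEq V] in
theorem L05_side (s s' : Fin (4 * g)) (h1 : s.val < 4) (h2 : s'.val < 4) (h3 : s.val % 2 = s'.val % 2) :
    s = s' ∨ s = partner s' := by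
  by_cases h : s = s'
  · exact Or.inl h
  · right
    have h4 : s.val ≠ s'.val := fun h5 => h (Fin.ext h5)
    apply Fin.ext
    rw [L03_partner_val]
    split_ifs <;> omega

/-- LEAF PEELING.  Induction on `|F|`.  For `F = ∅` no side is an `F`-side.  Otherwise take a leaf
`v` (`exists_leaf`) and its corner `c₀` (`exists_unique_corner`); by `iota_eq_of_corner` the gluings
agree at `c₀` and (`iota_iota` for `σ` and `σ'`) at `iota σ c₀`.  Let `e = (i, edgeV σ c₀)` be the
edge of `c₀`; `F.erase e` is a forest and the sides of `e` are only `c₀` and `iota σ c₀`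
(`Fside_iota`, `edgeV_iota`: a side `(x, s)` with `s = i` has `x = (u i)⁻¹ (edge vertex)`, and
`s = i + 2` likewise), so the gluings agree off the `F.erase e`-sides. -/
theorem leafPeel (hg : 1 ≤ g) (σ σ' : Fin (2 * g) → Equiv.Perm V) (h : IsCov σ) (h' : IsCov σ')
    (F : Finset (Fin 2 × V)) (hF : IsForest (two σ) F)
    (heq : ∀ c : V × Fin (4 * g), ¬ Fside σ F c → iota σ' c = iota σ c) :
    iota σ' = iota σ := by
  induction hn : F.card generalizing F with
  | zero =>
    rw [Finset.card_eq_zero] at hn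
    subst hn
    funext c
    apply heq
    rintro ⟨i, _, _, hi⟩
    exact absurd hi (Finset.notMem_empty _)
  | succ n ih =>
    have hne : F.Nonempty := by
      rw [← Finset.card_pos]
      omega
    obtain ⟨v, hv⟩ := exists_leaf (two σ) F hF hne
    obtain ⟨c₀, hcv, hside, huniq⟩ := exists_unique_corner hg σ F v hv
    have ag0 : iota σ' c₀ = iota σ c₀ := by
      apply iota_eq_of_corner hg σ σ' h h'
      intro c hc hne
      apply heq
      intro hs
      exact hne (huniq c (hc.trans hcv) hs)
    have ag1 : iota σ' (iota σ c₀) = iota σ (iota σ c₀) := by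
      rw [iota_iota, ← ag0, iota_iota]
    obtain ⟨i, hlt, hi, hmem⟩ := hside
    apply ih (F.erase (i, edgeV σ c₀))
    · intro U hU
      refine lt_of_le_of_lt (Finset.card_le_card ?_) (hF U hU)
      unfold inside
      exact Finset.filter_subset_filter _ (Finset.erase_subset _ _)
    · intro c hc
      by_cases hs : Fside σ F c
      · obtain ⟨j, hjlt, hj, hjmem⟩ := hs
        have he : (j, edgeV σ c) = (i, edgeV σ c₀) := by
          by_contra hcon
          exact hc ⟨j, hjlt, hj, Finset.mem_erase.2 ⟨hcon, hjmem⟩⟩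
        have he1 : j = i := congrArg Prod.fst he
        have he2 : edgeV σ c = edgeV σ c₀ := congrArg Prod.snd he
        rcases L05_side c.2 c₀.2 hjlt hlt (by rw [← hj, ← hi, he1]) with h5 | h5
        · rw [L05_edgeV_inj σ c c₀ he2 h5]
          exact ag0
        · have h6 : c = iota σ c₀ := by
            apply L05_edgeV_inj σ c (iota σ c₀) _ h5
            rw [edgeV_iota]
            exact he2
          rw [h6]
          exact ag1
      · exact heq c hs
    · rw [Finset.card_erase_of_mem hmem]
      omega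

end H98T
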