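import Pool.Agent.Lib.H98T.L02

/-!
# H98T L06 (M): the gluing determines the permutations (L3 of PROOF.md)
-/

namespace H98T

open Finset

variable {V : Type*} {g : ℕ}

theorem L06_u (σ : Fin (2 * g) → Equiv.Perm V) (s : ℕ) (hs : s < 4 * g) :
    u σ (s + 1) = tau σ ⟨s, hs⟩ * u σ s := u_succ σ ⟨s, hs⟩

theorem L06_tau_pos (σ : Fin (2 * g) → Equiv.Perm V) (s k : ℕ) (hs : s < 4 * g) (hk : k < 2 * g)
    (h1 : s % 4 < 2) (h2 : 2 * (s / 4) + s % 2 = k) : tau σ ⟨s, hs⟩ = σ ⟨k, hk⟩ := by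
  subst h2
  unfold tau
  rw [if_pos h1]
  rfl

theorem L06_tau_neg (σ : Fin (2 * g) → Equiv.Perm V) (s k : ℕ) (hs : s < 4 * g) (hk : k < 2 * g)
    (h1 : ¬ s % 4 < 2) (h2 : 2 * (s / 4) + s % 2 = k) : tau σ ⟨s, hs⟩ = (σ ⟨k, hk⟩)⁻¹ := by
  subst h2
  unfold tau
  rw [if_neg h1]
  rfl

/-- For `h < g`, `U = u (4h)`, `a = σ (2h)`, `b = σ (2h+1)`:
`u (4h+1) = a U`, `u (4h+2) = b a U`, `u (4h+3) = a⁻¹ b a U`, `u (4h+4) = b⁻¹ a⁻¹ b a U`. -/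
theorem u_block (σ : Fin (2 * g) → Equiv.Perm V) (h : ℕ) (hh : h < g) :
    u σ (4 * h + 1) = σ ⟨2 * h, by omega⟩ * u σ (4 * h) ∧
    u σ (4 * h + 2) = σ ⟨2 * h + 1, by omega⟩ * σ ⟨2 * h, by omega⟩ * u σ (4 * h) ∧
    u σ (4 * h + 3) = (σ ⟨2 * h, by omega⟩)⁻¹ * σ ⟨2 * h + 1, by omega⟩ * σ ⟨2 * h, by omega⟩ *
      u σ (4 * h) ∧
    u σ (4 * h + 4) = (σ ⟨2 * h + 1, by omega⟩)⁻¹ * (σ ⟨2 * h, by omega⟩)⁻¹ *
      σ ⟨2 * h + 1, by omega⟩ * σ ⟨2 * h, by omega⟩ * u σ (4 * h) := by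
  have h1 : u σ (4 * h + 1) = σ ⟨2 * h, by omega⟩ * u σ (4 * h) := by
    rw [L06_u σ (4 * h) (by omega), L06_tau_pos σ (4 * h) (2 * h) _ (by omega) (by omega) (by omega)]
  have h2 : u σ (4 * h + 2) = σ ⟨2 * h + 1, by omega⟩ * σ ⟨2 * h, by omega⟩ * u σ (4 * h) := by
    rw [L06_u σ (4 * h + 1) (by omega),
      L06_tau_pos σ (4 * h + 1) (2 * h + 1) _ (by omega) (by omega) (by omega), h1, mul_assoc]
  have h3 : u σ (4 * h + 3) = (σ ⟨2 * h, by omega⟩)⁻¹ * σ ⟨2 * h + 1, by omega⟩ *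
      σ ⟨2 * h, by omega⟩ * u σ (4 * h) := by
    rw [L06_u σ (4 * h + 2) (by omega),
      L06_tau_neg σ (4 * h + 2) (2 * h) _ (by omega) (by omega) (by omega), h2]
    simp only [mul_assoc]
  have h4 : u σ (4 * h + 4) = (σ ⟨2 * h + 1, by omega⟩)⁻¹ * (σ ⟨2 * h, by omega⟩)⁻¹ *
      σ ⟨2 * h + 1, by omega⟩ * σ ⟨2 * h, by omega⟩ * u σ (4 * h) := by
    rw [L06_u σ (4 * h + 3) (by omega),
      L06_tau_neg σ (4 * h + 3) (2 * h + 1) _ (by omega) (by omega) (by omega), h3]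
    simp only [mul_assoc]
  exact ⟨h1, h2, h3, h4⟩

theorem L06_glue_even (σ : Fin (2 * g) → Equiv.Perm V) (h : ℕ) (hh : h < g) (h0 : 2 * h < 2 * g) :
    glue σ ⟨2 * h, h0⟩ = (u σ (4 * h + 3))⁻¹ * u σ (4 * h) := by
  unfold glue
  have e1 : (sn (⟨2 * h, h0⟩ : Fin (2 * g))).val + 1 = 4 * h + 3 := by
    show 4 * (2 * h / 2) + 2 * h % 2 + 2 + 1 = 4 * h + 3
    omega
  have e2 : (sp (⟨2 * h, h0⟩ : Fin (2 * g))).val = 4 * h := by
    show 4 * (2 * h / 2) + 2 * h % 2 = 4 * h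
    omega
  rw [e1, e2]

theorem L06_glue_odd (σ : Fin (2 * g) → Equiv.Perm V) (h : ℕ) (hh : h < g) (h0 : 2 * h + 1 < 2 * g) :
    glue σ ⟨2 * h + 1, h0⟩ = (u σ (4 * h + 4))⁻¹ * u σ (4 * h + 1) := by
  unfold glue
  have e1 : (sn (⟨2 * h + 1, h0⟩ : Fin (2 * g))).val + 1 = 4 * h + 4 := by
    show 4 * ((2 * h + 1) / 2) + (2 * h + 1) % 2 + 2 + 1 = 4 * h + 4
    omega
  have e2 : (sp (⟨2 * h + 1, h0⟩ : Fin (2 * g))).val = 4 * h + 1 := by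
    show 4 * ((2 * h + 1) / 2) + (2 * h + 1) % 2 = 4 * h + 1
    omega
  rw [e1, e2]

theorem L06_group {G : Type*} [Group G] (U a b : G) :
    a = U * (((a⁻¹ * b * a * U)⁻¹ * U)⁻¹ * ((b⁻¹ * a⁻¹ * b * a * U)⁻¹ * (a * U)) *
      ((a⁻¹ * b * a * U)⁻¹ * U)) * U⁻¹ ∧
    b = U * (((a⁻¹ * b * a * U)⁻¹ * U)⁻¹ * ((b⁻¹ * a⁻¹ * b * a * U)⁻¹ * (a * U))) * U⁻¹ * a⁻¹ := by
  constructor <;> group

/-- `glue (2h) = A⁻¹ B⁻¹ A` and `glue (2h+1) = A⁻¹ B⁻¹ A B A` with `A = U⁻¹ a U`, `B = U⁻¹ b U`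
(`u_block`).  So `A = (glue (2h))⁻¹ * glue (2h+1) * glue (2h)` and
`B = (glue (2h))⁻¹ * glue (2h+1) * A⁻¹`.  By induction on `h` the `u σ (4h)` agree, then `a`, `b`
agree for the two families. -/
theorem glue_injective (σ σ' : Fin (2 * g) → Equiv.Perm V) (h : glue σ = glue σ') : σ = σ' := by
  have step : ∀ k : ℕ, (hk : k < g) → u σ (4 * k) = u σ' (4 * k) →
      σ ⟨2 * k, by omega⟩ = σ' ⟨2 * k, by omega⟩ ∧
      σ ⟨2 * k + 1, by omega⟩ = σ' ⟨2 * k + 1, by omega⟩ := by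
    intro k hk hu
    have a1 := L06_group (u σ (4 * k)) (σ ⟨2 * k, by omega⟩) (σ ⟨2 * k + 1, by omega⟩)
    have a2 := L06_group (u σ' (4 * k)) (σ' ⟨2 * k, by omega⟩) (σ' ⟨2 * k + 1, by omega⟩)
    obtain ⟨b1, b2, b3, b4⟩ := u_block σ k hk
    obtain ⟨c1, c2, c3, c4⟩ := u_block σ' k hk
    rw [← b3, ← b4, ← b1, ← L06_glue_even σ k hk (by omega), ← L06_glue_odd σ k hk (by omega)] at a1
    rw [← c3, ← c4, ← c1, ← L06_glue_even σ' k hk (by omega), ← L06_glue_odd σ' k hk (by omega)] at a2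
    have e1 : σ ⟨2 * k, by omega⟩ = σ' ⟨2 * k, by omega⟩ := by
      rw [a1.1, a2.1, h, hu]
    refine ⟨e1, ?_⟩
    rw [a1.2, a2.2, h, hu, e1]
  have main : ∀ k : ℕ, k ≤ g → u σ (4 * k) = u σ' (4 * k) := by
    intro k
    induction k with
    | zero => intro _; rfl
    | succ k ih =>
      intro hk
      have hu := ih (by omega)
      obtain ⟨s1, s2⟩ := step k (by omega) hu
      have e : 4 * (k + 1) = 4 * k + 4 := by ring
      rw [e, (u_block σ k (by omega)).2.2.2, (u_block σ' k (by omega)).2.2.2, s1, s2, hu]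
  funext i
  have hi := i.isLt
  obtain ⟨s1, s2⟩ := step (i.val / 2) (by omega) (main _ (by omega))
  rcases Nat.mod_two_eq_zero_or_one i.val with hm | hm
  · have e : i = ⟨2 * (i.val / 2), by omega⟩ := Fin.ext (by show i.val = 2 * (i.val / 2); omega)
    rw [e]
    exact s1
  · have e : i = ⟨2 * (i.val / 2) + 1, by omega⟩ := Fin.ext (by show i.val = 2 * (i.val / 2) + 1; omega)
    rw [e]
    exact s2

/-- `iota` determines `glue` (`iota_sp`). -/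
theorem iota_injective (σ σ' : Fin (2 * g) → Equiv.Perm V) (h : iota σ = iota σ') : σ = σ' := by
  apply glue_injective
  funext i
  apply Equiv.ext
  intro x
  have h1 := iota_sp σ x i
  rw [h, iota_sp σ' x i] at h1
  exact (congrArg Prod.fst h1).symm

end H98T
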