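import Mathlib
import Pool.Agent.Lib.H98T.CD
import Pool.Agent.Lib.H98T.C10
import Pool.Agent.Lib.H98T.L02
import Pool.Agent.Lib.H98T.L05
import Pool.Agent.Lib.H98T.L06

set_option autoImplicit false

namespace H98T

open Finset

/-!
Module C, chunk C14 (S/M): rigidity.  F a forest of σ; the gluings of σ and σ' agree on the positive sides which are not F-sides of σ.  Then σ = σ'.
Proof: for a side c with not Fside σ F c: if c = (x, sp i): iota_sp for σ and σ'.  If c = (x', sn i): with x = (glue σ i)^-1 x': (x, sp i) = iota σ c is not an F-side (Fside_iota), so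
glue σ' i x = glue σ i x = x' and iota σ' (x', sn i) = ((glue σ' i)^-1 x', sp i) = (x, sp i).   (every side is sp i or sn i: eq_sp_or_sn.)  leafPeel, iota_injective.
-/

theorem rigid {g : ℕ} (hg : 2 ≤ g) {V : Type} [DecidableEq V] (σ σ' : Fin (2 * g) → Equiv.Perm V) (h : IsCov σ) (h' : IsCov σ')
    (F : Finset (Fin 2 × V)) (hF : IsForest (two σ) F)
    (he : ∀ (i : Fin (2 * g)) (x : V), ¬ Fside σ F (x, sp i) → glue σ i x = glue σ' i x) : σ = σ' := by
  have key : iota σ' = iota σ := by
    refine leafPeel (by omega) σ σ' h h' F hF ?_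
    rintro ⟨x, s⟩ hc
    rcases eq_sp_or_sn s with hs | hs
    · rw [hs] at hc ⊢
      rw [iota_sp, iota_sp, he _ x hc]
    · rw [hs] at hc ⊢
      set i := gen s with hi
      have h1 : iota σ (x, sn i) = ((glue σ i)⁻¹ x, sp i) := iota_sn σ x i
      have h2 : ¬ Fside σ F ((glue σ i)⁻¹ x, sp i) := by
        rw [← h1, Fside_iota]
        exact hc
      have h3 := he i _ h2
      have h4 : (glue σ i) ((glue σ i)⁻¹ x) = x := Equiv.apply_symm_apply _ _
      rw [h4] at h3
      rw [h1, iota_sn]
      refine Prod.ext ?_ rfl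
      simp only
      rw [Equiv.Perm.inv_eq_iff_eq]
      exact h3
  exact (iota_injective σ' σ key).symm


end H98T
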