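import Mathlib
import Pool.Agent.Lib.H98T.CD
import Pool.Agent.Lib.H98T.C08
import Pool.Agent.Lib.H98T.C10
import Pool.Agent.Lib.H98T.C11
import Pool.Agent.Lib.H98T.C12
import Pool.Agent.Lib.H98T.C13
import Pool.Agent.Lib.H98T.C14

set_option autoImplicit false

/-!
Module C, chunk C15 (M): THE BOUNDARY THEOREM of modules E + C.
Choose for every s in S an Enc E s and the net A s of C12 (Classical.choose; for s not in S any net, e.g. use Sg = {s // s in S} and SS = univ / attach).  EC_main with C = Fin Nc, Lmax = Pm, Lam = A1, eta = e1,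
eta1 = e2, nu = e1, e s i = glue s i: Bd and nu from C13, the matching of labels from C11.blab_match, hF from C10.sum_Fside and blab_none (E.tree), rigidity: typ equal implies b equal; the
positive sides with label none are the F-sides of s (blab_none): C14.rigid with F = (E s).F.
Constants: EC_main gives (d+1)^NT * d * exp (- (((4g-4) - (4g-2) e1) G - CK g Nc Pm th e1 e2) d) (d!)^(2g-1), G = (1/2) log (1/kap) - (3/2) log A1, 0 <= G <= (1/2) log (1/kap).
d <= (d+1)^1, so D = NT + 1.  (4g-2) e1 G <= (2g-1) e1 log (1/kap);  CK = CE(4g-2) + 2g log 2 + 2g-1 + (5/2) th log (4 (Pm+1) Nc) + 2 e1 log (2 Nc) + e2 (log 2 + 2 log Pm), and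
log (4 (Pm+1) Nc) <= 4 (log (Nc+1) + log (Pm+2)), log 2 + 2 log Pm <= 4 (log (Nc+1) + log (Pm+2)).  Cg = CE(4g-2) + 4g + 20 works or any larger number.
-/

namespace H98T

open Finset

/-!
Module C, chunk C15 (M): THE BOUNDARY THEOREM of modules E + C.
-/

theorem c15_CE (m : ℕ) : 0 ≤ CE m := by
  unfold CE
  have h1 : 0 ≤ Real.log (3 ^ m + 1) := Real.log_nonneg (by have : (0 : ℝ) < 3 ^ m := by positivity
                                                            linarith)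
  have h2 : 0 ≤ Real.log 2 := Real.log_nonneg (by norm_num)
  have h3 : 0 ≤ Real.log 4 := Real.log_nonneg (by norm_num)
  positivity

theorem c15_num (g : ℕ) (hg : 2 ≤ g) (Nc Pm : ℕ) (A1 kap th e1 e2 : ℝ) (hN : 1 ≤ Nc) (hP : 1 ≤ Pm) (hA : 1 ≤ A1)
    (hk : 0 < kap) (hk1 : kap ≤ 1) (hth : 0 ≤ th) (he1 : 0 ≤ e1) (he2 : 0 ≤ e2) :
    (4 * g - 2) * e1 * ((1 / 2) * Real.log (1 / kap) - (3 / 2) * Real.log A1) + CK g Nc Pm th e1 e2 ≤
      (CE (4 * g - 2) + 4 * g + 20) * (1 + e1 * (Real.log (2 * Nc) + Real.log (1 / kap) + Real.log A1)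
            + (th + e2) * (Real.log ((Nc : ℝ) + 1) + Real.log ((Pm : ℝ) + 2))) := by
  have hCE := c15_CE (4 * g - 2)
  set X := CE (4 * g - 2) with hX
  have hgr : (2 : ℝ) ≤ g := by exact_mod_cast hg
  have hNr : (1 : ℝ) ≤ Nc := by exact_mod_cast hN
  have hPr : (1 : ℝ) ≤ Pm := by exact_mod_cast hP
  have l2 : Real.log 2 ≤ 1 := by linarith [Real.log_two_lt_d9]
  have l20 : 0 ≤ Real.log 2 := Real.log_nonneg (by norm_num)
  have hA0 : 0 ≤ Real.log A1 := Real.log_nonneg hA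
  have hk0 : 0 ≤ Real.log (1 / kap) := Real.log_nonneg (by rw [le_div_iff₀ hk]; linarith)
  have a1 : 0 ≤ Real.log (2 * (Nc : ℝ)) := Real.log_nonneg (by linarith)
  have a2 : Real.log 2 ≤ Real.log ((Nc : ℝ) + 1) := Real.log_le_log (by norm_num) (by linarith)
  have a3 : Real.log (Nc : ℝ) ≤ Real.log ((Nc : ℝ) + 1) := Real.log_le_log (by linarith) (by linarith)
  have a4 : Real.log ((Pm : ℝ) + 1) ≤ Real.log ((Pm : ℝ) + 2) := Real.log_le_log (by linarith) (by linarith)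
  have a5 : Real.log (Pm : ℝ) ≤ Real.log ((Pm : ℝ) + 2) := Real.log_le_log (by linarith) (by linarith)
  have a6 : Real.log 2 ≤ Real.log ((Pm : ℝ) + 2) := Real.log_le_log (by norm_num) (by linarith)
  have a7 : Real.log (4 * ((Pm : ℝ) + 1) * (Nc : ℝ)) = 2 * Real.log 2 + Real.log ((Pm : ℝ) + 1) + Real.log (Nc : ℝ) := by
    rw [Real.log_mul (by positivity) (by positivity), Real.log_mul (by norm_num) (by positivity)]
    have : Real.log 4 = 2 * Real.log 2 := by
      rw [show (4 : ℝ) = 2 ^ 2 by norm_num, Real.log_pow]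
      norm_num
    rw [this]
  unfold CK
  rw [a7]
  set LN := Real.log ((Nc : ℝ) + 1)
  set LP := Real.log ((Pm : ℝ) + 2)
  set L2N := Real.log (2 * (Nc : ℝ))
  set Lk := Real.log (1 / kap)
  set LA := Real.log A1
  set l := Real.log 2
  have b1 : (4 * g - 2) * e1 * ((1 / 2) * Lk - (3 / 2) * LA) ≤ (4 * g) * e1 * Lk := by
    have : (4 * g - 2) * e1 * ((1 / 2) * Lk - (3 / 2) * LA) ≤ (4 * g - 2) * e1 * ((1 / 2) * Lk) := by
      apply mul_le_mul_of_nonneg_left (by linarith)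
      exact mul_nonneg (by linarith) he1
    have h2 : 0 ≤ e1 * Lk := mul_nonneg he1 hk0
    nlinarith
  have b2 : (5 / 2) * th * (2 * l + Real.log ((Pm : ℝ) + 1) + Real.log (Nc : ℝ)) ≤ 8 * (th * (LN + LP)) := by
    have h1 : 2 * l + Real.log ((Pm : ℝ) + 1) + Real.log (Nc : ℝ) ≤ 3 * (LN + LP) := by linarith
    have h2 := mul_le_mul_of_nonneg_left h1 hth
    have h3 : 0 ≤ th * (LN + LP) := mul_nonneg hth (by linarith)
    nlinarith
  have b3 : e2 * (l + 2 * Real.log (Pm : ℝ)) ≤ 3 * (e2 * (LN + LP)) := by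
    have h1 : l + 2 * Real.log (Pm : ℝ) ≤ 3 * (LN + LP) := by linarith
    have h2 := mul_le_mul_of_nonneg_left h1 he2
    linarith
  have c1 : 0 ≤ e1 * L2N := mul_nonneg he1 a1
  have c2 : 0 ≤ e1 * Lk := mul_nonneg he1 hk0
  have c3 : 0 ≤ e1 * LA := mul_nonneg he1 hA0
  have c4 : 0 ≤ th * (LN + LP) := mul_nonneg hth (by linarith)
  have c5 : 0 ≤ e2 * (LN + LP) := mul_nonneg he2 (by linarith)
  have c6 : 2 * g * l ≤ 2 * g := by nlinarith
  have e : (X + 4 * g + 20) * (1 + e1 * (L2N + Lk + LA) + (th + e2) * (LN + LP)) =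
      X + 4 * g + 20 + (X + 4 * g + 20) * (e1 * L2N) + (X + 4 * g + 20) * (e1 * Lk) + (X + 4 * g + 20) * (e1 * LA)
        + (X + 4 * g + 20) * (th * (LN + LP)) + (X + 4 * g + 20) * (e2 * (LN + LP)) := by ring
  rw [e]
  have d1 : 2 * (e1 * L2N) ≤ (X + 4 * g + 20) * (e1 * L2N) := mul_le_mul_of_nonneg_right (by linarith) c1
  have d2 : (4 * g) * (e1 * Lk) ≤ (X + 4 * g + 20) * (e1 * Lk) := mul_le_mul_of_nonneg_right (by linarith) c2
  have d3 : 0 ≤ (X + 4 * g + 20) * (e1 * LA) := mul_nonneg (by linarith) c3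
  have d4 : 8 * (th * (LN + LP)) ≤ (X + 4 * g + 20) * (th * (LN + LP)) := mul_le_mul_of_nonneg_right (by linarith) c4
  have d5 : 3 * (e2 * (LN + LP)) ≤ (X + 4 * g + 20) * (e2 * (LN + LP)) := mul_le_mul_of_nonneg_right (by linarith) c5
  linarith

theorem c15_tree {d : ℕ} (ρ : Fin 2 → Equiv.Perm (Fin d)) (F : Finset (Fin 2 × Fin d))
    (h : @IsSpanTree (Fin d) _ (fun a b => Classical.propDecidable (a = b)) ρ F) : IsSpanTree ρ F := by
  have e : (fun a b : Fin d => Classical.propDecidable (a = b)) = instDecidableEqFin d := Subsingleton.elim _ _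
  rw [e] at h
  exact h

theorem enc_count {g : ℕ} (hg : 2 ≤ g) : ∃ Cg : ℝ, 0 ≤ Cg ∧ ∀ (Nc Pm : ℕ) (A1 kap th e1 e2 : ℝ), 1 ≤ Nc → 1 ≤ Pm → 1 ≤ A1 → 0 < kap → kap ≤ 1 →
    0 ≤ th → 0 ≤ e1 → 0 ≤ e2 → 0 ≤ (1 / 2) * Real.log (1 / kap) - (3 / 2) * Real.log A1 →
    ∃ D : ℕ, ∀ d : ℕ, 1 ≤ d → ∀ S : Finset (Fin (2 * g) → Equiv.Perm (Fin d)),
      (∀ s ∈ S, IsCov s ∧ Nonempty (Enc hg s Nc Pm A1 kap th e1 e2)) →
      (S.card : ℝ) ≤ ((d : ℝ) + 1) ^ D *
        Real.exp (-((d : ℝ) * ((4 * g - 4) * ((1 / 2) * Real.log (1 / kap) - (3 / 2) * Real.log A1)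
          - Cg * (1 + e1 * (Real.log (2 * Nc) + Real.log (1 / kap) + Real.log A1)
            + (th + e2) * (Real.log ((Nc : ℝ) + 1) + Real.log ((Pm : ℝ) + 2)))))) * (d.factorial : ℝ) ^ (2 * g - 1) := by
  classical
  refine ⟨CE (4 * g - 2) + 4 * g + 20, by have := c15_CE (4 * g - 2); positivity, ?_⟩
  intro Nc Pm A1 kap th e1 e2 hN hP hA hk hk1 hth he1 he2 hG
  have : Nonempty (Fin Nc) := ⟨⟨0, by omega⟩⟩
  obtain ⟨NT, hNT⟩ := EC_main g hg (Fin Nc) Pm hP
  refine ⟨NT + 1, ?_⟩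
  intro d hd S hS
  have hE : ∀ s : {s // s ∈ S}, Nonempty (Enc hg s.1 Nc Pm A1 kap th e1 e2) := fun s => (hS s.1 s.2).2
  let E : ∀ s : {s // s ∈ S}, Enc hg s.1 Nc Pm A1 kap th e1 e2 := fun s => Classical.choice (hE s)
  choose A q1 q2 q3 q4 q5 q6 q7 using fun s : {s // s ∈ S} => exists_lnet hN (E s)
  have hBd := fun s : {s // s ∈ S} => lnet_Bd (E s) (A s) (q1 s) (q2 s) (q3 s) (q4 s) (q5 s) (q6 s) (q7 s)
  have hb : ∀ (s : {s // s ∈ S}) (i : Fin (2 * g)) (x : Fin d), (A s).b (osd g (spos i)) x = none ↔ Fside s.1 (E s).F (x, sp i) := by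
    intro s i x
    rw [q7]
    exact blab_none (E s) (sp i) x
  have key := hNT A1 kap th e1 e2 e1 hA hk hG d hd {s // s ∈ S} Finset.univ (fun s i => glue s.1 i) A
    (fun s _ => (hBd s).1) (fun s _ => (hBd s).2)
    (fun s _ i x => by rw [q7, q7]; exact blab_match (E s) i x)
    (fun s _ => by
      rw [← sum_Fside hg s.1 (E s).F (c15_tree _ _ (E s).tree)]
      refine Finset.sum_congr rfl fun i _ => ?_
      congr 1
      ext x
      simp only [Finset.mem_filter, Finset.mem_univ, true_and]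
      exact hb s i x)
    (fun s _ s' _ _ h2 => by
      apply Subtype.ext
      refine rigid hg s.1 s'.1 (hS s.1 s.2).1 (hS s'.1 s'.2).1 (E s).F (c15_tree _ _ (E s).tree).1 fun i x hx => ?_
      exact h2 i x fun h => hx ((hb s i x).1 h))
  rw [Finset.card_univ, Fintype.card_coe, Fintype.card_fin] at key
  refine key.trans ?_
  have hnum := c15_num g hg Nc Pm A1 kap th e1 e2 hN hP hA hk hk1 hth he1 he2
  have hd0 : (0 : ℝ) ≤ d := Nat.cast_nonneg d
  refine mul_le_mul_of_nonneg_right ?_ (by positivity)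
  rw [pow_succ]
  refine mul_le_mul ?_ ?_ (Real.exp_pos _).le (by positivity)
  · exact mul_le_mul_of_nonneg_left (by linarith) (by positivity)
  · apply Real.exp_le_exp.2
    have h := mul_le_mul_of_nonneg_left hnum hd0
    nlinarith [h]

end H98T
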