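import Mathlib

/-!
# H98T D02 (M): counting bijections with prescribed pairs
-/

namespace H98T

open Finset

/-- `Γ` is the graph of a bijection from `D` to `R`. -/
def IsBij {α : Type*} [DecidableEq α] (D R : Finset α) (Γ : Finset (α × α)) : Prop :=
  Γ.image Prod.fst = D ∧ Γ.image Prod.snd = R ∧
    (∀ p ∈ Γ, ∀ p' ∈ Γ, p.1 = p'.1 → p = p') ∧ (∀ p ∈ Γ, ∀ p' ∈ Γ, p.2 = p'.2 → p = p')

theorem d02_card_fst {α : Type*} [DecidableEq α] {D R : Finset α} {E Γ : Finset (α × α)}
    (hE : E ⊆ Γ) (h : IsBij D R Γ) :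
    (E.image Prod.fst).card = E.card ∧ E.image Prod.fst ⊆ D ∧
    (E.image Prod.snd).card = E.card ∧ E.image Prod.snd ⊆ R := by
  refine ⟨?_, ?_, ?_, ?_⟩
  · apply Finset.card_image_of_injOn
    intro p hp p' hp' he
    exact h.2.2.1 p (hE hp) p' (hE hp') he
  · rw [← h.1]
    exact Finset.image_subset_image hE
  · apply Finset.card_image_of_injOn
    intro p hp p' hp' he
    exact h.2.2.2 p (hE hp) p' (hE hp') he
  · rw [← h.2.1]
    exact Finset.image_subset_image hE

/-- If the family is empty the claim is trivial.  Otherwise `E ⊆ Γ` for a graph of a bijection, so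
`E` has `|E|` first and `|E|` second coordinates and `|D| = |R|`.  Let `D' = D \ fst E`,
`R' = R \ snd E`, `n = |D'| = |R'| = |D| - |E|`.  To `Γ` corresponds the embedding `D' ↪ R'` whose
graph is `Γ \ E` (`x ↦` the unique `y` with `(x, y) ∈ Γ`), and `Γ` is determined by it.
`Fintype.card_embedding_eq`, `Nat.descFactorial_self`. -/
theorem card_bij_le {α : Type*} [DecidableEq α] (D R : Finset α) (E : Finset (α × α))
    (S : Finset (Finset (α × α))) (hS : ∀ Γ ∈ S, E ⊆ Γ ∧ IsBij D R Γ) :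
    S.card ≤ (D.card - E.card).factorial := by
  classical
  rcases S.eq_empty_or_nonempty with h0 | ⟨Γ₀, hΓ₀⟩
  · rw [h0]; simp
  obtain ⟨hE0, hB0⟩ := hS Γ₀ hΓ₀
  obtain ⟨c1, c2, c3, c4⟩ := d02_card_fst hE0 hB0
  obtain ⟨e1, -, e3, -⟩ := d02_card_fst (Finset.Subset.refl Γ₀) hB0
  rw [hB0.1] at e1
  rw [hB0.2.1] at e3
  set D' := D \ E.image Prod.fst with hD'
  set R' := R \ E.image Prod.snd with hR'
  have hD'c : D'.card = D.card - E.card := by
    rw [hD', Finset.card_sdiff_of_subset c2, c1]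
  have hR'c : R'.card = D.card - E.card := by
    rw [hR', Finset.card_sdiff_of_subset c4, c3, e3, ← e1]
  have key : ∀ Γ : {Γ // Γ ∈ S}, ∃ e : {x // x ∈ D'} ↪ {y // y ∈ R'},
      ∀ x, (x.1, (e x).1) ∈ Γ.1 := by
    rintro ⟨Γ, hΓ⟩
    obtain ⟨hEΓ, hB⟩ := hS Γ hΓ
    have h1 : ∀ x : {x // x ∈ D'}, ∃ y : {y // y ∈ R'}, (x.1, y.1) ∈ Γ := by
      rintro ⟨x, hx⟩
      rw [hD', Finset.mem_sdiff] at hx
      have hx1 := hx.1
      rw [← hB.1, Finset.mem_image] at hx1
      obtain ⟨p, hp, rfl⟩ := hx1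
      refine ⟨⟨p.2, ?_⟩, hp⟩
      rw [hR', Finset.mem_sdiff]
      constructor
      · rw [← hB.2.1, Finset.mem_image]
        exact ⟨p, hp, rfl⟩
      · intro hmem
        rw [Finset.mem_image] at hmem
        obtain ⟨q, hq, hqp⟩ := hmem
        apply hx.2
        rw [Finset.mem_image]
        have := hB.2.2.2 q (hEΓ hq) p hp hqp
        exact ⟨q, hq, by rw [this]⟩
    choose f hf using h1
    refine ⟨⟨f, ?_⟩, hf⟩
    intro x x' hxx
    have h2 := hf x
    have h3 := hf x'
    rw [← hxx] at h3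
    have := hB.2.2.2 _ h2 _ h3 rfl
    exact Subtype.ext (congrArg Prod.fst this)
  choose e he using key
  have hinj : Function.Injective e := by
    have hle : ∀ Γ Γ' : {Γ // Γ ∈ S}, e Γ = e Γ' → Γ.1 ⊆ Γ'.1 := by
      rintro ⟨Γ, hΓ⟩ ⟨Γ', hΓ'⟩ hee p hp
      obtain ⟨hEΓ, hB⟩ := hS Γ hΓ
      obtain ⟨hEΓ', hB'⟩ := hS Γ' hΓ'
      by_cases hp1 : p.1 ∈ E.image Prod.fst
      · rw [Finset.mem_image] at hp1
        obtain ⟨q, hq, hqp⟩ := hp1
        have := hB.2.2.1 q (hEΓ hq) p hp hqp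
        rw [← this]
        exact hEΓ' hq
      · have hpD : p.1 ∈ D' := by
          rw [hD', Finset.mem_sdiff]
          refine ⟨?_, hp1⟩
          rw [← hB.1, Finset.mem_image]
          exact ⟨p, hp, rfl⟩
        have h1 := he ⟨Γ, hΓ⟩ ⟨p.1, hpD⟩
        have h2 := he ⟨Γ', hΓ'⟩ ⟨p.1, hpD⟩
        rw [← hee] at h2
        have h3 := hB.2.2.1 _ h1 p hp rfl
        rw [h3] at h2
        exact h2
    intro Γ Γ' h
    exact Subtype.ext (Finset.Subset.antisymm (hle Γ Γ' h) (hle Γ' Γ h.symm))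
  have hcard := Fintype.card_le_of_injective e hinj
  rw [Fintype.card_embedding_eq, Fintype.card_coe, Fintype.card_coe, Fintype.card_coe, hD'c, hR'c,
    Nat.descFactorial_self] at hcard
  exact hcard

/-- `card_bij_le` for the graphs of the permutations, `D = R = univ`. -/
theorem card_perm_le {α : Type*} [Fintype α] [DecidableEq α] (E : Finset (α × α)) :
    (Finset.univ.filter (fun π : Equiv.Perm α => ∀ p ∈ E, π p.1 = p.2)).card ≤
      (Fintype.card α - E.card).factorial := by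
  classical
  set gr : Equiv.Perm α → Finset (α × α) := fun π => Finset.univ.image (fun x => (x, π x)) with hgr
  have hgrinj : Function.Injective gr := by
    intro π π' h
    ext x
    have h1 : (x, π x) ∈ gr π := by
      rw [hgr]; exact Finset.mem_image.mpr ⟨x, Finset.mem_univ _, rfl⟩
    rw [h, hgr] at h1
    obtain ⟨y, -, hy⟩ := Finset.mem_image.mp h1
    simp only [Prod.mk.injEq] at hy
    obtain ⟨rfl, h2⟩ := hy
    exact h2.symm
  have h1 := card_bij_le (Finset.univ : Finset α) Finset.univ E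
    ((Finset.univ.filter (fun π : Equiv.Perm α => ∀ p ∈ E, π p.1 = p.2)).image gr) (by
      intro Γ hΓ
      rw [Finset.mem_image] at hΓ
      obtain ⟨π, hπ, rfl⟩ := hΓ
      rw [Finset.mem_filter] at hπ
      refine ⟨?_, ?_, ?_, ?_, ?_⟩
      · intro p hp
        rw [hgr]
        refine Finset.mem_image.mpr ⟨p.1, Finset.mem_univ _, ?_⟩
        rw [hπ.2 p hp]
      · ext x
        simp [hgr]
      · ext x
        simp only [hgr, Finset.mem_image, Finset.mem_univ, true_and, iff_true]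
        exact ⟨(π⁻¹ x, x), ⟨π⁻¹ x, by simp⟩, rfl⟩
      · intro p hp p' hp' h
        rw [hgr, Finset.mem_image] at hp hp'
        obtain ⟨x, -, rfl⟩ := hp
        obtain ⟨y, -, rfl⟩ := hp'
        simp only at h
        rw [h]
      · intro p hp p' hp' h
        rw [hgr, Finset.mem_image] at hp hp'
        obtain ⟨x, -, rfl⟩ := hp
        obtain ⟨y, -, rfl⟩ := hp'
        simp only at h
        rw [π.injective h])
  rw [Finset.card_image_of_injective _ hgrinj, Finset.card_univ] at h1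
  exact h1

end H98T
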