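import Pool.Agent.Lib.H98T.Defs

/-!
# H98T D03 (M): union bound for many disjoint sets
-/

namespace H98T

open Finset

/-- A structure: a set `U` and a set `E` of triples. -/
abbrev Str (κ V : Type*) := Finset V × Finset (κ × V × V)

/-- A valid structure: `U` is nonempty, `|U| ≤ t`, `E` consists of `|U|` triples `(i, x, y)` with
`x, y ∈ U`. -/
def Str.Valid {κ V : Type*} (t : ℕ) (a : Str κ V) : Prop :=
  a.1.Nonempty ∧ a.1.card ≤ t ∧ a.2.card = a.1.card ∧ ∀ p ∈ a.2, p.2.1 ∈ a.1 ∧ p.2.2 ∈ a.1

open Classical in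
theorem d03_fiber {κ V : Type*} [Fintype κ] [DecidableEq κ] [Fintype V] [DecidableEq V]
    (t : ℕ) (U : Finset V) :
    ((Finset.univ : Finset (Finset (κ × V × V))).filter (fun E => Str.Valid t (U, E))).card ≤
      2 ^ (Fintype.card κ * U.card ^ 2) := by
  have hsub : ((Finset.univ : Finset (Finset (κ × V × V))).filter (fun E => Str.Valid t (U, E))) ⊆
      ((Finset.univ : Finset κ) ×ˢ (U ×ˢ U)).powerset := by
    intro E hE
    rw [Finset.mem_filter] at hE
    rw [Finset.mem_powerset]
    intro p hp
    have := hE.2.2.2.2 p hp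
    simp only [Finset.mem_product, Finset.mem_univ, true_and]
    exact this
  refine (Finset.card_le_card hsub).trans ?_
  rw [Finset.card_powerset, Finset.card_product, Finset.card_product, Finset.card_univ, sq]

open Classical in
/-- `∑_(valid) (2/d)^|U| ≤ t 2^(t + κ t^2)`. -/
theorem sum_valid_le {κ V : Type*} [Fintype κ] [DecidableEq κ] [Fintype V] [DecidableEq V]
    (t : ℕ) :
    ∑ a ∈ (Finset.univ : Finset (Str κ V)).filter (fun a => a.Valid t),
      ((2 : ℝ) / (Fintype.card V : ℝ)) ^ a.1.card ≤
      t * 2 ^ (t + Fintype.card κ * t ^ 2) := by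
  set d : ℝ := (Fintype.card V : ℝ) with hd
  -- as a sum over U
  have h1 : ∑ a ∈ (Finset.univ : Finset (Str κ V)).filter (fun a => a.Valid t),
      ((2 : ℝ) / d) ^ a.1.card = ∑ U : Finset V, ∑ E : Finset (κ × V × V),
        if Str.Valid t (U, E) then ((2 : ℝ) / d) ^ U.card else 0 := by
    rw [Finset.sum_filter]
    rw [← Finset.univ_product_univ, Finset.sum_product]
  have h2 : ∀ U : Finset V, (∑ E : Finset (κ × V × V),
        if Str.Valid t (U, E) then ((2 : ℝ) / d) ^ U.card else 0) ≤
        if U.card ∈ Finset.Icc 1 t then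
          2 ^ (Fintype.card κ * U.card ^ 2) * ((2 : ℝ) / d) ^ U.card else 0 := by
    intro U
    have hnn : (0 : ℝ) ≤ ((2 : ℝ) / d) ^ U.card := by positivity
    rw [← Finset.sum_filter, Finset.sum_const, nsmul_eq_mul]
    split_ifs with hU
    · apply mul_le_mul_of_nonneg_right _ hnn
      exact_mod_cast d03_fiber (κ := κ) t U
    · have : (Finset.univ : Finset (Finset (κ × V × V))).filter (fun E => Str.Valid t (U, E)) = ∅ := by
        rw [Finset.filter_eq_empty_iff]
        intro E _ hE
        apply hU
        rw [Finset.mem_Icc]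
        exact ⟨Finset.card_pos.mpr hE.1, hE.2.1⟩
      rw [this]
      simp
  have h3 : ∑ U : Finset V, (if U.card ∈ Finset.Icc 1 t then
          2 ^ (Fintype.card κ * U.card ^ 2) * ((2 : ℝ) / d) ^ U.card else 0) =
      ∑ n ∈ Finset.Icc 1 t, ((Fintype.card V).choose n : ℝ) *
        (2 ^ (Fintype.card κ * n ^ 2) * ((2 : ℝ) / d) ^ n) := by
    rw [← Finset.sum_filter]
    rw [← Finset.sum_fiberwise_of_maps_to (t := Finset.Icc 1 t) (g := fun U : Finset V => U.card)]
    · apply Finset.sum_congr rfl
      intro n hn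
      have : (Finset.univ.filter (fun U : Finset V => U.card ∈ Finset.Icc 1 t)).filter
          (fun U => U.card = n) = Finset.powersetCard n Finset.univ := by
        ext U
        simp only [Finset.mem_filter, Finset.mem_univ, true_and, Finset.mem_powersetCard,
          Finset.subset_univ]
        constructor
        · exact fun h => h.2
        · intro h
          exact ⟨by rw [h]; exact hn, h⟩
      rw [this, Finset.sum_congr rfl (g := fun _ =>
        (2 ^ (Fintype.card κ * n ^ 2) * ((2 : ℝ) / d) ^ n))]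
      · rw [Finset.sum_const, nsmul_eq_mul, Finset.card_powersetCard, Finset.card_univ]
      · intro U hU
        rw [(Finset.mem_powersetCard.mp hU).2]
    · intro U hU
      rw [Finset.mem_filter] at hU
      exact hU.2
  have h4 : ∀ n ∈ Finset.Icc 1 t, ((Fintype.card V).choose n : ℝ) *
        (2 ^ (Fintype.card κ * n ^ 2) * ((2 : ℝ) / d) ^ n) ≤ 2 ^ (t + Fintype.card κ * t ^ 2) := by
    intro n hn
    rw [Finset.mem_Icc] at hn
    have hc : ((Fintype.card V).choose n : ℝ) ≤ d ^ n := by
      rw [hd]
      exact_mod_cast Nat.choose_le_pow (Fintype.card V) n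
    have hp : d ^ n * ((2 : ℝ) / d) ^ n ≤ 2 ^ n := by
      rw [← mul_pow]
      apply pow_le_pow_left₀
      · positivity
      · by_cases h0 : d = 0
        · rw [h0]; norm_num
        · rw [mul_div_cancel₀ _ h0]
    calc ((Fintype.card V).choose n : ℝ) * (2 ^ (Fintype.card κ * n ^ 2) * ((2 : ℝ) / d) ^ n)
        ≤ d ^ n * (2 ^ (Fintype.card κ * n ^ 2) * ((2 : ℝ) / d) ^ n) := by
          apply mul_le_mul_of_nonneg_right hc; positivity
      _ = 2 ^ (Fintype.card κ * n ^ 2) * (d ^ n * ((2 : ℝ) / d) ^ n) := by ring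
      _ ≤ 2 ^ (Fintype.card κ * n ^ 2) * 2 ^ n := by
          apply mul_le_mul_of_nonneg_left hp; positivity
      _ = 2 ^ (n + Fintype.card κ * n ^ 2) := by rw [← pow_add, add_comm]
      _ ≤ 2 ^ (t + Fintype.card κ * t ^ 2) := by
          apply pow_le_pow_right₀ (by norm_num)
          have : n ^ 2 ≤ t ^ 2 := Nat.pow_le_pow_left hn.2 2
          have := Nat.mul_le_mul_left (Fintype.card κ) this
          omega
  rw [h1]
  refine (Finset.sum_le_sum (fun U _ => h2 U)).trans ?_
  rw [h3]
  refine (Finset.sum_le_sum h4).trans ?_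
  rw [Finset.sum_const, nsmul_eq_mul]
  simp

open Classical in
/-- Orderings: every `γ` is related to `k!` tuples. -/
theorem card_mul_factorial_le {Γ α : Type*} [Fintype α] (S : Finset Γ) (k : ℕ)
    (R : Γ → (Fin k → α) → Prop)
    (hR : ∀ γ f (π : Equiv.Perm (Fin k)), R γ f → R γ (f ∘ π))
    (hinj : ∀ γ ∈ S, ∃ f : Fin k → α, Function.Injective f ∧ R γ f) :
    S.card * k.factorial ≤ ∑ f : Fin k → α, (S.filter (fun γ => R γ f)).card := by
  have h1 : ∑ f : Fin k → α, (S.filter (fun γ => R γ f)).card =
      ∑ γ ∈ S, (Finset.univ.filter (fun f : Fin k → α => R γ f)).card := by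
    simp only [Finset.card_filter]
    rw [Finset.sum_comm]
  rw [h1, ← smul_eq_mul, ← Finset.sum_const]
  apply Finset.sum_le_sum
  intro γ hγ
  obtain ⟨f, hf, hRf⟩ := hinj γ hγ
  have h2 : (Finset.univ.image (fun π : Equiv.Perm (Fin k) => f ∘ π)) ⊆
      Finset.univ.filter (fun f : Fin k → α => R γ f) := by
    intro h hh
    rw [Finset.mem_image] at hh
    obtain ⟨π, -, rfl⟩ := hh
    simp only [Finset.mem_filter, Finset.mem_univ, true_and]
    exact hR γ f π hRf
  have h3 := Finset.card_le_card h2
  rw [Finset.card_image_of_injective, Finset.card_univ, Fintype.card_perm, Fintype.card_fin] at h3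
  · exact h3
  · intro π π' h
    ext j
    have := congrFun h j
    simp only [Function.comp_apply] at this
    rw [hf this]

open Classical in
/-- UNION BOUND. -/
theorem union_bound {κ V Γ : Type*} [Fintype κ] [DecidableEq κ] [Fintype V] [DecidableEq V]
    (S : Finset Γ) (G : Γ → Finset (κ × V × V)) (B : ℝ) (hB : 0 ≤ B) (t k : ℕ)
    (htk : 2 * (t * k) ≤ Fintype.card V)
    (hG : ∀ E : Finset (κ × V × V), 2 * E.card ≤ Fintype.card V →
      ((S.filter (fun γ => E ⊆ G γ)).card : ℝ) ≤ B * ((2 : ℝ) / (Fintype.card V : ℝ)) ^ E.card)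
    (hbad : ∀ γ ∈ S, ∃ U : Fin k → Finset V,
      (∀ j, (U j).Nonempty ∧ (U j).card ≤ t ∧
        (U j).card ≤ ((G γ).filter (fun p => p.2.1 ∈ U j ∧ p.2.2 ∈ U j)).card) ∧
      ∀ i j, i ≠ j → Disjoint (U i) (U j)) :
    (S.card : ℝ) * (k.factorial : ℝ) ≤ B * (t * 2 ^ (t + Fintype.card κ * t ^ 2)) ^ k := by
  set w : Str κ V → ℝ := fun a => ((2 : ℝ) / (Fintype.card V : ℝ)) ^ a.1.card with hw
  let R : Γ → (Fin k → Str κ V) → Prop := fun γ f =>
    (∀ j, (f j).Valid t) ∧ (∀ i j, i ≠ j → Disjoint (f i).1 (f j).1) ∧ ∀ j, (f j).2 ⊆ G γ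
  have hR : ∀ γ f (π : Equiv.Perm (Fin k)), R γ f → R γ (f ∘ π) := by
    intro γ f π h
    refine ⟨fun j => h.1 (π j), fun i j hij => h.2.1 _ _ (fun he => hij (π.injective he)),
      fun j => h.2.2 (π j)⟩
  have hinj : ∀ γ ∈ S, ∃ f : Fin k → Str κ V, Function.Injective f ∧ R γ f := by
    intro γ hγ
    obtain ⟨U, hU, hdis⟩ := hbad γ hγ
    have hE : ∀ j, ∃ E ⊆ (G γ).filter (fun p => p.2.1 ∈ U j ∧ p.2.2 ∈ U j),
        E.card = (U j).card := fun j => Finset.exists_subset_card_eq (hU j).2.2
    choose E hE1 hE2 using hE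
    refine ⟨fun j => (U j, E j), ?_, ?_, ?_, ?_⟩
    · intro i j hij
      by_contra hne
      have h1 := hdis i j hne
      have h2 : U i = U j := congrArg Prod.fst hij
      rw [h2] at h1
      exact (hU j).1.ne_empty (Finset.disjoint_self_iff_empty _ |>.mp h1)
    · intro j
      refine ⟨(hU j).1, (hU j).2.1, hE2 j, ?_⟩
      intro p hp
      have := hE1 j hp
      rw [Finset.mem_filter] at this
      exact this.2
    · exact hdis
    · intro j p hp
      have := hE1 j hp
      rw [Finset.mem_filter] at this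
      exact this.1
  have hcount := card_mul_factorial_le S k R hR hinj
  have hf : ∀ f : Fin k → Str κ V, ((S.filter (fun γ => R γ f)).card : ℝ) ≤
      B * ∏ j, (if (f j).Valid t then w (f j) else 0) := by
    intro f
    have hw0 : ∀ a, 0 ≤ w a := fun a => by rw [hw]; positivity
    by_cases hv : ∀ j, (f j).Valid t
    · by_cases hd : ∀ i j, i ≠ j → Disjoint (f i).1 (f j).1
      · set E : Finset (κ × V × V) := Finset.univ.biUnion (fun j => (f j).2) with hE
        have hEcard : E.card = ∑ j, (f j).1.card := by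
          rw [hE, Finset.card_biUnion]
          · exact Finset.sum_congr rfl (fun j _ => (hv j).2.2.1)
          · intro i _ j _ hij
            rw [Function.onFun, Finset.disjoint_left]
            intro p hp hp'
            have h1 := (hv i).2.2.2 p hp
            have h2 := (hv j).2.2.2 p hp'
            exact Finset.disjoint_left.mp (hd i j hij) h1.1 h2.1
        have hEle : 2 * E.card ≤ Fintype.card V := by
          have h1 : ∑ j, (f j).1.card ≤ ∑ _j : Fin k, t := Finset.sum_le_sum (fun j _ => (hv j).2.1)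
          rw [Finset.sum_const, Finset.card_univ, Fintype.card_fin, smul_eq_mul] at h1
          rw [hEcard]
          have : k * t = t * k := mul_comm _ _
          omega
        have h1 : (S.filter (fun γ => R γ f)).card ≤ (S.filter (fun γ => E ⊆ G γ)).card := by
          apply Finset.card_le_card
          intro γ hγ
          rw [Finset.mem_filter] at hγ ⊢
          refine ⟨hγ.1, ?_⟩
          intro p hp
          rw [hE, Finset.mem_biUnion] at hp
          obtain ⟨j, -, hj⟩ := hp
          exact hγ.2.2.2 j hj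
        have h2 := hG E hEle
        rw [hEcard] at h2
        have h3 : ∏ j, (if (f j).Valid t then w (f j) else 0) =
            ((2 : ℝ) / (Fintype.card V : ℝ)) ^ (∑ j, (f j).1.card) := by
          rw [← Finset.prod_pow_eq_pow_sum]
          apply Finset.prod_congr rfl
          intro j _
          rw [if_pos (hv j)]
        rw [h3]
        exact (Nat.cast_le.mpr h1).trans h2
      · have : S.filter (fun γ => R γ f) = ∅ := by
          rw [Finset.filter_eq_empty_iff]
          intro γ _ h
          exact hd h.2.1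
        rw [this]
        simp only [Finset.card_empty, Nat.cast_zero]
        apply mul_nonneg hB
        apply Finset.prod_nonneg
        intro j _
        split_ifs
        · exact hw0 _
        · exact le_rfl
    · have : S.filter (fun γ => R γ f) = ∅ := by
        rw [Finset.filter_eq_empty_iff]
        intro γ _ h
        exact hv h.1
      rw [this]
      simp only [Finset.card_empty, Nat.cast_zero]
      apply mul_nonneg hB
      apply Finset.prod_nonneg
      intro j _
      split_ifs
      · exact hw0 _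
      · exact le_rfl
  have hsum : (∑ f : Fin k → Str κ V, ((S.filter (fun γ => R γ f)).card : ℝ)) ≤
      B * (∑ a : Str κ V, (if a.Valid t then w a else 0)) ^ k := by
    rw [Fintype.sum_pow, Finset.mul_sum]
    exact Finset.sum_le_sum (fun f _ => hf f)
  have hval : ∑ a : Str κ V, (if a.Valid t then w a else 0) ≤
      t * 2 ^ (t + Fintype.card κ * t ^ 2) := by
    rw [← Finset.sum_filter]
    exact sum_valid_le t
  have hval0 : 0 ≤ ∑ a : Str κ V, (if a.Valid t then w a else 0) := by
    apply Finset.sum_nonneg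
    intro a _
    split_ifs
    · rw [hw]; positivity
    · exact le_rfl
  calc (S.card : ℝ) * (k.factorial : ℝ) = ((S.card * k.factorial : ℕ) : ℝ) := by push_cast; rfl
    _ ≤ ((∑ f : Fin k → Str κ V, (S.filter (fun γ => R γ f)).card : ℕ) : ℝ) :=
        Nat.cast_le.mpr (by convert hcount)
    _ = ∑ f : Fin k → Str κ V, ((S.filter (fun γ => R γ f)).card : ℝ) := by push_cast; rfl
    _ ≤ B * (∑ a : Str κ V, (if a.Valid t then w a else 0)) ^ k := hsum
    _ ≤ B * (t * 2 ^ (t + Fintype.card κ * t ^ 2)) ^ k := by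
        apply mul_le_mul_of_nonneg_left _ hB
        exact pow_le_pow_left₀ hval0 hval k

/-- If not `Few P t k`: there are `k` pairwise disjoint sets of size `≤ t` with `P`. -/
theorem exists_disjoint_of_not_few {V : Type*} [DecidableEq V] (P : Finset V → Prop) (t k : ℕ)
    (h : ¬ Few P t k) : ∃ U : Fin k → Finset V, (∀ j, P (U j) ∧ (U j).card ≤ t) ∧
      ∀ i j, i ≠ j → Disjoint (U i) (U j) := by
  unfold Few at h
  push Not at h
  obtain ⟨𝒟, h1, h2, h3⟩ := h
  obtain ⟨𝒟', hsub, hcard⟩ := Finset.exists_subset_card_eq h3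
  let e := 𝒟'.equivFinOfCardEq hcard
  refine ⟨fun j => (e.symm j).1, ?_, ?_⟩
  · intro j
    exact h1 _ (hsub (e.symm j).2)
  · intro i j hij
    have hne : (e.symm i).1 ≠ (e.symm j).1 := by
      intro he
      exact hij (e.symm.injective (Subtype.ext he))
    exact h2 (hsub (e.symm i).2) (hsub (e.symm j).2) hne

end H98T
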