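import Pool.Agent.Lib.H98T.FDefs

/-!
# H98T F13 (M): a family without many disjoint members has a small hitting set (D3)
-/

namespace H98T

open Finset

variable {V : Type*} [Fintype V] [DecidableEq V]

/-- Take a family `𝒟` of pairwise disjoint sets of size `≤ t` with `P`, with the largest number of
elements (`Few` bounds the number; or `Finset.exists_max_image` over the powerset of the powerset).
Its union `Z` has at most `t * k` elements and meets every nonempty `U` with `P`, `|U| ≤ t`:
otherwise `U` is disjoint from all members (and not a member, being nonempty), so `insert U 𝒟` is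
larger. -/
theorem exists_hitting (P : Finset V → Prop) (t k : ℕ) (h : Few P t k) :
    ∃ Z : Finset V, Z.card ≤ t * k ∧
      ∀ U : Finset V, P U → U.Nonempty → U.card ≤ t → (U ∩ Z).Nonempty := by
  classical
  set A : Finset (Finset (Finset V)) := Finset.univ.filter
    (fun 𝒟 => (∀ U ∈ 𝒟, P U ∧ U.card ≤ t) ∧ (𝒟 : Set (Finset V)).PairwiseDisjoint id) with hA
  have hne : A.Nonempty := ⟨∅, by simp [hA]⟩
  obtain ⟨𝒟, h𝒟, hmax⟩ := A.exists_max_image Finset.card hne
  rw [hA, Finset.mem_filter] at h𝒟
  obtain ⟨-, h1, h2⟩ := h𝒟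
  have hlt := h 𝒟 h1 h2
  refine ⟨𝒟.biUnion id, ?_, ?_⟩
  · calc (𝒟.biUnion id).card ≤ ∑ U ∈ 𝒟, (id U).card := Finset.card_biUnion_le
      _ ≤ ∑ _U ∈ 𝒟, t := Finset.sum_le_sum (fun U hU => (h1 U hU).2)
      _ = 𝒟.card * t := by simp
      _ ≤ t * k := by
        rw [mul_comm]
        exact Nat.mul_le_mul_left _ hlt.le
  · intro U hPU hU hUt
    by_contra hcon
    rw [Finset.not_nonempty_iff_eq_empty] at hcon
    have hdis : ∀ W ∈ 𝒟, Disjoint U W := by
      intro W hW
      rw [Finset.disjoint_left]
      intro x hxU hxW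
      have : x ∈ U ∩ 𝒟.biUnion id := by
        rw [Finset.mem_inter, Finset.mem_biUnion]
        exact ⟨hxU, W, hW, hxW⟩
      rw [hcon] at this
      simp at this
    have hnot : U ∉ 𝒟 := by
      intro hmem
      have := hdis U hmem
      rw [disjoint_self] at this
      rw [Finset.bot_eq_empty] at this
      exact hU.ne_empty this
    have hin : insert U 𝒟 ∈ A := by
      rw [hA, Finset.mem_filter]
      refine ⟨Finset.mem_univ _, ?_, ?_⟩
      · intro W hW
        rw [Finset.mem_insert] at hW
        rcases hW with rfl | hW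
        · exact ⟨hPU, hUt⟩
        · exact h1 W hW
      · rw [Finset.coe_insert]
        refine Set.PairwiseDisjoint.insert h2 ?_
        intro W hW _
        exact hdis W hW
    have := hmax _ hin
    rw [Finset.card_insert_of_notMem hnot] at this
    omega

omit [Fintype V] [DecidableEq V] in
/-- Monotonicity: fewer sets of size `≤ t` than of size `≤ t'` for `t ≤ t'`. -/
theorem Few.mono {P : Finset V → Prop} {t t' k k' : ℕ} (h : Few P t' k) (ht : t ≤ t')
    (hk : k ≤ k') : Few P t k' := by
  intro 𝒟 h1 h2
  exact lt_of_lt_of_le (h 𝒟 (fun U hU => ⟨(h1 U hU).1, (h1 U hU).2.trans ht⟩) h2) hk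

end H98T
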