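import Pool.Agent.Lib.H98T.D01
import Pool.Agent.Lib.H98T.D02
import Pool.Agent.Lib.H98T.D03
import Pool.Agent.Lib.H98T.F13

/-!
# H98T D04 (M): pairs of permutations with many disjoint dense sets (D1 of PROOF.md)
-/

namespace H98T

open Finset

open Classical in
/-- The triples `(i, x, ρ i x)`. -/
noncomputable def graphOf {V : Type*} [Fintype V] (ρ : Fin 2 → Equiv.Perm V) :
    Finset (Fin 2 × V × V) :=
  Finset.univ.filter (fun p => ρ p.1 p.2.1 = p.2.2)

open Classical in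
theorem d04_split {V : Type*} (E : Finset (Fin 2 × V × V)) :
    E.card = ∑ i : Fin 2, (E.filter (fun p => p.1 = i)).card := by
  rw [Finset.card_eq_sum_card_fiberwise (f := fun p : Fin 2 × V × V => p.1) (t := Finset.univ)
      (fun _ _ => Finset.mem_coe.mpr (Finset.mem_univ _))]

open Classical in
/-- `E = E_0 ∪ E_1` by the first coordinate.  The number of `ρ` is the product over `i` of the
numbers of permutations with the pairs `E_i` (`card_perm_le`), `≤ ∏ (d - |E_i|)!`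
`≤ ∏ (2/d)^|E_i| d!` (`factorial_sub_le` with `n = d`). -/
theorem card_graph_ge (V : Type*) [Fintype V] (E : Finset (Fin 2 × V × V))
    (hE : 2 * E.card ≤ Fintype.card V) :
    ((Finset.univ.filter (fun ρ : Fin 2 → Equiv.Perm V => E ⊆ graphOf ρ)).card : ℝ) ≤
      ((Fintype.card V).factorial : ℝ) ^ 2 * ((2 : ℝ) / (Fintype.card V : ℝ)) ^ E.card := by
  set b : Fin 2 → ℕ := fun i => (E.filter (fun p => p.1 = i)).card with hb
  have hsplit : E.card = ∑ i, b i := d04_split E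
  have hbi : ∀ i, b i ≤ E.card := fun i => Finset.card_le_card (Finset.filter_subset _ _)
  have hsub : (Finset.univ.filter (fun ρ : Fin 2 → Equiv.Perm V => E ⊆ graphOf ρ)) ⊆
      Fintype.piFinset (fun i : Fin 2 => Finset.univ.filter (fun π : Equiv.Perm V =>
            ∀ p ∈ (E.filter (fun p => p.1 = i)).image (fun p => p.2), π p.1 = p.2)) := by
    intro ρ hρ
    rw [Finset.mem_filter] at hρ
    rw [Fintype.mem_piFinset]
    intro i
    rw [Finset.mem_filter]
    refine ⟨Finset.mem_univ _, ?_⟩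
    intro p hp
    rw [Finset.mem_image] at hp
    obtain ⟨e, he, rfl⟩ := hp
    rw [Finset.mem_filter] at he
    have h1 := hρ.2 he.1
    simp only [graphOf, Finset.mem_filter, Finset.mem_univ, true_and] at h1
    rw [he.2] at h1
    exact h1
  have h1 := Finset.card_le_card hsub
  rw [Fintype.card_piFinset] at h1
  have h2 : ∀ i : Fin 2, ((Finset.univ.filter (fun π : Equiv.Perm V =>
            ∀ p ∈ (E.filter (fun p => p.1 = i)).image (fun p => p.2), π p.1 = p.2)).card : ℝ) ≤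
      (2 / (Fintype.card V : ℝ)) ^ (b i) * ((Fintype.card V).factorial : ℝ) := by
    intro i
    have h3 := card_perm_le ((E.filter (fun p => p.1 = i)).image (fun p => p.2))
    rw [Finset.card_image_of_injOn] at h3
    · have h4 := factorial_sub_le (Fintype.card V) (Fintype.card V) (b i) le_rfl
        (by have := hbi i; omega)
      refine le_trans ?_ h4
      exact_mod_cast h3
    · intro p hp p' hp' h
      rw [Finset.mem_coe, Finset.mem_filter] at hp hp'
      exact Prod.ext (hp.2.trans hp'.2.symm) h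
  calc ((Finset.univ.filter (fun ρ : Fin 2 → Equiv.Perm V => E ⊆ graphOf ρ)).card : ℝ)
      ≤ ((∏ i : Fin 2, (Finset.univ.filter (fun π : Equiv.Perm V =>
            ∀ p ∈ (E.filter (fun p => p.1 = i)).image (fun p => p.2), π p.1 = p.2)).card : ℕ) : ℝ) :=
        Nat.cast_le.mpr h1
    _ = ∏ i : Fin 2, ((Finset.univ.filter (fun π : Equiv.Perm V =>
            ∀ p ∈ (E.filter (fun p => p.1 = i)).image (fun p => p.2), π p.1 = p.2)).card : ℝ) := by
        push_cast; rfl
    _ ≤ ∏ i : Fin 2, ((2 / (Fintype.card V : ℝ)) ^ (b i) * ((Fintype.card V).factorial : ℝ)) := by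
        apply Finset.prod_le_prod
        · intro i _; positivity
        · intro i _; exact h2 i
    _ = ((Fintype.card V).factorial : ℝ) ^ 2 * ((2 : ℝ) / (Fintype.card V : ℝ)) ^ E.card := by
        rw [Finset.prod_mul_distrib, Finset.prod_pow_eq_pow_sum, Finset.prod_const,
          Finset.card_univ, Fintype.card_fin, hsplit]
        ring

/-- The choice of `δ'` and `k` used for both boundary theorems. -/
theorem d04_params (t : ℕ) (δ : ℝ) (hδ : 0 < δ) : ∃ δ' : ℝ, 0 < δ' ∧ ∀ d : ℕ, 4 * t ≤ d →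
    ⌈δ' * d⌉₊ ≤ ⌈δ * d⌉₊ ∧ 2 * (t * ⌈δ' * d⌉₊) ≤ d ∧ δ' * d ≤ (⌈δ' * d⌉₊ : ℝ) := by
  refine ⟨min δ (1 / (4 * ((t : ℝ) + 1))), ?_, ?_⟩
  · apply lt_min hδ
    positivity
  · intro d hd
    set δ' := min δ (1 / (4 * ((t : ℝ) + 1)))
    have h1 : δ' ≤ δ := min_le_left _ _
    have h2 : δ' ≤ 1 / (4 * ((t : ℝ) + 1)) := min_le_right _ _
    have hd0 : (0 : ℝ) ≤ d := Nat.cast_nonneg _
    have hδ' : 0 < δ' := by
      apply lt_min hδ
      positivity
    refine ⟨Nat.ceil_mono (mul_le_mul_of_nonneg_right h1 hd0), ?_, Nat.le_ceil _⟩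
    have h3 : (⌈δ' * d⌉₊ : ℝ) < δ' * d + 1 := Nat.ceil_lt_add_one (by positivity)
    have h4 : δ' * (4 * ((t : ℝ) + 1)) ≤ 1 := by
      rw [le_div_iff₀ (by positivity)] at h2
      exact h2
    have h5 : (4 * t : ℝ) ≤ d := by exact_mod_cast hd
    have ht : (0 : ℝ) ≤ t := Nat.cast_nonneg _
    have h6 : (2 * (t * ⌈δ' * d⌉₊) : ℝ) ≤ d := by
      have a1 : (t : ℝ) * ⌈δ' * d⌉₊ ≤ t * (δ' * d + 1) := mul_le_mul_of_nonneg_left h3.le ht
      have a2 : (t : ℝ) * δ' ≤ 1 / 4 := by nlinarith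
      have a3 : (t : ℝ) * δ' * d ≤ 1 / 4 * d := mul_le_mul_of_nonneg_right a2 hd0
      nlinarith
    exact_mod_cast h6

open Classical in
/-- D1 (boundary).  Put `δ' = min δ (1 / (4 (t+1)))`, `k = ⌈δ' d⌉ ≤ ⌈δ d⌉` (`Few.mono`);
`2 t k ≤ d` for `d ≥ 4 t`.  `union_bound` with `κ = Fin 2`, `Γ = (Fin 2 → Perm)`, `G = graphOf`,
`B = (d!)^2` (`card_graph_ge`); a dense set `U` has
`|U| ≤ |inside univ U| = #{p ∈ graphOf ρ : p.2.1, p.2.2 ∈ U}`; `exists_disjoint_of_not_few`.  Then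
`final_numbers` with `C = t 2^(t + 2 t^2)`. -/
theorem few_pairs (t : ℕ) (δ c : ℝ) (hδ : 0 < δ) : ∃ d₀ : ℕ, ∀ d : ℕ, d₀ ≤ d →
    ((Finset.univ.filter (fun ρ : Fin 2 → Equiv.Perm (Fin d) =>
      ¬ Few (Dense ρ) t ⌈δ * d⌉₊)).card : ℝ) ≤ Real.exp (-(c * d)) * ((d.factorial : ℝ)) ^ 2 := by
  obtain ⟨δ', hδ', hpar⟩ := d04_params t δ hδ
  set C : ℝ := t * 2 ^ (t + Fintype.card (Fin 2) * t ^ 2) with hC
  obtain ⟨d₁, hd₁⟩ := final_numbers C δ' (max c 0) (by rw [hC]; positivity) hδ' (le_max_right _ _)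
  refine ⟨max d₁ (4 * t), ?_⟩
  intro d hd
  obtain ⟨hk1, hk2, hk3⟩ := hpar d ((le_max_right _ _).trans hd)
  set k := ⌈δ' * d⌉₊ with hk
  set S := (Finset.univ.filter (fun ρ : Fin 2 → Equiv.Perm (Fin d) =>
      ¬ Few (Dense ρ) t ⌈δ * d⌉₊)) with hS
  have hub := union_bound (κ := Fin 2) (V := Fin d) S graphOf ((d.factorial : ℝ) ^ 2)
    (by positivity) t k (by rw [Fintype.card_fin]; exact hk2) ?_ ?_
  · have hfin := hd₁ d ((le_max_left _ _).trans hd) k hk3
    have hkf : (0 : ℝ) < (k.factorial : ℝ) := by exact_mod_cast k.factorial_pos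
    have h1 : (S.card : ℝ) ≤ (d.factorial : ℝ) ^ 2 * (C ^ k / (k.factorial : ℝ)) := by
      rw [← mul_div_assoc, le_div_iff₀ hkf]
      exact hub
    have h2 : C ^ k / (k.factorial : ℝ) ≤ Real.exp (-(max c 0 * d)) := by
      refine le_trans ?_ hfin
      have hCk : 0 ≤ C ^ k / (k.factorial : ℝ) := by rw [hC]; positivity
      have h16 : (1 : ℝ) ≤ (16 : ℝ) ^ d := one_le_pow₀ (by norm_num)
      have hd1 : (1 : ℝ) ≤ (d : ℝ) + 1 := by
        have : (0 : ℝ) ≤ d := Nat.cast_nonneg _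
        linarith
      have h3 : (1 : ℝ) ≤ (16 : ℝ) ^ d * ((d : ℝ) + 1) := by nlinarith
      have h4 : (16 : ℝ) ^ d * (d + 1) * C ^ k / (k.factorial : ℝ) =
        (16 : ℝ) ^ d * (d + 1) * (C ^ k / (k.factorial : ℝ)) := by ring
      rw [h4]
      nlinarith
    have h5 : Real.exp (-(max c 0 * d)) ≤ Real.exp (-(c * d)) := by
      apply Real.exp_le_exp.mpr
      have : c * d ≤ max c 0 * d := mul_le_mul_of_nonneg_right (le_max_left _ _) (Nat.cast_nonneg _)
      linarith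
    calc (S.card : ℝ) ≤ (d.factorial : ℝ) ^ 2 * (C ^ k / (k.factorial : ℝ)) := h1
      _ ≤ (d.factorial : ℝ) ^ 2 * Real.exp (-(c * d)) :=
          mul_le_mul_of_nonneg_left (h2.trans h5) (by positivity)
      _ = Real.exp (-(c * d)) * (d.factorial : ℝ) ^ 2 := mul_comm _ _
  · intro E hE
    have hcg := card_graph_ge (Fin d) E hE
    refine le_trans (Nat.cast_le.mpr (Finset.card_le_card ?_)) (le_trans hcg ?_)
    · intro ρ hρ
      simp only [Finset.mem_filter, Finset.mem_univ, true_and] at hρ ⊢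
      exact hρ.2
    · rw [Fintype.card_fin]
  · intro ρ hρ
    rw [hS, Finset.mem_filter] at hρ
    have hnf : ¬ Few (Dense ρ) t k := by
      intro hf
      exact hρ.2 (Few.mono hf le_rfl hk1)
    obtain ⟨U, hU1, hU2⟩ := exists_disjoint_of_not_few _ _ _ hnf
    refine ⟨U, ?_, hU2⟩
    intro j
    obtain ⟨⟨hne, hden⟩, hcard⟩ := hU1 j
    refine ⟨hne, hcard, hden.trans ?_⟩
    apply Finset.card_le_card_of_injOn (fun e => (e.1, e.2, ρ e.1 e.2))
    · intro e he
      rw [Finset.mem_coe, inside, Finset.mem_filter] at he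
      rw [Finset.mem_coe, Finset.mem_filter]
      refine ⟨?_, he.2⟩
      simp only [graphOf, Finset.mem_filter, Finset.mem_univ, true_and]
    · intro e _ e' _ h
      simp only [Prod.mk.injEq] at h
      exact Prod.ext h.1 h.2.1

end H98T
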