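import Pool.Agent.Lib.H98T.D02
import Pool.Agent.Lib.H98T.L05
import Pool.Agent.Lib.H98T.L06

/-!
# H98T D05 (M): the code of a covering with a spanning tree
-/

namespace H98T

open Finset

/-- Codes: two sets of sides (the positive and the negative `F`-sides, `(i, x)` = side `i`,
respectively side `i + 2`, of `x`), the gluing of the other sides of kinds `0, 1`, and the gluing
permutations of the kinds `≥ 2`. -/
abbrev Code (g : ℕ) (V : Type*) :=
  (Finset (Fin 2 × V) × Finset (Fin 2 × V)) × Finset ((Fin 2 × V) × (Fin 2 × V)) ×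
    ({i : Fin (2 * g) // 2 ≤ i.val} → Equiv.Perm V)

variable {V : Type*} [Fintype V] [DecidableEq V] {g : ℕ}

/-- `Fin 2` as kinds. -/
def kd (hg : 1 ≤ g) (i : Fin 2) : Fin (2 * g) := ⟨i.val, by have := i.isLt; omega⟩

open Classical in
/-- The code of `σ` and `F`. -/
noncomputable def codeOf (hg : 1 ≤ g) (σ : Fin (2 * g) → Equiv.Perm V) (F : Finset (Fin 2 × V)) :
    Code g V :=
  ((Finset.univ.filter (fun a => Fside σ F (a.2, sp (kd hg a.1))),
    Finset.univ.filter (fun a => Fside σ F (a.2, sn (kd hg a.1)))),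
   Finset.univ.filter (fun p : (Fin 2 × V) × (Fin 2 × V) => p.1.1 = p.2.1 ∧
      ¬ Fside σ F (p.1.2, sp (kd hg p.1.1)) ∧ glue σ (kd hg p.1.1) p.1.2 = p.2.2),
   fun i => glue σ i.1)

/-- A valid code. -/
def CodeValid (c : Code g V) : Prop :=
  c.1.1.card + 1 = Fintype.card V ∧ IsBij (Finset.univ \ c.1.1) (Finset.univ \ c.1.2) c.2.1 ∧
    ∀ p ∈ c.2.1, p.1.1 = p.2.1

theorem d05_sp_val (hg : 1 ≤ g) (i : Fin 2) : (sp (kd hg i)).val = i.val := by
  have := i.isLt
  simp only [sp, kd]
  omega

/-- The positive side `i` of `x` is an `F`-side iff `(i, u i x) ∈ F`. -/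
theorem d05_Fside_sp (hg : 1 ≤ g) (σ : Fin (2 * g) → Equiv.Perm V) (F : Finset (Fin 2 × V))
    (i : Fin 2) (x : V) :
    Fside σ F (x, sp (kd hg i)) ↔ (i, u σ i.val x) ∈ F := by
  have hi := i.isLt
  have hsp := d05_sp_val hg i
  have he : edgeV σ (x, sp (kd hg i)) = u σ i.val x := by
    unfold edgeV
    simp only [hsp]
    rw [if_pos (by omega)]
  unfold Fside
  simp only [he, hsp]
  constructor
  · rintro ⟨j, -, hj, hm⟩
    have : i = j := by
      apply Fin.ext
      omega
    rw [this]
    rw [this] at hm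
    exact hm
  · intro h
    exact ⟨i, by omega, by omega, h⟩

theorem d05_Fside_sn (hg : 1 ≤ g) (σ : Fin (2 * g) → Equiv.Perm V) (F : Finset (Fin 2 × V))
    (i : Fin 2) (x : V) :
    Fside σ F (glue σ (kd hg i) x, sn (kd hg i)) ↔ Fside σ F (x, sp (kd hg i)) := by
  rw [← iota_sp, Fside_iota]

/-- The positive `F`-sides `(i, x)` correspond to the edges `(i, u i x)` of `F`, so their number is
`|F| = |V| - 1`.  The third component is the graph of the map `(i, x) ↦ (i, glue i x)` on the
complement of the positive `F`-sides; by `Fside_iota`, `iota_sp` it is a bijection onto the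
complement of the negative ones. -/
theorem codeValid_codeOf (hg : 1 ≤ g) (σ : Fin (2 * g) → Equiv.Perm V) (F : Finset (Fin 2 × V))
    (hF : IsSpanTree (two σ) F) : CodeValid (codeOf hg σ F) := by
  classical
  refine ⟨?_, ?_, ?_⟩
  · have h1 : (codeOf hg σ F).1.1.card = F.card := by
      apply Finset.card_bij (fun a _ => (a.1, u σ a.1.val a.2))
      · intro a ha
        simp only [codeOf, Finset.mem_filter, Finset.mem_univ, true_and] at ha
        exact (d05_Fside_sp hg σ F a.1 a.2).mp ha
      · intro a _ b _ hab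
        simp only [Prod.mk.injEq] at hab
        obtain ⟨h1, h2⟩ := hab
        rw [h1] at h2
        exact Prod.ext h1 ((u σ b.1.val).injective h2)
      · intro b hb
        refine ⟨(b.1, (u σ b.1.val)⁻¹ b.2), ?_, ?_⟩
        · simp only [codeOf, Finset.mem_filter, Finset.mem_univ, true_and]
          rw [d05_Fside_sp]
          simpa using hb
        · simp
    rw [h1]
    exact hF.2
  · refine ⟨?_, ?_, ?_, ?_⟩
    · ext a
      simp only [codeOf, Finset.mem_image, Finset.mem_filter, Finset.mem_univ, true_and,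
        Finset.mem_sdiff]
      constructor
      · rintro ⟨p, ⟨-, h2, -⟩, rfl⟩
        exact h2
      · intro h
        exact ⟨(a, (a.1, glue σ (kd hg a.1) a.2)), ⟨rfl, h, rfl⟩, rfl⟩
    · ext a
      simp only [codeOf, Finset.mem_image, Finset.mem_filter, Finset.mem_univ, true_and,
        Finset.mem_sdiff]
      constructor
      · rintro ⟨p, ⟨h1, h2, h3⟩, rfl⟩
        rw [← h3, ← h1, d05_Fside_sn]
        exact h2
      · intro h
        refine ⟨((a.1, (glue σ (kd hg a.1))⁻¹ a.2), a), ⟨rfl, ?_, by simp⟩, rfl⟩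
        intro hs
        apply h
        rw [← d05_Fside_sn] at hs
        simpa using hs
    · intro p hp p' hp' h
      simp only [codeOf, Finset.mem_filter, Finset.mem_univ, true_and] at hp hp'
      refine Prod.ext h (Prod.ext ?_ ?_)
      · rw [← hp.1, ← hp'.1, h]
      · rw [← hp.2.2, ← hp'.2.2, h]
    · intro p hp p' hp' h
      simp only [codeOf, Finset.mem_filter, Finset.mem_univ, true_and] at hp hp'
      have h1 : p.1.1 = p'.1.1 := by rw [hp.1, hp'.1, h]
      refine Prod.ext (Prod.ext h1 ?_) h
      have h2 := hp.2.2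
      have h3 := hp'.2.2
      rw [h1, h, ← h3] at h2
      exact (glue σ (kd hg p'.1.1)).injective h2
  · intro p hp
    simp only [codeOf, Finset.mem_filter, Finset.mem_univ, true_and] at hp
    exact hp.1

/-- INJECTIVITY.  Equal codes: the `F`-sides of `σ` and the `F'`-sides of `σ'` are the same, and off
them the gluings agree on the positive sides (kinds `0, 1`: third component, kinds `≥ 2`: fourth),
hence on the negative sides (`iota_iota`, `Fside_iota`).  By `leafPeel` `iota σ' = iota σ`, by
`iota_injective` `σ = σ'`. -/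
theorem codeOf_injective (hg : 1 ≤ g) (σ σ' : Fin (2 * g) → Equiv.Perm V)
    (F F' : Finset (Fin 2 × V)) (h : IsCov σ) (h' : IsCov σ') (hF : IsSpanTree (two σ) F)
    (hcode : codeOf hg σ F = codeOf hg σ' F') : σ = σ' := by
  classical
  have hpos : ∀ i (x : V), ¬ Fside σ F (x, sp i) → glue σ' i x = glue σ i x := by
    intro i x hx
    by_cases hi : 2 ≤ i.val
    · have h1 := congrArg (fun c : Code g V => c.2.2 ⟨i, hi⟩) hcode
      simp only [codeOf] at h1
      rw [h1]
    · have hi2 : i.val < 2 := by omega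
      have hkd : i = kd hg ⟨i.val, hi2⟩ := by
        apply Fin.ext; rfl
      have h1 : (codeOf hg σ F).2.1 = (codeOf hg σ' F').2.1 :=
        congrArg (fun c : Code g V => c.2.1) hcode
      have h2 : (((⟨i.val, hi2⟩ : Fin 2), x), ((⟨i.val, hi2⟩ : Fin 2), glue σ i x)) ∈
          (codeOf hg σ F).2.1 := by
        simp only [codeOf, Finset.mem_filter, Finset.mem_univ, true_and]
        rw [← hkd]
        exact ⟨hx, rfl⟩
      rw [h1] at h2
      simp only [codeOf, Finset.mem_filter, Finset.mem_univ, true_and] at h2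
      rw [← hkd] at h2
      exact h2.2
  have heq : ∀ c : V × Fin (4 * g), ¬ Fside σ F c → iota σ' c = iota σ c := by
    rintro ⟨x, s⟩ hc
    rcases eq_sp_or_sn s with hs | hs
    · rw [hs] at hc ⊢
      rw [iota_sp, iota_sp, hpos _ _ hc]
    · rw [hs] at hc ⊢
      rw [iota_sn, iota_sn]
      set i := gen s
      set y := (glue σ i)⁻¹ x with hy
      have hxy : x = glue σ i y := by rw [hy]; simp
      have h1 : ¬ Fside σ F (y, sp i) := by
        intro h1
        apply hc
        rw [hxy, ← iota_sp, Fside_iota]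
        exact h1
      have h2 := hpos i y h1
      have h3 : (glue σ' i)⁻¹ x = y := by
        rw [Equiv.Perm.inv_eq_iff_eq, h2, ← hxy]
      rw [h3]
  have h1 := leafPeel hg σ σ' h h' F hF.1 heq
  exact (iota_injective σ' σ h1).symm

end H98T
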