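import Pool.Agent.Lib.H98T.D01
import Pool.Agent.Lib.H98T.D05

/-!
# H98T D06 (M): the number of valid codes containing given triples
-/

namespace H98T

open Finset

variable {V : Type*} [Fintype V] [DecidableEq V] {g : ℕ}

open Classical in
/-- The triples of a code. -/
noncomputable def codeTriples (hg : 1 ≤ g) (c : Code g V) : Finset (Fin (2 * g) × V × V) :=
  Finset.univ.filter (fun p =>
    (∃ i : Fin 2, p.1 = kd hg i ∧ ((i, p.2.1), (i, p.2.2)) ∈ c.2.1) ∨
    (∃ h : 2 ≤ p.1.val, c.2.2 ⟨p.1, h⟩ p.2.1 = p.2.2))

theorem d06_card_sub (hg : 1 ≤ g) : Fintype.card {i : Fin (2 * g) // 2 ≤ i.val} = 2 * g - 2 := by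
  rw [Fintype.card_subtype]
  have h1 : (Finset.univ.filter (fun i : Fin (2 * g) => 2 ≤ i.val)) =
      Finset.univ \ (Finset.univ.image (kd hg)) := by
    ext i
    simp only [Finset.mem_filter, Finset.mem_univ, true_and, Finset.mem_sdiff, Finset.mem_image]
    constructor
    · rintro h ⟨j, rfl⟩
      have := j.isLt
      simp only [kd] at h
      omega
    · intro h
      by_contra hlt
      exact h ⟨⟨i.val, by omega⟩, rfl⟩
  rw [h1, Finset.card_sdiff_of_subset (Finset.subset_univ _), Finset.card_univ, Fintype.card_fin,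
    Finset.card_image_of_injective, Finset.card_univ, Fintype.card_fin]
  intro i j h
  have := congrArg Fin.val h
  simp only [kd] at this
  exact Fin.ext this

open Classical in
theorem d06_fiber (hg : 1 ≤ g) (E : Finset (Fin (2 * g) × V × V))
    (S : Finset (Code g V))
    (hS : ∀ c ∈ S, CodeValid c ∧ E ⊆ codeTriples hg c) (AB : Finset (Fin 2 × V) × Finset (Fin 2 × V))
    (hAB : ∀ c ∈ S, c.1 = AB) :
    S.card ≤ (Fintype.card V + 1 - (E.filter (fun p => p.1.val < 2)).card).factorial *
      ∏ i : {i : Fin (2 * g) // 2 ≤ i.val},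
        (Fintype.card V - (E.filter (fun p => p.1 = i.1)).card).factorial := by
  rcases S.eq_empty_or_nonempty with h0 | hne
  · rw [h0]; simp
  obtain ⟨c₀, hc₀⟩ := hne
  have hA : AB.1.card + 1 = Fintype.card V := by
    have := (hS c₀ hc₀).1.1
    rw [hAB c₀ hc₀] at this
    exact this
  have hsub : S ⊆ ({AB} : Finset _) ×ˢ ((S.image (fun c => c.2.1)) ×ˢ (S.image (fun c => c.2.2))) := by
    intro c hc
    simp only [Finset.mem_product, Finset.mem_singleton, Finset.mem_image]
    exact ⟨hAB c hc, ⟨c, hc, rfl⟩, ⟨c, hc, rfl⟩⟩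
  have hcard := Finset.card_le_card hsub
  rw [Finset.card_product, Finset.card_product, Finset.card_singleton, one_mul] at hcard
  refine hcard.trans (Nat.mul_le_mul ?_ ?_)
  · -- bijections
    let φ : Fin (2 * g) × V × V → (Fin 2 × V) × (Fin 2 × V) := fun p =>
      ((⟨p.1.val % 2, Nat.mod_lt _ (by norm_num)⟩, p.2.1),
       (⟨p.1.val % 2, Nat.mod_lt _ (by norm_num)⟩, p.2.2))
    set E' := (E.filter (fun p => p.1.val < 2)).image φ with hE'
    have hE'card : E'.card = (E.filter (fun p => p.1.val < 2)).card := by
      rw [hE', Finset.card_image_of_injOn]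
      intro p hp p' hp' h
      rw [Finset.mem_coe, Finset.mem_filter] at hp hp'
      simp only [φ, Prod.mk.injEq, Fin.mk.injEq] at h
      refine Prod.ext (Fin.ext ?_) (Prod.ext h.1.2 h.2.2)
      have h1 := h.1.1
      have h2 := hp.2
      have h3 := hp'.2
      omega
    have hb := card_bij_le (Finset.univ \ AB.1) (Finset.univ \ AB.2) E' (S.image (fun c => c.2.1)) (by
      intro Γ hΓ
      rw [Finset.mem_image] at hΓ
      obtain ⟨c, hc, rfl⟩ := hΓ
      refine ⟨?_, ?_⟩
      · intro p hp
        rw [hE', Finset.mem_image] at hp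
        obtain ⟨e, he, rfl⟩ := hp
        rw [Finset.mem_filter] at he
        have h1 := (hS c hc).2 he.1
        simp only [codeTriples, Finset.mem_filter, Finset.mem_univ, true_and] at h1
        rcases h1 with ⟨i, hi, hm⟩ | ⟨h2, -⟩
        · have : (⟨e.1.val % 2, Nat.mod_lt _ (by norm_num)⟩ : Fin 2) = i := by
            apply Fin.ext
            have hi' := i.isLt
            have := congrArg Fin.val hi
            simp only [kd] at this
            simp only [this]
            omega
          simp only [φ, this]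
          exact hm
        · omega
      · have h1 := (hS c hc).1.2.1
        rw [hAB c hc] at h1
        exact h1)
    have hD : (Finset.univ \ AB.1 : Finset (Fin 2 × V)).card = Fintype.card V + 1 := by
      rw [Finset.card_sdiff_of_subset (Finset.subset_univ _), Finset.card_univ, Fintype.card_prod,
        Fintype.card_fin]
      omega
    rw [hD, hE'card] at hb
    exact hb
  · -- permutations
    have hsub2 : S.image (fun c => c.2.2) ⊆
        Fintype.piFinset (fun i : {i : Fin (2 * g) // 2 ≤ i.val} =>
          Finset.univ.filter (fun π : Equiv.Perm V =>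
            ∀ p ∈ (E.filter (fun p => p.1 = i.1)).image (fun p => p.2), π p.1 = p.2)) := by
      intro f hf
      rw [Finset.mem_image] at hf
      obtain ⟨c, hc, rfl⟩ := hf
      rw [Fintype.mem_piFinset]
      intro i
      rw [Finset.mem_filter]
      refine ⟨Finset.mem_univ _, ?_⟩
      intro p hp
      rw [Finset.mem_image] at hp
      obtain ⟨e, he, rfl⟩ := hp
      rw [Finset.mem_filter] at he
      have h1 := (hS c hc).2 he.1
      simp only [codeTriples, Finset.mem_filter, Finset.mem_univ, true_and] at h1
      rcases h1 with ⟨j, hj, -⟩ | ⟨h2, hm⟩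
      · exfalso
        have hj' := j.isLt
        have h3 := congrArg Fin.val hj
        simp only [kd] at h3
        have h4 := i.2
        rw [← he.2] at h4
        omega
      · have : (⟨e.1, h2⟩ : {i : Fin (2 * g) // 2 ≤ i.val}) = i := Subtype.ext he.2
        rw [this] at hm
        exact hm
    refine (Finset.card_le_card hsub2).trans ?_
    rw [Fintype.card_piFinset]
    apply Finset.prod_le_prod'
    intro i _
    have h1 := card_perm_le ((E.filter (fun p => p.1 = i.1)).image (fun p => p.2))
    rw [Finset.card_image_of_injOn] at h1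
    · convert h1
    · intro p hp p' hp' h
      rw [Finset.mem_coe, Finset.mem_filter] at hp hp'
      exact Prod.ext (hp.2.trans hp'.2.symm) h

open Classical in
theorem d06_split (E : Finset (Fin (2 * g) × V × V)) :
    E.card = (E.filter (fun p => p.1.val < 2)).card +
      ∑ i : {i : Fin (2 * g) // 2 ≤ i.val}, (E.filter (fun p => p.1 = i.1)).card := by
  rw [← Finset.card_filter_add_card_filter_not (s := E) (fun p => p.1.val < 2)]
  congr 1
  rw [← Finset.card_biUnion]
  · congr 1
    ext p
    simp only [Finset.mem_filter, Finset.mem_biUnion, Finset.mem_univ, true_and]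
    constructor
    · rintro ⟨h1, h2⟩
      exact ⟨⟨p.1, by omega⟩, h1, rfl⟩
    · rintro ⟨i, h1, h2⟩
      refine ⟨h1, ?_⟩
      have := i.2
      rw [← h2] at this
      omega
  · intro i _ j _ hij
    rw [Function.onFun, Finset.disjoint_left]
    intro p hp hp'
    rw [Finset.mem_filter] at hp hp'
    exact hij (Subtype.ext (hp.2.symm.trans hp'.2))

open Classical in
/-- Let `E_i` be the triples of `E` of kind `i`, `m_01 = |E_0| + |E_1|`.  A code is a choice of the
two sets of sides (at most `16^d` pairs), a graph of a bijection with domain of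
`2 d - (d - 1) = d + 1` elements containing the `m_01` prescribed pairs (`card_bij_le`:
`≤ (d + 1 - m_01)!`), and for every kind `i ≥ 2` a permutation with the pairs of `E_i`
(`card_perm_le`: `≤ (d - |E_i|)!`). With `factorial_sub_le` (`n = d + 1` and `n = d`), as there are
`2 g - 2` kinds `≥ 2` and `(d+1)! = (d + 1) d!`. -/
theorem card_codes_le (hg : 1 ≤ g) (E : Finset (Fin (2 * g) × V × V))
    (hE : 2 * E.card ≤ Fintype.card V) (S : Finset (Code g V))
    (hS : ∀ c ∈ S, CodeValid c ∧ E ⊆ codeTriples hg c) :
    (S.card : ℝ) ≤ (16 : ℝ) ^ (Fintype.card V) * ((Fintype.card V : ℝ) + 1) *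
      ((Fintype.card V).factorial : ℝ) ^ (2 * g - 1) *
      ((2 : ℝ) / (Fintype.card V : ℝ)) ^ E.card := by
  set d := Fintype.card V with hd
  set m := (E.filter (fun p => p.1.val < 2)).card with hm
  set b : {i : Fin (2 * g) // 2 ≤ i.val} → ℕ := fun i => (E.filter (fun p => p.1 = i.1)).card with hb
  have hsplit : E.card = m + ∑ i, b i := d06_split E
  have hbi : ∀ i, b i ≤ E.card := fun i => Finset.card_le_card (Finset.filter_subset _ _)
  have hmE : m ≤ E.card := Finset.card_le_card (Finset.filter_subset _ _)
  -- fibres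
  have h1 : S.card ≤ ∑ AB : Finset (Fin 2 × V) × Finset (Fin 2 × V),
      (d + 1 - m).factorial * ∏ i, (d - b i).factorial := by
    rw [Finset.card_eq_sum_card_fiberwise (f := fun c : Code g V => c.1) (t := Finset.univ)
      (fun _ _ => Finset.mem_coe.mpr (Finset.mem_univ _))]
    apply Finset.sum_le_sum
    intro AB _
    apply d06_fiber hg E (S.filter (fun c => c.1 = AB)) _ AB
    · intro c hc
      exact (Finset.mem_filter.mp hc).2
    · intro c hc
      exact hS c (Finset.mem_filter.mp hc).1
  rw [Finset.sum_const, Finset.card_univ, Fintype.card_prod, Fintype.card_finset,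
    Fintype.card_prod, Fintype.card_fin, smul_eq_mul] at h1
  have h2 : (2 ^ (2 * Fintype.card V) * 2 ^ (2 * Fintype.card V) : ℕ) = 16 ^ d := by
    rw [← hd, ← pow_add, show (16 : ℕ) = 2 ^ 4 by norm_num, ← pow_mul]
    congr 1
    omega
  rw [h2] at h1
  have h3 : ((d + 1 - m).factorial : ℝ) ≤ (2 / d) ^ m * ((d + 1).factorial : ℝ) :=
    factorial_sub_le d (d + 1) m (by omega) (by omega)
  have h4 : (∏ i, ((d - b i).factorial : ℝ)) ≤ ∏ i, ((2 / (d : ℝ)) ^ (b i) * (d.factorial : ℝ)) := by
    apply Finset.prod_le_prod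
    · intro i _; positivity
    · intro i _
      exact factorial_sub_le d d (b i) le_rfl (by have := hbi i; omega)
  rw [Finset.prod_mul_distrib, Finset.prod_pow_eq_pow_sum, Finset.prod_const, Finset.card_univ,
    d06_card_sub hg] at h4
  calc (S.card : ℝ) ≤ ((16 ^ d * ((d + 1 - m).factorial * ∏ i, (d - b i).factorial) : ℕ) : ℝ) :=
        Nat.cast_le.mpr h1
    _ = (16 : ℝ) ^ d * (((d + 1 - m).factorial : ℝ) * ∏ i, ((d - b i).factorial : ℝ)) := by
        push_cast; rfl
    _ ≤ (16 : ℝ) ^ d * (((2 / d) ^ m * ((d + 1).factorial : ℝ)) *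
        ((2 / (d : ℝ)) ^ (∑ i, b i) * (d.factorial : ℝ) ^ (2 * g - 2))) := by
        apply mul_le_mul_of_nonneg_left _ (by positivity)
        apply mul_le_mul h3 h4
        · apply Finset.prod_nonneg; intro i _; positivity
        · positivity
    _ = (16 : ℝ) ^ d * ((d : ℝ) + 1) * ((d.factorial : ℝ) ^ (2 * g - 1)) *
        ((2 : ℝ) / (d : ℝ)) ^ E.card := by
        rw [hsplit, pow_add, show 2 * g - 1 = (2 * g - 2) + 1 by omega, pow_succ,
          Nat.factorial_succ]
        push_cast
        ring

theorem d06_pos_eq_sp (s : Fin (4 * g)) (h : s.val % 4 < 2) : s = sp (gen s) := by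
  apply Fin.ext
  simp only [sp, gen]
  omega

/-- The sides of the polygons of `U` which are glued inside `U` and are not `F`-sides: there are at
least `2 |U|`, and `iota` exchanges the positive and the negative ones (`iota_iota`,
`partner_pos_iff`, `Fside_iota`), so at least `|U|` are positive, and a positive one `(x, sp i)`
gives the triple `(i, x, glue i x)` of the code. -/
theorem card_triples_ge (hg : 1 ≤ g) (σ : Fin (2 * g) → Equiv.Perm V) (F : Finset (Fin 2 × V))
    (U : Finset V) (hU : FDense σ F U) :
    U.card ≤ ((codeTriples hg (codeOf hg σ F)).filter (fun p => p.2.1 ∈ U ∧ p.2.2 ∈ U)).card := by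
  classical
  set A := ((Finset.univ : Finset (V × Fin (4 * g))).filter
    (fun c => c.1 ∈ U ∧ (iota σ c).1 ∈ U ∧ ¬ Fside σ F c)) with hA
  have hU2 : 2 * U.card ≤ A.card := by
    have := hU.2
    convert this
  have h1 := Finset.card_filter_add_card_filter_not (s := A) (fun c => c.2.val % 4 < 2)
  have h2 : (A.filter (fun c => ¬ c.2.val % 4 < 2)).card ≤
      (A.filter (fun c => c.2.val % 4 < 2)).card := by
    apply Finset.card_le_card_of_injOn (iota σ)
    · intro c hc
      rw [Finset.mem_coe, Finset.mem_filter, hA, Finset.mem_filter] at hc ⊢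
      obtain ⟨⟨-, h1, h2, h3⟩, h4⟩ := hc
      refine ⟨⟨Finset.mem_univ _, h2, ?_, ?_⟩, ?_⟩
      · rw [iota_iota]; exact h1
      · rw [Fside_iota]; exact h3
      · exact (partner_pos_iff c.2).mpr h4
    · intro c _ c' _ h
      have := congrArg (iota σ) h
      rwa [iota_iota, iota_iota] at this
  have h3 : (A.filter (fun c => c.2.val % 4 < 2)).card ≤
      ((codeTriples hg (codeOf hg σ F)).filter (fun p => p.2.1 ∈ U ∧ p.2.2 ∈ U)).card := by
    apply Finset.card_le_card_of_injOn (fun c => (gen c.2, c.1, (iota σ c).1))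
    · intro c hc
      rw [Finset.mem_coe, Finset.mem_filter, hA, Finset.mem_filter] at hc
      obtain ⟨⟨-, h1, h2, h3⟩, h4⟩ := hc
      rw [Finset.mem_coe, Finset.mem_filter]
      refine ⟨?_, h1, h2⟩
      have hsp := d06_pos_eq_sp c.2 h4
      have hc' : c = (c.1, sp (gen c.2)) := by rw [← hsp]
      have hi : (iota σ c).1 = glue σ (gen c.2) c.1 := by
        conv_lhs => rw [hc']
        rw [iota_sp]
      simp only [codeTriples, Finset.mem_filter, Finset.mem_univ, true_and]
      by_cases hk : 2 ≤ (gen c.2).val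
      · right
        refine ⟨hk, ?_⟩
        rw [hi]
        rfl
      · left
        have hkd : gen c.2 = kd hg ⟨(gen c.2).val, by omega⟩ := by
          apply Fin.ext; rfl
        refine ⟨⟨(gen c.2).val, by omega⟩, hkd, ?_⟩
        simp only [codeOf, Finset.mem_filter, Finset.mem_univ, true_and]
        rw [← hkd, ← hsp]
        exact ⟨h3, hi.symm⟩
    · intro c hc c' hc' h
      rw [Finset.mem_coe, Finset.mem_filter] at hc hc'
      simp only [Prod.mk.injEq] at h
      refine Prod.ext h.2.1 ?_
      rw [d06_pos_eq_sp c.2 hc.2, d06_pos_eq_sp c'.2 hc'.2, h.1]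
  omega

end H98T
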