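import Pool.Agent.Lib.H98T.D03
import Pool.Agent.Lib.H98T.D04
import Pool.Agent.Lib.H98T.D06
import Pool.Agent.Lib.H98T.F13

/-!
# H98T D07 (M): coverings with many disjoint F-dense sets (D2 of PROOF.md)
-/

namespace H98T

open Finset

open Classical in
/-- D2 (boundary).  `δ'`, `k` as in `few_pairs`.  For every `σ` of the set choose `F`; the codes
`codeOf σ F` are different (`codeOf_injective`) and valid (`codeValid_codeOf`).  `union_bound` with
`κ = Fin (2 g)`, `Γ = Code g (Fin d)`, `S` = the set of these codes, `G = codeTriples`,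
`B = 16^d (d + 1) (d!)^(2g-1)` (`card_codes_le`), `card_triples_ge`,
`exists_disjoint_of_not_few`.  Then `final_numbers` with `C = t 2^(t + 2 g t^2)`. -/
theorem few_cov {g : ℕ} (hg : 1 ≤ g) (t : ℕ) (δ c : ℝ) (hδ : 0 < δ) : ∃ d₀ : ℕ, ∀ d : ℕ, d₀ ≤ d →
    ((Finset.univ.filter (fun σ : Fin (2 * g) → Equiv.Perm (Fin d) =>
      IsCov σ ∧ ∃ F : Finset (Fin 2 × Fin d), IsSpanTree (two σ) F ∧
        ¬ Few (FDense σ F) t ⌈δ * d⌉₊)).card : ℝ) ≤
      Real.exp (-(c * d)) * ((d.factorial : ℝ)) ^ (2 * g - 1) := by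
  obtain ⟨δ', hδ', hpar⟩ := d04_params t δ hδ
  set C : ℝ := t * 2 ^ (t + Fintype.card (Fin (2 * g)) * t ^ 2) with hC
  obtain ⟨d₁, hd₁⟩ := final_numbers C δ' (max c 0) (by rw [hC]; positivity) hδ' (le_max_right _ _)
  refine ⟨max d₁ (4 * t), ?_⟩
  intro d hd
  obtain ⟨hk1, hk2, hk3⟩ := hpar d ((le_max_right _ _).trans hd)
  set k := ⌈δ' * d⌉₊ with hk
  set S := (Finset.univ.filter (fun σ : Fin (2 * g) → Equiv.Perm (Fin d) =>
      IsCov σ ∧ ∃ F : Finset (Fin 2 × Fin d), IsSpanTree (two σ) F ∧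
        ¬ Few (FDense σ F) t ⌈δ * d⌉₊)) with hS
  -- the chosen trees
  have hch : ∀ σ : Fin (2 * g) → Equiv.Perm (Fin d), ∃ F : Finset (Fin 2 × Fin d), σ ∈ S →
      IsCov σ ∧ IsSpanTree (two σ) F ∧ ¬ Few (FDense σ F) t ⌈δ * d⌉₊ := by
    intro σ
    by_cases h : σ ∈ S
    · have h' := h
      rw [hS, Finset.mem_filter] at h'
      obtain ⟨-, h1, F, h2, h3⟩ := h'
      exact ⟨F, fun _ => ⟨h1, h2, h3⟩⟩
    · exact ⟨∅, fun h' => absurd h' h⟩
  choose T hT using hch
  set SC : Finset (Code g (Fin d)) := S.image (fun σ => codeOf hg σ (T σ)) with hSC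
  have hcard : SC.card = S.card := by
    rw [hSC, Finset.card_image_of_injOn]
    intro σ hσ σ' hσ' h
    have h1 := hT σ hσ
    have h2 := hT σ' hσ'
    exact codeOf_injective hg σ σ' (T σ) (T σ') h1.1 h2.1 h1.2.1 h
  have hub := union_bound (κ := Fin (2 * g)) (V := Fin d) SC (codeTriples hg)
    ((16 : ℝ) ^ d * ((d : ℝ) + 1) * (d.factorial : ℝ) ^ (2 * g - 1))
    (by positivity) t k (by rw [Fintype.card_fin]; exact hk2) ?_ ?_
  · have hfin := hd₁ d ((le_max_left _ _).trans hd) k hk3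
    have hkf : (0 : ℝ) < (k.factorial : ℝ) := by exact_mod_cast k.factorial_pos
    rw [hcard] at hub
    have h1 : (S.card : ℝ) ≤ (16 : ℝ) ^ d * ((d : ℝ) + 1) * (d.factorial : ℝ) ^ (2 * g - 1) *
        C ^ k / (k.factorial : ℝ) := by
      rw [le_div_iff₀ hkf]
      exact hub
    have h5 : Real.exp (-(max c 0 * d)) ≤ Real.exp (-(c * d)) := by
      apply Real.exp_le_exp.mpr
      have : c * d ≤ max c 0 * d := mul_le_mul_of_nonneg_right (le_max_left _ _) (Nat.cast_nonneg _)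
      linarith
    calc (S.card : ℝ) ≤ (16 : ℝ) ^ d * ((d : ℝ) + 1) * (d.factorial : ℝ) ^ (2 * g - 1) *
          C ^ k / (k.factorial : ℝ) := h1
      _ = ((16 : ℝ) ^ d * (d + 1) * C ^ k / (k.factorial : ℝ)) * (d.factorial : ℝ) ^ (2 * g - 1) := by
          ring
      _ ≤ Real.exp (-(c * d)) * (d.factorial : ℝ) ^ (2 * g - 1) :=
          mul_le_mul_of_nonneg_right (hfin.trans h5) (by positivity)
  · intro E hE
    have hcc := card_codes_le hg E hE (SC.filter (fun γ => E ⊆ codeTriples hg γ)) (by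
      intro c hc
      rw [Finset.mem_filter, hSC, Finset.mem_image] at hc
      obtain ⟨⟨σ, hσ, rfl⟩, h2⟩ := hc
      exact ⟨codeValid_codeOf hg σ (T σ) (hT σ hσ).2.1, h2⟩)
    refine le_trans (Nat.cast_le.mpr (Finset.card_le_card ?_)) (le_trans hcc ?_)
    · intro γ hγ
      simp only [Finset.mem_filter] at hγ ⊢
      exact hγ
    · rw [Fintype.card_fin]
  · intro c hc
    rw [hSC, Finset.mem_image] at hc
    obtain ⟨σ, hσ, rfl⟩ := hc
    have h1 := hT σ hσ
    have hnf : ¬ Few (FDense σ (T σ)) t k := by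
      intro hf
      exact h1.2.2 (Few.mono hf le_rfl hk1)
    obtain ⟨U, hU1, hU2⟩ := exists_disjoint_of_not_few _ _ _ hnf
    refine ⟨U, ?_, hU2⟩
    intro j
    obtain ⟨hden, hcard'⟩ := hU1 j
    refine ⟨hden.1, hcard', ?_⟩
    have h3 := card_triples_ge hg σ (T σ) (U j) hden
    refine h3.trans (Finset.card_le_card ?_)
    intro p hp
    simp only [Finset.mem_filter] at hp ⊢
    exact hp

end H98T
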