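import Pool.Agent.Lib.H98T.HDefs

/-! # H03: commutator equations have at most |G| k(G) solutions -/

namespace H98T

open Finset

/-- PROOF. For fixed `a`: the `b` with `b⁻¹ a⁻¹ b a = z` satisfy `b⁻¹ a⁻¹ b = z a⁻¹`; if `b₀` is one of them,
`b ↦ b * b₀⁻¹` maps them injectively to the centralizer of `a⁻¹` (equivalently of `a`). So
`nn z ≤ ∑ a, #{c | Commute c a} = #{(a, c) commuting} = #ConjClasses * |G|`
(`card_comm_eq_card_conjClasses_mul_card`). -/
theorem nn_le {G : Type*} [Group G] [Fintype G] (z : G) :
    nn z ≤ Nat.card (ConjClasses G) * Fintype.card G := by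
  classical
  rw [← Nat.card_eq_fintype_card (α := G), ← card_comm_eq_card_conjClasses_mul_card]
  unfold nn
  have h1 : Nat.card {p : G × G // Commute p.1 p.2} =
      (univ.filter fun p : G × G => Commute p.1 p.2).card := by
    rw [Nat.card_eq_fintype_card, Fintype.card_subtype]
  rw [h1, Finset.card_filter, Finset.card_filter, Fintype.sum_prod_type, Fintype.sum_prod_type]
  refine Finset.sum_le_sum (fun a _ => ?_)
  rw [← Finset.card_filter, ← Finset.card_filter]
  rcases (univ.filter fun b : G => cm a b = z).eq_empty_or_nonempty with h | ⟨b₀, hb₀⟩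
  · simp only [h, Finset.card_empty]
    exact Nat.zero_le _
  · refine Finset.card_le_card_of_injOn (fun b => b * b₀⁻¹) ?_ ?_
    · intro b hb
      rw [Finset.mem_coe, Finset.mem_filter] at hb
      rw [Finset.mem_filter] at hb₀
      rw [Finset.mem_coe, Finset.mem_filter]
      refine ⟨Finset.mem_univ _, ?_⟩
      have h2 : cm a b = cm a b₀ := hb.2.trans hb₀.2.symm
      unfold cm at h2
      have h3 : b⁻¹ * a⁻¹ * b = b₀⁻¹ * a⁻¹ * b₀ := mul_right_cancel h2
      have h4 : Commute a⁻¹ (b * b₀⁻¹) := by
        show a⁻¹ * (b * b₀⁻¹) = b * b₀⁻¹ * a⁻¹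
        calc a⁻¹ * (b * b₀⁻¹) = b * (b⁻¹ * a⁻¹ * b) * b₀⁻¹ := by group
          _ = b * (b₀⁻¹ * a⁻¹ * b₀) * b₀⁻¹ := by rw [h3]
          _ = b * b₀⁻¹ * a⁻¹ := by group
      exact (Commute.inv_left_iff).1 h4
    · intro b _ b' _ hbb
      exact mul_right_cancel hbb

/-- PROOF. Conjugacy classes of permutations are determined by the partition
(`Equiv.Perm.partition_eq_of_isConj` / `isConj_iff_cycleType_eq`); partitions of `d` are images of
compositions (`Nat.Partition.ofComposition_surj`), `composition_card : 2 ^ (d - 1)`. -/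
theorem card_conjClasses_le (d : ℕ) : Nat.card (ConjClasses (Equiv.Perm (Fin d))) ≤ 2 ^ d := by
  classical
  have hinj : Function.Injective (fun c : ConjClasses (Equiv.Perm (Fin d)) =>
      (Quotient.out c).partition) := by
    intro c c' h
    have h1 : IsConj (Quotient.out c) (Quotient.out c') := Equiv.Perm.partition_eq_of_isConj.2 h
    have h2 : ConjClasses.mk (Quotient.out c) = ConjClasses.mk (Quotient.out c') :=
      ConjClasses.mk_eq_mk_iff_isConj.2 h1
    have h3 : ∀ c : ConjClasses (Equiv.Perm (Fin d)), ConjClasses.mk (Quotient.out c) = c :=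
      fun c => Quotient.out_eq c
    rw [h3, h3] at h2
    exact h2
  have h1 : Nat.card (ConjClasses (Equiv.Perm (Fin d))) ≤
      Nat.card ((Fintype.card (Fin d)).Partition) := Nat.card_le_card_of_injective _ hinj
  have h2 : Nat.card ((Fintype.card (Fin d)).Partition) ≤
      Nat.card (Composition (Fintype.card (Fin d))) :=
    Nat.card_le_card_of_surjective _ Nat.Partition.ofComposition_surj
  have h3 : Nat.card (Composition (Fintype.card (Fin d))) = 2 ^ (d - 1) := by
    rw [Nat.card_eq_fintype_card, composition_card, Fintype.card_fin]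
  calc Nat.card (ConjClasses (Equiv.Perm (Fin d))) ≤ 2 ^ (d - 1) := by
        rw [← h3]
        exact h1.trans h2
    _ ≤ 2 ^ d := Nat.pow_le_pow_right (by norm_num) (by omega)

end H98T
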