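import Pool.Agent.Lib.H98T.H02
import Pool.Agent.Lib.H98T.H03

/-! # H04: upper bound for the number of covers -/

namespace H98T

open Finset

/-- PROOF. `g = m + 2`. `cnt_succ` at `x = 1`:
`cnt Q (m + 2) 1 = ∑ p, cnt Q (m + 1) (cm p)⁻¹ = ∑ y, cnt Q (m + 1) y * nn y⁻¹`
(`Finset.sum_fiberwise`), `nn_le`, `card_conjClasses_le`, `sum_cnt`, `Fintype.card_perm`. -/
theorem cnt_le {d : ℕ} (Q : (Fin 2 → Equiv.Perm (Fin d)) → Prop) (m : ℕ) :
    cnt Q (m + 2) 1 ≤ cnt2 Q * d.factorial ^ (2 * m) * (2 ^ d * d.factorial) := by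
  classical
  have hcard : Fintype.card (Equiv.Perm (Fin d)) = d.factorial := by
    rw [Fintype.card_perm, Fintype.card_fin]
  have h1 : cnt Q (m + 2) 1 =
      ∑ p : Equiv.Perm (Fin d) × Equiv.Perm (Fin d), cnt Q (m + 1) ((cm p.1 p.2)⁻¹ * 1) :=
    cnt_succ Q (by omega) 1
  have h2 : ∑ p : Equiv.Perm (Fin d) × Equiv.Perm (Fin d), cnt Q (m + 1) ((cm p.1 p.2)⁻¹ * 1) =
      ∑ y : Equiv.Perm (Fin d), ∑ p ∈ (Finset.univ : Finset (Equiv.Perm (Fin d) ×
        Equiv.Perm (Fin d))).filter (fun p => cm p.1 p.2 = y), cnt Q (m + 1) (y⁻¹) := by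
    rw [← Finset.sum_fiberwise (Finset.univ : Finset (Equiv.Perm (Fin d) × Equiv.Perm (Fin d)))
      (fun p => cm p.1 p.2)]
    refine Finset.sum_congr rfl (fun y _ => Finset.sum_congr rfl (fun p hp => ?_))
    rw [Finset.mem_filter] at hp
    rw [hp.2, mul_one]
  rw [h1, h2]
  calc ∑ y : Equiv.Perm (Fin d), ∑ p ∈ (Finset.univ : Finset (Equiv.Perm (Fin d) ×
        Equiv.Perm (Fin d))).filter (fun p => cm p.1 p.2 = y), cnt Q (m + 1) (y⁻¹)
      ≤ ∑ y : Equiv.Perm (Fin d), (2 ^ d * d.factorial) * cnt Q (m + 1) (y⁻¹) := by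
        refine Finset.sum_le_sum (fun y _ => ?_)
        rw [Finset.sum_const, smul_eq_mul]
        refine Nat.mul_le_mul_right _ ?_
        have h3 := nn_le (G := Equiv.Perm (Fin d)) y
        have h4 := card_conjClasses_le d
        rw [hcard] at h3
        refine le_trans ?_ (h3.trans (Nat.mul_le_mul_right _ h4))
        unfold nn
        refine le_of_eq ?_
        congr 1
        ext p
        simp only [Finset.mem_filter]
    _ = (2 ^ d * d.factorial) * ∑ y : Equiv.Perm (Fin d), cnt Q (m + 1) y := by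
        rw [← Finset.mul_sum]
        congr 1
        exact Equiv.sum_comp (Equiv.inv (Equiv.Perm (Fin d))) (fun y => cnt Q (m + 1) y)
    _ = cnt2 Q * d.factorial ^ (2 * m) * (2 ^ d * d.factorial) := by
        rw [sum_cnt, hcard]
        ring

open Classical in
/-- Boundary theorem `hom_upper`. PROOF. `cnt_le` with `g = m + 2`, `cnt_one`. -/
theorem hom_upper {g : ℕ} (hg : 2 ≤ g) {d : ℕ} (Q : (Fin 2 → Equiv.Perm (Fin d)) → Prop) :
    (univ.filter fun σ : Fin (2 * g) → Equiv.Perm (Fin d) => IsCov σ ∧ Q (two σ)).card ≤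
      (univ.filter fun ρ : Fin 2 → Equiv.Perm (Fin d) => Q ρ).card *
        d.factorial ^ (2 * g - 4) * 2 ^ d * d.factorial := by
  obtain ⟨m, rfl⟩ : ∃ m, g = m + 2 := ⟨g - 2, by omega⟩
  rw [← cnt_one]
  refine (cnt_le Q m).trans (le_of_eq ?_)
  have h : 2 * (m + 2) - 4 = 2 * m := by omega
  rw [h]
  unfold cnt2
  ring

end H98T
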