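import Mathlib
import Pool.Agent.Lib.H98T.Defs

set_option autoImplicit false

/-!
# H98T: digitized polygon complexes (`PROOF.md`, section 0)
-/

namespace H98T

open Finset

/-- Two lattice points at sup distance at most `1`. -/
def close {n : ℕ} (z z' : Fin n → ℤ) : Prop := ∀ c, |z c - z' c| ≤ 1

/-- A digitized polygon complex of `σ` in `ℤⁿ`: positions `P v` of the vertices, lattice paths `E k v : {0..m} → ℤⁿ` from `P v` to `P (σ k v)` for the edges,
lattice discs `F x : {0..4gm} × {0..m'} → ℤⁿ` for the polygons, whose bottom row is the boundary of the polygon, whose left and right columns agree and whose top row is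
constant; at most `C0` discs through each lattice point; everything in `[-W, W]ⁿ`. -/
structure DigiData {g : ℕ} {V : Type*} (σ : Fin (2 * g) → Equiv.Perm V) (n C0 W : ℕ) where
  m : ℕ
  m' : ℕ
  P : V → (Fin n → ℤ)
  E : Fin (2 * g) → V → ℕ → (Fin n → ℤ)
  F : V → ℕ → ℕ → (Fin n → ℤ)
  E_start : ∀ k v, E k v 0 = P v
  E_end : ∀ k v, E k v m = P (σ k v)
  E_step : ∀ k v i, i < m → close (E k v i) (E k v (i + 1))
  F_step : ∀ x i j, i < 4 * g * m → j < m' → ∀ a b a' b' : ℕ, a ≤ 1 → b ≤ 1 → a' ≤ 1 → b' ≤ 1 →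
    close (F x (i + a) (j + b)) (F x (i + a') (j + b'))
  F_bot : ∀ x (s : Fin (4 * g)) i, i ≤ m →
    F x (s.val * m + i) 0 = if s.val % 4 < 2 then E (gen s) (u σ s.val x) i else E (gen s) (u σ (s.val + 1) x) (m - i)
  F_col : ∀ x j, j ≤ m' → F x 0 j = F x (4 * g * m) j
  F_top : ∀ x i, i ≤ 4 * g * m → F x i m' = F x 0 m'
  mult : ∀ z, Set.ncard {x | ∃ i j, i ≤ 4 * g * m ∧ j ≤ m' ∧ F x i j = z} ≤ C0
  bound : ∀ x i j c, i ≤ 4 * g * m → j ≤ m' → |F x i j c| ≤ W

/-- `σ` has a digitized polygon complex in `[-W, W]ⁿ` with multiplicity at most `C0`. -/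
def Digi {g : ℕ} {V : Type*} (σ : Fin (2 * g) → Equiv.Perm V) (n C0 W : ℕ) : Prop := Nonempty (DigiData σ n C0 W)

end H98T
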