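import Mathlib
import Pool.Agent.Lib.H98T.Digi

set_option autoImplicit false

/-!
# H98T, module G: definitions (`PROOF.md`, section 6)

`Bx n K`: a box in `ℤⁿ` with lower corner `c`, divided into `Kⁿ` cells of side `l`.  `Cell n K`: the cells, `none` is the outside.  `B.Q z`: the cell of the lattice point `z`.
`B.X z i`: the unit edge from `z` to `z + e_i` is crossing (its ends are in different cells).  `Lt n K`: the labels (letters); `B.lab r z i`: the label of the crossing edge
`(z, i)`, `r` is the side of the pieces into which the walls are divided.  `src`, `tgt` of a letter: the cells of its two sides.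
-/

namespace H98T

open Finset

/-- The unit vector. -/
def ev {n : ℕ} (i : Fin n) : Fin n → ℤ := fun j => if j = i then 1 else 0

/-- The lattice points touched by the polygon `x`. -/
def Touch {g : ℕ} {V : Type*} {σ : Fin (2 * g) → Equiv.Perm V} {n C0 W : ℕ} (D : DigiData σ n C0 W) (x : V) : Set (Fin n → ℤ) :=
  {z | ∃ i j, i ≤ 4 * g * D.m ∧ j ≤ D.m' ∧ D.F x i j = z}

/-- Sup distance at most `r`. -/
def near {n : ℕ} (r : ℕ) (z z' : Fin n → ℤ) : Prop := ∀ c, |z c - z' c| ≤ r

/-- The lattice points at distance at most `r` from the polygon `x`. -/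
def Near {g : ℕ} {V : Type*} {σ : Fin (2 * g) → Equiv.Perm V} {n C0 W : ℕ} (D : DigiData σ n C0 W) (r : ℕ) (x : V) : Set (Fin n → ℤ) :=
  {z | ∃ z' ∈ Touch D x, near r z z'}

/-- A box with lower corner `c`, divided into `K ^ n` cells of side `l`. -/
structure Bx (n K : ℕ) where
  c : Fin n → ℤ
  l : ℕ
  hl : 1 ≤ l

/-- The cells: `some k` for `k : Fin n → Fin K`, and `none` for the outside of the box. -/
abbrev Cell (n K : ℕ) := Option (Fin n → Fin K)

/-- The point is in the box. -/
def Bx.inB {n K : ℕ} (B : Bx n K) (z : Fin n → ℤ) : Prop := ∀ i, B.c i ≤ z i ∧ z i < B.c i + K * B.l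

open Classical in
/-- The cell of a lattice point. -/
noncomputable def Bx.Q {n K : ℕ} (B : Bx n K) (z : Fin n → ℤ) : Cell n K :=
  if h : B.inB z then some (fun i => ⟨((z i - B.c i) / B.l).toNat, by
    have h1 := (h i).1
    have h2 := (h i).2
    have h3 := B.hl
    have h4 : (z i - B.c i) / (B.l : ℤ) < K := Int.ediv_lt_of_lt_mul (by exact_mod_cast h3) (by linarith)
    have h5 : 0 ≤ (z i - B.c i) / (B.l : ℤ) := Int.ediv_nonneg (by linarith) (by exact_mod_cast (by omega : 0 ≤ B.l))
    omega⟩) else none

/-- The unit edge from `z` to `z + e_i` is crossing. -/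
def Bx.X {n K : ℕ} (B : Bx n K) (z : Fin n → ℤ) (i : Fin n) : Prop := B.Q z ≠ B.Q (z + ev i)

/-- Letters: direction, coordinate of the wall, piece, the two cells. -/
abbrev Lt (n K : ℕ) := Fin n × ℤ × (Fin n → ℤ) × Cell n K × Cell n K

/-- The label of the unit edge `(z, i)`. -/
noncomputable def Bx.lab {n K : ℕ} (B : Bx n K) (r : ℕ) (z : Fin n → ℤ) (i : Fin n) : Lt n K :=
  (i, z i, fun j => if j = i then 0 else z j / r, B.Q z, B.Q (z + ev i))

/-- The source cell of a letter. -/
def lsrc {n K : ℕ} (y : Lt n K) : Cell n K := y.2.2.2.1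

/-- The target cell of a letter. -/
def ltgt {n K : ℕ} (y : Lt n K) : Cell n K := y.2.2.2.2

variable {g : ℕ} {V : Type*} {σ : Fin (2 * g) → Equiv.Perm V} {n C0 W K : ℕ}

/-- The letters near the polygon `x`. -/
def Sx (D : DigiData σ n C0 W) (B : Bx n K) (r : ℕ) (x : V) : Set (Lt n K) :=
  {y | ∃ z i, B.X z i ∧ z ∈ Near D 3 x ∧ B.lab r z i = y}

/-- The cells near the polygon `x`. -/
def Rx (D : DigiData σ n C0 W) (B : Bx n K) (x : V) : Set (Cell n K) := {q | ∃ z ∈ Near D 4 x, B.Q z = q}

/-- Bad polygons: near one of their points there are two crossing edges with different labels. -/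
def Bad (D : DigiData σ n C0 W) (B : Bx n K) (r : ℕ) (x : V) : Prop :=
  ∃ z ∈ Touch D x, ∃ z' i' z'' i'', near 2 z' z ∧ near 2 z'' z ∧ B.X z' i' ∧ B.X z'' i'' ∧ B.lab r z' i' ≠ B.lab r z'' i''

/-- Polygons all of whose points are in the cell `q`. -/
def insd (D : DigiData σ n C0 W) (B : Bx n K) (q : Cell n K) : Set V := {x | ∀ z ∈ Touch D x, B.Q z = q}

/-- The boundary layer of the cell `q`: points within distance `4` of points in `q` and of points outside `q`. -/
def BL (B : Bx n K) (q : Cell n K) : Set (Fin n → ℤ) := {z | (∃ z', near 4 z z' ∧ B.Q z' = q) ∧ ∃ z', near 4 z z' ∧ B.Q z' ≠ q}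

/-! ### Words -/

/-- The point with the coordinates `< i` of `z'` and the others of `z`. -/
def hyb (z z' : Fin n → ℤ) (i : ℕ) : Fin n → ℤ := fun j => if j.val < i then z' j else z j

open Classical in
/-- The letter of the unit edge `(z, i)` if it is crossing, `1` otherwise. -/
noncomputable def Bx.cw (B : Bx n K) (r : ℕ) (z : Fin n → ℤ) (i : Fin n) : FreeGroup (Lt n K) :=
  if B.X z i then FreeGroup.of (B.lab r z i) else 1

/-- The word of the canonical path from `z` to `z'` (change the coordinates `0, 1, …, n - 1` one after the other); meaningful if `close z z'`. -/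
noncomputable def Bx.stepw (B : Bx n K) (r : ℕ) (z z' : Fin n → ℤ) : FreeGroup (Lt n K) :=
  (List.ofFn (fun i : Fin n =>
    if z' i = z i + 1 then B.cw r (hyb z z' i.val) i
    else if z' i = z i - 1 then (B.cw r (hyb z z' (i.val + 1)) i)⁻¹
    else 1)).prod

/-- The symmetrised word of a step. -/
noncomputable def Bx.sw (B : Bx n K) (r : ℕ) (z z' : Fin n → ℤ) : FreeGroup (Lt n K) :=
  if toLex z ≤ toLex z' then B.stepw r z z' else (B.stepw r z' z)⁻¹

/-- The word of a lattice path of length `m`. -/
noncomputable def Bx.pathw (B : Bx n K) (r : ℕ) (E : ℕ → (Fin n → ℤ)) (m : ℕ) : FreeGroup (Lt n K) :=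
  ((List.range m).map (fun i => B.sw r (E i) (E (i + 1)))).prod

/-- The word of the edge `(k, v)`. -/
noncomputable def ew (D : DigiData σ n C0 W) (B : Bx n K) (r : ℕ) (k : Fin (2 * g)) (v : V) : FreeGroup (Lt n K) :=
  B.pathw r (D.E k v) D.m

/-- The word of the side `s` of the polygon `x`. -/
noncomputable def sidew {Y : Type*} (σ : Fin (2 * g) → Equiv.Perm V) (w : Fin (2 * g) → V → FreeGroup Y) (x : V) (s : Fin (4 * g)) : FreeGroup Y :=
  if s.val % 4 < 2 then w (gen s) (u σ s.val x) else (w (gen s) (u σ (s.val + 1) x))⁻¹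

/-! ### Walks between cells -/

/-- The element `w` of the free group is represented by a walk from the cell `c` to the cell `c'`, the letter `y` leads from `src y` to `tgt y`. -/
inductive Walk {C Y : Type*} (src tgt : Y → C) : C → FreeGroup Y → C → Prop
  | nil (c : C) : Walk src tgt c 1 c
  | pos (c : C) (w : FreeGroup Y) (y : Y) : Walk src tgt c w (src y) → Walk src tgt c (w * FreeGroup.of y) (tgt y)
  | neg (c : C) (w : FreeGroup Y) (y : Y) : Walk src tgt c w (tgt y) → Walk src tgt c (w * (FreeGroup.of y)⁻¹) (src y)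

/-- The cell at the position `j` of a signed word starting in the cell `c`. -/
def cellAt {C Y : Type*} (src tgt : Y → C) (c : C) (l : List (Y × Bool)) (j : ℕ) : C :=
  if j = 0 then c else match l[j - 1]? with
    | some (y, true) => tgt y
    | some (y, false) => src y
    | none => c

/-- The signed word `l` is a walk from `c` to `c'`: the letter number `j` starts in the cell at position `j`. -/
def WalkList {C Y : Type*} (src tgt : Y → C) (c : C) (l : List (Y × Bool)) (c' : C) : Prop :=
  cellAt src tgt c l l.length = c' ∧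
    ∀ j y, (l[j]? = some (y, true) → cellAt src tgt c l j = src y) ∧ (l[j]? = some (y, false) → cellAt src tgt c l j = tgt y)

end H98T
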