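import Mathlib
import Pool.Agent.Lib.H98T.GDefs

set_option autoImplicit false

/-!
# H98T.GA1: cells, crossing edges
-/

namespace H98T

open Finset

variable {g : ℕ} {V : Type*} {σ : Fin (2 * g) → Equiv.Perm V} {n C0 W K : ℕ}

/-- GA1a. Chunk GA1 (size S). A point is outside iff it is not in the box. -/
theorem Q_none (B : Bx n K) (z : Fin n → ℤ) : B.Q z = none ↔ ¬ B.inB z := by
  unfold Bx.Q
  by_cases h : B.inB z
  · rw [dif_pos h]
    simp [h]
  · rw [dif_neg h]
    simp [h]

/-- GA1b. Chunk GA1 (size S/M). Characterisation of the cell of a point. -/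
theorem Q_some (B : Bx n K) (z : Fin n → ℤ) (k : Fin n → Fin K) :
    B.Q z = some k ↔ ∀ i, B.c i + (B.l : ℤ) * (k i).val ≤ z i ∧ z i < B.c i + (B.l : ℤ) * ((k i).val + 1) := by
  have hl0 : (0 : ℤ) < B.l := by exact_mod_cast B.hl
  constructor
  · intro h i
    have hin : B.inB z := by
      by_contra hcon
      rw [(Q_none B z).2 hcon] at h
      exact absurd h (by simp)
    unfold Bx.Q at h
    rw [dif_pos hin] at h
    have h1 := congrFun (Option.some.inj h) i
    have h2 : (k i).val = ((z i - B.c i) / (B.l : ℤ)).toNat := by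
      rw [← h1]
    have h3 : 0 ≤ (z i - B.c i) / (B.l : ℤ) := Int.ediv_nonneg (by linarith [(hin i).1]) (le_of_lt hl0)
    have h4 : ((k i).val : ℤ) = (z i - B.c i) / (B.l : ℤ) := by
      rw [h2, Int.toNat_of_nonneg h3]
    have q1 := Int.mul_ediv_add_emod (z i - B.c i) B.l
    have q2 := Int.emod_nonneg (z i - B.c i) (ne_of_gt hl0)
    have q3 := Int.emod_lt_of_pos (z i - B.c i) hl0
    rw [h4]
    have h5 : (B.l : ℤ) * ((z i - B.c i) / (B.l : ℤ) + 1) = (B.l : ℤ) * ((z i - B.c i) / (B.l : ℤ)) + B.l := by ring
    constructor <;> linarith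
  · intro h
    have hin : B.inB z := by
      intro i
      have h1 := h i
      have h2 : (0 : ℤ) ≤ (B.l : ℤ) * ((k i).val : ℤ) := by positivity
      have h3 : ((k i).val : ℤ) + 1 ≤ K := by exact_mod_cast (k i).isLt
      have h4 : (B.l : ℤ) * (((k i).val : ℤ) + 1) ≤ B.l * K := mul_le_mul_of_nonneg_left h3 (le_of_lt hl0)
      have h5 : (B.l : ℤ) * K = K * B.l := by ring
      constructor <;> linarith [h1.1, h1.2]
    unfold Bx.Q
    rw [dif_pos hin]
    congr 1
    funext i
    apply Fin.ext
    show ((z i - B.c i) / (B.l : ℤ)).toNat = (k i).val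
    have h1 := h i
    have h6 : (z i - B.c i) / (B.l : ℤ) = ((k i).val : ℤ) := by
      apply le_antisymm
      · have : (z i - B.c i) / (B.l : ℤ) < ((k i).val : ℤ) + 1 := by
          apply Int.ediv_lt_of_lt_mul hl0
          have e : (((k i).val : ℤ) + 1) * B.l = (B.l : ℤ) * (((k i).val : ℤ) + 1) := by ring
          linarith [h1.2]
        linarith
      · apply Int.le_ediv_of_mul_le hl0
        have e : ((k i).val : ℤ) * B.l = (B.l : ℤ) * ((k i).val : ℤ) := by ring
        linarith [h1.1]
    rw [h6]
    simp

/-- GA1c. Chunk GA1 (size M). A crossing edge in direction `i` is at a wall: `z i = c i + k l - 1` with `0 ≤ k ≤ K`, and its other coordinates are in the box.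
(If some coordinate `j ≠ i` is out of the box, both ends are outside.  Otherwise the coordinates `j ≠ i` of the cells of both ends agree (`Q_some`), so the coordinates `i` differ: `z i` and
`z i + 1` are in different intervals `[c + k l, c + (k+1) l)`, `0 ≤ k < K`, or one of them is out of the box.) -/
theorem X_wall (B : Bx n K) (z : Fin n → ℤ) (i : Fin n) (h : B.X z i) :
    (∃ k : ℕ, k ≤ K ∧ z i = B.c i + (k : ℤ) * B.l - 1) ∧ ∀ j, j ≠ i → B.c j ≤ z j ∧ z j < B.c j + K * B.l := by
  have hl0 : (0 : ℤ) < B.l := by exact_mod_cast B.hl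
  have hev : ∀ j, j ≠ i → (z + ev i) j = z j := by
    intro j hj
    simp [ev, hj]
  have hevi : (z + ev i) i = z i + 1 := by
    simp [ev]
  have hother : ∀ j, j ≠ i → B.c j ≤ z j ∧ z j < B.c j + K * B.l := by
    intro j hj
    by_contra hcon
    apply h
    have h1 : B.Q z = none := (Q_none B z).2 (fun hh => hcon (hh j))
    have h2 : B.Q (z + ev i) = none := by
      rw [Q_none]
      intro hh
      have := hh j
      rw [hev j hj] at this
      exact hcon this
    rw [h1, h2]
  refine ⟨?_, hother⟩
  by_contra hcon
  push Not at hcon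
  apply h
  by_cases hlo : z i < B.c i
  · have h0 := hcon 0 (Nat.zero_le _)
    simp only [Nat.cast_zero, zero_mul, add_zero] at h0
    have h1 : B.Q z = none := by
      rw [Q_none]
      intro hh
      have := (hh i).1
      linarith
    have h2 : B.Q (z + ev i) = none := by
      rw [Q_none]
      intro hh
      have := (hh i).1
      rw [hevi] at this
      omega
    rw [h1, h2]
  · push Not at hlo
    by_cases hhi : B.c i + K * B.l ≤ z i
    · have h1 : B.Q z = none := by
        rw [Q_none]
        intro hh
        have := (hh i).2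
        linarith
      have h2 : B.Q (z + ev i) = none := by
        rw [Q_none]
        intro hh
        have := (hh i).2
        rw [hevi] at this
        linarith
      rw [h1, h2]
    · push Not at hhi
      have hin : B.inB z := by
        intro j
        by_cases hj : j = i
        · subst hj
          exact ⟨hlo, hhi⟩
        · exact hother j hj
      obtain ⟨k, hk⟩ : ∃ k, B.Q z = some k := by
        rcases hQ : B.Q z with _ | k
        · exact absurd hin ((Q_none B z).1 hQ)
        · exact ⟨k, rfl⟩
      rw [hk]
      symm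
      rw [Q_some]
      intro j
      have h1 := (Q_some B z k).1 hk j
      by_cases hj : j = i
      · subst hj
        rw [hevi]
        refine ⟨by linarith [h1.1], ?_⟩
        have h3 := hcon ((k j).val + 1) (by have := (k j).isLt; omega)
        have h4 : ((((k j).val + 1 : ℕ)) : ℤ) * B.l = (B.l : ℤ) * (((k j).val : ℤ) + 1) := by push_cast; ring
        rw [h4] at h3
        have h5 := h1.2
        have h6 : z j + 1 ≤ B.c j + (B.l : ℤ) * (((k j).val : ℤ) + 1) := by linarith
        rcases lt_or_eq_of_le h6 with h7 | h7
        · exact h7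
        · exfalso
          apply h3
          linarith
      · rw [hev j hj]
        exact h1

end H98T
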