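import Mathlib
import Pool.Agent.Lib.H98T.GDefs

set_option autoImplicit false

/-!
# H98T.GA2: counting lattice points and polygons
-/

namespace H98T

open Finset

variable {g : ℕ} {V : Type*} {σ : Fin (2 * g) → Equiv.Perm V} {n C0 W K : ℕ}

/-- GA2a. Chunk GA2 (size S). Number of lattice points of a product set (`Fintype.piFinset`, `Fintype.card_piFinset`). -/
theorem ncard_pi (A : Fin n → Finset ℤ) :
    {z : Fin n → ℤ | ∀ j, z j ∈ A j}.Finite ∧ {z : Fin n → ℤ | ∀ j, z j ∈ A j}.ncard = ∏ j, (A j).card := by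
  classical
  have h : {z : Fin n → ℤ | ∀ j, z j ∈ A j} = ((Fintype.piFinset A : Finset (Fin n → ℤ)) : Set (Fin n → ℤ)) := by
    ext z
    simp [Fintype.mem_piFinset]
  rw [h]
  refine ⟨Finset.finite_toSet _, ?_⟩
  rw [Set.ncard_coe_finset, Fintype.card_piFinset]

/-- GA2b. Chunk GA2 (size S). Number of points at sup distance at most `r` (`ncard_pi` with intervals of length `2 r + 1`). -/
theorem ncard_near (r : ℕ) (z : Fin n → ℤ) :
    {z' : Fin n → ℤ | near r z z'}.Finite ∧ {z' : Fin n → ℤ | near r z z'}.ncard = (2 * r + 1) ^ n := by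
  have h := ncard_pi (fun c : Fin n => Finset.Icc (z c - r) (z c + r))
  have h1 : {z' : Fin n → ℤ | near r z z'} = {z' : Fin n → ℤ | ∀ j, z' j ∈ (fun c : Fin n => Finset.Icc (z c - r) (z c + r)) j} := by
    ext z'
    simp only [Set.mem_setOf_eq, near, Finset.mem_Icc, abs_le]
    constructor
    · intro h c
      have := h c
      constructor <;> linarith [this.1, this.2]
    · intro h c
      have := h c
      constructor <;> linarith [this.1, this.2]
  rw [h1]
  refine ⟨h.1, ?_⟩
  rw [h.2]
  have h2 : ∀ c : Fin n, (Finset.Icc (z c - (r : ℤ)) (z c + r)).card = 2 * r + 1 := by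
    intro c
    rw [Int.card_Icc]
    omega
  rw [Finset.prod_congr rfl (fun c _ => h2 c)]
  simp

/-- GA2c. Chunk GA2 (size S/M). At most `C0 |A|` polygons touch a finite set `A` of lattice points (`D.mult`). -/
theorem ncard_meet [Finite V] (D : DigiData σ n C0 W) (A : Set (Fin n → ℤ)) (hA : A.Finite) :
    {x : V | (Touch D x ∩ A).Nonempty}.ncard ≤ C0 * A.ncard := by
  classical
  haveI := Fintype.ofFinite V
  have hsub : {x : V | (Touch D x ∩ A).Nonempty} ⊆
      ((hA.toFinset.biUnion (fun z => (Finset.univ : Finset V).filter (fun x => z ∈ Touch D x)) : Finset V) : Set V) := by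
    rintro x ⟨z, hz, hzA⟩
    rw [Finset.mem_coe, Finset.mem_biUnion]
    exact ⟨z, (Set.Finite.mem_toFinset hA).2 hzA, by simp [hz]⟩
  refine le_trans (Set.ncard_le_ncard hsub (Finset.finite_toSet _)) ?_
  rw [Set.ncard_coe_finset]
  have h3 : ∀ z ∈ hA.toFinset, ((Finset.univ : Finset V).filter (fun x => z ∈ Touch D x)).card ≤ C0 := by
    intro z _
    have h4 := D.mult z
    have h5 : {x : V | ∃ i j, i ≤ 4 * g * D.m ∧ j ≤ D.m' ∧ D.F x i j = z} = (((Finset.univ : Finset V).filter (fun x => z ∈ Touch D x) : Finset V) : Set V) := by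
      ext x
      simp [Touch]
    rw [h5, Set.ncard_coe_finset] at h4
    exact h4
  refine le_trans (Finset.card_biUnion_le_card_mul _ _ _ h3) ?_
  rw [Set.ncard_eq_toFinset_card _ hA, mul_comm]

/-- GA2d. Chunk GA2 (size S). At most `(2r+1)^n C0` polygons are near a lattice point. -/
theorem ncard_Near [Finite V] (D : DigiData σ n C0 W) (r : ℕ) (z : Fin n → ℤ) :
    {x : V | z ∈ Near D r x}.ncard ≤ (2 * r + 1) ^ n * C0 := by
  obtain ⟨h1, h2⟩ := ncard_near r z
  have h3 := ncard_meet D _ h1
  rw [h2] at h3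
  have h4 : {x : V | z ∈ Near D r x} = {x : V | (Touch D x ∩ {z' : Fin n → ℤ | near r z z'}).Nonempty} := by
    ext x
    rfl
  rw [h4, mul_comm]
  exact h3

end H98T
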