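import Mathlib
import Pool.Agent.Lib.H98T.GDefs

set_option autoImplicit false

/-!
# H98T.GA3: connectedness, corners
-/

namespace H98T

open Finset

variable {g : ℕ} {V : Type*} {σ : Fin (2 * g) → Equiv.Perm V} {n C0 W K : ℕ}

/-- GA3a. Chunk GA3 (size M). `Touch` is connected by steps of sup length at most one: if a property holds at one touched point and fails at another, there are two touched points at
distance at most one, one with and one without the property.  (Walk in the grid `{0..4gm} × {0..m'}`: first change `i`, then `j`; steps inside the grid are `close` by `F_step`; on the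
bottom row if `m' = 0` the row is constant by `F_top`.) -/
theorem touch_conn (D : DigiData σ n C0 W) (hg : 1 ≤ g) (hm : 1 ≤ D.m) (x : V) (p : (Fin n → ℤ) → Prop) (h1 : ∃ z ∈ Touch D x, p z) (h2 : ∃ z ∈ Touch D x, ¬ p z) :
    ∃ z ∈ Touch D x, ∃ z' ∈ Touch D x, p z ∧ ¬ p z' ∧ near 1 z z' := by
  by_contra hcon
  push Not at hcon
  have hgm : 1 ≤ 4 * g * D.m := by
    have : 1 ≤ g * D.m := Nat.mul_le_mul hg hm
    have h4 : 4 * g * D.m = 4 * (g * D.m) := by ring
    omega
  have hT : ∀ i j, i ≤ 4 * g * D.m → j ≤ D.m' → D.F x i j ∈ Touch D x := fun i j hi hj => ⟨i, j, hi, hj, rfl⟩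
  have hstep : ∀ z ∈ Touch D x, ∀ z' ∈ Touch D x, close z z' → (p z ↔ p z') := by
    intro z hz z' hz' hc
    constructor
    · intro hp
      by_contra hp'
      apply hcon z hz z' hz' hp hp'
      intro c
      have := hc c
      push_cast
      exact this
    · intro hp'
      by_contra hp
      apply hcon z' hz' z hz hp' hp
      intro c
      have := hc c
      rw [abs_sub_comm]
      push_cast
      exact this
  have hvert : ∀ i j, i ≤ 4 * g * D.m → j < D.m' → (p (D.F x i j) ↔ p (D.F x i (j + 1))) := by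
    intro i j hi hj
    apply hstep _ (hT _ _ hi (by omega)) _ (hT _ _ hi (by omega))
    rcases Nat.lt_or_ge i (4 * g * D.m) with h | h
    · have := D.F_step x i j h hj 0 0 0 1 (by omega) (by omega) (by omega) (by omega)
      simpa using this
    · obtain ⟨i', rfl⟩ : ∃ i', i = i' + 1 := ⟨i - 1, by omega⟩
      have := D.F_step x i' j (by omega) hj 1 0 1 1 (by omega) (by omega) (by omega) (by omega)
      simpa using this
  have hhor : ∀ i j, i < 4 * g * D.m → j ≤ D.m' → (p (D.F x i j) ↔ p (D.F x (i + 1) j)) := by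
    intro i j hi hj
    rcases Nat.lt_or_ge j D.m' with h | h
    · apply hstep _ (hT _ _ (by omega) hj) _ (hT _ _ (by omega) hj)
      have := D.F_step x i j hi h 0 0 1 0 (by omega) (by omega) (by omega) (by omega)
      simpa using this
    · have hj' : j = D.m' := le_antisymm hj h
      subst hj'
      rw [D.F_top x i (by omega), D.F_top x (i + 1) (by omega)]
  have hcol : ∀ j, j ≤ D.m' → ∀ i, i ≤ 4 * g * D.m → (p (D.F x 0 j) ↔ p (D.F x i j)) := by
    intro j hj i
    induction i with
    | zero => intro _; exact Iff.rfl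
    | succ i ih =>
      intro hi
      exact (ih (by omega)).trans (hhor i j (by omega) hj)
  have hrow : ∀ j, j ≤ D.m' → (p (D.F x 0 0) ↔ p (D.F x 0 j)) := by
    intro j
    induction j with
    | zero => intro _; exact Iff.rfl
    | succ j ih =>
      intro hj
      exact (ih (by omega)).trans (hvert 0 j (by omega) (by omega))
  obtain ⟨z1, ⟨i1, j1, hi1, hj1, rfl⟩, hp1⟩ := h1
  obtain ⟨z2, ⟨i2, j2, hi2, hj2, rfl⟩, hp2⟩ := h2
  apply hp2
  rw [← hcol j2 hj2 i2 hi2, ← hrow j2 hj2, hrow j1 hj1, hcol j1 hj1 i1 hi1]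
  exact hp1

/-- GA3b. Chunk GA3 (size S/M). The vertex at the corner `s` of the polygon `x` is touched by it: `F_bot` with `i = 0`; for a negative side `E (gen s) (u (s+1) x) m = P (σ (gen s) (u (s+1) x)) = P (u s x)`. -/
theorem corner_mem (D : DigiData σ n C0 W) (x : V) (s : Fin (4 * g)) : D.P (u σ s.val x) ∈ Touch D x := by
  have hle : s.val * D.m + 0 ≤ 4 * g * D.m := by
    rw [add_zero]
    exact Nat.mul_le_mul_right _ (le_of_lt s.isLt)
  refine ⟨s.val * D.m + 0, 0, hle, Nat.zero_le _, ?_⟩
  rw [D.F_bot x s 0 (Nat.zero_le _)]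
  by_cases h : s.val % 4 < 2
  · rw [if_pos h, D.E_start]
  · rw [if_neg h, Nat.sub_zero, D.E_end]
    congr 1
    have h1 : u σ (s.val + 1) x = tau σ s (u σ s.val x) := by
      show (if h : s.val < 4 * g then tau σ ⟨s.val, h⟩ * u σ s.val else u σ s.val) x = _
      rw [dif_pos s.isLt]
      rfl
    rw [h1]
    unfold tau
    rw [if_neg h]
    simp

/-- GA3c. Chunk GA3 (size S). The points of the path of the side `s` of `x` are touched by `x`: for a positive side the path of the edge `(gen s, u s x)`, for a negative side that of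
`(gen s, u (s+1) x)`. -/
theorem side_mem (D : DigiData σ n C0 W) (x : V) (s : Fin (4 * g)) (i : ℕ) (hi : i ≤ D.m) :
    D.E (gen s) (edgeV σ (x, s)) i ∈ Touch D x := by
  have hle : s.val * D.m + D.m ≤ 4 * g * D.m := by
    have h1 : s.val * D.m + D.m = (s.val + 1) * D.m := by ring
    rw [h1]
    exact Nat.mul_le_mul_right _ s.isLt
  unfold edgeV
  by_cases h : s.val % 4 < 2
  · refine ⟨s.val * D.m + i, 0, by omega, Nat.zero_le _, ?_⟩
    rw [D.F_bot x s i hi, if_pos h, if_pos h]
  · refine ⟨s.val * D.m + (D.m - i), 0, by omega, Nat.zero_le _, ?_⟩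
    rw [D.F_bot x s (D.m - i) (by omega), if_neg h, if_neg h]
    have h2 : D.m - (D.m - i) = i := by omega
    rw [h2]

end H98T
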