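import Mathlib
import Pool.Agent.Lib.H98T.GA2
import Pool.Agent.Lib.H98T.GA3
import Pool.Agent.Lib.H98T.GA1

set_option autoImplicit false

/-!
# H98T.GB1: the box
-/

namespace H98T

open Finset

variable {g : ℕ} {V : Type*} {σ : Fin (2 * g) → Equiv.Perm V} {n C0 W K : ℕ}

/-- The scales. -/
def gb1_L (K W : ℕ) : ℕ → ℕ
  | 0 => (2 * W + 11) / K + 1
  | j + 1 => gb1_L K W j / K + 1

theorem gb1_L_pos (K W j : ℕ) : 1 ≤ gb1_L K W j := by
  cases j <;> simp [gb1_L]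

theorem gb1_mul_gt (K a : ℕ) (hK : 2 ≤ K) : a < K * (a / K + 1) := by
  have h1 := Nat.div_add_mod a K
  have h2 := Nat.mod_lt a (show 0 < K by omega)
  rw [mul_add, mul_one]
  omega

theorem gb1_mul_le (K a : ℕ) : K * (a / K + 1) ≤ a + K := by
  have h1 := Nat.div_add_mod a K
  rw [mul_add, mul_one]
  omega

theorem gb1_L_succ_le (K W j : ℕ) (hK : 2 ≤ K) : gb1_L K W (j + 1) ≤ gb1_L K W j := by
  show gb1_L K W j / K + 1 ≤ gb1_L K W j
  have h1 := gb1_L_pos K W j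
  have h2 : gb1_L K W j / K ≤ gb1_L K W j / 2 := Nat.div_le_div_left hK (by norm_num)
  omega

theorem gb1_L_le (K W j : ℕ) (hK : 2 ≤ K) : gb1_L K W j ≤ gb1_L K W 0 := by
  induction j with
  | zero => exact le_refl _
  | succ j ih => exact le_trans (gb1_L_succ_le K W j hK) ih

theorem gb1_L_dec (K W j : ℕ) (hK : 2 ≤ K) (h : 2 < gb1_L K W j) : gb1_L K W (j + 1) < gb1_L K W j := by
  show gb1_L K W j / K + 1 < gb1_L K W j
  have h2 : gb1_L K W j / K ≤ gb1_L K W j / 2 := Nat.div_le_div_left hK (by norm_num)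
  omega

theorem gb1_L_small (K W : ℕ) (hK : 2 ≤ K) : ∃ j, gb1_L K W (j + 1) ≤ 2 := by
  by_contra hcon
  push Not at hcon
  have key : ∀ j, gb1_L K W (j + 1) + j ≤ gb1_L K W 0 := by
    intro j
    induction j with
    | zero => have := gb1_L_succ_le K W 0 hK; simpa using this
    | succ j ih =>
      have h1 := gb1_L_dec K W (j + 1) hK (hcon j)
      omega
  have h2 := key (gb1_L K W 0)
  have h3 := hcon (gb1_L K W 0)
  omega

theorem gb1_touch_nonempty (D : DigiData σ n C0 W) (x : V) : (Touch D x).Nonempty :=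
  ⟨D.F x 0 0, 0, 0, Nat.zero_le _, Nat.zero_le _, rfl⟩

theorem gb1_cube [Fintype V] (D : DigiData σ n C0 W) (c : Fin n → ℤ) (s : ℕ) :
    {x : V | ∀ z ∈ Touch D x, ∀ i, c i ≤ z i ∧ z i < c i + s}.ncard ≤ C0 * s ^ n := by
  have h1 := ncard_pi (fun j : Fin n => Finset.Ico (c j) (c j + s))
  have h2 : ∏ j : Fin n, (Finset.Ico (c j) (c j + (s : ℤ))).card = s ^ n := by
    simp
  rw [h2] at h1
  have h3 := ncard_meet D _ h1.1
  rw [h1.2] at h3
  refine le_trans (Set.ncard_le_ncard ?_ (Set.toFinite _)) h3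
  intro x hx
  obtain ⟨z, hz⟩ := gb1_touch_nonempty D x
  refine ⟨z, hz, ?_⟩
  intro j
  have := hx z hz j
  simp only [Finset.mem_Ico]
  exact this

/-- GB1. Chunk GB1 (size M/L). THE BOX.  Proof: section 6, G0 of `PROOF.md`.  `L 0 = (2 W + 11) / K + 1`, `L (j+1) = (L j) / K + 1` (natural number division), so `L j ≤ K L (j+1) ≤ L j + K`.
Say that stage `j` holds if there is `c` with `card V < 2 * #{x : Touch x ⊆ c + [0, K L j)^n}`.  The sequence `L` decreases to `≤ 2`, so stage `j` fails for large `j`, since a cube of side `2 K` is touched by at most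
`(2K)^n C0` polygons (`Touch x` is nonempty).  Let `j` be least such that stage `j + 1` fails.
* `j = 0`: `c = (-W-5, …)`, `l = L 0`: `K L 0 ≥ 2 W + 11`, so everything within distance `5` of `[-W, W]^n` is in the box (first alternative); `K l ≤ 2 W + 11 + K ≤ 4 W`; `card V ≤ C0 (K l)^n`.
* `j > 0`: stage `j` holds, take its `c`, `l = L j`: `K l ≤ L (j-1) + K ≤ L 0 + K`, `K (K l) ≤ K L 0 + K^2 ≤ 2 W + 11 + K + K^2 ≤ 8 W`; the polygons with all points outside are less than half of all; `K l ≤ 4 W` as well.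
In both cases a cell has side `L j ≤ K L (j+1)`, so it is contained in a cube of side `K L (j+1)`, and at most half of the polygons are inside. -/
theorem exists_box [Fintype V] (D : DigiData σ n C0 W) (hn : 1 ≤ n) (hK : 2 ≤ K) (hW : K ^ 2 + K + 11 ≤ W) (hV : 2 * ((2 * K) ^ n * C0) < Fintype.card V) :
    ∃ B : Bx n K, (∀ k, 2 * (insd D B (some k)).ncard ≤ Fintype.card V) ∧ K * B.l ≤ 4 * W ∧ Fintype.card V ≤ 2 * C0 * (K * B.l) ^ n ∧
      ((∀ x, ∀ z ∈ Near D 4 x, B.Q z ≠ none) ∨ (2 * (insd D B none).ncard ≤ Fintype.card V ∧ K * (K * B.l) ≤ 8 * W)) := by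
  classical
  let P : ℕ → Prop := fun j => ∃ c : Fin n → ℤ,
    Fintype.card V < 2 * {x : V | ∀ z ∈ Touch D x, ∀ i, c i ≤ z i ∧ z i < c i + ((K * gb1_L K W j : ℕ) : ℤ)}.ncard
  have hex : ∃ j, ¬ P (j + 1) := by
    obtain ⟨j, hj⟩ := gb1_L_small K W hK
    refine ⟨j, ?_⟩
    rintro ⟨c, hc⟩
    have h1 := gb1_cube D c (K * gb1_L K W (j + 1))
    have h2 : (K * gb1_L K W (j + 1)) ^ n ≤ (2 * K) ^ n := by
      apply Nat.pow_le_pow_left
      calc K * gb1_L K W (j + 1) ≤ K * 2 := Nat.mul_le_mul_left _ hj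
        _ = 2 * K := by ring
    have h3 : C0 * (K * gb1_L K W (j + 1)) ^ n ≤ (2 * K) ^ n * C0 := by
      calc C0 * (K * gb1_L K W (j + 1)) ^ n ≤ C0 * (2 * K) ^ n := Nat.mul_le_mul_left _ h2
        _ = (2 * K) ^ n * C0 := by ring
    omega
  have hcell : ∀ (j : ℕ), ¬ P (j + 1) → ∀ (c : Fin n → ℤ) (hl : 1 ≤ gb1_L K W j) (k : Fin n → Fin K),
      2 * (insd D (⟨c, gb1_L K W j, hl⟩ : Bx n K) (some k)).ncard ≤ Fintype.card V := by
    intro j hj c hl k
    have h1 : ¬ Fintype.card V < 2 * {x : V | ∀ z ∈ Touch D x, ∀ i,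
        (fun i => c i + (gb1_L K W j : ℤ) * ((k i).val : ℤ)) i ≤ z i ∧
        z i < (fun i => c i + (gb1_L K W j : ℤ) * ((k i).val : ℤ)) i + ((K * gb1_L K W (j + 1) : ℕ) : ℤ)}.ncard :=
      fun hlt => hj ⟨_, hlt⟩
    have h2 : (insd D (⟨c, gb1_L K W j, hl⟩ : Bx n K) (some k)).ncard ≤ {x : V | ∀ z ∈ Touch D x, ∀ i,
        (fun i => c i + (gb1_L K W j : ℤ) * ((k i).val : ℤ)) i ≤ z i ∧
        z i < (fun i => c i + (gb1_L K W j : ℤ) * ((k i).val : ℤ)) i + ((K * gb1_L K W (j + 1) : ℕ) : ℤ)}.ncard := by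
      refine Set.ncard_le_ncard ?_ (Set.toFinite _)
      intro x hx z hz i
      have h3 := (Q_some (⟨c, gb1_L K W j, hl⟩ : Bx n K) z k).1 (hx z hz) i
      have h4 : gb1_L K W j < K * gb1_L K W (j + 1) := gb1_mul_gt K (gb1_L K W j) hK
      have h5 : (gb1_L K W j : ℤ) < ((K * gb1_L K W (j + 1) : ℕ) : ℤ) := by exact_mod_cast h4
      refine ⟨h3.1, ?_⟩
      have h6 := h3.2
      have h7 : c i + (gb1_L K W j : ℤ) * (((k i).val : ℤ) + 1) = c i + (gb1_L K W j : ℤ) * ((k i).val : ℤ) + (gb1_L K W j : ℤ) := by ring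
      have h8 : z i < c i + (gb1_L K W j : ℤ) * (((k i).val : ℤ) + 1) := h6
      show z i < c i + (gb1_L K W j : ℤ) * ((k i).val : ℤ) + ((K * gb1_L K W (j + 1) : ℕ) : ℤ)
      linarith
    omega
  have hL0 : K * gb1_L K W 0 ≤ 2 * W + 11 + K := gb1_mul_le K (2 * W + 11)
  have hL0' : 2 * W + 11 < K * gb1_L K W 0 := gb1_mul_gt K (2 * W + 11) hK
  have hKK : K ^ 2 = K * K := by ring
  obtain ⟨j, hj, hmin⟩ : ∃ j, ¬ P (j + 1) ∧ ∀ i < j, P (i + 1) := by
    refine ⟨Nat.find hex, Nat.find_spec hex, ?_⟩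
    intro i hi
    have := Nat.find_min hex hi
    exact not_not.1 this
  rcases Nat.eq_zero_or_pos j with hj0 | hjp
  · subst hj0
    refine ⟨⟨fun _ => -(W : ℤ) - 5, gb1_L K W 0, gb1_L_pos K W 0⟩, hcell 0 hj _ _, ?_, ?_, Or.inl ?_⟩
    · show K * gb1_L K W 0 ≤ 4 * W
      omega
    · show Fintype.card V ≤ 2 * C0 * (K * gb1_L K W 0) ^ n
      have h1 := gb1_cube D (fun _ => -(W : ℤ) - 5) (K * gb1_L K W 0)
      have h2 : {x : V | ∀ z ∈ Touch D x, ∀ i, (fun _ => -(W : ℤ) - 5) i ≤ z i ∧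
          z i < (fun _ => -(W : ℤ) - 5) i + ((K * gb1_L K W 0 : ℕ) : ℤ)} = Set.univ := by
        apply Set.eq_univ_of_forall
        rintro x z ⟨a, b, ha, hb, rfl⟩ i
        have h3 := D.bound x a b i ha hb
        rw [abs_le] at h3
        have h4 : ((2 * W + 11 : ℕ) : ℤ) < ((K * gb1_L K W 0 : ℕ) : ℤ) := by exact_mod_cast hL0'
        push_cast at h4 ⊢
        constructor
        · show -(W : ℤ) - 5 ≤ D.F x a b i
          linarith [h3.1]
        · show D.F x a b i < -(W : ℤ) - 5 + (K : ℤ) * (gb1_L K W 0 : ℤ)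
          linarith [h3.2]
      rw [h2, Set.ncard_univ, Nat.card_eq_fintype_card] at h1
      calc Fintype.card V ≤ C0 * (K * gb1_L K W 0) ^ n := h1
        _ ≤ 2 * (C0 * (K * gb1_L K W 0) ^ n) := by omega
        _ = 2 * C0 * (K * gb1_L K W 0) ^ n := by ring
    · rintro x z ⟨z', ⟨a, b, ha, hb, rfl⟩, hz'⟩ hQ
      rw [Q_none] at hQ
      apply hQ
      intro i
      have h3 := D.bound x a b i ha hb
      rw [abs_le] at h3
      have h5 := hz' i
      rw [abs_le] at h5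
      have h4 : ((2 * W + 11 : ℕ) : ℤ) < ((K * gb1_L K W 0 : ℕ) : ℤ) := by exact_mod_cast hL0'
      push_cast at h4 h5
      constructor
      · show -(W : ℤ) - 5 ≤ z i
        linarith [h3.1, h5.1]
      · show z i < -(W : ℤ) - 5 + (K : ℤ) * (gb1_L K W 0 : ℤ)
        linarith [h3.2, h5.2]
  · obtain ⟨i, rfl⟩ : ∃ i, j = i + 1 := ⟨j - 1, by omega⟩
    obtain ⟨c, hc⟩ := hmin i (Nat.lt_succ_self i)
    have h1 : K * gb1_L K W (i + 1) ≤ gb1_L K W i + K := gb1_mul_le K (gb1_L K W i)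
    have h2 : gb1_L K W i ≤ gb1_L K W 0 := gb1_L_le K W i hK
    have h3 : K * (K * gb1_L K W (i + 1)) ≤ K * gb1_L K W 0 + K * K := by
      calc K * (K * gb1_L K W (i + 1)) ≤ K * (gb1_L K W 0 + K) := Nat.mul_le_mul_left _ (by omega)
        _ = K * gb1_L K W 0 + K * K := by ring
    have h4 : K * gb1_L K W (i + 1) ≤ K * (K * gb1_L K W (i + 1)) := Nat.le_mul_of_pos_left _ (by omega)
    refine ⟨⟨c, gb1_L K W (i + 1), gb1_L_pos K W (i + 1)⟩, hcell (i + 1) hj _ _, ?_, ?_, Or.inr ⟨?_, ?_⟩⟩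
    · show K * gb1_L K W (i + 1) ≤ 4 * W
      omega
    · show Fintype.card V ≤ 2 * C0 * (K * gb1_L K W (i + 1)) ^ n
      have h5 := gb1_cube D c (K * gb1_L K W (i + 1))
      have h6 : 2 * C0 * (K * gb1_L K W (i + 1)) ^ n = 2 * (C0 * (K * gb1_L K W (i + 1)) ^ n) := by ring
      rw [h6]
      omega
    · have h7 : Disjoint (insd D (⟨c, gb1_L K W (i + 1), gb1_L_pos K W (i + 1)⟩ : Bx n K) none)
          {x : V | ∀ z ∈ Touch D x, ∀ i', c i' ≤ z i' ∧ z i' < c i' + ((K * gb1_L K W (i + 1) : ℕ) : ℤ)} := by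
        rw [Set.disjoint_left]
        intro x hx hx'
        obtain ⟨z, hz⟩ := gb1_touch_nonempty D x
        have h8 := hx z hz
        rw [Q_none] at h8
        apply h8
        intro i'
        have h9 := hx' z hz i'
        push_cast at h9
        exact h9
      have h10 := Set.ncard_union_eq h7 (Set.toFinite _) (Set.toFinite _)
      have h11 : (insd D (⟨c, gb1_L K W (i + 1), gb1_L_pos K W (i + 1)⟩ : Bx n K) none ∪
          {x : V | ∀ z ∈ Touch D x, ∀ i', c i' ≤ z i' ∧ z i' < c i' + ((K * gb1_L K W (i + 1) : ℕ) : ℤ)}).ncard ≤ Fintype.card V := by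
        rw [← Nat.card_eq_fintype_card, ← Set.ncard_univ]
        exact Set.ncard_le_ncard (Set.subset_univ _) (Set.toFinite _)
      omega
    · show K * (K * gb1_L K W (i + 1)) ≤ 8 * W
      omega

end H98T
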