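import Mathlib
import Pool.Agent.Lib.H98T.GA1
import Pool.Agent.Lib.H98T.GA2

set_option autoImplicit false

/-!
# H98T.GC1: boundary layers
-/

namespace H98T

open Finset

variable {g : ℕ} {V : Type*} {σ : Fin (2 * g) → Equiv.Perm V} {n C0 W K : ℕ}

theorem gc1_pi (i : Fin n) (A : Fin n → Finset ℤ) (a m : ℕ) (h1 : (A i).card ≤ a) (h2 : ∀ j, j ≠ i → (A j).card ≤ m) :
    {z : Fin n → ℤ | ∀ j, z j ∈ A j}.Finite ∧ {z : Fin n → ℤ | ∀ j, z j ∈ A j}.ncard ≤ a * m ^ (n - 1) := by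
  classical
  have h3 := ncard_pi A
  refine ⟨h3.1, ?_⟩
  rw [h3.2, ← Finset.mul_prod_erase Finset.univ _ (Finset.mem_univ i)]
  apply Nat.mul_le_mul h1
  have h4 : ∏ x ∈ Finset.univ.erase i, (A x).card ≤ ∏ _x ∈ Finset.univ.erase i, m :=
    Finset.prod_le_prod' (fun j hj => h2 j (Finset.ne_of_mem_erase hj))
  rw [Finset.prod_const, Finset.card_erase_of_mem (Finset.mem_univ i), Finset.card_univ, Fintype.card_fin] at h4
  exact h4

theorem gc1_gen (a : Fin n → ℤ) (s : ℕ) (S : Set (Fin n → ℤ))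
    (hS : ∀ z ∈ S, (∃ z', near 4 z z' ∧ ∀ j, a j ≤ z' j ∧ z' j < a j + s) ∧ ∃ z', near 4 z z' ∧ ¬ ∀ j, a j ≤ z' j ∧ z' j < a j + s) :
    S.Finite ∧ S.ncard ≤ 16 * n * (s + 8) ^ (n - 1) := by
  classical
  let A : Fin n → Fin n → Finset ℤ := fun i j =>
    if j = i then Finset.Ico (a j - 4) (a j + 4) ∪ Finset.Ico (a j + s - 4) (a j + s + 4) else Finset.Ico (a j - 4) (a j + s + 4)
  have hA : ∀ i, {z : Fin n → ℤ | ∀ j, z j ∈ A i j}.Finite ∧ {z : Fin n → ℤ | ∀ j, z j ∈ A i j}.ncard ≤ 16 * (s + 8) ^ (n - 1) := by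
    intro i
    apply gc1_pi i (A i)
    · have h1 : A i i = Finset.Ico (a i - 4) (a i + 4) ∪ Finset.Ico (a i + s - 4) (a i + s + 4) := by simp [A]
      rw [h1]
      refine le_trans (Finset.card_union_le _ _) ?_
      rw [Int.card_Ico, Int.card_Ico]
      omega
    · intro j hj
      have h1 : A i j = Finset.Ico (a j - 4) (a j + s + 4) := by simp [A, hj]
      rw [h1, Int.card_Ico]
      omega
  have hsub : S ⊆ ⋃ i, {z : Fin n → ℤ | ∀ j, z j ∈ A i j} := by
    intro z hz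
    obtain ⟨⟨z1, hz1, hb1⟩, z2, hz2, hb2⟩ := hS z hz
    push Not at hb2
    obtain ⟨i, hi⟩ := hb2
    rw [Set.mem_iUnion]
    refine ⟨i, ?_⟩
    intro j
    have h1 := hz1 j
    have h2 := hb1 j
    rw [abs_le] at h1
    push_cast at h1
    by_cases hj : j = i
    · subst hj
      have h3 := hz2 j
      rw [abs_le] at h3
      push_cast at h3
      simp only [A, if_true, Finset.mem_union, Finset.mem_Ico]
      by_cases h4 : a j ≤ z2 j
      · have h5 := hi h4
        right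
        constructor <;> linarith [h1.1, h1.2, h2.1, h2.2, h3.1, h3.2]
      · left
        push Not at h4
        constructor <;> linarith [h1.1, h1.2, h2.1, h2.2, h3.1, h3.2]
    · simp only [A, hj, if_false, Finset.mem_Ico]
      constructor <;> linarith [h1.1, h1.2, h2.1, h2.2]
  have hfin : (⋃ i, {z : Fin n → ℤ | ∀ j, z j ∈ A i j}).Finite := Set.finite_iUnion (fun i => (hA i).1)
  refine ⟨hfin.subset hsub, ?_⟩
  refine le_trans (Set.ncard_le_ncard hsub hfin) ?_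
  refine le_trans (Set.ncard_iUnion_le_of_fintype _) ?_
  refine le_trans (Finset.sum_le_sum (fun i _ => (hA i).2)) ?_
  rw [Finset.sum_const, Finset.card_univ, Fintype.card_fin, smul_eq_mul]
  exact le_of_eq (by ring)

/-- GC1a. Chunk GC1 (size M). Boundary layer of a cell: contained in the union over `i` of the product sets with `z_i` within `4` of one of the two ends (at most `16` values)
and `z_j` in `[c_j + l k_j - 4, c_j + l (k_j + 1) + 4)` for the other `j`. -/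
theorem BL_some (B : Bx n K) (k : Fin n → Fin K) :
    (BL B (some k)).Finite ∧ (BL B (some k)).ncard ≤ 16 * n * (B.l + 8) ^ (n - 1) := by
  apply gc1_gen (fun j => B.c j + (B.l : ℤ) * ((k j).val : ℤ)) B.l
  rintro z ⟨⟨z1, hz1, hq1⟩, z2, hz2, hq2⟩
  have hkey : ∀ z' : Fin n → ℤ, B.Q z' = some k ↔
      ∀ j, (fun j => B.c j + (B.l : ℤ) * ((k j).val : ℤ)) j ≤ z' j ∧ z' j < (fun j => B.c j + (B.l : ℤ) * ((k j).val : ℤ)) j + B.l := by
    intro z'
    rw [Q_some]
    constructor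
    · intro h j
      have h1 := h j
      refine ⟨h1.1, ?_⟩
      show z' j < B.c j + (B.l : ℤ) * ((k j).val : ℤ) + B.l
      linarith [h1.2]
    · intro h j
      have h1 := h j
      have h2 : z' j < B.c j + (B.l : ℤ) * ((k j).val : ℤ) + B.l := h1.2
      refine ⟨h1.1, ?_⟩
      linarith
  exact ⟨⟨z1, hz1, (hkey z1).1 hq1⟩, z2, hz2, fun h => hq2 ((hkey z2).2 h)⟩

/-- GC1b. Chunk GC1 (size M). Boundary layer of the outside. -/
theorem BL_none (B : Bx n K) : (BL B none).Finite ∧ (BL B none).ncard ≤ 16 * n * (K * B.l + 8) ^ (n - 1) := by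
  apply gc1_gen B.c (K * B.l)
  rintro z ⟨⟨z1, hz1, hq1⟩, z2, hz2, hq2⟩
  have hkey : ∀ z' : Fin n → ℤ, B.Q z' = none ↔ ¬ ∀ j, B.c j ≤ z' j ∧ z' j < B.c j + ((K * B.l : ℕ) : ℤ) := by
    intro z'
    rw [Q_none]
    push_cast
    exact Iff.rfl
  refine ⟨⟨z2, hz2, ?_⟩, z1, hz1, (hkey z1).1 hq1⟩
  by_contra hcon
  exact hq2 ((hkey z2).2 hcon)

end H98T
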