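import Mathlib
import Pool.Agent.Lib.H98T.GA2
import Pool.Agent.Lib.H98T.GA3

set_option autoImplicit false

/-!
# H98T.GC2: isoperimetry
-/

namespace H98T

open Finset

variable {g : ℕ} {V : Type*} {σ : Fin (2 * g) → Equiv.Perm V} {n C0 W K : ℕ}

/-- GC2a. Chunk GC2 (size S/M). A polygon which comes within distance `4` of the cell `q` and is not inside `q` touches the boundary layer (`touch_conn`). -/
theorem meets_BL (D : DigiData σ n C0 W) (hg : 1 ≤ g) (hm : 1 ≤ D.m) (B : Bx n K) (q : Cell n K) (x : V) (h1 : q ∈ Rx D B x) (h2 : x ∉ insd D B q) :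
    (Touch D x ∩ BL B q).Nonempty := by
  obtain ⟨z, ⟨z', hz', hnear⟩, hQ⟩ := h1
  have h3 : ∃ z1 ∈ Touch D x, B.Q z1 ≠ q := by
    by_contra hcon
    push Not at hcon
    exact h2 hcon
  by_cases h4 : ∃ z2 ∈ Touch D x, B.Q z2 = q
  · obtain ⟨a, ha, b, hb, hpa, hpb, hab⟩ := touch_conn D hg hm x (fun z => B.Q z = q) h4 h3
    refine ⟨a, ha, ⟨a, ?_, hpa⟩, b, ?_, hpb⟩
    · intro c
      simp
    · intro c
      have := hab c
      push_cast at this ⊢
      linarith
  · push Not at h4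
    refine ⟨z', hz', ⟨z, ?_, hQ⟩, z', ?_, h4 z' hz'⟩
    · intro c
      rw [abs_sub_comm]
      exact hnear c
    · intro c
      simp

theorem gc2_touch (D : DigiData σ n C0 W) (hg : 1 ≤ g) (hm : 1 ≤ D.m) (B : Bx n K) (q : Cell n K) (x : V) (z : Fin n → ℤ) (hz : z ∈ Touch D x) (hq : B.Q z = q)
    (h2 : x ∉ insd D B q) : (Touch D x ∩ BL B q).Nonempty := by
  apply meets_BL D hg hm B q x _ h2
  refine ⟨z, ⟨z, hz, ?_⟩, hq⟩
  intro c
  simp

/-- GC2b. Chunk GC2 (size M). The vertex of a polygon inside `q` is in `q`; a polygon with one touched point in `q` and not inside `q` touches the boundary layer.  ISOPERIMETRY: proof G3 of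
`PROOF.md`: `U = insd q`; for `v ∈ U` with `σ 0 v ∉ U`: `P (σ 0 v)` is touched by `v` (corner 1) and by `σ 0 v` (corner 0); for `v ∈ U`, `σ 1 v ∉ U`: the polygon `(σ 0)⁻¹ v` has
the corners 1, 2 = `v`, `σ 1 v`; either `σ 1 v` or `(σ 0)⁻¹ v` touches the boundary layer.  So the expansion gives `|U| ≤ 100 * 3 * #{x : Touch x meets BL} ≤ 300 C0 |BL|`. -/
theorem insd_card [Fintype V] [DecidableEq V] (D : DigiData σ n C0 W) (hg : 1 ≤ g) (hm : 1 ≤ D.m) (hE : Expand (two σ)) (B : Bx n K) (q : Cell n K) (hf : (BL B q).Finite)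
    (h : 2 * (insd D B q).ncard ≤ Fintype.card V) : (insd D B q).ncard ≤ 300 * (C0 * (BL B q).ncard) := by
  classical
  have hM := ncard_meet D (BL B q) hf
  set M : Set V := {x : V | (Touch D x ∩ BL B q).Nonempty} with hMdef
  set U : Finset V := (Set.toFinite (insd D B q)).toFinset with hU
  have hUc : U.card = (insd D B q).ncard := by
    rw [hU, Set.ncard_eq_toFinset_card _ (Set.toFinite _)]
  have hMU : ∀ x, x ∈ U ↔ x ∈ insd D B q := by
    intro x
    rw [hU, Set.Finite.mem_toFinset]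
  set MF : Finset V := (Set.toFinite M).toFinset with hMF
  have hMc : MF.card = M.ncard := by
    rw [hMF, Set.ncard_eq_toFinset_card _ (Set.toFinite _)]
  have hMM : ∀ x, x ∈ MF ↔ x ∈ M := by
    intro x
    rw [hMF, Set.Finite.mem_toFinset]
  rcases U.eq_empty_or_nonempty with hUe | hUne
  · rw [← hUc, hUe]
    simp
  have hexp := hE U hUne (by rw [hUc]; exact h)
  have t0 : two σ 0 = σ ⟨0, by omega⟩ := by
    unfold two
    rw [dif_pos (by simp; omega)]
    rfl
  have t1 : two σ 1 = σ ⟨1, by omega⟩ := by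
    unfold two
    rw [dif_pos (by simp; omega)]
    rfl
  have u0 : ∀ x, u σ 0 x = x := by
    intro x
    rfl
  have u1 : ∀ x, u σ 1 x = two σ 0 x := by
    intro x
    rw [t0]
    show (if h : 0 < 4 * g then tau σ ⟨0, h⟩ * u σ 0 else u σ 0) x = _
    rw [dif_pos (by omega)]
    have : tau σ (⟨0, by omega⟩ : Fin (4 * g)) = σ ⟨0, by omega⟩ := by
      unfold tau gen
      simp
    rw [this]
    rfl
  have u2 : ∀ x, u σ 2 x = two σ 1 (two σ 0 x) := by
    intro x
    rw [t1]
    show (if h : 1 < 4 * g then tau σ ⟨1, h⟩ * u σ 1 else u σ 1) x = _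
    rw [dif_pos (by omega)]
    have : tau σ (⟨1, by omega⟩ : Fin (4 * g)) = σ ⟨1, by omega⟩ := by
      unfold tau gen
      simp
    rw [this]
    show σ ⟨1, _⟩ (u σ 1 x) = _
    rw [u1]
  have c0 : ∀ x, D.P x ∈ Touch D x := by
    intro x
    have := corner_mem D x (⟨0, by omega⟩ : Fin (4 * g))
    rwa [show u σ ((⟨0, by omega⟩ : Fin (4 * g)).val) x = x from u0 x] at this
  have c1 : ∀ x, D.P (two σ 0 x) ∈ Touch D x := by
    intro x
    have := corner_mem D x (⟨1, by omega⟩ : Fin (4 * g))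
    rwa [show u σ ((⟨1, by omega⟩ : Fin (4 * g)).val) x = two σ 0 x from u1 x] at this
  have c2 : ∀ x, D.P (two σ 1 (two σ 0 x)) ∈ Touch D x := by
    intro x
    have := corner_mem D x (⟨2, by omega⟩ : Fin (4 * g))
    rwa [show u σ ((⟨2, by omega⟩ : Fin (4 * g)).val) x = two σ 1 (two σ 0 x) from u2 x] at this
  have s0 : U.image (two σ 0) \ U ⊆ MF := by
    intro y hy
    rw [Finset.mem_sdiff, Finset.mem_image] at hy
    obtain ⟨⟨v, hv, rfl⟩, hyU⟩ := hy
    rw [hMM]
    exact gc2_touch D hg hm B q _ _ (c0 _) ((hMU v).1 hv _ (c1 v)) (fun hh => hyU ((hMU _).2 hh))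
  have s1 : U.image (two σ 1) \ U ⊆ MF ∪ MF.image (fun x => two σ 1 (two σ 0 x)) := by
    intro y hy
    rw [Finset.mem_sdiff, Finset.mem_image] at hy
    obtain ⟨⟨v, hv, rfl⟩, hyU⟩ := hy
    rw [Finset.mem_union]
    have hvx : two σ 0 ((two σ 0).symm v) = v := Equiv.apply_symm_apply _ _
    by_cases hx : (two σ 0).symm v ∈ insd D B q
    · left
      rw [hMM]
      have h5 := c2 ((two σ 0).symm v)
      rw [hvx] at h5
      exact gc2_touch D hg hm B q _ _ (c0 _) (hx _ h5) (fun hh => hyU ((hMU _).2 hh))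
    · right
      rw [Finset.mem_image]
      refine ⟨(two σ 0).symm v, ?_, by simp only [hvx]⟩
      rw [hMM]
      have h5 := c1 ((two σ 0).symm v)
      rw [hvx] at h5
      exact gc2_touch D hg hm B q _ _ h5 ((hMU v).1 hv _ (c0 v)) hx
  have e0 := Finset.card_le_card s0
  have e1 := Finset.card_le_card s1
  have e2 := Finset.card_union_le MF (MF.image (fun x => two σ 1 (two σ 0 x)))
  have e3 : (MF.image (fun x => two σ 1 (two σ 0 x))).card ≤ MF.card := Finset.card_image_le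
  rw [hUc] at hexp
  rw [hMc] at e0 e2 e3
  omega

/-- GC2c. Chunk GC2 (size S). -/
theorem Rx_card [Fintype V] [DecidableEq V] (D : DigiData σ n C0 W) (hg : 1 ≤ g) (hm : 1 ≤ D.m) (hE : Expand (two σ)) (B : Bx n K) (q : Cell n K) (hf : (BL B q).Finite)
    (h : 2 * (insd D B q).ncard ≤ Fintype.card V) : {x : V | q ∈ Rx D B x}.ncard ≤ 301 * (C0 * (BL B q).ncard) := by
  have h1 := insd_card D hg hm hE B q hf h
  have h2 := ncard_meet D (BL B q) hf
  have h3 : {x : V | q ∈ Rx D B x} ⊆ insd D B q ∪ {x : V | (Touch D x ∩ BL B q).Nonempty} := by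
    intro x hx
    by_cases hx2 : x ∈ insd D B q
    · exact Or.inl hx2
    · exact Or.inr (meets_BL D hg hm B q x hx hx2)
  have h4 := Set.ncard_le_ncard h3 (Set.toFinite _)
  have h5 := Set.ncard_union_le (insd D B q) {x : V | (Touch D x ∩ BL B q).Nonempty}
  omega

end H98T
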