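import Mathlib
import Pool.Agent.Lib.H98T.GA1
import Pool.Agent.Lib.H98T.GA2

set_option autoImplicit false

/-!
# H98T.GD1: the number of crossing edges
-/

namespace H98T

open Finset

variable {g : ℕ} {V : Type*} {σ : Fin (2 * g) → Equiv.Perm V} {n C0 W K : ℕ}

theorem gd1_pi (i : Fin n) (A : Fin n → Finset ℤ) (a m : ℕ) (h1 : (A i).card ≤ a) (h2 : ∀ j, j ≠ i → (A j).card ≤ m) :
    {z : Fin n → ℤ | ∀ j, z j ∈ A j}.Finite ∧ {z : Fin n → ℤ | ∀ j, z j ∈ A j}.ncard ≤ a * m ^ (n - 1) := by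
  classical
  have h3 := ncard_pi A
  refine ⟨h3.1, ?_⟩
  rw [h3.2, ← Finset.mul_prod_erase Finset.univ _ (Finset.mem_univ i)]
  apply Nat.mul_le_mul h1
  have h4 : ∏ x ∈ Finset.univ.erase i, (A x).card ≤ ∏ _x ∈ Finset.univ.erase i, m :=
    Finset.prod_le_prod' (fun j hj => h2 j (Finset.ne_of_mem_erase hj))
  rw [Finset.prod_const, Finset.card_erase_of_mem (Finset.mem_univ i), Finset.card_univ, Fintype.card_fin] at h4
  exact h4

theorem gd1_pi2 (i j : Fin n) (hij : j ≠ i) (A : Fin n → Finset ℤ) (a b m : ℕ) (h1 : (A i).card ≤ a) (h1' : (A j).card ≤ b)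
    (h2 : ∀ k, k ≠ i → k ≠ j → (A k).card ≤ m) :
    {z : Fin n → ℤ | ∀ j, z j ∈ A j}.Finite ∧ {z : Fin n → ℤ | ∀ j, z j ∈ A j}.ncard ≤ a * (b * m ^ (n - 2)) := by
  classical
  have h3 := ncard_pi A
  refine ⟨h3.1, ?_⟩
  have hj : j ∈ Finset.univ.erase i := Finset.mem_erase.2 ⟨hij, Finset.mem_univ _⟩
  rw [h3.2, ← Finset.mul_prod_erase Finset.univ _ (Finset.mem_univ i), ← Finset.mul_prod_erase (Finset.univ.erase i) _ hj]
  apply Nat.mul_le_mul h1
  apply Nat.mul_le_mul h1'
  have h4 : ∏ x ∈ (Finset.univ.erase i).erase j, (A x).card ≤ ∏ _x ∈ (Finset.univ.erase i).erase j, m :=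
    Finset.prod_le_prod' (fun k hk => h2 k (Finset.ne_of_mem_erase (Finset.mem_of_mem_erase hk)) (Finset.ne_of_mem_erase hk))
  rw [Finset.prod_const, Finset.card_erase_of_mem hj, Finset.card_erase_of_mem (Finset.mem_univ i), Finset.card_univ, Fintype.card_fin] at h4
  exact h4

/-- The walls. -/
noncomputable def gd1_wall (B : Bx n K) (i : Fin n) : Finset ℤ :=
  (Finset.range (K + 1)).image (fun k : ℕ => B.c i + (k : ℤ) * B.l - 1)

theorem gd1_wall_card (B : Bx n K) (i : Fin n) : (gd1_wall B i).card ≤ K + 1 := by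
  unfold gd1_wall
  refine le_trans Finset.card_image_le ?_
  rw [Finset.card_range]

/-- GD1a. Chunk GD1 (size M). By `X_wall` the crossing edges in direction `i` are in a product set with `K + 1` values for `z_i` and `K l` for the others. -/
theorem X_card (B : Bx n K) :
    {p : (Fin n → ℤ) × Fin n | B.X p.1 p.2}.Finite ∧ {p : (Fin n → ℤ) × Fin n | B.X p.1 p.2}.ncard ≤ n * ((K + 1) * (K * B.l) ^ (n - 1)) := by
  classical
  let A : Fin n → Fin n → Finset ℤ := fun i j => if j = i then gd1_wall B i else Finset.Ico (B.c j) (B.c j + ((K * B.l : ℕ) : ℤ))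
  have hA : ∀ i, {z : Fin n → ℤ | ∀ j, z j ∈ A i j}.Finite ∧ {z : Fin n → ℤ | ∀ j, z j ∈ A i j}.ncard ≤ (K + 1) * (K * B.l) ^ (n - 1) := by
    intro i
    apply gd1_pi i (A i)
    · have h1 : A i i = gd1_wall B i := by simp [A]
      rw [h1]
      exact gd1_wall_card B i
    · intro j hj
      have h1 : A i j = Finset.Ico (B.c j) (B.c j + ((K * B.l : ℕ) : ℤ)) := by simp [A, hj]
      rw [h1, Int.card_Ico]
      omega
  have hsub : {p : (Fin n → ℤ) × Fin n | B.X p.1 p.2} ⊆ ⋃ i, (fun z => (z, i)) '' {z : Fin n → ℤ | ∀ j, z j ∈ A i j} := by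
    rintro ⟨z, i⟩ hp
    have hw := X_wall B z i hp
    rw [Set.mem_iUnion]
    refine ⟨i, z, ?_, rfl⟩
    intro j
    by_cases hj : j = i
    · subst hj
      simp only [A, if_true]
      obtain ⟨k, hk, hz⟩ := hw.1
      unfold gd1_wall
      rw [Finset.mem_image]
      exact ⟨k, Finset.mem_range.2 (by omega), hz.symm⟩
    · simp only [A, hj, if_false, Finset.mem_Ico]
      have := hw.2 j hj
      push_cast
      exact this
  have hfin : (⋃ i, (fun z => (z, i)) '' {z : Fin n → ℤ | ∀ j, z j ∈ A i j}).Finite :=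
    Set.finite_iUnion (fun i => (hA i).1.image _)
  refine ⟨hfin.subset hsub, ?_⟩
  refine le_trans (Set.ncard_le_ncard hsub hfin) ?_
  refine le_trans (Set.ncard_iUnion_le_of_fintype _) ?_
  refine le_trans (Finset.sum_le_sum (fun i _ => le_trans (Set.ncard_image_le (hA i).1) (hA i).2)) ?_
  rw [Finset.sum_const, Finset.card_univ, Fintype.card_fin, smul_eq_mul]

/-- GD1b. Chunk GD1 (size M). Crossing edges `(z, i)` for which some other coordinate `z_j` (`j ≠ i`) has the property `T j`; `N` bounds the number of the integers in the range of the box with this property. -/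
theorem X_card2 (B : Bx n K) (T : Fin n → ℤ → Prop) (N : ℕ) (hN : ∀ j, {t : ℤ | (B.c j ≤ t ∧ t < B.c j + K * B.l) ∧ T j t}.ncard ≤ N) :
    {p : (Fin n → ℤ) × Fin n | B.X p.1 p.2 ∧ ∃ j, j ≠ p.2 ∧ T j (p.1 j)}.ncard ≤ n * (n * ((K + 1) * (N * (K * B.l) ^ (n - 2)))) := by
  classical
  have hTfin : ∀ j, {t : ℤ | (B.c j ≤ t ∧ t < B.c j + K * B.l) ∧ T j t}.Finite := by
    intro j
    refine (Set.finite_Ico (B.c j) (B.c j + K * B.l)).subset ?_
    rintro t ⟨ht, _⟩
    exact ht
  let TF : Fin n → Finset ℤ := fun j => (hTfin j).toFinset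
  have hTF : ∀ j, (TF j).card ≤ N := by
    intro j
    show (hTfin j).toFinset.card ≤ N
    rw [← Set.ncard_eq_toFinset_card _ (hTfin j)]
    exact hN j
  let A : Fin n → Fin n → Fin n → Finset ℤ := fun i k j =>
    if j = i then gd1_wall B i else if j = k then TF k else Finset.Ico (B.c j) (B.c j + ((K * B.l : ℕ) : ℤ))
  have hA : ∀ i k, k ≠ i → {z : Fin n → ℤ | ∀ j, z j ∈ A i k j}.Finite ∧
      {z : Fin n → ℤ | ∀ j, z j ∈ A i k j}.ncard ≤ (K + 1) * (N * (K * B.l) ^ (n - 2)) := by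
    intro i k hki
    apply gd1_pi2 i k hki (A i k)
    · have h1 : A i k i = gd1_wall B i := by simp [A]
      rw [h1]
      exact gd1_wall_card B i
    · have h1 : A i k k = TF k := by simp [A, hki]
      rw [h1]
      exact hTF k
    · intro j hj hjk
      have h1 : A i k j = Finset.Ico (B.c j) (B.c j + ((K * B.l : ℕ) : ℤ)) := by simp [A, hj, hjk]
      rw [h1, Int.card_Ico]
      omega
  let S : Fin n → Fin n → Set (Fin n → ℤ) := fun i k => if k = i then ∅ else {z : Fin n → ℤ | ∀ j, z j ∈ A i k j}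
  have hS : ∀ i k, (S i k).Finite ∧ (S i k).ncard ≤ (K + 1) * (N * (K * B.l) ^ (n - 2)) := by
    intro i k
    by_cases hki : k = i
    · simp [S, hki]
    · simp only [S, hki, if_false]
      exact hA i k hki
  have hsub : {p : (Fin n → ℤ) × Fin n | B.X p.1 p.2 ∧ ∃ j, j ≠ p.2 ∧ T j (p.1 j)} ⊆ ⋃ i, ⋃ k, (fun z => (z, i)) '' (S i k) := by
    rintro ⟨z, i⟩ ⟨hp, k, hki, hT⟩
    have hw := X_wall B z i hp
    have hki' : k ≠ i := hki
    rw [Set.mem_iUnion]
    refine ⟨i, ?_⟩
    rw [Set.mem_iUnion]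
    refine ⟨k, z, ?_, rfl⟩
    simp only [S, hki', if_false, Set.mem_setOf_eq]
    intro j
    by_cases hj : j = i
    · subst hj
      simp only [A, if_true]
      obtain ⟨k', hk, hz⟩ := hw.1
      unfold gd1_wall
      rw [Finset.mem_image]
      exact ⟨k', Finset.mem_range.2 (by omega), hz.symm⟩
    · by_cases hjk : j = k
      · subst hjk
        simp only [A, hj, if_false, if_true]
        show z j ∈ (hTfin j).toFinset
        rw [Set.Finite.mem_toFinset]
        exact ⟨hw.2 j hj, hT⟩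
      · simp only [A, hj, hjk, if_false, Finset.mem_Ico]
        have := hw.2 j hj
        push_cast
        exact this
  have hfin : (⋃ i, ⋃ k, (fun z => (z, i)) '' (S i k)).Finite :=
    Set.finite_iUnion (fun i => Set.finite_iUnion (fun k => (hS i k).1.image _))
  refine le_trans (Set.ncard_le_ncard hsub hfin) ?_
  refine le_trans (Set.ncard_iUnion_le_of_fintype _) ?_
  have hone : ∀ i, (⋃ k, (fun z => (z, i)) '' (S i k)).ncard ≤ n * ((K + 1) * (N * (K * B.l) ^ (n - 2))) := by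
    intro i
    refine le_trans (Set.ncard_iUnion_le_of_fintype _) ?_
    refine le_trans (Finset.sum_le_sum (fun k _ => le_trans (Set.ncard_image_le (hS i k).1) (hS i k).2)) ?_
    rw [Finset.sum_const, Finset.card_univ, Fintype.card_fin, smul_eq_mul]
  refine le_trans (Finset.sum_le_sum (fun i _ => hone i)) ?_
  rw [Finset.sum_const, Finset.card_univ, Fintype.card_fin, smul_eq_mul]

end H98T
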