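import Mathlib
import Pool.Agent.Lib.H98T.GD1

set_option autoImplicit false

/-!
# H98T.GD2: the letters near the polygons
-/

namespace H98T

open Finset

variable {g : ℕ} {V : Type*} {σ : Fin (2 * g) → Equiv.Perm V} {n C0 W K : ℕ}

theorem gd2_pi (i : Fin n) (A : Fin n → Finset ℤ) (a m : ℕ) (h1 : (A i).card ≤ a) (h2 : ∀ j, j ≠ i → (A j).card ≤ m) :
    {z : Fin n → ℤ | ∀ j, z j ∈ A j}.Finite ∧ {z : Fin n → ℤ | ∀ j, z j ∈ A j}.ncard ≤ a * m ^ (n - 1) := by
  classical
  have h3 := ncard_pi A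
  refine ⟨h3.1, ?_⟩
  rw [h3.2, ← Finset.mul_prod_erase Finset.univ _ (Finset.mem_univ i)]
  apply Nat.mul_le_mul h1
  have h4 : ∏ x ∈ Finset.univ.erase i, (A x).card ≤ ∏ _x ∈ Finset.univ.erase i, m :=
    Finset.prod_le_prod' (fun j hj => h2 j (Finset.ne_of_mem_erase hj))
  rw [Finset.prod_const, Finset.card_erase_of_mem (Finset.mem_univ i), Finset.card_univ, Fintype.card_fin] at h4
  exact h4

/-- GD2a. Chunk GD2 (size M). `∑ |S(x)| ≤ 7^n C0 * #crossing edges`: every letter of `Sx x` is the label of a crossing edge near `x`; exchange the sums; `ncard_Near` with `r = 3`. -/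
theorem sum_Sx [Fintype V] (D : DigiData σ n C0 W) (B : Bx n K) (r : ℕ) :
    (∀ x, (Sx D B r x).Finite) ∧ ∑ x : V, (Sx D B r x).ncard ≤ 7 ^ n * C0 * (n * ((K + 1) * (K * B.l) ^ (n - 1))) := by
  classical
  obtain ⟨hXf, hXc⟩ := X_card B
  set XF : Finset ((Fin n → ℤ) × Fin n) := hXf.toFinset with hXF
  have hXFc : XF.card ≤ n * ((K + 1) * (K * B.l) ^ (n - 1)) := by
    rw [hXF, ← Set.ncard_eq_toFinset_card _ hXf]
    exact hXc
  have hS : ∀ x, Sx D B r x = ((XF.filter (fun p => p.1 ∈ Near D 3 x)).image (fun p => B.lab r p.1 p.2) : Finset (Lt n K)) := by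
    intro x
    ext y
    rw [Finset.mem_coe, Finset.mem_image]
    constructor
    · rintro ⟨z, i, hX, hN, hlab⟩
      refine ⟨(z, i), ?_, hlab⟩
      rw [Finset.mem_filter, hXF, Set.Finite.mem_toFinset]
      exact ⟨hX, hN⟩
    · rintro ⟨⟨z, i⟩, hzi, hlab⟩
      rw [Finset.mem_filter, hXF, Set.Finite.mem_toFinset] at hzi
      exact ⟨z, i, hzi.1, hzi.2, hlab⟩
  constructor
  · intro x
    rw [hS x]
    exact Finset.finite_toSet _
  · have h1 : ∀ x, (Sx D B r x).ncard ≤ (XF.filter (fun p => p.1 ∈ Near D 3 x)).card := by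
      intro x
      rw [hS x, Set.ncard_coe_finset]
      exact Finset.card_image_le
    refine le_trans (Finset.sum_le_sum (fun x _ => h1 x)) ?_
    have h2 : ∑ x : V, (XF.filter (fun p => p.1 ∈ Near D 3 x)).card = ∑ p ∈ XF, ((Finset.univ : Finset V).filter (fun x => p.1 ∈ Near D 3 x)).card := by
      simp only [Finset.card_filter]
      rw [Finset.sum_comm]
    rw [h2]
    have h3 : ∀ p ∈ XF, ((Finset.univ : Finset V).filter (fun x => p.1 ∈ Near D 3 x)).card ≤ 7 ^ n * C0 := by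
      intro p _
      have h4 := ncard_Near D 3 p.1
      rw [Set.ncard_eq_toFinset_card' ] at h4
      have h5 : ((Finset.univ : Finset V).filter (fun x => p.1 ∈ Near D 3 x)) = {x : V | p.1 ∈ Near D 3 x}.toFinset := by
        ext x
        simp
      rw [h5]
      exact h4
    refine le_trans (Finset.sum_le_sum h3) ?_
    rw [Finset.sum_const, smul_eq_mul]
    calc XF.card * (7 ^ n * C0) ≤ (n * ((K + 1) * (K * B.l) ^ (n - 1))) * (7 ^ n * C0) := Nat.mul_le_mul_right _ hXFc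
      _ = 7 ^ n * C0 * (n * ((K + 1) * (K * B.l) ^ (n - 1))) := by ring

/-- GD2b. Chunk GD2 (size M). Multiplicity of a letter: the crossing edges with label `y` have `i`, `z_i` fixed and `z_j / r` fixed for `j ≠ i`: at most `r^(n-1)`. -/
theorem mult_Sx [Fintype V] (D : DigiData σ n C0 W) (B : Bx n K) (r : ℕ) (hr : 1 ≤ r) (y : Lt n K) :
    {x : V | y ∈ Sx D B r x}.ncard ≤ 7 ^ n * C0 * r ^ (n - 1) := by
  classical
  let A : Fin n → Finset ℤ := fun j => if j = y.1 then {y.2.1} else Finset.Ico ((r : ℤ) * y.2.2.1 j) ((r : ℤ) * y.2.2.1 j + r)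
  have hA : {z : Fin n → ℤ | ∀ j, z j ∈ A j}.Finite ∧ {z : Fin n → ℤ | ∀ j, z j ∈ A j}.ncard ≤ 1 * r ^ (n - 1) := by
    apply gd2_pi y.1 A
    · simp [A]
    · intro j hj
      have h1 : A j = Finset.Ico ((r : ℤ) * y.2.2.1 j) ((r : ℤ) * y.2.2.1 j + r) := by simp [A, hj]
      rw [h1, Int.card_Ico]
      omega
  set ZF : Finset (Fin n → ℤ) := hA.1.toFinset with hZF
  have hZc : ZF.card ≤ r ^ (n - 1) := by
    have h1 := hA.2
    have h2 := Set.ncard_eq_toFinset_card _ hA.1
    rw [h2] at h1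
    rw [hZF]
    calc hA.1.toFinset.card ≤ 1 * r ^ (n - 1) := h1
      _ = r ^ (n - 1) := one_mul _
  have hr0 : (0 : ℤ) < r := by exact_mod_cast hr
  have hsub : {x : V | y ∈ Sx D B r x} ⊆ ((ZF.biUnion (fun z => (Finset.univ : Finset V).filter (fun x => z ∈ Near D 3 x)) : Finset V) : Set V) := by
    rintro x ⟨z, i, hX, hN, hlab⟩
    rw [Finset.mem_coe, Finset.mem_biUnion]
    refine ⟨z, ?_, by simp [hN]⟩
    rw [hZF, Set.Finite.mem_toFinset]
    subst hlab
    intro j
    by_cases hj : j = i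
    · subst hj
      simp [A, Bx.lab]
    · simp only [A, Bx.lab, hj, if_false, Finset.mem_Ico]
      have h1 := Int.mul_ediv_add_emod (z j) r
      have h2 := Int.emod_nonneg (z j) (ne_of_gt hr0)
      have h3 := Int.emod_lt_of_pos (z j) hr0
      constructor <;> linarith
  refine le_trans (Set.ncard_le_ncard hsub (Finset.finite_toSet _)) ?_
  rw [Set.ncard_coe_finset]
  have h3 : ∀ z ∈ ZF, ((Finset.univ : Finset V).filter (fun x => z ∈ Near D 3 x)).card ≤ 7 ^ n * C0 := by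
    intro z _
    have h4 := ncard_Near D 3 z
    rw [Set.ncard_eq_toFinset_card'] at h4
    have h5 : ((Finset.univ : Finset V).filter (fun x => z ∈ Near D 3 x)) = {x : V | z ∈ Near D 3 x}.toFinset := by
      ext x
      simp
    rw [h5]
    exact h4
  refine le_trans (Finset.card_biUnion_le_card_mul _ _ _ h3) ?_
  calc ZF.card * (7 ^ n * C0) ≤ r ^ (n - 1) * (7 ^ n * C0) := Nat.mul_le_mul_right _ hZc
    _ = 7 ^ n * C0 * r ^ (n - 1) := by ring

end H98T
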