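import Mathlib
import Pool.Agent.Lib.H98T.GA1

set_option autoImplicit false

/-!
# H98T.GD3: different labels nearby
-/

namespace H98T

open Finset

variable {g : ℕ} {V : Type*} {σ : Fin (2 * g) → Equiv.Perm V} {n C0 W K : ℕ}

theorem gd3_same (B : Bx n K) (hl : 6 ≤ B.l) (w w' : Fin n → ℤ) (i : Fin n) (hi : w i = w' i) (hnear : ∀ j, |w j - w' j| ≤ 4)
    (hb : ∀ j, j ≠ i → B.c j ≤ w j ∧ w j < B.c j + K * B.l) (hb' : ∀ j, j ≠ i → B.c j ≤ w' j ∧ w' j < B.c j + K * B.l)
    (hno : ∀ j, j ≠ i → ∀ a : ℤ, 5 < |w j - (B.c j + a * B.l)|) : B.Q w = B.Q w' := by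
  by_cases hin : B.c i ≤ w i ∧ w i < B.c i + K * B.l
  · have hB : B.inB w := by
      intro j
      by_cases hj : j = i
      · subst hj
        exact hin
      · exact hb j hj
    obtain ⟨k, hk⟩ : ∃ k, B.Q w = some k := by
      rcases hQ : B.Q w with _ | k
      · exact absurd hB ((Q_none B w).1 hQ)
      · exact ⟨k, rfl⟩
    rw [hk]
    symm
    rw [Q_some]
    intro j
    have h1 := (Q_some B w k).1 hk j
    by_cases hj : j = i
    · subst hj
      rw [← hi]
      exact h1
    · have h2 := hno j hj ((k j).val : ℤ)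
      have h3 := hno j hj (((k j).val : ℤ) + 1)
      have h4 := hnear j
      rw [abs_le] at h4
      have e1 : ((k j).val : ℤ) * B.l = (B.l : ℤ) * ((k j).val : ℤ) := by ring
      have e2 : (((k j).val : ℤ) + 1) * B.l = (B.l : ℤ) * (((k j).val : ℤ) + 1) := by ring
      rw [e1] at h2
      rw [e2] at h3
      rw [abs_of_nonneg (by linarith [h1.1])] at h2
      rw [abs_of_neg (by linarith [h1.2])] at h3
      constructor <;> linarith [h4.1, h4.2]
  · have hB : B.Q w = none := by
      rw [Q_none]
      intro h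
      exact hin (h i)
    have hB' : B.Q w' = none := by
      rw [Q_none]
      intro h
      have := h i
      rw [← hi] at this
      exact hin this
    rw [hB, hB']

theorem gd3_ev (i j : Fin n) (z : Fin n → ℤ) (h : j ≠ i) : (z + ev i) j = z j := by
  simp [ev, h]

/-- GD3. Chunk GD3 (size M). Two crossing edges with different labels at distance at most `4`: the first one has a coordinate `j ≠ i` within `5` of a multiple of `r` or of a wall.
Proof: `X_wall` for both.  If `i = i'` and `z i = z' i`: the third components of the labels differ at some `j ≠ i` (then a multiple of `r` lies between `z j` and `z' j`), or the cells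
of `z`, `z'` or of `z + e_i`, `z' + e_i` differ; all coordinates `j ≠ i` of both are in the box and the coordinates `i` agree, so both cells are `none` or both are `some` with some
coordinate `j ≠ i` different (`Q_some`): a number `c j + a l` lies between `z j` and `z' j`.  If `i = i'`, `z i ≠ z' i`: they differ by at least `l ≥ 6`, impossible.
If `i ≠ i'`: `j = i'`: `z' j = c j + k l - 1`, `|z j - z' j| ≤ 4`. -/
theorem labels_differ (B : Bx n K) (r : ℕ) (hr : 1 ≤ r) (hl : 6 ≤ B.l) (z z' : Fin n → ℤ) (i i' : Fin n) (h1 : B.X z i) (h2 : B.X z' i')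
    (h3 : near 4 z z') (h4 : B.lab r z i ≠ B.lab r z' i') :
    ∃ j, j ≠ i ∧ ((∃ a : ℤ, |z j - a * r| ≤ 5) ∨ ∃ a : ℤ, |z j - (B.c j + a * B.l)| ≤ 5) := by
  obtain ⟨⟨k, hk, hz⟩, hzb⟩ := X_wall B z i h1
  obtain ⟨⟨k', hk', hz'⟩, hzb'⟩ := X_wall B z' i' h2
  have hn4 : ∀ j, |z j - z' j| ≤ 4 := by
    intro j
    have := h3 j
    push_cast at this
    exact this
  by_cases hii : i = i'
  · subst hii
    by_contra hcon
    push Not at hcon
    apply h4
    have hlz : (6 : ℤ) ≤ B.l := by exact_mod_cast hl
    have hzi : z i = z' i := by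
      have h5 := hn4 i
      rw [abs_le] at h5
      have h6 : (k : ℤ) = k' := by
        rcases lt_trichotomy (k : ℤ) k' with h | h | h
        · exfalso
          have h7 : (k : ℤ) + 1 ≤ k' := by linarith
          have h8 : ((k : ℤ) + 1) * B.l ≤ (k' : ℤ) * B.l := mul_le_mul_of_nonneg_right h7 (by linarith)
          have h9 : ((k : ℤ) + 1) * B.l = (k : ℤ) * B.l + B.l := by ring
          linarith [h5.1, h5.2]
        · exact h
        · exfalso
          have h7 : (k' : ℤ) + 1 ≤ k := by linarith
          have h8 : ((k' : ℤ) + 1) * B.l ≤ (k : ℤ) * B.l := mul_le_mul_of_nonneg_right h7 (by linarith)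
          have h9 : ((k' : ℤ) + 1) * B.l = (k' : ℤ) * B.l + B.l := by ring
          linarith [h5.1, h5.2]
      rw [hz, hz', h6]
    have hr0 : (0 : ℤ) < r := by exact_mod_cast hr
    have hthird : ∀ j, j ≠ i → z j / (r : ℤ) = z' j / (r : ℤ) := by
      intro j hj
      have h5 := hn4 j
      rw [abs_le] at h5
      have h6 := (hcon j hj).1
      have a1 := Int.mul_ediv_add_emod (z j) r
      have a2 := Int.emod_nonneg (z j) (ne_of_gt hr0)
      have a3 := Int.emod_lt_of_pos (z j) hr0
      have b1 := Int.mul_ediv_add_emod (z' j) r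
      have b2 := Int.emod_nonneg (z' j) (ne_of_gt hr0)
      have b3 := Int.emod_lt_of_pos (z' j) hr0
      rcases lt_trichotomy (z j / (r : ℤ)) (z' j / (r : ℤ)) with h | h | h
      · exfalso
        have h7 : z j / (r : ℤ) + 1 ≤ z' j / (r : ℤ) := by linarith
        have h8 : (r : ℤ) * (z j / (r : ℤ) + 1) ≤ (r : ℤ) * (z' j / (r : ℤ)) := mul_le_mul_of_nonneg_left h7 (by linarith)
        have h9 : (r : ℤ) * (z j / (r : ℤ) + 1) = (r : ℤ) * (z j / (r : ℤ)) + r := by ring
        have h10 := h6 (z' j / (r : ℤ))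
        have h11 : (z' j / (r : ℤ)) * (r : ℤ) = (r : ℤ) * (z' j / (r : ℤ)) := by ring
        rw [h11, lt_abs] at h10
        rcases h10 with h10 | h10 <;> linarith [h5.1, h5.2]
      · exact h
      · exfalso
        have h7 : z' j / (r : ℤ) + 1 ≤ z j / (r : ℤ) := by linarith
        have h8 : (r : ℤ) * (z' j / (r : ℤ) + 1) ≤ (r : ℤ) * (z j / (r : ℤ)) := mul_le_mul_of_nonneg_left h7 (by linarith)
        have h9 : (r : ℤ) * (z' j / (r : ℤ) + 1) = (r : ℤ) * (z' j / (r : ℤ)) + r := by ring
        have h10 := h6 (z j / (r : ℤ))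
        have h11 : (z j / (r : ℤ)) * (r : ℤ) = (r : ℤ) * (z j / (r : ℤ)) := by ring
        rw [h11, lt_abs] at h10
        rcases h10 with h10 | h10 <;> linarith [h5.1, h5.2]
    have hQ1 : B.Q z = B.Q z' := gd3_same B hl z z' i hzi hn4 hzb hzb' (fun j hj a => (hcon j hj).2 a)
    have hQ2 : B.Q (z + ev i) = B.Q (z' + ev i) := by
      apply gd3_same B hl (z + ev i) (z' + ev i) i
      · simp [hzi]
      · intro j
        have h5 := hn4 j
        have h6 : (z + ev i) j - (z' + ev i) j = z j - z' j := by simp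
        rw [h6]
        exact h5
      · intro j hj
        rw [gd3_ev i j z hj]
        exact hzb j hj
      · intro j hj
        rw [gd3_ev i j z' hj]
        exact hzb' j hj
      · intro j hj a
        rw [gd3_ev i j z hj]
        exact (hcon j hj).2 a
    have hthird' : (fun j => if j = i then (0 : ℤ) else z j / (r : ℤ)) = (fun j => if j = i then (0 : ℤ) else z' j / (r : ℤ)) := by
      funext j
      by_cases hj : j = i
      · simp [hj]
      · simp only [hj, if_false]
        exact hthird j hj
    unfold Bx.lab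
    rw [hzi, hthird', hQ1, hQ2]
  · refine ⟨i', fun h => hii h.symm, Or.inr ⟨(k' : ℤ), ?_⟩⟩
    have h5 := hn4 i'
    rw [hz'] at h5
    rw [abs_le] at h5 ⊢
    constructor <;> linarith [h5.1, h5.2]

end H98T
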