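import Mathlib
import Pool.Agent.Lib.H98T.GD1
import Pool.Agent.Lib.H98T.GD3

set_option autoImplicit false

/-!
# H98T.GD4: the number of bad polygons
-/

namespace H98T

open Finset

variable {g : ℕ} {V : Type*} {σ : Fin (2 * g) → Equiv.Perm V} {n C0 W K : ℕ}

/-- GD4a. Chunk GD4 (size S/M). Integers of an interval of length `L` within `5` of a multiple of `r` (shifted by `c`): at most `11 (L / r + 3)`. -/
theorem near_mult_card (c0 c r : ℤ) (L : ℕ) (hr : 1 ≤ r) :
    {t : ℤ | (c0 ≤ t ∧ t < c0 + L) ∧ ∃ a : ℤ, |t - (c + a * r)| ≤ 5}.ncard ≤ 11 * (L / r.toNat + 3) := by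
  classical
  obtain ⟨m, rfl⟩ : ∃ m : ℕ, r = m := ⟨r.toNat, (Int.toNat_of_nonneg (by linarith)).symm⟩
  have hm : 1 ≤ m := by exact_mod_cast hr
  rw [Int.toNat_natCast]
  have hLm := Nat.div_add_mod L m
  have hLm2 := Nat.mod_lt L (show 0 < m by omega)
  by_cases hsmall : m ≤ 11
  · have hsub : {t : ℤ | (c0 ≤ t ∧ t < c0 + L) ∧ ∃ a : ℤ, |t - (c + a * m)| ≤ 5} ⊆ ((Finset.Ico c0 (c0 + L) : Finset ℤ) : Set ℤ) := by
      rintro t ⟨ht, _⟩
      rw [Finset.mem_coe, Finset.mem_Ico]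
      exact ht
    have h1 := Set.ncard_le_ncard hsub (Finset.finite_toSet _)
    rw [Set.ncard_coe_finset, Int.card_Ico] at h1
    have h2 : m * (L / m) ≤ 11 * (L / m) := Nat.mul_le_mul_right _ hsmall
    omega
  · push Not at hsmall
    set p : ℤ := c0 - 5 - c with hp
    set a0 : ℤ := p / m with ha0
    have hm0 : (0 : ℤ) < m := by exact_mod_cast (by omega : 0 < m)
    have q1 := Int.mul_ediv_add_emod p m
    have q2 := Int.emod_nonneg p (ne_of_gt hm0)
    have q3 := Int.emod_lt_of_pos p hm0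
    have hsub : {t : ℤ | (c0 ≤ t ∧ t < c0 + L) ∧ ∃ a : ℤ, |t - (c + a * m)| ≤ 5} ⊆
        (((Finset.range (L / m + 3)).biUnion (fun k : ℕ => Finset.Icc (c + (a0 + k) * m - 5) (c + (a0 + k) * m + 5)) : Finset ℤ) : Set ℤ) := by
      rintro t ⟨ht, a, hat⟩
      rw [Finset.mem_coe, Finset.mem_biUnion]
      rw [abs_le] at hat
      have h1 : a0 ≤ a := by
        by_contra hcon
        push Not at hcon
        have h2 : a + 1 ≤ a0 := by linarith
        have h3 : (m : ℤ) * (a + 1) ≤ m * a0 := mul_le_mul_of_nonneg_left h2 (by linarith)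
        have h4 : (m : ℤ) * (a + 1) = a * m + m := by ring
        linarith [ht.1, ht.2, hat.1, hat.2]
      have h5 : a < a0 + ((L / m + 3 : ℕ) : ℤ) := by
        by_contra hcon
        push Not at hcon
        have h3 : (m : ℤ) * (a0 + ((L / m + 3 : ℕ) : ℤ)) ≤ m * a := mul_le_mul_of_nonneg_left hcon (by linarith)
        have h6 : (L : ℤ) = m * ((L / m : ℕ) : ℤ) + ((L % m : ℕ) : ℤ) := by exact_mod_cast hLm.symm
        have h7 : ((L % m : ℕ) : ℤ) < m := by exact_mod_cast hLm2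
        have h8 : (m : ℤ) * (a0 + ((L / m + 3 : ℕ) : ℤ)) = m * a0 + m * ((L / m : ℕ) : ℤ) + 3 * m := by push_cast; ring
        have h9 : (12 : ℤ) ≤ m := by exact_mod_cast (by omega : 12 ≤ m)
        have h10 : (m : ℤ) * a = a * m := by ring
        linarith [ht.1, ht.2, hat.1, hat.2]
      refine ⟨(a - a0).toNat, ?_, ?_⟩
      · rw [Finset.mem_range]
        omega
      · have h11 : (((a - a0).toNat : ℕ) : ℤ) = a - a0 := Int.toNat_of_nonneg (by linarith)
        rw [Finset.mem_Icc, h11]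
        have h12 : a0 + (a - a0) = a := by ring
        rw [h12]
        constructor <;> linarith [hat.1, hat.2]
    have h1 := Set.ncard_le_ncard hsub (Finset.finite_toSet _)
    rw [Set.ncard_coe_finset] at h1
    refine le_trans h1 ?_
    refine le_trans (Finset.card_biUnion_le_card_mul _ _ 11 ?_) ?_
    · intro k _
      rw [Int.card_Icc]
      have : c + (a0 + (k : ℤ)) * m + 5 + 1 - (c + (a0 + (k : ℤ)) * m - 5) = 11 := by ring
      rw [this]
      simp
    · rw [Finset.card_range]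
      exact le_of_eq (by ring)

/-- GD4b. Chunk GD4 (size M). The number of bad polygons.  A bad polygon touches a point within distance `2` of a crossing edge `(z', i')` which has another crossing edge with a different label
within distance `4`; `labels_differ`, `X_card2` with `N = 11 (K l / r + 3) + 11 (K + 3)` (`near_mult_card` twice), and at most `5^n C0` polygons touch a point within distance `2` of a given point. -/
theorem bad_card [Fintype V] (D : DigiData σ n C0 W) (B : Bx n K) (r : ℕ) (hr : 1 ≤ r) (hl : 6 ≤ B.l) :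
    {x : V | Bad D B r x}.ncard ≤ 5 ^ n * C0 * (n * (n * ((K + 1) * ((11 * (K * B.l / r + 3) + 11 * (K + 3)) * (K * B.l) ^ (n - 2))))) := by
  classical
  let T : Fin n → ℤ → Prop := fun j t => (∃ a : ℤ, |t - a * r| ≤ 5) ∨ ∃ a : ℤ, |t - (B.c j + a * B.l)| ≤ 5
  have hr0 : (1 : ℤ) ≤ r := by exact_mod_cast hr
  have hl0 : (1 : ℤ) ≤ B.l := by exact_mod_cast B.hl
  have hT := X_card2 B T (11 * (K * B.l / r + 3) + 11 * (K + 3)) (by
    intro j
    have h1 := near_mult_card (B.c j) 0 r (K * B.l) hr0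
    have h2 := near_mult_card (B.c j) (B.c j) B.l (K * B.l) hl0
    rw [Int.toNat_natCast] at h1 h2
    rw [Nat.mul_div_cancel _ (by have := B.hl; omega)] at h2
    have hsub : {t : ℤ | (B.c j ≤ t ∧ t < B.c j + K * B.l) ∧ T j t} ⊆
        {t : ℤ | (B.c j ≤ t ∧ t < B.c j + ((K * B.l : ℕ) : ℤ)) ∧ ∃ a : ℤ, |t - (0 + a * r)| ≤ 5} ∪
        {t : ℤ | (B.c j ≤ t ∧ t < B.c j + ((K * B.l : ℕ) : ℤ)) ∧ ∃ a : ℤ, |t - (B.c j + a * B.l)| ≤ 5} := by
      rintro t ⟨ht, h | h⟩
      · left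
        refine ⟨by push_cast; exact ht, ?_⟩
        obtain ⟨a, ha⟩ := h
        exact ⟨a, by rwa [zero_add]⟩
      · right
        exact ⟨by push_cast; exact ht, h⟩
    have hfin : ({t : ℤ | (B.c j ≤ t ∧ t < B.c j + ((K * B.l : ℕ) : ℤ)) ∧ ∃ a : ℤ, |t - (0 + a * r)| ≤ 5} ∪
        {t : ℤ | (B.c j ≤ t ∧ t < B.c j + ((K * B.l : ℕ) : ℤ)) ∧ ∃ a : ℤ, |t - (B.c j + a * B.l)| ≤ 5}).Finite := by
      apply (Set.finite_Ico (B.c j) (B.c j + ((K * B.l : ℕ) : ℤ))).subset
      rintro t (⟨ht, _⟩ | ⟨ht, _⟩)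
      · exact ht
      · exact ht
    have h3 := Set.ncard_le_ncard hsub hfin
    have h4 := Set.ncard_union_le {t : ℤ | (B.c j ≤ t ∧ t < B.c j + ((K * B.l : ℕ) : ℤ)) ∧ ∃ a : ℤ, |t - (0 + a * r)| ≤ 5}
        {t : ℤ | (B.c j ≤ t ∧ t < B.c j + ((K * B.l : ℕ) : ℤ)) ∧ ∃ a : ℤ, |t - (B.c j + a * B.l)| ≤ 5}
    omega)
  have hSf : {p : (Fin n → ℤ) × Fin n | B.X p.1 p.2 ∧ ∃ j, j ≠ p.2 ∧ T j (p.1 j)}.Finite :=
    (X_card B).1.subset (fun p hp => hp.1)
  set SF := hSf.toFinset with hSF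
  rw [Set.ncard_eq_toFinset_card _ hSf] at hT
  have hsub : {x : V | Bad D B r x} ⊆ ((SF.biUnion (fun p => (Finset.univ : Finset V).filter (fun x => p.1 ∈ Near D 2 x)) : Finset V) : Set V) := by
    rintro x ⟨z, hz, z', i', z'', i'', h1, h2, hX', hX'', hlab⟩
    rw [Finset.mem_coe, Finset.mem_biUnion]
    refine ⟨(z', i'), ?_, ?_⟩
    · rw [hSF, Set.Finite.mem_toFinset]
      refine ⟨hX', ?_⟩
      apply labels_differ B r hr hl z' z'' i' i'' hX' hX'' _ hlab
      intro c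
      have h3 := h1 c
      have h4 := h2 c
      rw [abs_le] at h3 h4 ⊢
      push_cast at h3 h4 ⊢
      constructor <;> linarith [h3.1, h3.2, h4.1, h4.2]
    · rw [Finset.mem_filter]
      exact ⟨Finset.mem_univ _, z, hz, h1⟩
  refine le_trans (Set.ncard_le_ncard hsub (Finset.finite_toSet _)) ?_
  rw [Set.ncard_coe_finset]
  have h3 : ∀ p ∈ SF, ((Finset.univ : Finset V).filter (fun x => p.1 ∈ Near D 2 x)).card ≤ 5 ^ n * C0 := by
    intro p _
    have h4 := ncard_Near D 2 p.1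
    rw [Set.ncard_eq_toFinset_card'] at h4
    have h5 : ((Finset.univ : Finset V).filter (fun x => p.1 ∈ Near D 2 x)) = {x : V | p.1 ∈ Near D 2 x}.toFinset := by
      ext x
      simp
    rw [h5]
    exact h4
  refine le_trans (Finset.card_biUnion_le_card_mul _ _ _ h3) ?_
  rw [mul_comm]
  exact Nat.mul_le_mul_left _ hT

end H98T
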