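import Mathlib
import Pool.Agent.Lib.H98T.GB1
import Pool.Agent.Lib.H98T.GC1
import Pool.Agent.Lib.H98T.GC2
import Pool.Agent.Lib.H98T.GD2
import Pool.Agent.Lib.H98T.GD4

set_option autoImplicit false

/-!
# H98T.GM: the result of the lattice geometry
-/

namespace H98T

open Finset


theorem gm_all {g n C0 W d : ℕ} {σ : Fin (2 * g) → Equiv.Perm (Fin d)} (D : DigiData σ n C0 W) : d ≤ C0 * (2 * W + 1) ^ n := by
  have h1 := gb1_cube D (fun _ => -(W : ℤ)) (2 * W + 1)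
  have h2 : {x : Fin d | ∀ z ∈ Touch D x, ∀ i, (fun _ => -(W : ℤ)) i ≤ z i ∧ z i < (fun _ => -(W : ℤ)) i + ((2 * W + 1 : ℕ) : ℤ)} = Set.univ := by
    apply Set.eq_univ_of_forall
    rintro x z ⟨a, b, ha, hb, rfl⟩ i
    have h3 := D.bound x a b i ha hb
    rw [abs_le] at h3
    push_cast
    constructor
    · show -(W : ℤ) ≤ D.F x a b i
      linarith [h3.1]
    · show D.F x a b i < -(W : ℤ) + (2 * (W : ℤ) + 1)
      linarith [h3.2]
  rw [h2, Set.ncard_univ, Nat.card_eq_fintype_card, Fintype.card_fin] at h1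
  exact h1

theorem gm_bl (c x w kk : ℝ) (m : ℕ) (b Md : ℝ) (hb : 0 ≤ b) (hkk : 0 < kk) (hx0 : 0 ≤ x) (hx : x * kk ≤ b * w) (hw : w ^ m ≤ Md) (hc : 0 ≤ c) :
    c * x ^ m ≤ c * b ^ m * (Md / kk ^ m) := by
  have h1 : x ≤ b * w / kk := by
    rw [le_div_iff₀ hkk]
    exact hx
  have h2 : x ^ m ≤ (b * w / kk) ^ m := pow_le_pow_left₀ hx0 h1 m
  have h3 : (b * w / kk) ^ m = b ^ m * (w ^ m / kk ^ m) := by
    rw [div_pow, mul_pow, mul_div_assoc]
  rw [h3] at h2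
  have h4 : b ^ m * (w ^ m / kk ^ m) ≤ b ^ m * (Md / kk ^ m) := by
    apply mul_le_mul_of_nonneg_left _ (pow_nonneg hb m)
    exact div_le_div_of_nonneg_right hw (le_of_lt (pow_pos hkk m))
  calc c * x ^ m ≤ c * (b ^ m * (Md / kk ^ m)) := mul_le_mul_of_nonneg_left (le_trans h2 h4) hc
    _ = c * b ^ m * (Md / kk ^ m) := by ring

theorem gm_m {g n C0 W d : ℕ} {σ : Fin (2 * g) → Equiv.Perm (Fin d)} (D : DigiData σ n C0 W) (hg : 1 ≤ g) (hE : Expand (two σ)) (hd : 2 * C0 < d) : 1 ≤ D.m := by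
  classical
  by_contra hcon
  have hm0 : D.m = 0 := by omega
  have hP : ∀ k v, D.P (σ k v) = D.P v := by
    intro k v
    rw [← D.E_end k v, hm0, D.E_start]
  have v0 : Fin d := ⟨0, by omega⟩
  set U : Finset (Fin d) := Finset.univ.filter (fun v => D.P v = D.P v0) with hU
  have hUne : U.Nonempty := ⟨v0, by rw [hU, Finset.mem_filter]; exact ⟨Finset.mem_univ _, rfl⟩⟩
  have htwo : ∀ (i : Fin 2) v, D.P (two σ i v) = D.P v := by
    intro i v
    unfold two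
    by_cases h : i.val < 2 * g
    · rw [dif_pos h]
      exact hP _ _
    · rw [dif_neg h]
      rfl
  have hinv : ∀ i : Fin 2, U.image (two σ i) \ U = ∅ := by
    intro i
    rw [Finset.sdiff_eq_empty_iff_subset]
    intro y hy
    rw [Finset.mem_image] at hy
    obtain ⟨v, hv, rfl⟩ := hy
    rw [hU, Finset.mem_filter] at hv ⊢
    exact ⟨Finset.mem_univ _, (htwo i v).trans hv.2⟩
  have h1 : ¬ 2 * U.card ≤ d := by
    intro h2
    have h3 := hE U hUne (by rw [Fintype.card_fin]; exact h2)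
    rw [hinv 0, hinv 1] at h3
    simp only [Finset.card_empty, add_zero, mul_zero, Nat.le_zero] at h3
    rw [Finset.card_eq_zero] at h3
    rw [h3] at hUne
    exact Finset.not_nonempty_empty hUne
  have h4 := D.mult (D.P v0)
  have h5 : (U : Set (Fin d)) ⊆ {x | ∃ i j, i ≤ 4 * g * D.m ∧ j ≤ D.m' ∧ D.F x i j = D.P v0} := by
    intro x hx
    rw [Finset.mem_coe, hU, Finset.mem_filter] at hx
    have h6 := corner_mem D x (⟨0, by omega⟩ : Fin (4 * g))
    have h7 : u σ ((⟨0, by omega⟩ : Fin (4 * g)).val) x = x := rfl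
    rw [h7, hx.2] at h6
    exact h6
  have h8 := Set.ncard_le_ncard h5 (Set.toFinite _)
  rw [Set.ncard_coe_finset] at h8
  omega

/-- GM. Chunk GM (size M/L). THE NUMBERS.  For given `n`, `g`, `C0` there is `CA` such that for all `M, K, r` and large `d`: for every expanding `σ` of degree `d` and every digitization in `[-W, W]ⁿ` with
`W^(n-1) ≤ M d` there is a box with the properties needed.
Proof.  The touched points are in `[-W, W]ⁿ`, each polygon touches one, so `d ≤ C0 (2W+1)^n`: `W → ∞` with `d`; so for `d ≥ d0` the hypotheses of `exists_box` hold, and `l ≥ 6`, `K l ≥ r (K + 4)` etc.  Take its box: `K l ≤ 4 W`.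
* `sum_Sx`: `7^n C0 n (K+1)(K l)^(n-1) ≤ 7^n C0 n * 2 K * (4 W)^(n-1) ≤ CA K M d`.
* `mult_Sx`.
* `bad_card`: `5^n C0 n^2 (K+1) (11 (K l / r + 3) + 11 (K+3)) (K l)^(n-2) ≤ CA K (K l)^(n-1)/r` as soon as `K l ≥ r (K + 6)`.
* `Rx_card`: for `q = some k`, `BL_some`: `301 C0 16 n (l + 8)^(n-1)`, `l ≤ 4 W / K`, `8 ≤ W/K`: `≤ CA M d / K^(n-1)`.  For `q = none`: either no `Rx` contains `none` (first alternative of
  `exists_box`, `Near 4`), or `BL_none` with `K l ≤ 8 W / K`. -/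
theorem geometry (n g C0 : ℕ) (hn : 2 ≤ n) (hg : 2 ≤ g) : ∃ CA : ℝ, 1 ≤ CA ∧ ∀ (M : ℝ) (K r : ℕ), 1 ≤ M → 2 ≤ K → 1 ≤ r →
    ∃ d0 : ℕ, ∀ d : ℕ, d0 ≤ d → ∀ (σ : Fin (2 * g) → Equiv.Perm (Fin d)) (W : ℕ), Expand (two σ) → (W : ℝ) ^ (n - 1) ≤ M * d →
      ∀ D : DigiData σ n C0 W, ∃ B : Bx n K,
        (∀ x, (Sx D B r x).Finite) ∧ (∑ x, ((Sx D B r x).ncard : ℝ)) ≤ CA * K * M * d ∧
        (∀ y, ({x | y ∈ Sx D B r x}.ncard : ℝ) ≤ CA * (r : ℝ) ^ (n - 1)) ∧
        ({x | Bad D B r x}.ncard : ℝ) ≤ CA * K * M * d / r ∧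
        ∀ q, ({x | q ∈ Rx D B x}.ncard : ℝ) ≤ CA * M / (K : ℝ) ^ (n - 1) * d := by
  set c1 : ℝ := 7 ^ n * C0 * n * 2 * 4 ^ (n - 1) with hc1
  set c2 : ℝ := 7 ^ n * C0 with hc2
  set c3 : ℝ := 5 ^ n * C0 * n ^ 2 * 44 * 4 ^ (n - 1) with hc3
  set c5 : ℝ := 301 * C0 * 16 * n * 9 ^ (n - 1) with hc5
  have c1n : 0 ≤ c1 := by positivity
  have c2n : 0 ≤ c2 := by positivity
  have c3n : 0 ≤ c3 := by positivity
  have c5n : 0 ≤ c5 := by positivity
  refine ⟨1 + c1 + c2 + c3 + c5, by linarith, ?_⟩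
  intro M K r hM hK hr
  set W0 : ℕ := K ^ 2 + K + 11 + 8 * K with hW0
  set L0 : ℕ := K * (6 + r * (K + 6)) with hL0
  refine ⟨C0 * (2 * W0 + 1) ^ n + 2 * ((2 * K) ^ n * C0) + 2 * C0 * L0 ^ n + 1 + 2 * C0, ?_⟩
  intro d hd σ W hE hW D
  have hDm : 1 ≤ D.m := gm_m D (by omega) hE (by omega)
  have hWbig : W0 ≤ W := by
    by_contra hcon
    push Not at hcon
    have h1 := gm_all D
    have h2 : C0 * (2 * W + 1) ^ n ≤ C0 * (2 * W0 + 1) ^ n := by
      apply Nat.mul_le_mul_left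
      apply Nat.pow_le_pow_left
      omega
    omega
  obtain ⟨B, hBk, hB4, hBd, hBalt⟩ := exists_box (K := K) D (by omega) hK (by omega) (by rw [Fintype.card_fin]; omega)
  rw [Fintype.card_fin] at hBd
  have hLbig : L0 < K * B.l := by
    by_contra hcon
    push Not at hcon
    have h2 : 2 * C0 * (K * B.l) ^ n ≤ 2 * C0 * L0 ^ n := by
      apply Nat.mul_le_mul_left
      exact Nat.pow_le_pow_left hcon _
    omega
  have hlbig : 6 + r * (K + 6) < B.l := Nat.lt_of_mul_lt_mul_left hLbig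
  have hl6 : 6 ≤ B.l := by omega
  have hKpos : (0 : ℝ) < K := by exact_mod_cast (by omega : 0 < K)
  have hrpos : (0 : ℝ) < r := by exact_mod_cast (by omega : 0 < r)
  have hK2 : (2 : ℝ) ≤ K := by exact_mod_cast hK
  have hB4r : (K : ℝ) * B.l ≤ 4 * W := by exact_mod_cast hB4
  have hlr : (0 : ℝ) ≤ B.l := Nat.cast_nonneg _
  have hMd : (0 : ℝ) ≤ M * d := mul_nonneg (by linarith) (Nat.cast_nonneg _)
  have hpow : ((K : ℝ) * B.l) ^ (n - 1) ≤ 4 ^ (n - 1) * (M * d) := by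
    calc ((K : ℝ) * B.l) ^ (n - 1) ≤ (4 * (W : ℝ)) ^ (n - 1) := pow_le_pow_left₀ (by positivity) hB4r _
      _ = 4 ^ (n - 1) * (W : ℝ) ^ (n - 1) := mul_pow _ _ _
      _ ≤ 4 ^ (n - 1) * (M * d) := mul_le_mul_of_nonneg_left hW (by positivity)
  have hW8 : (8 : ℝ) * K ≤ W := by
    have : 8 * K ≤ W := by omega
    exact_mod_cast this
  obtain ⟨hSf, hSs⟩ := sum_Sx D B r
  refine ⟨B, hSf, ?_, ?_, ?_, ?_⟩
  · have h1 : (∑ x, ((Sx D B r x).ncard : ℝ)) ≤ 7 ^ n * C0 * (n * (((K : ℝ) + 1) * ((K : ℝ) * B.l) ^ (n - 1))) := by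
      have h2 : ((∑ x, (Sx D B r x).ncard : ℕ) : ℝ) ≤ ((7 ^ n * C0 * (n * ((K + 1) * (K * B.l) ^ (n - 1))) : ℕ) : ℝ) := by exact_mod_cast hSs
      push_cast at h2
      exact h2
    have h3 : ((K : ℝ) + 1) * ((K : ℝ) * B.l) ^ (n - 1) ≤ (2 * K) * (4 ^ (n - 1) * (M * d)) := by
      apply mul_le_mul (by linarith) hpow (by positivity) (by positivity)
    have h4 : 7 ^ n * (C0 : ℝ) * (n * (((K : ℝ) + 1) * ((K : ℝ) * B.l) ^ (n - 1))) ≤ 7 ^ n * (C0 : ℝ) * (n * ((2 * K) * (4 ^ (n - 1) * (M * d)))) := by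
      apply mul_le_mul_of_nonneg_left _ (by positivity)
      apply mul_le_mul_of_nonneg_left h3 (by positivity)
    have h5 : 7 ^ n * (C0 : ℝ) * (n * ((2 * K) * (4 ^ (n - 1) * (M * d)))) = c1 * (K * (M * d)) := by
      rw [hc1]; ring
    have h6 : c1 * ((K : ℝ) * (M * d)) ≤ (1 + c1 + c2 + c3 + c5) * (K * (M * d)) := by
      apply mul_le_mul_of_nonneg_right (by linarith) (by positivity)
    calc (∑ x, ((Sx D B r x).ncard : ℝ)) ≤ _ := h1
      _ ≤ _ := h4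
      _ = _ := h5
      _ ≤ _ := h6
      _ = (1 + c1 + c2 + c3 + c5) * K * M * d := by ring
  · intro y
    have h1 := mult_Sx D B r hr y
    have h2 : (({x : Fin d | y ∈ Sx D B r x}.ncard : ℕ) : ℝ) ≤ ((7 ^ n * C0 * r ^ (n - 1) : ℕ) : ℝ) := by exact_mod_cast h1
    push_cast at h2
    refine le_trans h2 ?_
    apply mul_le_mul_of_nonneg_right _ (by positivity)
    linarith
  · have h1 := bad_card D B r hr hl6
    have h2 : (({x : Fin d | Bad D B r x}.ncard : ℕ) : ℝ) ≤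
        ((5 ^ n * C0 * (n * (n * ((K + 1) * ((11 * (K * B.l / r + 3) + 11 * (K + 3)) * (K * B.l) ^ (n - 2))))) : ℕ) : ℝ) := by exact_mod_cast h1
    push_cast at h2
    have h3 : (((K * B.l / r : ℕ)) : ℝ) ≤ (K : ℝ) * B.l / r := by
      have h4 : (((K * B.l / r : ℕ)) : ℝ) ≤ ((K * B.l : ℕ) : ℝ) / (r : ℝ) := Nat.cast_div_le
      push_cast at h4
      exact h4
    have h5 : (K : ℝ) + 6 ≤ (K : ℝ) * B.l / r := by
      rw [le_div_iff₀ hrpos]
      have h6 : (K + 6) * r ≤ K * B.l := by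
        have h7 : r * (K + 6) ≤ B.l := by omega
        have h8 : B.l ≤ K * B.l := Nat.le_mul_of_pos_left _ (by omega)
        calc (K + 6) * r = r * (K + 6) := by ring
          _ ≤ B.l := h7
          _ ≤ K * B.l := h8
      exact_mod_cast h6
    have h9 : 11 * ((((K * B.l / r : ℕ)) : ℝ) + 3) + 11 * ((K : ℝ) + 3) ≤ 22 * ((K : ℝ) * B.l / r) := by linarith
    have hn2 : ((K : ℝ) * B.l) * ((K : ℝ) * B.l) ^ (n - 2) = ((K : ℝ) * B.l) ^ (n - 1) := by
      rw [← pow_succ']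
      congr 1
      omega
    have h10 : (11 * ((((K * B.l / r : ℕ)) : ℝ) + 3) + 11 * ((K : ℝ) + 3)) * ((K : ℝ) * B.l) ^ (n - 2) ≤ 22 * (4 ^ (n - 1) * (M * d)) / r := by
      calc (11 * ((((K * B.l / r : ℕ)) : ℝ) + 3) + 11 * ((K : ℝ) + 3)) * ((K : ℝ) * B.l) ^ (n - 2)
          ≤ (22 * ((K : ℝ) * B.l / r)) * ((K : ℝ) * B.l) ^ (n - 2) := mul_le_mul_of_nonneg_right h9 (by positivity)
        _ = 22 * (((K : ℝ) * B.l) * ((K : ℝ) * B.l) ^ (n - 2)) / r := by ring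
        _ = 22 * ((K : ℝ) * B.l) ^ (n - 1) / r := by rw [hn2]
        _ ≤ 22 * (4 ^ (n - 1) * (M * d)) / r := by
            apply div_le_div_of_nonneg_right _ (le_of_lt hrpos)
            linarith
    have h11 : ((K : ℝ) + 1) * ((11 * ((((K * B.l / r : ℕ)) : ℝ) + 3) + 11 * ((K : ℝ) + 3)) * ((K : ℝ) * B.l) ^ (n - 2)) ≤
        (2 * K) * (22 * (4 ^ (n - 1) * (M * d)) / r) := by
      apply mul_le_mul (by linarith) h10 (by positivity) (by positivity)
    have h12 : 5 ^ n * (C0 : ℝ) * (n * (n * (((K : ℝ) + 1) * ((11 * ((((K * B.l / r : ℕ)) : ℝ) + 3) + 11 * ((K : ℝ) + 3)) * ((K : ℝ) * B.l) ^ (n - 2))))) ≤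
        5 ^ n * (C0 : ℝ) * (n * (n * ((2 * K) * (22 * (4 ^ (n - 1) * (M * d)) / r)))) := by
      apply mul_le_mul_of_nonneg_left _ (by positivity)
      apply mul_le_mul_of_nonneg_left _ (by positivity)
      apply mul_le_mul_of_nonneg_left h11 (by positivity)
    have h13 : 5 ^ n * (C0 : ℝ) * (n * (n * ((2 * K) * (22 * (4 ^ (n - 1) * (M * d)) / r)))) = c3 * (K * (M * d) / r) := by
      rw [hc3]; ring
    have h14 : c3 * ((K : ℝ) * (M * d) / r) ≤ (1 + c1 + c2 + c3 + c5) * (K * (M * d) / r) := by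
      apply mul_le_mul_of_nonneg_right (by linarith) (by positivity)
    calc (({x : Fin d | Bad D B r x}.ncard : ℕ) : ℝ) ≤ _ := h2
      _ ≤ _ := h12
      _ = _ := h13
      _ ≤ _ := h14
      _ = (1 + c1 + c2 + c3 + c5) * K * M * d / r := by ring
  · intro q
    have hfin : (1 + c1 + c2 + c3 + c5) * M / (K : ℝ) ^ (n - 1) * d = (1 + c1 + c2 + c3 + c5) * (M * d / (K : ℝ) ^ (n - 1)) := by ring
    rw [hfin]
    have hc5le : c5 * (M * d / (K : ℝ) ^ (n - 1)) ≤ (1 + c1 + c2 + c3 + c5) * (M * d / (K : ℝ) ^ (n - 1)) := by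
      apply mul_le_mul_of_nonneg_right (by linarith) (by positivity)
    refine le_trans ?_ hc5le
    have hcase : (2 * (insd D B q).ncard ≤ d ∧ (BL B q).Finite ∧ ∃ X : ℕ, (BL B q).ncard ≤ 16 * n * X ^ (n - 1) ∧ (X : ℝ) * K ≤ 9 * W) ∨
        {x : Fin d | q ∈ Rx D B x} = ∅ := by
      rcases q with _ | k
      · rcases hBalt with h | ⟨h1, h2⟩
        · right
          apply Set.eq_empty_of_forall_notMem
          rintro x ⟨z, hz, hQ⟩
          exact h x z hz hQ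
        · left
          rw [Fintype.card_fin] at h1
          have h3 := BL_none B
          refine ⟨h1, h3.1, K * B.l + 8, h3.2, ?_⟩
          push_cast
          have h4 : (K : ℝ) * (K * B.l) ≤ 8 * W := by exact_mod_cast h2
          linarith
      · left
        have h1 := hBk k
        rw [Fintype.card_fin] at h1
        have h3 := BL_some B k
        refine ⟨h1, h3.1, B.l + 8, h3.2, ?_⟩
        push_cast
        linarith
    rcases hcase with ⟨h1, h2, X, h3, h4⟩ | h1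
    · have h5 := Rx_card D (by omega) hDm hE B q h2 (by rw [Fintype.card_fin]; exact h1)
      have h6 : {x : Fin d | q ∈ Rx D B x}.ncard ≤ 301 * (C0 * (16 * n * X ^ (n - 1))) := by
        refine le_trans h5 ?_
        apply Nat.mul_le_mul_left
        exact Nat.mul_le_mul_left _ h3
      have h7 : (({x : Fin d | q ∈ Rx D B x}.ncard : ℕ) : ℝ) ≤ ((301 * (C0 * (16 * n * X ^ (n - 1))) : ℕ) : ℝ) := by exact_mod_cast h6
      push_cast at h7
      have h8 := gm_bl (301 * C0 * 16 * n) X W K (n - 1) 9 (M * d) (by norm_num) hKpos (Nat.cast_nonneg _) h4 hW (by positivity)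
      calc (({x : Fin d | q ∈ Rx D B x}.ncard : ℕ) : ℝ) ≤ 301 * ((C0 : ℝ) * (16 * n * (X : ℝ) ^ (n - 1))) := h7
        _ = 301 * C0 * 16 * n * (X : ℝ) ^ (n - 1) := by ring
        _ ≤ _ := h8
    · rw [h1, Set.ncard_empty]
      push_cast
      positivity

end H98T
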