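import Mathlib

set_option autoImplicit false

/-!
# H98T.WC1: cutting a forest of maximal degree 3 into small pieces
-/

namespace H98T

open Finset

theorem wc1_insert {V : Type} [DecidableEq V] (R : V → V → Prop) [i1 : DecidablePred (fun p : V × V => R p.1 p.2)]
    (hR : ∀ x y, R x y → R y x) (hirr : ∀ x, ¬ R x x) (S' : Finset V) (z : V) [i2 : DecidablePred (fun x => R z x)]
    (hz : z ∉ S') :
    ((insert z S' ×ˢ insert z S').filter (fun p => R p.1 p.2)).card =
      ((S' ×ˢ S').filter (fun p => R p.1 p.2)).card + 2 * (S'.filter (fun x => R z x)).card := by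
  classical
  obtain rfl : i1 = fun p => Classical.propDecidable _ := Subsingleton.elim _ _
  obtain rfl : i2 = fun p => Classical.propDecidable _ := Subsingleton.elim _ _
  have key : ∀ A : Finset V, ((A ×ˢ A).filter (fun p => R p.1 p.2)).card = ∑ x ∈ A, (A.filter (fun y => R x y)).card := by
    intro A
    simp only [card_filter]
    rw [sum_product]
  have hzz : (S'.filter (fun x => R z x)).card = ∑ x ∈ S', if R z x then 1 else 0 := by
    rw [card_filter]
  rw [key, key, sum_insert hz]
  have h1 : ∀ x, ((insert z S').filter (fun y => R x y)).card = (S'.filter (fun y => R x y)).card + (if R x z then 1 else 0) := by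
    intro x
    rw [filter_insert]
    split_ifs with h
    · rw [card_insert_of_notMem (by simp [hz])]
    · simp
  rw [h1 z, if_neg (hirr z)]
  have h2 : ∑ x ∈ S', ((insert z S').filter (fun y => R x y)).card =
      ∑ x ∈ S', (S'.filter (fun y => R x y)).card + (S'.filter (fun x => R z x)).card := by
    rw [sum_congr rfl (fun x _ => h1 x), sum_add_distrib]
    congr 1
    rw [hzz]
    refine sum_congr rfl (fun x _ => ?_)
    have : R x z ↔ R z x := ⟨hR _ _, hR _ _⟩
    simp [this]
  rw [h2]
  ring

open Classical in
theorem wc1_main {V : Type} (G : V → V → Prop) (hsymm : ∀ x y, G x y → G y x) (hirr : ∀ x, ¬ G x x) (b : ℕ) (n : ℕ) :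
    ∀ (S : Finset V), S.card = n →
    (∀ U : Finset V, U ⊆ S → U.Nonempty → ((U ×ˢ U).filter (fun p => G p.1 p.2)).card < 2 * U.card) →
    ∀ (om mg : V → ℕ), (∀ z ∈ S, om z ≤ 1 + b * mg z) → (∀ z ∈ S, mg z + (S.filter (fun x => G z x)).card ≤ 3) →
    ∃ col : V → V, (∀ z ∈ S, col z ∈ S) ∧ (∀ c, ∑ z ∈ S.filter (fun z => col z = c), om z ≤ 3 * b + 1) ∧
      (b + 1) * ((S ×ˢ S).filter (fun p => G p.1 p.2 ∧ col p.1 ≠ col p.2)).card ≤ 2 * ∑ z ∈ S, om z := by
  induction n with
  | zero =>
    intro S hn _ om mg _ _
    have hS : S = ∅ := card_eq_zero.mp hn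
    subst hS
    exact ⟨id, by simp, by simp, by simp⟩
  | succ n ih =>
    intro S hn hS om mg h1 h2
    -- a vertex of degree at most one
    have hex : ∃ z ∈ S, (S.filter (fun x => G z x)).card ≤ 1 := by
      by_contra hcon
      push Not at hcon
      have hne : S.Nonempty := by
        rw [← card_pos]; omega
      have h3 := hS S (Subset.refl _) hne
      have key : ((S ×ˢ S).filter (fun p => G p.1 p.2)).card = ∑ x ∈ S, (S.filter (fun y => G x y)).card := by
        simp only [card_filter]
        rw [sum_product]
      rw [key] at h3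
      have h4 : ∑ x ∈ S, 2 ≤ ∑ x ∈ S, (S.filter (fun y => G x y)).card := sum_le_sum (fun x hx => hcon x hx)
      rw [sum_const, smul_eq_mul] at h4
      omega
    obtain ⟨z0, hz0, hdeg⟩ := hex
    obtain ⟨S', hz0', rfl⟩ : ∃ S' : Finset V, z0 ∉ S' ∧ insert z0 S' = S := ⟨S.erase z0, by simp, insert_erase hz0⟩
    have hn' : S'.card = n := by
      rw [card_insert_of_notMem hz0'] at hn; omega
    have hS' : ∀ U : Finset V, U ⊆ S' → U.Nonempty → ((U ×ˢ U).filter (fun p => G p.1 p.2)).card < 2 * U.card :=
      fun U hU => hS U (hU.trans (subset_insert _ _))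
    have hdegz : ((insert z0 S').filter (fun x => G z0 x)) = S'.filter (fun x => G z0 x) := by
      rw [filter_insert, if_neg (hirr z0)]
    rw [hdegz] at hdeg
    have hdeg' : ∀ z, ((insert z0 S').filter (fun x => G z x)).card = (S'.filter (fun x => G z x)).card + (if G z z0 then 1 else 0) := by
      intro x
      rw [filter_insert]
      split_ifs with h
      · rw [card_insert_of_notMem (by simp [hz0'])]
      · simp
    have hm0 : mg z0 ≤ 3 := le_trans (Nat.le_add_right _ _) (h2 z0 hz0)
    -- the isolating colouring
    have hiso : (S'.filter (fun x => G z0 x)).card * (b + 1) ≤ om z0 →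
        ∃ col : V → V, (∀ z ∈ insert z0 S', col z ∈ insert z0 S') ∧
          (∀ c, ∑ z ∈ (insert z0 S').filter (fun z => col z = c), om z ≤ 3 * b + 1) ∧
          (b + 1) * ((insert z0 S' ×ˢ insert z0 S').filter (fun p => G p.1 p.2 ∧ col p.1 ≠ col p.2)).card ≤ 2 * ∑ z ∈ insert z0 S', om z := by
      intro hbig
      obtain ⟨col, c1, c2, c3⟩ := ih S' hn' hS' om mg (fun z hz => h1 z (mem_insert_of_mem hz))
        (fun z hz => le_trans (by have := hdeg' z; omega) (h2 z (mem_insert_of_mem hz)))
      obtain ⟨col2, hc0, hcz⟩ : ∃ col2 : V → V, col2 z0 = z0 ∧ ∀ z ∈ S', col2 z = col z := by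
        refine ⟨fun z => if z = z0 then z0 else col z, if_pos rfl, ?_⟩
        intro z hz
        have : z ≠ z0 := fun h => hz0' (by rw [← h]; exact hz)
        simp [this]
      refine ⟨col2, ?_, ?_, ?_⟩
      · intro z hz
        rcases mem_insert.mp hz with h | h
        · rw [h, hc0]; exact mem_insert_self _ _
        · rw [hcz z h]; exact mem_insert_of_mem (c1 z h)
      · intro c
        rw [filter_insert, hc0]
        have hfc : S'.filter (fun z => col2 z = c) = S'.filter (fun z => col z = c) := by
          apply filter_congr
          intro z hz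
          rw [hcz z hz]
        rw [hfc]
        split_ifs with h
        · have hem : S'.filter (fun z => col z = c) = ∅ := by
            rw [filter_eq_empty_iff]
            intro z hz hc
            exact hz0' (by rw [h, ← hc]; exact c1 z hz)
          rw [hem, sum_insert (by simp), sum_empty]
          have := h1 z0 (mem_insert_self _ _)
          have h5 : b * mg z0 ≤ b * 3 := Nat.mul_le_mul_left b hm0
          omega
        · exact c2 c
      · rw [wc1_insert (fun x y => G x y ∧ col2 x ≠ col2 y)
          (fun x y h => ⟨hsymm _ _ h.1, h.2.symm⟩) (fun x h => hirr x h.1) S' z0 hz0', sum_insert hz0']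
        have hA : ((S' ×ˢ S').filter (fun p => G p.1 p.2 ∧ col2 p.1 ≠ col2 p.2)) =
            ((S' ×ˢ S').filter (fun p => G p.1 p.2 ∧ col p.1 ≠ col p.2)) := by
          apply filter_congr
          intro p hp
          rw [mem_product] at hp
          rw [hcz _ hp.1, hcz _ hp.2]
        rw [hA]
        have hB : (S'.filter (fun x => G z0 x ∧ col2 z0 ≠ col2 x)).card ≤
            (S'.filter (fun x => G z0 x)).card := by
          apply card_le_card
          intro x hx
          rw [mem_filter] at hx ⊢
          exact ⟨hx.1, hx.2.1⟩
        have hC : (b + 1) * (S'.filter (fun x => G z0 x ∧ col2 z0 ≠ col2 x)).card ≤ om z0 :=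
          le_trans (by rw [mul_comm]; exact Nat.mul_le_mul_right _ hB) hbig
        nlinarith
    rcases Nat.lt_or_ge (S'.filter (fun x => G z0 x)).card 1 with hd | hd
    · apply hiso
      have : (S'.filter (fun x => G z0 x)).card = 0 := by omega
      rw [this]; omega
    · have hd1 : (S'.filter (fun x => G z0 x)).card = 1 := by omega
      rcases Nat.lt_or_ge b (om z0) with hb | hb
      · apply hiso
        rw [hd1]; omega
      · -- merge z0 into its neighbour
        obtain ⟨z1, hz1⟩ := card_eq_one.mp hd1
        have hz1m : z1 ∈ S' ∧ G z0 z1 := by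
          have : z1 ∈ S'.filter (fun x => G z0 x) := by rw [hz1]; exact mem_singleton_self _
          exact mem_filter.mp this
        have hz1u : ∀ x ∈ S', G z0 x → x = z1 := by
          intro x hx hg
          have : x ∈ S'.filter (fun x => G z0 x) := mem_filter.mpr ⟨hx, hg⟩
          rw [hz1] at this
          exact mem_singleton.mp this
        have hz10 : z1 ≠ z0 := fun h => hz0' (h ▸ hz1m.1)
        obtain ⟨col, c1, c2, c3⟩ := ih S' hn' hS' (fun z => if z = z1 then om z1 + om z0 else om z)
          (fun z => if z = z1 then mg z1 + 1 else mg z)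
          (by
            intro z hz
            split_ifs with h
            · have := h1 z1 (mem_insert_of_mem hz1m.1)
              rw [mul_add, mul_one]
              omega
            · exact h1 z (mem_insert_of_mem hz))
          (by
            intro z hz
            have h6 := h2 z (mem_insert_of_mem hz)
            rw [hdeg' z] at h6
            split_ifs with h
            · rw [h] at h6 ⊢
              rw [if_pos (hsymm _ _ hz1m.2)] at h6
              omega
            · omega)
        obtain ⟨col2, hc0, hcz⟩ : ∃ col2 : V → V, col2 z0 = col z1 ∧ ∀ z ∈ S', col2 z = col z := by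
          refine ⟨fun z => if z = z0 then col z1 else col z, if_pos rfl, ?_⟩
          intro z hz
          have : z ≠ z0 := fun h => hz0' (by rw [← h]; exact hz)
          simp [this]
        have hsum : ∀ A : Finset V, z0 ∉ A → ∑ z ∈ A, (if z = z1 then om z1 + om z0 else om z) = ∑ z ∈ A, om z + (if z1 ∈ A then om z0 else 0) := by
          intro A _
          have : ∀ z ∈ A, (if z = z1 then om z1 + om z0 else om z) = om z + (if z = z1 then om z0 else 0) := by
            intro z _
            split_ifs with h
            · rw [h]
            · simp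
          rw [sum_congr rfl this, sum_add_distrib, sum_ite_eq']
        refine ⟨col2, ?_, ?_, ?_⟩
        · intro z hz
          rcases mem_insert.mp hz with h | h
          · rw [h, hc0]; exact mem_insert_of_mem (c1 z1 hz1m.1)
          · rw [hcz z h]; exact mem_insert_of_mem (c1 z h)
        · intro c
          rw [filter_insert, hc0]
          have hfc : S'.filter (fun z => col2 z = c) = S'.filter (fun z => col z = c) := by
            apply filter_congr
            intro z hz
            rw [hcz z hz]
          rw [hfc]
          have h7 := c2 c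
          rw [hsum _ (by simp [hz0'])] at h7
          split_ifs with h
          · rw [sum_insert (by simp [hz0'])]
            rw [if_pos (mem_filter.mpr ⟨hz1m.1, h⟩)] at h7
            omega
          · omega
        · rw [wc1_insert (fun x y => G x y ∧ col2 x ≠ col2 y)
            (fun x y h => ⟨hsymm _ _ h.1, h.2.symm⟩) (fun x h => hirr x h.1) S' z0 hz0', sum_insert hz0']
          have hA : ((S' ×ˢ S').filter (fun p => G p.1 p.2 ∧ col2 p.1 ≠ col2 p.2)) =
              ((S' ×ˢ S').filter (fun p => G p.1 p.2 ∧ col p.1 ≠ col p.2)) := by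
            apply filter_congr
            intro p hp
            rw [mem_product] at hp
            rw [hcz _ hp.1, hcz _ hp.2]
          rw [hA]
          have hB : (S'.filter (fun x => G z0 x ∧ col2 z0 ≠ col2 x)) = ∅ := by
            rw [filter_eq_empty_iff]
            rintro x hx ⟨hg, hne⟩
            apply hne
            rw [hc0, hcz x hx, hz1u x hx hg]
          rw [hB, card_empty]
          rw [hsum _ hz0', if_pos hz1m.1] at c3
          rw [mul_zero, add_zero]
          omega

open Classical in
/-- WC1. Chunk WC1 (size M/L). WEIGHTED TREE PARTITION.  `G` a symmetric irreflexive relation on `V`, `S` a finite set such that every nonempty `U ⊆ S` has fewer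
than `2 |U|` ordered adjacent pairs inside (so `G` is a forest on `S`), weights `om z ≤ 1 + b * mg z` with `mg z + deg_S z ≤ 3`.  There is a colouring
`col` with values in `S` whose classes have weight at most `3 b + 1` such that `(b+1)` times the number of ordered adjacent pairs of different colours is at most twice the total weight.

Proof: induction on `|S|`.  `S` empty: trivial.  The hypothesis for `U = S` gives a vertex `z0 ∈ S` of degree at most one in `S`.
* degree `0`: apply induction to `S \ {z0}`, and give `z0` the colour `z0`.  Its class has weight `om z0 ≤ 1 + 3 b`.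
* degree `1` with neighbour `z1`, `om z0 ≤ b`: apply induction to `S \ {z0}` with `om z1` replaced by `om z1 + om z0` and `mg z1` by `mg z1 + 1` (the degree of `z1` has dropped by one, and
  `om z1 + om z0 ≤ 1 + b (mg z1 + 1)`); `col z0 := col z1`.  No new differently coloured pair.
* degree `1` with neighbour `z1`, `om z0 > b`: apply induction to `S \ {z0}`, colour `z0` by `z0`; its class has weight `om z0 ≤ 1 + 2 b`; two new pairs, and
  `2 (b+1) ≤ 2 om z0`. -/
theorem tree_partition {V : Type} (G : V → V → Prop) (hsymm : ∀ x y, G x y → G y x) (hirr : ∀ x, ¬ G x x) (b : ℕ) (S : Finset V)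
    (hS : ∀ U : Finset V, U ⊆ S → U.Nonempty → ((U ×ˢ U).filter (fun p => G p.1 p.2)).card < 2 * U.card)
    (om mg : V → ℕ) (h1 : ∀ z ∈ S, om z ≤ 1 + b * mg z) (h2 : ∀ z ∈ S, mg z + (S.filter (fun x => G z x)).card ≤ 3) :
    ∃ col : V → V, (∀ z ∈ S, col z ∈ S) ∧ (∀ c, ∑ z ∈ S.filter (fun z => col z = c), om z ≤ 3 * b + 1) ∧
      (b + 1) * ((S ×ˢ S).filter (fun p => G p.1 p.2 ∧ col p.1 ≠ col p.2)).card ≤ 2 * ∑ z ∈ S, om z := by
  exact wc1_main G hsymm hirr b S.card S rfl hS om mg h1 h2

end H98T
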