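import Mathlib
import Pool.Agent.Lib.H98T.WDefs
import Pool.Agent.Lib.H98T.WC1

set_option autoImplicit false

/-!
# H98T.WC2: colourings of an acyclic net
-/

namespace H98T

open Finset

variable {N Y : Type}

open Classical in
/-- For one letter. -/
theorem wc2_one [Fintype N] (M : Net N Y) (hAC : M.AC) (b : ℕ) (y : Y) :
    ∃ col : N → ℕ, (∀ c, (univ.filter (fun z : N => ¬ M.cut z ∧ (∃ j, y ∈ M.word (z, j)) ∧ col z = c)).card ≤ 3 * b + 1) ∧
      (b + 1) * (univ.filter (fun e : Dart N => ¬ M.cut e.1 ∧ ¬ M.cut (M.inv e).1 ∧ y ∈ M.word e ∧ ¬ M.F e ∧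
        col e.1 ≠ col (M.inv e).1)).card ≤
      2 * (univ.filter (fun z : N => ¬ M.cut z ∧ ∃ j, y ∈ M.word (z, j))).card := by
  set S : Finset N := univ.filter (fun z : N => ¬ M.cut z ∧ ∃ j, y ∈ M.word (z, j)) with hS
  obtain ⟨G, hG⟩ : ∃ G : N → N → Prop, ∀ z z', G z z' ↔ (z ≠ z' ∧ ∃ e : Dart N, e.1 = z ∧ (M.inv e).1 = z' ∧ y ∈ M.word e ∧ ¬ M.F e) :=
    ⟨_, fun _ _ => Iff.rfl⟩
  have hsymm : ∀ x z, G x z → G z x := by
    intro x z hxz
    obtain ⟨hne, e, h1, h2, h3, h4⟩ := (hG x z).mp hxz
    refine (hG z x).mpr ⟨hne.symm, M.inv e, h2, ?_, ?_, ?_⟩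
    · rw [M.inv_inv]; exact h1
    · rw [M.word_inv, List.mem_reverse]; exact h3
    · rw [M.F_inv]; exact h4
  have hirr : ∀ x, ¬ G x x := fun x h => ((hG x x).mp h).1 rfl
  have hF : ∀ U : Finset N, U ⊆ S → U.Nonempty →
      ((U ×ˢ U).filter (fun p => G p.1 p.2)).card < 2 * U.card := by
    intro U hU hne
    have h1 := hAC y U hne (fun z hz => (by
      have := hU hz
      rw [hS, mem_filter] at this
      exact this.2.1))
    refine lt_of_le_of_lt ?_ h1
    have h2 : ((U ×ˢ U).filter (fun p => G p.1 p.2)) ⊆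
        (univ.filter (fun e : Dart N => e.1 ∈ U ∧ (M.inv e).1 ∈ U ∧ y ∈ M.word e ∧ ¬ M.F e)).image
          (fun e => (e.1, (M.inv e).1)) := by
      rintro ⟨p, q⟩ hp
      rw [mem_filter, mem_product, hG] at hp
      obtain ⟨⟨hp1, hp2⟩, _, e, h3, h4, h5, h6⟩ := hp
      rw [mem_image]
      refine ⟨e, ?_, ?_⟩
      · rw [mem_filter]
        refine ⟨mem_univ _, ?_, ?_, h5, h6⟩
        · rw [h3]; exact hp1
        · rw [h4]; exact hp2
      · simp only at h3 h4
        rw [h3, h4]
    exact (card_le_card h2).trans card_image_le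
  have h2 : ∀ z ∈ S, (fun _ : N => 0) z + (S.filter (fun x => G z x)).card ≤ 3 := by
    intro z _
    have h3 : S.filter (fun x => G z x) ⊆ (univ : Finset (Fin 3)).image (fun j => (M.inv (z, j)).1) := by
      intro x hx
      rw [mem_filter, hG] at hx
      obtain ⟨_, _, e, h4, h5, _, _⟩ := hx
      rw [mem_image]
      refine ⟨e.2, mem_univ _, ?_⟩
      rw [← h5, ← h4]
    have h4 := (card_le_card h3).trans card_image_le
    simpa using h4
  obtain ⟨cl, hc1, hc2, hc3⟩ := tree_partition G hsymm hirr b S hF (fun _ => 1) (fun _ => 0)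
    (fun z _ => by simp) h2
  set code : N → ℕ := fun z => ((Fintype.equivFin N) z : ℕ) with hcode
  have hinj : Function.Injective code := by
    intro a b hab
    exact (Fintype.equivFin N).injective (Fin.ext hab)
  refine ⟨fun z => code (cl z), ?_, ?_⟩
  · intro c
    by_cases hc : ∃ c', code c' = c
    · obtain ⟨c', hc'⟩ := hc
      have h3 := hc2 c'
      rw [sum_const, smul_eq_mul, mul_one] at h3
      refine le_trans (card_le_card ?_) h3
      intro z hz
      rw [mem_filter] at hz
      rw [mem_filter, hS, mem_filter]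
      refine ⟨⟨mem_univ _, hz.2.1, hz.2.2.1⟩, ?_⟩
      apply hinj
      rw [hc']
      exact hz.2.2.2
    · have h3 : (univ.filter (fun z : N => ¬ M.cut z ∧ (∃ j, y ∈ M.word (z, j)) ∧ code (cl z) = c)) = ∅ := by
        apply filter_eq_empty_iff.mpr
        intro z _ hz
        exact hc ⟨cl z, hz.2.2⟩
      rw [h3]
      simp
  · rw [sum_const, smul_eq_mul, mul_one] at hc3
    refine le_trans (Nat.mul_le_mul_left _ ?_) hc3
    refine card_le_card_of_injOn (fun e => (e.1, (M.inv e).1)) ?_ ?_
    · intro e he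
      rw [mem_coe, mem_filter] at he
      obtain ⟨_, g1, g2, g3, g4, g5⟩ := he
      rw [mem_coe, mem_filter, mem_product, hS, mem_filter, mem_filter]
      refine ⟨⟨⟨mem_univ _, g1, e.2, g3⟩, ⟨mem_univ _, g2, (M.inv e).2, ?_⟩⟩, (hG _ _).mpr ⟨?_, e, rfl, rfl, g3, g4⟩, ?_⟩
      · change y ∈ M.word (M.inv e)
        rw [M.word_inv, List.mem_reverse]
        exact g3
      · intro hh
        exact g5 (by rw [hh])
      · intro hh
        exact g5 (congrArg code hh)
    · intro e1 he1 e2 he2 h12
      rw [mem_coe, mem_filter] at he1 he2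
      obtain ⟨_, g1, g2, g3, g4, g5⟩ := he1
      obtain ⟨_, k1, k2, k3, k4, k5⟩ := he2
      simp only [Prod.mk.injEq] at h12
      obtain ⟨m1, m2⟩ := h12
      by_contra hne
      have hz : e1.1 ≠ (M.inv e1).1 := by
        intro hh
        exact g5 (by rw [← hh])
      have h3 := hAC y {e1.1, (M.inv e1).1} (insert_nonempty _ _) (by
        intro z hz'
        rw [mem_insert, mem_singleton] at hz'
        rcases hz' with h | h
        · rw [h]; exact g1
        · rw [h]; exact g2)
      rw [card_pair hz] at h3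
      have hsub : ({e1, e2, M.inv e1, M.inv e2} : Finset (Dart N)) ⊆
          (univ.filter (fun e : Dart N => e.1 ∈ ({e1.1, (M.inv e1).1} : Finset N) ∧
            (M.inv e).1 ∈ ({e1.1, (M.inv e1).1} : Finset N) ∧ y ∈ M.word e ∧ ¬ M.F e)) := by
        intro e he
        rw [mem_insert, mem_insert, mem_insert, mem_singleton] at he
        rw [mem_filter]
        refine ⟨mem_univ _, ?_⟩
        rcases he with h | h | h | h
        · subst h
          exact ⟨by simp, by simp, g3, g4⟩
        · subst h
          refine ⟨?_, ?_, k3, k4⟩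
          · rw [← m1]; simp
          · rw [← m2]; simp
        · subst h
          refine ⟨by simp, ?_, ?_, ?_⟩
          · rw [M.inv_inv]; simp
          · rw [M.word_inv, List.mem_reverse]; exact g3
          · rw [M.F_inv]; exact g4
        · subst h
          refine ⟨?_, ?_, ?_, ?_⟩
          · rw [← m2]; simp
          · rw [M.inv_inv, ← m1]; simp
          · rw [M.word_inv, List.mem_reverse]; exact k3
          · rw [M.F_inv]; exact k4
      have hinv : M.inv e1 ≠ M.inv e2 := by
        intro hh
        apply hne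
        rw [← M.inv_inv e1, hh, M.inv_inv]
      have d1 : e1 ≠ M.inv e1 := fun hh => hz (congrArg Prod.fst hh)
      have d2 : e1 ≠ M.inv e2 := fun hh => hz (by
        rw [m2]; exact congrArg Prod.fst hh)
      have d3 : e2 ≠ M.inv e1 := fun hh => hz (by
        rw [m1]; exact congrArg Prod.fst hh)
      have d4 : e2 ≠ M.inv e2 := fun hh => hz (by
        rw [m1, m2]; exact congrArg Prod.fst hh)
      have hcard : ({e1, e2, M.inv e1, M.inv e2} : Finset (Dart N)).card = 4 := by
        rw [card_insert_of_notMem, card_insert_of_notMem, card_insert_of_notMem, card_singleton]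
        · rw [mem_singleton]; exact hinv
        · rw [mem_insert, mem_singleton]
          exact fun h => h.elim d3 d4
        · rw [mem_insert, mem_insert, mem_singleton]
          exact fun h => h.elim hne (fun h => h.elim d1 d2)
      have := card_le_card hsub
      omega

theorem wc2_ncard {Z : Type} [Fintype Z] (L : Finset Y) (P : Y → Z → Prop)
    (hP : ∀ y z, P y z → y ∈ L) (inst : ∀ y, DecidablePred (P y)) :
    Set.ncard {p : Y × Z | P p.1 p.2} = ∑ y ∈ L, (univ.filter (fun z => P y z)).card := by
  classical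
  have h1 : {p : Y × Z | P p.1 p.2} = ↑((L ×ˢ (univ : Finset Z)).filter (fun p => P p.1 p.2)) := by
    ext p
    simp only [Set.mem_ofPred_eq, coe_filter, mem_product, mem_univ, and_true]
    exact ⟨fun h => ⟨hP _ _ h, h⟩, fun h => h.2⟩
  rw [h1, Set.ncard_coe_finset, card_filter, sum_product]
  refine sum_congr rfl fun y _ => ?_
  rw [card_filter]

/-- WC2. Chunk WC2 (size M). For an acyclic net and `b ≥ 0` there is a colouring with classes of at most `3 b + 1` nodes and few differently coloured darts.
Proof: fix `y`.  `S` = the uncut nodes `z` with `y ∈ word (z, j)` for some `j`; `G z z'` iff `z ≠ z'`, both in `S`, and there is a dart `e` with `e.1 = z`, `(inv e).1 = z'`, `y ∈ word e`, `¬ F e`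
(symmetric by `inv`, `word_inv`, `F_inv`).  By `AC` for `U = {z}` no such dart has both ends in `z`; by `AC` for `U = {z, z'}` the dart between two nodes is unique.  So for
`U ⊆ S` the ordered adjacent pairs inside `U` correspond to the darts in `AC`.  `tree_partition` with `om = 1`, `mg = 0` (a node has only three darts).
The colour of `z` for the letter `y` is the code of `col z` under an injection `N → ℕ` (`Fintype.equivFin`).
Sum over the letters: both numbers are finite sums over the finitely many letters which occur in words (`Set.ncard` of a disjoint union over `y`). -/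
theorem exists_col [Fintype N] (M : Net N Y) (hAC : M.AC) (b : ℕ) :
    ∃ col : Y → N → ℕ, M.ColB col (3 * b + 1) ∧ (b + 1) * M.ncut col ≤ 2 * M.nz := by
  classical
  choose col hc1 hc2 using wc2_one M hAC b
  refine ⟨col, ?_, ?_⟩
  · intro y c
    exact hc1 y c
  · set L : Finset Y := univ.biUnion (fun e : Dart N => (M.word e).toFinset) with hL
    have hmem : ∀ (y : Y) (e : Dart N), y ∈ M.word e → y ∈ L := by
      intro y e h
      rw [hL, mem_biUnion]
      exact ⟨e, mem_univ _, List.mem_toFinset.mpr h⟩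
    have h1 : M.ncut col = ∑ y ∈ L, (univ.filter (fun e : Dart N => ¬ M.cut e.1 ∧ ¬ M.cut (M.inv e).1 ∧ y ∈ M.word e ∧
        ¬ M.F e ∧ col y e.1 ≠ col y (M.inv e).1)).card := by
      unfold Net.ncut
      exact wc2_ncard L (fun y (e : Dart N) => ¬ M.cut e.1 ∧ ¬ M.cut (M.inv e).1 ∧ y ∈ M.word e ∧
        ¬ M.F e ∧ col y e.1 ≠ col y (M.inv e).1) (fun y e h => hmem y e h.2.2.1) _
    have h2 : M.nz = ∑ y ∈ L, (univ.filter (fun z : N => ¬ M.cut z ∧ ∃ j, y ∈ M.word (z, j))).card := by
      unfold Net.nz
      exact wc2_ncard L (fun y (z : N) => ¬ M.cut z ∧ ∃ j, y ∈ M.word (z, j))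
        (fun y z h => by
          obtain ⟨_, j, hj⟩ := h
          exact hmem y (z, j) hj) _
    rw [h1, h2, mul_sum, mul_sum]
    refine sum_le_sum fun y _ => ?_
    exact hc2 y

end H98T
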