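import Mathlib
import Pool.Agent.Lib.H98T.WDefs

set_option autoImplicit false

/-!
# H98T.WD1: letters at an uncut node
-/

namespace H98T

open Finset

variable {N Y : Type}

theorem wd1_prv_nxt (e : Dart N) : prv (nxt e) = e := by
  obtain ⟨z, j⟩ := e
  simp only [prv, nxt, Prod.mk.injEq, true_and]
  fin_cases j <;> rfl

theorem wd1_nxt_prv (e : Dart N) : nxt (prv e) = e := by
  obtain ⟨z, j⟩ := e
  simp only [prv, nxt, Prod.mk.injEq, true_and]
  fin_cases j <;> rfl

theorem wd1_cases (e : Dart N) (j : Fin 3) : (e.1, j) = e ∨ (e.1, j) = nxt e ∨ (e.1, j) = prv e := by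
  obtain ⟨z, k⟩ := e
  simp only [prv, nxt, Prod.mk.injEq, true_and]
  fin_cases j <;> fin_cases k <;> decide

theorem wd1_prv (M : Net N Y) (e : Dart N) (h : ¬ M.cut e.1) (t : ℕ) (ht : t < M.leg e) :
    (M.word e)[t]? = (M.word (prv e))[(M.word (prv e)).length - 1 - t]? ∧ t < (M.word (prv e)).length ∧ t < (M.word e).length := by
  have h1 := M.len e h
  have h2 := M.len (prv e) h
  rw [wd1_nxt_prv] at h2
  have h3 := M.leg_eq e h
  have h4 := congrArg (fun l : List Y => l[t]?) h3
  simp only [List.getElem?_take, if_pos ht] at h4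
  rw [List.getElem?_reverse (by omega)] at h4
  exact ⟨h4, by omega, by omega⟩

theorem wd1_nxt (M : Net N Y) (e : Dart N) (h : ¬ M.cut e.1) (t : ℕ) (ht : M.leg e ≤ t) (ht' : t < (M.word e).length) :
    (M.word e)[t]? = (M.word (nxt e))[(M.word e).length - 1 - t]? ∧ (M.word e).length - 1 - t < M.leg (nxt e) := by
  have h1 := M.len e h
  have h2 := wd1_prv M (nxt e) h ((M.word e).length - 1 - t) (by omega)
  rw [wd1_prv_nxt] at h2
  refine ⟨?_, by omega⟩
  rw [h2.1]
  congr 1
  omega

/-- WD1a. Chunk WD1 (size S). A letter of `word e` at an uncut node is a letter of `word (nxt e)` or of `word (prv e)`: it is among the first `leg e` letters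
(then `leg_eq` for `e`) or among the last `leg (nxt e)` letters (`len`; then `leg_eq` for `nxt e`, `prv (nxt e) = e`). -/
theorem mem_nxt_or_prv (M : Net N Y) (e : Dart N) (h : ¬ M.cut e.1) (y : Y) (hy : y ∈ M.word e) :
    y ∈ M.word (nxt e) ∨ y ∈ M.word (prv e) := by
  obtain ⟨t, ht⟩ := List.mem_iff_getElem?.mp hy
  have htl : t < (M.word e).length := by
    by_contra hh
    rw [List.getElem?_eq_none (by omega)] at ht
    exact absurd ht (by simp)
  by_cases hc : t < M.leg e
  · right
    have h1 := (wd1_prv M e h t hc).1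
    rw [ht] at h1
    exact List.mem_iff_getElem?.mpr ⟨_, h1.symm⟩
  · left
    have h1 := (wd1_nxt M e h t (by omega) htl).1
    rw [ht] at h1
    exact List.mem_iff_getElem?.mpr ⟨_, h1.symm⟩

/-- WD1b. Chunk WD1. If there is a start on `e` for `y`, all three darts of the node have the letter `y` (letter `i < leg e` is on `prv e`, letter `i' ≥ leg e` is on `nxt e`). -/
theorem mem_of_start (M : Net N Y) (y : Y) (s : St N) (h : M.Start y s) (j : Fin 3) : y ∈ M.word (s.1.1, j) := by
  obtain ⟨h1, ⟨h2, h3, h4, _⟩, h6, h7⟩ := h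
  have hl : s.2.2 < (M.word s.1).length := by
    by_contra hh
    rw [List.getElem?_eq_none (by omega)] at h4
    exact absurd h4 (by simp)
  rcases wd1_cases s.1 j with hj | hj | hj
  · rw [hj]
    exact List.mem_iff_getElem?.mpr ⟨_, h3⟩
  · rw [hj]
    have h8 := (wd1_nxt M s.1 h1 s.2.2 h7 hl).1
    rw [h4] at h8
    exact List.mem_iff_getElem?.mpr ⟨_, h8.symm⟩
  · rw [hj]
    have h8 := (wd1_prv M s.1 h1 s.2.1 h6).1
    rw [h3] at h8
    exact List.mem_iff_getElem?.mpr ⟨_, h8.symm⟩

/-- WD1c. Chunk WD1. There is at most one start for given dart and letter (two gaps of the same letter containing the same position are equal). -/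
theorem start_unique (M : Net N Y) (y : Y) (s s' : St N) (h : M.Start y s) (h' : M.Start y s') (he : s.1 = s'.1) : s = s' := by
  obtain ⟨_, ⟨h2, h3, h4, h5⟩, h6, h7⟩ := h
  obtain ⟨_, ⟨k2, k3, k4, k5⟩, k6, k7⟩ := h'
  obtain ⟨e, i, i'⟩ := s
  obtain ⟨e', k, k'⟩ := s'
  simp only at he
  subst he
  simp only at h2 h3 h4 h5 h6 h7 k2 k3 k4 k5 k6 k7
  have e1 : i = k := by
    rcases lt_trichotomy i k with h | h | h
    · exact absurd k3 (h5 k h (by omega))
    · exact h
    · exact absurd h3 (k5 i h (by omega))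
  have e2 : i' = k' := by
    rcases lt_trichotomy i' k' with h | h | h
    · exact absurd h4 (k5 i' (by omega) h)
    · exact h
    · exact absurd k4 (h5 k' (by omega) h)
  rw [e1, e2]

/-- WD1d. Chunk WD1. The positions of letters on the two sides of a corner: for `t < leg e` the letter number `t` of `e` is the letter number
`length (prv e) - 1 - t` of `prv e`. -/
theorem letter_prv (M : Net N Y) (e : Dart N) (h : ¬ M.cut e.1) (t : ℕ) (ht : t < M.leg e) :
    (M.word e)[t]? = (M.word (prv e))[(M.word (prv e)).length - 1 - t]? ∧ t < (M.word (prv e)).length ∧ t < (M.word e).length := wd1_prv M e h t ht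

/-- WD1e. Chunk WD1. For `leg e ≤ t < length e` the letter number `t` of `e` is the letter number `length e - 1 - t` of `nxt e` (`letter_prv` for `nxt e`). -/
theorem letter_nxt (M : Net N Y) (e : Dart N) (h : ¬ M.cut e.1) (t : ℕ) (ht : M.leg e ≤ t) (ht' : t < (M.word e).length) :
    (M.word e)[t]? = (M.word (nxt e))[(M.word e).length - 1 - t]? ∧ (M.word e).length - 1 - t < M.leg (nxt e) := wd1_nxt M e h t ht ht'

end H98T
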