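import Mathlib
import Pool.Agent.Lib.H98T.WD1

set_option autoImplicit false

/-!
# H98T.WD2: the number of starts
-/

namespace H98T

open Finset

variable {N Y : Type}

theorem wd2_lt_of_get {l : List Y} {t : ℕ} {y : Y} (h : l[t]? = some y) : t < l.length := by
  by_contra hh
  rw [List.getElem?_eq_none (by omega)] at h
  exact absurd h (by simp)

theorem wd2_ncard {Z : Type} [Fintype Z] (L : Finset Y) (P : Y → Z → Prop)
    (hP : ∀ y z, P y z → y ∈ L) (inst : ∀ y, DecidablePred (P y)) :
    Set.ncard {p : Y × Z | P p.1 p.2} = ∑ y ∈ L, (univ.filter (fun z => P y z)).card := by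
  classical
  have h1 : {p : Y × Z | P p.1 p.2} = ↑((L ×ˢ (univ : Finset Z)).filter (fun p => P p.1 p.2)) := by
    ext p
    simp only [Set.mem_ofPred_eq, coe_filter, mem_product, mem_univ, and_true]
    exact ⟨fun h => ⟨hP _ _ h, h⟩, fun h => h.2⟩
  rw [h1, Set.ncard_coe_finset, card_filter, sum_product]
  refine sum_congr rfl fun y _ => ?_
  rw [card_filter]

theorem wd2_finite_dang [Finite N] (M : Net N Y) (q : Y × Dart N → Prop) :
    {p : Y × Dart N | p.1 ∈ M.word p.2 ∧ q p}.Finite := by
  have h1 : (⋃ e : Dart N, ({y | y ∈ M.word e} ×ˢ ({e} : Set (Dart N)))).Finite := by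
    refine Set.finite_iUnion fun e => ?_
    exact (List.finite_toSet (M.word e)).prod (Set.finite_singleton e)
  refine h1.subset ?_
  rintro ⟨y, e⟩ ⟨hy, _⟩
  rw [Set.mem_iUnion]
  exact ⟨e, hy, rfl⟩

open Classical in
theorem wd2_one [Fintype N] (M : Net N Y) (hAC : M.AC) (col : Y → N → ℕ) (y : Y) :
    (univ.filter (fun e : Dart N => ¬ M.cut e.1 ∧ ∀ j, y ∈ M.word (e.1, j))).card ≤
      3 * (univ.filter (fun e : Dart N => ¬ M.cut e.1 ∧ y ∈ M.word e ∧ ¬ M.Pass col y e)).card := by
  set Z : Finset N := univ.filter (fun z : N => ¬ M.cut z ∧ ∃ j, y ∈ M.word (z, j)) with hZ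
  set V : Finset N := univ.filter (fun z : N => ¬ M.cut z ∧ ∀ j, y ∈ M.word (z, j)) with hV
  have hVZ : V ⊆ Z := by
    intro z hz
    rw [hV, mem_filter] at hz
    rw [hZ, mem_filter]
    exact ⟨hz.1, hz.2.1, 0, hz.2.2 0⟩
  have h1 : (univ.filter (fun e : Dart N => ¬ M.cut e.1 ∧ ∀ j, y ∈ M.word (e.1, j))) = V ×ˢ (univ : Finset (Fin 3)) := by
    ext e
    simp only [mem_filter, mem_univ, true_and, mem_product, hV, and_true]
  rw [h1, card_product, card_univ, Fintype.card_fin, mul_comm]
  refine Nat.mul_le_mul_left _ ?_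
  rcases Z.eq_empty_or_nonempty with hZe | hZn
  · have : V = ∅ := subset_empty.mp (hZe ▸ hVZ)
    rw [this]
    simp
  set E : Finset (Dart N) := univ.filter (fun e : Dart N => ¬ M.cut e.1 ∧ y ∈ M.word e) with hE
  have h2 : E.card = ∑ z ∈ Z, (E.filter (fun e => e.1 = z)).card := by
    refine card_eq_sum_card_fiberwise ?_
    intro e he
    rw [mem_coe, hE, mem_filter] at he
    rw [mem_coe, hZ, mem_filter]
    exact ⟨mem_univ _, he.2.1, e.2, he.2.2⟩
  have h3 : ∀ z ∈ Z, 2 + (if z ∈ V then 1 else 0) ≤ (E.filter (fun e => e.1 = z)).card := by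
    intro z hz
    by_cases hzV : z ∈ V
    · rw [if_pos hzV]
      rw [hV, mem_filter] at hzV
      have h4 : (univ : Finset (Fin 3)).image (fun j => (z, j)) ⊆ E.filter (fun e => e.1 = z) := by
        intro e he
        rw [mem_image] at he
        obtain ⟨j, _, rfl⟩ := he
        rw [mem_filter, hE, mem_filter]
        exact ⟨⟨mem_univ _, hzV.2.1, hzV.2.2 j⟩, rfl⟩
      have h5 := card_le_card h4
      rw [card_image_of_injective _ (fun a b hab => congrArg Prod.snd hab), card_univ, Fintype.card_fin] at h5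
      exact h5
    · rw [if_neg hzV, add_zero]
      rw [hZ, mem_filter] at hz
      obtain ⟨_, hz1, j, hj⟩ := hz
      have h6 : ∃ e' : Dart N, e' ≠ (z, j) ∧ e'.1 = z ∧ y ∈ M.word e' := by
        rcases mem_nxt_or_prv M (z, j) hz1 y hj with h | h
        · refine ⟨nxt (z, j), ?_, rfl, h⟩
          intro hh
          have := congrArg Prod.snd hh
          simp only [nxt] at this
          fin_cases j <;> simp at this
        · refine ⟨prv (z, j), ?_, rfl, h⟩
          intro hh
          have := congrArg Prod.snd hh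
          simp only [prv] at this
          fin_cases j <;> simp at this
      obtain ⟨e', h7, h8, h9⟩ := h6
      have h4 : ({e', (z, j)} : Finset (Dart N)) ⊆ E.filter (fun e => e.1 = z) := by
        intro e he
        rw [mem_insert, mem_singleton] at he
        rw [mem_filter, hE, mem_filter]
        rcases he with rfl | rfl
        · exact ⟨⟨mem_univ _, by rw [h8]; exact hz1, h9⟩, h8⟩
        · exact ⟨⟨mem_univ _, hz1, hj⟩, rfl⟩
      have h5 := card_le_card h4
      rw [card_pair h7] at h5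
      exact h5
  have h4 : 2 * Z.card + V.card ≤ E.card := by
    rw [h2]
    have h5 := sum_le_sum h3
    rw [sum_add_distrib, sum_const, smul_eq_mul, ← card_filter, filter_mem_eq_inter,
      inter_eq_right.mpr hVZ] at h5
    omega
  have h5 : (E.filter (fun e => M.Pass col y e)).card < 2 * Z.card := by
    refine lt_of_le_of_lt (card_le_card ?_) (hAC y Z hZn (fun z hz => by
      rw [hZ, mem_filter] at hz
      exact hz.2.1))
    intro e he
    rw [mem_filter, hE, mem_filter] at he
    obtain ⟨⟨_, k1, k2⟩, k3, k4, k5, k6, _⟩ := he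
    rw [mem_filter]
    refine ⟨mem_univ _, ?_, ?_, k2, k4⟩
    · rw [hZ, mem_filter]
      exact ⟨mem_univ _, k5, e.2, k2⟩
    · rw [hZ, mem_filter]
      refine ⟨mem_univ _, k6, (M.inv e).2, ?_⟩
      change y ∈ M.word (M.inv e)
      rw [M.word_inv, List.mem_reverse]
      exact k2
  have h6 := card_filter_add_card_filter_not (s := E) (fun e => M.Pass col y e)
  have h7 : E.filter (fun e => ¬ M.Pass col y e) =
      univ.filter (fun e : Dart N => ¬ M.cut e.1 ∧ y ∈ M.word e ∧ ¬ M.Pass col y e) := by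
    ext e
    simp only [hE, mem_filter, mem_univ, true_and, and_assoc]
  rw [← h7]
  omega

/-- WD2a. Chunk WD2 (size S). The sets in the definitions of `nst`, `dang`, `ncut`, `nz` are finite (only letters of the finitely many words; the indices of a gap are smaller than
the length of the word). -/
theorem finite_start [Finite N] (M : Net N Y) : {p : Y × St N | M.Start p.1 p.2}.Finite := by
  have h1 : (⋃ e : Dart N, ({y | y ∈ M.word e} ×ˢ (({e} : Set (Dart N)) ×ˢ
      (Set.Iio (M.word e).length ×ˢ Set.Iio (M.word e).length)))).Finite := by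
    refine Set.finite_iUnion fun e => ?_
    exact (List.finite_toSet (M.word e)).prod ((Set.finite_singleton e).prod
      ((Set.finite_Iio _).prod (Set.finite_Iio _)))
  refine h1.subset ?_
  rintro ⟨y, e, i, i'⟩ h
  obtain ⟨_, ⟨_, h3, h4, _⟩, _, _⟩ := h
  simp only at h3 h4
  rw [Set.mem_iUnion]
  exact ⟨e, List.mem_iff_getElem?.mpr ⟨_, h3⟩, rfl, wd2_lt_of_get h3, wd2_lt_of_get h4⟩

/-- WD2b. Chunk WD2. -/
theorem finite_dang [Finite N] (M : Net N Y) (q : Y × Dart N → Prop) :
    {p : Y × Dart N | p.1 ∈ M.word p.2 ∧ q p}.Finite := wd2_finite_dang M q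

/-- WD2c. Chunk WD2 (size M). `nst ≤ 3 dang`.
Proof.  For a letter `y` let `Z` be the set of uncut nodes having `y` on some dart (if it is empty there is no start), `V3` the subset of the nodes with `y` on all three darts.  By
`mem_nxt_or_prv` every node of `Z` has `y` on two or three darts: `2 |Z| + |V3| = #{e : e.1 ∈ Z, y ∈ word e}` = (number of passable ones) + `dang_y`.  The passable darts have
both ends in `Z`, so by `AC` (with `U = Z`) there are fewer than `2 |Z|` of them: `|V3| < dang_y`.  By `mem_of_start` and `start_unique` there are at most `3 |V3|` starts for `y`. -/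
theorem nst_le [Fintype N] (M : Net N Y) (hAC : M.AC) (col : Y → N → ℕ) : M.nst ≤ 3 * M.dang col := by
  classical
  set L : Finset Y := univ.biUnion (fun e : Dart N => (M.word e).toFinset) with hL
  have hmem : ∀ (y : Y) (e : Dart N), y ∈ M.word e → y ∈ L := by
    intro y e h
    rw [hL, mem_biUnion]
    exact ⟨e, mem_univ _, List.mem_toFinset.mpr h⟩
  have h1 : M.nst ≤ Set.ncard {p : Y × Dart N | ¬ M.cut p.2.1 ∧ ∀ j, p.1 ∈ M.word (p.2.1, j)} := by
    unfold Net.nst
    refine Set.ncard_le_ncard_of_injOn (fun p : Y × St N => (p.1, p.2.1)) ?_ ?_ ?_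
    · intro p hp
      exact ⟨hp.1, fun j => mem_of_start M p.1 p.2 hp j⟩
    · intro p hp q hq hpq
      obtain ⟨y, s⟩ := p
      obtain ⟨y', s'⟩ := q
      simp only [Prod.mk.injEq] at hpq
      obtain ⟨rfl, hpq⟩ := hpq
      rw [start_unique M y s s' hp hq hpq]
    · refine (wd2_finite_dang M (fun p => ¬ M.cut p.2.1 ∧ ∀ j, p.1 ∈ M.word (p.2.1, j))).subset ?_
      intro p hp
      exact ⟨hp.2 p.2.2, hp⟩
  refine h1.trans ?_
  have h2 : Set.ncard {p : Y × Dart N | ¬ M.cut p.2.1 ∧ ∀ j, p.1 ∈ M.word (p.2.1, j)} =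
      ∑ y ∈ L, (univ.filter (fun e : Dart N => ¬ M.cut e.1 ∧ ∀ j, y ∈ M.word (e.1, j))).card :=
    wd2_ncard L (fun y (e : Dart N) => ¬ M.cut e.1 ∧ ∀ j, y ∈ M.word (e.1, j))
      (fun y e h => hmem y (e.1, 0) (h.2 0)) _
  have h3 : M.dang col =
      ∑ y ∈ L, (univ.filter (fun e : Dart N => ¬ M.cut e.1 ∧ y ∈ M.word e ∧ ¬ M.Pass col y e)).card := by
    unfold Net.dang
    exact wd2_ncard L (fun y (e : Dart N) => ¬ M.cut e.1 ∧ y ∈ M.word e ∧ ¬ M.Pass col y e)
      (fun y e h => hmem y e h.2.1) _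
  rw [h2, h3, mul_sum]
  exact sum_le_sum fun y _ => wd2_one M hAC col y

end H98T
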