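import Mathlib

set_option autoImplicit false

/-!
# H98T.WB: region growing along a sequence
-/

namespace H98T

open Finset

theorem wb_step (W' L A h : ℝ) (hh : 0 < h) (hW : 1 ≤ W') (hL : 1 ≤ L) (hA : 1 ≤ A) (hhL : h * L ≤ 1)
    (h3 : h * W' ≤ 3 * A) : L ≤ 4 / h * Real.log (W' + L * A) - 4 / h * Real.log W' := by
  have hLA : 1 ≤ L * A := by nlinarith
  have hWp : 0 < W' + L * A := by linarith
  have h1 : Real.log (W' + L * A) - Real.log W' = Real.log ((W' + L * A) / W') := by
    rw [Real.log_div (by linarith) (by linarith)]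
  have h2 := Real.one_sub_inv_le_log_of_pos (x := (W' + L * A) / W') (by positivity)
  have h4 : 1 - ((W' + L * A) / W')⁻¹ = L * A / (W' + L * A) := by
    rw [inv_div, eq_div_iff (by linarith), sub_mul, div_mul_cancel₀ _ (by linarith)]
    ring
  have h5 : h * L / 4 ≤ L * A / (W' + L * A) := by
    rw [le_div_iff₀ hWp]
    have : h * (W' + L * A) ≤ 4 * A := by nlinarith
    nlinarith
  have h6 : h * L / 4 ≤ Real.log (W' + L * A) - Real.log W' := by
    rw [h1]; linarith [h4 ▸ h2]
  have h7 : 4 / h * (h * L / 4) ≤ 4 / h * (Real.log (W' + L * A) - Real.log W') :=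
    mul_le_mul_of_nonneg_left h6 (by positivity)
  have h8 : 4 / h * (h * L / 4) = L := by field_simp
  rw [h8] at h7
  linarith

theorem wb_ineq (S A B L' Lam h : ℝ) (h0 : 0 < h) (hS : h * S < A + B) (hBA : B ≤ A) (hB : 0 ≤ B) (hL' : L' ≤ Lam)
    (hLam : h * Lam ≤ 1) : h * (S + L' * B) ≤ 3 * A := by
  have h1 : h * L' ≤ 1 := le_trans (mul_le_mul_of_nonneg_left hL' h0.le) hLam
  have h2 : h * L' * B ≤ 1 * B := mul_le_mul_of_nonneg_right h1 hB
  nlinarith

theorem wb_main (a : ℕ → ℕ) (lam : ℕ → ℝ) (Lam h : ℝ) (h0 : 0 < h) (hL : h * Lam ≤ 1)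
    (h1 : ∀ t, 1 ≤ lam t) (h2 : ∀ t, lam t ≤ Lam) (n : ℕ) : ∀ i : ℕ,
    ∃ i' k' : ℕ, (k' ≤ i' ∨ (i ≤ i' ∧ i' < k' ∧ k' < i + n ∧ (a i' : ℝ) + a k' ≤ h * ∑ t ∈ Ioo i' k', lam t * (a t : ℝ))) ∧
      ∑ t ∈ (Ico i (i + n)).filter (fun t => ¬ (i' < t ∧ t < k') ∧ a t ≠ 0), lam t ≤
        4 / h * Real.log (max (∑ t ∈ Ico i (i + n), lam t * (a t : ℝ)) 1) + 4 * Lam := by
  have hLam : 1 ≤ Lam := le_trans (h1 0) (h2 0)
  have hlog : ∀ W : ℝ, 0 ≤ 4 / h * Real.log (max W 1) := fun W =>
    mul_nonneg (by positivity) (Real.log_nonneg (le_max_right _ _))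
  induction n with
  | zero =>
    intro i
    refine ⟨0, 0, Or.inl le_rfl, ?_⟩
    simp
    linarith
  | succ m ih =>
    intro i
    rcases Nat.eq_zero_or_pos m with hm | hm
    · subst hm
      refine ⟨0, 0, Or.inl le_rfl, ?_⟩
      have : ∑ t ∈ (Ico i (i + (0 + 1))).filter (fun t => ¬ (0 < t ∧ t < 0) ∧ a t ≠ 0), lam t ≤ ∑ t ∈ Ico i (i + (0 + 1)), lam t :=
        sum_le_sum_of_subset_of_nonneg (filter_subset _ _) (fun t _ _ => by linarith [h1 t])
      have h3 : ∑ t ∈ Ico i (i + (0 + 1)), lam t = lam i := by simp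
      have := hlog (∑ t ∈ Ico i (i + (0 + 1)), lam t * (a t : ℝ))
      linarith [h2 i]
    · -- window i .. i + m
      by_cases hc : (a i : ℝ) + a (i + m) ≤ h * ∑ t ∈ Ioo i (i + m), lam t * (a t : ℝ)
      · refine ⟨i, i + m, Or.inr ⟨le_rfl, by omega, by omega, hc⟩, ?_⟩
        have hsub : (Ico i (i + (m + 1))).filter (fun t => ¬ (i < t ∧ t < i + m) ∧ a t ≠ 0) ⊆ {i, i + m} := by
          intro t ht
          simp only [mem_filter, mem_Ico, mem_insert, mem_singleton] at ht ⊢
          omega
        have h3 : ∑ t ∈ (Ico i (i + (m + 1))).filter (fun t => ¬ (i < t ∧ t < i + m) ∧ a t ≠ 0), lam t ≤ ∑ t ∈ ({i, i + m} : Finset ℕ), lam t :=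
          sum_le_sum_of_subset_of_nonneg hsub (fun t _ _ => by linarith [h1 t])
        rw [sum_pair (by omega)] at h3
        have := hlog (∑ t ∈ Ico i (i + (m + 1)), lam t * (a t : ℝ))
        linarith [h2 i, h2 (i + m)]
      · push Not at hc
        have hSnn : 0 ≤ ∑ t ∈ Ioo i (i + m), lam t * (a t : ℝ) :=
          sum_nonneg (fun t _ => mul_nonneg (by linarith [h1 t]) (Nat.cast_nonneg _))
        have hsplit : ∑ t ∈ Ico i (i + (m + 1)), lam t * (a t : ℝ) =
            lam i * a i + (∑ t ∈ Ioo i (i + m), lam t * (a t : ℝ)) + lam (i + m) * a (i + m) := by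
          rw [show i + (m + 1) = (i + m) + 1 by ring, Finset.sum_Ico_succ_top (by omega),
            Finset.sum_eq_sum_Ico_succ_bot (by omega)]
          congr 1
        have hW1 : ∑ t ∈ Ico (i + 1) (i + 1 + m), lam t * (a t : ℝ) =
            (∑ t ∈ Ioo i (i + m), lam t * (a t : ℝ)) + lam (i + m) * a (i + m) := by
          rw [show i + 1 + m = (i + m) + 1 by ring, Finset.sum_Ico_succ_top (by omega)]
          congr 1
        have hW2 : ∑ t ∈ Ico i (i + m), lam t * (a t : ℝ) =
            lam i * a i + (∑ t ∈ Ioo i (i + m), lam t * (a t : ℝ)) := by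
          rw [Finset.sum_eq_sum_Ico_succ_bot (by omega)]
          congr 1
        have hsmall : ∀ p q : ℕ, ∑ t ∈ Ico p q, lam t * (a t : ℝ) < 1 → ∀ t ∈ Ico p q, a t = 0 := by
          intro p q hpq t ht
          by_contra hne
          have h3 : lam t * (a t : ℝ) ≤ ∑ t ∈ Ico p q, lam t * (a t : ℝ) :=
            single_le_sum (f := fun t => lam t * (a t : ℝ)) (fun t _ => mul_nonneg (by linarith [h1 t]) (Nat.cast_nonneg _)) ht
          have h4 : (1 : ℝ) ≤ a t := by exact_mod_cast Nat.one_le_iff_ne_zero.mpr hne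
          nlinarith [h1 t]
        rcases le_total (a (i + m)) (a i) with hle | hle
        · -- drop i
          have hleR : (a (i + m) : ℝ) ≤ a i := by exact_mod_cast hle
          have hai : (1 : ℝ) ≤ a i := by
            have : 0 < (a i : ℝ) + a (i + m) := lt_of_le_of_lt (mul_nonneg h0.le hSnn) hc
            have h5 : 0 < a i := by
              have h7 : 0 < a i + a (i + m) := by exact_mod_cast this
              omega
            exact_mod_cast h5
          by_cases hsm : ∑ t ∈ Ico (i + 1) (i + 1 + m), lam t * (a t : ℝ) < 1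
          · have h0' := hsmall _ _ hsm
            refine ⟨0, 0, Or.inl le_rfl, ?_⟩
            have hsub : (Ico i (i + (m + 1))).filter (fun t => ¬ (0 < t ∧ t < 0) ∧ a t ≠ 0) ⊆ {i} := by
              intro t ht
              simp only [mem_filter, mem_Ico, mem_singleton] at ht ⊢
              by_contra hne
              exact ht.2.2 (h0' t (by rw [mem_Ico]; omega))
            have h3 : ∑ t ∈ (Ico i (i + (m + 1))).filter (fun t => ¬ (0 < t ∧ t < 0) ∧ a t ≠ 0), lam t ≤ ∑ t ∈ ({i} : Finset ℕ), lam t :=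
              sum_le_sum_of_subset_of_nonneg hsub (fun t _ _ => by linarith [h1 t])
            rw [sum_singleton] at h3
            have := hlog (∑ t ∈ Ico i (i + (m + 1)), lam t * (a t : ℝ))
            linarith [h2 i]
          · push Not at hsm
            obtain ⟨i', k', hcut, hw⟩ := ih (i + 1)
            refine ⟨i', k', ?_, ?_⟩
            · rcases hcut with hcut | ⟨c1, c2, c3, c4⟩
              · exact Or.inl hcut
              · exact Or.inr ⟨by omega, c2, by omega, c4⟩
            · have hsub : (Ico i (i + (m + 1))).filter (fun t => ¬ (i' < t ∧ t < k') ∧ a t ≠ 0) ⊆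
                  insert i ((Ico (i + 1) (i + 1 + m)).filter (fun t => ¬ (i' < t ∧ t < k') ∧ a t ≠ 0)) := by
                intro t ht
                simp only [mem_filter, mem_Ico, mem_insert] at ht ⊢
                by_cases hti : t = i
                · exact Or.inl hti
                · refine Or.inr ⟨by omega, ht.2⟩
              have h3 := sum_le_sum_of_subset_of_nonneg (f := lam) hsub (fun t _ _ => by linarith [h1 t])
              rw [sum_insert (by simp)] at h3
              have hst := wb_step (∑ t ∈ Ico (i + 1) (i + 1 + m), lam t * (a t : ℝ)) (lam i) (a i) h h0 hsm (h1 i) hai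
                (by nlinarith [h2 i]) (by rw [hW1]; exact wb_ineq _ _ _ _ Lam h h0 hc hleR (Nat.cast_nonneg _) (h2 _) hL)
              have hWW : ∑ t ∈ Ico i (i + (m + 1)), lam t * (a t : ℝ) = (∑ t ∈ Ico (i + 1) (i + 1 + m), lam t * (a t : ℝ)) + lam i * a i := by
                rw [hsplit, hW1]; ring
              rw [max_eq_left hsm] at hw
              rw [max_eq_left (by rw [hWW]; nlinarith [h1 i]), hWW]
              linarith
        · -- drop k
          have hleR : (a i : ℝ) ≤ a (i + m) := by exact_mod_cast hle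
          have hai : (1 : ℝ) ≤ a (i + m) := by
            have : 0 < (a i : ℝ) + a (i + m) := lt_of_le_of_lt (mul_nonneg h0.le hSnn) hc
            have h5 : 0 < a (i + m) := by
              have h7 : 0 < a i + a (i + m) := by exact_mod_cast this
              omega
            exact_mod_cast h5
          by_cases hsm : ∑ t ∈ Ico i (i + m), lam t * (a t : ℝ) < 1
          · have h0' := hsmall _ _ hsm
            refine ⟨0, 0, Or.inl le_rfl, ?_⟩
            have hsub : (Ico i (i + (m + 1))).filter (fun t => ¬ (0 < t ∧ t < 0) ∧ a t ≠ 0) ⊆ {i + m} := by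
              intro t ht
              simp only [mem_filter, mem_Ico, mem_singleton] at ht ⊢
              by_contra hne
              exact ht.2.2 (h0' t (by rw [mem_Ico]; omega))
            have h3 : ∑ t ∈ (Ico i (i + (m + 1))).filter (fun t => ¬ (0 < t ∧ t < 0) ∧ a t ≠ 0), lam t ≤ ∑ t ∈ ({i + m} : Finset ℕ), lam t :=
              sum_le_sum_of_subset_of_nonneg hsub (fun t _ _ => by linarith [h1 t])
            rw [sum_singleton] at h3
            have := hlog (∑ t ∈ Ico i (i + (m + 1)), lam t * (a t : ℝ))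
            linarith [h2 (i + m)]
          · push Not at hsm
            obtain ⟨i', k', hcut, hw⟩ := ih i
            refine ⟨i', k', ?_, ?_⟩
            · rcases hcut with hcut | ⟨c1, c2, c3, c4⟩
              · exact Or.inl hcut
              · exact Or.inr ⟨by omega, c2, by omega, c4⟩
            · have hsub : (Ico i (i + (m + 1))).filter (fun t => ¬ (i' < t ∧ t < k') ∧ a t ≠ 0) ⊆
                  insert (i + m) ((Ico i (i + m)).filter (fun t => ¬ (i' < t ∧ t < k') ∧ a t ≠ 0)) := by
                intro t ht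
                simp only [mem_filter, mem_Ico, mem_insert] at ht ⊢
                by_cases hti : t = i + m
                · exact Or.inl hti
                · refine Or.inr ⟨by omega, ht.2⟩
              have h3 := sum_le_sum_of_subset_of_nonneg (f := lam) hsub (fun t _ _ => by linarith [h1 t])
              rw [sum_insert (by simp)] at h3
              have hst := wb_step (∑ t ∈ Ico i (i + m), lam t * (a t : ℝ)) (lam (i + m)) (a (i + m)) h h0 hsm (h1 _) hai
                (by nlinarith [h2 (i + m)]) (by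
                  rw [hW2, add_comm (lam i * (a i : ℝ))]
                  exact wb_ineq _ _ _ _ Lam h h0 (by linarith) hleR (Nat.cast_nonneg _) (h2 _) hL)
              have hWW : ∑ t ∈ Ico i (i + (m + 1)), lam t * (a t : ℝ) = (∑ t ∈ Ico i (i + m), lam t * (a t : ℝ)) + lam (i + m) * a (i + m) := by
                rw [hsplit, hW2]
              rw [max_eq_left hsm] at hw
              rw [max_eq_left (by rw [hWW]; nlinarith [h1 (i + m)]), hWW]
              linarith

/-- WB. Chunk WB (size M). REGION GROWING.  Given masses `a t` (natural numbers) with weights `1 ≤ lam t ≤ Lam` for `t < l`, `h Lam ≤ 1`, total weighted mass at most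
`T`.  There are `i, k` such that EITHER nothing is cut (then we take `k ≤ i`, so that no `t` satisfies `i < t < k`), OR `i < k < l` and the two boundary masses are
paid by the inner mass; and the total weight of the indices `t < l` outside `(i, k)` with `a t ≠ 0` is at most `(4/h) log T + 4 Lam`.

Proof (two pointers).  Prove by induction on the length `k + 1 - i` of a window `[i, k]` (`k < l`): with `W = ∑_{t ∈ [i,k]} lam t a t` there are `i ≤ i'`, `k' ≤ k` (or no cut)
such that the total weight of the `t ∈ [i,k]` outside `(i', k')` with `a t ≠ 0` is at most `(4/h) log (max W 1) + 4 Lam`.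
* If the window has at most two elements: weight `≤ 2 Lam`, no cut.  More generally if `W < 1`, all `a t = 0`: nothing.
* If `a i + a k ≤ h ∑_{i<t<k} lam t a t`: cut there; the two ends weigh `≤ 2 Lam`.
* If `a i = 0` (or `a k = 0`) drop this end, no weight is lost.
* Otherwise drop the end with the larger mass, say `a k ≤ a i` (`a i ≥ 1`).  Put `S = ∑_{i<t<k} lam t a t < (a i + a k)/h ≤ 2 a i / h`.  The new window has
  `W' = S + lam k a k ≤ 2 a i/h + Lam a i ≤ 3 a i/h` (`Lam ≤ 1/h`), so `W = W' + lam i a i ≥ W' (1 + h lam i/3)`.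
  If `W' < 1` the rest has no mass: the weight is `lam i ≤ Lam`.  If `W' ≥ 1`: `log W - log W' ≥ log(1 + h lam i/3) ≥ h lam i/4`
  (`h lam i ≤ 1`, `log(1+x) ≥ 3x/4` for `0 ≤ x ≤ 1/3`; e.g. `log(1+x) ≥ x/(1+x)`), so `lam i ≤ (4/h)(log W - log W')`. -/
theorem region_growing (a : ℕ → ℕ) (lam : ℕ → ℝ) (Lam h T : ℝ) (l : ℕ) (h0 : 0 < h) (hL : h * Lam ≤ 1) (hT : 1 ≤ T)
    (h1 : ∀ t, 1 ≤ lam t) (h2 : ∀ t, lam t ≤ Lam) (hsum : ∑ t ∈ range l, lam t * (a t : ℝ) ≤ T) :
    ∃ i k : ℕ, (k ≤ i ∨ (i < k ∧ k < l ∧ (a i : ℝ) + a k ≤ h * ∑ t ∈ Ioo i k, lam t * (a t : ℝ))) ∧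
      ∑ t ∈ (range l).filter (fun t => ¬ (i < t ∧ t < k) ∧ a t ≠ 0), lam t ≤ 4 / h * Real.log T + 4 * Lam := by
  have hLam : 1 ≤ Lam := le_trans (h1 0) (h2 0)
  obtain ⟨i, k, hcut, hw⟩ := wb_main a lam Lam h h0 hL h1 h2 l 0
  refine ⟨i, k, ?_, ?_⟩
  · rcases hcut with hcut | ⟨c1, c2, c3, c4⟩
    · exact Or.inl hcut
    · exact Or.inr ⟨c2, by omega, c4⟩
  · simp only [zero_add] at hw
    rw [← Finset.range_eq_Ico] at hw
    have hmono : Real.log (max (∑ t ∈ range l, lam t * (a t : ℝ)) 1) ≤ Real.log T :=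
      Real.log_le_log (lt_of_lt_of_le one_pos (le_max_right _ _)) (max_le hsum hT)
    have := mul_le_mul_of_nonneg_left hmono (by positivity : (0 : ℝ) ≤ 4 / h)
    linarith

end H98T
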