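import Mathlib
import Pool.Agent.Lib.H98T.WD1

set_option autoImplicit false

/-!
# H98T.WE1: reflections and links of gaps
-/

namespace H98T

open Finset

variable {N Y : Type}

theorem we1_lt_of_get {l : List Y} {t : ℕ} {y : Y} (h : l[t]? = some y) : t < l.length := by
  by_contra hh
  rw [List.getElem?_eq_none (by omega)] at h
  exact absurd h (by simp)

theorem we1_gap_lt {l : List Y} {y : Y} {i i' : ℕ} (h : IsGap l y i i') : i < i' ∧ i' < l.length :=
  ⟨h.1, we1_lt_of_get h.2.2.1⟩

theorem we1_prv_nxt (e : Dart N) : prv (nxt e) = e := by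
  obtain ⟨z, j⟩ := e
  simp only [prv, nxt, Prod.mk.injEq, true_and]
  fin_cases j <;> rfl

theorem we1_nxt_prv (e : Dart N) : nxt (prv e) = e := by
  obtain ⟨z, j⟩ := e
  simp only [prv, nxt, Prod.mk.injEq, true_and]
  fin_cases j <;> rfl

theorem we1_prv_ne (e : Dart N) : prv e ≠ e := by
  obtain ⟨z, j⟩ := e
  simp only [prv, ne_eq, Prod.mk.injEq, true_and]
  fin_cases j <;> decide

theorem we1_nxt_ne (e : Dart N) : nxt e ≠ e := by
  obtain ⟨z, j⟩ := e
  simp only [nxt, ne_eq, Prod.mk.injEq, true_and]
  fin_cases j <;> decide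

/-- Transport of a gap by a reflection of positions. -/
theorem we1_transport {l l' : List Y} {y : Y} {i i' k : ℕ} (h : IsGap l y i i') (hk : i' < k)
    (hl : ∀ t, i ≤ t → t ≤ i' → l[t]? = l'[k - 1 - t]?) : IsGap l' y (k - 1 - i') (k - 1 - i) := by
  obtain ⟨h1, h2, h3, h4⟩ := h
  refine ⟨by omega, ?_, ?_, ?_⟩
  · rw [← hl i' (by omega) le_rfl]; exact h3
  · rw [← hl i le_rfl (by omega)]; exact h2
  · intro t ht1 ht2
    have h5 := h4 (k - 1 - t) (by omega) (by omega)
    rw [hl (k - 1 - t) (by omega) (by omega)] at h5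
    have h6 : k - 1 - (k - 1 - t) = t := by omega
    rw [h6] at h5
    exact h5

/-- WE1a. Chunk WE1 (size M). The reflection of a gap is a gap, on the inverse dart (`word_inv`: the letter `t` of the reversed list is the letter `m - 1 - t`). -/
theorem rfl_isGap (M : Net N Y) (y : Y) (s : St N) (h : IsGap (M.word s.1) y s.2.1 s.2.2) :
    IsGap (M.word (M.rfl' s).1) y (M.rfl' s).2.1 (M.rfl' s).2.2 := by
  have h0 := we1_gap_lt h
  simp only [Net.rfl']
  refine we1_transport h h0.2 ?_
  intro t _ ht
  rw [M.word_inv, List.getElem?_reverse (by omega)]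
  congr 1
  omega

/-- WE1b. Chunk WE1. Reflection is an involution on gaps (`i < i' < m`). -/
theorem rfl_rfl (M : Net N Y) (y : Y) (s : St N) (h : IsGap (M.word s.1) y s.2.1 s.2.2) : M.rfl' (M.rfl' s) = s := by
  have h0 := we1_gap_lt h
  obtain ⟨e, i, i'⟩ := s
  simp only at h0
  simp only [Net.rfl', M.inv_inv, M.word_inv, List.length_reverse, Prod.mk.injEq, true_and]
  constructor <;> omega

/-- WE1c. Chunk WE1. Positions under reflection. -/
theorem pos_rfl (M : Net N Y) (y : Y) (s : St N) (h : IsGap (M.word s.1) y s.2.1 s.2.2) (j : ℕ) (hj : j ≤ (M.word s.1).length) :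
    (s.2.1 < j ∧ j ≤ s.2.2) ↔ ((M.rfl' s).2.1 < (M.word s.1).length - j ∧ (M.word s.1).length - j ≤ (M.rfl' s).2.2) := by
  have h0 := we1_gap_lt h
  simp only [Net.rfl']
  constructor
  · rintro ⟨h1, h2⟩
    constructor <;> omega
  · rintro ⟨h1, h2⟩
    constructor <;> omega

/-- WE1d. Chunk WE1. The link of a gap at an uncut node: a gap on another dart of the same node, and its link is the original gap.
(Two cases; in the first `leg_eq` for `e`, in the second `leg_eq` for `nxt e`, via `letter_prv`, `letter_nxt`; a gap inside the common leg stays a gap since all letters between `i` and `i'` are in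
the leg.  In the first case the new indices are `≥ leg (prv e)`: `length (prv e) = leg (prv e) + leg e`, and `nxt (prv e) = e`.) -/
theorem link_spec (M : Net N Y) (y : Y) (s s' : St N) (hc : ¬ M.cut s.1.1) (h : IsGap (M.word s.1) y s.2.1 s.2.2)
    (hl : M.link s = some s') :
    IsGap (M.word s'.1) y s'.2.1 s'.2.2 ∧ s'.1.1 = s.1.1 ∧ s'.1 ≠ s.1 ∧ M.link s' = some s := by
  have h0 := we1_gap_lt h
  obtain ⟨e, i, i'⟩ := s
  simp only at h0 h hc
  have hlen := M.len e hc
  have hlen' := M.len (prv e) hc
  rw [we1_nxt_prv] at hlen'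
  unfold Net.link at hl
  simp only at hl
  split_ifs at hl with h1 h2
  · simp only [Option.some.injEq] at hl
    subst hl
    refine ⟨?_, rfl, we1_prv_ne e, ?_⟩
    · refine we1_transport h (by omega) ?_
      intro t _ ht
      exact (letter_prv M e hc t (by omega)).1
    · unfold Net.link
      simp only
      rw [if_neg (by omega), if_pos (by omega), we1_nxt_prv]
      simp only [Option.some.injEq, Prod.mk.injEq, true_and]
      constructor <;> omega
  · simp only [Option.some.injEq] at hl
    subst hl
    refine ⟨?_, rfl, we1_nxt_ne e, ?_⟩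
    · refine we1_transport h (by omega) ?_
      intro t ht1 ht
      exact (letter_nxt M e hc t (by omega) (by omega)).1
    · unfold Net.link
      simp only
      rw [if_pos (by omega), we1_prv_nxt]
      simp only [Option.some.injEq, Prod.mk.injEq, true_and]
      constructor <;> omega

/-- WE1e. Chunk WE1. The link exists unless the gap contains the centre. -/
theorem link_none (M : Net N Y) (y : Y) (s : St N) (hc : ¬ M.cut s.1.1) (h : IsGap (M.word s.1) y s.2.1 s.2.2) :
    M.link s = none ↔ M.Start y s := by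
  unfold Net.link Net.Start
  split_ifs with h1 h2
  · simp only [reduceCtorEq, false_iff]
    rintro ⟨_, _, _, h5⟩
    omega
  · simp only [reduceCtorEq, false_iff]
    rintro ⟨_, _, h4, _⟩
    omega
  · simp only [true_iff]
    exact ⟨hc, h, by omega, by omega⟩

/-- WE1f. Chunk WE1. A position `j ≤ leg e` of `e` in the gap `s` (of `e`) with `s.2.2 < leg e`: the corresponding position `length (prv e) - j` of `prv e` is in the linked gap, and conversely. -/
theorem pos_link (M : Net N Y) (y : Y) (s : St N) (hc : ¬ M.cut s.1.1) (h : IsGap (M.word s.1) y s.2.1 s.2.2) (hs : s.2.2 < M.leg s.1)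
    (j : ℕ) (hj : j ≤ M.leg s.1) :
    (s.2.1 < j ∧ j ≤ s.2.2) ↔ ((M.word (prv s.1)).length - 1 - s.2.2 < (M.word (prv s.1)).length - j ∧
      (M.word (prv s.1)).length - j ≤ (M.word (prv s.1)).length - 1 - s.2.1) := by
  have h0 := we1_gap_lt h
  have hlen' := M.len (prv s.1) hc
  rw [we1_nxt_prv] at hlen'
  constructor
  · rintro ⟨h1, h2⟩
    constructor <;> omega
  · rintro ⟨h1, h2⟩
    constructor <;> omega

end H98T
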