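import Mathlib
import Pool.Agent.Lib.H98T.WE1

set_option autoImplicit false

/-!
# H98T.WE2: steps and strips
-/

namespace H98T

open Finset

variable {N Y : Type}

/-- WE2a. Chunk WE2 (size M). A step leads from a gap to a gap at the other end of the edge; the new dart is not the inverse dart; and it can be undone at the node. -/
theorem step_spec (M : Net N Y) (col : Y → N → ℕ) (y : Y) (s s' : St N) (h : IsGap (M.word s.1) y s.2.1 s.2.2)
    (hs : M.step col y s = some s') :
    IsGap (M.word s'.1) y s'.2.1 s'.2.2 ∧ M.Pass col y s.1 ∧ s'.1.1 = (M.inv s.1).1 ∧ s'.1 ≠ M.inv s.1 ∧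
      M.link (M.rfl' s) = some s' ∧ M.link s' = some (M.rfl' s) := by
  unfold Net.step at hs
  split_ifs at hs with hp
  obtain ⟨h1, h2, h3, h4⟩ := link_spec M y (M.rfl' s) s' hp.2.2.2.1 (rfl_isGap M y s h) hs
  exact ⟨h1, hp, h2, h3, hs, h4⟩

/-- WE2b. Chunk WE2. All states of the strip of a start are gaps, at uncut nodes of the same colour. -/
theorem strip_spec (M : Net N Y) (col : Y → N → ℕ) (y : Y) (b s : St N) (hb : M.Start y b) (t : ℕ)
    (hs : M.strip col y b t = some s) :
    IsGap (M.word s.1) y s.2.1 s.2.2 ∧ ¬ M.cut s.1.1 ∧ col y s.1.1 = col y b.1.1 := by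
  induction t generalizing s with
  | zero =>
    have h : b = s := by simpa [Net.strip] using hs
    subst h
    exact ⟨hb.2.1, hb.1, rfl⟩
  | succ t ih =>
    obtain ⟨s', h1, h2⟩ : ∃ s', M.strip col y b t = some s' ∧ M.step col y s' = some s := by
      simpa [Net.strip, Option.bind_eq_some_iff] using hs
    obtain ⟨h3, h4, h5⟩ := ih s' h1
    obtain ⟨h6, h7, h8, -, -, -⟩ := step_spec M col y s' s h3 h2
    refine ⟨h6, ?_, ?_⟩
    · rw [h8]; exact h7.2.2.2.1
    · rw [h8, ← h7.2.2.2.2, h5]

/-- WE2c. Chunk WE2. Earlier states exist. -/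
theorem strip_le (M : Net N Y) (col : Y → N → ℕ) (y : Y) (b s : St N) (t t' : ℕ) (h : t' ≤ t)
    (hs : M.strip col y b t = some s) : ∃ s', M.strip col y b t' = some s' := by
  induction t generalizing s with
  | zero =>
    obtain rfl : t' = 0 := by omega
    exact ⟨s, hs⟩
  | succ t ih =>
    rcases Nat.lt_or_ge t t' with h1 | h1
    · obtain rfl : t' = t + 1 := by omega
      exact ⟨s, hs⟩
    · obtain ⟨s', h2, -⟩ : ∃ s', M.strip col y b t = some s' ∧ M.step col y s' = some s := by
        simpa [Net.strip, Option.bind_eq_some_iff] using hs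
      exact ih s' h1 h2

/-- WE2d. Chunk WE2. A state number `t + 1` is linked to the reflection of the state number `t`, which is passable; so it is not a start. -/
theorem strip_succ (M : Net N Y) (col : Y → N → ℕ) (y : Y) (b s : St N) (hb : M.Start y b) (t : ℕ)
    (hs : M.strip col y b (t + 1) = some s) :
    ∃ s', M.strip col y b t = some s' ∧ M.step col y s' = some s ∧ M.link s = some (M.rfl' s') ∧ M.Pass col y s'.1 := by
  obtain ⟨s', h1, h2⟩ : ∃ s', M.strip col y b t = some s' ∧ M.step col y s' = some s := by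
    simpa [Net.strip, Option.bind_eq_some_iff] using hs
  obtain ⟨h3, -, -⟩ := strip_spec M col y b s' hb t h1
  obtain ⟨-, h7, -, -, -, h8⟩ := step_spec M col y s' s h3 h2
  exact ⟨s', h1, h2, h8, h7⟩

end H98T
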