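import Mathlib
import Pool.Agent.Lib.H98T.WE2

set_option autoImplicit false

/-!
# H98T.WE2E: strips do not return
-/

namespace H98T

open Finset

variable {N Y : Type}

/-- WE2e. Chunk WE2E (size M). NO RETURN: the darts of a strip are distinct.
Proof: suppose `strip b t = some s`, `strip b t' = some s'`, `t < t'`, `s.1 = s'.1`.  Let `e_u` (`t ≤ u ≤ t'`) be the darts of the states (`strip_le`), `D` the finite set of the darts `e_u`, `inv e_u`
(`t ≤ u < t'`), `U` the set of their nodes.  All darts in `D` contain `y`, are not in `F` and are at uncut nodes, both ends in `U`.  Every node of `U` carries at least two darts of `D`: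
it is the node of some `e_u` with `t < u ≤ t'` (`e_t = e_t'`), and there `e_u` and `inv e_(u-1)` are two different darts (`step_spec`) of `D` (if `u = t'`, `e_u = e_t`).
So `|D| ≥ 2 |U|`, contradiction to `AC`. -/
theorem no_return [Fintype N] (M : Net N Y) (hAC : M.AC) (col : Y → N → ℕ) (y : Y) (b s s' : St N) (hb : M.Start y b) (t t' : ℕ)
    (ht : t < t') (hs : M.strip col y b t = some s) (hs' : M.strip col y b t' = some s') : s.1 ≠ s'.1 := by
  classical
  intro heq
  have hex : ∀ u, ∃ w : St N, u ≤ t' → M.strip col y b u = some w := by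
    intro u
    by_cases hu : u ≤ t'
    · obtain ⟨w, hw⟩ := strip_le M col y b s' t' u hu hs'
      exact ⟨w, fun _ => hw⟩
    · exact ⟨s, fun h => absurd h hu⟩
  choose st hst using hex
  have h0 : st t = s := by
    have h := hst t ht.le
    rw [hs] at h
    exact (Option.some.inj h).symm
  have h1 : st t' = s' := by
    have h := hst t' le_rfl
    rw [hs'] at h
    exact (Option.some.inj h).symm
  set U : Finset N := (Icc t t').image (fun u => (st u).1.1) with hU
  have hmem : ∀ u, t ≤ u → u ≤ t' → (st u).1.1 ∈ U := fun u h2 h3 =>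
    Finset.mem_image.2 ⟨u, Finset.mem_Icc.2 ⟨h2, h3⟩, rfl⟩
  have hgap : ∀ u, u ≤ t' → IsGap (M.word (st u).1) y (st u).2.1 (st u).2.2 ∧ ¬ M.cut (st u).1.1 := fun u h2 => by
    obtain ⟨h3, h4, -⟩ := strip_spec M col y b (st u) hb u (hst u h2)
    exact ⟨h3, h4⟩
  have hstep : ∀ u, u < t' → M.Pass col y (st u).1 ∧ (st (u + 1)).1.1 = (M.inv (st u).1).1 ∧
      (st (u + 1)).1 ≠ M.inv (st u).1 := by
    intro u h2
    obtain ⟨w, h3, h4, -, -⟩ := strip_succ M col y b (st (u + 1)) hb u (hst (u + 1) h2)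
    have h5 := hst u h2.le
    rw [h3] at h5
    have h6 : w = st u := Option.some.inj h5
    rw [h6] at h4
    obtain ⟨-, h7, h8, h9, -, -⟩ := step_spec M col y (st u) (st (u + 1)) (hgap u h2.le).1 h4
    exact ⟨h7, h8, h9⟩
  set D : Finset (Dart N) :=
    univ.filter (fun e : Dart N => e.1 ∈ U ∧ (M.inv e).1 ∈ U ∧ y ∈ M.word e ∧ ¬ M.F e) with hD
  have hD1 : ∀ u, t ≤ u → u < t' → (st u).1 ∈ D := by
    intro u h2 h3
    obtain ⟨h4, h5, -⟩ := hstep u h3
    refine Finset.mem_filter.2 ⟨Finset.mem_univ _, hmem u h2 h3.le, ?_, h4.1, h4.2.1⟩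
    rw [← h5]
    exact hmem (u + 1) (by omega) h3
  have hD2 : ∀ u, t ≤ u → u ≤ t' → (st u).1 ∈ D := by
    intro u h2 h3
    rcases Nat.lt_or_ge u t' with h4 | h4
    · exact hD1 u h2 h4
    · obtain rfl : u = t' := by omega
      rw [h1, ← heq, ← h0]
      exact hD1 t le_rfl ht
  have hD3 : ∀ e, e ∈ D → M.inv e ∈ D := by
    intro e he
    obtain ⟨-, h2, h3, h4, h5⟩ := Finset.mem_filter.1 he
    refine Finset.mem_filter.2 ⟨Finset.mem_univ _, h3, ?_, ?_, ?_⟩
    · rw [M.inv_inv]; exact h2
    · rw [M.word_inv]; simpa using h4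
    · rw [M.F_inv]; exact h5
  have key := hAC y U ⟨_, hmem t le_rfl ht.le⟩ (by
    intro z hz
    obtain ⟨u, h2, rfl⟩ := Finset.mem_image.1 hz
    exact (hgap u (Finset.mem_Icc.1 h2).2).2)
  have hcard : D.card = ∑ z ∈ U, (D.filter (fun e => e.1 = z)).card :=
    Finset.card_eq_sum_card_fiberwise (fun e he => (Finset.mem_filter.1 he).2.1)
  have h2U : 2 * U.card ≤ D.card := by
    rw [hcard, mul_comm, ← smul_eq_mul]
    refine Finset.card_nsmul_le_sum U _ 2 ?_
    intro z hz
    obtain ⟨u, h2, h3⟩ := Finset.mem_image.1 hz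
    obtain ⟨h2a, h2b⟩ := Finset.mem_Icc.1 h2
    obtain ⟨v, hv1, hv2, hv3⟩ : ∃ v, t ≤ v ∧ v < t' ∧ (st (v + 1)).1.1 = z := by
      rcases Nat.lt_or_ge t u with h4 | h4
      · refine ⟨u - 1, by omega, by omega, ?_⟩
        rw [← h3]
        congr 3
        omega
      · obtain rfl : u = t := by omega
        refine ⟨t' - 1, by omega, by omega, ?_⟩
        have h5 : t' - 1 + 1 = t' := by omega
        rw [h5, h1, ← heq, ← h0]
        exact h3
    obtain ⟨h4, h5, h6⟩ := hstep v hv2
    have h7 : ({(st (v + 1)).1, M.inv (st v).1} : Finset (Dart N)) ⊆ D.filter (fun e => e.1 = z) := by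
      intro e he
      rw [Finset.mem_insert, Finset.mem_singleton] at he
      rcases he with rfl | rfl
      · exact Finset.mem_filter.2 ⟨hD2 (v + 1) (by omega) hv2, hv3⟩
      · refine Finset.mem_filter.2 ⟨hD3 _ (hD2 v hv1 hv2.le), ?_⟩
        rw [← h5]
        exact hv3
    calc 2 = ({(st (v + 1)).1, M.inv (st v).1} : Finset (Dart N)).card := (Finset.card_pair h6).symm
      _ ≤ _ := Finset.card_le_card h7
  have key2 : D.card < 2 * U.card := by
    convert key using 2
  omega

end H98T
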