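import Mathlib
import Pool.Agent.Lib.H98T.WE2E

set_option autoImplicit false

/-!
# H98T.WE3: lengths of strips, number of open gaps on a dart
-/

namespace H98T

open Finset

variable {N Y : Type}

/-- WE3a. Chunk WE3 (size M). A strip has at most `3 B` states: its darts are distinct (`no_return`) and start at nodes of one colour class (`strip_spec`; the nodes have the letter `y`). -/
theorem strip_len [Fintype N] (M : Net N Y) (hAC : M.AC) (col : Y → N → ℕ) (B : ℕ) (hB : M.ColB col B) (y : Y) (b s : St N) (hb : M.Start y b)
    (t : ℕ) (hs : M.strip col y b t = some s) : t < 3 * B := by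
  classical
  have hex : ∀ u, ∃ w : St N, u ≤ t → M.strip col y b u = some w := by
    intro u
    by_cases hu : u ≤ t
    · obtain ⟨w, hw⟩ := strip_le M col y b s t u hu hs
      exact ⟨w, fun _ => hw⟩
    · exact ⟨s, fun h => absurd h hu⟩
  choose st hst using hex
  set C : Finset N := univ.filter (fun z : N => ¬ M.cut z ∧ (∃ j, y ∈ M.word (z, j)) ∧ col y z = col y b.1.1) with hC
  have hCB : C.card ≤ B := by
    have h := hB y (col y b.1.1)
    convert h using 2
  have h1 : (range (t + 1)).card ≤ (C ×ˢ (univ : Finset (Fin 3))).card := by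
    refine Finset.card_le_card_of_injOn (fun u => (st u).1) ?_ ?_
    · intro u hu
      have hu' : u ≤ t := Nat.lt_succ_iff.1 (Finset.mem_range.1 hu)
      obtain ⟨h2, h3, h4⟩ := strip_spec M col y b (st u) hb u (hst u hu')
      refine Finset.mem_coe.2 (Finset.mem_product.2 ⟨Finset.mem_filter.2 ⟨Finset.mem_univ _, h3, ⟨(st u).1.2, ?_⟩, h4⟩, Finset.mem_univ _⟩)
      exact List.mem_of_getElem? h2.2.1
    · intro u hu v hv huv
      have hu' : u ≤ t := Nat.lt_succ_iff.1 (Finset.mem_range.1 hu)
      have hv' : v ≤ t := Nat.lt_succ_iff.1 (Finset.mem_range.1 hv)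
      rcases Nat.lt_trichotomy u v with h2 | h2 | h2
      · exact absurd huv (no_return M hAC col y b _ _ hb u v h2 (hst u hu') (hst v hv'))
      · exact h2
      · exact absurd huv.symm (no_return M hAC col y b _ _ hb v u h2 (hst v hv') (hst u hu'))
  rw [Finset.card_range, Finset.card_product, Finset.card_univ, Fintype.card_fin] at h1
  omega

end H98T
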