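import Mathlib
import Pool.Agent.Lib.H98T.WE3

set_option autoImplicit false

/-!
# H98T.WE3B: the number of open gaps on a dart
-/

namespace H98T

open Finset

variable {N Y : Type}

/-- WE3b. Chunk WE3B (size M). The number of open `y`-gaps on a dart `e` with `y ∈ word e` (at an uncut node, or passable) is at most `6 B`.
Proof: an open gap `(e, i, i')` is a state of the strip of a start `b`, or its reflection is and `e` is passable.  In both cases the node of `b` has the colour of `e.1`
(`strip_spec`, `Pass`), so `b` is one of at most `3 B` starts (at most one start for each dart at a node of the class, `start_unique`).  For given `b` at most one state has dart `e` and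
at most one has dart `inv e` (`no_return`). -/
theorem open_card [Fintype N] (M : Net N Y) (hAC : M.AC) (col : Y → N → ℕ) (B : ℕ) (hB : M.ColB col B) (y : Y) (e : Dart N) :
    Set.ncard {p : ℕ × ℕ | IsGap (M.word e) y p.1 p.2 ∧ M.Open col y (e, p.1, p.2)} ≤ 6 * B := by
  classical
  set C : Finset N := univ.filter (fun z : N => ¬ M.cut z ∧ (∃ j, y ∈ M.word (z, j)) ∧ col y z = col y e.1) with hC
  have hCB : C.card ≤ B := by
    have h := hB y (col y e.1)
    convert h using 2
  have hex : ∀ p : ℕ × ℕ, ∃ bt : (St N × ℕ) × Bool, (IsGap (M.word e) y p.1 p.2 ∧ M.Open col y (e, p.1, p.2)) →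
      M.Start y bt.1.1 ∧ bt.1.1.1.1 ∈ C ∧ (bt.2 = true → M.strip col y bt.1.1 bt.1.2 = some (e, p.1, p.2)) ∧
        (bt.2 = false → M.strip col y bt.1.1 bt.1.2 = some (M.rfl' (e, p.1, p.2))) := by
    intro p
    by_cases hp : IsGap (M.word e) y p.1 p.2 ∧ M.Open col y (e, p.1, p.2)
    · obtain ⟨b, t, hb, h | ⟨hpa, h⟩⟩ := hp.2
      · refine ⟨((b, t), true), fun _ => ⟨hb, ?_, fun _ => h, fun h' => absurd h' (by simp)⟩⟩
        obtain ⟨-, -, h3⟩ := strip_spec M col y b _ hb t h
        exact Finset.mem_filter.2 ⟨Finset.mem_univ _, hb.1, ⟨b.1.2, List.mem_of_getElem? hb.2.1.2.1⟩, h3.symm⟩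
      · refine ⟨((b, t), false), fun _ => ⟨hb, ?_, fun h' => absurd h' (by simp), fun _ => h⟩⟩
        obtain ⟨-, -, h3⟩ := strip_spec M col y b _ hb t h
        refine Finset.mem_filter.2 ⟨Finset.mem_univ _, hb.1, ⟨b.1.2, List.mem_of_getElem? hb.2.1.2.1⟩, ?_⟩
        rw [← h3, hpa.2.2.2.2]
        rfl
    · exact ⟨(((e, 0, 0), 0), true), fun h => absurd h hp⟩
  choose g hg using hex
  have h1 : Set.ncard {p : ℕ × ℕ | IsGap (M.word e) y p.1 p.2 ∧ M.Open col y (e, p.1, p.2)} ≤
      Set.ncard (((C ×ˢ (univ : Finset (Fin 3))) ×ˢ (univ : Finset Bool) : Finset ((N × Fin 3) × Bool)) : Set ((N × Fin 3) × Bool)) := by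
    refine Set.ncard_le_ncard_of_injOn (fun p => ((g p).1.1.1, (g p).2)) ?_ ?_ (Finset.finite_toSet _)
    · intro p hp
      obtain ⟨h2, h3, -, -⟩ := hg p hp
      exact Finset.mem_coe.2 (Finset.mem_product.2 ⟨Finset.mem_product.2 ⟨h3, Finset.mem_univ _⟩, Finset.mem_univ _⟩)
    · intro p hp q hq hpq
      obtain ⟨h2, -, h3, h4⟩ := hg p hp
      obtain ⟨k2, -, k3, k4⟩ := hg q hq
      have h5 : (g p).1.1.1 = (g q).1.1.1 := (Prod.ext_iff.1 hpq).1
      have h6 : (g p).2 = (g q).2 := (Prod.ext_iff.1 hpq).2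
      have h7 : (g p).1.1 = (g q).1.1 := by
        exact start_unique M y (g p).1.1 (g q).1.1 h2 k2 h5
      rcases hb : (g p).2 with _ | _
      · have h8 := h4 hb
        have k8 := k4 (h6 ▸ hb)
        rw [← h7] at k8
        have h9 : (g p).1.2 = (g q).1.2 := by
          rcases Nat.lt_trichotomy (g p).1.2 (g q).1.2 with h10 | h10 | h10
          · exact (no_return M hAC col y _ _ _ h2 _ _ h10 h8 k8 rfl).elim
          · exact h10
          · exact (no_return M hAC col y _ _ _ h2 _ _ h10 k8 h8 rfl).elim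
        rw [← h9, h8] at k8
        have h10 := congrArg M.rfl' (Option.some.inj k8)
        rw [rfl_rfl M y (e, p.1, p.2) hp.1, rfl_rfl M y (e, q.1, q.2) hq.1] at h10
        have h11 := congrArg Prod.snd h10
        exact h11
      · have h8 := h3 hb
        have k8 := k3 (h6 ▸ hb)
        rw [← h7] at k8
        have h9 : (g p).1.2 = (g q).1.2 := by
          rcases Nat.lt_trichotomy (g p).1.2 (g q).1.2 with h10 | h10 | h10
          · exact (no_return M hAC col y _ _ _ h2 _ _ h10 h8 k8 rfl).elim
          · exact h10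
          · exact (no_return M hAC col y _ _ _ h2 _ _ h10 k8 h8 rfl).elim
        rw [← h9, h8] at k8
        have h11 := congrArg Prod.snd (Option.some.inj k8)
        exact h11
  rw [Set.ncard_coe_finset, Finset.card_product, Finset.card_product, Finset.card_univ, Fintype.card_fin, Finset.card_univ, Fintype.card_bool] at h1
  omega

end H98T
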