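import Mathlib
import Pool.Agent.Lib.H98T.WE3B

set_option autoImplicit false

/-!
# H98T.WG: charging positions to letters and open gaps
-/

namespace H98T

open Finset

variable {N Y : Type}

theorem wg_lt_of_get {l : List Y} {t : ℕ} {y : Y} (h : l[t]? = some y) : t < l.length := by
  by_contra hh
  rw [List.getElem?_eq_none (by omega)] at h
  exact absurd h (by simp)

theorem wg_exists_gap (l : List Y) (y : Y) (i k : ℕ) (hik : i < k) (hi : l[i]? = some y) (hk : l[k]? = some y) :
    ∃ i', IsGap l y i i' := by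
  classical
  have hex : ∃ t, i < t ∧ l[t]? = some y := ⟨k, hik, hk⟩
  refine ⟨Nat.find hex, (Nat.find_spec hex).1, hi, (Nat.find_spec hex).2, ?_⟩
  intro t h1 h2 h3
  exact Nat.find_min hex h2 ⟨h1, h3⟩

theorem wg_finite (l : List Y) (q : Y × ℕ × ℕ → Prop) :
    {p : Y × ℕ × ℕ | IsGap l p.1 p.2.1 p.2.2 ∧ q p}.Finite := by
  refine (((List.finite_toSet l).prod ((Set.finite_Iio l.length).prod (Set.finite_Iio l.length)))).subset ?_
  rintro ⟨y, i, i'⟩ ⟨⟨_, h2, h3, _⟩, _⟩
  exact ⟨List.mem_iff_getElem?.mpr ⟨_, h2⟩, wg_lt_of_get h2, wg_lt_of_get h3⟩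

open Classical in
/-- WG1. Chunk WG1 (size M). CHARGING.  For a set `P` of positions of the list `l` (`j ≤ l.length`): `|P| ≤ 1 + (number of letters of l) + (number of gaps meeting P)`.
Proof: `0` costs `1`.  `j ≥ 1`, `y` = letter number `j - 1`.  If it is the last occurrence of `y` in `l`, charge to `y` (injective).  Otherwise there is a gap `(j - 1, i')` of `y`; it contains the position `j`; charge to it (injective:
its first index is `j - 1`). -/
theorem charge (l : List Y) (P : Finset ℕ) (hP : ∀ j ∈ P, j ≤ l.length) :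
    P.card ≤ 1 + Set.ncard {y | y ∈ l} + Set.ncard {p : Y × ℕ × ℕ | IsGap l p.1 p.2.1 p.2.2 ∧ ∃ j ∈ P, p.2.1 < j ∧ j ≤ p.2.2} := by
  set A1 : Finset ℕ := P.filter (fun j => 0 < j ∧ ∃ y i', IsGap l y (j - 1) i') with hA1
  set A2 : Finset ℕ := P.filter (fun j => 0 < j ∧ ¬ ∃ y i', IsGap l y (j - 1) i') with hA2
  have h0 : P ⊆ {0} ∪ A2 ∪ A1 := by
    intro j hj
    rw [mem_union, mem_union, mem_singleton, hA1, hA2, mem_filter, mem_filter]
    by_cases h1 : j = 0
    · exact Or.inl (Or.inl h1)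
    · by_cases h2 : ∃ y i', IsGap l y (j - 1) i'
      · exact Or.inr ⟨hj, by omega, h2⟩
      · exact Or.inl (Or.inr ⟨hj, by omega, h2⟩)
  have h1 : P.card ≤ 1 + A2.card + A1.card := by
    refine (card_le_card h0).trans ?_
    refine (card_union_le _ _).trans ?_
    have := card_union_le ({0} : Finset ℕ) A2
    rw [card_singleton] at this
    omega
  have h2 : A1.card ≤ Set.ncard {p : Y × ℕ × ℕ | IsGap l p.1 p.2.1 p.2.2 ∧ ∃ j ∈ P, p.2.1 < j ∧ j ≤ p.2.2} := by
    have hfin := wg_finite l (fun p => ∃ j ∈ P, p.2.1 < j ∧ j ≤ p.2.2)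
    rw [← Set.ncard_coe_finset]
    refine le_trans (Set.ncard_le_ncard ?_ (hfin.image (fun p => p.2.1 + 1))) (Set.ncard_image_le hfin)
    intro j hj
    rw [mem_coe, hA1, mem_filter] at hj
    obtain ⟨hjP, hj0, y, i', hg⟩ := hj
    refine ⟨(y, j - 1, i'), ⟨hg, j, hjP, ?_, ?_⟩, ?_⟩
    · simp only
      omega
    · have := hg.1
      simp only
      omega
    · simp only
      omega
  have h3 : A2.card ≤ Set.ncard {y | y ∈ l} := by
    have hfin : {y | y ∈ l}.Finite := List.finite_toSet l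
    set g : Y → ℕ := fun y => if h : ∃ j ∈ A2, l[j - 1]? = some y then h.choose else 0 with hg
    rw [← Set.ncard_coe_finset]
    refine le_trans (Set.ncard_le_ncard ?_ (hfin.image g)) (Set.ncard_image_le hfin)
    intro j hj
    rw [mem_coe] at hj
    have hj' := hj
    rw [hA2, mem_filter] at hj'
    obtain ⟨hjP, hj0, hno⟩ := hj'
    have hjl := hP j hjP
    have hy : l[j - 1]? = some l[j - 1] := List.getElem?_eq_getElem (by omega)
    refine ⟨l[j - 1], List.getElem_mem _, ?_⟩
    have hex : ∃ k ∈ A2, l[k - 1]? = some l[j - 1] := ⟨j, hj, hy⟩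
    have h5 : g l[j - 1] = hex.choose := by
      rw [hg]
      simp only
      rw [dif_pos hex]
    rw [h5]
    obtain ⟨h6, h7⟩ := hex.choose_spec
    have hmem : ∀ k, k ∈ A2 → 0 < k ∧ ¬ ∃ y i', IsGap l y (k - 1) i' := by
      intro k hk
      rw [hA2, mem_filter] at hk
      exact hk.2
    obtain ⟨hk0, hkno⟩ := hmem _ h6
    rcases lt_trichotomy hex.choose j with h | h | h
    · exact absurd (wg_exists_gap l _ (hex.choose - 1) (j - 1) (by omega) h7 hy) (fun ⟨i', hi'⟩ => hkno ⟨_, i', hi'⟩)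
    · exact h
    · exact absurd (wg_exists_gap l _ (j - 1) (hex.choose - 1) (by omega) hy h7) (fun ⟨i', hi'⟩ => hno ⟨_, i', hi'⟩)
  omega

end H98T
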