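import Mathlib
import Pool.Agent.Lib.H98T.WG

set_option autoImplicit false

/-!
# H98T.WG2: bounds for good choices of positions
-/

namespace H98T

open Finset

variable {N Y : Type}

theorem wg2_ncard_gaps [Fintype N] (M : Net N Y) (hAC : M.AC) (col : Y → N → ℕ) (B : ℕ) (hB : M.ColB col B) (e : Dart N)
    (Q : Finset ℕ) (hQ : Q ⊆ M.P0 col e) :
    Set.ncard {p : Y × ℕ × ℕ | IsGap (M.word e) p.1 p.2.1 p.2.2 ∧ ∃ j ∈ Q, p.2.1 < j ∧ j ≤ p.2.2} ≤
      Set.ncard {y | y ∈ M.word e} * (6 * B) := by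
  classical
  have hfin := wg_finite (M.word e) (fun p => ∃ j ∈ Q, p.2.1 < j ∧ j ≤ p.2.2)
  set T := hfin.toFinset with hT
  have h1 : Set.ncard {p : Y × ℕ × ℕ | IsGap (M.word e) p.1 p.2.1 p.2.2 ∧ ∃ j ∈ Q, p.2.1 < j ∧ j ≤ p.2.2} = T.card := by
    rw [hT, ← Set.ncard_coe_finset, hfin.coe_toFinset]
  have h2 : Set.ncard {y | y ∈ M.word e} = (M.word e).toFinset.card := by
    rw [← Set.ncard_coe_finset]
    congr 1
    ext y
    simp
  rw [h1, h2]
  have h3 : T.card = ∑ y ∈ (M.word e).toFinset, (T.filter (fun p => p.1 = y)).card := by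
    refine card_eq_sum_card_fiberwise ?_
    intro p hp
    rw [mem_coe, hT, hfin.mem_toFinset] at hp
    rw [mem_coe, List.mem_toFinset]
    exact List.mem_iff_getElem?.mpr ⟨_, hp.1.2.1⟩
  rw [h3, ← smul_eq_mul]
  refine sum_le_card_nsmul _ _ _ ?_
  intro y _
  refine le_trans ?_ (open_card M hAC col B hB y e)
  rw [← Set.ncard_coe_finset]
  refine Set.ncard_le_ncard_of_injOn (fun p => p.2) ?_ ?_ ?_
  · rintro ⟨y', i, i'⟩ hp
    rw [mem_coe, mem_filter, hT, hfin.mem_toFinset] at hp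
    obtain ⟨⟨hg, j, hj, h4, h5⟩, h6⟩ := hp
    simp only at h6 hg h4 h5
    subst h6
    refine ⟨hg, ?_⟩
    have h7 := hQ hj
    unfold Net.P0 at h7
    rw [mem_filter] at h7
    exact h7.2 _ _ _ hg h4 h5
  · rintro ⟨y1, p1⟩ hp ⟨y2, p2⟩ hq hpq
    rw [mem_coe, mem_filter] at hp hq
    simp only at hpq hp hq
    rw [hpq, hp.2, hq.2]
  · refine ((Set.finite_Iio (M.word e).length).prod (Set.finite_Iio (M.word e).length)).subset ?_
    rintro ⟨i, i'⟩ ⟨⟨_, h2, h3, _⟩, _⟩
    exact ⟨wg_lt_of_get h2, wg_lt_of_get h3⟩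

/-- WG2a. Chunk WG2 (size M). For a good `P` and a labelled dart `e`: `|P e| ≤ 1 + t1 + 6 B t1` (`charge`, all gaps meeting `P e ⊆ P0 e` are open, `open_card` for each of the at most `t1` letters). -/
theorem P_card_le [Fintype N] (M : Net N Y) (hAC : M.AC) (col : Y → N → ℕ) (B : ℕ) (hB : M.ColB col B) (El : Dart N → Prop) (t1 : ℕ)
    (hL : M.LabOK col El t1) (P : Dart N → Finset ℕ) (hP : M.Good col El P) (e : Dart N) :
    (P e).card ≤ 1 + t1 + 6 * B * t1 := by
  classical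
  by_cases he : El e
  · have h1 : ∀ j ∈ P e, j ≤ (M.word e).length := by
      intro j hj
      have h2 := hP.sub e hj
      unfold Net.P0 at h2
      rw [mem_filter, mem_range] at h2
      omega
    have h2 := charge (M.word e) (P e) h1
    have h3 := wg2_ncard_gaps M hAC col B hB e (P e) (hP.sub e)
    have h4 := hL.supp e he
    have h5 : Set.ncard {y | y ∈ M.word e} * (6 * B) ≤ 6 * B * t1 := by
      rw [mul_comm]
      exact Nat.mul_le_mul_left _ h4
    omega
  · rw [hP.out e he, card_empty]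
    exact Nat.zero_le _

end H98T
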