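import Mathlib
import Pool.Agent.Lib.H98T.WG2

set_option autoImplicit false

/-!
# H98T.WG2B: the weighted bound
-/

namespace H98T

open Finset

variable {N Y : Type}

/-- All gaps of all darts which meet `P`: a finite set. -/
theorem wg2b_finite [Finite N] (M : Net N Y) (P : Dart N → Finset ℕ) :
    {p : Y × St N | IsGap (M.word p.2.1) p.1 p.2.2.1 p.2.2.2 ∧ ∃ j ∈ P p.2.1, p.2.2.1 < j ∧ j ≤ p.2.2.2}.Finite := by
  have h1 : (⋃ e : Dart N, ({y | y ∈ M.word e} ×ˢ (({e} : Set (Dart N)) ×ˢ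
      (Set.Iio (M.word e).length ×ˢ Set.Iio (M.word e).length)))).Finite := by
    refine Set.finite_iUnion fun e => ?_
    exact (List.finite_toSet (M.word e)).prod ((Set.finite_singleton e).prod
      ((Set.finite_Iio _).prod (Set.finite_Iio _)))
  refine h1.subset ?_
  rintro ⟨y, e, i, i'⟩ h
  obtain ⟨⟨_, h3, h4, _⟩, _⟩ := h
  simp only at h3 h4
  rw [Set.mem_iUnion]
  exact ⟨e, List.mem_iff_getElem?.mpr ⟨_, h3⟩, rfl, wg_lt_of_get h3, wg_lt_of_get h4⟩

theorem wg2b_lseq_nonneg (M : Net N Y) (col : Y → N → ℕ) (lam : Dart N → ℝ) (h1 : ∀ e, 1 ≤ lam e) (y : Y) (b : St N) (t : ℕ) :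
    0 ≤ M.lseq col y lam b t := by
  unfold Net.lseq
  split
  · exact zero_le_one.trans (h1 _)
  · exact zero_le_one

/-- Every gap meeting `P` is charged to a start and a time. -/
theorem wg2b_charge [Fintype N] (M : Net N Y) (hAC : M.AC) (col : Y → N → ℕ) (B : ℕ) (hB : M.ColB col B) (P : Dart N → Finset ℕ)
    (hP : ∀ e, P e ⊆ M.P0 col e) (lam : Dart N → ℝ)
    (h2 : ∀ e, lam (M.inv e) = lam e) (y : Y) (s : St N) (hg : IsGap (M.word s.1) y s.2.1 s.2.2)
    (hm : ∃ j ∈ P s.1, s.2.1 < j ∧ j ≤ s.2.2) :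
    ∃ (b : St N) (t : ℕ) (side : Bool), M.Start y b ∧ t < 3 * B ∧ M.aseq col y P b t ≠ 0 ∧ M.lseq col y lam b t = lam s.1 ∧
      M.strip col y b t = some (if side then M.rfl' s else s) := by
  classical
  obtain ⟨j, hj, hj1, hj2⟩ := hm
  have h3 := hP s.1 hj
  unfold Net.P0 at h3
  rw [mem_filter] at h3
  obtain ⟨b, t, hb, hs | ⟨hp, hs⟩⟩ := h3.2 y s.2.1 s.2.2 hg hj1 hj2
  · refine ⟨b, t, false, hb, strip_len M hAC col B hB y b _ hb t hs, ?_, ?_, ?_⟩
    · unfold Net.aseq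
      rw [hs]
      unfold Net.amass
      have h4 : 0 < (P s.1 ∩ Ioc s.2.1 s.2.2).card := by
        rw [card_pos]
        exact ⟨j, mem_inter.mpr ⟨hj, mem_Ioc.mpr ⟨hj1, hj2⟩⟩⟩
      simp only
      omega
    · unfold Net.lseq
      rw [hs]
    · simpa using hs
  · refine ⟨b, t, true, hb, strip_len M hAC col B hB y b _ hb t hs, ?_, ?_, ?_⟩
    · unfold Net.aseq
      rw [hs]
      unfold Net.amass
      have h5 : M.rfl' (M.rfl' (s.1, s.2.1, s.2.2)) = s := rfl_rfl M y s hg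
      have h6 : M.inv (M.rfl' (s.1, s.2.1, s.2.2)).1 = s.1 := by
        simp only [Net.rfl', M.inv_inv]
      have h4 : 0 < (P s.1 ∩ Ioc s.2.1 s.2.2).card := by
        rw [card_pos]
        exact ⟨j, mem_inter.mpr ⟨hj, mem_Ioc.mpr ⟨hj1, hj2⟩⟩⟩
      simp only [h5, h6]
      omega
    · unfold Net.lseq
      rw [hs]
      exact h2 s.1
    · simpa using hs

open Classical in
/-- WG2b. Chunk WG2B (size M). For a good `P`: `LL ≤ LS + 2 ∑_(starts b) ∑_(t < 3B, aseq t ≠ 0) lseq t`.  Here `S` is the finite set of all starts.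
Proof: sum `charge` over the labelled darts with weights `lam e`.  A gap of `e` meeting `P e` is open: it is a state `(e, g) = strip b t`, or `Pass e` and its reflection is `strip b t`; then
`aseq b t ≥ 1` (the state or its reflection meets `P`), `lseq b t = lam e` (`lam (inv e) = lam e`), `t < 3 B` (`strip_len`).  A pair `(b, t)` is used for at most two pairs (dart, gap): the state and its reflection. -/
theorem L_bound [Fintype N] (M : Net N Y) (hAC : M.AC) (col : Y → N → ℕ) (B : ℕ) (hB : M.ColB col B) (El : Dart N → Prop) (t1 : ℕ)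
    (hL : M.LabOK col El t1) (P : Dart N → Finset ℕ) (hP : M.Good col El P) (lam : Dart N → ℝ) (h1 : ∀ e, 1 ≤ lam e)
    (h2 : ∀ e, lam (M.inv e) = lam e) (S : Finset (Y × St N)) (hS : ∀ p, p ∈ S ↔ M.Start p.1 p.2) :
    LL lam P ≤ M.LS El lam + 2 * ∑ p ∈ S, ∑ t ∈ (range (3 * B)).filter (fun t => M.aseq col p.1 P p.2 t ≠ 0), M.lseq col p.1 lam p.2 t := by
  have hfin := wg2b_finite M P
  set G : Finset (Y × St N) := hfin.toFinset with hG
  have hGmem : ∀ p, p ∈ G ↔ (IsGap (M.word p.2.1) p.1 p.2.2.1 p.2.2.2 ∧ ∃ j ∈ P p.2.1, p.2.2.1 < j ∧ j ≤ p.2.2.2) := by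
    intro p
    rw [hG, hfin.mem_toFinset]
    exact Iff.rfl
  have hlam : ∀ e, 0 ≤ lam e := fun e => zero_le_one.trans (h1 e)
  -- step one
  have s1 : LL lam P ≤ M.LS El lam + ∑ e : Dart N, ∑ g ∈ G.filter (fun g => g.2.1 = e), lam g.2.1 := by
    unfold LL Net.LS
    rw [← sum_add_distrib]
    refine sum_le_sum fun e _ => ?_
    have hsum : ∑ g ∈ G.filter (fun g => g.2.1 = e), lam g.2.1 = ((G.filter (fun g => g.2.1 = e)).card : ℝ) * lam e := by
      rw [← nsmul_eq_mul, ← sum_const]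
      refine sum_congr rfl fun g hg => ?_
      rw [(mem_filter.mp hg).2]
    rw [hsum]
    by_cases he : El e
    · rw [if_pos he]
      have h3 : ∀ j ∈ P e, j ≤ (M.word e).length := by
        intro j hj
        have h4 := hP.sub e hj
        unfold Net.P0 at h4
        rw [mem_filter, mem_range] at h4
        omega
      have h4 := charge (M.word e) (P e) h3
      have h5 : Set.ncard {p : Y × ℕ × ℕ | IsGap (M.word e) p.1 p.2.1 p.2.2 ∧ ∃ j ∈ P e, p.2.1 < j ∧ j ≤ p.2.2} ≤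
          (G.filter (fun g => g.2.1 = e)).card := by
        rw [← Set.ncard_coe_finset]
        refine Set.ncard_le_ncard_of_injOn (fun p => (p.1, e, p.2.1, p.2.2)) ?_ ?_ (Finset.finite_toSet _)
        · rintro ⟨y, i, i'⟩ hp
          rw [mem_coe, mem_filter, hGmem]
          exact ⟨hp, rfl⟩
        · rintro ⟨y, i, i'⟩ _ ⟨y2, k, k'⟩ _ hpq
          simp only [Prod.mk.injEq, true_and] at hpq
          obtain ⟨a1, a2, a3⟩ := hpq
          rw [a1, a2, a3]
      have h6 : ((P e).card : ℝ) ≤ 1 + (Set.ncard {y | y ∈ M.word e} : ℝ) + ((G.filter (fun g => g.2.1 = e)).card : ℝ) := by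
        exact_mod_cast h4.trans (Nat.add_le_add_left h5 _)
      have h7 := mul_le_mul_of_nonneg_left h6 (hlam e)
      nlinarith [h7]
    · rw [if_neg he, hP.out e he]
      simp only [card_empty, Nat.cast_zero, mul_zero, zero_add]
      exact mul_nonneg (Nat.cast_nonneg _) (hlam e)
  rw [sum_fiberwise] at s1
  refine s1.trans (add_le_add le_rfl ?_)
  -- the charging map
  have hch : ∀ g : Y × St N, ∃ x : (Y × St N) × ℕ × Bool, g ∈ G →
      (x.1.1 = g.1 ∧ M.Start g.1 x.1.2 ∧ x.2.1 < 3 * B ∧ M.aseq col g.1 P x.1.2 x.2.1 ≠ 0 ∧ M.lseq col g.1 lam x.1.2 x.2.1 = lam g.2.1 ∧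
        M.strip col g.1 x.1.2 x.2.1 = some (if x.2.2 then M.rfl' g.2 else g.2)) := by
    intro g
    by_cases hg : g ∈ G
    · obtain ⟨b, t, side, a1, a2, a3, a4, a5⟩ := wg2b_charge M hAC col B hB P hP.sub lam h2 g.1 g.2
        ((hGmem g).mp hg).1 ((hGmem g).mp hg).2
      exact ⟨((g.1, b), t, side), fun _ => ⟨rfl, a1, a2, a3, a4, a5⟩⟩
    · exact ⟨(g, 0, false), fun h => absurd h hg⟩
  choose Φ hΦ using hch
  have hinj : Set.InjOn Φ (G : Set (Y × St N)) := by
    intro g hg g' hg' hgg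
    rw [mem_coe] at hg hg'
    obtain ⟨a1, _, _, _, _, a6⟩ := hΦ g hg
    obtain ⟨b1, _, _, _, _, b6⟩ := hΦ g' hg'
    rw [← hgg] at b1 b6
    have hy : g.1 = g'.1 := a1.symm.trans b1
    rw [← hy, a6] at b6
    have h5 := Option.some.inj b6
    have hgap := ((hGmem g).mp hg).1
    have hgap' := ((hGmem g').mp hg').1
    have h6 : g.2 = g'.2 := by
      cases hside : (Φ g).2.2
      · rw [hside] at h5
        simpa using h5
      · rw [hside] at h5
        simp only [if_true] at h5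
        rw [← rfl_rfl M g.1 g.2 hgap, h5, rfl_rfl M g'.1 g'.2 hgap']
    exact Prod.ext hy h6
  set T : Y × St N → Finset ℕ := fun p => (range (3 * B)).filter (fun t => M.aseq col p.1 P p.2 t ≠ 0) with hT
  set I : Finset ((Y × St N) × ℕ × Bool) := S.biUnion (fun p => (T p).biUnion (fun t => (univ : Finset Bool).image (fun c => (p, t, c)))) with hI
  set h : (Y × St N) × ℕ × Bool → ℝ := fun x => M.lseq col x.1.1 lam x.1.2 x.2.1 with hh
  have e1 : ∑ g ∈ G, lam g.2.1 = ∑ x ∈ G.image Φ, h x := by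
    rw [sum_image hinj]
    refine sum_congr rfl fun g hg => ?_
    obtain ⟨a1, _, _, _, a5, _⟩ := hΦ g hg
    rw [hh]
    simp only
    rw [a1, a5]
  have e2 : ∑ x ∈ G.image Φ, h x ≤ ∑ x ∈ I, h x := by
    refine sum_le_sum_of_subset_of_nonneg ?_ (fun x _ _ => wg2b_lseq_nonneg M col lam h1 _ _ _)
    intro x hx
    rw [mem_image] at hx
    obtain ⟨g, hg, rfl⟩ := hx
    obtain ⟨a1, a2, a3, a4, _, _⟩ := hΦ g hg
    rw [hI, mem_biUnion]
    refine ⟨(Φ g).1, (hS _).mpr (by rw [a1]; exact a2), ?_⟩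
    rw [mem_biUnion]
    refine ⟨(Φ g).2.1, ?_, ?_⟩
    · rw [hT]
      simp only
      rw [mem_filter, mem_range, a1]
      exact ⟨a3, a4⟩
    · rw [mem_image]
      exact ⟨(Φ g).2.2, mem_univ _, rfl⟩
  have e3 : ∑ x ∈ I, h x ≤ ∑ p ∈ S, ∑ t ∈ T p, ∑ c : Bool, h (p, t, c) := by
    have hnn : ∀ x, 0 ≤ h x := fun x => wg2b_lseq_nonneg M col lam h1 _ _ _
    rw [hI, sum_biUnion]
    · refine sum_le_sum fun p _ => ?_
      rw [sum_biUnion]
      · refine sum_le_sum fun t _ => ?_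
        rw [sum_image]
        intro c _ c' _ hcc
        simpa using hcc
      · intro t _ t' _ htt
        rw [Function.onFun, disjoint_left]
        intro x hx hx'
        rw [mem_image] at hx hx'
        obtain ⟨c, _, rfl⟩ := hx
        obtain ⟨c', _, h5⟩ := hx'
        simp only [Prod.mk.injEq, true_and] at h5
        exact htt h5.1.symm
    · intro p _ p' _ hpp
      rw [Function.onFun, disjoint_left]
      intro x hx hx'
      rw [mem_biUnion] at hx hx'
      obtain ⟨t, _, hx⟩ := hx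
      obtain ⟨t', _, hx'⟩ := hx'
      rw [mem_image] at hx hx'
      obtain ⟨c, _, rfl⟩ := hx
      obtain ⟨c', _, h5⟩ := hx'
      simp only [Prod.mk.injEq] at h5
      exact hpp h5.1.symm
  rw [e1]
  refine (e2.trans e3).trans (le_of_eq ?_)
  rw [mul_sum]
  refine sum_congr rfl fun p _ => ?_
  rw [mul_sum]
  refine sum_congr rfl fun t _ => ?_
  rw [hh]
  simp only [Fintype.sum_bool]
  ring

end H98T
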