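import Mathlib
import Pool.Agent.Lib.H98T.WE2

set_option autoImplicit false

/-!
# H98T.WF: the positions `P0`
-/

namespace H98T

open Finset

variable {N Y : Type}

theorem wf_pass_inv (M : Net N Y) (col : Y → N → ℕ) (y : Y) (e : Dart N) (h : M.Pass col y e) :
    M.Pass col y (M.inv e) := by
  obtain ⟨h1, h2, h3, h4, h5⟩ := h
  refine ⟨?_, ?_, h4, ?_, ?_⟩
  · rw [M.word_inv, List.mem_reverse]; exact h1
  · rw [M.F_inv]; exact h2
  · rw [M.inv_inv]; exact h3
  · rw [M.inv_inv]; exact h5.symm

theorem wf_dir (M : Net N Y) (col : Y → N → ℕ) (y : Y) (s s' : St N) (hc : ¬ M.cut s.1.1) (h : IsGap (M.word s.1) y s.2.1 s.2.2)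
    (hl : M.link s = some s') (ho : M.Open col y s) : M.Open col y s' := by
  obtain ⟨b, t, hb, hs | ⟨hp, hs⟩⟩ := ho
  · cases t with
    | zero =>
      exfalso
      have h1 : b = s := by
        simpa [Net.strip] using hs
      subst h1
      have h2 := (link_none M y b hc h).mpr hb
      rw [h2] at hl
      simp at hl
    | succ u =>
      obtain ⟨su, h1, _, h3, h4⟩ := strip_succ M col y b s hb u hs
      have h5 : s' = M.rfl' su := by
        rw [hl] at h3
        simpa using h3
      have h6 := strip_spec M col y b su hb u h1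
      subst h5
      refine ⟨b, u, hb, Or.inr ⟨wf_pass_inv M col y su.1 h4, ?_⟩⟩
      rw [rfl_rfl M y su h6.1]
      exact h1
  · refine ⟨b, t + 1, hb, Or.inl ?_⟩
    change (M.strip col y b t).bind (M.step col y) = some s'
    rw [hs, Option.bind_some]
    unfold Net.step
    have h1 : M.Pass col y (M.rfl' s).1 := wf_pass_inv M col y s.1 hp
    rw [if_pos h1, rfl_rfl M y s h]
    exact hl

/-- WF1. Chunk WF (size S). The centre of an uncut node is in `P0`: a gap containing it is a start, hence open (`t = 0`). -/
theorem centre_mem (M : Net N Y) (col : Y → N → ℕ) (e : Dart N) (h : ¬ M.cut e.1) : M.leg e ∈ M.P0 col e := by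
  classical
  unfold Net.P0
  rw [mem_filter, mem_range]
  refine ⟨by have := M.len e h; omega, ?_⟩
  intro y i i' hg h1 h2
  exact ⟨(e, i, i'), 0, ⟨h, hg, h1, h2⟩, Or.inl rfl⟩

/-- WF2. Chunk WF (size M). Openness is invariant under links.  Let `s` be a gap at an uncut node, `link s = some s'`.  Then `Open s ↔ Open s'`.
Proof: `link s' = some s` (`link_spec`), so one direction suffices.  `Open s`: (1) `strip b t = some s`: `t = 0` is impossible (a start has no link), so `t = u + 1` and by `strip_succ` `s` is
linked to the reflection of the state number `u`, i.e. `s' = rfl' s_u`, `Pass s_u.1`; then `Pass s'.1` (symmetric, `inv`), `rfl' s' = s_u`: `Open s'` (second clause).  (2) `Pass s.1` and `strip b t = some (rfl' s)`: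
then `step (rfl' s) = link (rfl' (rfl' s)) = link s = some s'` (`rfl_rfl`; `Pass (rfl' s).1`), so `strip b (t+1) = some s'`. -/
theorem open_link (M : Net N Y) (col : Y → N → ℕ) (y : Y) (s s' : St N) (hc : ¬ M.cut s.1.1) (h : IsGap (M.word s.1) y s.2.1 s.2.2)
    (hl : M.link s = some s') : M.Open col y s ↔ M.Open col y s' := by
  have h1 := link_spec M y s s' hc h hl
  constructor
  · exact wf_dir M col y s s' hc h hl
  · refine wf_dir M col y s' s ?_ h1.1 h1.2.2.2
    rw [h1.2.1]
    exact hc

end H98T
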