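import Mathlib
import Pool.Agent.Lib.H98T.WF

set_option autoImplicit false

/-!
# H98T.WF3: the positions P0 at nodes and edges
-/

namespace H98T

open Finset

variable {N Y : Type}

theorem wf3_open_rfl (M : Net N Y) (col : Y → N → ℕ) (y : Y) (s : St N) (h : IsGap (M.word s.1) y s.2.1 s.2.2)
    (hp : M.Pass col y s.1) (ho : M.Open col y s) : M.Open col y (M.rfl' s) := by
  obtain ⟨b, t, hb, hs | ⟨_, hs⟩⟩ := ho
  · refine ⟨b, t, hb, Or.inr ⟨?_, ?_⟩⟩
    · exact wf_pass_inv M col y s.1 hp
    · rw [rfl_rfl M y s h]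
      exact hs
  · exact ⟨b, t, hb, Or.inl hs⟩

theorem wf3_open_of_rfl (M : Net N Y) (col : Y → N → ℕ) (y : Y) (s : St N) (h : IsGap (M.word s.1) y s.2.1 s.2.2)
    (hp : M.Pass col y s.1) (ho : M.Open col y (M.rfl' s)) : M.Open col y s := by
  have h1 := wf3_open_rfl M col y (M.rfl' s) (rfl_isGap M y s h) (wf_pass_inv M col y s.1 hp) ho
  rw [rfl_rfl M y s h] at h1
  exact h1

theorem wf3_mem_P0 (M : Net N Y) (col : Y → N → ℕ) (e : Dart N) (j : ℕ) :
    j ∈ M.P0 col e ↔ (j ≤ (M.word e).length ∧
      ∀ y i i', IsGap (M.word e) y i i' → i < j → j ≤ i' → M.Open col y (e, i, i')) := by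
  classical
  unfold Net.P0
  rw [mem_filter, mem_range]
  exact and_congr_left' (by omega)

/-- WF3. Chunk WF3 (size M). `P0` is consistent at uncut nodes.  For `j = leg e` both sides are centres (`length (prv e) - leg e = leg (prv e)`).  For `j < leg e`: a gap of `e` containing `j` is either a start (open), or
has `i' < leg e` and is linked to the gap of `prv e` containing `length (prv e) - j` (`pos_link`, `open_link`); and symmetrically. -/
theorem P0_node (M : Net N Y) (col : Y → N → ℕ) (e : Dart N) (h : ¬ M.cut e.1) (j : ℕ) (hj : j ≤ M.leg e) :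
    j ∈ M.P0 col e ↔ (M.word (prv e)).length - j ∈ M.P0 col (prv e) := by
  have hlen := M.len e h
  have hlen' := M.len (prv e) h
  rw [we1_nxt_prv] at hlen'
  rw [wf3_mem_P0, wf3_mem_P0]
  constructor
  · rintro ⟨_, hg⟩
    refine ⟨by omega, ?_⟩
    intro y k k' hk h1 h2
    by_cases hst : k < M.leg (prv e)
    · exact ⟨(prv e, k, k'), 0, ⟨h, hk, hst, by simp only; omega⟩, Or.inl rfl⟩
    · have hk0 := we1_gap_lt hk
      have hlink : M.link (prv e, k, k') = some (e, (M.word (prv e)).length - 1 - k', (M.word (prv e)).length - 1 - k) := by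
        unfold Net.link
        simp only
        rw [if_neg (by omega), if_pos (by omega), we1_nxt_prv]
      rw [open_link M col y (prv e, k, k') _ h hk hlink]
      have h3 := link_spec M y (prv e, k, k') _ h hk hlink
      exact hg y _ _ h3.1 (by omega) (by omega)
  · rintro ⟨_, hg⟩
    refine ⟨by omega, ?_⟩
    intro y i i' hi h1 h2
    by_cases hst : M.leg e ≤ i'
    · exact ⟨(e, i, i'), 0, ⟨h, hi, by simp only; omega, hst⟩, Or.inl rfl⟩
    · have hi0 := we1_gap_lt hi
      have hlink : M.link (e, i, i') = some (prv e, (M.word (prv e)).length - 1 - i', (M.word (prv e)).length - 1 - i) := by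
        unfold Net.link
        simp only
        rw [if_pos (by omega)]
      rw [open_link M col y (e, i, i') _ h hi hlink]
      have h3 := link_spec M y (e, i, i') _ h hi hlink
      exact hg y _ _ h3.1 (by omega) (by omega)

/-- WF4. Chunk WF3 (size S/M). `P0` is symmetric for darts which are passable for all their letters (`rfl_isGap`, `rfl_rfl`, `pos_rfl`; a gap of `e` is a `y`-gap with `y ∈ word e`). -/
theorem P0_inv (M : Net N Y) (col : Y → N → ℕ) (e : Dart N) (h : ∀ y ∈ M.word e, M.Pass col y e) (j : ℕ) (hj : j ≤ (M.word e).length) :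
    j ∈ M.P0 col e ↔ (M.word e).length - j ∈ M.P0 col (M.inv e) := by
  have hL : (M.word (M.inv e)).length = (M.word e).length := by
    rw [M.word_inv, List.length_reverse]
  rw [wf3_mem_P0, wf3_mem_P0, hL]
  constructor
  · rintro ⟨_, hg⟩
    refine ⟨by omega, ?_⟩
    intro y k k' hk h1 h2
    have hk0 := we1_gap_lt hk
    have hy : y ∈ M.word e := by
      have h3 : y ∈ M.word (M.inv e) := List.mem_iff_getElem?.mpr ⟨_, hk.2.1⟩
      rw [M.word_inv, List.mem_reverse] at h3
      exact h3
    have hp := wf_pass_inv M col y e (h y hy)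
    refine wf3_open_of_rfl M col y (M.inv e, k, k') hk hp ?_
    have h3 := rfl_isGap M y (M.inv e, k, k') hk
    simp only [Net.rfl', M.inv_inv, hL] at h3 ⊢
    exact hg y _ _ h3 (by omega) (by omega)
  · rintro ⟨_, hg⟩
    refine ⟨hj, ?_⟩
    intro y i i' hi h1 h2
    have hi0 := we1_gap_lt hi
    have hy : y ∈ M.word e := List.mem_iff_getElem?.mpr ⟨_, hi.2.1⟩
    refine wf3_open_of_rfl M col y (e, i, i') hi (h y hy) ?_
    have h3 := rfl_isGap M y (e, i, i') hi
    simp only [Net.rfl'] at h3 ⊢
    exact hg y _ _ h3 (by omega) (by omega)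

end H98T
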