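import Mathlib
import Pool.Agent.Lib.H98T.WF3
import Pool.Agent.Lib.H98T.WE3

set_option autoImplicit false

/-!
# H98T.WH1: removing the inner gaps of a strip, goodness
-/

namespace H98T

open Finset

variable {N Y : Type}

theorem wh1_mem (M : Net N Y) (col : Y → N → ℕ) (y : Y) (P : Dart N → Finset ℕ) (b : St N) (i k : ℕ) (e : Dart N) (j : ℕ) :
    j ∈ M.remv col y P b i k e ↔ j ∈ P e ∧ ¬ ∃ t s, i < t ∧ t < k ∧ M.strip col y b t = some s ∧
      ((s.1 = e ∧ s.2.1 < j ∧ j ≤ s.2.2) ∨ (M.inv s.1 = e ∧ (M.rfl' s).2.1 < j ∧ j ≤ (M.rfl' s).2.2)) := by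
  classical
  unfold Net.remv
  exact Finset.mem_filter

theorem wh1_nc1 (M : Net N Y) (col : Y → N → ℕ) (y : Y) (b s : St N) (hb : M.Start y b) (t : ℕ) (ht : 0 < t)
    (hs : M.strip col y b t = some s) : ¬ (s.2.1 < M.leg s.1 ∧ M.leg s.1 ≤ s.2.2) := by
  obtain ⟨u, rfl⟩ : ∃ u, t = u + 1 := ⟨t - 1, by omega⟩
  obtain ⟨s', h1, h2, h3, h4⟩ := strip_succ M col y b s hb u hs
  obtain ⟨h5, h6, -⟩ := strip_spec M col y b s hb (u + 1) hs
  intro h
  have h7 : M.link s = none := (link_none M y s h6 h5).2 ⟨h6, h5, h.1, h.2⟩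
  rw [h7] at h3
  exact absurd h3 (by simp)

theorem wh1_next (M : Net N Y) (col : Y → N → ℕ) (y : Y) (b s : St N) (hb : M.Start y b) (t k : ℕ) (ht : t < k)
    (hk : ∃ s, M.strip col y b k = some s)
    (hs : M.strip col y b t = some s) : ∃ s', M.strip col y b (t + 1) = some s' ∧ M.Pass col y s.1 ∧
      M.link (M.rfl' s) = some s' := by
  obtain ⟨w, hw⟩ := hk
  obtain ⟨s', hs'⟩ := strip_le M col y b w k (t + 1) ht hw
  obtain ⟨s'', h1, h2, h3, h4⟩ := strip_succ M col y b s' hb t hs'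
  rw [hs] at h1
  obtain rfl := Option.some.inj h1
  obtain ⟨h5, -, -⟩ := strip_spec M col y b s hb t hs
  obtain ⟨h6, h7, h8, h9, h10, h11⟩ := step_spec M col y s s' h5 h2
  exact ⟨s', hs', h7, h10⟩

theorem wh1_nc2 (M : Net N Y) (col : Y → N → ℕ) (y : Y) (b s : St N) (hb : M.Start y b) (t k : ℕ) (ht : t < k)
    (hk : ∃ s, M.strip col y b k = some s)
    (hs : M.strip col y b t = some s) :
    ¬ ((M.rfl' s).2.1 < M.leg (M.rfl' s).1 ∧ M.leg (M.rfl' s).1 ≤ (M.rfl' s).2.2) := by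
  obtain ⟨s', h1, h2, h3⟩ := wh1_next M col y b s hb t k ht hk hs
  obtain ⟨h5, -, -⟩ := strip_spec M col y b s hb t hs
  have h6 := rfl_isGap M y s h5
  intro h
  have h7 : M.link (M.rfl' s) = none := (link_none M y _ h2.2.2.2.1 h6).2 ⟨h2.2.2.2.1, h6, h.1, h.2⟩
  rw [h7] at h3
  exact absurd h3 (by simp)

theorem wh1_len (M : Net N Y) (e : Dart N) (hc : ¬ M.cut e.1) :
    (M.word (prv e)).length = M.leg (prv e) + M.leg e ∧ nxt (prv e) = e := by
  have h1 : nxt (prv e) = e := we1_nxt_prv e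
  have h2 := M.len (prv e) hc
  rw [h1] at h2
  exact ⟨h2, h1⟩

/-- Link of a gap on `e` containing a position `j ≤ leg e`. -/
theorem wh1_la (M : Net N Y) (y : Y) (g g' : St N) (e : Dart N) (hc : ¬ M.cut e.1) (he : g.1 = e)
    (h : IsGap (M.word g.1) y g.2.1 g.2.2) (hl : M.link g = some g') (j : ℕ) (hj : j ≤ M.leg e)
    (h1 : g.2.1 < j ∧ j ≤ g.2.2) :
    g.2.2 < M.leg e ∧ g'.1 = prv e ∧ g'.2.1 < (M.word (prv e)).length - j ∧ (M.word (prv e)).length - j ≤ g'.2.2 := by
  subst he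
  have h2 : ¬ (g.2.1 < M.leg g.1 ∧ M.leg g.1 ≤ g.2.2) := by
    intro h3
    rw [(link_none M y g hc h).2 ⟨hc, h, h3.1, h3.2⟩] at hl
    exact absurd hl (by simp)
  have h3 : g.2.2 < M.leg g.1 := by omega
  have h4 := (pos_link M y g hc h h3 j hj).1 h1
  unfold Net.link at hl
  rw [if_pos h3] at hl
  have h5 := Option.some.inj hl
  rw [← h5]
  exact ⟨h3, rfl, h4.1, h4.2⟩

/-- Link of a gap on `prv e` containing the position `length - j`, `j ≤ leg e`. -/
theorem wh1_lb (M : Net N Y) (y : Y) (g g' : St N) (e : Dart N) (hc : ¬ M.cut e.1) (he : g.1 = prv e)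
    (h : IsGap (M.word g.1) y g.2.1 g.2.2) (hl : M.link g = some g') (j : ℕ) (hj : j ≤ M.leg e)
    (h1 : g.2.1 < (M.word (prv e)).length - j ∧ (M.word (prv e)).length - j ≤ g.2.2) :
    M.leg (prv e) ≤ g.2.1 ∧ g'.1 = e ∧ g'.2.1 < j ∧ j ≤ g'.2.2 := by
  obtain ⟨h6, h7⟩ := wh1_len M e hc
  have hc' : ¬ M.cut g.1.1 := by rw [he]; exact hc
  have h2 : ¬ (g.2.1 < M.leg g.1 ∧ M.leg g.1 ≤ g.2.2) := by
    intro h3
    rw [(link_none M y g hc' h).2 ⟨hc', h, h3.1, h3.2⟩] at hl
    exact absurd hl (by simp)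
  rw [he] at h2
  have h3 : M.leg (prv e) ≤ g.2.1 := by omega
  have h8 := (we1_gap_lt h)
  rw [he] at h8
  unfold Net.link at hl
  rw [he, if_neg (by omega), if_pos h3] at hl
  have h5 := Option.some.inj hl
  rw [← h5]
  refine ⟨h3, h7, ?_, ?_⟩
  · show (M.word (prv e)).length - 1 - g.2.2 < j
    omega
  · show j ≤ (M.word (prv e)).length - 1 - g.2.1
    omega

theorem wh1_rem (M : Net N Y) (col : Y → N → ℕ) (y : Y) (b : St N) (hb : M.Start y b) (i k : ℕ) (e : Dart N) (j : ℕ)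
    (hj : j ≤ (M.word e).length)
    (h : ∃ t s, i < t ∧ t < k ∧ M.strip col y b t = some s ∧
      ((s.1 = e ∧ s.2.1 < j ∧ j ≤ s.2.2) ∨ (M.inv s.1 = e ∧ (M.rfl' s).2.1 < j ∧ j ≤ (M.rfl' s).2.2))) :
    ∃ t s, i < t ∧ t < k ∧ M.strip col y b t = some s ∧
      ((s.1 = M.inv e ∧ s.2.1 < (M.word e).length - j ∧ (M.word e).length - j ≤ s.2.2) ∨
        (M.inv s.1 = M.inv e ∧ (M.rfl' s).2.1 < (M.word e).length - j ∧ (M.word e).length - j ≤ (M.rfl' s).2.2)) := by
  obtain ⟨t, s, h1, h2, h3, h4⟩ := h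
  obtain ⟨h5, -, -⟩ := strip_spec M col y b s hb t h3
  refine ⟨t, s, h1, h2, h3, ?_⟩
  rcases h4 with ⟨rfl, h4⟩ | ⟨rfl, h4⟩
  · exact Or.inr ⟨rfl, (pos_rfl M y s h5 j hj).1 h4⟩
  · left
    have hlen : (M.word (M.inv s.1)).length = (M.word s.1).length := by
      rw [M.word_inv, List.length_reverse]
    rw [hlen] at hj ⊢
    refine ⟨(M.inv_inv _).symm, (pos_rfl M y s h5 _ (Nat.sub_le _ _)).2 ?_⟩
    have h6 : (M.word s.1).length - ((M.word s.1).length - j) = j := by omega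
    rw [h6]
    exact h4

/-- WH1a. Chunk WH1 (size M). Removing the gaps number `t`, `i < t < k`, of the strip of a start keeps `P` good, provided that the state number `k` exists.
Proof.  `out`, `sub`: `remv P e ⊆ P e`.  `cen`: a removed position of `e` lies in a gap `s` (state number `t`, `e = s.1`) or in `rfl' s` (`e = inv s.1`).  In the first case `t ≥ 1`, so `s` has a link (`strip_succ`), in
the second case `t < k`, the state number `t + 1` exists, so `rfl' s` has a link (`step_spec`); a gap with a link at an uncut node does not contain the centre (`link_none`; `Start` says exactly that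
it contains `leg e`).  `sym`: for `e` labelled, not in `F`: `j` is removed from `e` through `s` iff `length - j` is removed from `inv e` through the same `s` (`pos_rfl`, `rfl_rfl`, `inv_inv`). -/
theorem remv_good (M : Net N Y) (col : Y → N → ℕ) (El : Dart N → Prop) (t1 : ℕ) (hL : M.LabOK col El t1)
    (P : Dart N → Finset ℕ) (hP : M.Good col El P) (y : Y) (b : St N) (hb : M.Start y b) (i k : ℕ)
    (hk : i < k → ∃ s, M.strip col y b k = some s) :
    M.Good col El (M.remv col y P b i k) := by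
  refine ⟨?_, ?_, ?_, ?_⟩
  · intro e he
    rw [Finset.eq_empty_iff_forall_notMem]
    intro j hj
    have h1 := ((wh1_mem M col y P b i k e j).1 hj).1
    rw [hP.out e he] at h1
    exact absurd h1 (Finset.notMem_empty _)
  · intro e j hj
    exact hP.sub e ((wh1_mem M col y P b i k e j).1 hj).1
  · intro z hz j
    rw [wh1_mem]
    refine ⟨hP.cen z hz j, ?_⟩
    rintro ⟨t, s, h1, h2, h3, h4⟩
    rcases h4 with ⟨h4, h5⟩ | ⟨h4, h5⟩
    · rw [← h4] at h5
      exact wh1_nc1 M col y b s hb t (by omega) h3 h5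
    · rw [← h4] at h5
      exact wh1_nc2 M col y b s hb t k h2 (hk (by omega)) h3 h5
  · intro e he hF j hj
    rw [wh1_mem, wh1_mem, ← hP.sym e he hF j hj]
    refine and_congr_right fun _ => not_congr ⟨fun h => wh1_rem M col y b hb i k e j hj h, fun h => ?_⟩
    have hlen : (M.word (M.inv e)).length = (M.word e).length := by
      rw [M.word_inv, List.length_reverse]
    have h1 := wh1_rem M col y b hb i k (M.inv e) ((M.word e).length - j) (by rw [hlen]; exact Nat.sub_le _ _) h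
    rw [hlen, M.inv_inv] at h1
    have h6 : (M.word e).length - ((M.word e).length - j) = j := by omega
    rw [h6] at h1
    exact h1


end H98T
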