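import Mathlib
import Pool.Agent.Lib.H98T.WH1

set_option autoImplicit false

/-!
# H98T.WH2: removing the inner gaps of a strip, new inconsistencies
-/

namespace H98T

open Finset

variable {N Y : Type}

/-- WH2a. Chunk WH2 (size M). A removed position and its partner at the corner.  Let `j` be a position of `e`, `j ≤ leg e`, at an uncut node.  Suppose `j ∈ P e` is removed by `remv` and
`length (prv e) - j ∈ P (prv e)` is not removed.  Then this position of `prv e` is counted in `amass` of the state number `i` or of the state number `k`: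
either `prv e = inv s.1` for the state `s` number `i` and the position is in the gap `rfl' s`, or `prv e = s.1` for the state `s` number `k` and the position is in its gap.
Proof: `j` is in the gap `s` of `e = s.1`, `s` = state number `t` (case 1), or in `rfl' s`, `e = inv s.1` (case 2).  The gap does not contain the centre and contains `j ≤ leg e`, so it lies in the first leg
and its link is on `prv e` and contains the partner (`pos_link`).  Case 1: the link is `rfl' s'`, `s'` = state number `t - 1` (`strip_succ`); if `t - 1 > i` the partner is removed, so `t - 1 = i`.  Case 2: the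
link is the state number `t + 1` (`step_spec`); if `t + 1 < k` it is removed, so `t + 1 = k`. -/
theorem partner_case (M : Net N Y) (col : Y → N → ℕ) (P : Dart N → Finset ℕ) (y : Y) (b : St N) (hb : M.Start y b) (i k : ℕ)
    (hk : i < k → ∃ s, M.strip col y b k = some s) (e : Dart N) (hc : ¬ M.cut e.1) (j : ℕ) (hj : j ≤ M.leg e)
    (h1 : j ∈ P e) (h2 : j ∉ M.remv col y P b i k e)
    (h3 : (M.word (prv e)).length - j ∈ M.remv col y P b i k (prv e)) :
    (∃ s, M.strip col y b i = some s ∧ prv e = M.inv s.1 ∧ (M.rfl' s).2.1 < (M.word (prv e)).length - j ∧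
        (M.word (prv e)).length - j ≤ (M.rfl' s).2.2) ∨
      (∃ s, M.strip col y b k = some s ∧ prv e = s.1 ∧ s.2.1 < (M.word (prv e)).length - j ∧
        (M.word (prv e)).length - j ≤ s.2.2) := by
  have h4 := ((wh1_mem M col y P b i k _ _).1 h3).2
  have h5 : ∃ t s, i < t ∧ t < k ∧ M.strip col y b t = some s ∧
      ((s.1 = e ∧ s.2.1 < j ∧ j ≤ s.2.2) ∨ (M.inv s.1 = e ∧ (M.rfl' s).2.1 < j ∧ j ≤ (M.rfl' s).2.2)) := by
    by_contra h6
    exact h2 ((wh1_mem M col y P b i k _ _).2 ⟨h1, h6⟩)
  obtain ⟨t, s, hit, htk, hs, h6⟩ := h5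
  obtain ⟨hg, hu, -⟩ := strip_spec M col y b s hb t hs
  rcases h6 with ⟨he, h6⟩ | ⟨he, h6⟩
  · left
    obtain ⟨u, rfl⟩ : ∃ u, t = u + 1 := ⟨t - 1, by omega⟩
    obtain ⟨s', k1, k2, k3, k4⟩ := strip_succ M col y b s hb u hs
    obtain ⟨-, k5, k6, k7⟩ := wh1_la M y s (M.rfl' s') e hc he hg k3 j hj h6
    rcases Nat.lt_or_ge i u with h8 | h8
    · exact absurd ⟨u, s', h8, by omega, k1, Or.inr ⟨k5, k6, k7⟩⟩ h4
    · obtain rfl : i = u := by omega
      exact ⟨s', k1, k5.symm, k6, k7⟩
  · right
    obtain ⟨s', k1, k2, k3⟩ := wh1_next M col y b s hb t k htk (hk (by omega)) hs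
    obtain ⟨-, k5, k6, k7⟩ := wh1_la M y (M.rfl' s) s' e hc he (rfl_isGap M y s hg) k3 j hj h6
    rcases Nat.lt_or_ge (t + 1) k with h8 | h8
    · exact absurd ⟨t + 1, s', by omega, h8, k1, Or.inl ⟨k5, k6, k7⟩⟩ h4
    · obtain rfl : k = t + 1 := by omega
      exact ⟨s', k1, k5.symm, k6, k7⟩


end H98T
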