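import Mathlib
import Pool.Agent.Lib.H98T.WH1

set_option autoImplicit false

/-!
# H98T.WH2B: partners of removed positions, mirror image
-/

namespace H98T

open Finset

variable {N Y : Type}

/-- WH2b. Chunk WH2B (size M). The mirror image: `length (prv e) - j ∈ P (prv e)` is removed and `j ∈ P e` is not. -/
theorem partner_case' (M : Net N Y) (col : Y → N → ℕ) (P : Dart N → Finset ℕ) (y : Y) (b : St N) (hb : M.Start y b) (i k : ℕ)
    (hk : i < k → ∃ s, M.strip col y b k = some s) (e : Dart N) (hc : ¬ M.cut e.1) (j : ℕ) (hj : j ≤ M.leg e)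
    (h1 : (M.word (prv e)).length - j ∈ P (prv e)) (h2 : (M.word (prv e)).length - j ∉ M.remv col y P b i k (prv e))
    (h3 : j ∈ M.remv col y P b i k e) :
    (∃ s, M.strip col y b i = some s ∧ e = M.inv s.1 ∧ (M.rfl' s).2.1 < j ∧ j ≤ (M.rfl' s).2.2) ∨
      (∃ s, M.strip col y b k = some s ∧ e = s.1 ∧ s.2.1 < j ∧ j ≤ s.2.2) := by
  have h4 := ((wh1_mem M col y P b i k _ _).1 h3).2
  have h5 : ∃ t s, i < t ∧ t < k ∧ M.strip col y b t = some s ∧
      ((s.1 = prv e ∧ s.2.1 < (M.word (prv e)).length - j ∧ (M.word (prv e)).length - j ≤ s.2.2) ∨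
        (M.inv s.1 = prv e ∧ (M.rfl' s).2.1 < (M.word (prv e)).length - j ∧
          (M.word (prv e)).length - j ≤ (M.rfl' s).2.2)) := by
    by_contra h6
    exact h2 ((wh1_mem M col y P b i k _ _).2 ⟨h1, h6⟩)
  obtain ⟨t, s, hit, htk, hs, h6⟩ := h5
  obtain ⟨hg, hu, -⟩ := strip_spec M col y b s hb t hs
  rcases h6 with ⟨he, h6⟩ | ⟨he, h6⟩
  · left
    obtain ⟨u, rfl⟩ : ∃ u, t = u + 1 := ⟨t - 1, by omega⟩
    obtain ⟨s', k1, k2, k3, k4⟩ := strip_succ M col y b s hb u hs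
    obtain ⟨-, k5, k6, k7⟩ := wh1_lb M y s (M.rfl' s') e hc he hg k3 j hj h6
    rcases Nat.lt_or_ge i u with h8 | h8
    · exact absurd ⟨u, s', h8, by omega, k1, Or.inr ⟨k5, k6, k7⟩⟩ h4
    · obtain rfl : i = u := by omega
      exact ⟨s', k1, k5.symm, k6, k7⟩
  · right
    obtain ⟨s', k1, k2, k3⟩ := wh1_next M col y b s hb t k htk (hk (by omega)) hs
    obtain ⟨-, k5, k6, k7⟩ := wh1_lb M y (M.rfl' s) s' e hc he (rfl_isGap M y s hg) k3 j hj h6
    rcases Nat.lt_or_ge (t + 1) k with h8 | h8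
    · exact absurd ⟨t + 1, s', by omega, h8, k1, Or.inl ⟨k5, k6, k7⟩⟩ h4
    · obtain rfl : k = t + 1 := by omega
      exact ⟨s', k1, k5.symm, k6, k7⟩


end H98T
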