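import Mathlib
import Pool.Agent.Lib.H98T.WH2
import Pool.Agent.Lib.H98T.WH2B

set_option autoImplicit false

/-!
# H98T.WH3: the total number of inconsistencies after removing
-/

namespace H98T

open Finset

variable {N Y : Type}

/-- WH3. Chunk WH3 (size M). `Mis` increases by at most `amass` of the state number `i` plus `amass` of the state number `k`.
Proof: a position `j ≤ leg e` inconsistent for `remv P` and consistent for `P`: exactly one of the two partners was removed, and both were in `P` (if both were not in `P` nothing changes).
By `partner_case`, `partner_case'` the remaining one is a position of `P` (even of `remv P`) in the gap `rfl' s_i` (dart `inv s_i.1`) or in the gap `s_k` (dart `s_k.1`).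
Each such position is the partner or the position itself for exactly one corner: the link of `rfl' s_i` (resp. of `s_k`) is on one side only (a gap which does not contain the centre lies in exactly one of the
two legs), so it is counted once.  (It is enough to map an inconsistent corner position `(e, j)` to the remaining position; if the remaining dart is `prv e` it lies strictly in its last leg, if it
is `e` strictly in its first leg; so the map is injective.) -/
theorem mis_remv [Fintype N] (M : Net N Y) (col : Y → N → ℕ) (El : Dart N → Prop) (t1 : ℕ) (hL : M.LabOK col El t1)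
    (P : Dart N → Finset ℕ) (hP : M.Good col El P) (y : Y) (b : St N) (hb : M.Start y b) (i k : ℕ)
    (hk : i < k → ∃ s, M.strip col y b k = some s) :
    M.Mis El (M.remv col y P b i k) ≤ M.Mis El P + (if i < k then M.aseq col y P b i + M.aseq col y P b k else 0) := by
  classical
  by_cases hik : i < k
  · obtain ⟨sk, hsk⟩ := hk hik
    obtain ⟨si, hsi⟩ := strip_le M col y b sk k i hik.le hsk
    rw [if_pos hik]
    have hai : M.aseq col y P b i = M.amass P si := by simp only [Net.aseq, hsi]
    have hak : M.aseq col y P b k = M.amass P sk := by simp only [Net.aseq, hsk]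
    rw [hai, hak]
    have hnci := wh1_nc2 M col y b si hb i k hik ⟨sk, hsk⟩ hsi
    have hnck := wh1_nc1 M col y b sk hb k (by omega) hsk
    set P' := M.remv col y P b i k with hP'
    set A : Finset ℕ := P (M.inv si.1) ∩ Ioc (M.rfl' si).2.1 (M.rfl' si).2.2 with hA
    set B : Finset ℕ := P sk.1 ∩ Ioc sk.2.1 sk.2.2 with hB
    set X : Dart N → Finset ℕ := fun e => (range (M.leg e + 1)).filter
      (fun j => ¬ (j ∈ P' e ↔ (M.word (prv e)).length - j ∈ P' (prv e)) ∧
        (j ∈ P e ↔ (M.word (prv e)).length - j ∈ P (prv e))) with hX
    have hX1 : ∀ e, mism M P' e ≤ mism M P e + (X e).card := by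
      intro e
      unfold mism
      refine le_trans (Finset.card_le_card ?_) (Finset.card_union_le _ _)
      intro j hj
      obtain ⟨h1, h2⟩ := Finset.mem_filter.1 hj
      by_cases h3 : (j ∈ P e ↔ (M.word (prv e)).length - j ∈ P (prv e))
      · exact Finset.mem_union_right _ (Finset.mem_filter.2 ⟨h1, h2, h3⟩)
      · exact Finset.mem_union_left _ (Finset.mem_filter.2 ⟨h1, h3⟩)
    have hmis : M.Mis El P' ≤ M.Mis El P +
        ∑ e ∈ univ.filter (fun e : Dart N => ∀ j, El (e.1, j)), (X e).card := by
      unfold Net.Mis
      rw [Finset.sum_filter, ← Finset.sum_add_distrib]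
      refine Finset.sum_le_sum fun e _ => ?_
      by_cases h1 : ∀ j, El (e.1, j)
      · rw [if_pos h1, if_pos h1, if_pos h1]
        exact hX1 e
      · rw [if_neg h1, if_neg h1, if_neg h1]
        exact Nat.zero_le _
    have hT : ((univ.filter (fun e : Dart N => ∀ j, El (e.1, j))).sigma X).card ≤ A.card + B.card := by
      have hsub : (univ.filter (fun e : Dart N => ∀ j, El (e.1, j))).sigma X ⊆
          (((A.filter (fun p => p ≤ M.leg (M.inv si.1))).image (fun p => (⟨M.inv si.1, p⟩ : Σ _ : Dart N, ℕ))) ∪
            ((A.filter (fun p => ¬ p ≤ M.leg (M.inv si.1))).image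
              (fun p => (⟨nxt (M.inv si.1), (M.word (M.inv si.1)).length - p⟩ : Σ _ : Dart N, ℕ)))) ∪
          (((B.filter (fun p => p ≤ M.leg sk.1)).image (fun p => (⟨sk.1, p⟩ : Σ _ : Dart N, ℕ))) ∪
            ((B.filter (fun p => ¬ p ≤ M.leg sk.1)).image
              (fun p => (⟨nxt sk.1, (M.word sk.1).length - p⟩ : Σ _ : Dart N, ℕ)))) := by
        rintro ⟨e, j⟩ hej
        obtain ⟨h1, h2⟩ := Finset.mem_sigma.1 hej
        have h1' := (Finset.mem_filter.1 h1).2
        obtain ⟨h3, h4, h5⟩ := Finset.mem_filter.1 h2
        have hc : ¬ M.cut e.1 := hL.uncut _ (h1' e.2)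
        have hj : j ≤ M.leg e := Nat.lt_succ_iff.1 (Finset.mem_range.1 h3)
        obtain ⟨hlen, hnp⟩ := wh1_len M e hc
        simp only at h4 h5
        have hLj : (M.word (prv e)).length - ((M.word (prv e)).length - j) = j := by omega
        by_cases h6 : j ∈ P' e
        · have h7 : (M.word (prv e)).length - j ∉ P' (prv e) := fun h => h4 ⟨fun _ => h, fun _ => h6⟩
          have h8 : j ∈ P e := ((wh1_mem M col y P b i k e j).1 h6).1
          have h9 := h5.1 h8
          rcases partner_case' M col P y b hb i k hk e hc j hj h9 h7 h6 with
            ⟨s, k1, k2, k3, k4⟩ | ⟨s, k1, k2, k3, k4⟩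
          · rw [hsi] at k1
            obtain rfl := Option.some.inj k1
            refine Finset.mem_union_left _ (Finset.mem_union_left _ (Finset.mem_image.2 ⟨j, Finset.mem_filter.2 ⟨?_, ?_⟩, ?_⟩))
            · rw [hA, ← k2]
              exact Finset.mem_inter.2 ⟨h8, Finset.mem_Ioc.2 ⟨k3, k4⟩⟩
            · rw [← k2]; exact hj
            · rw [← k2]
          · rw [hsk] at k1
            obtain rfl := Option.some.inj k1
            refine Finset.mem_union_right _ (Finset.mem_union_left _ (Finset.mem_image.2 ⟨j, Finset.mem_filter.2 ⟨?_, ?_⟩, ?_⟩))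
            · rw [hB, ← k2]
              exact Finset.mem_inter.2 ⟨h8, Finset.mem_Ioc.2 ⟨k3, k4⟩⟩
            · rw [← k2]; exact hj
            · rw [← k2]
        · have h7 : (M.word (prv e)).length - j ∈ P' (prv e) := by
            by_contra h
            exact h4 ⟨fun h' => absurd h' h6, fun h' => absurd h' h⟩
          have h8 := ((wh1_mem M col y P b i k _ _).1 h7).1
          have h9 := h5.2 h8
          rcases partner_case M col P y b hb i k hk e hc j hj h9 h6 h7 with
            ⟨s, k1, k2, k3, k4⟩ | ⟨s, k1, k2, k3, k4⟩
          · rw [hsi] at k1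
            obtain rfl := Option.some.inj k1
            refine Finset.mem_union_left _ (Finset.mem_union_right _ (Finset.mem_image.2
              ⟨(M.word (prv e)).length - j, Finset.mem_filter.2 ⟨?_, ?_⟩, ?_⟩))
            · rw [hA, ← k2]
              exact Finset.mem_inter.2 ⟨h8, Finset.mem_Ioc.2 ⟨k3, k4⟩⟩
            · rw [← k2]
              intro h10
              have h11 : M.leg (prv e) = (M.word (prv e)).length - j := by omega
              refine hnci ?_
              have h12 : (M.rfl' si).1 = prv e := k2.symm
              rw [h12, h11]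
              exact ⟨k3, k4⟩
            · rw [← k2, hnp, hLj]
          · rw [hsk] at k1
            obtain rfl := Option.some.inj k1
            refine Finset.mem_union_right _ (Finset.mem_union_right _ (Finset.mem_image.2
              ⟨(M.word (prv e)).length - j, Finset.mem_filter.2 ⟨?_, ?_⟩, ?_⟩))
            · rw [hB, ← k2]
              exact Finset.mem_inter.2 ⟨h8, Finset.mem_Ioc.2 ⟨k3, k4⟩⟩
            · rw [← k2]
              intro h10
              have h11 : M.leg (prv e) = (M.word (prv e)).length - j := by omega
              refine hnck ?_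
              rw [← k2, h11]
              exact ⟨k3, k4⟩
            · rw [← k2, hnp, hLj]
      refine (Finset.card_le_card hsub).trans ((Finset.card_union_le _ _).trans (add_le_add ?_ ?_))
      · refine (Finset.card_union_le _ _).trans ?_
        rw [← Finset.card_filter_add_card_filter_not (s := A) (fun p => p ≤ M.leg (M.inv si.1))]
        exact add_le_add Finset.card_image_le Finset.card_image_le
      · refine (Finset.card_union_le _ _).trans ?_
        rw [← Finset.card_filter_add_card_filter_not (s := B) (fun p => p ≤ M.leg sk.1)]
        exact add_le_add Finset.card_image_le Finset.card_image_le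
    rw [Finset.card_sigma] at hT
    have h1 : M.amass P si = (P si.1 ∩ Ioc si.2.1 si.2.2).card + A.card := rfl
    have h2 : M.amass P sk = B.card + (P (M.inv sk.1) ∩ Ioc (M.rfl' sk).2.1 (M.rfl' sk).2.2).card := rfl
    omega
  · rw [if_neg hik]
    have h1 : M.remv col y P b i k = P := by
      funext e
      ext j
      rw [wh1_mem]
      refine ⟨fun h => h.1, fun h => ⟨h, ?_⟩⟩
      rintro ⟨t, s, h2, h3, -⟩
      omega
    rw [h1]
    exact le_rfl


end H98T
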