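import Mathlib
import Pool.Agent.Lib.H98T.WE3

set_option autoImplicit false

/-!
# H98T.WH4: the removed mass
-/

namespace H98T

open Finset

variable {N Y : Type}

theorem wh4_mem (M : Net N Y) (col : Y → N → ℕ) (y : Y) (P : Dart N → Finset ℕ) (b : St N) (i k : ℕ) (e : Dart N) (j : ℕ) :
    j ∈ M.remv col y P b i k e ↔ j ∈ P e ∧ ¬ ∃ t s, i < t ∧ t < k ∧ M.strip col y b t = some s ∧
      ((s.1 = e ∧ s.2.1 < j ∧ j ≤ s.2.2) ∨ (M.inv s.1 = e ∧ (M.rfl' s).2.1 < j ∧ j ≤ (M.rfl' s).2.2)) := by
  classical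
  unfold Net.remv
  exact Finset.mem_filter

/-- WH4. Chunk WH4 (size M). The weighted mass of the inner gaps is at most twice the decrease of `LL`.
Proof: `∑_(i<t<k) lam_t a_t` is the sum over the inner states `s` of the numbers of positions of `P` in `s` (dart `s.1`) and in `rfl' s` (dart `inv s.1`), with weight `lam s.1 = lam (inv s.1)`.  All these
positions are removed.  A pair (dart `e`, position) is counted at most twice: at most one state has dart `e` and at most one has dart `inv e` (`no_return`). -/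
theorem mass_remv [Fintype N] (M : Net N Y) (hAC : M.AC) (col : Y → N → ℕ) (P : Dart N → Finset ℕ) (lam : Dart N → ℝ) (h1 : ∀ e, 1 ≤ lam e)
    (h2 : ∀ e, lam (M.inv e) = lam e) (y : Y) (b : St N) (hb : M.Start y b) (i k : ℕ) :
    ∑ t ∈ Ioo i k, M.lseq col y lam b t * (M.aseq col y P b t : ℝ) ≤ 2 * (LL lam P - LL lam (M.remv col y P b i k)) := by
  classical
  have hex : ∀ t, ∃ w : St N, (∃ s, M.strip col y b t = some s) → M.strip col y b t = some w := by
    intro t
    by_cases h : ∃ s, M.strip col y b t = some s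
    · obtain ⟨s, hs⟩ := h
      exact ⟨s, fun _ => hs⟩
    · exact ⟨b, fun h' => absurd h' h⟩
  choose st hst using hex
  set P' := M.remv col y P b i k with hP'
  set I : Finset ℕ := (Ioo i k).filter (fun t => ∃ s, M.strip col y b t = some s) with hI
  set f : Dart N → ℝ := fun e => lam e * ((P e \ P' e).card : ℝ) with hf
  have hf0 : ∀ e, 0 ≤ f e := fun e => mul_nonneg (zero_le_one.trans (h1 e)) (Nat.cast_nonneg _)
  have hLL : LL lam P - LL lam P' = ∑ e, f e := by
    unfold LL
    rw [← Finset.sum_sub_distrib]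
    refine Finset.sum_congr rfl fun e _ => ?_
    have hsub : P' e ⊆ P e := fun j hj => ((wh4_mem M col y P b i k e j).1 hj).1
    have h3 := Finset.card_sdiff_add_card_eq_card hsub
    have h4 : ((P e).card : ℝ) = ((P e \ P' e).card : ℝ) + ((P' e).card : ℝ) := by
      rw [← h3]
      push_cast
      ring
    rw [hf, h4]
    ring
  have hinj : ∀ t ∈ I, ∀ t' ∈ I, (st t).1 = (st t').1 → t = t' := by
    intro t ht t' ht' h
    have k1 := hst t (Finset.mem_filter.1 ht).2
    have k2 := hst t' (Finset.mem_filter.1 ht').2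
    rcases Nat.lt_trichotomy t t' with h5 | h5 | h5
    · exact (no_return M hAC col y b _ _ hb t t' h5 k1 k2 h).elim
    · exact h5
    · exact (no_return M hAC col y b _ _ hb t' t h5 k2 k1 h.symm).elim
  have hA : ∑ t ∈ I, f (st t).1 ≤ ∑ e, f e := by
    rw [← Finset.sum_image (f := f) (g := fun t => (st t).1) (fun t ht t' ht' h => hinj t ht t' ht' h)]
    exact Finset.sum_le_sum_of_subset_of_nonneg (Finset.subset_univ _) (fun e _ _ => hf0 e)
  have hB : ∑ t ∈ I, f (M.inv (st t).1) ≤ ∑ e, f e := by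
    rw [← Finset.sum_image (f := f) (g := fun t => M.inv (st t).1) (fun t ht t' ht' h => by
      refine hinj t ht t' ht' ?_
      have h5 := congrArg M.inv h
      simp only [M.inv_inv] at h5
      exact h5)]
    exact Finset.sum_le_sum_of_subset_of_nonneg (Finset.subset_univ _) (fun e _ _ => hf0 e)
  have hsum : ∑ t ∈ Ioo i k, M.lseq col y lam b t * (M.aseq col y P b t : ℝ) =
      ∑ t ∈ I, M.lseq col y lam b t * (M.aseq col y P b t : ℝ) := by
    symm
    refine Finset.sum_subset (Finset.filter_subset _ _) ?_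
    intro t ht hnt
    have h5 : ¬ ∃ s, M.strip col y b t = some s := fun h => hnt (Finset.mem_filter.2 ⟨ht, h⟩)
    have h6 : M.strip col y b t = none := by
      rcases h7 : M.strip col y b t with _ | s
      · rfl
      · exact absurd ⟨s, h7⟩ h5
    simp only [Net.aseq, h6, Nat.cast_zero, mul_zero]
  rw [hsum, hLL]
  have hterm : ∀ t ∈ I, M.lseq col y lam b t * (M.aseq col y P b t : ℝ) ≤ f (st t).1 + f (M.inv (st t).1) := by
    intro t ht
    obtain ⟨h5, h6⟩ := Finset.mem_filter.1 ht
    obtain ⟨h7, h8⟩ := Finset.mem_Ioo.1 h5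
    have k1 := hst t h6
    simp only [Net.aseq, Net.lseq, k1, Net.amass]
    push_cast
    rw [mul_add]
    have h9 : (P (st t).1 ∩ Ioc (st t).2.1 (st t).2.2).card ≤ (P (st t).1 \ P' (st t).1).card := by
      refine Finset.card_le_card fun j hj => ?_
      obtain ⟨h10, h11⟩ := Finset.mem_inter.1 hj
      refine Finset.mem_sdiff.2 ⟨h10, fun h12 => ?_⟩
      obtain ⟨h13, h14⟩ := Finset.mem_Ioc.1 h11
      exact ((wh4_mem M col y P b i k _ j).1 h12).2 ⟨t, st t, h7, h8, k1, Or.inl ⟨rfl, h13, h14⟩⟩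
    have h9' : (P (M.inv (st t).1) ∩ Ioc (M.rfl' (st t)).2.1 (M.rfl' (st t)).2.2).card ≤
        (P (M.inv (st t).1) \ P' (M.inv (st t).1)).card := by
      refine Finset.card_le_card fun j hj => ?_
      obtain ⟨h10, h11⟩ := Finset.mem_inter.1 hj
      refine Finset.mem_sdiff.2 ⟨h10, fun h12 => ?_⟩
      obtain ⟨h13, h14⟩ := Finset.mem_Ioc.1 h11
      exact ((wh4_mem M col y P b i k _ j).1 h12).2 ⟨t, st t, h7, h8, k1, Or.inr ⟨rfl, h13, h14⟩⟩
    refine add_le_add ?_ ?_
    · exact mul_le_mul_of_nonneg_left (Nat.cast_le.2 h9) (zero_le_one.trans (h1 _))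
    · simp only [hf]
      rw [h2]
      exact mul_le_mul_of_nonneg_left (Nat.cast_le.2 h9') (zero_le_one.trans (h1 _))
  refine (Finset.sum_le_sum hterm).trans ?_
  rw [Finset.sum_add_distrib]
  linarith


end H98T
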