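import Mathlib
import Pool.Agent.Lib.H98T.WH3
import Pool.Agent.Lib.H98T.WH4
import Pool.Agent.Lib.H98T.WB
import Pool.Agent.Lib.H98T.WG2B

set_option autoImplicit false

/-!
# H98T.WH5: processing one start, and one round
-/

namespace H98T

open Finset

variable {N Y : Type}

theorem wh5_aseq_mono (M : Net N Y) (col : Y → N → ℕ) (y : Y) (P P' : Dart N → Finset ℕ) (hsub : ∀ e, P' e ⊆ P e) (b : St N) (t : ℕ) :
    M.aseq col y P' b t ≤ M.aseq col y P b t := by
  unfold Net.aseq
  split
  · unfold Net.amass
    exact Nat.add_le_add (card_le_card (inter_subset_inter_right (hsub _))) (card_le_card (inter_subset_inter_right (hsub _)))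
  · exact le_rfl

theorem wh5_aseq_remv (M : Net N Y) (col : Y → N → ℕ) (y : Y) (P : Dart N → Finset ℕ) (b : St N) (i k t : ℕ)
    (h1 : i < t) (h2 : t < k) : M.aseq col y (M.remv col y P b i k) b t = 0 := by
  classical
  unfold Net.aseq
  split
  · rename_i s hs
    unfold Net.amass
    have h3 : M.remv col y P b i k s.1 ∩ Ioc s.2.1 s.2.2 = ∅ := by
      rw [eq_empty_iff_forall_notMem]
      intro j hj
      rw [mem_inter, mem_Ioc] at hj
      obtain ⟨hj1, hj2, hj3⟩ := hj
      unfold Net.remv at hj1
      rw [mem_filter] at hj1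
      exact hj1.2 ⟨t, s, h1, h2, hs, Or.inl ⟨rfl, hj2, hj3⟩⟩
    have h4 : M.remv col y P b i k (M.inv s.1) ∩ Ioc (M.rfl' s).2.1 (M.rfl' s).2.2 = ∅ := by
      rw [eq_empty_iff_forall_notMem]
      intro j hj
      rw [mem_inter, mem_Ioc] at hj
      obtain ⟨hj1, hj2, hj3⟩ := hj
      unfold Net.remv at hj1
      rw [mem_filter] at hj1
      exact hj1.2 ⟨t, s, h1, h2, hs, Or.inr ⟨rfl, hj2, hj3⟩⟩
    rw [h3, h4]
    rfl
  · rfl

open Classical in
/-- WH5a. Chunk WH5 (size M). ONE START.
Proof: `region_growing` for `a t = aseq t`, `lam t = lseq t`, `l = 3 B`; the hypothesis on the total mass: `aseq t ≤ 2 Pm` (`amass` is at most the sum of two cardinalities of sets `P _`, each at most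
`Pm` by `hPm`), `lseq t ≤ Lam`, so the sum is at most `3 B * Lam * (2 Pm) ≤ T`.  If it gives no cut take `P' = P`.  Otherwise `i < k < 3 B`.  If the state number `k` does not exist, `aseq k = 0`, and
the strip ends before: let `k' ≤ k` be the first index whose state does not exist; replace the cut by no cut if `a_i` and the inner mass... (simplest: if the state number `k` does not exist, then we cannot remove up
to the end; instead apply `region_growing` with `l` = the exact number of states, `l ≤ 3 B` by `strip_len`, so that every index `< l` has a state).  `P' = remv P b i k`: `remv_good`, `mis_remv`, `mass_remv` give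
`Mis P' ≤ Mis P + a_i + a_k ≤ Mis P + h ∑ lam a ≤ Mis P + 2 h (LL P - LL P')`.  The indices with `aseq P' t ≠ 0` have `aseq P t ≠ 0` and are not strictly between `i` and `k` (there both gap sets are empty after the removal). -/
theorem one_start [Fintype N] (M : Net N Y) (hAC : M.AC) (col : Y → N → ℕ) (B : ℕ) (hB : M.ColB col B) (El : Dart N → Prop) (t1 : ℕ)
    (hL : M.LabOK col El t1) (P : Dart N → Finset ℕ) (hP : M.Good col El P) (lam : Dart N → ℝ) (Lam : ℝ) (h1 : ∀ e, 1 ≤ lam e)
    (h2 : ∀ e, lam (M.inv e) = lam e) (h3 : ∀ e, lam e ≤ Lam) (h T : ℝ) (h0 : 0 < h) (hLam : h * Lam ≤ 1) (hT1 : 1 ≤ T)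
    (hT : 3 * B * Lam * (2 * (1 + t1 + 6 * B * t1)) ≤ T) (y : Y) (b : St N) (hb : M.Start y b) :
    ∃ P', M.Good col El P' ∧ (∀ e, P' e ⊆ P e) ∧ (M.Mis El P' : ℝ) ≤ M.Mis El P + 2 * h * (LL lam P - LL lam P') ∧
      ∑ t ∈ (range (3 * B)).filter (fun t => M.aseq col y P' b t ≠ 0), M.lseq col y lam b t ≤ 4 / h * Real.log T + 4 * Lam := by
  have hLam1 : 1 ≤ Lam := (h1 b.1).trans (h3 b.1)
  have hnone : M.strip col y b (3 * B) = none := by
    rcases hc : M.strip col y b (3 * B) with _ | s
    · rfl
    · exact absurd (strip_len M hAC col B hB y b s hb _ hc) (lt_irrefl _)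
  have hex : ∃ t, M.strip col y b t = none := ⟨_, hnone⟩
  set l := Nat.find hex with hl
  have hl3 : l ≤ 3 * B := Nat.find_min' hex hnone
  have hlt : ∀ t, t < l → ∃ s, M.strip col y b t = some s := by
    intro t ht
    have h5 := Nat.find_min hex ht
    exact Option.ne_none_iff_exists'.mp h5
  have hge : ∀ t s, M.strip col y b t = some s → t < l := by
    intro t s hs
    by_contra hh
    obtain ⟨s', hs'⟩ := strip_le M col y b s t l (by omega) hs
    have h5 := Nat.find_spec hex
    rw [← hl, hs'] at h5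
    simp at h5
  have hage : ∀ (Q : Dart N → Finset ℕ) t, M.aseq col y Q b t ≠ 0 → t < l := by
    intro Q t ht
    rcases hc : M.strip col y b t with _ | s
    · exfalso
      apply ht
      unfold Net.aseq
      rw [hc]
    · exact hge t s hc
  have hlam1 : ∀ t, 1 ≤ M.lseq col y lam b t := by
    intro t
    unfold Net.lseq
    split
    · exact h1 _
    · exact le_rfl
  have hlam2 : ∀ t, M.lseq col y lam b t ≤ Lam := by
    intro t
    unfold Net.lseq
    split
    · exact h3 _
    · exact hLam1
  have haP : ∀ t, (M.aseq col y P b t : ℝ) ≤ 2 * (1 + t1 + 6 * B * t1) := by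
    intro t
    have h6 : M.aseq col y P b t ≤ 2 * (1 + t1 + 6 * B * t1) := by
      unfold Net.aseq
      split
      · rename_i s hs
        unfold Net.amass
        have a1 := (card_le_card (inter_subset_left (s₁ := P s.1) (s₂ := Ioc s.2.1 s.2.2))).trans
          (P_card_le M hAC col B hB El t1 hL P hP s.1)
        have a2 := (card_le_card (inter_subset_left (s₁ := P (M.inv s.1)) (s₂ := Ioc (M.rfl' s).2.1 (M.rfl' s).2.2))).trans
          (P_card_le M hAC col B hB El t1 hL P hP (M.inv s.1))
        omega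
      · exact Nat.zero_le _
    exact_mod_cast h6
  have hsum : ∑ t ∈ range l, M.lseq col y lam b t * (M.aseq col y P b t : ℝ) ≤ T := by
    have h7 : ∑ t ∈ range l, M.lseq col y lam b t * (M.aseq col y P b t : ℝ) ≤
        ∑ _t ∈ range l, Lam * (2 * (1 + t1 + 6 * B * t1)) := by
      refine sum_le_sum fun t _ => ?_
      exact mul_le_mul (hlam2 t) (haP t) (Nat.cast_nonneg _) (by linarith)
    refine h7.trans ?_
    rw [sum_const, card_range, nsmul_eq_mul]
    refine le_trans ?_ hT
    have h8 : (l : ℝ) ≤ 3 * B := by exact_mod_cast hl3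
    have h9 : 0 ≤ Lam * (2 * (1 + (t1 : ℝ) + 6 * B * t1)) := by positivity
    calc (l : ℝ) * (Lam * (2 * (1 + (t1 : ℝ) + 6 * B * t1))) ≤ (3 * B) * (Lam * (2 * (1 + (t1 : ℝ) + 6 * B * t1))) :=
          mul_le_mul_of_nonneg_right h8 h9
      _ = 3 * B * Lam * (2 * (1 + t1 + 6 * B * t1)) := by ring
  obtain ⟨i, k, hcut, hw⟩ := region_growing (fun t => M.aseq col y P b t) (fun t => M.lseq col y lam b t) Lam h T l h0 hLam hT1
    hlam1 hlam2 hsum
  rcases hcut with hcut | ⟨c1, c2, c3⟩
  · refine ⟨P, hP, fun e => Subset.refl _, ?_, ?_⟩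
    · simp
    · refine le_trans (sum_le_sum_of_subset_of_nonneg ?_ (fun t _ _ => by linarith [hlam1 t])) hw
      intro t ht
      rw [mem_filter, mem_range] at ht
      rw [mem_filter, mem_range]
      exact ⟨hage P t ht.2, by omega, ht.2⟩
  · have hkex : i < k → ∃ s, M.strip col y b k = some s := fun _ => hlt k c2
    have hsub : ∀ e, M.remv col y P b i k e ⊆ P e := fun e => filter_subset _ _
    refine ⟨M.remv col y P b i k, remv_good M col El t1 hL P hP y b hb i k hkex, hsub, ?_, ?_⟩
    · have g1 := mis_remv M col El t1 hL P hP y b hb i k hkex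
      rw [if_pos c1] at g1
      have g2 : (M.Mis El (M.remv col y P b i k) : ℝ) ≤ M.Mis El P + (M.aseq col y P b i + M.aseq col y P b k) := by
        exact_mod_cast g1
      have g3 := mass_remv M hAC col P lam h1 h2 y b hb i k
      have g4 := mul_le_mul_of_nonneg_left g3 h0.le
      linarith
    · refine le_trans (sum_le_sum_of_subset_of_nonneg ?_ (fun t _ _ => by linarith [hlam1 t])) hw
      intro t ht
      rw [mem_filter, mem_range] at ht
      rw [mem_filter, mem_range]
      refine ⟨hage _ t ht.2, ?_, ?_⟩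
      · rintro ⟨b1, b2⟩
        exact ht.2 (wh5_aseq_remv M col y P b i k t b1 b2)
      · have g5 := wh5_aseq_mono M col y P (M.remv col y P b i k) hsub b t
        have g6 := ht.2
        omega

end H98T
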