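import Mathlib
import Pool.Agent.Lib.H98T.WH5

set_option autoImplicit false

/-!
# H98T.WH5B: one round
-/

namespace H98T

open Finset

variable {N Y : Type}

theorem wh5b_finite_start [Finite N] (M : Net N Y) : {p : Y × St N | M.Start p.1 p.2}.Finite := by
  have h1 : (⋃ e : Dart N, ({y | y ∈ M.word e} ×ˢ (({e} : Set (Dart N)) ×ˢ
      (Set.Iio (M.word e).length ×ˢ Set.Iio (M.word e).length)))).Finite := by
    refine Set.finite_iUnion fun e => ?_
    exact (List.finite_toSet (M.word e)).prod ((Set.finite_singleton e).prod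
      ((Set.finite_Iio _).prod (Set.finite_Iio _)))
  refine h1.subset ?_
  rintro ⟨y, e, i, i'⟩ h
  obtain ⟨_, ⟨_, h3, h4, _⟩, _, _⟩ := h
  simp only at h3 h4
  rw [Set.mem_iUnion]
  exact ⟨e, List.mem_iff_getElem?.mpr ⟨_, h3⟩, rfl, wg_lt_of_get h3, wg_lt_of_get h4⟩

open Classical in
theorem wh5b_all [Fintype N] (M : Net N Y) (hAC : M.AC) (col : Y → N → ℕ) (B : ℕ) (hB : M.ColB col B) (El : Dart N → Prop) (t1 : ℕ)
    (hL : M.LabOK col El t1) (P : Dart N → Finset ℕ) (hP : M.Good col El P) (lam : Dart N → ℝ) (Lam : ℝ) (h1 : ∀ e, 1 ≤ lam e)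
    (h2 : ∀ e, lam (M.inv e) = lam e) (h3 : ∀ e, lam e ≤ Lam) (h T : ℝ) (h0 : 0 < h) (hLam : h * Lam ≤ 1) (hT1 : 1 ≤ T)
    (hT : 3 * B * Lam * (2 * (1 + t1 + 6 * B * t1)) ≤ T) (A : Finset (Y × St N)) :
    (∀ p ∈ A, M.Start p.1 p.2) →
    ∃ P', M.Good col El P' ∧ (∀ e, P' e ⊆ P e) ∧ (M.Mis El P' : ℝ) ≤ M.Mis El P + 2 * h * (LL lam P - LL lam P') ∧
      ∀ p ∈ A, ∑ t ∈ (range (3 * B)).filter (fun t => M.aseq col p.1 P' p.2 t ≠ 0), M.lseq col p.1 lam p.2 t ≤
        4 / h * Real.log T + 4 * Lam := by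
  refine Finset.induction_on A ?_ ?_
  · intro _
    refine ⟨P, hP, fun e => Subset.refl _, by simp, ?_⟩
    intro p hp
    exact absurd hp (notMem_empty p)
  · intro p A _ ih hA
    obtain ⟨P1, g1, g2, g3, g4⟩ := ih (fun q hq => hA q (mem_insert_of_mem hq))
    obtain ⟨P2, k1, k2, k3, k4⟩ := one_start M hAC col B hB El t1 hL P1 g1 lam Lam h1 h2 h3 h T h0 hLam hT1 hT p.1 p.2
      (hA p (mem_insert_self p A))
    refine ⟨P2, k1, fun e => (k2 e).trans (g2 e), ?_, ?_⟩
    · have : 2 * h * (LL lam P1 - LL lam P2) + 2 * h * (LL lam P - LL lam P1) = 2 * h * (LL lam P - LL lam P2) := by ring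
      linarith
    · intro q hq
      rw [mem_insert] at hq
      rcases hq with rfl | hq
      · exact k4
      · refine le_trans (sum_le_sum_of_subset_of_nonneg ?_ (fun t _ _ => wg2b_lseq_nonneg M col lam h1 _ _ _)) (g4 q hq)
        intro t ht
        rw [mem_filter] at ht
        rw [mem_filter]
        refine ⟨ht.1, ?_⟩
        have g5 := wh5_aseq_mono M col q.1 P1 P2 k2 q.2 t
        have g6 := ht.2
        omega

open Classical in
/-- WH5b. Chunk WH5B (size M). ONE ROUND.  Process all starts one after the other (induction over the finite set of starts: `P` only shrinks, so the conclusion for the starts already processed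
persists: `aseq` is monotone in `P`; `Mis` telescopes), then `L_bound`; the number of starts is `nst`.  -/
theorem one_round [Fintype N] (M : Net N Y) (hAC : M.AC) (col : Y → N → ℕ) (B : ℕ) (hB : M.ColB col B) (El : Dart N → Prop) (t1 : ℕ)
    (hL : M.LabOK col El t1) (P : Dart N → Finset ℕ) (hP : M.Good col El P) (lam : Dart N → ℝ) (Lam : ℝ) (h1 : ∀ e, 1 ≤ lam e)
    (h2 : ∀ e, lam (M.inv e) = lam e) (h3 : ∀ e, lam e ≤ Lam) (h T : ℝ) (h0 : 0 < h) (hLam : h * Lam ≤ 1) (hT1 : 1 ≤ T)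
    (hT : 3 * B * Lam * (2 * (1 + t1 + 6 * B * t1)) ≤ T) :
    ∃ P', M.Good col El P' ∧ (∀ e, P' e ⊆ P e) ∧ (M.Mis El P' : ℝ) ≤ M.Mis El P + 2 * h * (LL lam P - LL lam P') ∧
      LL lam P' ≤ M.LS El lam + 2 * M.nst * (4 / h * Real.log T + 4 * Lam) := by
  have hfin := wh5b_finite_start M
  set S := hfin.toFinset with hS
  have hmem : ∀ p, p ∈ S ↔ M.Start p.1 p.2 := by
    intro p
    rw [hS, hfin.mem_toFinset]
    exact Iff.rfl
  obtain ⟨P', g1, g2, g3, g4⟩ := wh5b_all M hAC col B hB El t1 hL P hP lam Lam h1 h2 h3 h T h0 hLam hT1 hT S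
    (fun p hp => (hmem p).mp hp)
  refine ⟨P', g1, g2, g3, ?_⟩
  have k1 := L_bound M hAC col B hB El t1 hL P' g1 lam h1 h2 S hmem
  have k2 := sum_le_sum g4
  rw [sum_const, nsmul_eq_mul] at k2
  have k3 : M.nst = S.card := by
    unfold Net.nst
    rw [hS, ← Set.ncard_coe_finset, hfin.coe_toFinset]
  rw [k3]
  have k4 : 2 * (S.card : ℝ) * (4 / h * Real.log T + 4 * Lam) = 2 * ((S.card : ℝ) * (4 / h * Real.log T + 4 * Lam)) := by ring
  rw [k4]
  linarith

end H98T
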