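import Mathlib
import Pool.Agent.Lib.H98T.WH5B

set_option autoImplicit false

/-!
# H98T.WH6: all rounds; the result of module W
-/

namespace H98T

open Finset

variable {N Y : Type}

open Classical in
/-- WH6a. Chunk WH6 (size M). The starting choice: `P0` on labelled darts, nothing elsewhere, is good (`centre_mem`, `P0_inv`), and has no inconsistency (`P0_node`). -/
theorem start_good [Fintype N] (M : Net N Y) (col : Y → N → ℕ) (El : Dart N → Prop) (t1 : ℕ) (hL : M.LabOK col El t1) :
    M.Good col El (fun e => if El e then M.P0 col e else ∅) ∧ M.Mis El (fun e => if El e then M.P0 col e else ∅) = 0 := by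
  refine ⟨⟨fun e he => ?_, fun e => ?_, fun z hz j => ?_, fun e he hF j hj => ?_⟩, ?_⟩
  · exact if_neg he
  · by_cases he : El e
    · simp [he]
    · simp [he]
  · simp only [hz j, if_true]
    exact centre_mem M col (z, j) (hL.uncut _ (hz j))
  · have h1 : El (M.inv e) := hL.inv e he hF
    simp only [he, h1, if_true]
    exact P0_inv M col e (hL.pass e he hF) j hj
  · unfold Net.Mis
    refine Finset.sum_eq_zero fun e _ => ?_
    split_ifs with h
    · unfold mism
      rw [Finset.card_eq_zero, Finset.filter_eq_empty_iff]
      intro j hj
      have he : El e := h e.2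
      have hp : El (prv e) := h (e.2 + 2)
      have hj' : j ≤ M.leg e := by
        have := Finset.mem_range.mp hj
        omega
      simp only [he, hp, if_true, not_not]
      exact P0_node M col e (hL.uncut _ he) j hj'
    · rfl

end H98T
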