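import Mathlib
import Pool.Agent.Lib.H98T.WH6

set_option autoImplicit false

/-!
# H98T.WH6B: all rounds
-/

namespace H98T

open Finset

variable {N Y : Type}

theorem LL_nonneg [Fintype N] (lam : Dart N → ℝ) (h1 : ∀ e, 1 ≤ lam e) (P : Dart N → Finset ℕ) : 0 ≤ LL lam P := by
  unfold LL
  refine Finset.sum_nonneg fun e _ => mul_nonneg ?_ (Nat.cast_nonneg _)
  linarith [h1 e]

theorem LS_nonneg [Fintype N] (M : Net N Y) (El : Dart N → Prop) (lam : Dart N → ℝ) (h1 : ∀ e, 1 ≤ lam e) :
    0 ≤ M.LS El lam := by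
  unfold Net.LS
  refine Finset.sum_nonneg fun e _ => ?_
  split_ifs
  · refine mul_nonneg ?_ ?_
    · linarith [h1 e]
    · positivity
  · exact le_refl _

/-- WH6b. Chunk WH6B (size M). ALL ROUNDS.  `D0 > 0` is a scale (later `d`), `th` the allowed number of inconsistencies per round and per `D0`.
Proof.  Iterate `one_round` `I` times with `h = th * D0 / L`, `L = LL lam P`, as long as `L ≥ D0` (then `h * Lam ≤ th * Lam ≤ 1`); if `L < D0` do nothing.  In each round
`Mis` increases by at most `2 h (L - L') ≤ 2 h L = 2 th D0`, and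
`L' ≤ LS + 2 nst (4 L/(th D0) log T + 4 Lam) ≤ LS + L/4 + D0` by `hn1`, `hn2`.  After `I` rounds `L ≤ (4/3)(LS + D0) + L_0/4^I`, and
`L_0 ≤ 3 |N| * Lam * (1 + t1 + 6 B t1) ≤ 4^I D0` (`P_card_le`, `hI`).  (If at some round `L < D0` the bound `3 (LS + D0)` holds and is kept.) -/
theorem all_rounds [Fintype N] (M : Net N Y) (hAC : M.AC) (col : Y → N → ℕ) (B : ℕ) (hB : M.ColB col B) (El : Dart N → Prop) (t1 : ℕ)
    (hL : M.LabOK col El t1) (lam : Dart N → ℝ) (Lam : ℝ) (h1 : ∀ e, 1 ≤ lam e)
    (h2 : ∀ e, lam (M.inv e) = lam e) (h3 : ∀ e, lam e ≤ Lam) (T D0 th : ℝ) (I : ℕ) (hD : 0 < D0) (hth : 0 < th) (hLam : th * Lam ≤ 1) (hT1 : 1 ≤ T)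
    (hT : 3 * B * Lam * (2 * (1 + t1 + 6 * B * t1)) ≤ T)
    (hn1 : 8 * M.nst * Real.log T ≤ th / 4 * D0) (hn2 : 8 * M.nst * Lam ≤ D0)
    (hI : 3 * Fintype.card N * Lam * (1 + t1 + 6 * B * t1) ≤ 4 ^ I * D0) :
    ∃ P, M.Good col El P ∧ (∀ e, (P e).card ≤ 1 + t1 + 6 * B * t1) ∧ (M.Mis El P : ℝ) ≤ 2 * th * D0 * I ∧
      LL lam P ≤ 3 * (M.LS El lam + D0) := by
  classical
  set X : ℝ := 3 * Fintype.card N * Lam * (1 + t1 + 6 * B * t1) with hX
  have hLS : 0 ≤ M.LS El lam := LS_nonneg M El lam h1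
  obtain ⟨hG0, hM0⟩ := start_good M col El t1 hL
  set P0 : Dart N → Finset ℕ := fun e => if El e then M.P0 col e else ∅ with hP0
  have hcard : ∀ P : Dart N → Finset ℕ, M.Good col El P → ∀ e, (P e).card ≤ 1 + t1 + 6 * B * t1 :=
    fun P hP e => P_card_le M hAC col B hB El t1 hL P hP e
  have hLL0 : LL lam P0 ≤ X := by
    unfold LL
    have h4 : ∀ e ∈ (Finset.univ : Finset (Dart N)), lam e * ((P0 e).card : ℝ) ≤ Lam * (1 + t1 + 6 * B * t1) := by
      intro e _
      have h5 : ((P0 e).card : ℝ) ≤ 1 + t1 + 6 * B * t1 := by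
        have := hcard P0 hG0 e
        exact_mod_cast this
      have h6 : (0 : ℝ) ≤ ((P0 e).card : ℝ) := Nat.cast_nonneg _
      have h7 := h1 e
      have h8 := h3 e
      exact mul_le_mul h8 h5 h6 (by linarith)
    refine (Finset.sum_le_card_nsmul _ _ _ h4).trans ?_
    rw [Finset.card_univ, Fintype.card_prod, Fintype.card_fin, nsmul_eq_mul, hX]
    push_cast
    apply le_of_eq
    ring
  have hX0 : 0 ≤ X := (LL_nonneg lam h1 P0).trans hLL0
  have main : ∀ r : ℕ, ∃ P, M.Good col El P ∧ (M.Mis El P : ℝ) ≤ 2 * th * D0 * r ∧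
      LL lam P ≤ 4 / 3 * (M.LS El lam + D0) + X / 4 ^ r := by
    intro r
    induction r with
    | zero =>
      refine ⟨P0, hG0, ?_, ?_⟩
      · rw [hM0]
        simp
      · simp only [pow_zero, div_one]
        have : 0 ≤ 4 / 3 * (M.LS El lam + D0) := by positivity
        linarith
    | succ r ih =>
      obtain ⟨P, hP, hMis, hLP⟩ := ih
      have hLP0 : 0 ≤ LL lam P := LL_nonneg lam h1 P
      rcases lt_or_ge (LL lam P) D0 with hlt | hge
      · refine ⟨P, hP, ?_, ?_⟩
        · refine hMis.trans ?_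
          have : 0 ≤ 2 * th * D0 := by positivity
          push_cast
          nlinarith
        · have : 0 ≤ X / 4 ^ (r + 1) := by positivity
          have h4 : D0 ≤ 4 / 3 * (M.LS El lam + D0) := by linarith
          linarith
      · have hLpos : 0 < LL lam P := lt_of_lt_of_le hD hge
        set L : ℝ := LL lam P with hLdef
        set h : ℝ := th * D0 / L with hh
        have hh0 : 0 < h := by positivity
        have hhth : h ≤ th := by
          rw [hh, div_le_iff₀ hLpos]
          exact mul_le_mul_of_nonneg_left hge hth.le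
        have hhLam : h * Lam ≤ 1 := by
          rcases le_or_gt 0 Lam with hl | hl
          · exact (mul_le_mul_of_nonneg_right hhth hl).trans hLam
          · have : h * Lam ≤ 0 := mul_nonpos_of_nonneg_of_nonpos hh0.le hl.le
            linarith
        obtain ⟨P', hP', _, hMis', hLP'⟩ := one_round M hAC col B hB El t1 hL P hP lam Lam h1 h2 h3 h T hh0 hhLam hT1 hT
        have hLP'0 : 0 ≤ LL lam P' := LL_nonneg lam h1 P'
        have hhL : h * L = th * D0 := by
          rw [hh]
          field_simp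
        refine ⟨P', hP', ?_, ?_⟩
        · have h5 : 2 * h * (LL lam P - LL lam P') ≤ 2 * (th * D0) := by
            rw [← hhL, ← hLdef]
            nlinarith
          push_cast
          linarith
        · have h6 : 2 * M.nst * (4 / h * Real.log T + 4 * Lam) = (8 * M.nst * Real.log T) / h + 8 * M.nst * Lam := by
            ring
          have h7 : (8 * M.nst * Real.log T) / h ≤ L / 4 := by
            rw [div_le_iff₀ hh0]
            calc 8 * (M.nst : ℝ) * Real.log T ≤ th / 4 * D0 := hn1
              _ = L / 4 * h := by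
                have : L / 4 * h = (h * L) / 4 := by ring
                rw [this, hhL]
                ring
          have h8 : X / 4 ^ (r + 1) = (X / 4 ^ r) / 4 := by
            rw [pow_succ]
            field_simp
          rw [h6] at hLP'
          rw [h8]
          linarith
  obtain ⟨P, hP, hMis, hLP⟩ := main I
  refine ⟨P, hP, hcard P hP, hMis, ?_⟩
  have h9 : X / 4 ^ I ≤ D0 := by
    rw [div_le_iff₀ (by positivity)]
    linarith
  linarith

end H98T
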