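import Mathlib
import Pool.Agent.Lib.H98T.Enc

set_option autoImplicit false

/-!
# H98T, section 10: the context of the assembly

`ZCtx` collects the net of a covering `σ` (after the gauge transformation), the cut polygons, the supports `Sp x` (called `S'(x)` in `PROOF.md`), the trivial `F`-darts `F0`, the two
thresholds `t1 ≤ t2` found by the window lemma, and the numbers.
-/

namespace H98T

open Finset

open Classical in
structure ZCtx {g : ℕ} (hg : 2 ≤ g) {V : Type} [Fintype V] (σ : Fin (2 * g) → Equiv.Perm V)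
    (F : Finset (Fin 2 × V)) (Y : Type) where
  M : Net (Nd g V) Y
  inv_eq : M.inv = dinv hg σ
  F_eq : M.F = FD hg σ F
  AC : M.AC
  cutP : V → Prop
  cut_iff : ∀ z, M.cut z ↔ cutP z.1
  Sp : V → Set Y
  Sp_fin : ∀ x, (Sp x).Finite
  word_Sp : ∀ e y, y ∈ M.word e → y ∈ Sp e.1.1
  F0 : Dart (Nd g V) → Prop
  F0_F : ∀ e, F0 e → M.F e
  F0_nil : ∀ e, F0 e → M.word e = []
  F0_inv : ∀ e, F0 (M.inv e) ↔ F0 e
  t1 : ℕ
  t2 : ℕ
  ht1 : 1 ≤ t1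
  ht12 : t1 ≤ t2
  uncut_lt : ∀ x, ¬ cutP x → (Sp x).ncard < t2
  Ap : ℝ
  w1 : ℝ
  w2 : ℝ
  w4 : ℝ
  w5 : ℝ
  nonneg : 0 ≤ Ap ∧ 0 ≤ w1 ∧ 0 ≤ w2 ∧ 0 ≤ w4 ∧ 0 ≤ w5
  n1 : ∑ x, ((Sp x).ncard : ℝ) ≤ Ap * Fintype.card V
  n2 : (t1 : ℝ) * {x | t1 ≤ (Sp x).ncard}.ncard ≤ w1 * Fintype.card V
  n3 : (t2 : ℝ) * {x | cutP x}.ncard ≤ w2 * Fintype.card V
  n4 : ({e | M.F e ∧ ¬ F0 e}.ncard : ℝ) ≤ w4 * Fintype.card V
  n5 : (∑ e : Dart (Nd g V), if M.F e ∧ ¬ F0 e ∧ ¬ M.cut e.1 then ({y | y ∈ M.word e}.ncard : ℝ) else 0) ≤ w5 * Fintype.card V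

namespace ZCtx

variable {g : ℕ} {hg : 2 ≤ g} {V : Type} [Fintype V] {σ : Fin (2 * g) → Equiv.Perm V} {F : Finset (Fin 2 × V)} {Y : Type}

/-- Labelled polygons. -/
def labP (Z : ZCtx hg σ F Y) (x : V) : Prop := ¬ Z.cutP x ∧ (Z.Sp x).ncard < Z.t1

/-- Labelled darts, for a colouring `col`. -/
def El (Z : ZCtx hg σ F Y) (col : Y → Nd g V → ℕ) (e : Dart (Nd g V)) : Prop :=
  Z.labP e.1.1 ∧ (Z.M.F e ∨ (Z.labP (Z.M.inv e).1.1 ∧ ∀ y ∈ Z.M.word e, col y e.1 = col y (Z.M.inv e).1))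

/-- Regular polygons: all darts are labelled. -/
def reg (Z : ZCtx hg σ F Y) (col : Y → Nd g V → ℕ) (x : V) : Prop := ∀ k j, Z.El col ((x, k), j)

/-- Special darts: next to a polygon which is not regular, or nontrivial `F`-darts. -/
def spec (Z : ZCtx hg σ F Y) (col : Y → Nd g V → ℕ) (e : Dart (Nd g V)) : Prop :=
  ¬ Z.reg col e.1.1 ∨ ¬ Z.reg col (Z.M.inv e).1.1 ∨ (Z.M.F e ∧ ¬ Z.F0 e)

open Classical in
/-- The weights: `Lam` on special darts, `1` elsewhere. -/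
noncomputable def lam (Z : ZCtx hg σ F Y) (col : Y → Nd g V → ℕ) (Lam : ℝ) (e : Dart (Nd g V)) : ℝ :=
  if Z.spec col e then Lam else 1

end ZCtx

end H98T
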