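import Mathlib
import Pool.Agent.Lib.H98T.ZDefs

set_option autoImplicit false

/-!
# H98T.Z02: labelled darts
-/

namespace H98T

open Finset

variable {g : ℕ} {hg : 2 ≤ g} {V : Type} [Fintype V] {σ : Fin (2 * g) → Equiv.Perm V} {F : Finset (Fin 2 × V)} {Y : Type}

theorem z02_spec_inv (Z : ZCtx hg σ F Y) (col : Y → Nd g V → ℕ) (e : Dart (Nd g V)) :
    Z.spec col (Z.M.inv e) ↔ Z.spec col e := by
  unfold ZCtx.spec
  rw [Z.M.inv_inv, Z.M.F_inv, Z.F0_inv]
  tauto

/-- Z02a. Chunk Z02 (size M). The labelled darts form an admissible set.  `uncut`: labelled polygons are uncut.  `supp`: the letters of `e` are in `Sp e.1.1`, fewer than `t1`.  `inv`: `word_inv`, `inv_inv`, `F_inv`.  `pass`: by definition. -/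
theorem ZCtx.labOK (Z : ZCtx hg σ F Y) (col : Y → Nd g V → ℕ) : Z.M.LabOK col (Z.El col) Z.t1 := by
  refine ⟨?_, ?_, ?_, ?_⟩
  · intro e he hc
    exact he.1.1 ((Z.cut_iff e.1).mp hc)
  · intro e he
    have h1 : Set.ncard {y | y ∈ Z.M.word e} ≤ (Z.Sp e.1.1).ncard :=
      Set.ncard_le_ncard (fun y hy => Z.word_Sp e y hy) (Z.Sp_fin e.1.1)
    exact h1.trans he.1.2.le
  · intro e he hF
    rcases he.2 with h | ⟨h1, h2⟩
    · exact absurd h hF
    · refine ⟨h1, Or.inr ⟨?_, ?_⟩⟩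
      · rw [Z.M.inv_inv]
        exact he.1
      · intro y hy
        rw [Z.M.inv_inv]
        rw [Z.M.word_inv, List.mem_reverse] at hy
        exact (h2 y hy).symm
  · intro e he hF y hy
    rcases he.2 with h | ⟨h1, h2⟩
    · exact absurd h hF
    · exact ⟨hy, hF, fun hc => he.1.1 ((Z.cut_iff e.1).mp hc), fun hc => h1.1 ((Z.cut_iff _).mp hc), h2 y hy⟩

/-- Z02b. Chunk Z02 (size S). The weights are symmetric, at least `1` and at most `Lam`. -/
theorem ZCtx.lam_props (Z : ZCtx hg σ F Y) (col : Y → Nd g V → ℕ) (Lam : ℝ) (h : 1 ≤ Lam) :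
    (∀ e, 1 ≤ Z.lam col Lam e) ∧ (∀ e, Z.lam col Lam (Z.M.inv e) = Z.lam col Lam e) ∧ ∀ e, Z.lam col Lam e ≤ Lam := by
  classical
  refine ⟨?_, ?_, ?_⟩
  · intro e
    unfold ZCtx.lam
    split_ifs
    · exact h
    · exact le_rfl
  · intro e
    unfold ZCtx.lam
    simp only [z02_spec_inv]
  · intro e
    unfold ZCtx.lam
    split_ifs
    · exact le_rfl
    · exact h

end H98T
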