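import Mathlib
import Pool.Agent.Lib.H98T.ZDefs

set_option autoImplicit false

/-!
# H98T.Z03: the number of pairs (letter, node)
-/

namespace H98T

open Finset

variable {g : ℕ} {hg : 2 ≤ g} {V : Type} [Fintype V] {σ : Fin (2 * g) → Equiv.Perm V} {F : Finset (Fin 2 × V)} {Y : Type}

/-- Z03. Chunk Z03 (size S/M). `nz ≤ 4 g Ap d`: the pairs `(y, (x, k))` with `y ∈ Sp x`, at most `4g - 2` values of `k`. -/
theorem ZCtx.nz_le (Z : ZCtx hg σ F Y) : (Z.M.nz : ℝ) ≤ 4 * g * Z.Ap * Fintype.card V := by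
  classical
  have h1 : Z.M.nz ≤ ∑ z : Nd g V, (Z.Sp z.1).ncard := by
    unfold Net.nz
    have h2 : {p : Y × Nd g V | ¬ Z.M.cut p.2 ∧ ∃ j, p.1 ∈ Z.M.word (p.2, j)} ⊆
        (((univ : Finset (Nd g V)).biUnion (fun z => (Z.Sp_fin z.1).toFinset ×ˢ ({z} : Finset (Nd g V))) :
          Finset (Y × Nd g V)) : Set (Y × Nd g V)) := by
      rintro ⟨y, z⟩ ⟨_, j, hj⟩
      rw [mem_coe, mem_biUnion]
      refine ⟨z, mem_univ _, ?_⟩
      rw [mem_product, mem_singleton]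
      exact ⟨(Z.Sp_fin z.1).mem_toFinset.mpr (Z.word_Sp (z, j) y hj), rfl⟩
    refine (Set.ncard_le_ncard h2 (Finset.finite_toSet _)).trans ?_
    rw [Set.ncard_coe_finset]
    refine card_biUnion_le.trans (le_of_eq ?_)
    refine sum_congr rfl fun z _ => ?_
    rw [card_product, card_singleton, mul_one, Set.ncard_eq_toFinset_card _ (Z.Sp_fin z.1)]
  have h3 : ∑ z : Nd g V, (Z.Sp z.1).ncard = (4 * g - 2) * ∑ x, (Z.Sp x).ncard := by
    rw [Fintype.sum_prod_type, mul_sum]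
    refine sum_congr rfl fun x _ => ?_
    change ∑ _y : Fin (4 * g - 2), (Z.Sp x).ncard = _
    rw [sum_const, card_univ, Fintype.card_fin, smul_eq_mul]
  rw [h3] at h1
  have h4 : (Z.M.nz : ℝ) ≤ ((4 * g - 2 : ℕ) : ℝ) * ∑ x, ((Z.Sp x).ncard : ℝ) := by
    exact_mod_cast h1
  have h5 : ((4 * g - 2 : ℕ) : ℝ) ≤ 4 * g := by
    have : 4 * g - 2 ≤ 4 * g := Nat.sub_le _ _
    exact_mod_cast this
  have h6 := Z.n1
  have h7 : 0 ≤ ∑ x, ((Z.Sp x).ncard : ℝ) := sum_nonneg fun x _ => Nat.cast_nonneg _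
  calc (Z.M.nz : ℝ) ≤ ((4 * g - 2 : ℕ) : ℝ) * ∑ x, ((Z.Sp x).ncard : ℝ) := h4
    _ ≤ (4 * g) * ∑ x, ((Z.Sp x).ncard : ℝ) := mul_le_mul_of_nonneg_right h5 h7
    _ ≤ (4 * g) * (Z.Ap * Fintype.card V) := mul_le_mul_of_nonneg_left h6 (by positivity)
    _ = 4 * g * Z.Ap * Fintype.card V := by ring

end H98T
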