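import Pool.Agent.Lib.H98T.Defs

/-!
# H98T, module F (random forest): definitions

`ρ : Fin 2 → Equiv.Perm V` is a pair of permutations; words are lists over `Fin 2`; the word `w`
leads from `v` BACKWARDS to `act ρ v w`.  `m : V → Fin q` are the marks, `v` is marked iff
`m v = 0`.
-/

namespace H98T

open Finset

variable {V : Type*}

/-- Backward action of words: `act v (i :: w) = act (ρ i ⁻¹ v) w`. -/
def act (ρ : Fin 2 → Equiv.Perm V) : V → List (Fin 2) → V
  | v, [] => v
  | v, i :: w => act ρ ((ρ i)⁻¹ v) w

@[simp] theorem act_nil (ρ : Fin 2 → Equiv.Perm V) (v : V) : act ρ v [] = v := rfl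

@[simp] theorem act_cons (ρ : Fin 2 → Equiv.Perm V) (v : V) (i : Fin 2) (w : List (Fin 2)) :
    act ρ v (i :: w) = act ρ ((ρ i)⁻¹ v) w := rfl

/-- The words of length at most `r`. -/
def words : ℕ → Finset (List (Fin 2))
  | 0 => {[]}
  | r + 1 => insert [] ((words r).image (List.cons 0) ∪ (words r).image (List.cons 1))

/-- The number with binary digits `1 w`: words of smaller length have smaller code, words of the
same length are ordered lexicographically. -/
def code : List (Fin 2) → ℕ
  | [] => 1
  | i :: w => code w + (1 + i.val) * 2 ^ w.length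

/-- `v` is good: the words of length `≤ r + 1` lead to different vertices. -/
def Good (ρ : Fin 2 → Equiv.Perm V) (r : ℕ) (v : V) : Prop :=
  ∀ w w' : List (Fin 2), w.length ≤ r + 1 → w'.length ≤ r + 1 → act ρ v w = act ρ v w' → w = w'

/-- `w` is the first word (for the order of `code`) of length `≤ r` with the property `P`. -/
def IsFirst (r : ℕ) (P : List (Fin 2) → Prop) (w : List (Fin 2)) : Prop :=
  w.length ≤ r ∧ P w ∧ ∀ u : List (Fin 2), u.length ≤ r → P u → code w ≤ code u

open Classical in
/-- The first word of length `≤ r` with the property `P`, the empty word if there is none. -/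
noncomputable def fw (r : ℕ) (P : List (Fin 2) → Prop) : List (Fin 2) :=
  if h : ∃ w, IsFirst r P w then h.choose else []

/-- The first marked word at `v`. -/
noncomputable def fwm {q : ℕ} [NeZero q] (ρ : Fin 2 → Equiv.Perm V) (r : ℕ) (m : V → Fin q)
    (v : V) : List (Fin 2) :=
  fw r (fun w => m (act ρ v w) = 0)

/-- `v` is a root: not good, or marked, or no marked vertex behind it. -/
def rootm {q : ℕ} [NeZero q] (ρ : Fin 2 → Equiv.Perm V) (r : ℕ) (m : V → Fin q) (v : V) : Prop :=
  ¬ Good ρ r v ∨ fwm ρ r m v = []

open Classical in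
/-- The kind of the pointer of `v`: `0` at roots, the first letter of the first marked word else. -/
noncomputable def kindm {q : ℕ} [NeZero q] (ρ : Fin 2 → Equiv.Perm V) (r : ℕ) (m : V → Fin q)
    (v : V) : Fin 2 :=
  if rootm ρ r m v then 0 else (fwm ρ r m v).headI

/-- The vertex to which `v` points. -/
noncomputable def nextm {q : ℕ} [NeZero q] (ρ : Fin 2 → Equiv.Perm V) (r : ℕ) (m : V → Fin q)
    (v : V) : V :=
  (ρ (kindm ρ r m v))⁻¹ v

/-- `v` is unlucky (used for good `v`): no marked vertex behind it. -/
def Unlucky {q : ℕ} [NeZero q] (ρ : Fin 2 → Equiv.Perm V) (r : ℕ) (m : V → Fin q) (v : V) : Prop :=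
  ∀ w : List (Fin 2), w.length ≤ r → m (act ρ v w) ≠ 0

/-- A pointer forest: roots, kinds of pointers, heights. -/
structure PForest (ρ : Fin 2 → Equiv.Perm V) where
  /-- the roots -/
  root : V → Prop
  /-- the kind of the pointer edge of `v` -/
  kind : V → Fin 2
  /-- number of steps from `v` to its root -/
  ht : V → ℕ
  kind_root : ∀ v, root v → kind v = 0
  root_iff : ∀ v, root v ↔ ht v = 0
  ht_next : ∀ v, ¬ root v → ht ((ρ (kind v))⁻¹ v) + 1 = ht v

namespace PForest

variable {ρ : Fin 2 → Equiv.Perm V} (P : PForest ρ)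

/-- The vertex to which `v` points. -/
def next (v : V) : V := (ρ (P.kind v))⁻¹ v

/-- The pointer edge of `v`: kind and start vertex; its end is `v`. -/
def ptr (v : V) : Fin 2 × V := (P.kind v, P.next v)

/-- The path `v, next v, …` to the root of `v`. -/
def path [DecidableEq V] (v : V) : Finset V :=
  (Finset.range (P.ht v + 1)).image (fun j => P.next^[j] v)

end PForest

end H98T
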