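import Mathlib
import Pool.Agent.Lib.H98T.Enc
import Pool.Agent.Lib.H98T.GDefs
import Pool.Agent.Lib.H98T.FDefs

set_option autoImplicit false

/-!
# H98T, section 8 (gauge and trivalent net of a covering): definitions

`cor σ x t`: the corner number `t` (mod `4g`) of the polygon `x`.  `P : PForest (two σ)` a pointer forest, `P.rt v` the root of `v`.
`gau hg w P v`: the product of the words `w` of the pointer edges on the path from the root of `v` to `v` (the gauge `G_v` of `PROOF.md`);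
`gw hg w P k v = G_v * w k v * (G_(σ k v))⁻¹`: the gauged words.
`ds`: the words of the sides `6, 7, 8, …` (mod `4g`) of a polygon; `pp`: their partial products; `wdart`: the words of the darts; `sv`: the start vertices of the darts.
`GS P S x`: the union of `S x` and of the sets `S v`, `S ((σ 0)⁻¹ v)` for all `v` on the paths of the corners of `x`.
-/

namespace H98T

open Finset

variable {V : Type*}

/-- The corner number `t` (mod `4g`) of the polygon `x`. -/
def cor {g : ℕ} (σ : Fin (2 * g) → Equiv.Perm V) (x : V) (t : ℕ) : V := u σ (t % (4 * g)) x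

/-- The generator number `i`, `i = 0, 1`. -/
def kin {g : ℕ} (hg : 2 ≤ g) (i : Fin 2) : Fin (2 * g) := ⟨i.val, by have := i.isLt; omega⟩

/-- The root of `v`. -/
def PForest.rt {ρ : Fin 2 → Equiv.Perm V} (P : PForest ρ) (v : V) : V := P.next^[P.ht v] v

/-- The product of the words of the pointer edges of `v, next v, …` (`h` steps), from the far end to `v`. -/
def Gn {g : ℕ} (hg : 2 ≤ g) {Y : Type*} (w : Fin (2 * g) → V → FreeGroup Y) {ρ : Fin 2 → Equiv.Perm V} (P : PForest ρ) : ℕ → V → FreeGroup Y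
  | 0, _ => 1
  | h + 1, v => Gn hg w P h (P.next v) * w (kin hg (P.kind v)) (P.next v)

/-- The gauge `G_v`. -/
def gau {g : ℕ} (hg : 2 ≤ g) {Y : Type*} (w : Fin (2 * g) → V → FreeGroup Y) {ρ : Fin 2 → Equiv.Perm V} (P : PForest ρ) (v : V) : FreeGroup Y :=
  Gn hg w P (P.ht v) v

/-- The gauged words. -/
def gw {g : ℕ} (hg : 2 ≤ g) {Y : Type*} (σ : Fin (2 * g) → Equiv.Perm V) (w : Fin (2 * g) → V → FreeGroup Y) {ρ : Fin 2 → Equiv.Perm V} (P : PForest ρ)
    (k : Fin (2 * g)) (v : V) : FreeGroup Y :=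
  gau hg w P v * w k v * (gau hg w P (σ k v))⁻¹

/-- The word of the side number `6 + t` (mod `4g`) of the polygon `x`. -/
noncomputable def ds {g : ℕ} (hg : 2 ≤ g) {Y : Type*} (σ : Fin (2 * g) → Equiv.Perm V) (w : Fin (2 * g) → V → FreeGroup Y) (x : V) (t : ℕ) : FreeGroup Y :=
  sidew σ w x ⟨(6 + t) % (4 * g), Nat.mod_lt _ (by omega)⟩

/-- The word of the boundary path of the polygon `x` from the corner `6` to the corner `6 + t`. -/
noncomputable def pp {g : ℕ} (hg : 2 ≤ g) {Y : Type*} (σ : Fin (2 * g) → Equiv.Perm V) (w : Fin (2 * g) → V → FreeGroup Y) (x : V) : ℕ → FreeGroup Y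
  | 0 => 1
  | t + 1 => pp hg σ w x t * ds hg σ w x t

/-- The word of a dart. -/
noncomputable def wdart {g : ℕ} {V : Type} (hg : 2 ≤ g) {Y : Type*} (σ : Fin (2 * g) → Equiv.Perm V) (w : Fin (2 * g) → V → FreeGroup Y) (e : Dart (Nd g V)) :
    FreeGroup Y :=
  if e.2 = 0 then pp hg σ w e.1.1 (e.1.2.val + 1)
  else if e.2 = 1 then ds hg σ w e.1.1 (e.1.2.val + 1)
  else if e.1.2.val = 4 * g - 3 then ds hg σ w e.1.1 (4 * g - 1)
  else (pp hg σ w e.1.1 (e.1.2.val + 2))⁻¹

/-- The start vertex of a dart: corner `6`, `7 + k`, `8 + k` for the darts `((x, k), 0)`, `((x, k), 1)`, `((x, k), 2)`. -/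
def sv {g : ℕ} {V : Type} (σ : Fin (2 * g) → Equiv.Perm V) (e : Dart (Nd g V)) : V :=
  cor σ e.1.1 (if e.2 = 0 then 6 else if e.2 = 1 then 7 + e.1.2.val else 8 + e.1.2.val)

/-- `S x` together with the sets `S v`, `S ((σ 0)⁻¹ v)` for all vertices `v` on the paths of the corners of `x`. -/
def GS {g : ℕ} [DecidableEq V] (σ : Fin (2 * g) → Equiv.Perm V) (P : PForest (two σ)) {A : Type*} (S : V → Set A) (x : V) : Set A :=
  S x ∪ {y | ∃ s, s < 4 * g ∧ ∃ v ∈ P.path (u σ s x), y ∈ S v ∨ y ∈ S ((two σ 0)⁻¹ v)}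

open Classical in
/-- The vertices `v` with `a ∈ S v` or `a ∈ S ((σ 0)⁻¹ v)`. -/
noncomputable def visit {g : ℕ} [Fintype V] (σ : Fin (2 * g) → Equiv.Perm V) {A : Type*} (S : V → Set A) (a : A) : Finset V :=
  univ.filter (fun v => a ∈ S v ∨ a ∈ S ((two σ 0)⁻¹ v))

end H98T
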