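import Mathlib
import Pool.Agent.Lib.H98T.SDefs
import Pool.Agent.Lib.H98T.L02

set_option autoImplicit false

/-!
# H98T.S01: corners and sides of a polygon
-/

namespace H98T

open Finset

variable {V : Type*} {g : ℕ}

/-- S01a (S). `IsCov σ` is `u σ (4 g) = 1`. -/
theorem u_top (σ : Fin (2 * g) → Equiv.Perm V) (hcov : IsCov σ) (x : V) : u σ (4 * g) x = x := by
  unfold IsCov at hcov
  rw [hcov]
  rfl

/-- S01b (S). -/
theorem cor_fin (σ : Fin (2 * g) → Equiv.Perm V) (x : V) (s : Fin (4 * g)) : cor σ x s.val = u σ s.val x := by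
  unfold cor
  rw [Nat.mod_eq_of_lt s.isLt]

/-- S01c (S). The end of the side `t` (mod `4g`) is the corner `t + 1`: with `s = t % (4g)`, either `s + 1 < 4g` and `(t + 1) % (4g) = s + 1`, or `s + 1 = 4g` and `(t + 1) % (4g) = 0`, use `u_top`. -/
theorem cor_end (hg : 2 ≤ g) (σ : Fin (2 * g) → Equiv.Perm V) (hcov : IsCov σ) (x : V) (t : ℕ) :
    u σ (t % (4 * g) + 1) x = cor σ x (t + 1) := by
  unfold cor
  have h0 : 0 < 4 * g := by omega
  have h1 : t % (4 * g) < 4 * g := Nat.mod_lt _ h0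
  have h2 : (t + 1) % (4 * g) = (t % (4 * g) + 1) % (4 * g) := by
    rw [Nat.add_mod, Nat.mod_eq_of_lt (show 1 < 4 * g by omega)]
  rw [h2]
  rcases Nat.lt_or_ge (t % (4 * g) + 1) (4 * g) with h3 | h3
  · rw [Nat.mod_eq_of_lt h3]
  · have h4 : t % (4 * g) + 1 = 4 * g := by omega
    rw [h4, Nat.mod_self, u_top σ hcov]
    rfl

/-- S01d (S). -/
theorem two_eq (hg : 2 ≤ g) (σ : Fin (2 * g) → Equiv.Perm V) (i : Fin 2) : two σ i = σ (kin hg i) := by
  unfold two kin
  rw [dif_pos]

/-- S01e (S/M). The side word of the glued side is the inverse, for every family of words `w` (four cases; `u_iota`, `u_iota_succ`, `partner_pos_iff`, `gen_partner`). -/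
theorem sidew_iota {Y : Type*} (σ : Fin (2 * g) → Equiv.Perm V) (w : Fin (2 * g) → V → FreeGroup Y) (x : V) (s : Fin (4 * g)) :
    sidew σ w (iota σ (x, s)).1 (iota σ (x, s)).2 = (sidew σ w x s)⁻¹ := by
  have h1 := u_iota_succ σ (x, s)
  have h2 := u_iota σ (x, s)
  have h3 : (iota σ (x, s)).2 = partner s := rfl
  have h4 := partner_pos_iff s
  have h5 := gen_partner s
  simp only at h1 h2
  unfold sidew
  rw [h3]
  by_cases hs : s.val % 4 < 2
  · rw [if_neg (fun h => (h4.1 h) hs), if_pos hs, h5, h1]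
  · rw [if_pos (h4.2 hs), if_neg hs, h5, h2, inv_inv]

/-- S01f (S). For a side `s < 4` the side word is the word of the edge `(kin i, edgeV σ (x, s))`, `i = s % 2`, or its inverse. -/
theorem sidew_small (hg : 2 ≤ g) {Y : Type*} (σ : Fin (2 * g) → Equiv.Perm V) (w : Fin (2 * g) → V → FreeGroup Y) (x : V) (s : Fin (4 * g)) (hs : s.val < 4) (i : Fin 2)
    (hi : i.val = s.val % 2) :
    sidew σ w x s = w (kin hg i) (edgeV σ (x, s)) ∨ sidew σ w x s = (w (kin hg i) (edgeV σ (x, s)))⁻¹ := by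
  have h1 : gen s = kin hg i := by
    apply Fin.ext
    show 2 * (s.val / 4) + s.val % 2 = i.val
    omega
  unfold sidew edgeV
  simp only
  rw [h1]
  by_cases h2 : s.val % 4 < 2
  · rw [if_pos h2, if_pos h2]
    exact Or.inl rfl
  · rw [if_neg h2, if_neg h2]
    exact Or.inr rfl

end H98T
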