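import Mathlib
import Pool.Agent.Lib.H98T.S01

set_option autoImplicit false

/-!
# H98T.S04: the darts of the net, the inverse dart
-/

namespace H98T

open Finset

variable {V : Type} {g : ℕ}

/-- S04a (S/M). -/
theorem sideOf_dartOf (hg : 2 ≤ g) (s : Fin (4 * g)) : sideOf hg (dartOf hg s).1 (dartOf hg s).2 = some s := by
  have hs := s.isLt
  unfold dartOf
  by_cases h6 : s.val = 6
  · rw [dif_pos h6]
    unfold sideOf
    simp only [Fin.isValue, zero_ne_one, ↓reduceIte, true_and]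
    exact congrArg some (Fin.ext h6.symm)
  · rw [dif_neg h6]
    by_cases h5 : s.val = 5
    · rw [dif_pos h5]
      unfold sideOf
      have h1 : ¬ ((2 : Fin 3) = 1) := by decide
      have h2 : ¬ ((2 : Fin 3) = 0) := by decide
      simp only [h1, h2, ↓reduceIte, false_and, true_and, Option.some.injEq]
      exact Fin.ext h5.symm
    · rw [dif_neg h5]
      by_cases h7 : 7 ≤ s.val
      · rw [dif_pos h7]
        unfold sideOf
        simp only [↓reduceIte, Option.some.injEq]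
        apply Fin.ext
        show (7 + (s.val - 7)) % (4 * g) = s.val
        rw [show 7 + (s.val - 7) = s.val by omega, Nat.mod_eq_of_lt hs]
      · rw [dif_neg h7]
        unfold sideOf
        simp only [↓reduceIte, Option.some.injEq]
        apply Fin.ext
        show (7 + (s.val + 4 * g - 7)) % (4 * g) = s.val
        rw [show 7 + (s.val + 4 * g - 7) = s.val + 4 * g by omega, Nat.add_mod_right, Nat.mod_eq_of_lt hs]

theorem s04_sideOf_cases (hg : 2 ≤ g) (k : Fin (4 * g - 2)) (j : Fin 3) :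
    (j = 1 ∧ sideOf hg k j = some ⟨(7 + k.val) % (4 * g), Nat.mod_lt _ (by omega)⟩) ∨
    (j = 0 ∧ k.val = 0 ∧ sideOf hg k j = some ⟨6, by omega⟩) ∨
    (j = 2 ∧ k.val = 4 * g - 3 ∧ sideOf hg k j = some ⟨5, by omega⟩) ∨
    (j = 0 ∧ k.val ≠ 0 ∧ sideOf hg k j = none) ∨ (j = 2 ∧ k.val ≠ 4 * g - 3 ∧ sideOf hg k j = none) := by
  have h1 : ¬ ((2 : Fin 3) = 1) := by decide
  have h2 : ¬ ((2 : Fin 3) = 0) := by decide
  have h3 : ¬ ((0 : Fin 3) = 1) := by decide
  have h4 : ¬ ((0 : Fin 3) = 2) := by decide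
  fin_cases j
  · by_cases hk : k.val = 0
    · right; left
      refine ⟨rfl, hk, ?_⟩
      unfold sideOf
      simp [hk]
    · right; right; right; left
      refine ⟨rfl, hk, ?_⟩
      unfold sideOf
      simp [hk]
  · left
    exact ⟨rfl, by unfold sideOf; simp⟩
  · by_cases hk : k.val = 4 * g - 3
    · right; right; left
      refine ⟨rfl, hk, ?_⟩
      unfold sideOf
      simp [hk]
    · right; right; right; right
      refine ⟨rfl, hk, ?_⟩
      unfold sideOf
      simp [hk]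

/-- S04b (S/M). -/
theorem dartOf_sideOf (hg : 2 ≤ g) (k : Fin (4 * g - 2)) (j : Fin 3) (s : Fin (4 * g)) (h : sideOf hg k j = some s) : dartOf hg s = (k, j) := by
  have hk := k.isLt
  rcases s04_sideOf_cases hg k j with ⟨rfl, h1⟩ | ⟨rfl, h0, h1⟩ | ⟨rfl, h0, h1⟩ | ⟨rfl, h0, h1⟩ | ⟨rfl, h0, h1⟩
  · rw [h1, Option.some.injEq] at h
    subst h
    unfold dartOf
    simp only
    rcases Nat.lt_or_ge (7 + k.val) (4 * g) with h2 | h2
    · have h3 : (7 + k.val) % (4 * g) = 7 + k.val := Nat.mod_eq_of_lt h2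
      rw [dif_neg (by omega), dif_neg (by omega), dif_pos (by omega)]
      refine Prod.ext (Fin.ext ?_) rfl
      show (7 + k.val) % (4 * g) - 7 = k.val
      omega
    · have h3 : (7 + k.val) % (4 * g) = 7 + k.val - 4 * g := by
        rw [Nat.mod_eq_sub_mod h2, Nat.mod_eq_of_lt (by omega)]
      rw [dif_neg (by omega), dif_neg (by omega), dif_neg (by omega)]
      refine Prod.ext (Fin.ext ?_) rfl
      show (7 + k.val) % (4 * g) + 4 * g - 7 = k.val
      omega
  · rw [h1, Option.some.injEq] at h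
    subst h
    unfold dartOf
    rw [dif_pos rfl]
    refine Prod.ext (Fin.ext ?_) rfl
    exact h0.symm
  · rw [h1, Option.some.injEq] at h
    subst h
    unfold dartOf
    rw [dif_neg (by simp), dif_pos rfl]
    refine Prod.ext (Fin.ext ?_) rfl
    exact h0.symm
  · rw [h1] at h
    exact absurd h (by simp)
  · rw [h1] at h
    exact absurd h (by simp)

/-- S04c (S). The diagonals. -/
theorem sideOf_none (hg : 2 ≤ g) (k : Fin (4 * g - 2)) (j : Fin 3) :
    sideOf hg k j = none ↔ (j = 0 ∧ k.val ≠ 0) ∨ (j = 2 ∧ k.val ≠ 4 * g - 3) := by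
  rcases s04_sideOf_cases hg k j with ⟨rfl, h1⟩ | ⟨rfl, h0, h1⟩ | ⟨rfl, h0, h1⟩ | ⟨rfl, h0, h1⟩ | ⟨rfl, h0, h1⟩
  · rw [h1]; simp
  · rw [h1]; simp [h0]
  · rw [h1]; simp [h0]
  · rw [h1]; simp [h0]
  · rw [h1]; simp [h0]

/-- S04d (S). The inverse of a dart carrying a side. -/
theorem dinv_side (hg : 2 ≤ g) (σ : Fin (2 * g) → Equiv.Perm V) (e : Dart (Nd g V)) (s : Fin (4 * g)) (h : sideOf hg e.1.2 e.2 = some s) :
    dinv hg σ e = (((iota σ (e.1.1, s)).1, (dartOf hg (iota σ (e.1.1, s)).2).1), (dartOf hg (iota σ (e.1.1, s)).2).2) := by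
  unfold dinv
  rw [h]

/-- S04e (S). The inverse of a diagonal `((x, k), 0)`, `k ≥ 1`. -/
theorem dinv_zero (hg : 2 ≤ g) (σ : Fin (2 * g) → Equiv.Perm V) (x : V) (k : Fin (4 * g - 2)) (hk : k.val ≠ 0) :
    dinv hg σ ((x, k), 0) = ((x, ⟨k.val - 1, by have := k.isLt; omega⟩), 2) := by
  have h : sideOf hg k 0 = none := (sideOf_none hg k 0).2 (Or.inl ⟨rfl, hk⟩)
  unfold dinv
  simp only [h, ↓reduceIte]

/-- S04f (S). The inverse of a diagonal `((x, k), 2)`, `k < 4g - 3`. -/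
theorem dinv_two (hg : 2 ≤ g) (σ : Fin (2 * g) → Equiv.Perm V) (x : V) (k : Fin (4 * g - 2)) (hk : k.val ≠ 4 * g - 3) :
    dinv hg σ ((x, k), 2) = ((x, ⟨k.val + 1, by have := k.isLt; omega⟩), 0) := by
  have h : sideOf hg k 2 = none := (sideOf_none hg k 2).2 (Or.inr ⟨rfl, hk⟩)
  have h2 : ¬ ((2 : Fin 3) = 0) := by decide
  have hk' := k.isLt
  unfold dinv
  simp only [h, h2, ↓reduceIte]
  refine Prod.ext (Prod.ext rfl (Fin.ext ?_)) rfl
  show (k.val + 1) % (4 * g - 2) = k.val + 1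
  exact Nat.mod_eq_of_lt (by omega)

/-- S04g (M). `dinv` is an involution: sides by `iota_iota`, `sideOf_dartOf`, `dartOf_sideOf`; diagonals by `dinv_zero`, `dinv_two`. -/
theorem dinv_dinv (hg : 2 ≤ g) (σ : Fin (2 * g) → Equiv.Perm V) (e : Dart (Nd g V)) : dinv hg σ (dinv hg σ e) = e := by
  obtain ⟨⟨x, k⟩, j⟩ := e
  have hk := k.isLt
  rcases h : sideOf hg k j with _ | s
  · rcases (sideOf_none hg k j).1 h with ⟨rfl, h5⟩ | ⟨rfl, h5⟩
    · rw [dinv_zero hg σ x k h5, dinv_two hg σ x _ (by show k.val - 1 ≠ 4 * g - 3; omega)]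
      refine Prod.ext (Prod.ext rfl (Fin.ext ?_)) rfl
      show k.val - 1 + 1 = k.val
      omega
    · rw [dinv_two hg σ x k h5, dinv_zero hg σ x _ (by show k.val + 1 ≠ 0; omega)]
      refine Prod.ext (Prod.ext rfl (Fin.ext ?_)) rfl
      show k.val + 1 - 1 = k.val
      omega
  · rw [dinv_side hg σ ((x, k), j) s h]
    have h1 := sideOf_dartOf hg (iota σ (x, s)).2
    rw [dinv_side hg σ _ (iota σ (x, s)).2 h1]
    have h2 : iota σ ((iota σ (x, s)).1, (iota σ (x, s)).2) = (x, s) := iota_iota σ (x, s)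
    simp only [h2]
    rw [dartOf_sideOf hg k j s h]

/-- S04h (S/M). Without fixed points (sides: `partner_ne`; diagonals: the index `j` changes). -/
theorem dinv_ne (hg : 2 ≤ g) (σ : Fin (2 * g) → Equiv.Perm V) (e : Dart (Nd g V)) : dinv hg σ e ≠ e := by
  obtain ⟨⟨x, k⟩, j⟩ := e
  have h2 : ¬ ((2 : Fin 3) = 0) := by decide
  have h3 : ¬ ((0 : Fin 3) = 2) := by decide
  rcases h : sideOf hg k j with _ | s
  · rcases (sideOf_none hg k j).1 h with ⟨rfl, h5⟩ | ⟨rfl, h5⟩
    · rw [dinv_zero hg σ x k h5]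
      intro h6
      exact h2 (Prod.mk.inj h6).2
    · rw [dinv_two hg σ x k h5]
      intro h6
      exact h3 (Prod.mk.inj h6).2
  · rw [dinv_side hg σ ((x, k), j) s h]
    intro h6
    obtain ⟨h7, h8⟩ := Prod.mk.inj h6
    obtain ⟨_, h9⟩ := Prod.mk.inj h7
    have h10 := sideOf_dartOf hg (iota σ (x, s)).2
    simp only at h8 h9
    rw [h9, h8] at h10
    rw [h, Option.some.injEq] at h10
    exact partner_ne s h10.symm

/-- S04i (S/M). `dinv` respects the darts which carry edges of `F` (`Fside_iota`). -/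
theorem FD_dinv (hg : 2 ≤ g) (σ : Fin (2 * g) → Equiv.Perm V) (F : Finset (Fin 2 × V)) (e : Dart (Nd g V)) :
    FD hg σ F (dinv hg σ e) ↔ FD hg σ F e := by
  have key : ∀ e : Dart (Nd g V), FD hg σ F e → FD hg σ F (dinv hg σ e) := by
    intro e he
    obtain ⟨s, h1, h2⟩ := he
    rw [dinv_side hg σ e s h1]
    refine ⟨(iota σ (e.1.1, s)).2, sideOf_dartOf hg _, ?_⟩
    show Fside σ F ((iota σ (e.1.1, s)).1, (iota σ (e.1.1, s)).2)
    exact (Fside_iota σ F (e.1.1, s)).2 h2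
  constructor
  · intro h
    have h1 := key _ h
    rwa [dinv_dinv] at h1
  · exact key e

/-- S04j (S). Sides `0, 1, 2, 3` are carried by darts with `j = 1`, so every node has at most one dart carrying an edge of `F`. -/
theorem FD_one (hg : 2 ≤ g) (σ : Fin (2 * g) → Equiv.Perm V) (F : Finset (Fin 2 × V)) (e : Dart (Nd g V)) (h : FD hg σ F e) : e.2 = 1 := by
  obtain ⟨s, h1, i, h2, _, _⟩ := h
  rcases s04_sideOf_cases hg e.1.2 e.2 with ⟨h3, _⟩ | ⟨_, _, h4⟩ | ⟨_, _, h4⟩ | ⟨_, _, h4⟩ | ⟨_, _, h4⟩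
  · exact h3
  · rw [h4, Option.some.injEq] at h1
    subst h1
    simp at h2
  · rw [h4, Option.some.injEq] at h1
    subst h1
    simp at h2
  · rw [h4] at h1
    exact absurd h1 (by simp)
  · rw [h4] at h1
    exact absurd h1 (by simp)

end H98T
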