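import Mathlib
import Pool.Agent.Lib.H98T.ZDefs
import Pool.Agent.Lib.H98T.S04

set_option autoImplicit false

/-!
# H98T.Z05: the numbers of unlabelled and irregular polygons
-/

namespace H98T

open Finset

variable {g : ℕ} {hg : 2 ≤ g} {V : Type} [Fintype V] {σ : Fin (2 * g) → Equiv.Perm V} {F : Finset (Fin 2 × V)} {Y : Type}

/-- Z05a. Chunk Z05 (size S). `t1 #{not labelled} ≤ (w1 + w2) d` (a polygon which is not labelled has at least `t1` letters or is cut, `t1 ≤ t2`). -/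
theorem ZCtx.nonlab_le (Z : ZCtx hg σ F Y) : (Z.t1 : ℝ) * {x | ¬ Z.labP x}.ncard ≤ (Z.w1 + Z.w2) * Fintype.card V := by
  have h1 : {x | ¬ Z.labP x} ⊆ {x | Z.t1 ≤ (Z.Sp x).ncard} ∪ {x | Z.cutP x} := by
    intro x hx
    by_cases h : Z.cutP x
    · exact Or.inr h
    · left
      show Z.t1 ≤ (Z.Sp x).ncard
      by_contra h2
      exact hx ⟨h, not_le.1 h2⟩
  have h2 : ({x | ¬ Z.labP x}.ncard : ℝ) ≤ {x | Z.t1 ≤ (Z.Sp x).ncard}.ncard + {x | Z.cutP x}.ncard := by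
    exact_mod_cast le_trans (Set.ncard_le_ncard h1 (Set.toFinite _)) (Set.ncard_union_le _ _)
  have h3 : (0 : ℝ) ≤ Z.t1 := Nat.cast_nonneg _
  have h4 : (Z.t1 : ℝ) ≤ Z.t2 := by exact_mod_cast Z.ht12
  have h5 : (Z.t1 : ℝ) * {x | Z.cutP x}.ncard ≤ Z.t2 * {x | Z.cutP x}.ncard := mul_le_mul_of_nonneg_right h4 (Nat.cast_nonneg _)
  have h6 := Z.n2
  have h7 := Z.n3
  calc (Z.t1 : ℝ) * {x | ¬ Z.labP x}.ncard ≤ Z.t1 * ({x | Z.t1 ≤ (Z.Sp x).ncard}.ncard + {x | Z.cutP x}.ncard) :=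
        mul_le_mul_of_nonneg_left h2 h3
    _ = Z.t1 * {x | Z.t1 ≤ (Z.Sp x).ncard}.ncard + Z.t1 * {x | Z.cutP x}.ncard := by ring
    _ ≤ (Z.w1 + Z.w2) * Fintype.card V := by linarith

/-- A dart whose inverse lies at another polygon carries a side, and so does the inverse. -/
theorem z05_diag (hg : 2 ≤ g) (σ : Fin (2 * g) → Equiv.Perm V) (e : Dart (Nd g V)) (h : sideOf hg e.1.2 e.2 = none) :
    (dinv hg σ e).1.1 = e.1.1 := by
  unfold dinv
  rw [h]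
  simp only
  split_ifs <;> rfl

theorem z05_inv_side (hg : 2 ≤ g) (σ : Fin (2 * g) → Equiv.Perm V) (e : Dart (Nd g V)) (h : (dinv hg σ e).1.1 ≠ e.1.1) :
    sideOf hg (dinv hg σ e).1.2 (dinv hg σ e).2 ≠ none := by
  intro h1
  have h2 := z05_diag hg σ (dinv hg σ e) h1
  rw [dinv_dinv] at h2
  exact h h2.symm

/-- There are at most `4 g` side darts at each polygon. -/
theorem z05_sides (hg : 2 ≤ g) (p : V → Prop) :
    {e : Dart (Nd g V) | sideOf hg e.1.2 e.2 ≠ none ∧ p e.1.1}.ncard ≤ 4 * g * {x | p x}.ncard := by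
  have h1 : {e : Dart (Nd g V) | sideOf hg e.1.2 e.2 ≠ none ∧ p e.1.1} ⊆
      (fun c : V × Fin (4 * g) => (((c.1, (dartOf hg c.2).1), (dartOf hg c.2).2) : Dart (Nd g V))) '' ({x | p x} ×ˢ Set.univ) := by
    intro e he
    obtain ⟨h2, h3⟩ := he
    obtain ⟨s, hs⟩ := Option.ne_none_iff_exists'.1 h2
    refine ⟨(e.1.1, s), ⟨h3, Set.mem_univ _⟩, ?_⟩
    have h4 := dartOf_sideOf hg _ _ _ hs
    simp only
    rw [h4]
  refine le_trans (Set.ncard_le_ncard h1 (Set.toFinite _)) (le_trans (Set.ncard_image_le (Set.toFinite _)) ?_)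
  rw [Set.ncard_prod, Set.ncard_univ, Nat.card_eq_fintype_card, Fintype.card_fin, mul_comm]

theorem z05_ncut_fin (M : Net (Nd g V) Y) (col : Y → Nd g V → ℕ) :
    {p : Y × Dart (Nd g V) | ¬ M.cut p.2.1 ∧ ¬ M.cut (M.inv p.2).1 ∧ p.1 ∈ M.word p.2 ∧ ¬ M.F p.2 ∧ col p.1 p.2.1 ≠ col p.1 (M.inv p.2).1}.Finite := by
  classical
  refine Set.Finite.subset (Finset.finite_toSet ((univ : Finset (Dart (Nd g V))).biUnion (fun e => (M.word e).toFinset ×ˢ {e}))) ?_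
  rintro ⟨y, e⟩ ⟨_, _, h, _, _⟩
  rw [mem_coe, mem_biUnion]
  exact ⟨e, mem_univ _, mem_product.2 ⟨List.mem_toFinset.2 h, mem_singleton.2 rfl⟩⟩

/-- Z05b. Chunk Z05 (size M). Labelled polygons which are not regular: some dart `e` is not labelled; then `e` is not in `F` and either the polygon of `inv e` is not labelled (so `e` is a side dart; at most `4 g` side darts at
each unlabelled polygon), or there is a letter with different colours (`e.1`, `(inv e).1` are uncut: a pair counted in `ncut`). -/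
theorem ZCtx.special_le (Z : ZCtx hg σ F Y) (col : Y → Nd g V → ℕ) :
    {x | Z.labP x ∧ ¬ Z.reg col x}.ncard ≤ 4 * g * {x | ¬ Z.labP x}.ncard + Z.M.ncut col := by
  have h1 : {x | Z.labP x ∧ ¬ Z.reg col x} ⊆
      (fun e : Dart (Nd g V) => (Z.M.inv e).1.1) '' {e : Dart (Nd g V) | sideOf hg e.1.2 e.2 ≠ none ∧ ¬ Z.labP e.1.1} ∪
      (fun p : Y × Dart (Nd g V) => p.2.1.1) '' {p : Y × Dart (Nd g V) | ¬ Z.M.cut p.2.1 ∧ ¬ Z.M.cut (Z.M.inv p.2).1 ∧ p.1 ∈ Z.M.word p.2 ∧ ¬ Z.M.F p.2 ∧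
        col p.1 p.2.1 ≠ col p.1 (Z.M.inv p.2).1} := by
    rintro x ⟨hx, hr⟩
    unfold ZCtx.reg at hr
    push Not at hr
    obtain ⟨k, j, hkj⟩ := hr
    unfold ZCtx.El at hkj
    have h2 : ¬ (Z.M.F ((x, k), j) ∨ (Z.labP (Z.M.inv ((x, k), j)).1.1 ∧ ∀ y ∈ Z.M.word ((x, k), j), col y (x, k) = col y (Z.M.inv ((x, k), j)).1)) :=
      fun h => hkj ⟨hx, h⟩
    push Not at h2
    obtain ⟨hF, h3⟩ := h2
    by_cases h4 : Z.labP (Z.M.inv ((x, k), j)).1.1
    · right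
      obtain ⟨y, hy, hcol⟩ := h3 h4
      refine ⟨(y, ((x, k), j)), ⟨?_, ?_, hy, hF, hcol⟩, rfl⟩
      · intro hc
        exact hx.1 ((Z.cut_iff _).1 hc)
      · intro hc
        exact h4.1 ((Z.cut_iff _).1 hc)
    · left
      refine ⟨Z.M.inv ((x, k), j), ⟨?_, h4⟩, ?_⟩
      · rw [Z.inv_eq] at h4 ⊢
        apply z05_inv_side hg σ
        intro h5
        rw [h5] at h4
        exact h4 hx
      · simp only
        rw [Z.M.inv_inv]
  refine le_trans (Set.ncard_le_ncard h1 (Set.toFinite _)) (le_trans (Set.ncard_union_le _ _) (Nat.add_le_add ?_ ?_))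
  · exact le_trans (Set.ncard_image_le (Set.toFinite _)) (z05_sides hg (fun x => ¬ Z.labP x))
  · exact Set.ncard_image_le (z05_ncut_fin Z.M col)

end H98T
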