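import Mathlib
import Pool.Agent.Lib.H98T.ZDefs
import Pool.Agent.Lib.H98T.Z05

set_option autoImplicit false

/-!
# H98T.Z04: the number of dangling pairs
-/

namespace H98T

open Finset

variable {g : ℕ} {hg : 2 ≤ g} {V : Type} [Fintype V] {σ : Fin (2 * g) → Equiv.Perm V} {F : Finset (Fin 2 × V)} {Y : Type}

/-- Pairs (letter, dart of the set `p`), counted dart by dart. -/
theorem z04_pairs (S : Dart (Nd g V) → Set Y) (hS : ∀ e, (S e).Finite) (p : Dart (Nd g V) → Prop) [DecidablePred p] :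
    {q : Y × Dart (Nd g V) | p q.2 ∧ q.1 ∈ S q.2}.ncard ≤ ∑ e : Dart (Nd g V), if p e then (S e).ncard else 0 := by
  classical
  have h2 : {q : Y × Dart (Nd g V) | p q.2 ∧ q.1 ∈ S q.2} ⊆
      (((univ.filter (fun e => p e) : Finset (Dart (Nd g V))).biUnion (fun e => (hS e).toFinset ×ˢ ({e} : Finset (Dart (Nd g V)))) :
        Finset (Y × Dart (Nd g V))) : Set (Y × Dart (Nd g V))) := by
    rintro ⟨y, e⟩ ⟨h1, h2⟩
    rw [mem_coe, mem_biUnion]
    exact ⟨e, mem_filter.2 ⟨mem_univ _, h1⟩, mem_product.2 ⟨(hS e).mem_toFinset.2 h2, mem_singleton.2 rfl⟩⟩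
  refine (Set.ncard_le_ncard h2 (Finset.finite_toSet _)).trans ?_
  rw [Set.ncard_coe_finset]
  refine card_biUnion_le.trans (le_of_eq ?_)
  rw [Finset.sum_filter]
  refine sum_congr rfl fun e _ => ?_
  split_ifs
  · rw [card_product, card_singleton, mul_one, Set.ncard_eq_toFinset_card _ (hS e)]
  · rfl

/-- Z04. Chunk Z04 (size M). `dang ≤ w5 d + 4 g w2 d + ncut`.
A dangling pair `(y, e)`: `e.1` uncut, `y ∈ word e`, and `F e`, or `(inv e).1` cut, or different colours.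
* `F e`: `F0 e` is impossible (`word e = []`); so at most the sum in `n5`.
* not `F e`, `(inv e).1` cut: the polygon of `inv e` is cut, the polygon of `e` is not, so it has fewer than `t2` letters (`uncut_lt`, `word_Sp`) and `e` is a side dart; the darts `inv e` are side darts of cut polygons
(a diagonal dart has `(inv e).1.1 = e.1.1`): at most `4 g #cutP` of them (`n3`).
* else the pair is counted in `ncut`. -/
theorem ZCtx.dang_le (Z : ZCtx hg σ F Y) (col : Y → Nd g V → ℕ) :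
    (Z.M.dang col : ℝ) ≤ Z.w5 * Fintype.card V + 4 * g * Z.w2 * Fintype.card V + Z.M.ncut col := by
  classical
  have hwf : ∀ e : Dart (Nd g V), {y | y ∈ Z.M.word e}.Finite := fun e => (Z.M.word e).finite_toSet
  set D1 : Set (Y × Dart (Nd g V)) := {q | (Z.M.F q.2 ∧ ¬ Z.F0 q.2 ∧ ¬ Z.M.cut q.2.1) ∧ q.1 ∈ {y | y ∈ Z.M.word q.2}} with hD1
  set D2 : Set (Y × Dart (Nd g V)) := {q | (Z.M.cut (Z.M.inv q.2).1 ∧ ¬ Z.M.cut q.2.1) ∧ q.1 ∈ {y | y ∈ Z.M.word q.2}} with hD2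
  set D3 : Set (Y × Dart (Nd g V)) := {p : Y × Dart (Nd g V) | ¬ Z.M.cut p.2.1 ∧ ¬ Z.M.cut (Z.M.inv p.2).1 ∧ p.1 ∈ Z.M.word p.2 ∧ ¬ Z.M.F p.2 ∧
        col p.1 p.2.1 ≠ col p.1 (Z.M.inv p.2).1} with hD3
  have hall : ∀ q : Y × Dart (Nd g V), q.1 ∈ Z.M.word q.2 → q ∈ (((univ : Finset (Dart (Nd g V))).biUnion (fun e => (Z.M.word e).toFinset ×ˢ ({e} : Finset (Dart (Nd g V)))) :
        Finset (Y × Dart (Nd g V))) : Set (Y × Dart (Nd g V))) := by
    rintro ⟨y, e⟩ h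
    rw [mem_coe, mem_biUnion]
    exact ⟨e, mem_univ _, mem_product.2 ⟨List.mem_toFinset.2 h, mem_singleton.2 rfl⟩⟩
  have hD1f : D1.Finite := Set.Finite.subset (Finset.finite_toSet _) (fun q hq => hall q hq.2)
  have hD2f : D2.Finite := Set.Finite.subset (Finset.finite_toSet _) (fun q hq => hall q hq.2)
  have hD3f : D3.Finite := Set.Finite.subset (Finset.finite_toSet _) (fun q hq => hall q hq.2.2.1)
  have hsub : {p : Y × Dart (Nd g V) | ¬ Z.M.cut p.2.1 ∧ p.1 ∈ Z.M.word p.2 ∧ ¬ Z.M.Pass col p.1 p.2} ⊆ (D1 ∪ D2) ∪ D3 := by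
    rintro ⟨y, e⟩ ⟨h1, h2, h3⟩
    simp only at h1 h2 h3
    by_cases hF : Z.M.F e
    · left; left
      refine ⟨⟨hF, ?_, h1⟩, h2⟩
      intro h4
      have h5 := Z.F0_nil e h4
      rw [h5] at h2
      exact absurd h2 (by simp)
    · by_cases hc : Z.M.cut (Z.M.inv e).1
      · left; right
        exact ⟨⟨hc, h1⟩, h2⟩
      · right
        refine ⟨h1, hc, h2, hF, ?_⟩
        intro h4
        exact h3 ⟨h2, hF, h1, hc, h4⟩
  have hdang : Z.M.dang col ≤ D1.ncard + D2.ncard + D3.ncard := by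
    unfold Net.dang
    refine le_trans (Set.ncard_le_ncard hsub ((hD1f.union hD2f).union hD3f)) (le_trans (Set.ncard_union_le _ _) ?_)
    exact Nat.add_le_add_right (Set.ncard_union_le _ _) _
  have h1 : (D1.ncard : ℝ) ≤ Z.w5 * Fintype.card V := by
    refine le_trans ?_ Z.n5
    have h2 := z04_pairs (fun e => {y | y ∈ Z.M.word e}) hwf (fun e => Z.M.F e ∧ ¬ Z.F0 e ∧ ¬ Z.M.cut e.1)
    have h3 : (D1.ncard : ℝ) ≤ ((∑ e : Dart (Nd g V), if Z.M.F e ∧ ¬ Z.F0 e ∧ ¬ Z.M.cut e.1 then {y | y ∈ Z.M.word e}.ncard else 0 : ℕ) : ℝ) := by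
      exact_mod_cast h2
    refine le_trans h3 (le_of_eq ?_)
    push_cast
    rfl
  have h2 : (D2.ncard : ℝ) ≤ 4 * g * Z.w2 * Fintype.card V := by
    have h3 := z04_pairs (fun e => {y | y ∈ Z.M.word e}) hwf (fun e => Z.M.cut (Z.M.inv e).1 ∧ ¬ Z.M.cut e.1)
    have h4 : (∑ e : Dart (Nd g V), if Z.M.cut (Z.M.inv e).1 ∧ ¬ Z.M.cut e.1 then {y | y ∈ Z.M.word e}.ncard else 0) ≤
        ∑ e : Dart (Nd g V), if Z.M.cut (Z.M.inv e).1 ∧ ¬ Z.M.cut e.1 then Z.t2 else 0 := by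
      apply Finset.sum_le_sum
      intro e _
      split_ifs with h5
      · have h6 : ¬ Z.cutP e.1.1 := fun h => h5.2 ((Z.cut_iff _).2 h)
        exact le_trans (Set.ncard_le_ncard (fun y hy => Z.word_Sp e y hy) (Z.Sp_fin _)) (Z.uncut_lt _ h6).le
      · exact le_rfl
    have h5 : (univ.filter (fun e : Dart (Nd g V) => Z.M.cut (Z.M.inv e).1 ∧ ¬ Z.M.cut e.1)).card ≤ 4 * g * {x | Z.cutP x}.ncard := by
      refine le_trans ?_ (z05_sides hg Z.cutP)
      rw [← Set.ncard_coe_finset]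
      have h6 : ((univ.filter (fun e : Dart (Nd g V) => Z.M.cut (Z.M.inv e).1 ∧ ¬ Z.M.cut e.1) : Finset (Dart (Nd g V))) : Set (Dart (Nd g V))) ⊆
          Z.M.inv '' {e : Dart (Nd g V) | sideOf hg e.1.2 e.2 ≠ none ∧ Z.cutP e.1.1} := by
        intro e he
        rw [mem_coe, mem_filter] at he
        refine ⟨Z.M.inv e, ⟨?_, (Z.cut_iff _).1 he.2.1⟩, Z.M.inv_inv e⟩
        have h7 : Z.cutP (Z.M.inv e).1.1 := (Z.cut_iff _).1 he.2.1
        have h8 : ¬ Z.cutP e.1.1 := fun h => he.2.2 ((Z.cut_iff _).2 h)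
        rw [Z.inv_eq] at h7 ⊢
        apply z05_inv_side hg σ
        intro h9
        rw [h9] at h7
        exact h8 h7
      exact le_trans (Set.ncard_le_ncard h6 (Set.toFinite _)) (Set.ncard_image_le (Set.toFinite _))
    have h6 : D2.ncard ≤ Z.t2 * (4 * g * {x | Z.cutP x}.ncard) := by
      refine le_trans h3 (le_trans h4 ?_)
      rw [← Finset.sum_filter, Finset.sum_const, smul_eq_mul, mul_comm]
      exact Nat.mul_le_mul_left _ h5
    have h7 : (D2.ncard : ℝ) ≤ Z.t2 * (4 * g * {x | Z.cutP x}.ncard) := by exact_mod_cast h6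
    have h8 := Z.n3
    calc (D2.ncard : ℝ) ≤ Z.t2 * (4 * g * {x | Z.cutP x}.ncard) := h7
      _ = 4 * g * (Z.t2 * {x | Z.cutP x}.ncard) := by ring
      _ ≤ 4 * g * (Z.w2 * Fintype.card V) := mul_le_mul_of_nonneg_left h8 (by positivity)
      _ = 4 * g * Z.w2 * Fintype.card V := by ring
  have h3 : D3.ncard = Z.M.ncut col := rfl
  have h4 : (Z.M.dang col : ℝ) ≤ D1.ncard + D2.ncard + D3.ncard := by exact_mod_cast hdang
  rw [h3] at h4
  linarith

end H98T
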