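import Mathlib
import Pool.Agent.Lib.H98T.Z02
import Pool.Agent.Lib.H98T.Z05

set_option autoImplicit false

/-!
# H98T.Z06: the sum LS
-/

namespace H98T

open Finset

variable {g : ℕ} {hg : 2 ≤ g} {V : Type} [Fintype V] {σ : Fin (2 * g) → Equiv.Perm V} {F : Finset (Fin 2 × V)} {Y : Type}

/-- There are at most `12 g` darts at each polygon. -/
theorem z06_sum_pol (f : V → ℝ) (hf : ∀ x, 0 ≤ f x) : ∑ e : Dart (Nd g V), f e.1.1 ≤ 12 * g * ∑ x, f x := by
  have h1 : ∑ e : Dart (Nd g V), f e.1.1 = ((4 * g - 2 : ℕ) : ℝ) * 3 * ∑ x, f x := by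
    rw [Fintype.sum_prod_type, Fintype.sum_prod_type, mul_sum]
    refine sum_congr rfl fun x _ => ?_
    simp only [sum_const, card_univ, Fintype.card_fin, nsmul_eq_mul]
    push_cast
    ring
  have h2 : ((4 * g - 2 : ℕ) : ℝ) ≤ 4 * g := by
    have : 4 * g - 2 ≤ 4 * g := Nat.sub_le _ _
    exact_mod_cast this
  have h3 : 0 ≤ ∑ x, f x := sum_nonneg fun x _ => hf x
  rw [h1]
  nlinarith

theorem z06_sum_ind (p : V → Prop) [DecidablePred p] : ∑ e : Dart (Nd g V), (if p e.1.1 then (1 : ℝ) else 0) ≤ 12 * g * {x | p x}.ncard := by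
  have h1 := z06_sum_pol (g := g) (fun x => if p x then (1 : ℝ) else 0) (fun x => by split_ifs <;> norm_num)
  refine le_trans h1 (le_of_eq ?_)
  congr 1
  rw [Finset.sum_ite, Finset.sum_const_zero, add_zero, Finset.sum_const, nsmul_eq_mul, mul_one]
  have h2 : {x | p x} = ((univ.filter (fun x => p x) : Finset V) : Set V) := by
    ext x
    simp
  rw [h2, Set.ncard_coe_finset]

theorem z06_sum_inv (Z : ZCtx hg σ F Y) (f : Dart (Nd g V) → ℝ) : ∑ e, f (Z.M.inv e) = ∑ e, f e :=
  Equiv.sum_comp (Function.Involutive.toPerm Z.M.inv Z.M.inv_inv) f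

/-- Z06. Chunk Z06 (size M). Write `sp` for the number of labelled, not regular polygons and `nl` for the number of unlabelled ones.
`LS ≤ 12 g (1 + Ap) d + Lam (24 g (1 + t1) sp + 24 g (nl + sp) + (w4 + w5) d)`.
Proof: a labelled dart `e` contributes `lam e (1 + letters)`.  If `e` is not special: `1 + letters ≤ 1 + |Sp e.1.1|`; there are at most `12 g` darts per polygon.  If `e` is special: `Lam (1 + letters)`, and
(i) `F e`, not `F0 e`: sum `≤ (w4 + w5) d` (`n4`, `n5`; labelled darts are uncut);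
(ii) `F0 e`: no letters, `1`; the polygon of `e` or of `inv e` is not regular: at most `2 * 12 g (nl + sp)` darts;
(iii) not `F e`: both polygons are labelled and one of them is not regular: at most `2 * 12 g sp` darts, each with `1 + letters ≤ 1 + t1`. -/
theorem ZCtx.LS_le (Z : ZCtx hg σ F Y) (col : Y → Nd g V → ℕ) (Lam : ℝ) (h : 1 ≤ Lam) :
    Z.M.LS (Z.El col) (Z.lam col Lam) ≤ 12 * g * (1 + Z.Ap) * Fintype.card V +
      Lam * (24 * g * (1 + Z.t1) * {x | Z.labP x ∧ ¬ Z.reg col x}.ncard +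
        24 * g * ({x | ¬ Z.labP x}.ncard + {x | Z.labP x ∧ ¬ Z.reg col x}.ncard) + (Z.w4 + Z.w5) * Fintype.card V) := by
  classical
  set L : Dart (Nd g V) → ℝ := fun e => ({y | y ∈ Z.M.word e}.ncard : ℝ) with hL
  have hL0 : ∀ e, 0 ≤ L e := fun e => Nat.cast_nonneg _
  set A1 : Dart (Nd g V) → ℝ := fun e => 1 + ((Z.Sp e.1.1).ncard : ℝ) with hA1
  set A2 : Dart (Nd g V) → ℝ := fun e => if Z.M.F e ∧ ¬ Z.F0 e then (1 : ℝ) else 0 with hA2
  set A3 : Dart (Nd g V) → ℝ := fun e => if Z.M.F e ∧ ¬ Z.F0 e ∧ ¬ Z.M.cut e.1 then L e else 0 with hA3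
  set A4 : Dart (Nd g V) → ℝ := fun e => if ¬ Z.reg col e.1.1 then (1 : ℝ) else 0 with hA4
  set A5 : Dart (Nd g V) → ℝ := fun e => if Z.labP e.1.1 ∧ ¬ Z.reg col e.1.1 then (1 : ℝ) else 0 with hA5
  have ht1 : (0 : ℝ) ≤ Z.t1 := Nat.cast_nonneg _
  have hLSp : ∀ e, L e ≤ (Z.Sp e.1.1).ncard := by
    intro e
    have : {y | y ∈ Z.M.word e}.ncard ≤ (Z.Sp e.1.1).ncard := Set.ncard_le_ncard (fun y hy => Z.word_Sp e y hy) (Z.Sp_fin e.1.1)
    simp only [hL]
    exact_mod_cast this
  have hA1p : ∀ e, 0 ≤ A1 e := fun e => by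
    have : (0 : ℝ) ≤ ((Z.Sp e.1.1).ncard : ℝ) := Nat.cast_nonneg _
    simp only [hA1]; linarith
  have hA2p : ∀ e, 0 ≤ A2 e := fun e => by simp only [hA2]; split_ifs <;> norm_num
  have hA3p : ∀ e, 0 ≤ A3 e := fun e => by
    simp only [hA3]; split_ifs
    · exact hL0 e
    · exact le_rfl
  have hA4p : ∀ e, 0 ≤ A4 e := fun e => by simp only [hA4]; split_ifs <;> norm_num
  have hA5p : ∀ e, 0 ≤ A5 e := fun e => by simp only [hA5]; split_ifs <;> norm_num
  have hLam : 0 ≤ Lam := by linarith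
  have key : ∀ e : Dart (Nd g V), (if Z.El col e then Z.lam col Lam e * (1 + L e) else 0) ≤
      A1 e + Lam * (A2 e + A3 e + A4 e + A4 (Z.M.inv e) + (1 + Z.t1) * (A5 e + A5 (Z.M.inv e))) := by
    intro e
    have hR : 0 ≤ Lam * (A2 e + A3 e + A4 e + A4 (Z.M.inv e) + (1 + Z.t1) * (A5 e + A5 (Z.M.inv e))) := by
      have h1 := hA2p e
      have h2 := hA3p e
      have h3 := hA4p e
      have h4 := hA4p (Z.M.inv e)
      have h5 := hA5p e
      have h6 := hA5p (Z.M.inv e)
      positivity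
    by_cases hE : Z.El col e
    · rw [if_pos hE]
      by_cases hsp : Z.spec col e
      · have hlam : Z.lam col Lam e = Lam := by unfold ZCtx.lam; rw [if_pos hsp]
        rw [hlam]
        have hmain : 1 + L e ≤ A2 e + A3 e + A4 e + A4 (Z.M.inv e) + (1 + Z.t1) * (A5 e + A5 (Z.M.inv e)) := by
          have p2 := hA2p e
          have p3 := hA3p e
          have p4 := hA4p e
          have p4' := hA4p (Z.M.inv e)
          have p5 := hA5p e
          have p5' := hA5p (Z.M.inv e)
          have p6 : 0 ≤ (1 + (Z.t1 : ℝ)) * (A5 e + A5 (Z.M.inv e)) := by positivity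
          by_cases hF : Z.M.F e
          · by_cases hF0 : Z.F0 e
            · have hL1 : L e = 0 := by
                simp only [hL]
                rw [Z.F0_nil e hF0]
                simp
              rcases hsp with h1 | h1 | h1
              · have : A4 e = 1 := by simp only [hA4]; rw [if_pos h1]
                rw [hL1]; linarith
              · have : A4 (Z.M.inv e) = 1 := by simp only [hA4]; rw [if_pos h1]
                rw [hL1]; linarith
              · exact absurd hF0 h1.2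
            · have h1 : A2 e = 1 := by simp only [hA2]; rw [if_pos ⟨hF, hF0⟩]
              have hc : ¬ Z.M.cut e.1 := fun hc => hE.1.1 ((Z.cut_iff _).1 hc)
              have h2 : A3 e = L e := by simp only [hA3]; rw [if_pos ⟨hF, hF0, hc⟩]
              rw [h1, h2] at *
              linarith
          · rcases hE.2 with h1 | ⟨h1, _⟩
            · exact absurd h1 hF
            · have hLt : L e ≤ Z.t1 := by
                have h2 : ((Z.Sp e.1.1).ncard : ℝ) ≤ Z.t1 := by exact_mod_cast hE.1.2.le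
                exact le_trans (hLSp e) h2
              rcases hsp with h2 | h2 | h2
              · have h3 : A5 e = 1 := by simp only [hA5]; rw [if_pos ⟨hE.1, h2⟩]
                have h4 : (1 + (Z.t1 : ℝ)) * (A5 e + A5 (Z.M.inv e)) ≥ 1 + Z.t1 := by
                  rw [h3]; nlinarith
                linarith
              · have h3 : A5 (Z.M.inv e) = 1 := by simp only [hA5]; rw [if_pos ⟨h1, h2⟩]
                have h4 : (1 + (Z.t1 : ℝ)) * (A5 e + A5 (Z.M.inv e)) ≥ 1 + Z.t1 := by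
                  rw [h3]; nlinarith
                linarith
              · exact absurd h2.1 hF
        have h1 := mul_le_mul_of_nonneg_left hmain hLam
        have h2 := hA1p e
        linarith
      · have hlam : Z.lam col Lam e = 1 := by unfold ZCtx.lam; rw [if_neg hsp]
        rw [hlam, one_mul]
        have h1 := hLSp e
        simp only [hA1]
        linarith
    · rw [if_neg hE]
      have h2 := hA1p e
      linarith
  have hLS : Z.M.LS (Z.El col) (Z.lam col Lam) = ∑ e : Dart (Nd g V), (if Z.El col e then Z.lam col Lam e * (1 + L e) else 0) := by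
    unfold Net.LS
    refine sum_congr rfl fun e _ => ?_
    congr
  rw [hLS]
  refine le_trans (Finset.sum_le_sum (fun e _ => key e)) ?_
  rw [Finset.sum_add_distrib, ← Finset.mul_sum]
  have s1 : ∑ e, A1 e ≤ 12 * g * (1 + Z.Ap) * Fintype.card V := by
    have h1 := z06_sum_pol (g := g) (fun x => 1 + ((Z.Sp x).ncard : ℝ)) (fun x => by positivity)
    have h2 : ∑ x, (1 + ((Z.Sp x).ncard : ℝ)) ≤ (1 + Z.Ap) * Fintype.card V := by
      rw [Finset.sum_add_distrib, Finset.sum_const, card_univ, nsmul_eq_mul, mul_one]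
      have := Z.n1
      linarith
    have h3 : 12 * (g : ℝ) * ∑ x, (1 + ((Z.Sp x).ncard : ℝ)) ≤ 12 * g * ((1 + Z.Ap) * Fintype.card V) :=
      mul_le_mul_of_nonneg_left h2 (by positivity)
    linarith
  have s2 : ∑ e, A2 e ≤ Z.w4 * Fintype.card V := by
    refine le_trans (le_of_eq ?_) Z.n4
    simp only [hA2]
    rw [Finset.sum_ite, Finset.sum_const_zero, add_zero, Finset.sum_const, nsmul_eq_mul, mul_one]
    have h2 : {e | Z.M.F e ∧ ¬ Z.F0 e} = ((univ.filter (fun e => Z.M.F e ∧ ¬ Z.F0 e) : Finset (Dart (Nd g V))) : Set (Dart (Nd g V))) := by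
      ext x
      simp
    rw [h2, Set.ncard_coe_finset]
  have s3 : ∑ e, A3 e ≤ Z.w5 * Fintype.card V := by
    refine le_trans (le_of_eq ?_) Z.n5
    refine sum_congr rfl fun e _ => ?_
    simp only [hA3, hL]
  have s4 : ∑ e, A4 e ≤ 12 * g * ({x | ¬ Z.labP x}.ncard + {x | Z.labP x ∧ ¬ Z.reg col x}.ncard) := by
    refine le_trans (le_of_eq ?_) (le_trans (z06_sum_ind (g := g) (fun x => ¬ Z.reg col x)) ?_)
    · refine sum_congr rfl fun e _ => ?_
      simp only [hA4]
    · apply mul_le_mul_of_nonneg_left _ (by positivity)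
      have h2 : {x | ¬ Z.reg col x} ⊆ {x | ¬ Z.labP x} ∪ {x | Z.labP x ∧ ¬ Z.reg col x} := by
        intro x hx
        by_cases h3 : Z.labP x
        · exact Or.inr ⟨h3, hx⟩
        · exact Or.inl h3
      exact_mod_cast le_trans (Set.ncard_le_ncard h2 (Set.toFinite _)) (Set.ncard_union_le _ _)
  have s4' : ∑ e, A4 (Z.M.inv e) = ∑ e, A4 e := z06_sum_inv Z A4
  have s5 : ∑ e, A5 e ≤ 12 * g * {x | Z.labP x ∧ ¬ Z.reg col x}.ncard := by
    refine le_trans (le_of_eq ?_) (z06_sum_ind (g := g) (fun x => Z.labP x ∧ ¬ Z.reg col x))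
    refine sum_congr rfl fun e _ => ?_
    simp only [hA5]
  have s5' : ∑ e, A5 (Z.M.inv e) = ∑ e, A5 e := z06_sum_inv Z A5
  have s6 : ∑ e, (A2 e + A3 e + A4 e + A4 (Z.M.inv e) + (1 + (Z.t1 : ℝ)) * (A5 e + A5 (Z.M.inv e))) =
      ∑ e, A2 e + ∑ e, A3 e + ∑ e, A4 e + ∑ e, A4 e + (1 + (Z.t1 : ℝ)) * (∑ e, A5 e + ∑ e, A5 e) := by
    rw [Finset.sum_add_distrib, Finset.sum_add_distrib, Finset.sum_add_distrib, Finset.sum_add_distrib, ← Finset.mul_sum, Finset.sum_add_distrib, s4', s5']
  rw [s6]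
  apply add_le_add s1
  apply mul_le_mul_of_nonneg_left _ hLam
  have s7 : (1 + (Z.t1 : ℝ)) * (∑ e, A5 e + ∑ e, A5 e) ≤ (1 + (Z.t1 : ℝ)) * (24 * g * {x | Z.labP x ∧ ¬ Z.reg col x}.ncard) :=
    mul_le_mul_of_nonneg_left (by linarith) (by positivity)
  linarith

end H98T
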