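import Mathlib
import Pool.Agent.Lib.H98T.Z02
import Pool.Agent.Lib.H98T.Z03
import Pool.Agent.Lib.H98T.Z04
import Pool.Agent.Lib.H98T.Z05
import Pool.Agent.Lib.H98T.Z06
import Pool.Agent.Lib.H98T.WC2
import Pool.Agent.Lib.H98T.WD2
import Pool.Agent.Lib.H98T.WH6B

set_option autoImplicit false

/-!
# H98T.Z07: the choice of positions
-/

namespace H98T

open Finset

variable {g : ℕ} {hg : 2 ≤ g} {V : Type} [Fintype V] {σ : Fin (2 * g) → Equiv.Perm V} {F : Finset (Fin 2 × V)} {Y : Type}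

/-- The arithmetic of Z07. -/
theorem z07_arith {g b t1 Ap w1 w2 w4 w5 D nl sp nc X : ℝ} (hg : 2 ≤ g) (hb : 0 ≤ b) (ht1 : 1 ≤ t1) (hAp : 0 ≤ Ap) (hw1 : 0 ≤ w1) (hw2 : 0 ≤ w2)
    (hD : 0 < D) (hnl : 0 ≤ nl) (hsp : 0 ≤ sp) (hnc : nc ≤ 8 * g * Ap / (b + 1) * D)
    (h1 : t1 * nl ≤ (w1 + w2) * D) (h2 : sp ≤ 4 * g * nl + nc)
    (hX : 300 * g ^ 2 * (w1 + w2) + 480 * g ^ 2 * Ap * t1 / (b + 1) + 240 * g ^ 2 * Ap / (b + 1) + w4 + w5 ≤ X) :
    24 * g * (1 + t1) * sp + 24 * g * (nl + sp) + (w4 + w5) * D ≤ X * D := by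
  obtain ⟨a, ha⟩ : ∃ a, a = Ap / (b + 1) := ⟨_, rfl⟩
  have ha0 : 0 ≤ a := by rw [ha]; positivity
  have e1 : 8 * g * Ap / (b + 1) = 8 * g * a := by rw [ha]; ring
  have e2 : 480 * g ^ 2 * Ap * t1 / (b + 1) = 480 * g ^ 2 * t1 * a := by rw [ha]; ring
  have e3 : 240 * g ^ 2 * Ap / (b + 1) = 240 * g ^ 2 * a := by rw [ha]; ring
  rw [e1] at hnc
  rw [e2, e3] at hX
  have g0 : 0 < g := by linarith
  -- bounds for sp
  have hnl' : nl ≤ (w1 + w2) * D := le_trans (by nlinarith) h1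
  have hsp1 : sp ≤ 4 * g * ((w1 + w2) * D) + 8 * g * a * D := by
    have : 4 * g * nl ≤ 4 * g * ((w1 + w2) * D) := mul_le_mul_of_nonneg_left hnl' (by positivity)
    linarith
  have hsp2 : t1 * sp ≤ 4 * g * ((w1 + w2) * D) + 8 * g * a * D * t1 := by
    have h3 : t1 * sp ≤ t1 * (4 * g * nl + nc) := mul_le_mul_of_nonneg_left h2 (by linarith)
    have h4 : 4 * g * (t1 * nl) ≤ 4 * g * ((w1 + w2) * D) := mul_le_mul_of_nonneg_left h1 (by positivity)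
    have h5 : t1 * nc ≤ t1 * (8 * g * a * D) := mul_le_mul_of_nonneg_left hnc (by linarith)
    calc t1 * sp ≤ t1 * (4 * g * nl + nc) := h3
      _ = 4 * g * (t1 * nl) + t1 * nc := by ring
      _ ≤ 4 * g * ((w1 + w2) * D) + t1 * (8 * g * a * D) := by linarith
      _ = _ := by ring
  have k1 : 24 * g * (1 + t1) * sp ≤ 48 * g * (t1 * sp) := by
    have : (1 + t1) * sp ≤ 2 * (t1 * sp) := by nlinarith
    calc 24 * g * (1 + t1) * sp = 24 * g * ((1 + t1) * sp) := by ring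
      _ ≤ 24 * g * (2 * (t1 * sp)) := mul_le_mul_of_nonneg_left this (by positivity)
      _ = _ := by ring
  have k2 : 48 * g * (t1 * sp) ≤ 48 * g * (4 * g * ((w1 + w2) * D) + 8 * g * a * D * t1) := mul_le_mul_of_nonneg_left hsp2 (by positivity)
  have k3 : 24 * g * sp ≤ 24 * g * (4 * g * ((w1 + w2) * D) + 8 * g * a * D) := mul_le_mul_of_nonneg_left hsp1 (by positivity)
  have k4 : 24 * g * nl ≤ 24 * g * ((w1 + w2) * D) := mul_le_mul_of_nonneg_left hnl' (by positivity)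
  have hW : 0 ≤ (w1 + w2) * D := by positivity
  have k5 : 24 * g * ((w1 + w2) * D) ≤ 12 * g ^ 2 * ((w1 + w2) * D) := by
    apply mul_le_mul_of_nonneg_right _ hW
    nlinarith
  have k6 : 0 ≤ g ^ 2 * (a * D * t1) := by positivity
  have k7 : 0 ≤ g ^ 2 * (a * D) := by positivity
  have hXD : (300 * g ^ 2 * (w1 + w2) + 480 * g ^ 2 * t1 * a + 240 * g ^ 2 * a + w4 + w5) * D ≤ X * D := mul_le_mul_of_nonneg_right hX hD.le
  refine le_trans ?_ hXD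
  nlinarith

open Classical in
/-- Z07. Chunk Z07 (size M/L). THE CHOICE OF POSITIONS.  `b` is the parameter of the colouring, `D = card V`.
Proof.  `exists_col` gives `col` with classes `≤ B = 3 b + 1` and `(b+1) ncut ≤ 2 nz ≤ 8 g Ap D` (`nz_le`).  So `ncut ≤ 8 g Ap D/(b+1)`, `dang ≤ eps D` with `eps = w5 + 4 g w2 + 8 g Ap/(b+1)` (`dang_le`), `nst ≤ 3 eps D`
(`nst_le`).  `all_rounds` with `D0 = D`, `El`, `lam`: `8 nst log T ≤ 24 eps D log T ≤ th/4 D`; `8 nst Lam ≤ D`; number of nodes `(4g-2) D`.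
`X` bounds `(24 g (1 + t1) sp + 24 g (nl + sp) + (w4 + w5) D)/D`: `nl ≤ (w1+w2) D/t1`, `sp ≤ 4 g (w1 + w2) D/t1 + 8 g Ap D/(b+1)`, `1 + t1 ≤ 2 t1`.
`LL ≤ 3 (LS + D) ≤ 3 (12 g (1 + Ap) + 2) D` as `Lam X ≤ 1`.  The unweighted sum is at most `LL`; the sum over the special labelled darts is at most `LL / Lam`. -/
theorem ZCtx.positions (Z : ZCtx hg σ F Y) (hV : 0 < Fintype.card V) (b : ℕ) (Lam T th eps X : ℝ) (I : ℕ) (hL : 1 ≤ Lam) (hth : 0 < th) (hthL : th * Lam ≤ 1) (hT1 : 1 ≤ T)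
    (heps : Z.w5 + 4 * g * Z.w2 + 8 * g * Z.Ap / (b + 1) ≤ eps)
    (hT : 3 * (3 * b + 1) * Lam * (2 * (1 + Z.t1 + 6 * (3 * b + 1) * Z.t1)) ≤ T)
    (hn1 : 24 * eps * Real.log T ≤ th / 4) (hn2 : 24 * eps * Lam ≤ 1)
    (hI : 12 * g * Lam * (1 + Z.t1 + 6 * (3 * b + 1) * Z.t1) ≤ 4 ^ I)
    (hX : 300 * g ^ 2 * (Z.w1 + Z.w2) + 480 * g ^ 2 * Z.Ap * Z.t1 / (b + 1) + 240 * g ^ 2 * Z.Ap / (b + 1) + Z.w4 + Z.w5 ≤ X)
    (hLX : Lam * X ≤ 1) :
    ∃ (col : Y → Nd g V → ℕ) (P : Dart (Nd g V) → Finset ℕ),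
      Z.M.Good col (Z.El col) P ∧ (∀ e, (P e).card ≤ 1 + Z.t1 + 6 * (3 * b + 1) * Z.t1) ∧
      (Z.M.Mis (Z.El col) P : ℝ) ≤ 2 * th * I * Fintype.card V ∧
      (∑ e : Dart (Nd g V), ((P e).card : ℝ)) ≤ (36 * g * (1 + Z.Ap) + 6) * Fintype.card V ∧
      Lam * (∑ e : Dart (Nd g V), if Z.spec col e then ((P e).card : ℝ) else 0) ≤ (36 * g * (1 + Z.Ap) + 6) * Fintype.card V ∧
      ({x | ¬ Z.reg col x}.ncard : ℝ) ≤ X * Fintype.card V := by
  obtain ⟨hAp, hw1, hw2, hw4, hw5⟩ := Z.nonneg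
  have hgR : (2 : ℝ) ≤ g := by exact_mod_cast hg
  have hg0 : (0 : ℝ) < g := by linarith
  have hbR : (0 : ℝ) ≤ b := Nat.cast_nonneg b
  have hDpos : (0 : ℝ) < Fintype.card V := by exact_mod_cast hV
  obtain ⟨D, hD⟩ : ∃ D : ℝ, D = Fintype.card V := ⟨_, rfl⟩
  rw [← hD] at hDpos
  obtain ⟨col, hB, hcut⟩ := exists_col Z.M Z.AC b
  have hnz := Z.nz_le
  rw [← hD] at hnz
  have hnc : (Z.M.ncut col : ℝ) ≤ 8 * g * Z.Ap / (b + 1) * D := by
    have h1 : ((b : ℝ) + 1) * (Z.M.ncut col : ℝ) ≤ 2 * (Z.M.nz : ℝ) := by exact_mod_cast hcut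
    have hb1 : (0 : ℝ) < (b : ℝ) + 1 := by linarith
    rw [div_mul_eq_mul_div, le_div_iff₀ hb1]
    nlinarith
  have hdang := Z.dang_le col
  rw [← hD] at hdang
  have hdang' : (Z.M.dang col : ℝ) ≤ eps * D := by
    have h1 : (Z.w5 + 4 * g * Z.w2 + 8 * g * Z.Ap / (b + 1)) * D ≤ eps * D := mul_le_mul_of_nonneg_right heps hDpos.le
    nlinarith
  have hnst : (Z.M.nst : ℝ) ≤ 3 * (eps * D) := by
    have h1 : (Z.M.nst : ℝ) ≤ 3 * (Z.M.dang col : ℝ) := by exact_mod_cast nst_le Z.M Z.AC col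
    linarith
  obtain ⟨l1, l2, l3⟩ := Z.lam_props col Lam hL
  have hlog : 0 ≤ Real.log T := Real.log_nonneg hT1
  obtain ⟨P, hP1, hP2, hP3, hP4⟩ := all_rounds Z.M Z.AC col (3 * b + 1) hB (Z.El col) Z.t1 (Z.labOK col) (Z.lam col Lam) Lam l1 l2 l3 T D th I
    hDpos hth hthL hT1 (by push_cast; exact hT)
    (by
      calc 8 * (Z.M.nst : ℝ) * Real.log T ≤ 8 * (3 * (eps * D)) * Real.log T := by
            apply mul_le_mul_of_nonneg_right _ hlog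
            linarith
        _ = (24 * eps * Real.log T) * D := by ring
        _ ≤ th / 4 * D := mul_le_mul_of_nonneg_right hn1 hDpos.le)
    (by
      calc 8 * (Z.M.nst : ℝ) * Lam ≤ 8 * (3 * (eps * D)) * Lam := by
            apply mul_le_mul_of_nonneg_right _ (by linarith)
            linarith
        _ = (24 * eps * Lam) * D := by ring
        _ ≤ 1 * D := mul_le_mul_of_nonneg_right hn2 hDpos.le
        _ = D := one_mul D)
    (by
      rw [Fintype.card_prod, Fintype.card_fin]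
      push_cast
      rw [← hD]
      have h1 : ((4 * g - 2 : ℕ) : ℝ) ≤ 4 * g := by
        have : 4 * g - 2 ≤ 4 * g := Nat.sub_le _ _
        exact_mod_cast this
      have h2 : (0 : ℝ) ≤ Lam * (1 + Z.t1 + 6 * (3 * b + 1) * Z.t1) := by positivity
      calc 3 * (D * ((4 * g - 2 : ℕ) : ℝ)) * Lam * (1 + Z.t1 + 6 * (3 * b + 1) * Z.t1) =
            3 * D * (((4 * g - 2 : ℕ) : ℝ) * (Lam * (1 + Z.t1 + 6 * (3 * b + 1) * Z.t1))) := by ring
        _ ≤ 3 * D * (4 * g * (Lam * (1 + Z.t1 + 6 * (3 * b + 1) * Z.t1))) :=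
            mul_le_mul_of_nonneg_left (mul_le_mul_of_nonneg_right h1 h2) (by positivity)
        _ = (12 * g * Lam * (1 + Z.t1 + 6 * (3 * b + 1) * Z.t1)) * D := by ring
        _ ≤ 4 ^ I * D := mul_le_mul_of_nonneg_right hI hDpos.le)
  have ht1R : (1 : ℝ) ≤ Z.t1 := by exact_mod_cast Z.ht1
  have hnl := Z.nonlab_le
  rw [← hD] at hnl
  have hspN := Z.special_le col
  have hsp : (({x | Z.labP x ∧ ¬ Z.reg col x}.ncard : ℕ) : ℝ) ≤ 4 * g * (({x | ¬ Z.labP x}.ncard : ℕ) : ℝ) + (Z.M.ncut col : ℝ) := by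
    exact_mod_cast hspN
  have hLS := Z.LS_le col Lam hL
  rw [← hD] at hLS
  obtain ⟨nl, hnl'⟩ : ∃ nl : ℝ, nl = (({x | ¬ Z.labP x}.ncard : ℕ) : ℝ) := ⟨_, rfl⟩
  obtain ⟨sp, hsp'⟩ : ∃ sp : ℝ, sp = (({x | Z.labP x ∧ ¬ Z.reg col x}.ncard : ℕ) : ℝ) := ⟨_, rfl⟩
  have hnl0 : 0 ≤ nl := by rw [hnl']; exact Nat.cast_nonneg _
  have hsp0 : 0 ≤ sp := by rw [hsp']; exact Nat.cast_nonneg _
  rw [← hnl', ← hsp'] at hLS hsp
  rw [← hnl'] at hnl
  have harith := z07_arith (w4 := Z.w4) (w5 := Z.w5) (X := X) hgR hbR ht1R hAp hw1 hw2 hDpos hnl0 hsp0 hnc hnl hsp hX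
  have hLL : LL (Z.lam col Lam) P ≤ (36 * g * (1 + Z.Ap) + 6) * D := by
    have h1 : Lam * (24 * g * (1 + Z.t1) * sp + 24 * g * (nl + sp) + (Z.w4 + Z.w5) * D) ≤ D := by
      calc _ ≤ Lam * (X * D) := mul_le_mul_of_nonneg_left harith (by linarith)
        _ = Lam * X * D := by ring
        _ ≤ 1 * D := mul_le_mul_of_nonneg_right hLX hDpos.le
        _ = D := one_mul D
    nlinarith
  have hsum : (∑ e : Dart (Nd g V), ((P e).card : ℝ)) ≤ LL (Z.lam col Lam) P := by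
    unfold LL
    refine Finset.sum_le_sum fun e _ => ?_
    have := l1 e
    have h0 : (0 : ℝ) ≤ ((P e).card : ℝ) := Nat.cast_nonneg _
    nlinarith
  have hspec : Lam * (∑ e : Dart (Nd g V), if Z.spec col e then ((P e).card : ℝ) else 0) ≤ LL (Z.lam col Lam) P := by
    unfold LL
    rw [Finset.mul_sum]
    refine Finset.sum_le_sum fun e _ => ?_
    have h0 : (0 : ℝ) ≤ ((P e).card : ℝ) := Nat.cast_nonneg _
    by_cases hs : Z.spec col e
    · rw [if_pos hs]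
      unfold ZCtx.lam
      rw [if_pos hs]
    · rw [if_neg hs, mul_zero]
      exact mul_nonneg (by linarith [l1 e]) h0
  have hreg : ({x | ¬ Z.reg col x}.ncard : ℝ) ≤ X * D := by
    have h1 : {x | ¬ Z.reg col x}.ncard ≤ {x | ¬ Z.labP x}.ncard + {x | Z.labP x ∧ ¬ Z.reg col x}.ncard := by
      refine le_trans (Set.ncard_le_ncard ?_ (Set.toFinite _)) (Set.ncard_union_le _ _)
      intro x hx
      by_cases hl : Z.labP x
      · exact Or.inr ⟨hl, hx⟩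
      · exact Or.inl hl
    have h2 : ({x | ¬ Z.reg col x}.ncard : ℝ) ≤ nl + sp := by
      rw [hnl', hsp']
      exact_mod_cast h1
    refine h2.trans (le_trans ?_ harith)
    have h3 : 0 ≤ 24 * g * (1 + Z.t1) * sp := by positivity
    have h4 : 0 ≤ (Z.w4 + Z.w5) * D := by positivity
    nlinarith
  refine ⟨col, P, hP1, hP2, ?_, ?_, ?_, ?_⟩
  · rw [← hD]
    calc _ ≤ 2 * th * D * I := hP3
      _ = _ := by ring
  · rw [← hD]; exact hsum.trans hLL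
  · rw [← hD]; exact hspec.trans hLL
  · rw [← hD]; exact hreg

end H98T
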