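import Mathlib
import Pool.Agent.Lib.H98T.GDefs

set_option autoImplicit false

/-!
# H98T.GE6: walks
-/

namespace H98T

open Finset


/-- GE6a. Chunk GE6 (size S/M). Walks can be composed. -/
theorem walk_mul {C Y : Type*} (src tgt : Y → C) (c c' c'' : C) (a b : FreeGroup Y) (h1 : Walk src tgt c a c') (h2 : Walk src tgt c' b c'') :
    Walk src tgt c (a * b) c'' := by
  induction h2 with
  | nil => rw [mul_one]; exact h1
  | pos w y _ ih => rw [← mul_assoc]; exact Walk.pos _ _ _ ih
  | neg w y _ ih => rw [← mul_assoc]; exact Walk.neg _ _ _ ih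

/-- GE6b. Chunk GE6 (size S/M). Walks can be reversed (a one-letter walk reversed is a one-letter walk; `walk_mul`). -/
theorem walk_inv {C Y : Type*} (src tgt : Y → C) (c c' : C) (a : FreeGroup Y) (h : Walk src tgt c a c') : Walk src tgt c' a⁻¹ c := by
  induction h with
  | nil => rw [inv_one]; exact Walk.nil _
  | pos w y _ ih =>
    rw [mul_inv_rev]
    refine walk_mul src tgt _ _ _ _ _ ?_ ih
    have h := Walk.neg (tgt y) 1 y (Walk.nil (src := src) (tgt := tgt) (tgt y))
    rwa [one_mul] at h
  | neg w y _ ih =>
    rw [mul_inv_rev, inv_inv]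
    refine walk_mul src tgt _ _ _ _ _ ?_ ih
    have h := Walk.pos (src y) 1 y (Walk.nil (src := src) (tgt := tgt) (src y))
    rwa [one_mul] at h

/-- Start cell of a signed letter. -/
def ge6_st {C Y : Type*} (src tgt : Y → C) (x : Y × Bool) : C := if x.2 then src x.1 else tgt x.1

/-- End cell of a signed letter. -/
def ge6_en {C Y : Type*} (src tgt : Y → C) (x : Y × Bool) : C := if x.2 then tgt x.1 else src x.1

theorem ge6_cellAt_cons {C Y : Type*} (src tgt : Y → C) (c : C) (x : Y × Bool) (l : List (Y × Bool)) (j : ℕ) (hj : j ≤ l.length) :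
    cellAt src tgt c (x :: l) (j + 1) = cellAt src tgt (ge6_en src tgt x) l j := by
  unfold cellAt ge6_en
  obtain ⟨y, b⟩ := x
  cases j with
  | zero => cases b <;> simp
  | succ j =>
    have h : l[j]? = some l[j] := List.getElem?_eq_getElem (by omega)
    simp only [Nat.add_eq_zero_iff, one_ne_zero, and_false, ↓reduceIte, Nat.add_one_sub_one, List.getElem?_cons_succ]
    rw [h]
    generalize l[j] = p
    obtain ⟨y', b'⟩ := p
    cases b' <;> rfl

theorem ge6_wl_cons {C Y : Type*} (src tgt : Y → C) (c c' : C) (x : Y × Bool) (l : List (Y × Bool)) :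
    WalkList src tgt c (x :: l) c' ↔ c = ge6_st src tgt x ∧ WalkList src tgt (ge6_en src tgt x) l c' := by
  unfold WalkList
  constructor
  · rintro ⟨h1, h2⟩
    refine ⟨?_, ?_, ?_⟩
    · obtain ⟨y, b⟩ := x
      have h3 := h2 0 y
      cases b
      · exact h3.2 (by simp)
      · exact h3.1 (by simp)
    · rw [← ge6_cellAt_cons src tgt c x l _ le_rfl]
      simpa using h1
    · intro j y
      have h3 := h2 (j + 1) y
      constructor
      · intro h4
        have h5 : j < l.length := by
          by_contra h6
          rw [List.getElem?_eq_none (by omega)] at h4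
          exact absurd h4 (by simp)
        rw [← ge6_cellAt_cons src tgt c x l j h5.le]
        exact h3.1 (by simpa using h4)
      · intro h4
        have h5 : j < l.length := by
          by_contra h6
          rw [List.getElem?_eq_none (by omega)] at h4
          exact absurd h4 (by simp)
        rw [← ge6_cellAt_cons src tgt c x l j h5.le]
        exact h3.2 (by simpa using h4)
  · rintro ⟨h0, h1, h2⟩
    refine ⟨?_, ?_⟩
    · rw [List.length_cons, ge6_cellAt_cons src tgt c x l _ le_rfl]
      exact h1
    · intro j y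
      cases j with
      | zero =>
        obtain ⟨y', b⟩ := x
        subst h0
        constructor
        · intro h
          simp only [List.getElem?_cons_zero, Option.some.injEq, Prod.mk.injEq] at h
          obtain ⟨rfl, rfl⟩ := h
          simp [cellAt, ge6_st]
        · intro h
          simp only [List.getElem?_cons_zero, Option.some.injEq, Prod.mk.injEq] at h
          obtain ⟨rfl, rfl⟩ := h
          simp [cellAt, ge6_st]
      | succ j =>
        have h3 := h2 j y
        constructor
        · intro h4
          rw [List.getElem?_cons_succ] at h4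
          have h5 : j < l.length := by
            by_contra h6
            rw [List.getElem?_eq_none (by omega)] at h4
            exact absurd h4 (by simp)
          rw [ge6_cellAt_cons src tgt c x l j h5.le]
          exact h3.1 h4
        · intro h4
          rw [List.getElem?_cons_succ] at h4
          have h5 : j < l.length := by
            by_contra h6
            rw [List.getElem?_eq_none (by omega)] at h4
            exact absurd h4 (by simp)
          rw [ge6_cellAt_cons src tgt c x l j h5.le]
          exact h3.2 h4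

theorem ge6_wl_nil {C Y : Type*} (src tgt : Y → C) (c c' : C) : WalkList src tgt c [] c' ↔ c = c' := by
  unfold WalkList cellAt
  simp

theorem ge6_wl_append {C Y : Type*} (src tgt : Y → C) (l1 l2 : List (Y × Bool)) (c c' : C) :
    WalkList src tgt c (l1 ++ l2) c' ↔ ∃ e, WalkList src tgt c l1 e ∧ WalkList src tgt e l2 c' := by
  induction l1 generalizing c with
  | nil => simp [ge6_wl_nil]
  | cons x l ih =>
    rw [List.cons_append, ge6_wl_cons]
    constructor
    · rintro ⟨h1, h2⟩
      obtain ⟨e, h3, h4⟩ := (ih _).1 h2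
      exact ⟨e, (ge6_wl_cons src tgt c e x l).2 ⟨h1, h3⟩, h4⟩
    · rintro ⟨e, h1, h2⟩
      obtain ⟨h3, h4⟩ := (ge6_wl_cons src tgt c e x l).1 h1
      exact ⟨h3, (ih _).2 ⟨e, h4, h2⟩⟩

theorem ge6_walk_ex {C Y : Type*} (src tgt : Y → C) (c c' : C) (a : FreeGroup Y) (h : Walk src tgt c a c') :
    ∃ l, FreeGroup.mk l = a ∧ WalkList src tgt c l c' := by
  induction h with
  | nil => exact ⟨[], rfl, (ge6_wl_nil src tgt _ _).2 rfl⟩
  | pos w y _ ih =>
    obtain ⟨l, h1, h2⟩ := ih
    refine ⟨l ++ [(y, true)], ?_, (ge6_wl_append src tgt _ _ _ _).2 ⟨_, h2, ?_⟩⟩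
    · rw [← FreeGroup.mul_mk, h1]; rfl
    · rw [ge6_wl_cons, ge6_wl_nil]
      exact ⟨by simp [ge6_st], by simp [ge6_en]⟩
  | neg w y _ ih =>
    obtain ⟨l, h1, h2⟩ := ih
    refine ⟨l ++ [(y, false)], ?_, (ge6_wl_append src tgt _ _ _ _).2 ⟨_, h2, ?_⟩⟩
    · rw [← FreeGroup.mul_mk, h1]; rfl
    · rw [ge6_wl_cons, ge6_wl_nil]
      exact ⟨by simp [ge6_st], by simp [ge6_en]⟩

theorem ge6_wl_step {C Y : Type*} (src tgt : Y → C) (c c' : C) (l l' : List (Y × Bool)) (h : FreeGroup.Red.Step l l')
    (hw : WalkList src tgt c l c') : WalkList src tgt c l' c' := by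
  cases h with
  | @not l1 l2 y b =>
    obtain ⟨e, h1, h2⟩ := (ge6_wl_append src tgt _ _ _ _).1 hw
    obtain ⟨h3, h4⟩ := (ge6_wl_cons src tgt _ _ _ _).1 h2
    obtain ⟨h5, h6⟩ := (ge6_wl_cons src tgt _ _ _ _).1 h4
    refine (ge6_wl_append src tgt _ _ _ _).2 ⟨e, h1, ?_⟩
    have h7 : ge6_en src tgt (y, !b) = e := by
      rw [h3]
      cases b <;> simp [ge6_en, ge6_st]
    rw [h7] at h6
    exact h6

/-- GE6c. Chunk GE6 (size M). The reduced word of a walk is a walk.  Proof: induction on `Walk`; `(w * of y).toWord` is either `w.toWord ++ [(y, true)]`, or `w.toWord` without its last letter `(y, false)`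
(`FreeGroup.toWord_mul`, `reduce`); in the second case the position before the last letter is in the cell `tgt y` (`WalkList` for the letter `(y, false)`). -/
theorem walk_list {C Y : Type*} [DecidableEq Y] (src tgt : Y → C) (c c' : C) (a : FreeGroup Y) (h : Walk src tgt c a c') :
    WalkList src tgt c a.toWord c' := by
  obtain ⟨l, h1, h2⟩ := ge6_walk_ex src tgt c c' a h
  rw [← h1, FreeGroup.toWord_mk]
  have h3 : FreeGroup.Red l (FreeGroup.reduce l) := FreeGroup.reduce.red
  have h4 : ∀ l', FreeGroup.Red l l' → WalkList src tgt c l' c' := by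
    intro l' h5
    induction h5 with
    | refl => exact h2
    | tail _ h7 ih => exact ge6_wl_step src tgt c c' _ _ h7 ih
  exact h4 _ h3

/-- GE6d. Chunk GE6 (size M). Cells of the reversed word. -/
theorem cellAt_inv {C Y : Type*} [DecidableEq Y] (src tgt : Y → C) (c c' : C) (l : List (Y × Bool)) (h : WalkList src tgt c l c') (j : ℕ) (hj : j ≤ l.length) :
    cellAt src tgt c' (FreeGroup.invRev l) (l.length - j) = cellAt src tgt c l j := by
  rcases Nat.lt_or_ge j l.length with h1 | h1
  · have h2 : (FreeGroup.invRev l)[l.length - j - 1]? = some ((l[j]).1, !(l[j]).2) := by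
      unfold FreeGroup.invRev
      rw [List.getElem?_reverse (by simp; omega)]
      rw [List.length_map]
      have h3 : l.length - 1 - (l.length - j - 1) = j := by omega
      rw [h3, List.getElem?_map, List.getElem?_eq_getElem h1]
      rfl
    have h4 := h.2 j (l[j]).1
    have h5 : l[j]? = some l[j] := List.getElem?_eq_getElem h1
    have h6 : l.length - j ≠ 0 := by omega
    have h7 : cellAt src tgt c' (FreeGroup.invRev l) (l.length - j) = ge6_en src tgt ((l[j]).1, !(l[j]).2) := by
      unfold cellAt ge6_en
      rw [if_neg h6, h2]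
      cases (l[j]).2 <;> simp
    rw [h7]
    cases hb : (l[j]).2
    · have h8 : l[j]? = some ((l[j]).1, false) := by rw [h5, ← hb]
      rw [h4.2 h8]
      simp [ge6_en]
    · have h8 : l[j]? = some ((l[j]).1, true) := by rw [h5, ← hb]
      rw [h4.1 h8]
      simp [ge6_en]
  · have h2 : j = l.length := le_antisymm hj h1
    subst h2
    rw [h.1, Nat.sub_self]
    simp [cellAt]

end H98T
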