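import Mathlib
import Pool.Agent.Lib.H98T.WDefs
import Pool.Agent.Lib.H98T.GDefs
import Pool.Agent.Lib.H98T.Enc

set_option autoImplicit false

/-!
# H98T, module N: the labels of the darts (`PROOF.md`, sections 5, 8, 10), definitions

`WNet src tgt M w st`: the net `M` comes from the elements `w e` of the free group on the letters (`WA4.net_of_words`), every `w e` is a walk between cells, from the cell
`st e` to the cell `st (nxt e)`.  `dcell src tgt w st e j`: the cell at the position `j` of the dart `e`.  For chosen positions `P`: `dlab` the list of the cells at the chosen positions,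
`dpc` the number of the chosen positions before the centre, `dctr` the cell of the centre of a node.
-/

namespace H98T

open Finset

variable {N Y C : Type} [DecidableEq Y]

/-- The net comes from words in a free group which are walks between cells. -/
structure WNet (src tgt : Y → C) (M : Net N Y) (w : Dart N → FreeGroup Y) (st : Dart N → C) : Prop where
  word : ∀ e, M.word e = (w e).toWord.map Prod.fst
  leg_le : ∀ e, M.leg e ≤ (w e).toWord.length
  leg_eq : ∀ e, (w e).toWord.take (M.leg e) = ((w (prv e))⁻¹).toWord.take (M.leg e)
  w_inv : ∀ e, w (M.inv e) = (w e)⁻¹
  walk : ∀ e, Walk src tgt (st e) (w e) (st (nxt e))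
  st_inv : ∀ e, st (M.inv e) = st (nxt e)

/-- The cell at the position `j` of the dart `e`. -/
def dcell (src tgt : Y → C) (w : Dart N → FreeGroup Y) (st : Dart N → C) (e : Dart N) (j : ℕ) : C :=
  cellAt src tgt (st e) (w e).toWord j

/-- The label of the dart `e`: the cells at the positions in `P e`, in increasing order of the positions. -/
def dlab (src tgt : Y → C) (w : Dart N → FreeGroup Y) (st : Dart N → C) (P : Dart N → Finset ℕ) (e : Dart N) : List C :=
  ((P e).sort (· ≤ ·)).map (dcell src tgt w st e)

/-- The index of the centre in the label: the number of chosen positions before the centre. -/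
def dpc (M : Net N Y) (P : Dart N → Finset ℕ) (e : Dart N) : ℕ := ((P e).filter (fun j => j < M.leg e)).card

/-- The cell of the centre of the node `z`. -/
def dctr (src tgt : Y → C) (M : Net N Y) (w : Dart N → FreeGroup Y) (st : Dart N → C) (z : N) : C :=
  dcell src tgt w st (z, 0) (M.leg (z, 0))

end H98T
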