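import Mathlib
import Pool.Agent.Lib.H98T.WA2

set_option autoImplicit false

/-!
# H98T.WA3: the tripod lemma
-/

namespace H98T

theorem wa3_len {α : Type} [DecidableEq α] (a b : FreeGroup α) :
    (a * b).toWord.length = (a.toWord.length - lcp (a⁻¹).toWord b.toWord) +
      (b.toWord.length - lcp (a⁻¹).toWord b.toWord) := by
  rw [toWord_mul_lcp, List.length_append, List.length_take, List.length_drop,
    min_eq_left (Nat.sub_le _ _)]

theorem wa3_lcp {α : Type} [DecidableEq α] (a b : FreeGroup α) :
    lcp (a * b).toWord a.toWord = a.toWord.length - lcp (a⁻¹).toWord b.toWord := by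
  obtain ⟨h1, h2, h3, -, -⟩ := lcp_props (a⁻¹).toWord b.toWord
  have hab := toWord_mul_lcp a b
  set c := lcp (a⁻¹).toWord b.toWord with hc
  have hlen : (a⁻¹).toWord.length = a.toWord.length := by
    rw [FreeGroup.toWord_inv, FreeGroup.invRev_length]
  have htl : (a.toWord.take (a.toWord.length - c)).length = a.toWord.length - c := by
    rw [List.length_take, min_eq_left (Nat.sub_le _ _)]
  refine lcp_eq _ _ _ ?_ (Nat.sub_le _ _) ?_ ?_
  · rw [hab, List.length_append, htl]
    exact Nat.le_add_right _ _
  · rw [hab, List.take_left' htl]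
  · intro h h' he
    have hc1 : 1 ≤ c := by omega
    have hcb : c < b.toWord.length := by
      rw [hab, List.length_append, htl, List.length_drop] at h
      omega
    have e1 : (a * b).toWord[a.toWord.length - c] = b.toWord[c] := by
      have h4 : (a * b).toWord[a.toWord.length - c]? = b.toWord[c]? := by
        rw [hab, List.getElem?_append_right (by rw [htl]), htl, List.getElem?_drop]
        simp
      rw [List.getElem?_eq_getElem h, List.getElem?_eq_getElem hcb, Option.some.injEq] at h4
      exact h4
    have hca : c - 1 < (a⁻¹).toWord.length := by omega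
    have hcb' : c - 1 < b.toWord.length := by omega
    have e2 : a.toWord[a.toWord.length - c] =
        (((a⁻¹).toWord[c - 1]).1, !((a⁻¹).toWord[c - 1]).2) := by
      have h5 : a.toWord = FreeGroup.invRev (a⁻¹).toWord := by
        rw [FreeGroup.toWord_inv, FreeGroup.invRev_invRev]
      have h4 : a.toWord[a.toWord.length - c]? =
          ((a⁻¹).toWord[c - 1]?).map fun g => (g.1, !g.2) := by
        conv_lhs => rw [h5]
        rw [FreeGroup.invRev, List.getElem?_reverse', List.getElem?_map]
        rw [List.length_map, List.length_reverse, List.length_map, hlen]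
        omega
      rw [List.getElem?_eq_getElem h', List.getElem?_eq_getElem hca, Option.map_some,
        Option.some.injEq] at h4
      exact h4
    have e3 : (a⁻¹).toWord[c - 1] = b.toWord[c - 1] := by
      have h4 : (a⁻¹).toWord[c - 1]? = b.toWord[c - 1]? := by
        rw [← List.getElem?_take_of_lt (l := (a⁻¹).toWord) (show c - 1 < c by omega), h3,
          List.getElem?_take_of_lt (show c - 1 < c by omega)]
      rw [List.getElem?_eq_getElem hca, List.getElem?_eq_getElem hcb', Option.some.injEq] at h4
      exact h4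
    have hr : FreeGroup.IsReduced b.toWord := FreeGroup.isReduced_toWord
    have h6 := List.isChain_iff_getElem.1 hr (c - 1) (by omega)
    have h7 : b.toWord[c - 1 + 1]'(by omega) = b.toWord[c] := by
      congr 1
      omega
    rw [h7] at h6
    rw [e1, e2, e3] at he
    have h8 : (b.toWord[c - 1]).1 = (b.toWord[c]).1 := by rw [he]
    have h9 := h6 h8
    rw [he] at h9
    have key : ∀ p : Bool, p ≠ !p := by decide
    exact key _ h9

/-- WA3. Chunk WA3 (size M). TRIPOD.  If `x y z = 1`, the reduced word of `x` is the concatenation of the common prefix of `x` and `z⁻¹` and of the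
inverse of the common prefix of `y` and `x⁻¹`: the lengths add up.
Proof: `x = z⁻¹ y⁻¹`; by `toWord_mul_lcp` (applied to `z⁻¹`, `y⁻¹`) with `c = lcp z.toWord (y⁻¹).toWord`:
`x.toWord = (z⁻¹).toWord.take (|z| - c) ++ (y⁻¹).toWord.drop c`.  The common prefix of `x` and `z⁻¹` has length exactly `|z| - c` (`lcp_eq`: the next letter of
`(z⁻¹).toWord` is the inverse of the letter number `c-1` of `z.toWord`, i.e. of the letter number `c-1` of `(y⁻¹).toWord`, and `(y⁻¹).toWord` is reduced, so it
differs from the letter number `c` of `(y⁻¹).toWord`).  Similarly `x⁻¹ = y z`, so the common prefix of `x⁻¹` and `y` has length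
`|y| - c` (apply the same statement to `x⁻¹ = y z`, `lcp (y⁻¹).toWord z.toWord = c`).  And `|x| = |z| - c + |y| - c`. -/
theorem tripod_len {α : Type} [DecidableEq α] (x y z : FreeGroup α) (h : x * y * z = 1) :
    x.toWord.length = lcp x.toWord (z⁻¹).toWord + lcp y.toWord (x⁻¹).toWord := by
  have hx : x = z⁻¹ * y⁻¹ := by
    rw [← mul_inv_rev, eq_inv_iff_mul_eq_one, ← mul_assoc]
    exact h
  have hx' : x⁻¹ = y * z := by
    rw [inv_eq_iff_mul_eq_one, ← mul_assoc]
    exact h
  have h1 := wa3_lcp z⁻¹ y⁻¹
  have h2 := wa3_lcp y z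
  have h3 := wa3_len z⁻¹ y⁻¹
  rw [← hx, inv_inv] at h1 h3
  rw [← hx'] at h2
  obtain ⟨-, -, -, h4, -⟩ := lcp_props z.toWord (y⁻¹).toWord
  obtain ⟨-, -, -, h5, -⟩ := lcp_props y.toWord (x⁻¹).toWord
  have h6 : (y⁻¹).toWord.length = y.toWord.length := by
    rw [FreeGroup.toWord_inv, FreeGroup.invRev_length]
  rw [h3, h1, h5, h2, h4, h6]

end H98T
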