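import Mathlib
import Pool.Agent.Lib.H98T.WDefs
import Pool.Agent.Lib.H98T.WA3

set_option autoImplicit false

/-!
# H98T.WA4: a net from words in a free group
-/

namespace H98T

variable {N Y : Type}

theorem wa4_map_invRev (L : List (Y × Bool)) :
    (FreeGroup.invRev L).map Prod.fst = (L.map Prod.fst).reverse := by
  simp [FreeGroup.invRev, Function.comp_def]

theorem wa4_prv_nxt (e : Dart N) : prv (nxt e) = e := by
  obtain ⟨z, j⟩ := e
  simp only [prv, nxt, Prod.mk.injEq, true_and]
  fin_cases j <;> rfl

theorem wa4_rot (w : Dart N → FreeGroup Y) (e : Dart N)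
    (h : w (e.1, 0) * w (e.1, 1) * w (e.1, 2) = 1) : w e * w (nxt e) * w (prv e) = 1 := by
  obtain ⟨z, j⟩ := e
  fin_cases j
  · exact h
  · change w (z, 1) * w (z, 2) * w (z, 0) = 1
    have h1 : w (z, 0) * (w (z, 1) * w (z, 2)) = 1 := by
      rw [← mul_assoc]; exact h
    exact mul_eq_one_iff_eq_inv.mpr (eq_inv_of_mul_eq_one_right h1)
  · change w (z, 2) * w (z, 0) * w (z, 1) = 1
    have h1 : w (z, 0) * w (z, 1) * w (z, 2) = 1 := h
    have h2 : w (z, 2) * (w (z, 0) * w (z, 1)) = 1 := by
      rw [eq_inv_of_mul_eq_one_left h1]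
      exact mul_inv_cancel _
    rw [mul_assoc]; exact h2

/-- WA4. Chunk WA4 (size M). Elements `w e` of a free group on the darts, inverse on inverse darts, with product one at uncut nodes, give a net:
`word e` is the list of letters (without signs) of the reduced word of `w e`, `leg e` the length of the longest common prefix of `w e` and `(w (prv e))⁻¹`.
Moreover the signed words have the same first `leg e` letters.
Proof: `FreeGroup.toWord_inv`, `invRev` maps to `reverse` on first components; `len` is `tripod_len` (rotate the relation at the node, note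
`prv (nxt e) = e`); `leg_eq` from `lcp_props`. -/
theorem net_of_words [DecidableEq Y] (inv : Dart N → Dart N) (inv_inv : ∀ e, inv (inv e) = e) (inv_ne : ∀ e, inv e ≠ e)
    (cut : N → Prop) (F : Dart N → Prop) (F_inv : ∀ e, F (inv e) ↔ F e) (w : Dart N → FreeGroup Y)
    (w_inv : ∀ e, w (inv e) = (w e)⁻¹) (rel : ∀ z, ¬ cut z → w (z, 0) * w (z, 1) * w (z, 2) = 1) :
    ∃ M : Net N Y, M.inv = inv ∧ M.cut = cut ∧ M.F = F ∧ (∀ e, M.word e = (w e).toWord.map Prod.fst) ∧
      (∀ e, M.leg e ≤ (w e).toWord.length) ∧
      (∀ e, (w e).toWord.take (M.leg e) = ((w (prv e))⁻¹).toWord.take (M.leg e)) := by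
  refine ⟨{ inv := inv
            inv_inv := inv_inv
            inv_ne := inv_ne
            cut := cut
            F := F
            F_inv := F_inv
            word := fun e => (w e).toWord.map Prod.fst
            word_inv := ?_
            leg := fun e => lcp (w e).toWord ((w (prv e))⁻¹).toWord
            len := ?_
            leg_eq := ?_ }, rfl, rfl, rfl, fun _ => rfl, ?_, ?_⟩
  · intro e
    rw [w_inv, FreeGroup.toWord_inv, wa4_map_invRev]
  · intro e he
    have h := tripod_len (w e) (w (nxt e)) (w (prv e)) (wa4_rot w e (rel e.1 he))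
    simp only [List.length_map, wa4_prv_nxt]
    exact h
  · intro e _
    have h := (lcp_props (w e).toWord ((w (prv e))⁻¹).toWord).2.2.1
    have h2 := congrArg (List.map Prod.fst) h
    rw [List.map_take, List.map_take] at h2
    rw [h2, FreeGroup.toWord_inv, wa4_map_invRev]
  · intro e
    exact (lcp_props (w e).toWord ((w (prv e))⁻¹).toWord).1
  · intro e
    exact (lcp_props (w e).toWord ((w (prv e))⁻¹).toWord).2.2.1

end H98T
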