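import Mathlib
import Pool.Agent.Lib.H98T.LabDefs
import Pool.Agent.Lib.H98T.GE6
import Pool.Agent.Lib.H98T.WA4

set_option autoImplicit false

/-!
# H98T.N01: the cells at the positions
-/

namespace H98T

open Finset

variable {N Y C : Type} [DecidableEq Y] {src tgt : Y → C} {M : Net N Y} {w : Dart N → FreeGroup Y} {st : Dart N → C}

/-- N01a. Lengths. -/
theorem wnet_len (hw : WNet src tgt M w st) (e : Dart N) : (M.word e).length = (w e).toWord.length := by
  rw [hw.word, List.length_map]

theorem n01_nxt_prv (e : Dart N) : nxt (prv e) = e := by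
  obtain ⟨z, j⟩ := e
  simp only [prv, nxt, Prod.mk.injEq, true_and]
  fin_cases j <;> rfl

theorem n01_cellAt_take {c : C} (A B : List (Y × Bool)) (a j : ℕ) (h : A.take a = B.take a) (hj : j ≤ a) :
    cellAt src tgt c A j = cellAt src tgt c B j := by
  unfold cellAt
  by_cases h0 : j = 0
  · rw [if_pos h0, if_pos h0]
  · rw [if_neg h0, if_neg h0]
    have h1 : A[j - 1]? = (A.take a)[j - 1]? := by
      rw [List.getElem?_take]
      rw [if_pos (by omega)]
    have h2 : B[j - 1]? = (B.take a)[j - 1]? := by
      rw [List.getElem?_take]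
      rw [if_pos (by omega)]
    rw [h1, h2, h]

/-- N01b. The cells on the other side of the edge (`walk_list`, `cellAt_inv`). -/
theorem dcell_inv (hw : WNet src tgt M w st) (e : Dart N) (j : ℕ) (hj : j ≤ (M.word e).length) :
    dcell src tgt w st (M.inv e) ((M.word e).length - j) = dcell src tgt w st e j := by
  unfold dcell
  rw [wnet_len hw] at hj ⊢
  rw [hw.w_inv, hw.st_inv, FreeGroup.toWord_inv]
  exact cellAt_inv src tgt (st e) (st (nxt e)) (w e).toWord (walk_list src tgt _ _ _ (hw.walk e)) j hj

/-- N01c. The leg is not longer than the word of the previous dart. -/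
theorem leg_le_prv (hw : WNet src tgt M w st) (e : Dart N) : M.leg e ≤ (M.word (prv e)).length := by
  have h1 := congrArg List.length (hw.leg_eq e)
  rw [List.length_take, List.length_take, Nat.min_eq_left (hw.leg_le e), FreeGroup.toWord_inv] at h1
  have h2 : (FreeGroup.invRev (w (prv e)).toWord).length = (w (prv e)).toWord.length := by
    simp [FreeGroup.invRev]
  rw [h2] at h1
  rw [wnet_len hw]
  omega

/-- N01d. The cells of a leg on the previous dart: position `j ≤ leg e` of `e` is the position `len - j` of `prv e`. -/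
theorem dcell_prv (hw : WNet src tgt M w st) (e : Dart N) (j : ℕ) (hj : j ≤ M.leg e) :
    dcell src tgt w st (prv e) ((M.word (prv e)).length - j) = dcell src tgt w st e j := by
  have hle := leg_le_prv hw e
  unfold dcell
  rw [wnet_len hw] at hle ⊢
  have h1 := cellAt_inv src tgt (st (prv e)) (st (nxt (prv e))) (w (prv e)).toWord (walk_list src tgt _ _ _ (hw.walk (prv e)))
    ((w (prv e)).toWord.length - j) (by omega)
  rw [n01_nxt_prv] at h1
  have h2 : (w (prv e)).toWord.length - ((w (prv e)).toWord.length - j) = j := by omega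
  rw [h2, ← FreeGroup.toWord_inv] at h1
  rw [← h1]
  exact n01_cellAt_take _ _ (M.leg e) j (hw.leg_eq e).symm hj

/-- N01e. The centre of an uncut node has the same cell on the three darts. -/
theorem dcell_ctr (hw : WNet src tgt M w st) (z : N) (hz : ¬ M.cut z) (j : Fin 3) :
    dcell src tgt w st (z, j) (M.leg (z, j)) = dctr src tgt M w st z := by
  have key : ∀ e : Dart N, ¬ M.cut e.1 → dcell src tgt w st (nxt e) (M.leg (nxt e)) = dcell src tgt w st e (M.leg e) := by
    intro e he
    have hpn : prv (nxt e) = e := by
      obtain ⟨z, j⟩ := e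
      simp only [prv, nxt, Prod.mk.injEq, true_and]
      fin_cases j <;> rfl
    have h1 := dcell_prv hw (nxt e) (M.leg (nxt e)) le_rfl
    rw [hpn] at h1
    rw [← h1, M.len e he]
    congr 1
    omega
  unfold dctr
  have h0 := key (z, 0) hz
  have h1 := key (z, 1) hz
  have e0 : nxt ((z, 0) : Dart N) = (z, 1) := rfl
  have e1 : nxt ((z, 1) : Dart N) = (z, 2) := rfl
  rw [e0] at h0
  rw [e1] at h1
  fin_cases j
  · rfl
  · exact h0
  · exact h1.trans h0

/-- N01f. The centre cell is the start cell of the dart or the source or target of one of its letters. -/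
theorem dctr_mem (hw : WNet src tgt M w st) (z : N) :
    dctr src tgt M w st z = st (z, 0) ∨ ∃ y ∈ M.word (z, 0), dctr src tgt M w st z = src y ∨ dctr src tgt M w st z = tgt y := by
  unfold dctr dcell cellAt
  by_cases h0 : M.leg (z, 0) = 0
  · left
    rw [if_pos h0]
  · rw [if_neg h0]
    rcases hl : (w (z, 0)).toWord[M.leg (z, 0) - 1]? with _ | ⟨y, b⟩
    · left
      rfl
    · right
      have hmem : (y, b) ∈ (w (z, 0)).toWord := List.mem_of_getElem? hl
      refine ⟨y, ?_, ?_⟩
      · rw [hw.word, List.mem_map]
        exact ⟨(y, b), hmem, rfl⟩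
      · cases b
        · left
          rfl
        · right
          rfl

end H98T
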