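import Mathlib

set_option autoImplicit false

/-!
# H98T.N02: sorted lists of finite sets of natural numbers
-/

namespace H98T

open Finset

theorem n02_uniq {l1 l2 : List ℕ} (h1 : l1.Pairwise (· < ·)) (h2 : l2.Pairwise (· < ·)) (h : ∀ x, x ∈ l1 ↔ x ∈ l2) : l1 = l2 :=
  h1.sortedLT.eq_of_mem_iff h2.sortedLT (fun a => h a)

theorem n02_pw (s : Finset ℕ) : (s.sort (· ≤ ·)).Pairwise (· < ·) := s.sortedLT_sort.pairwise

theorem n02_mem (s : Finset ℕ) (x : ℕ) : x ∈ s.sort (· ≤ ·) ↔ x ∈ s := Finset.mem_sort _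

theorem n02_split (s : Finset ℕ) (a : ℕ) :
    s.sort (· ≤ ·) = (s.filter (fun j => j < a)).sort (· ≤ ·) ++ (s.filter (fun j => ¬ j < a)).sort (· ≤ ·) := by
  apply n02_uniq (n02_pw s)
  · rw [List.pairwise_append]
    refine ⟨n02_pw _, n02_pw _, ?_⟩
    intro x hx y hy
    rw [n02_mem, Finset.mem_filter] at hx hy
    omega
  · intro x
    rw [List.mem_append, n02_mem, n02_mem, n02_mem, Finset.mem_filter, Finset.mem_filter]
    by_cases h : x < a <;> simp [h]

theorem n02_split2 (s : Finset ℕ) (a : ℕ) (ha : a ∈ s) :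
    s.sort (· ≤ ·) = (s.filter (fun j => j < a)).sort (· ≤ ·) ++ a :: (s.filter (fun j => a < j)).sort (· ≤ ·) := by
  apply n02_uniq (n02_pw s)
  · rw [List.pairwise_append, List.pairwise_cons]
    refine ⟨n02_pw _, ⟨?_, n02_pw _⟩, ?_⟩
    · intro x hx
      rw [n02_mem, Finset.mem_filter] at hx
      exact hx.2
    · intro x hx y hy
      rw [n02_mem, Finset.mem_filter] at hx
      rw [List.mem_cons, n02_mem, Finset.mem_filter] at hy
      rcases hy with rfl | hy
      · exact hx.2
      · omega
  · intro x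
    rw [List.mem_append, List.mem_cons, n02_mem, n02_mem, n02_mem, Finset.mem_filter, Finset.mem_filter]
    constructor
    · intro hx
      rcases lt_trichotomy x a with h | h | h
      · exact Or.inl ⟨hx, h⟩
      · exact Or.inr (Or.inl h)
      · exact Or.inr (Or.inr ⟨hx, h⟩)
    · rintro (⟨h, _⟩ | rfl | ⟨h, _⟩)
      · exact h
      · exact ha
      · exact h

/-- N02a. Reflection reverses the sorted list. -/
theorem sort_reflect (s t : Finset ℕ) (L : ℕ) (hs : ∀ j ∈ s, j ≤ L) (ht : ∀ j ∈ t, j ≤ L) (h : ∀ j, j ≤ L → (j ∈ s ↔ L - j ∈ t)) :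
    t.sort (· ≤ ·) = ((s.sort (· ≤ ·)).map (fun j => L - j)).reverse := by
  apply n02_uniq (n02_pw t)
  · rw [List.pairwise_reverse, List.pairwise_map]
    apply List.Pairwise.imp_of_mem _ (n02_pw s)
    intro a b ha hb hab
    rw [n02_mem] at ha hb
    have h1 := hs a ha
    have h2 := hs b hb
    omega
  · intro x
    rw [List.mem_reverse, List.mem_map, n02_mem]
    constructor
    · intro hx
      have h1 := ht x hx
      refine ⟨L - x, ?_, by omega⟩
      rw [n02_mem, h (L - x) (by omega)]
      have h2 : L - (L - x) = x := by omega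
      rw [h2]
      exact hx
    · rintro ⟨j, hj, rfl⟩
      rw [n02_mem] at hj
      exact (h j (hs j hj)).1 hj

/-- N02b. The elements before `a`. -/
theorem sort_take (s : Finset ℕ) (a : ℕ) :
    (s.sort (· ≤ ·)).take (s.filter (fun j => j < a)).card = (s.filter (fun j => j < a)).sort (· ≤ ·) := by
  have h1 : (s.filter (fun j => j < a)).card = ((s.filter (fun j => j < a)).sort (· ≤ ·)).length := (Finset.length_sort _).symm
  rw [h1]
  conv_lhs => rw [n02_split s a]
  rw [List.take_left]

/-- N02c. The element `a`. -/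
theorem sort_get (s : Finset ℕ) (a : ℕ) (ha : a ∈ s) : (s.sort (· ≤ ·))[(s.filter (fun j => j < a)).card]? = some a := by
  have h1 : (s.filter (fun j => j < a)).card = ((s.filter (fun j => j < a)).sort (· ≤ ·)).length := (Finset.length_sort _).symm
  rw [n02_split2 s a ha, h1]
  simp

/-- N02d. The elements after `a`. -/
theorem sort_drop (s : Finset ℕ) (a : ℕ) (ha : a ∈ s) :
    (s.sort (· ≤ ·)).drop ((s.filter (fun j => j < a)).card + 1) = (s.filter (fun j => a < j)).sort (· ≤ ·) := by
  have h1 : (s.filter (fun j => j < a)).card = ((s.filter (fun j => j < a)).sort (· ≤ ·)).length := (Finset.length_sort _).symm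
  rw [n02_split2 s a ha, h1]
  have h2 : (s.filter (fun j => j < a)).sort (· ≤ ·) ++ a :: (s.filter (fun j => a < j)).sort (· ≤ ·) =
      ((s.filter (fun j => j < a)).sort (· ≤ ·) ++ [a]) ++ (s.filter (fun j => a < j)).sort (· ≤ ·) := by simp
  rw [h2]
  have h3 : ((s.filter (fun j => j < a)).sort (· ≤ ·)).length + 1 = ((s.filter (fun j => j < a)).sort (· ≤ ·) ++ [a]).length := by simp
  rw [h3, List.drop_left]

/-- N02e. A filtered range is the sorted list. -/
theorem sort_eq_range_filter (s : Finset ℕ) (a : ℕ) (hs : ∀ j ∈ s, j < a) :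
    s.sort (· ≤ ·) = (List.range a).filter (fun j => decide (j ∈ s)) := by
  apply n02_uniq (n02_pw s)
  · exact List.Pairwise.filter _ List.pairwise_lt_range
  · intro x
    rw [n02_mem, List.mem_filter, List.mem_range]
    constructor
    · intro hx
      exact ⟨hs x hx, by simpa using hx⟩
    · rintro ⟨_, hx⟩
      simpa using hx

end H98T
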