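import Mathlib
import Pool.Agent.Lib.H98T.N01
import Pool.Agent.Lib.H98T.N02

set_option autoImplicit false

/-!
# H98T.N03: the labels (boundary of the module N)
-/

namespace H98T

open Finset

variable {N Y C : Type} [DecidableEq Y] {src tgt : Y → C} {M : Net N Y} {w : Dart N → FreeGroup Y} {st : Dart N → C}
  {col : Y → N → ℕ} {El : Dart N → Prop} {P : Dart N → Finset ℕ}

/-- N03a. Length of a label. -/
theorem dlab_length (e : Dart N) : (dlab src tgt w st P e).length = (P e).card := by
  unfold dlab
  rw [List.length_map, Finset.length_sort]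

theorem n03_le (hw : WNet src tgt M w st) (hP : M.Good col El P) (e : Dart N) : ∀ j ∈ P e, j ≤ (M.word e).length := by
  classical
  intro j hj
  have h1 := hP.sub e hj
  unfold Net.P0 at h1
  have h2 := (Finset.mem_filter.1 h1).1
  rw [Finset.mem_range] at h2
  omega

theorem n03_lab {A : Type} (l : List ℕ) (f : ℕ → A) (p q : ℕ → Bool) :
    (((l.filter (fun j => p j || q j)).map (fun j => (f j, p j, q j))).filter (fun a => a.2.1)).map Prod.fst = (l.filter p).map f ∧
    (((l.filter (fun j => p j || q j)).map (fun j => (f j, p j, q j))).filter (fun a => a.2.2)).map Prod.fst = (l.filter q).map f ∧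
    (((l.filter (fun j => p j || q j)).map (fun j => (f j, p j, q j))).filter (fun a => a.2.1 != a.2.2)).length =
      (l.filter (fun j => p j != q j)).length := by
  induction l with
  | nil => simp
  | cons x l ih =>
    obtain ⟨h1, h2, h3⟩ := ih
    cases hp : p x <;> cases hq : q x <;>
      simp [hp, hq, h1, h2, h3]

/-- N03b. Labels of labelled darts outside `F` are reversed on the other side. -/
theorem dlab_inv (hw : WNet src tgt M w st) (hP : M.Good col El P) (e : Dart N) (he : El e) (hF : ¬ M.F e) :
    dlab src tgt w st P (M.inv e) = (dlab src tgt w st P e).reverse := by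
  unfold dlab
  have hlen : (M.word (M.inv e)).length = (M.word e).length := by
    rw [M.word_inv, List.length_reverse]
  have ht : ∀ j ∈ P (M.inv e), j ≤ (M.word e).length := by
    intro j hj
    rw [← hlen]
    exact n03_le hw hP _ j hj
  rw [sort_reflect (P e) (P (M.inv e)) (M.word e).length (n03_le hw hP e) ht (fun j hj => hP.sym e he hF j hj)]
  rw [List.map_reverse, List.map_map]
  congr 1
  apply List.map_congr_left
  intro j hj
  rw [Finset.mem_sort] at hj
  exact dcell_inv hw e j (n03_le hw hP e j hj)

/-- N03c. The centre in the label. -/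
theorem dlab_ctr (hw : WNet src tgt M w st) (hP : M.Good col El P) (z : N) (hz : ¬ M.cut z) (hE : ∀ j, El (z, j)) (j : Fin 3) :
    (dlab src tgt w st P (z, j))[dpc M P (z, j)]? = some (dctr src tgt M w st z) := by
  unfold dlab dpc
  rw [List.getElem?_map, sort_get (P (z, j)) (M.leg (z, j)) (hP.cen z hE j), Option.map_some, dcell_ctr hw z hz j]

/-- N03d. The edit distance at a corner of a node is at most the number of mismatches. -/
theorem dlab_edit (hw : WNet src tgt M w st) (hP : M.Good col El P) (z : N) (hz : ¬ M.cut z) (hE : ∀ j, El (z, j)) (j : Fin 3) :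
    Edit ((dlab src tgt w st P (z, j)).take (dpc M P (z, j)))
      (((dlab src tgt w st P (prv (z, j))).drop (dpc M P (prv (z, j)) + 1)).reverse) (mism M P (z, j)) := by
  set e : Dart N := (z, j) with he
  set S := P e with hS
  set S' := P (prv e) with hS'
  set a := M.leg e with ha
  set L' := (M.word (prv e)).length with hL'
  have hcut : ¬ M.cut (prv e).1 := hz
  have hlen : L' = M.leg (prv e) + a := by
    rw [hL', M.len (prv e) hcut, n01_nxt_prv]
  have hcen' : M.leg (prv e) ∈ S' := hP.cen z hE (prv e).2
  have hA : (dlab src tgt w st P e).take (dpc M P e) = ((List.range a).filter (fun i => decide (i ∈ S))).map (dcell src tgt w st e) := by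
    unfold dlab dpc
    have hsr : ((P e).filter (fun i => i < a)).sort (· ≤ ·) = (List.range a).filter (fun i => decide (i ∈ S)) := by
      rw [sort_eq_range_filter _ a (fun i hi => (Finset.mem_filter.1 hi).2)]
      apply List.filter_congr
      intro i hi
      rw [List.mem_range] at hi
      simp [hi, hS]
    rw [← hsr, ← List.map_take, sort_take]
  have hB : ((dlab src tgt w st P (prv e)).drop (dpc M P (prv e) + 1)).reverse =
      ((List.range a).filter (fun i => decide (L' - i ∈ S'))).map (dcell src tgt w st e) := by
    unfold dlab dpc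
    rw [← List.map_drop, sort_drop _ _ hcen']
    have hrefl := sort_reflect ((P (prv e)).filter (fun i => M.leg (prv e) < i)) ((Finset.range a).filter (fun i => L' - i ∈ S')) L'
      (fun i hi => n03_le hw hP _ i (Finset.mem_filter.1 hi).1)
      (fun i hi => by
        have := (Finset.mem_filter.1 hi).1
        rw [Finset.mem_range] at this
        omega)
      (fun i hi => by
        rw [Finset.mem_filter, Finset.mem_filter, Finset.mem_range]
        have h2 : L' - (L' - i) = i := by omega
        rw [h2]
        constructor
        · rintro ⟨h3, h4⟩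
          exact ⟨by omega, h3⟩
        · rintro ⟨h3, h4⟩
          exact ⟨h4, by omega⟩)
    have hsr : (((Finset.range a).filter (fun i => L' - i ∈ S')).sort (· ≤ ·)) = (List.range a).filter (fun i => decide (L' - i ∈ S')) := by
      rw [sort_eq_range_filter _ a (fun i hi => Finset.mem_range.1 (Finset.mem_filter.1 hi).1)]
      apply List.filter_congr
      intro i hi
      rw [List.mem_range] at hi
      simp [hi]
    rw [← hsr, hrefl, List.map_reverse, List.map_map]
    congr 1
    apply List.map_congr_left
    intro i hi
    rw [Finset.mem_sort, Finset.mem_filter] at hi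
    have h5 := n03_le hw hP _ i hi.1
    have h6 := dcell_prv hw e (L' - i) (by omega)
    have h7 : L' - (L' - i) = i := by omega
    rw [← hL', h7] at h6
    exact h6
  rw [hA, hB]
  obtain ⟨h1, h2, h3⟩ := n03_lab (List.range a) (dcell src tgt w st e) (fun i => decide (i ∈ S)) (fun i => decide (L' - i ∈ S'))
  refine ⟨_, h1, h2, ?_⟩
  rw [h3]
  unfold mism
  rw [← hL']
  have h4 : ((List.range a).filter (fun i => decide (i ∈ S) != decide (L' - i ∈ S'))).length =
      (((Finset.range a).filter (fun i => ¬ (i ∈ S ↔ L' - i ∈ S')))).card := by
    rw [← List.toFinset_card_of_nodup (List.Nodup.filter _ List.nodup_range)]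
    congr 1
    ext i
    simp only [List.mem_toFinset, List.mem_filter, List.mem_range, Finset.mem_filter, Finset.mem_range]
    by_cases hi1 : i ∈ S <;> by_cases hi2 : L' - i ∈ S' <;> simp [hi1, hi2]
  rw [h4]
  apply Finset.card_le_card
  intro i hi
  rw [Finset.mem_filter, Finset.mem_range] at hi ⊢
  exact ⟨by omega, hi.2⟩

/-- N03e. A dart with trivial word has a label of length at most one. -/
theorem dlab_one (hw : WNet src tgt M w st) (hP : M.Good col El P) (e : Dart N) (h1 : w e = 1) : (dlab src tgt w st P e).length ≤ 1 := by
  rw [dlab_length]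
  have h2 : (M.word e).length = 0 := by
    rw [wnet_len hw, h1, FreeGroup.toWord_one]
    rfl
  have h3 : P e ⊆ {0} := by
    intro j hj
    have h4 := n03_le hw hP e j hj
    rw [Finset.mem_singleton]
    omega
  have h5 := Finset.card_le_card h3
  simpa using h5

/-- N03f. A dart with trivial word at a completely labelled node has a label of length one. -/
theorem dlab_one_eq (hw : WNet src tgt M w st) (hP : M.Good col El P) (z : N) (hE : ∀ j, El (z, j)) (j : Fin 3) (h1 : w (z, j) = 1) :
    (dlab src tgt w st P (z, j)).length = 1 := by
  apply le_antisymm (dlab_one hw hP (z, j) h1)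
  rw [dlab_length]
  exact Finset.card_pos.2 ⟨_, hP.cen z hE j⟩

end H98T
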