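import Mathlib
import Pool.Agent.Lib.H98T.ZDefs
import Pool.Agent.Lib.H98T.GDefs

set_option autoImplicit false

/-!
# H98T, section 10: the words, walks and cells belonging to a context
-/

namespace H98T

open Finset

open Classical in
/-- The signed words `wd e` of the darts, their start cells `st e`, the cells `Rp x` near the polygon `x` (called `R'(x)` in `PROOF.md`). -/
structure LCtx {g : ℕ} {hg : 2 ≤ g} {V : Type} [Fintype V] {σ : Fin (2 * g) → Equiv.Perm V}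
    {F : Finset (Fin 2 × V)} {Y : Type} (Z : ZCtx hg σ F Y) (C : Type) (kap : ℝ) where
  src : Y → C
  tgt : Y → C
  wd : Dart (Nd g V) → FreeGroup Y
  st : Dart (Nd g V) → C
  Rp : V → Set C
  wd_word : ∀ e, Z.M.word e = (wd e).toWord.map Prod.fst
  leg_le : ∀ e, Z.M.leg e ≤ (wd e).toWord.length
  leg_take : ∀ e, (wd e).toWord.take (Z.M.leg e) = ((wd (prv e))⁻¹).toWord.take (Z.M.leg e)
  wd_inv : ∀ e, wd (Z.M.inv e) = (wd e)⁻¹
  walk : ∀ e, Walk src tgt (st e) (wd e) (st (nxt e))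
  st_inv : ∀ e, st (Z.M.inv e) = st (nxt e)
  st_mem : ∀ e, st e ∈ Rp e.1.1
  src_mem : ∀ e y, y ∈ Z.M.word e → src y ∈ Rp e.1.1
  tgt_mem : ∀ e y, y ∈ Z.M.word e → tgt y ∈ Rp e.1.1
  mult : ∀ c, ({x | c ∈ Rp x}.ncard : ℝ) ≤ kap * Fintype.card V

end H98T
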