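import Mathlib
import Pool.Agent.Lib.H98T.ZL
import Pool.Agent.Lib.H98T.N03
import Pool.Agent.Lib.H98T.Z02

set_option autoImplicit false

/-!
# H98T.Z08: from the positions to the data for the entropy count
-/

namespace H98T

open Finset

variable {g : ℕ} {hg : 2 ≤ g} {V : Type} [Fintype V] {σ : Fin (2 * g) → Equiv.Perm V} {F : Finset (Fin 2 × V)} {Y : Type}

open Classical in
theorem LCtx.wnet {Z : ZCtx hg σ F Y} {C : Type} {kap : ℝ} (L : LCtx Z C kap) : WNet L.src L.tgt Z.M L.wd L.st :=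
  ⟨L.wd_word, L.leg_le, L.leg_take, L.wd_inv, L.walk, L.st_inv⟩

open Classical in
/-- The labels. -/
noncomputable def LCtx.lab {Z : ZCtx hg σ F Y} {C : Type} {kap : ℝ} (L : LCtx Z C kap) {Nc : ℕ} (ec : C ≃ Fin Nc) (P : Dart (Nd g V) → Finset ℕ)
    (e : Dart (Nd g V)) : List (Fin Nc) :=
  if Z.F0 e then [ec (L.st e)] else (dlab L.src L.tgt L.wd L.st P e).map ec

/-- Z08a (S/M). `F0`-darts have trivial words. -/
theorem LCtx.wd_F0 {Z : ZCtx hg σ F Y} {C : Type} {kap : ℝ} (L : LCtx Z C kap) (e : Dart (Nd g V)) (h : Z.F0 e) : L.wd e = 1 := by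
  classical
  have h1 := L.wd_word e
  rw [Z.F0_nil e h] at h1
  have h2 : (L.wd e).toWord = [] := by
    rw [← List.map_eq_nil_iff (f := Prod.fst)]
    exact h1.symm
  exact FreeGroup.toWord_eq_nil_iff.1 h2

open Classical in
/-- Z08b. At a completely labelled node all labels are `dlab`. -/
theorem LCtx.lab_eq {Z : ZCtx hg σ F Y} {C : Type} {kap : ℝ} (L : LCtx Z C kap) {Nc : ℕ} (ec : C ≃ Fin Nc) {col : Y → Nd g V → ℕ}
    {P : Dart (Nd g V) → Finset ℕ} (hP : Z.M.Good col (Z.El col) P) (z : Nd g V) (hz : ∀ j, Z.El col (z, j)) (j : Fin 3) :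
    L.lab ec P (z, j) = (dlab L.src L.tgt L.wd L.st P (z, j)).map ec := by
  unfold LCtx.lab
  by_cases h : Z.F0 (z, j)
  · rw [if_pos h]
    have h1 := L.wd_F0 (z, j) h
    have h2 := dlab_one_eq L.wnet hP z hz j h1
    obtain ⟨c, hc⟩ := List.length_eq_one_iff.1 h2
    have hcut : ¬ Z.M.cut z := (Z.labOK col).uncut _ (hz j)
    have h3 := dlab_ctr L.wnet hP z hcut hz j
    have h4 : dlab L.src L.tgt L.wd L.st P (z, j) = [L.st (z, j)] := by
      have h5 := dcell_ctr L.wnet z hcut j
      have h6 := L.leg_le (z, j)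
      rw [h1, FreeGroup.toWord_one, List.length_nil, Nat.le_zero] at h6
      rw [h6] at h5
      have h7 : dcell L.src L.tgt L.wd L.st (z, j) 0 = L.st (z, j) := by
        unfold dcell cellAt
        rw [if_pos rfl]
      rw [h7] at h5
      rw [hc] at h3 ⊢
      have h8 : dpc Z.M P (z, j) = 0 := by
        unfold dpc
        rw [h6]
        simp
      rw [h8, List.getElem?_cons_zero, Option.some.injEq] at h3
      rw [h3, h5]
    rw [h4]
    rfl
  · rw [if_neg h]

theorem Edit.map {α β : Type} (f : α → β) {A B : List α} {b : ℕ} (h : Edit A B b) : Edit (A.map f) (B.map f) b := by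
  obtain ⟨U, h1, h2, h3⟩ := h
  refine ⟨U.map (fun a => (f a.1, a.2)), ?_, ?_, ?_⟩
  · rw [List.filter_map, List.map_map, ← h1, List.map_map]
    rfl
  · rw [List.filter_map, List.map_map, ← h2, List.map_map]
    rfl
  · rw [List.filter_map, List.length_map]
    exact h3

theorem z08_darts (g : ℕ) (hg : 2 ≤ g) (V : Type) [Fintype V] : (Fintype.card (Dart (Nd g V)) : ℝ) ≤ 12 * g * Fintype.card V := by
  have h1 : Fintype.card (Dart (Nd g V)) = Fintype.card V * (4 * g - 2) * 3 := by
    simp [Dart, Nd, Fintype.card_prod]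
  have h2 : Fintype.card V * (4 * g - 2) * 3 ≤ 12 * g * Fintype.card V := by
    have h3 : (4 * g - 2) * 3 ≤ 12 * g := by omega
    calc Fintype.card V * (4 * g - 2) * 3 = ((4 * g - 2) * 3) * Fintype.card V := by ring
      _ ≤ 12 * g * Fintype.card V := Nat.mul_le_mul_right _ h3
  rw [h1]
  exact_mod_cast h2

open Classical in
/-- The number of darts at a set of polygons. -/
theorem z08_irr (g : ℕ) (hg : 2 ≤ g) (V : Type) [Fintype V] (A : V → Prop) :
    (∑ e : Dart (Nd g V), if A e.1.1 then (1 : ℝ) else 0) ≤ 12 * g * {x | A x}.ncard := by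
  have h1 : (∑ e : Dart (Nd g V), if A e.1.1 then (1 : ℝ) else 0) = ∑ x : V, ∑ _k : Fin (4 * g - 2), ∑ _j : Fin 3, if A x then (1 : ℝ) else 0 := by
    rw [Fintype.sum_prod_type, Fintype.sum_prod_type]
  have h2 : ∀ x : V, (∑ _k : Fin (4 * g - 2), ∑ _j : Fin 3, if A x then (1 : ℝ) else 0) = (((4 * g - 2) * 3 : ℕ) : ℝ) * if A x then (1 : ℝ) else 0 := by
    intro x
    rw [Finset.sum_const, Finset.sum_const, Finset.card_univ, Finset.card_univ, Fintype.card_fin, Fintype.card_fin, nsmul_eq_mul, nsmul_eq_mul]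
    push_cast
    ring
  rw [h1, Finset.sum_congr rfl (fun x _ => h2 x), ← Finset.mul_sum]
  have h3 : (∑ x : V, if A x then (1 : ℝ) else 0) = {x | A x}.ncard := by
    rw [Finset.sum_boole, Set.ncard_eq_toFinset_card', Set.toFinset_ofPred]
  rw [h3]
  apply mul_le_mul_of_nonneg_right _ (Nat.cast_nonneg _)
  have h4 : (4 * g - 2) * 3 ≤ 12 * g := by omega
  exact_mod_cast h4

open Classical in
/-- Z08. THE DATA FOR THE ENTROPY COUNT. -/
theorem enc_of_positions {Z : ZCtx hg σ F Y} (tree : IsSpanTree (two σ) F) {C : Type} {kap : ℝ} (L : LCtx Z C kap) {Nc : ℕ} (ec : C ≃ Fin Nc)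
    (col : Y → Nd g V → ℕ) (P : Dart (Nd g V) → Finset ℕ) (Lam th X : ℝ) (I Pm : ℕ) (hL : 1 ≤ Lam) (hX0 : 0 ≤ X) (hPm1 : 1 ≤ Pm)
    (hP : Z.M.Good col (Z.El col) P) (hPm : ∀ e, (P e).card ≤ Pm)
    (hMis : (Z.M.Mis (Z.El col) P : ℝ) ≤ 2 * th * I * Fintype.card V)
    (hsum : (∑ e : Dart (Nd g V), ((P e).card : ℝ)) ≤ (36 * g * (1 + Z.Ap) + 6) * Fintype.card V)
    (hspec : Lam * (∑ e : Dart (Nd g V), if Z.spec col e then ((P e).card : ℝ) else 0) ≤ (36 * g * (1 + Z.Ap) + 6) * Fintype.card V)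
    (hirr : ({x | ¬ Z.reg col x}.ncard : ℝ) ≤ X * Fintype.card V) :
    Nonempty (Enc hg σ Nc Pm (36 * g * (1 + Z.Ap) + 6 + 12 * g) kap (2 * th * I)
      ((36 * g * (1 + Z.Ap) + 6 + 12 * g) / Lam + 2 * (Z.w4 + 12 * g * X)) Z.w4) := by
  have hinv : Z.M.inv = dinv hg σ := Z.inv_eq
  have hF : Z.M.F = FD hg σ F := Z.F_eq
  have hlabOK := Z.labOK col
  have hreg : ∀ x, Z.reg col x ↔ ∀ k j, Z.El col ((x, k), j) := fun x => Iff.rfl
  have hlen : ∀ e, ((L.lab ec P e).length : ℝ) ≤ (P e).card + 1 := by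
    intro e
    unfold LCtx.lab
    by_cases h : Z.F0 e
    · rw [if_pos h]
      simp
    · rw [if_neg h, List.length_map, dlab_length]
      linarith
  have hApn := Z.nonneg.1
  have hw4n := Z.nonneg.2.2.2.1
  have hgr : (2 : ℝ) ≤ g := by exact_mod_cast hg
  refine ⟨{ F := F
            tree := tree
            El := Z.El col
            F0 := Z.F0
            L := L.lab ec P
            pc := dpc Z.M P
            ctr := fun z => ec (dctr L.src L.tgt Z.M L.wd L.st z)
            b := mism Z.M P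
            El_inv := ?_
            L_inv := ?_
            L_len := ?_
            F0_F := ?_
            cen := ?_
            edit := ?_
            sumL := ?_
            fib := ?_
            sumb := ?_
            sumS := ?_
            numR := ?_
            numF1 := ?_ }⟩
  · intro e he hnF
    rw [← hF] at hnF
    have h1 := hlabOK.inv e he hnF
    rw [hinv] at h1
    exact h1
  · intro e he hnF
    rw [← hF] at hnF
    have h1 := dlab_inv L.wnet hP e he hnF
    rw [hinv] at h1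
    have h2 : ¬ Z.F0 e := fun h => hnF (Z.F0_F e h)
    have h3 : ¬ Z.F0 (dinv hg σ e) := by
      rw [← hinv]
      exact fun h => h2 ((Z.F0_inv e).1 h)
    unfold LCtx.lab
    rw [if_neg h2, if_neg h3, h1, List.map_reverse]
  · intro e he
    unfold LCtx.lab
    by_cases h : Z.F0 e
    · rw [if_pos h]
      simpa using hPm1
    · rw [if_neg h, List.length_map, dlab_length]
      exact hPm e
  · intro e he
    refine ⟨?_, ?_⟩
    · rw [← hF]; exact Z.F0_F e he
    · unfold LCtx.lab
      rw [if_pos he]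
      simp
  · intro z hz j
    have hz' : ∀ j, Z.El col (z, j) := fun j => hz z.2 j
    have hcut : ¬ Z.M.cut z := hlabOK.uncut _ (hz' 0)
    rw [L.lab_eq ec hP z hz' j, List.getElem?_map, dlab_ctr L.wnet hP z hcut hz' j]
    rfl
  · intro z hz j
    have hz' : ∀ j, Z.El col (z, j) := fun j => hz z.2 j
    have hcut : ¬ Z.M.cut z := hlabOK.uncut _ (hz' 0)
    have h1 := (dlab_edit L.wnet hP z hcut hz' j).map ec
    have h2 : prv (z, j) = (z, j + 2) := rfl
    rw [h2] at h1 ⊢
    rw [L.lab_eq ec hP z hz' j, L.lab_eq ec hP z hz' (j + 2), ← List.map_take, ← List.map_drop, ← List.map_reverse]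
    exact h1
  · -- sumL
    have h1 : (∑ e : Dart (Nd g V), if Z.El col e then ((L.lab ec P e).length : ℝ) else 0) ≤ ∑ e : Dart (Nd g V), (((P e).card : ℝ) + 1) := by
      apply Finset.sum_le_sum
      intro e _
      by_cases h : Z.El col e
      · rw [if_pos h]
        exact hlen e
      · rw [if_neg h]
        positivity
    refine le_trans h1 ?_
    rw [Finset.sum_add_distrib, Finset.sum_const, Finset.card_univ, nsmul_eq_mul, mul_one]
    have h2 := z08_darts g hg V
    calc _ ≤ (36 * g * (1 + Z.Ap) + 6) * (Fintype.card V : ℝ) + 12 * g * Fintype.card V := add_le_add hsum h2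
      _ = _ := by ring
  · -- fib
    intro Q k
    refine le_trans ?_ (L.mult (ec.symm Q))
    have h1 : {x : V | (∀ k' j, Z.El col ((x, k'), j)) ∧ ec (dctr L.src L.tgt Z.M L.wd L.st (x, k)) = Q} ⊆ {x | ec.symm Q ∈ L.Rp x} := by
      rintro x ⟨_, hx⟩
      have h2 : ec.symm Q = dctr L.src L.tgt Z.M L.wd L.st (x, k) := by
        rw [← hx, Equiv.symm_apply_apply]
      show ec.symm Q ∈ L.Rp x
      rw [h2]
      rcases dctr_mem L.wnet (x, k) with h3 | ⟨y, hy, h3 | h3⟩
      · rw [h3]; exact L.st_mem ((x, k), 0)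
      · rw [h3]; exact L.src_mem ((x, k), 0) y hy
      · rw [h3]; exact L.tgt_mem ((x, k), 0) y hy
    exact_mod_cast Set.ncard_le_ncard h1 (Set.toFinite _)
  · -- sumb
    refine le_trans ?_ hMis
    unfold Net.Mis
    push_cast
    apply Finset.sum_le_sum
    intro e _
    by_cases h : ∀ k j, Z.El col ((e.1.1, k), j)
    · rw [if_pos h]
      have h2 : ∀ j, Z.El col (e.1, j) := fun j => h e.1.2 j
      rw [if_pos h2]
    · rw [if_neg h]
      split_ifs
      · positivity
      · exact le_refl _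
  · -- sumS
    have hbase : ∀ e : Dart (Nd g V), (if Z.El col e ∧ ((FD hg σ F e ∧ ¬ Z.F0 e) ∨ ¬ (∀ k j, Z.El col ((e.1.1, k), j))) then ((L.lab ec P e).length : ℝ) + 1 else 0) ≤
        (if Z.spec col e then ((P e).card : ℝ) else 0) + 2 * ((if (Z.M.F e ∧ ¬ Z.F0 e) then (1 : ℝ) else 0) + if ¬ Z.reg col e.1.1 then (1 : ℝ) else 0) := by
      intro e
      by_cases h : Z.El col e ∧ ((FD hg σ F e ∧ ¬ Z.F0 e) ∨ ¬ (∀ k j, Z.El col ((e.1.1, k), j)))
      · rw [if_pos h]
        have h1 := hlen e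
        rcases h.2 with h2 | h2
        · rw [← hF] at h2
          have h3 : Z.spec col e := Or.inr (Or.inr h2)
          rw [if_pos h3, if_pos h2]
          have h4 : (0 : ℝ) ≤ if ¬ Z.reg col e.1.1 then (1 : ℝ) else 0 := by split_ifs <;> norm_num
          linarith
        · have h3 : Z.spec col e := Or.inl h2
          have h4 : ¬ Z.reg col e.1.1 := h2
          rw [if_pos h3, if_pos h4]
          have h5 : (0 : ℝ) ≤ if (Z.M.F e ∧ ¬ Z.F0 e) then (1 : ℝ) else 0 := by split_ifs <;> norm_num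
          linarith
      · rw [if_neg h]
        have h1 : (0 : ℝ) ≤ if Z.spec col e then ((P e).card : ℝ) else 0 := by
          split_ifs
          · positivity
          · exact le_refl _
        have h2 : (0 : ℝ) ≤ if (Z.M.F e ∧ ¬ Z.F0 e) then (1 : ℝ) else 0 := by split_ifs <;> norm_num
        have h3 : (0 : ℝ) ≤ if ¬ Z.reg col e.1.1 then (1 : ℝ) else 0 := by split_ifs <;> norm_num
        linarith
    refine le_trans (Finset.sum_le_sum (fun e _ => hbase e)) ?_
    rw [Finset.sum_add_distrib, ← Finset.mul_sum, Finset.sum_add_distrib]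
    have h1 : (∑ e : Dart (Nd g V), if Z.spec col e then ((P e).card : ℝ) else 0) ≤ (36 * g * (1 + Z.Ap) + 6 + 12 * g) / Lam * Fintype.card V := by
      rw [div_mul_eq_mul_div, le_div_iff₀ (by linarith), mul_comm]
      refine le_trans hspec ?_
      apply mul_le_mul_of_nonneg_right _ (Nat.cast_nonneg _)
      linarith
    have h2 : (∑ e : Dart (Nd g V), if (Z.M.F e ∧ ¬ Z.F0 e) then (1 : ℝ) else 0) ≤ Z.w4 * Fintype.card V := by
      refine le_trans (le_of_eq ?_) Z.n4
      rw [Finset.sum_boole, Set.ncard_eq_toFinset_card', Set.toFinset_ofPred]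
    have h3 : (∑ e : Dart (Nd g V), if ¬ Z.reg col e.1.1 then (1 : ℝ) else 0) ≤ 12 * g * (X * Fintype.card V) := by
      refine le_trans (le_of_eq (Finset.sum_congr rfl (fun e _ => ?_))) (le_trans (z08_irr g hg V (fun x => ¬ Z.reg col x)) ?_)
      · by_cases h : Z.reg col e.1.1
        · rw [if_neg (fun h' => h' h), if_neg (fun h' => h' h)]
        · rw [if_pos h, if_pos h]
      · exact mul_le_mul_of_nonneg_left hirr (by positivity)
    calc _ ≤ (36 * g * (1 + Z.Ap) + 6 + 12 * g) / Lam * Fintype.card V + 2 * (Z.w4 * Fintype.card V + 12 * g * (X * Fintype.card V)) := by gcongr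
      _ = _ := by ring
  · -- numR
    refine le_trans hirr ?_
    apply mul_le_mul_of_nonneg_right _ (Nat.cast_nonneg _)
    have h1 : (0 : ℝ) ≤ (36 * g * (1 + Z.Ap) + 6 + 12 * g) / Lam := by positivity
    have h2 : X ≤ g * X := by nlinarith
    nlinarith
  · -- numF1
    refine le_trans ?_ Z.n4
    have h1 : {e : Dart (Nd g V) | FD hg σ F e ∧ ¬ Z.F0 e ∧ Z.El col e} ⊆ {e | Z.M.F e ∧ ¬ Z.F0 e} := by
      rintro e ⟨h1, h2, _⟩
      rw [← hF] at h1
      exact ⟨h1, h2⟩
    exact_mod_cast Set.ncard_le_ncard h1 (Set.toFinite _)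

end H98T
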