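import Mathlib
import Pool.Agent.Lib.H98T.GDefs

set_option autoImplicit false

/-!
# H98T.GE1: symmetrised step words
-/

namespace H98T

open Finset

variable {g : ℕ} {V : Type*} {σ : Fin (2 * g) → Equiv.Perm V} {n C0 W K : ℕ}

/-- GE1a. Chunk GE1 (size S). -/
theorem stepw_self (B : Bx n K) (r : ℕ) (z : Fin n → ℤ) : B.stepw r z z = 1 := by
  unfold Bx.stepw
  apply List.prod_eq_one
  intro x hx
  rw [List.mem_ofFn] at hx
  obtain ⟨i, rfl⟩ := hx
  have h1 : ¬ z i = z i + 1 := by omega
  have h2 : ¬ z i = z i - 1 := by omega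
  simp only [if_neg h1, if_neg h2]

/-- GE1b. Chunk GE1 (size S). -/
theorem sw_self (B : Bx n K) (r : ℕ) (z : Fin n → ℤ) : B.sw r z z = 1 := by
  unfold Bx.sw
  rw [stepw_self]
  simp

/-- GE1c. Chunk GE1 (size S). -/
theorem sw_inv (B : Bx n K) (r : ℕ) (z z' : Fin n → ℤ) : B.sw r z' z = (B.sw r z z')⁻¹ := by
  unfold Bx.sw
  by_cases h1 : toLex z' ≤ toLex z
  · by_cases h2 : toLex z ≤ toLex z'
    · have h3 : z = z' := toLex.injective (le_antisymm h2 h1)
      subst h3
      simp [stepw_self]
    · rw [if_pos h1, if_neg h2, inv_inv]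
  · have h2 : toLex z ≤ toLex z' := le_of_not_ge h1
    rw [if_neg h1, if_pos h2]

/-- GE1d. Chunk GE1 (size S). The word of the reversed path. -/
theorem pathw_rev (B : Bx n K) (r : ℕ) (E : ℕ → (Fin n → ℤ)) (m : ℕ) :
    B.pathw r (fun i => E (m - i)) m = (B.pathw r E m)⁻¹ := by
  unfold Bx.pathw
  induction m with
  | zero => simp
  | succ m ih =>
    rw [List.range_succ_eq_map, List.map_cons, List.prod_cons, List.map_map, ← List.range_succ_eq_map, List.range_succ, List.map_append, List.prod_append, mul_inv_rev, ← ih]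
    have h1 : ((fun i => B.sw r (E (m + 1 - i)) (E (m + 1 - (i + 1)))) ∘ Nat.succ) = fun i => B.sw r (E (m - i)) (E (m - (i + 1))) := by
      funext i
      simp only [Function.comp_apply, Nat.succ_eq_add_one]
      congr 2
      · omega
      · omega
    rw [h1]
    simp only [List.map_cons, List.map_nil, List.prod_cons, List.prod_nil, mul_one, Nat.sub_zero, Nat.zero_add, Nat.add_sub_cancel]
    rw [← sw_inv]

end H98T
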