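import Mathlib
import Pool.Agent.Lib.H98T.GE1

set_option autoImplicit false

/-!
# H98T.GE2: the local potential
-/

namespace H98T

open Finset

variable {g : ℕ} {V : Type*} {σ : Fin (2 * g) → Equiv.Perm V} {n C0 W K : ℕ}

theorem ge2_up (a b : Fin n → ℤ) (i : Fin n) (h : b i = a i + 1) : hyb a b (i.val + 1) = hyb a b i.val + ev i := by
  funext j
  unfold hyb
  rw [Pi.add_apply]
  unfold ev
  rcases lt_trichotomy j.val i.val with hj | hj | hj
  · have h1 : j ≠ i := fun hh => by rw [hh] at hj; omega
    rw [if_pos (by omega), if_pos hj, if_neg h1, add_zero]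
  · have h1 : j = i := Fin.ext hj
    subst h1
    rw [if_pos (by omega), if_neg (by omega), if_pos rfl, h]
  · have h1 : j ≠ i := fun hh => by rw [hh] at hj; omega
    rw [if_neg (by omega), if_neg (by omega), if_neg h1, add_zero]

theorem ge2_down (a b : Fin n → ℤ) (i : Fin n) (h : b i = a i - 1) : hyb a b i.val = hyb a b (i.val + 1) + ev i := by
  funext j
  unfold hyb
  rw [Pi.add_apply]
  unfold ev
  rcases lt_trichotomy j.val i.val with hj | hj | hj
  · have h1 : j ≠ i := fun hh => by rw [hh] at hj; omega
    rw [if_pos hj, if_pos (by omega), if_neg h1, add_zero]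
  · have h1 : j = i := Fin.ext hj
    subst h1
    rw [if_neg (by omega), if_pos (by omega), if_pos rfl, h]
    ring
  · have h1 : j ≠ i := fun hh => by rw [hh] at hj; omega
    rw [if_neg (by omega), if_neg (by omega), if_neg h1, add_zero]

theorem ge2_flat (a b : Fin n → ℤ) (i : Fin n) (h : b i = a i) : hyb a b (i.val + 1) = hyb a b i.val := by
  funext j
  unfold hyb
  rcases lt_trichotomy j.val i.val with hj | hj | hj
  · rw [if_pos (by omega), if_pos hj]
  · have h1 : j = i := Fin.ext hj
    subst h1
    rw [if_pos (by omega), if_neg (by omega), h]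
  · rw [if_neg (by omega), if_neg (by omega)]

open Classical in
/-- The potential. -/
noncomputable def ge2_psi (B : Bx n K) (y0 : Lt n K) (c : Fin n → ℤ) : FreeGroup (Lt n K) :=
  if B.Q c = ltgt y0 then FreeGroup.of y0 else 1

theorem ge2_cw (B : Bx n K) (r : ℕ) (z : Fin n → ℤ) (y0 : Lt n K)
    (h : ∀ z' i', near 2 z' z → B.X z' i' → B.lab r z' i' = y0) (a : Fin n → ℤ) (i : Fin n) (ha : near 2 a z) :
    B.cw r a i = (ge2_psi B y0 a)⁻¹ * ge2_psi B y0 (a + ev i) := by
  classical
  unfold Bx.cw ge2_psi
  by_cases hX : B.X a i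
  · have h1 := h a i ha hX
    have h2 : B.Q a = lsrc y0 := by rw [← h1]; rfl
    have h3 : B.Q (a + ev i) = ltgt y0 := by rw [← h1]; rfl
    have h4 : B.Q a ≠ ltgt y0 := by
      intro h5
      exact hX (h5.trans h3.symm)
    rw [if_pos hX, if_neg h4, if_pos h3, h1]
    simp
  · have h1 : B.Q a = B.Q (a + ev i) := by
      unfold Bx.X at hX
      push Not at hX
      exact hX
    rw [if_neg hX, ← h1, inv_mul_cancel]

theorem ge2_step (B : Bx n K) (r : ℕ) (z : Fin n → ℤ) (y0 : Lt n K)
    (h : ∀ z' i', near 2 z' z → B.X z' i' → B.lab r z' i' = y0) (a b : Fin n → ℤ) (ha : near 1 a z) (hb : near 1 b z) (hab : close a b) :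
    B.stepw r a b = (ge2_psi B y0 a)⁻¹ * ge2_psi B y0 b := by
  unfold Bx.stepw
  set f : Fin n → FreeGroup (Lt n K) := fun i : Fin n =>
    if b i = a i + 1 then B.cw r (hyb a b i.val) i
    else if b i = a i - 1 then (B.cw r (hyb a b (i.val + 1)) i)⁻¹
    else 1 with hf
  have h0 : hyb a b 0 = a := by
    funext j
    unfold hyb
    rw [if_neg (by omega)]
  have hn : hyb a b n = b := by
    funext j
    unfold hyb
    rw [if_pos j.isLt]
  have hnr : ∀ m, near 2 (hyb a b m) z := by
    intro m c
    unfold hyb
    have h1 := ha c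
    have h2 := hb c
    push_cast at h1 h2 ⊢
    by_cases hc : c.val < m
    · rw [if_pos hc]
      linarith
    · rw [if_neg hc]
      linarith
  have key : ∀ m, m ≤ n → ((List.ofFn f).take m).prod = (ge2_psi B y0 a)⁻¹ * ge2_psi B y0 (hyb a b m) := by
    intro m
    induction m with
    | zero =>
      intro _
      rw [List.take_zero, List.prod_nil, h0]
      simp
    | succ m ih =>
      intro hm
      have hlen : m < (List.ofFn f).length := by
        rw [List.length_ofFn]
        omega
      rw [List.take_succ_eq_append_getElem hlen, List.prod_append, List.prod_singleton, List.getElem_ofFn, ih (by omega)]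
      set i : Fin n := ⟨m, by omega⟩ with hi
      have h1 := hab i
      rw [abs_le] at h1
      have hgoal : f i = (ge2_psi B y0 (hyb a b i.val))⁻¹ * ge2_psi B y0 (hyb a b (i.val + 1)) := by
        by_cases hup : b i = a i + 1
        · have hfi : f i = B.cw r (hyb a b i.val) i := by
            rw [hf]
            simp only [if_pos hup]
          rw [hfi, ge2_cw B r z y0 h _ i (hnr _), ge2_up a b i hup]
        · by_cases hdown : b i = a i - 1
          · have hfi : f i = (B.cw r (hyb a b (i.val + 1)) i)⁻¹ := by
              rw [hf]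
              simp only [if_neg hup, if_pos hdown]
            rw [hfi, ge2_cw B r z y0 h _ i (hnr _), ← ge2_down a b i hdown, mul_inv_rev, inv_inv]
          · have hfi : f i = 1 := by
              rw [hf]
              simp only [if_neg hup, if_neg hdown]
            have h3 : b i = a i := by omega
            rw [hfi, ge2_flat a b i h3]
            simp
      have hgoal' : f ⟨m, by omega⟩ = (ge2_psi B y0 (hyb a b m))⁻¹ * ge2_psi B y0 (hyb a b (m + 1)) := hgoal
      rw [hgoal']
      group
  have h1 := key n le_rfl
  rw [hn, List.take_of_length_le (by rw [List.length_ofFn])] at h1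
  exact h1

/-- GE2. Chunk GE2 (size M). Suppose that all crossing edges within distance `2` of `z` have the label `y0`.  With `psi a = y0` if `a` is in the target cell of `y0` and `psi a = 1` otherwise, the word of a step
`a → b` (`a, b` within `1` of `z`, `close a b`) is `(psi a)⁻¹ psi b`.
Proof: for a unit edge `(a, i)` with `a` within `2` of `z`: if it is crossing its label is `y0`, so `a` is in the source cell and `a + e_i` in the target cell, and these are different; `cw = y0`.  If it is not crossing
`psi` agrees at both ends and `cw = 1`.  The canonical path from `a` to `b` has its points within `1` of `z` (coordinates of `a` or `b`); a step `-1` in direction `i` is the reversed unit edge starting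
in `hyb (i+1)`.  Telescoping product over `i` (`hyb a b 0 = a`, `hyb a b n = b`). -/
theorem local_potential (B : Bx n K) (r : ℕ) (z : Fin n → ℤ) (y0 : Lt n K)
    (h : ∀ z' i', near 2 z' z → B.X z' i' → B.lab r z' i' = y0) (a b : Fin n → ℤ) (ha : near 1 a z) (hb : near 1 b z) (hab : close a b) :
    B.sw r a b = (if B.Q a = ltgt y0 then FreeGroup.of y0 else 1)⁻¹ * (if B.Q b = ltgt y0 then FreeGroup.of y0 else 1) := by
  have key : B.sw r a b = (ge2_psi B y0 a)⁻¹ * ge2_psi B y0 b := by
    unfold Bx.sw
    by_cases hle : toLex a ≤ toLex b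
    · rw [if_pos hle]
      exact ge2_step B r z y0 h a b ha hb hab
    · rw [if_neg hle, ge2_step B r z y0 h b a hb ha (fun c => by rw [abs_sub_comm]; exact hab c), mul_inv_rev, inv_inv]
  have hpsi : ∀ c, ge2_psi B y0 c = (if B.Q c = ltgt y0 then FreeGroup.of y0 else 1) := by
    intro c
    unfold ge2_psi
    split_ifs <;> rfl
  rw [key, hpsi, hpsi]

/-- GE2b. Chunk GE2 (size S/M). Consequence: the four corners `p q r' s'` of a small square around `p`: `sw p q * sw q t = sw p s * sw s t` if the label near `p` is unique (if there is no crossing edge near `p` at all use any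
`y0`). -/
theorem square_rel (B : Bx n K) (r : ℕ) (p q s t : Fin n → ℤ)
    (h : ∀ z' i' z'' i'', near 2 z' p → near 2 z'' p → B.X z' i' → B.X z'' i'' → B.lab r z' i' = B.lab r z'' i'')
    (h1 : close p q) (h2 : close p s) (h3 : close p t) (h4 : close q t) (h5 : close s t) :
    B.sw r p q * B.sw r q t = B.sw r p s * B.sw r s t := by
  classical
  rcases Nat.eq_zero_or_pos n with hn0 | hnp
  · subst hn0
    have h1 : ∀ a b : Fin 0 → ℤ, B.sw r a b = 1 := by
      intro a b
      unfold Bx.sw Bx.stepw
      simp
    rw [h1, h1, h1, h1]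
  · obtain ⟨y0, hy0⟩ : ∃ y0 : Lt n K, ∀ z' i', near 2 z' p → B.X z' i' → B.lab r z' i' = y0 := by
      by_cases hex : ∃ z' i', near 2 z' p ∧ B.X z' i'
      · obtain ⟨z', i', hz', hX'⟩ := hex
        exact ⟨B.lab r z' i', fun z'' i'' hz'' hX'' => h z'' i'' z' i' hz'' hz' hX'' hX'⟩
      · refine ⟨B.lab r p ⟨0, hnp⟩, fun z' i' hz' hX' => ?_⟩
        exact absurd ⟨z', i', hz', hX'⟩ hex
    have np : near 1 p p := by
      intro c
      simp
    have nr : ∀ a : Fin n → ℤ, close p a → near 1 a p := by
      intro a ha c
      rw [abs_sub_comm]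
      have := ha c
      push_cast
      exact this
    rw [local_potential B r p y0 hy0 p q np (nr q h1) h1, local_potential B r p y0 hy0 q t (nr q h1) (nr t h3) h4,
      local_potential B r p y0 hy0 p s np (nr s h2) h2, local_potential B r p y0 hy0 s t (nr s h2) (nr t h3) h5]
    group

end H98T
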