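import Mathlib

set_option autoImplicit false

/-!
# H98T.GE3: a grid of commuting squares
-/

namespace H98T

open Finset

/-- GE3. Chunk GE3 (size S/M). In a group: `hh i j` horizontal, `vv i j` vertical elements of a grid with `I` columns and `J` rows, commuting squares, equal left and right columns, trivial top row: the bottom row has product `1`.
Proof: `R j = ∏_(i < I) hh i j`; induction on `i`: `(∏_(i' < i) hh i' j) vv i j = vv 0 j (∏_(i' < i) hh i' (j+1))`.  For `i = I`: `R j vv 0 j = vv 0 j R (j+1)`.  So `R j = 1` for all `j` by downward induction. -/
theorem grid_trivial {G : Type*} [Group G] (hh vv : ℕ → ℕ → G) (I J : ℕ)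
    (hsq : ∀ i j, i < I → j < J → hh i j * vv (i + 1) j = vv i j * hh i (j + 1))
    (hcol : ∀ j, j < J → vv I j = vv 0 j) (htop : ∀ i, i < I → hh i J = 1) :
    ((List.range I).map (fun i => hh i 0)).prod = 1 := by
  have h1 : ∀ i j, i ≤ I → j < J →
      ((List.range i).map (fun i => hh i j)).prod * vv i j = vv 0 j * ((List.range i).map (fun i => hh i (j + 1))).prod := by
    intro i
    induction i with
    | zero => intro j _ _; simp
    | succ i ih =>
      intro j hi hj
      rw [List.range_succ, List.map_append, List.map_append, List.prod_append, List.prod_append]
      simp only [List.map_cons, List.map_nil, List.prod_cons, List.prod_nil, mul_one]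
      rw [mul_assoc, hsq i j (by omega) hj, ← mul_assoc, ih j (by omega) hj, mul_assoc]
  have h2 : ∀ k, k ≤ J → ((List.range I).map (fun i => hh i (J - k))).prod = 1 := by
    intro k
    induction k with
    | zero =>
      intro _
      apply List.prod_eq_one
      intro x hx
      rw [List.mem_map] at hx
      obtain ⟨i, h3, rfl⟩ := hx
      exact htop i (List.mem_range.1 h3)
    | succ k ih =>
      intro hk
      have h3 := h1 I (J - (k + 1)) le_rfl (by omega)
      have h4 : J - (k + 1) + 1 = J - k := by omega
      rw [h4, ih (by omega), hcol _ (by omega), mul_one] at h3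
      exact mul_eq_right.1 h3
  have h3 := h2 J le_rfl
  rwa [Nat.sub_self] at h3

/-- GE3b. Chunk GE3 (size S/M). A product over `range (a * m)` is the product over the `a` blocks of length `m`. -/
theorem prod_blocks {G : Type*} [Monoid G] (f : ℕ → G) (a m : ℕ) :
    ((List.range (a * m)).map f).prod = ((List.range a).map (fun s => ((List.range m).map (fun i => f (s * m + i))).prod)).prod := by
  induction a with
  | zero => simp
  | succ a ih =>
    rw [Nat.succ_mul, List.range_add, List.map_append, List.prod_append, ih, List.range_succ, List.map_append, List.prod_append]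
    simp [List.map_map, Function.comp_def]

end H98T
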