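import Mathlib
import Pool.Agent.Lib.H98T.GE2
import Pool.Agent.Lib.H98T.GE3

set_option autoImplicit false

/-!
# H98T.GE4: the relation of a polygon
-/

namespace H98T

open Finset

variable {g : ℕ} {V : Type*} {σ : Fin (2 * g) → Equiv.Perm V} {n C0 W K : ℕ}

theorem ge4_ofFn {G : Type*} (k : ℕ) (psi : ℕ → G) : List.ofFn (fun s : Fin k => psi s.val) = (List.range k).map psi := by
  apply List.ext_getElem
  · simp
  · intro i h1 h2
    simp

theorem ge4_grid (D : DigiData σ n C0 W) (B : Bx n K) (r : ℕ) (x : V) (h : ¬ Bad D B r x) :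
    ((List.range (4 * g * D.m)).map (fun i => B.sw r (D.F x i 0) (D.F x (i + 1) 0))).prod = 1 := by
  apply grid_trivial (fun i j => B.sw r (D.F x i j) (D.F x (i + 1) j)) (fun i j => B.sw r (D.F x i j) (D.F x i (j + 1))) (4 * g * D.m) D.m'
  · intro i j hi hj
    have hF := D.F_step x i j hi hj
    apply square_rel B r (D.F x i j) (D.F x (i + 1) j) (D.F x i (j + 1)) (D.F x (i + 1) (j + 1))
    · intro z' i' z'' i'' hz' hz'' hX' hX''
      by_contra hne
      exact h ⟨D.F x i j, ⟨i, j, by omega, by omega, rfl⟩, z', i', z'', i'', hz', hz'', hX', hX'', hne⟩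
    · have := hF 0 0 1 0 (by omega) (by omega) (by omega) (by omega)
      simpa using this
    · have := hF 0 0 0 1 (by omega) (by omega) (by omega) (by omega)
      simpa using this
    · have := hF 0 0 1 1 (by omega) (by omega) (by omega) (by omega)
      simpa using this
    · have := hF 1 0 1 1 (by omega) (by omega) (by omega) (by omega)
      simpa using this
    · have := hF 0 1 1 1 (by omega) (by omega) (by omega) (by omega)
      simpa using this
  · intro j hj
    show B.sw r (D.F x (4 * g * D.m) j) (D.F x (4 * g * D.m) (j + 1)) = B.sw r (D.F x 0 j) (D.F x 0 (j + 1))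
    rw [← D.F_col x j (by omega), ← D.F_col x (j + 1) (by omega)]
  · intro i hi
    show B.sw r (D.F x i D.m') (D.F x (i + 1) D.m') = 1
    rw [D.F_top x i (by omega), D.F_top x (i + 1) (by omega), sw_self]

theorem ge4_block (D : DigiData σ n C0 W) (B : Bx n K) (r : ℕ) (x : V) (s : Fin (4 * g)) :
    ((List.range D.m).map (fun i => B.sw r (D.F x (s.val * D.m + i) 0) (D.F x (s.val * D.m + i + 1) 0))).prod = sidew σ (ew D B r) x s := by
  unfold sidew
  by_cases hs : s.val % 4 < 2
  · rw [if_pos hs]
    unfold ew Bx.pathw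
    congr 1
    apply List.map_congr_left
    intro i hi
    rw [List.mem_range] at hi
    have h1 := D.F_bot x s i (by omega)
    have h2 := D.F_bot x s (i + 1) (by omega)
    rw [if_pos hs] at h1 h2
    have h3 : D.F x (s.val * D.m + i + 1) 0 = D.E (gen s) (u σ s.val x) (i + 1) := h2
    rw [h1, h3]
  · rw [if_neg hs]
    unfold ew
    rw [← pathw_rev]
    unfold Bx.pathw
    congr 1
    apply List.map_congr_left
    intro i hi
    rw [List.mem_range] at hi
    have h1 := D.F_bot x s i (by omega)
    have h2 := D.F_bot x s (i + 1) (by omega)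
    rw [if_neg hs] at h1 h2
    have h3 : D.F x (s.val * D.m + i + 1) 0 = D.E (gen s) (u σ (s.val + 1) x) (D.m - (i + 1)) := h2
    rw [h1, h3]

/-- GE4. Chunk GE4 (size M). A polygon which is not bad satisfies the relation.  Proof: `grid_trivial` for `hh i j = sw (F x i j) (F x (i+1) j)`, `vv i j = sw (F x i j) (F x i (j+1))`, `I = 4 g m`, `J = m'`
(`square_rel`: `¬ Bad`; `F_step` for closeness; `F_col`; `F_top` and `sw_self`).  Then `prod_blocks`: the block of the side `s` is `pathw` of the edge path for a positive side, and of the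
reversed path for a negative side (`F_bot`, `pathw_rev`). -/
theorem polygon_rel (D : DigiData σ n C0 W) (B : Bx n K) (r : ℕ) (x : V) (h : ¬ Bad D B r x) :
    (List.ofFn (fun s : Fin (4 * g) => sidew σ (ew D B r) x s)).prod = 1 := by
  have h1 := ge4_grid D B r x h
  rw [prod_blocks (fun i => B.sw r (D.F x i 0) (D.F x (i + 1) 0)) (4 * g) D.m, ← ge4_ofFn] at h1
  rw [← h1]
  congr 1
  congr 1
  funext s
  exact (ge4_block D B r x s).symm

end H98T
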