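import Mathlib
import Pool.Agent.Lib.H98T.GE1
import Pool.Agent.Lib.H98T.GA3

set_option autoImplicit false

/-!
# H98T.GE5: the letters of the words
-/

namespace H98T

open Finset

variable {g : ℕ} {V : Type*} {σ : Fin (2 * g) → Equiv.Perm V} {n C0 W K : ℕ}

/-- GE5a. Chunk GE5 (size S/M). Letters of a product, an inverse, a generator (`FreeGroup.reduce` only deletes letters: `FreeGroup.toWord_mul_sublist`, `toWord_inv`). -/
theorem letters_mul {Y : Type*} [DecidableEq Y] (a b : FreeGroup Y) (y : Y) (h : ∃ t, (y, t) ∈ (a * b).toWord) :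
    (∃ t, (y, t) ∈ a.toWord) ∨ ∃ t, (y, t) ∈ b.toWord := by
  obtain ⟨t, ht⟩ := h
  rw [FreeGroup.toWord_mul] at ht
  have h1 : (FreeGroup.reduce (a.toWord ++ b.toWord)).Sublist (a.toWord ++ b.toWord) := FreeGroup.Red.sublist FreeGroup.reduce.red
  have h2 := h1.subset ht
  rw [List.mem_append] at h2
  rcases h2 with h2 | h2
  · exact Or.inl ⟨t, h2⟩
  · exact Or.inr ⟨t, h2⟩

/-- GE5b. Chunk GE5 (size S). -/
theorem letters_inv {Y : Type*} [DecidableEq Y] (a : FreeGroup Y) (y : Y) :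
    (∃ t, (y, t) ∈ (a⁻¹).toWord) ↔ ∃ t, (y, t) ∈ a.toWord := by
  rw [FreeGroup.toWord_inv]
  unfold FreeGroup.invRev
  constructor
  · rintro ⟨t, ht⟩
    rw [List.mem_reverse, List.mem_map] at ht
    obtain ⟨⟨y', t'⟩, h1, h2⟩ := ht
    simp only [Prod.mk.injEq] at h2
    obtain ⟨rfl, _⟩ := h2
    exact ⟨t', h1⟩
  · rintro ⟨t, ht⟩
    refine ⟨!t, ?_⟩
    rw [List.mem_reverse, List.mem_map]
    exact ⟨(y, t), ht, rfl⟩

theorem ge5_prod {Y : Type*} [DecidableEq Y] (L : List (FreeGroup Y)) (y : Y) (h : ∃ t, (y, t) ∈ L.prod.toWord) :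
    ∃ w ∈ L, ∃ t, (y, t) ∈ w.toWord := by
  induction L with
  | nil =>
    obtain ⟨t, ht⟩ := h
    rw [List.prod_nil, FreeGroup.toWord_one] at ht
    exact absurd ht (by simp)
  | cons w L ih =>
    rw [List.prod_cons] at h
    rcases letters_mul w L.prod y h with h1 | h1
    · exact ⟨w, by simp, h1⟩
    · obtain ⟨w', hw', h2⟩ := ih h1
      exact ⟨w', by simp [hw'], h2⟩

theorem ge5_cw [DecidableEq (Lt n K)] (B : Bx n K) (r : ℕ) (z : Fin n → ℤ) (i : Fin n) (y : Lt n K) (h : ∃ t, (y, t) ∈ (B.cw r z i).toWord) :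
    B.X z i ∧ B.lab r z i = y := by
  obtain ⟨t, ht⟩ := h
  unfold Bx.cw at ht
  by_cases hX : B.X z i
  · rw [if_pos hX, FreeGroup.toWord_of, List.mem_singleton, Prod.mk.injEq] at ht
    exact ⟨hX, ht.1.symm⟩
  · rw [if_neg hX, FreeGroup.toWord_one] at ht
    exact absurd ht (by simp)

theorem ge5_hyb (a b : Fin n → ℤ) (m : ℕ) (hab : close a b) : near 1 (hyb a b m) a ∧ near 1 (hyb a b m) b := by
  constructor
  · intro c
    unfold hyb
    have := hab c
    by_cases hc : c.val < m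
    · rw [if_pos hc, abs_sub_comm]
      push_cast
      exact this
    · rw [if_neg hc]
      simp
  · intro c
    unfold hyb
    have := hab c
    by_cases hc : c.val < m
    · rw [if_pos hc]
      simp
    · rw [if_neg hc]
      push_cast
      exact this

theorem ge5_stepw [DecidableEq (Lt n K)] (B : Bx n K) (r : ℕ) (a b : Fin n → ℤ) (y : Lt n K) (h : ∃ t, (y, t) ∈ (B.stepw r a b).toWord) :
    ∃ m i, B.X (hyb a b m) i ∧ B.lab r (hyb a b m) i = y := by
  unfold Bx.stepw at h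
  obtain ⟨w, hw, h1⟩ := ge5_prod _ y h
  rw [List.mem_ofFn] at hw
  obtain ⟨i, rfl⟩ := hw
  by_cases hup : b i = a i + 1
  · simp only [if_pos hup] at h1
    exact ⟨_, i, ge5_cw B r _ i y h1⟩
  · by_cases hdown : b i = a i - 1
    · simp only [if_neg hup, if_pos hdown] at h1
      rw [letters_inv] at h1
      exact ⟨_, i, ge5_cw B r _ i y h1⟩
    · simp only [if_neg hup, if_neg hdown] at h1
      obtain ⟨t, ht⟩ := h1
      rw [FreeGroup.toWord_one] at ht
      exact absurd ht (by simp)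

open Classical in
/-- GE5c. Chunk GE5 (size M). The letters of the word of a step `a → b` are labels of crossing edges `(z, i)` with `z` within distance `1` of `a`. -/
theorem letters_sw (B : Bx n K) (r : ℕ) (a b : Fin n → ℤ) (hab : close a b) (y : Lt n K) (h : ∃ t, (y, t) ∈ (B.sw r a b).toWord) :
    ∃ z i, B.X z i ∧ near 1 z a ∧ B.lab r z i = y := by
  unfold Bx.sw at h
  by_cases hle : toLex a ≤ toLex b
  · rw [if_pos hle] at h
    obtain ⟨m, i, h1, h2⟩ := ge5_stepw B r a b y h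
    exact ⟨_, i, h1, (ge5_hyb a b m hab).1, h2⟩
  · rw [if_neg hle, letters_inv] at h
    obtain ⟨m, i, h1, h2⟩ := ge5_stepw B r b a y h
    exact ⟨_, i, h1, (ge5_hyb b a m (fun c => by rw [abs_sub_comm]; exact hab c)).2, h2⟩

open Classical in
/-- GE5d. Chunk GE5 (size S/M). The letters of the word of a side of `x` are in `Sx x` (`side_mem`; a word of a path is a product of words of steps). -/
theorem letters_side (D : DigiData σ n C0 W) (B : Bx n K) (r : ℕ) (x : V) (s : Fin (4 * g)) (y : Lt n K)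
    (h : ∃ t, (y, t) ∈ (sidew σ (ew D B r) x s).toWord) : y ∈ Sx D B r x := by
  have h1 : ∃ t, (y, t) ∈ (ew D B r (gen s) (edgeV σ (x, s))).toWord := by
    unfold sidew at h
    unfold edgeV
    by_cases hs : s.val % 4 < 2
    · rw [if_pos hs] at h ⊢
      exact h
    · rw [if_neg hs, letters_inv] at h
      rw [if_neg hs]
      exact h
  unfold ew Bx.pathw at h1
  obtain ⟨w, hw, h2⟩ := ge5_prod _ y h1
  rw [List.mem_map] at hw
  obtain ⟨i, hi, rfl⟩ := hw
  rw [List.mem_range] at hi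
  obtain ⟨z, i', h3, h4, h5⟩ := letters_sw B r _ _ (D.E_step _ _ i hi) y h2
  refine ⟨z, i', h3, ⟨D.E (gen s) (edgeV σ (x, s)) i, side_mem D x s i (by omega), ?_⟩, h5⟩
  intro c
  have := h4 c
  push_cast at this ⊢
  linarith

end H98T
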