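import Mathlib
import Pool.Agent.Lib.H98T.GE6
import Pool.Agent.Lib.H98T.GE1

set_option autoImplicit false

/-!
# H98T.GE7: the words are walks
-/

namespace H98T

open Finset

variable {g : ℕ} {V : Type*} {σ : Fin (2 * g) → Equiv.Perm V} {n C0 W K : ℕ}

theorem ge7_cw (B : Bx n K) (r : ℕ) (z : Fin n → ℤ) (i : Fin n) : Walk lsrc ltgt (B.Q z) (B.cw r z i) (B.Q (z + ev i)) := by
  unfold Bx.cw
  by_cases h : B.X z i
  · rw [if_pos h]
    have h1 := Walk.pos (src := lsrc) (tgt := ltgt) (B.Q z) 1 (B.lab r z i) (Walk.nil (B.Q z))
    rw [one_mul] at h1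
    exact h1
  · rw [if_neg h]
    unfold Bx.X at h
    push Not at h
    rw [← h]
    exact Walk.nil _

theorem ge7_up (a b : Fin n → ℤ) (i : Fin n) (h : b i = a i + 1) : hyb a b (i.val + 1) = hyb a b i.val + ev i := by
  funext j
  unfold hyb
  rw [Pi.add_apply]
  unfold ev
  rcases lt_trichotomy j.val i.val with hj | hj | hj
  · have h1 : j ≠ i := fun hh => by rw [hh] at hj; omega
    rw [if_pos (by omega), if_pos hj, if_neg h1, add_zero]
  · have h1 : j = i := Fin.ext hj
    subst h1
    rw [if_pos (by omega), if_neg (by omega), if_pos rfl, h]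
  · have h1 : j ≠ i := fun hh => by rw [hh] at hj; omega
    rw [if_neg (by omega), if_neg (by omega), if_neg h1, add_zero]

theorem ge7_down (a b : Fin n → ℤ) (i : Fin n) (h : b i = a i - 1) : hyb a b i.val = hyb a b (i.val + 1) + ev i := by
  funext j
  unfold hyb
  rw [Pi.add_apply]
  unfold ev
  rcases lt_trichotomy j.val i.val with hj | hj | hj
  · have h1 : j ≠ i := fun hh => by rw [hh] at hj; omega
    rw [if_pos hj, if_pos (by omega), if_neg h1, add_zero]
  · have h1 : j = i := Fin.ext hj
    subst h1
    rw [if_neg (by omega), if_pos (by omega), if_pos rfl, h]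
    ring
  · have h1 : j ≠ i := fun hh => by rw [hh] at hj; omega
    rw [if_neg (by omega), if_neg (by omega), if_neg h1, add_zero]

theorem ge7_flat (a b : Fin n → ℤ) (i : Fin n) (h : b i = a i) : hyb a b (i.val + 1) = hyb a b i.val := by
  funext j
  unfold hyb
  rcases lt_trichotomy j.val i.val with hj | hj | hj
  · rw [if_pos (by omega), if_pos hj]
  · have h1 : j = i := Fin.ext hj
    subst h1
    rw [if_pos (by omega), if_neg (by omega), h]
  · rw [if_neg (by omega), if_neg (by omega)]

theorem ge7_step (B : Bx n K) (r : ℕ) (a b : Fin n → ℤ) (hab : close a b) : Walk lsrc ltgt (B.Q a) (B.stepw r a b) (B.Q b) := by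
  unfold Bx.stepw
  set f : Fin n → FreeGroup (Lt n K) := fun i : Fin n =>
    if b i = a i + 1 then B.cw r (hyb a b i.val) i
    else if b i = a i - 1 then (B.cw r (hyb a b (i.val + 1)) i)⁻¹
    else 1 with hf
  have h0 : hyb a b 0 = a := by
    funext j
    unfold hyb
    rw [if_neg (by omega)]
  have hn : hyb a b n = b := by
    funext j
    unfold hyb
    rw [if_pos j.isLt]
  have key : ∀ m, m ≤ n → Walk lsrc ltgt (B.Q a) ((List.ofFn f).take m).prod (B.Q (hyb a b m)) := by
    intro m
    induction m with
    | zero =>
      intro _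
      rw [List.take_zero, List.prod_nil, h0]
      exact Walk.nil _
    | succ m ih =>
      intro hm
      have hlen : m < (List.ofFn f).length := by
        rw [List.length_ofFn]
        omega
      rw [List.take_succ_eq_append_getElem hlen, List.prod_append, List.prod_singleton, List.getElem_ofFn]
      refine walk_mul lsrc ltgt _ _ _ _ _ (ih (by omega)) ?_
      set i : Fin n := ⟨m, by omega⟩ with hi
      have him : i.val = m := rfl
      have h1 := hab i
      rw [abs_le] at h1
      by_cases hup : b i = a i + 1
      · have hfi : f i = B.cw r (hyb a b i.val) i := by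
          rw [hf]
          simp only [if_pos hup]
        have h2 := ge7_cw B r (hyb a b i.val) i
        rw [← ge7_up a b i hup] at h2
        rw [← hfi] at h2
        exact h2
      · by_cases hdown : b i = a i - 1
        · have hfi : f i = (B.cw r (hyb a b (i.val + 1)) i)⁻¹ := by
            rw [hf]
            simp only [if_neg hup, if_pos hdown]
          have h2 := ge7_cw B r (hyb a b (i.val + 1)) i
          rw [← ge7_down a b i hdown] at h2
          have h3 := walk_inv _ _ _ _ _ h2
          rw [← hfi] at h3
          exact h3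
        · have hfi : f i = 1 := by
            rw [hf]
            simp only [if_neg hup, if_neg hdown]
          have h3 : b i = a i := by omega
          have h4 := ge7_flat a b i h3
          have h5 : Walk lsrc ltgt (B.Q (hyb a b i.val)) (f i) (B.Q (hyb a b (i.val + 1))) := by
            rw [hfi, h4]
            exact Walk.nil _
          exact h5
  have h1 := key n le_rfl
  rw [hn, List.take_of_length_le (by rw [List.length_ofFn])] at h1
  exact h1

/-- GE7a. Chunk GE7 (size M). The word of a step is a walk between the cells (each unit edge is: a crossing edge has the label with the right source and target, a non-crossing edge keeps the cell; `walk_mul`,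
`walk_inv`; `hyb a b 0 = a`, `hyb a b n = b`). -/
theorem walk_sw (B : Bx n K) (r : ℕ) (a b : Fin n → ℤ) (hab : close a b) : Walk lsrc ltgt (B.Q a) (B.sw r a b) (B.Q b) := by
  unfold Bx.sw
  by_cases h : toLex a ≤ toLex b
  · rw [if_pos h]
    exact ge7_step B r a b hab
  · rw [if_neg h]
    apply walk_inv
    apply ge7_step
    intro c
    rw [abs_sub_comm]
    exact hab c

/-- GE7b. Chunk GE7 (size S). -/
theorem walk_ew (D : DigiData σ n C0 W) (B : Bx n K) (r : ℕ) (k : Fin (2 * g)) (v : V) :
    Walk lsrc ltgt (B.Q (D.P v)) (ew D B r k v) (B.Q (D.P (σ k v))) := by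
  unfold ew Bx.pathw
  have key : ∀ m, m ≤ D.m → Walk lsrc ltgt (B.Q (D.E k v 0)) ((List.range m).map (fun i => B.sw r (D.E k v i) (D.E k v (i + 1)))).prod
      (B.Q (D.E k v m)) := by
    intro m
    induction m with
    | zero =>
      intro _
      simp only [List.range_zero, List.map_nil, List.prod_nil]
      exact Walk.nil _
    | succ m ih =>
      intro hm
      rw [List.range_succ, List.map_append, List.prod_append, List.map_singleton, List.prod_singleton]
      exact walk_mul lsrc ltgt _ _ _ _ _ (ih (by omega)) (walk_sw B r _ _ (D.E_step k v m (by omega)))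
  have h1 := key D.m le_rfl
  rw [D.E_start, D.E_end] at h1
  exact h1

/-- GE7c. Chunk GE7 (size S). The cells of the letters near `x` and of the vertices of `x` are in `Rx x`. -/
theorem cells_Rx (D : DigiData σ n C0 W) (B : Bx n K) (r : ℕ) (x : V) :
    (∀ y ∈ Sx D B r x, lsrc y ∈ Rx D B x ∧ ltgt y ∈ Rx D B x) ∧ ∀ z ∈ Touch D x, B.Q z ∈ Rx D B x := by
  constructor
  · rintro y ⟨z, i, _, ⟨z', hz', hn⟩, rfl⟩
    constructor
    · refine ⟨z, ⟨z', hz', ?_⟩, rfl⟩
      intro c
      have := hn c
      push_cast at this ⊢
      linarith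
    · refine ⟨z + ev i, ⟨z', hz', ?_⟩, rfl⟩
      intro c
      have h1 := hn c
      rw [abs_le] at h1 ⊢
      push_cast at h1 ⊢
      rw [Pi.add_apply]
      unfold ev
      by_cases hc : c = i
      · rw [if_pos hc]
        constructor <;> linarith [h1.1, h1.2]
      · rw [if_neg hc]
        constructor <;> linarith [h1.1, h1.2]
  · intro z hz
    refine ⟨z, ⟨z, hz, ?_⟩, rfl⟩
    intro c
    simp

end H98T
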