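import Mathlib
import Pool.Agent.Lib.H98T.S04

set_option autoImplicit false

/-!
# H98T.S05: the words of the darts
-/

namespace H98T

open Finset

variable {V : Type} {g : ℕ}

theorem s05_ds_eq (hg : 2 ≤ g) {Y : Type*} (σ : Fin (2 * g) → Equiv.Perm V) (w : Fin (2 * g) → V → FreeGroup Y) (x : V) (t : ℕ) (s : Fin (4 * g))
    (h : (6 + t) % (4 * g) = s.val) : ds hg σ w x t = sidew σ w x s := by
  unfold ds
  congr 1
  exact Fin.ext h

/-- S05a (S/M). The word of a dart carrying a side is the word of the side (`j = 1`: `(6 + (k + 1)) % (4g) = (7 + k) % (4g)`; `k = 0, j = 0`: `pp 1 = ds 0`, side `6`; `k = 4g - 3, j = 2`: side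
`(6 + (4g - 1)) % (4g) = 5`). -/
theorem wdart_side (hg : 2 ≤ g) {Y : Type*} (σ : Fin (2 * g) → Equiv.Perm V) (w : Fin (2 * g) → V → FreeGroup Y) (e : Dart (Nd g V)) (s : Fin (4 * g))
    (h : sideOf hg e.1.2 e.2 = some s) : wdart hg σ w e = sidew σ w e.1.1 s := by
  obtain ⟨⟨x, k⟩, j⟩ := e
  simp only at h ⊢
  have hk := k.isLt
  have h10 : ¬ ((1 : Fin 3) = 0) := by decide
  have h20 : ¬ ((2 : Fin 3) = 0) := by decide
  have h21 : ¬ ((2 : Fin 3) = 1) := by decide
  have hd := dartOf_sideOf hg k j s h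
  have hs := s.isLt
  have hj : j = 0 ∨ j = 1 ∨ j = 2 := by
    rcases j with ⟨j, hj⟩
    have : j = 0 ∨ j = 1 ∨ j = 2 := by omega
    rcases this with rfl | rfl | rfl
    · exact Or.inl rfl
    · exact Or.inr (Or.inl rfl)
    · exact Or.inr (Or.inr rfl)
  unfold dartOf at hd
  rcases hj with rfl | rfl | rfl
  · by_cases h6 : s.val = 6
    · rw [dif_pos h6] at hd
      have hk0 : k.val = 0 := by rw [← (Prod.mk.inj hd).1]
      unfold wdart
      rw [if_pos rfl]
      simp only [hk0, zero_add]
      unfold pp pp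
      rw [one_mul]
      apply s05_ds_eq
      rw [h6]
      exact Nat.mod_eq_of_lt (by omega)
    · rw [dif_neg h6] at hd
      by_cases h5 : s.val = 5
      · rw [dif_pos h5] at hd
        exact absurd (Prod.mk.inj hd).2 (by decide)
      · rw [dif_neg h5] at hd
        by_cases h7 : 7 ≤ s.val
        · rw [dif_pos h7] at hd
          exact absurd (Prod.mk.inj hd).2 (by decide)
        · rw [dif_neg h7] at hd
          exact absurd (Prod.mk.inj hd).2 (by decide)
  · unfold wdart
    rw [if_neg h10, if_pos rfl]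
    apply s05_ds_eq
    unfold sideOf at h
    rw [if_pos rfl, Option.some.injEq] at h
    rw [← h]
    simp only
    congr 1
    omega
  · by_cases h6 : s.val = 6
    · rw [dif_pos h6] at hd
      exact absurd (Prod.mk.inj hd).2 (by decide)
    · rw [dif_neg h6] at hd
      by_cases h5 : s.val = 5
      · rw [dif_pos h5] at hd
        have hk0 : k.val = 4 * g - 3 := by rw [← (Prod.mk.inj hd).1]
        unfold wdart
        rw [if_neg h20, if_neg h21, if_pos hk0]
        apply s05_ds_eq
        rw [h5, show 6 + (4 * g - 1) = 5 + 4 * g by omega, Nat.add_mod_right]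
        exact Nat.mod_eq_of_lt (by omega)
      · rw [dif_neg h5] at hd
        by_cases h7 : 7 ≤ s.val
        · rw [dif_pos h7] at hd
          exact absurd (Prod.mk.inj hd).2 (by decide)
        · rw [dif_neg h7] at hd
          exact absurd (Prod.mk.inj hd).2 (by decide)

theorem s05_w0 (hg : 2 ≤ g) {Y : Type*} (σ : Fin (2 * g) → Equiv.Perm V) (w : Fin (2 * g) → V → FreeGroup Y) (x : V) (k : Fin (4 * g - 2)) :
    wdart hg σ w ((x, k), 0) = pp hg σ w x (k.val + 1) := by
  unfold wdart
  rw [if_pos rfl]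

theorem s05_w1 (hg : 2 ≤ g) {Y : Type*} (σ : Fin (2 * g) → Equiv.Perm V) (w : Fin (2 * g) → V → FreeGroup Y) (x : V) (k : Fin (4 * g - 2)) :
    wdart hg σ w ((x, k), 1) = ds hg σ w x (k.val + 1) := by
  have h10 : ¬ ((1 : Fin 3) = 0) := by decide
  unfold wdart
  rw [if_neg h10, if_pos rfl]

theorem s05_w2 (hg : 2 ≤ g) {Y : Type*} (σ : Fin (2 * g) → Equiv.Perm V) (w : Fin (2 * g) → V → FreeGroup Y) (x : V) (k : Fin (4 * g - 2))
    (hk : k.val = 4 * g - 3) : wdart hg σ w ((x, k), 2) = ds hg σ w x (4 * g - 1) := by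
  have h20 : ¬ ((2 : Fin 3) = 0) := by decide
  have h21 : ¬ ((2 : Fin 3) = 1) := by decide
  unfold wdart
  rw [if_neg h20, if_neg h21, if_pos hk]

theorem s05_w3 (hg : 2 ≤ g) {Y : Type*} (σ : Fin (2 * g) → Equiv.Perm V) (w : Fin (2 * g) → V → FreeGroup Y) (x : V) (k : Fin (4 * g - 2))
    (hk : k.val ≠ 4 * g - 3) : wdart hg σ w ((x, k), 2) = (pp hg σ w x (k.val + 2))⁻¹ := by
  have h20 : ¬ ((2 : Fin 3) = 0) := by decide
  have h21 : ¬ ((2 : Fin 3) = 1) := by decide
  unfold wdart
  rw [if_neg h20, if_neg h21, if_neg hk]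

/-- S05b (M). The word of the inverse dart: for sides `dinv_side`, `sideOf_dartOf`, `wdart_side`, `sidew_iota`; for diagonals `dinv_zero`, `dinv_two`. -/
theorem wdart_dinv (hg : 2 ≤ g) {Y : Type*} (σ : Fin (2 * g) → Equiv.Perm V) (w : Fin (2 * g) → V → FreeGroup Y) (e : Dart (Nd g V)) :
    wdart hg σ w (dinv hg σ e) = (wdart hg σ w e)⁻¹ := by
  obtain ⟨⟨x, k⟩, j⟩ := e
  have hk := k.isLt
  rcases h : sideOf hg k j with _ | s
  · rcases (sideOf_none hg k j).1 h with ⟨rfl, h5⟩ | ⟨rfl, h5⟩
    · rw [dinv_zero hg σ x k h5, s05_w0, s05_w3 hg σ w x _ (by show k.val - 1 ≠ 4 * g - 3; omega)]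
      show (pp hg σ w x (k.val - 1 + 2))⁻¹ = _
      rw [show k.val - 1 + 2 = k.val + 1 by omega]
    · rw [dinv_two hg σ x k h5, s05_w0, s05_w3 hg σ w x k h5, inv_inv]
  · rw [dinv_side hg σ ((x, k), j) s h, wdart_side hg σ w ((x, k), j) s h]
    have h1 := sideOf_dartOf hg (iota σ (x, s)).2
    rw [wdart_side hg σ w _ (iota σ (x, s)).2 h1]
    exact sidew_iota σ w x s

/-- S05c (S/M). Rotation of a trivial cyclic product: `f a ⋯ f (N-1) * f 0 ⋯ f (a-1)` is `A * B` with `B * A = 1`. -/
theorem rot_prod {G : Type*} [Group G] (N a : ℕ) (ha : a ≤ N) (f : ℕ → G) (h : ((List.range N).map f).prod = 1) :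
    ((List.range N).map (fun i => f ((a + i) % N))).prod = 1 := by
  obtain ⟨b, rfl⟩ := Nat.exists_eq_add_of_le ha
  have h1 : ((List.range (a + b)).map f).prod = ((List.range a).map f).prod * ((List.range b).map (fun i => f (a + i))).prod := by
    rw [List.range_add, List.map_append, List.prod_append, List.map_map]
    rfl
  have h2 : ((List.range (a + b)).map (fun i => f ((a + i) % (a + b)))).prod =
      ((List.range b).map (fun i => f (a + i))).prod * ((List.range a).map f).prod := by
    rw [show a + b = b + a by omega, List.range_add, List.map_append, List.prod_append, List.map_map]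
    congr 1
    · congr 1
      apply List.map_congr_left
      intro i hi
      rw [List.mem_range] at hi
      congr 1
      exact Nat.mod_eq_of_lt (by omega)
    · congr 1
      apply List.map_congr_left
      intro i hi
      rw [List.mem_range] at hi
      simp only [Function.comp_apply]
      congr 1
      rw [show a + (b + i) = i + (b + a) by omega, Nat.add_mod_right]
      exact Nat.mod_eq_of_lt (by omega)
  rw [h2]
  rw [h1] at h
  exact mul_eq_one_comm.1 h

theorem s05_pp_eq (hg : 2 ≤ g) {Y : Type*} (σ : Fin (2 * g) → Equiv.Perm V) (w : Fin (2 * g) → V → FreeGroup Y) (x : V) (t : ℕ) :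
    pp hg σ w x t = ((List.range t).map (ds hg σ w x)).prod := by
  induction t with
  | zero => rfl
  | succ t ih =>
    rw [List.range_succ, List.map_append, List.prod_append, ← ih]
    simp only [List.map_cons, List.map_nil, List.prod_cons, List.prod_nil, mul_one]
    rfl

/-- S05d (S/M). If the product of the side words of `x` is trivial, so is `pp x (4g)` (`pp` is the product over `List.range`; `rot_prod` with `a = 6`, `f t = sidew σ w x ⟨t % (4g), _⟩`). -/
theorem pp_full (hg : 2 ≤ g) {Y : Type*} (σ : Fin (2 * g) → Equiv.Perm V) (w : Fin (2 * g) → V → FreeGroup Y) (x : V)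
    (h : (List.ofFn (sidew σ w x)).prod = 1) : pp hg σ w x (4 * g) = 1 := by
  rw [s05_pp_eq]
  have h1 : ((List.range (4 * g)).map (fun t => sidew σ w x ⟨t % (4 * g), Nat.mod_lt _ (by omega)⟩)).prod = 1 := by
    rw [← h]
    congr 1
    apply List.ext_getElem
    · simp
    · intro i h1 h2
      simp only [List.length_map, List.length_range] at h1
      simp only [List.getElem_map, List.getElem_range, List.getElem_ofFn]
      congr 1
      exact Fin.ext (Nat.mod_eq_of_lt h1)
  have h2 := rot_prod (4 * g) 6 (by omega) _ h1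
  rw [← h2]
  congr 1
  apply List.map_congr_left
  intro i _
  apply s05_ds_eq
  simp only
  rw [Nat.mod_mod]

/-- S05e (S/M). The relation at the nodes: for `k < 4g - 3` trivial, for `k = 4g - 3` it is `pp_full`. -/
theorem wdart_rel (hg : 2 ≤ g) {Y : Type*} (σ : Fin (2 * g) → Equiv.Perm V) (w : Fin (2 * g) → V → FreeGroup Y) (x : V)
    (h : (List.ofFn (sidew σ w x)).prod = 1) (k : Fin (4 * g - 2)) :
    wdart hg σ w ((x, k), 0) * wdart hg σ w ((x, k), 1) * wdart hg σ w ((x, k), 2) = 1 := by
  have h3 : ∀ t, pp hg σ w x (t + 1) = pp hg σ w x t * ds hg σ w x t := fun t => rfl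
  rw [s05_w0, s05_w1, ← h3]
  by_cases hk : k.val = 4 * g - 3
  · rw [s05_w2 hg σ w x k hk, show k.val + 1 + 1 = 4 * g - 1 by omega, ← h3, show 4 * g - 1 + 1 = 4 * g by omega]
    exact pp_full hg σ w x h
  · rw [s05_w3 hg σ w x k hk]
    exact mul_inv_cancel _

end H98T
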