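import Mathlib
import Pool.Agent.Lib.H98T.S05
import Pool.Agent.Lib.H98T.GE6

set_option autoImplicit false

/-!
# H98T.S06: the words of the darts are walks
-/

namespace H98T

open Finset

variable {V : Type} {g : ℕ}

/-- S06a (S/M). Side words are walks (positive side: `tau`, `u_succ`; negative side: `walk_inv`). -/
theorem walk_side {C Y : Type*} (σ : Fin (2 * g) → Equiv.Perm V) (src tgt : Y → C) (w : Fin (2 * g) → V → FreeGroup Y) (q : V → C)
    (hw : ∀ k v, Walk src tgt (q v) (w k v) (q (σ k v))) (x : V) (s : Fin (4 * g)) :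
    Walk src tgt (q (u σ s.val x)) (sidew σ w x s) (q (u σ (s.val + 1) x)) := by
  have h1 := u_succ σ s
  unfold sidew
  by_cases hs : s.val % 4 < 2
  · rw [if_pos hs]
    have h2 : σ (gen s) (u σ s.val x) = u σ (s.val + 1) x := by
      rw [h1]
      unfold tau
      rw [if_pos hs]
      rfl
    rw [← h2]
    exact hw _ _
  · rw [if_neg hs]
    have h2 : σ (gen s) (u σ (s.val + 1) x) = u σ s.val x := by
      rw [h1]
      unfold tau
      rw [if_neg hs]
      exact (σ (gen s)).apply_symm_apply _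
    rw [← h2]
    exact walk_inv src tgt _ _ _ (hw _ _)

/-- S06b (S/M). `ds x t` leads from the corner `6 + t` to the corner `7 + t` (`cor_end`). -/
theorem walk_ds (hg : 2 ≤ g) {C Y : Type*} (σ : Fin (2 * g) → Equiv.Perm V) (hcov : IsCov σ) (src tgt : Y → C) (w : Fin (2 * g) → V → FreeGroup Y) (q : V → C)
    (hw : ∀ k v, Walk src tgt (q v) (w k v) (q (σ k v))) (x : V) (t : ℕ) :
    Walk src tgt (q (cor σ x (6 + t))) (ds hg σ w x t) (q (cor σ x (7 + t))) := by
  have h1 := walk_side σ src tgt w q hw x ⟨(6 + t) % (4 * g), Nat.mod_lt _ (by omega)⟩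
  simp only at h1
  rw [cor_end hg σ hcov x (6 + t), show 6 + t + 1 = 7 + t by omega] at h1
  exact h1

/-- S06c (S). Induction on `t`, `walk_mul`. -/
theorem walk_pp (hg : 2 ≤ g) {C Y : Type*} (σ : Fin (2 * g) → Equiv.Perm V) (hcov : IsCov σ) (src tgt : Y → C) (w : Fin (2 * g) → V → FreeGroup Y) (q : V → C)
    (hw : ∀ k v, Walk src tgt (q v) (w k v) (q (σ k v))) (x : V) (t : ℕ) :
    Walk src tgt (q (cor σ x 6)) (pp hg σ w x t) (q (cor σ x (6 + t))) := by
  induction t with
  | zero => exact Walk.nil _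
  | succ t ih =>
    have h1 := walk_ds hg σ hcov src tgt w q hw x t
    have h2 := walk_mul src tgt _ _ _ _ _ ih h1
    rw [show 7 + t = 6 + (t + 1) by omega] at h2
    exact h2

theorem s06_cor_six (hg : 2 ≤ g) (σ : Fin (2 * g) → Equiv.Perm V) (x : V) : cor σ x (7 + (4 * g - 1)) = cor σ x 6 := by
  unfold cor
  rw [show 7 + (4 * g - 1) = 6 + 4 * g by omega, Nat.add_mod_right]

theorem s06_sv0 (σ : Fin (2 * g) → Equiv.Perm V) (x : V) (k : Fin (4 * g - 2)) : sv σ ((x, k), 0) = cor σ x 6 := by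
  unfold sv
  rw [if_pos rfl]

theorem s06_sv1 (σ : Fin (2 * g) → Equiv.Perm V) (x : V) (k : Fin (4 * g - 2)) : sv σ ((x, k), 1) = cor σ x (7 + k.val) := by
  have h10 : ¬ ((1 : Fin 3) = 0) := by decide
  unfold sv
  rw [if_neg h10, if_pos rfl]

theorem s06_sv2 (σ : Fin (2 * g) → Equiv.Perm V) (x : V) (k : Fin (4 * g - 2)) : sv σ ((x, k), 2) = cor σ x (8 + k.val) := by
  have h20 : ¬ ((2 : Fin 3) = 0) := by decide
  have h21 : ¬ ((2 : Fin 3) = 1) := by decide
  unfold sv
  rw [if_neg h20, if_neg h21]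

theorem s06_three (j : Fin 3) : j = 0 ∨ j = 1 ∨ j = 2 := by
  rcases j with ⟨j, hj⟩
  have : j = 0 ∨ j = 1 ∨ j = 2 := by omega
  rcases this with rfl | rfl | rfl
  · exact Or.inl rfl
  · exact Or.inr (Or.inl rfl)
  · exact Or.inr (Or.inr rfl)

theorem s06_nxt0 {N : Type} (z : N) : nxt (z, (0 : Fin 3)) = (z, 1) := rfl
theorem s06_nxt1 {N : Type} (z : N) : nxt (z, (1 : Fin 3)) = (z, 2) := rfl
theorem s06_nxt2 {N : Type} (z : N) : nxt (z, (2 : Fin 3)) = (z, 0) := rfl

/-- S06d (S/M). The word of a dart leads from its start vertex to the start vertex of the next dart of the node. -/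
theorem walk_wdart (hg : 2 ≤ g) {C Y : Type*} (σ : Fin (2 * g) → Equiv.Perm V) (hcov : IsCov σ) (src tgt : Y → C) (w : Fin (2 * g) → V → FreeGroup Y) (q : V → C)
    (hw : ∀ k v, Walk src tgt (q v) (w k v) (q (σ k v))) (e : Dart (Nd g V)) :
    Walk src tgt (q (sv σ e)) (wdart hg σ w e) (q (sv σ (nxt e))) := by
  obtain ⟨⟨x, k⟩, j⟩ := e
  rcases s06_three j with rfl | rfl | rfl
  · rw [s06_nxt0, s06_sv0, s06_sv1, s05_w0, show 7 + k.val = 6 + (k.val + 1) by omega]
    exact walk_pp hg σ hcov src tgt w q hw x _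
  · rw [s06_nxt1, s06_sv1, s06_sv2, s05_w1, show 7 + k.val = 6 + (k.val + 1) by omega, show 8 + k.val = 7 + (k.val + 1) by omega]
    exact walk_ds hg σ hcov src tgt w q hw x _
  · rw [s06_nxt2, s06_sv2, s06_sv0]
    by_cases hk : k.val = 4 * g - 3
    · rw [s05_w2 hg σ w x k hk, show 8 + k.val = 6 + (4 * g - 1) by omega, ← s06_cor_six hg σ x]
      exact walk_ds hg σ hcov src tgt w q hw x _
    · rw [s05_w3 hg σ w x k hk, show 8 + k.val = 6 + (k.val + 2) by omega]
      exact walk_inv src tgt _ _ _ (walk_pp hg σ hcov src tgt w q hw x _)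

/-- The dart of the side `s` starts in the corner `s`. -/
theorem s06_sv_dartOf (hg : 2 ≤ g) (σ : Fin (2 * g) → Equiv.Perm V) (x : V) (s : Fin (4 * g)) :
    sv σ ((x, (dartOf hg s).1), (dartOf hg s).2) = cor σ x s.val := by
  have hs := s.isLt
  unfold dartOf
  by_cases h6 : s.val = 6
  · rw [dif_pos h6, s06_sv0, h6]
  · rw [dif_neg h6]
    by_cases h5 : s.val = 5
    · rw [dif_pos h5, s06_sv2, h5]
      simp only
      unfold cor
      rw [show 8 + (4 * g - 3) = 5 + 4 * g by omega, Nat.add_mod_right]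
    · rw [dif_neg h5]
      by_cases h7 : 7 ≤ s.val
      · rw [dif_pos h7, s06_sv1]
        simp only
        rw [show 7 + (s.val - 7) = s.val by omega]
      · rw [dif_neg h7, s06_sv1]
        simp only
        unfold cor
        rw [show 7 + (s.val + 4 * g - 7) = s.val + 4 * g by omega, Nat.add_mod_right]

/-- The next dart after the dart of the side `s` starts in the corner `s + 1`. -/
theorem s06_sv_next (hg : 2 ≤ g) (σ : Fin (2 * g) → Equiv.Perm V) (x : V) (s : Fin (4 * g)) :
    sv σ (nxt (((x, (dartOf hg s).1), (dartOf hg s).2) : Dart (Nd g V))) = cor σ x (s.val + 1) := by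
  have hs := s.isLt
  unfold dartOf
  by_cases h6 : s.val = 6
  · rw [dif_pos h6, s06_nxt0, s06_sv1, h6]
    rfl
  · rw [dif_neg h6]
    by_cases h5 : s.val = 5
    · rw [dif_pos h5, s06_nxt2, s06_sv0, h5]
    · rw [dif_neg h5]
      by_cases h7 : 7 ≤ s.val
      · rw [dif_pos h7, s06_nxt1, s06_sv2]
        simp only
        rw [show 8 + (s.val - 7) = s.val + 1 by omega]
      · rw [dif_neg h7, s06_nxt1, s06_sv2]
        simp only
        unfold cor
        rw [show 8 + (s.val + 4 * g - 7) = s.val + 1 + 4 * g by omega, Nat.add_mod_right]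

/-- S06e (M). The inverse dart starts where the next dart of the node starts.  Sides: the dart of the side `s'` starts at the corner `s'` (four cases of `dartOf`), for `s' = partner s` this is
`u σ (s + 1) x` (`u_iota`), which is the corner `s + 1` (`cor_end`); diagonals: `dinv_zero`, `dinv_two`. -/
theorem sv_dinv (hg : 2 ≤ g) (σ : Fin (2 * g) → Equiv.Perm V) (hcov : IsCov σ) (e : Dart (Nd g V)) : sv σ (dinv hg σ e) = sv σ (nxt e) := by
  obtain ⟨⟨x, k⟩, j⟩ := e
  have hk := k.isLt
  rcases h : sideOf hg k j with _ | s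
  · rcases (sideOf_none hg k j).1 h with ⟨rfl, h5⟩ | ⟨rfl, h5⟩
    · rw [dinv_zero hg σ x k h5, s06_nxt0, s06_sv2, s06_sv1]
      simp only
      rw [show 8 + (k.val - 1) = 7 + k.val by omega]
    · rw [dinv_two hg σ x k h5, s06_nxt2, s06_sv0, s06_sv0]
  · rw [dinv_side hg σ ((x, k), j) s h, s06_sv_dartOf]
    have hd := dartOf_sideOf hg k j s h
    have h1 := s06_sv_next hg σ x s
    rw [hd] at h1
    rw [h1, cor_fin]
    have h2 := u_iota σ (x, s)
    simp only at h2
    have h3 := cor_end hg σ hcov x s.val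
    rw [Nat.mod_eq_of_lt s.isLt] at h3
    rw [← h3, ← h2]
    rfl

end H98T
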