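import Mathlib
import Pool.Agent.Lib.H98T.S01

set_option autoImplicit false

/-!
# H98T.S02: pointer forests, recursion of the gauge
-/

namespace H98T

open Finset

variable {V : Type*} {g : ℕ}

/-- S02a (S). `root_iff`. -/
theorem rt_root {ρ : Fin 2 → Equiv.Perm V} (P : PForest ρ) (v : V) (h : P.root v) : P.rt v = v := by
  unfold PForest.rt
  rw [(P.root_iff v).1 h]
  rfl

/-- S02b (S). `ht_next`: `ht v = ht (next v) + 1`, `Function.iterate_succ_apply`. -/
theorem rt_next {ρ : Fin 2 → Equiv.Perm V} (P : PForest ρ) (v : V) (h : ¬ P.root v) : P.rt v = P.rt (P.next v) := by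
  unfold PForest.rt
  have h1 : P.ht (P.next v) + 1 = P.ht v := P.ht_next v h
  rw [← h1, Function.iterate_succ_apply]

/-- S02c (S). -/
theorem gau_root (hg : 2 ≤ g) {Y : Type*} (w : Fin (2 * g) → V → FreeGroup Y) {ρ : Fin 2 → Equiv.Perm V} (P : PForest ρ) (v : V) (h : P.root v) :
    gau hg w P v = 1 := by
  unfold gau
  rw [(P.root_iff v).1 h]
  rfl

/-- S02d (S). -/
theorem gau_next (hg : 2 ≤ g) {Y : Type*} (w : Fin (2 * g) → V → FreeGroup Y) {ρ : Fin 2 → Equiv.Perm V} (P : PForest ρ) (v : V) (h : ¬ P.root v) :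
    gau hg w P v = gau hg w P (P.next v) * w (kin hg (P.kind v)) (P.next v) := by
  unfold gau
  have h1 : P.ht (P.next v) + 1 = P.ht v := P.ht_next v h
  rw [← h1]
  rfl

/-- S02e (S). Induction along the pointers: a property which holds at the roots and passes from `next v` to `v` holds everywhere (induction on `ht v`). -/
theorem forest_induction {ρ : Fin 2 → Equiv.Perm V} (P : PForest ρ) (p : V → Prop) (h0 : ∀ v, P.root v → p v)
    (h1 : ∀ v, ¬ P.root v → p (P.next v) → p v) (v : V) : p v := by
  have key : ∀ n v, P.ht v = n → p v := by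
    intro n
    induction n with
    | zero => intro v hv; exact h0 v ((P.root_iff v).2 hv)
    | succ n ih =>
      intro v hv
      have h2 : ¬ P.root v := by
        intro h3
        rw [(P.root_iff v).1 h3] at hv
        omega
      have h3 : P.ht (P.next v) + 1 = P.ht v := P.ht_next v h2
      exact h1 v h2 (ih _ (by omega))
  exact key _ v rfl

/-- S02f (S). -/
theorem mem_path_self [DecidableEq V] {ρ : Fin 2 → Equiv.Perm V} (P : PForest ρ) (v : V) : v ∈ P.path v := by
  unfold PForest.path
  rw [mem_image]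
  exact ⟨0, mem_range.2 (by omega), rfl⟩

/-- S02g (S). -/
theorem path_next_subset [DecidableEq V] {ρ : Fin 2 → Equiv.Perm V} (P : PForest ρ) (v : V) (h : ¬ P.root v) : P.path (P.next v) ⊆ P.path v := by
  unfold PForest.path
  intro v' hv'
  rw [mem_image] at hv' ⊢
  obtain ⟨j, hj, rfl⟩ := hv'
  have h3 : P.ht (P.next v) + 1 = P.ht v := P.ht_next v h
  rw [mem_range] at hj
  refine ⟨j + 1, mem_range.2 (by omega), ?_⟩
  rw [Function.iterate_succ_apply]

/-- S02h (S). -/
theorem rt_mem_path [DecidableEq V] {ρ : Fin 2 → Equiv.Perm V} (P : PForest ρ) (v : V) : P.rt v ∈ P.path v := by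
  unfold PForest.path
  rw [mem_image]
  exact ⟨P.ht v, mem_range.2 (by omega), rfl⟩

end H98T
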