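import Mathlib
import Pool.Agent.Lib.H98T.S02
import Pool.Agent.Lib.H98T.GE5
import Pool.Agent.Lib.H98T.GE6

set_option autoImplicit false

/-!
# H98T.S03: the gauged words: walks, letters, trivial words
-/

namespace H98T

open Finset

variable {V : Type*} {g : ℕ}

/-- The pointer edge of `v` ends in `v`. -/
theorem s03_end (hg : 2 ≤ g) (σ : Fin (2 * g) → Equiv.Perm V) (P : PForest (two σ)) (v : V) : σ (kin hg (P.kind v)) (P.next v) = v := by
  rw [← two_eq hg σ]
  exact (two σ (P.kind v)).apply_symm_apply v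

/-- S03a (S/M). The gauge `G_v` is a walk from the cell of the root of `v` to the cell of `v`: `forest_induction`, `gau_root`, `gau_next`, `rt_root`, `rt_next`, `walk_mul`; the pointer edge of `v` goes from
`next v` to `σ (kin (kind v)) (next v) = v` (`two_eq`). -/
theorem walk_gau (hg : 2 ≤ g) {C Y : Type*} (σ : Fin (2 * g) → Equiv.Perm V) (src tgt : Y → C) (w : Fin (2 * g) → V → FreeGroup Y) (Q0 : V → C)
    (hw : ∀ k v, Walk src tgt (Q0 v) (w k v) (Q0 (σ k v))) (P : PForest (two σ)) (v : V) :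
    Walk src tgt (Q0 (P.rt v)) (gau hg w P v) (Q0 v) := by
  refine forest_induction P (fun v => Walk src tgt (Q0 (P.rt v)) (gau hg w P v) (Q0 v)) ?_ ?_ v
  · intro v hv
    rw [rt_root P v hv, gau_root hg w P v hv]
    exact Walk.nil _
  · intro v hv ih
    rw [rt_next P v hv, gau_next hg w P v hv]
    refine walk_mul src tgt _ _ _ _ _ ih ?_
    have h1 := hw (kin hg (P.kind v)) (P.next v)
    rwa [s03_end hg σ P v] at h1

/-- S03b (S). `walk_mul`, `walk_inv`. -/
theorem walk_gw (hg : 2 ≤ g) {C Y : Type*} (σ : Fin (2 * g) → Equiv.Perm V) (src tgt : Y → C) (w : Fin (2 * g) → V → FreeGroup Y) (Q0 : V → C)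
    (hw : ∀ k v, Walk src tgt (Q0 v) (w k v) (Q0 (σ k v))) (P : PForest (two σ)) (k : Fin (2 * g)) (v : V) :
    Walk src tgt (Q0 (P.rt v)) (gw hg σ w P k v) (Q0 (P.rt (σ k v))) := by
  unfold gw
  exact walk_mul src tgt _ _ _ _ _ (walk_mul src tgt _ _ _ _ _ (walk_gau hg σ src tgt w Q0 hw P v) (hw k v))
    (walk_inv src tgt _ _ _ (walk_gau hg σ src tgt w Q0 hw P (σ k v)))

/-- S03c (S). The gauged word of the pointer edge of a vertex which is not a root is trivial (`gau_next`, and the edge ends in `v`). -/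
theorem gw_ptr (hg : 2 ≤ g) {Y : Type*} (σ : Fin (2 * g) → Equiv.Perm V) (w : Fin (2 * g) → V → FreeGroup Y) (P : PForest (two σ)) (v : V) (h : ¬ P.root v) :
    gw hg σ w P (kin hg (P.ptr v).1) (P.ptr v).2 = 1 := by
  unfold gw PForest.ptr
  simp only
  rw [s03_end hg σ P v, gau_next hg w P v h]
  exact mul_inv_cancel _

/-- S03d (S). The gauged word of the pointer edge of a root `x` (`kind x = 0`, start `(σ 0)⁻¹ x`). -/
theorem gw_ptr_root (hg : 2 ≤ g) {Y : Type*} (σ : Fin (2 * g) → Equiv.Perm V) (w : Fin (2 * g) → V → FreeGroup Y) (P : PForest (two σ)) (x : V) (h : P.root x) :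
    P.ptr x = (0, (two σ 0)⁻¹ x) ∧
      gw hg σ w P (kin hg (P.ptr x).1) (P.ptr x).2 = gau hg w P ((two σ 0)⁻¹ x) * w (kin hg 0) ((two σ 0)⁻¹ x) := by
  have h1 : P.ptr x = (0, (two σ 0)⁻¹ x) := by
    unfold PForest.ptr PForest.next
    rw [P.kind_root x h]
  refine ⟨h1, ?_⟩
  have h2 : σ (kin hg 0) ((two σ 0)⁻¹ x) = x := by
    rw [← two_eq hg σ]
    exact (two σ 0).apply_symm_apply x
  rw [h1]
  unfold gw
  simp only
  rw [h2, gau_root hg w P x h, inv_one, mul_one]

end H98T
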