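import Mathlib
import Pool.Agent.Lib.H98T.S03

set_option autoImplicit false

/-!
# H98T.S03B: the letters of the gauge, gauged side words
-/

namespace H98T

open Finset

variable {V : Type*} {g : ℕ}

theorem s03b_gen0 (hg : 2 ≤ g) : gen (⟨0, by omega⟩ : Fin (4 * g)) = kin hg 0 := Fin.ext (by simp [gen, kin])

theorem s03b_gen1 (hg : 2 ≤ g) : gen (⟨1, by omega⟩ : Fin (4 * g)) = kin hg 1 := Fin.ext (by simp [gen, kin])

/-- S03e (S/M). The letters of the words of the edges of kinds `0, 1`: `w 0 v` is the word of the side `0` of the polygon `v`, `w 1 v` is the word of the side `1` of the polygon `(σ 0)⁻¹ v`. -/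
theorem letters_w01 (hg : 2 ≤ g) {Y : Type*} [DecidableEq Y] (σ : Fin (2 * g) → Equiv.Perm V) (w : Fin (2 * g) → V → FreeGroup Y) (S : V → Set Y)
    (hS : ∀ x s y, (∃ t, (y, t) ∈ (sidew σ w x s).toWord) → y ∈ S x) (i : Fin 2) (v : V) (y : Y) (h : ∃ t, (y, t) ∈ (w (kin hg i) v).toWord) :
    y ∈ S v ∨ y ∈ S ((two σ 0)⁻¹ v) := by
  have h01 : i = 0 ∨ i = 1 := by
    rcases i with ⟨i, hi⟩
    have : i = 0 ∨ i = 1 := by omega
    rcases this with rfl | rfl
    · exact Or.inl rfl
    · exact Or.inr rfl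
  rcases h01 with rfl | rfl
  · left
    apply hS v ⟨0, by omega⟩ y
    have h1 : sidew σ w v ⟨0, by omega⟩ = w (kin hg 0) v := by
      unfold sidew
      rw [if_pos (by simp), s03b_gen0 hg]
      rfl
    rwa [h1]
  · right
    apply hS _ ⟨1, by omega⟩ y
    have h1 : sidew σ w ((two σ 0)⁻¹ v) ⟨1, by omega⟩ = w (kin hg 1) v := by
      unfold sidew
      rw [if_pos (by simp)]
      have h2 : u σ 1 ((two σ 0)⁻¹ v) = v := by
        have h3 := u_succ σ (⟨0, by omega⟩ : Fin (4 * g))
        simp only [zero_add] at h3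
        rw [h3]
        show tau σ ⟨0, by omega⟩ ((two σ 0)⁻¹ v) = v
        have h4 : tau σ (⟨0, by omega⟩ : Fin (4 * g)) = two σ 0 := by
          unfold tau
          rw [if_pos (by simp), two_eq hg σ, s03b_gen0 hg]
        rw [h4]
        exact (two σ 0).apply_symm_apply v
      simp only
      rw [h2, s03b_gen1 hg]
    rwa [h1]

/-- S03f (S/M). The letters of the gauge `G_v` (`forest_induction`, `letters_mul`, `letters_w01` at the vertex `next v`, `mem_path_self`, `path_next_subset`). -/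
theorem letters_gau [DecidableEq V] (hg : 2 ≤ g) {Y : Type*} [DecidableEq Y] (σ : Fin (2 * g) → Equiv.Perm V) (w : Fin (2 * g) → V → FreeGroup Y) (S : V → Set Y)
    (hS : ∀ x s y, (∃ t, (y, t) ∈ (sidew σ w x s).toWord) → y ∈ S x) (P : PForest (two σ)) (v : V) (y : Y)
    (h : ∃ t, (y, t) ∈ (gau hg w P v).toWord) : ∃ v' ∈ P.path v, y ∈ S v' ∨ y ∈ S ((two σ 0)⁻¹ v') := by
  revert h
  refine forest_induction P (fun v => (∃ t, (y, t) ∈ (gau hg w P v).toWord) → ∃ v' ∈ P.path v, y ∈ S v' ∨ y ∈ S ((two σ 0)⁻¹ v')) ?_ ?_ v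
  · intro v hv h
    rw [gau_root hg w P v hv, FreeGroup.toWord_one] at h
    obtain ⟨t, ht⟩ := h
    exact absurd ht (by simp)
  · intro v hv ih h
    rw [gau_next hg w P v hv] at h
    rcases letters_mul _ _ y h with h1 | h1
    · obtain ⟨v', h2, h3⟩ := ih h1
      exact ⟨v', path_next_subset P v hv h2, h3⟩
    · exact ⟨P.next v, path_next_subset P v hv (mem_path_self P _), letters_w01 hg σ w S hS _ _ y h1⟩

/-- S03g (S/M). The gauged side words (two cases; the start of the negative side `s` is `σ (gen s) (u (s+1) x)`: `u_succ`, `tau`). -/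
theorem sidew_gw (hg : 2 ≤ g) {Y : Type*} (σ : Fin (2 * g) → Equiv.Perm V) (w : Fin (2 * g) → V → FreeGroup Y) (P : PForest (two σ)) (x : V) (s : Fin (4 * g)) :
    sidew σ (gw hg σ w P) x s = gau hg w P (u σ s.val x) * sidew σ w x s * (gau hg w P (u σ (s.val + 1) x))⁻¹ := by
  have h1 := u_succ σ s
  unfold sidew
  by_cases hs : s.val % 4 < 2
  · rw [if_pos hs, if_pos hs]
    unfold gw
    have h2 : σ (gen s) (u σ s.val x) = u σ (s.val + 1) x := by
      rw [h1]
      unfold tau
      rw [if_pos hs]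
      rfl
    rw [h2]
  · rw [if_neg hs, if_neg hs]
    unfold gw
    have h2 : σ (gen s) (u σ (s.val + 1) x) = u σ s.val x := by
      rw [h1]
      unfold tau
      rw [if_neg hs]
      exact (σ (gen s)).apply_symm_apply _
    rw [h2, mul_inv_rev, mul_inv_rev, inv_inv, mul_assoc]

end H98T
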