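import Mathlib
import Pool.Agent.Lib.H98T.S03B
import Pool.Agent.Lib.H98T.S05

set_option autoImplicit false

/-!
# H98T.S07: letters of the words of the darts, darts carrying pointer edges
-/

namespace H98T

open Finset

variable {V : Type} {g : ℕ} [DecidableEq V]

theorem s07_telescope {G : Type*} [Group G] (N : ℕ) (f a : ℕ → G) :
    ((List.range N).map (fun s => a s * f s * (a (s + 1))⁻¹)).prod = a 0 * ((List.range N).map f).prod * (a N)⁻¹ := by
  induction N with
  | zero => simp
  | succ N ih =>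
    rw [List.range_succ, List.map_append, List.map_append, List.prod_append, List.prod_append, ih]
    simp only [List.map_cons, List.map_nil, List.prod_cons, List.prod_nil, mul_one]
    group

theorem s07_ofFn {G : Type*} [Monoid G] (N : ℕ) (hN : 0 < N) (f : Fin N → G) :
    (List.ofFn f).prod = ((List.range N).map (fun t => f ⟨t % N, Nat.mod_lt _ hN⟩)).prod := by
  congr 1
  apply List.ext_getElem
  · simp
  · intro i h1 h2
    simp only [List.length_map, List.length_range] at h2
    simp only [List.getElem_map, List.getElem_range, List.getElem_ofFn]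
    congr 1
    exact Fin.ext (Nat.mod_eq_of_lt h2).symm

/-- S07a (S/M). The relation survives the gauge: the product of the gauged side words telescopes (`sidew_gw`) to `G_x * (product of the side words) * G_(u (4g) x)⁻¹`, `u_top`. -/
theorem gauged_rel (hg : 2 ≤ g) {Y : Type*} (σ : Fin (2 * g) → Equiv.Perm V) (hcov : IsCov σ) (w : Fin (2 * g) → V → FreeGroup Y) (P : PForest (two σ)) (x : V)
    (h : (List.ofFn (sidew σ w x)).prod = 1) : (List.ofFn (sidew σ (gw hg σ w P) x)).prod = 1 := by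
  have hN : 0 < 4 * g := by omega
  rw [s07_ofFn (4 * g) hN] at h ⊢
  have h1 : (List.range (4 * g)).map (fun t => sidew σ (gw hg σ w P) x ⟨t % (4 * g), Nat.mod_lt _ hN⟩) =
      (List.range (4 * g)).map (fun t => gau hg w P (u σ t x) * sidew σ w x ⟨t % (4 * g), Nat.mod_lt _ hN⟩ * (gau hg w P (u σ (t + 1) x))⁻¹) := by
    apply List.map_congr_left
    intro t ht
    rw [List.mem_range] at ht
    rw [sidew_gw]
    simp only [Nat.mod_eq_of_lt ht]
  rw [h1, s07_telescope (4 * g) (fun t => sidew σ w x ⟨t % (4 * g), Nat.mod_lt _ hN⟩) (fun t => gau hg w P (u σ t x)), h, mul_one, u_top σ hcov]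
  exact mul_inv_cancel _

/-- S07b (M). The letters of the gauged side words of `x` are in `GS σ P S x` (`sidew_gw`, `letters_mul`, `letters_inv`, `letters_gau`; the end corner `u (s+1) x` is a corner with number `< 4g` by `cor_end`). -/
theorem letters_sidew_gw (hg : 2 ≤ g) {Y : Type*} [DecidableEq Y] (σ : Fin (2 * g) → Equiv.Perm V) (hcov : IsCov σ) (w : Fin (2 * g) → V → FreeGroup Y) (S : V → Set Y)
    (hS : ∀ x s y, (∃ t, (y, t) ∈ (sidew σ w x s).toWord) → y ∈ S x) (P : PForest (two σ)) (x : V) (s : Fin (4 * g)) (y : Y)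
    (h : ∃ t, (y, t) ∈ (sidew σ (gw hg σ w P) x s).toWord) : y ∈ GS σ P S x := by
  rw [sidew_gw] at h
  rcases letters_mul _ _ y h with h1 | h1
  · rcases letters_mul _ _ y h1 with h2 | h2
    · obtain ⟨v', h3, h4⟩ := letters_gau hg σ w S hS P _ y h2
      exact Or.inr ⟨s.val, s.isLt, v', h3, h4⟩
    · exact Or.inl (hS x s y h2)
  · rw [letters_inv] at h1
    obtain ⟨v', h3, h4⟩ := letters_gau hg σ w S hS P _ y h1
    have h5 := cor_end hg σ hcov x s.val
    rw [Nat.mod_eq_of_lt s.isLt] at h5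
    rw [h5] at h3
    exact Or.inr ⟨(s.val + 1) % (4 * g), Nat.mod_lt _ (by omega), v', h3, h4⟩

/-- S07c (S/M). If all side words of the polygon of `e` have their letters in a set `T`, so has the word of `e`. -/
theorem letters_wdart (hg : 2 ≤ g) {Y : Type*} [DecidableEq Y] (σ : Fin (2 * g) → Equiv.Perm V) (w : Fin (2 * g) → V → FreeGroup Y) (e : Dart (Nd g V)) (T : Set Y)
    (hT : ∀ s y, (∃ t, (y, t) ∈ (sidew σ w e.1.1 s).toWord) → y ∈ T) (y : Y) (h : ∃ t, (y, t) ∈ (wdart hg σ w e).toWord) : y ∈ T := by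
  have hpp : ∀ t, (∃ b, (y, b) ∈ (pp hg σ w e.1.1 t).toWord) → y ∈ T := by
    intro t
    induction t with
    | zero =>
      intro h1
      obtain ⟨b, hb⟩ := h1
      have h2 : pp hg σ w e.1.1 0 = 1 := rfl
      rw [h2, FreeGroup.toWord_one] at hb
      exact absurd hb (by simp)
    | succ t ih =>
      intro h1
      have h2 : pp hg σ w e.1.1 (t + 1) = pp hg σ w e.1.1 t * ds hg σ w e.1.1 t := rfl
      rw [h2] at h1
      rcases letters_mul _ _ y h1 with h3 | h3
      · exact ih h3
      · exact hT _ y h3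
  unfold wdart at h
  split_ifs at h
  · exact hpp _ h
  · exact hT _ y h
  · exact hT _ y h
  · rw [letters_inv] at h
    exact hpp _ h

/-- S07d (S/M). Darts carrying the pointer edge of a vertex which is not a root have trivial words (`wdart_side`, `sidew_small`, `gw_ptr`). -/
theorem wdart_ptr (hg : 2 ≤ g) {Y : Type*} (σ : Fin (2 * g) → Equiv.Perm V) (w : Fin (2 * g) → V → FreeGroup Y) (P : PForest (two σ)) (v : V) (h : ¬ P.root v)
    (e : Dart (Nd g V)) (he : FD hg σ {P.ptr v} e) : wdart hg σ (gw hg σ w P) e = 1 := by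
  obtain ⟨s, h1, i, h2, h3, h4⟩ := he
  rw [mem_singleton] at h4
  rw [wdart_side hg σ _ e s h1]
  have h5 := gw_ptr hg σ w P v h
  rw [← h4] at h5
  rcases sidew_small hg σ (gw hg σ w P) e.1.1 s h2 i h3 with h6 | h6
  · rw [h6, h5]
  · rw [h6, h5, inv_one]

/-- S07e (S/M). Letters of the words of the darts carrying the pointer edge of a root `x` (`wdart_side`, `sidew_small`, `gw_ptr_root`, `letters_mul`, `letters_inv`, `letters_gau`, `letters_w01`, `mem_path_self`). -/
theorem letters_ptr_root (hg : 2 ≤ g) {Y : Type*} [DecidableEq Y] (σ : Fin (2 * g) → Equiv.Perm V) (w : Fin (2 * g) → V → FreeGroup Y) (S : V → Set Y)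
    (hS : ∀ x s y, (∃ t, (y, t) ∈ (sidew σ w x s).toWord) → y ∈ S x) (P : PForest (two σ)) (x : V) (h : P.root x)
    (e : Dart (Nd g V)) (he : FD hg σ {P.ptr x} e) (y : Y) (hy : ∃ t, (y, t) ∈ (wdart hg σ (gw hg σ w P) e).toWord) :
    ∃ v ∈ P.path ((two σ 0)⁻¹ x), y ∈ S v ∨ y ∈ S ((two σ 0)⁻¹ v) := by
  obtain ⟨s, h1, i, h2, h3, h4⟩ := he
  rw [mem_singleton] at h4
  rw [wdart_side hg σ _ e s h1] at hy
  obtain ⟨_, h5⟩ := gw_ptr_root hg σ w P x h
  rw [← h4] at h5
  simp only at h5
  have h6 : ∃ t, (y, t) ∈ (gau hg w P ((two σ 0)⁻¹ x) * w (kin hg 0) ((two σ 0)⁻¹ x)).toWord := by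
    rw [← h5]
    rcases sidew_small hg σ (gw hg σ w P) e.1.1 s h2 i h3 with h6 | h6
    · rwa [h6] at hy
    · rw [h6] at hy
      exact (letters_inv _ _).1 hy
  rcases letters_mul _ _ y h6 with h7 | h7
  · exact letters_gau hg σ w S hS P _ y h7
  · exact ⟨_, mem_path_self P _, letters_w01 hg σ w S hS 0 _ y h7⟩

end H98T
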