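import Mathlib
import Pool.Agent.Lib.H98T.S06
import Pool.Agent.Lib.H98T.S07

set_option autoImplicit false

/-!
# H98T.S08: the gauged net of a covering (assembly)
-/

namespace H98T

open Finset

/-- GAUGE_NET (assembly; S).  `wd = wdart hg σ (gw hg σ w P)`, `st e = Q0 (P.rt (sv σ e))`. -/
theorem gauge_net {g : ℕ} (hg : 2 ≤ g) {V : Type} [DecidableEq V] (σ : Fin (2 * g) → Equiv.Perm V) (hcov : IsCov σ) {C Y : Type*} [DecidableEq Y] (src tgt : Y → C)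
    (w : Fin (2 * g) → V → FreeGroup Y) (Q0 : V → C) (hw : ∀ k v, Walk src tgt (Q0 v) (w k v) (Q0 (σ k v)))
    (Bd : V → Prop) (hrel : ∀ x, ¬ Bd x → (List.ofFn (fun s : Fin (4 * g) => sidew σ w x s)).prod = 1)
    (S : V → Set Y) (hS : ∀ x s y, (∃ t, (y, t) ∈ (sidew σ w x s).toWord) → y ∈ S x) (P : PForest (two σ)) :
    ∃ (wd : Dart (Nd g V) → FreeGroup Y) (st : Dart (Nd g V) → C),
      (∀ e, wd (dinv hg σ e) = (wd e)⁻¹) ∧
      (∀ x k, ¬ Bd x → wd ((x, k), 0) * wd ((x, k), 1) * wd ((x, k), 2) = 1) ∧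
      (∀ e, Walk src tgt (st e) (wd e) (st (nxt e))) ∧
      (∀ e, st (dinv hg σ e) = st (nxt e)) ∧
      (∀ v, ¬ P.root v → ∀ e, FD hg σ {P.ptr v} e → wd e = 1) ∧
      (∀ e y, (∃ t, (y, t) ∈ (wd e).toWord) → y ∈ GS σ P S e.1.1) ∧
      (∀ x, P.root x → ∀ e, FD hg σ {P.ptr x} e → ∀ y, (∃ t, (y, t) ∈ (wd e).toWord) →
        ∃ v ∈ P.path ((two σ 0)⁻¹ x), y ∈ S v ∨ y ∈ S ((two σ 0)⁻¹ v)) ∧
      (∀ e, ∃ s, s < 4 * g ∧ st e = Q0 (P.rt (u σ s e.1.1))) := by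
  refine ⟨wdart hg σ (gw hg σ w P), fun e => Q0 (P.rt (sv σ e)), ?_, ?_, ?_, ?_, ?_, ?_, ?_, ?_⟩
  · exact fun e => wdart_dinv hg σ _ e
  · exact fun x k hx => wdart_rel hg σ _ x (gauged_rel hg σ hcov w P x (hrel x hx)) k
  · exact fun e => walk_wdart hg σ hcov src tgt _ (fun v => Q0 (P.rt v)) (fun k v => walk_gw hg σ src tgt w Q0 hw P k v) e
  · intro e
    show Q0 (P.rt (sv σ (dinv hg σ e))) = Q0 (P.rt (sv σ (nxt e)))
    rw [sv_dinv hg σ hcov e]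
  · exact fun v hv e he => wdart_ptr hg σ w P v hv e he
  · exact fun e y h => letters_wdart hg σ _ e _ (fun s y' h' => letters_sidew_gw hg σ hcov w S hS P e.1.1 s y' h') y h
  · exact fun x hx e he y hy => letters_ptr_root hg σ w S hS P x hx e he y hy
  · exact fun e => ⟨_, Nat.mod_lt _ (by omega), rfl⟩

/-- The start cells are in `GS σ P R` (`R v` contains the cell of `v`). -/
theorem start_mem_GS {g : ℕ} {V : Type} [DecidableEq V] (σ : Fin (2 * g) → Equiv.Perm V) {C : Type*} (Q0 : V → C) (P : PForest (two σ)) (R : V → Set C)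
    (hR : ∀ v, Q0 v ∈ R v) (x : V) (s : ℕ) (hs : s < 4 * g) : Q0 (P.rt (u σ s x)) ∈ GS σ P R x :=
  Or.inr ⟨s, hs, _, rt_mem_path P _, Or.inl (hR _)⟩

/-- Monotonicity of `GS` along maps of letters to cells. -/
theorem GS_map {g : ℕ} {V : Type} [DecidableEq V] (σ : Fin (2 * g) → Equiv.Perm V) {A C : Type*} (P : PForest (two σ)) (S : V → Set A) (R : V → Set C) (f : A → C)
    (h : ∀ v, ∀ a ∈ S v, f a ∈ R v) (x : V) (a : A) (ha : a ∈ GS σ P S x) : f a ∈ GS σ P R x := by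
  rcases ha with ha | ⟨s, hs, v, hv, ha⟩
  · exact Or.inl (h _ _ ha)
  · exact Or.inr ⟨s, hs, v, hv, ha.imp (h _ _) (h _ _)⟩

end H98T
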