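import Mathlib
import Pool.Agent.Lib.H98T.S04

set_option autoImplicit false

/-!
# H98T.S10: diagonals inside a set of nodes
-/

namespace H98T

open Finset

variable {V : Type} {g : ℕ} [Fintype V] [DecidableEq V]

open Classical in
/-- S10a (M). A set `U` of nodes with `n ≥ 1` nodes in the polygon `x` has at most `2 (n - 1)` diagonal darts of `x` inside.  With `A = {k | (x, k) ∈ U}`: the darts are `((x, k), 0)`, `k, k - 1 ∈ A` (the minimum of `A` is
missing) and `((x, k), 2)`, `k, k + 1 ∈ A` (the maximum of `A` is missing) (`sideOf_none`, `dinv_zero`, `dinv_two`). -/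
theorem diag_count (hg : 2 ≤ g) (σ : Fin (2 * g) → Equiv.Perm V) (U : Finset (Nd g V)) (x : V) (hx : ∃ z ∈ U, z.1 = x) :
    (univ.filter (fun e : Dart (Nd g V) => e.1 ∈ U ∧ (dinv hg σ e).1 ∈ U ∧ sideOf hg e.1.2 e.2 = none ∧ e.1.1 = x)).card + 2 ≤
      2 * (U.filter (fun z => z.1 = x)).card := by
  set A : Finset (Fin (4 * g - 2)) := univ.filter (fun k => (x, k) ∈ U) with hA
  have hA1 : A.card = (U.filter (fun z => z.1 = x)).card := by
    apply Finset.card_bij (fun k _ => (x, k))
    · intro k hk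
      rw [hA, mem_filter] at hk
      rw [mem_filter]
      exact ⟨hk.2, rfl⟩
    · intro k _ k' _ h
      exact (Prod.mk.inj h).2
    · intro z hz
      rw [mem_filter] at hz
      refine ⟨z.2, ?_, ?_⟩
      · rw [hA, mem_filter]
        refine ⟨mem_univ _, ?_⟩
        rw [← hz.2]
        exact hz.1
      · rw [← hz.2]
  have hne : A.Nonempty := by
    obtain ⟨z, hz, hzx⟩ := hx
    refine ⟨z.2, ?_⟩
    rw [hA, mem_filter]
    refine ⟨mem_univ _, ?_⟩
    rw [← hzx]
    exact hz
  have hsub : (univ.filter (fun e : Dart (Nd g V) => e.1 ∈ U ∧ (dinv hg σ e).1 ∈ U ∧ sideOf hg e.1.2 e.2 = none ∧ e.1.1 = x)) ⊆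
      (A.erase (A.min' hne)).image (fun k => (((x, k), 0) : Dart (Nd g V))) ∪ (A.erase (A.max' hne)).image (fun k => (((x, k), 2) : Dart (Nd g V))) := by
    intro e he
    rw [mem_filter] at he
    obtain ⟨_, h1, h2, h3, h4⟩ := he
    obtain ⟨⟨x', k⟩, j⟩ := e
    simp only at h1 h2 h3 h4
    subst h4
    have hk : k ∈ A := by
      rw [hA, mem_filter]
      exact ⟨mem_univ _, h1⟩
    rw [mem_union, mem_image, mem_image]
    rcases (sideOf_none hg k j).1 h3 with ⟨rfl, h5⟩ | ⟨rfl, h5⟩
    · left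
      refine ⟨k, ?_, rfl⟩
      rw [dinv_zero hg σ x' k h5] at h2
      have h6 : (⟨k.val - 1, by have := k.isLt; omega⟩ : Fin (4 * g - 2)) ∈ A := by
        rw [hA, mem_filter]
        exact ⟨mem_univ _, h2⟩
      rw [mem_erase]
      refine ⟨?_, hk⟩
      intro h7
      have h8 := Finset.min'_le A _ h6
      rw [← h7, Fin.le_def] at h8
      simp only at h8
      omega
    · right
      refine ⟨k, ?_, rfl⟩
      rw [dinv_two hg σ x' k h5] at h2
      have h6 : (⟨k.val + 1, by have := k.isLt; omega⟩ : Fin (4 * g - 2)) ∈ A := by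
        rw [hA, mem_filter]
        exact ⟨mem_univ _, h2⟩
      rw [mem_erase]
      refine ⟨?_, hk⟩
      intro h7
      have h8 := Finset.le_max' A _ h6
      rw [← h7, Fin.le_def] at h8
      simp only at h8
      omega
  have h1 := card_le_card hsub
  have h2 := Finset.card_union_le ((A.erase (A.min' hne)).image (fun k => (((x, k), 0) : Dart (Nd g V)))) ((A.erase (A.max' hne)).image (fun k => (((x, k), 2) : Dart (Nd g V))))
  have h3 : ((A.erase (A.min' hne)).image (fun k => (((x, k), 0) : Dart (Nd g V)))).card ≤ A.card - 1 :=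
    le_trans card_image_le (le_of_eq (card_erase_of_mem (Finset.min'_mem A hne)))
  have h4 : ((A.erase (A.max' hne)).image (fun k => (((x, k), 2) : Dart (Nd g V)))).card ≤ A.card - 1 :=
    le_trans card_image_le (le_of_eq (card_erase_of_mem (Finset.max'_mem A hne)))
  have h5 : 1 ≤ A.card := hne.card_pos
  rw [← hA1]
  omega

open Classical in
/-- S10b (M). Summing over the polygons of `U` (`U' = image of U`): at most `2 |U| - 2 |U'|` diagonal darts inside `U` (`diag_count`, fibres: `card_eq_sum_card_fiberwise`). -/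
theorem diag_sum (hg : 2 ≤ g) (σ : Fin (2 * g) → Equiv.Perm V) (U : Finset (Nd g V)) :
    (univ.filter (fun e : Dart (Nd g V) => e.1 ∈ U ∧ (dinv hg σ e).1 ∈ U ∧ sideOf hg e.1.2 e.2 = none)).card + 2 * (U.image Prod.fst).card ≤
      2 * U.card := by
  set D := univ.filter (fun e : Dart (Nd g V) => e.1 ∈ U ∧ (dinv hg σ e).1 ∈ U ∧ sideOf hg e.1.2 e.2 = none) with hD
  have h1 : D.card = ∑ x ∈ U.image Prod.fst, (D.filter (fun e => e.1.1 = x)).card := by
    apply card_eq_sum_card_fiberwise
    intro e he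
    rw [Finset.mem_coe, hD, mem_filter] at he
    rw [Finset.mem_coe]
    exact mem_image_of_mem _ he.2.1
  have h2 : U.card = ∑ x ∈ U.image Prod.fst, (U.filter (fun z => z.1 = x)).card := by
    apply card_eq_sum_card_fiberwise
    intro z hz
    exact Finset.mem_coe.2 (mem_image_of_mem _ hz)
  have h3 : ∀ x ∈ U.image Prod.fst, (D.filter (fun e => e.1.1 = x)).card + 2 ≤ 2 * (U.filter (fun z => z.1 = x)).card := by
    intro x hx
    rw [mem_image] at hx
    obtain ⟨z, hz, hzx⟩ := hx
    have h4 := diag_count hg σ U x ⟨z, hz, hzx⟩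
    refine le_trans (Nat.add_le_add_right (card_le_card ?_) 2) h4
    intro e he
    rw [mem_filter, hD, mem_filter] at he
    rw [mem_filter]
    exact ⟨mem_univ _, he.1.2.1, he.1.2.2.1, he.1.2.2.2, he.2⟩
  have h4 := Finset.sum_le_sum h3
  rw [Finset.sum_add_distrib, ← Finset.mul_sum, ← h1, ← h2, Finset.sum_const, smul_eq_mul] at h4
  omega

end H98T
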