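import Mathlib
import Pool.Agent.Lib.H98T.S04

set_option autoImplicit false

/-!
# H98T.S10B: sides of polygons inside a set of nodes
-/

namespace H98T

open Finset

variable {V : Type} {g : ℕ} [Fintype V] [DecidableEq V]

open Classical in
/-- S10c (M). The darts inside `U` which carry a side and not an edge of `F` are at most as many as the sides counted in `FDense` for `U' = U.image Prod.fst` (injection `e ↦ (e.1.1, s)`, `sideOf hg e.1.2 e.2 = some s`;
`dartOf_sideOf`, `dinv_side`). -/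
theorem side_count (hg : 2 ≤ g) (σ : Fin (2 * g) → Equiv.Perm V) (F : Finset (Fin 2 × V)) (U : Finset (Nd g V)) :
    (univ.filter (fun e : Dart (Nd g V) => e.1 ∈ U ∧ (dinv hg σ e).1 ∈ U ∧ sideOf hg e.1.2 e.2 ≠ none ∧ ¬ FD hg σ F e)).card ≤
      (univ.filter (fun c : V × Fin (4 * g) => c.1 ∈ U.image Prod.fst ∧ (iota σ c).1 ∈ U.image Prod.fst ∧ ¬ Fside σ F c)).card := by
  apply Finset.card_le_card_of_injOn (fun e => (e.1.1, (sideOf hg e.1.2 e.2).getD ⟨0, by omega⟩))
  · intro e he
    rw [Finset.mem_coe, mem_filter] at he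
    obtain ⟨_, h1, h2, h3, h4⟩ := he
    obtain ⟨s, hs⟩ := Option.ne_none_iff_exists'.1 h3
    have h5 := dinv_side hg σ e s hs
    rw [Finset.mem_coe, mem_filter]
    simp only [hs, Option.getD_some]
    refine ⟨mem_univ _, mem_image_of_mem _ h1, ?_, ?_⟩
    · rw [h5] at h2
      exact mem_image_of_mem Prod.fst h2
    · intro h6
      exact h4 ⟨s, hs, h6⟩
  · intro e he e' he' h
    rw [Finset.mem_coe, mem_filter] at he he'
    obtain ⟨s, hs⟩ := Option.ne_none_iff_exists'.1 he.2.2.2.1
    obtain ⟨s', hs'⟩ := Option.ne_none_iff_exists'.1 he'.2.2.2.1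
    simp only [hs, hs', Option.getD_some, Prod.mk.injEq] at h
    obtain ⟨h1, h2⟩ := h
    subst h2
    have h3 := dartOf_sideOf hg _ _ _ hs
    have h4 := dartOf_sideOf hg _ _ _ hs'
    rw [h3] at h4
    obtain ⟨h5, h6⟩ := Prod.mk.inj h4
    exact Prod.ext (Prod.ext h1 h5) h6

end H98T
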