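import Mathlib
import Pool.Agent.Lib.H98T.S10
import Pool.Agent.Lib.H98T.S10B

set_option autoImplicit false

/-!
# H98T.S10C: acyclicity of the letters (W2 of `PROOF.md`), assembly
-/

namespace H98T

open Finset

variable {V : Type} {g : ℕ} [Fintype V] [DecidableEq V]

/-- S10d (M). W2 of `PROOF.md`.  Suppose that for the letter `y` the nonempty set `U` of uncut nodes has at least `2 |U|` darts `e` with `e.1, (inv e).1 ∈ U`, `y ∈ word e`, `¬ F e`.  Let `U1` be the set of the nodes
of `U` at which such a dart starts: it is nonempty, and it contains the end nodes of these darts as well (`word_inv`, `F_inv`, `inv_inv`).  So there are `≥ 2 |U| ≥ 2 |U1|` such darts inside `U1`; at most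
`2 |U1| - 2 |U1'|` of them are diagonals (`diag_sum`), `U1' = U1.image Prod.fst`, so at least `2 |U1'|` carry sides: `FDense σ F U1'` (`side_count`).  All polygons of `U1'` have `y` in `S'`, so `|U1'| ≤ t3`, and `hZ` gives
a cut polygon in `U1'`: contradiction, since the nodes of `U` are not cut. -/
theorem net_AC (hg : 2 ≤ g) {Y : Type} (σ : Fin (2 * g) → Equiv.Perm V) (F : Finset (Fin 2 × V)) (M : Net (Nd g V) Y) (hinv : M.inv = dinv hg σ)
    (cutP : V → Prop) (hcut : ∀ z, M.cut z ↔ cutP z.1) (hF : ∀ e, M.F e ↔ FD hg σ F e) (S' : V → Set Y) (hS' : ∀ e y, y ∈ M.word e → y ∈ S' e.1.1)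
    (t3 : ℕ) (ht3 : ∀ y, {x | y ∈ S' x}.ncard ≤ t3) (hZ : ∀ U : Finset V, FDense σ F U → U.card ≤ t3 → ∃ x ∈ U, cutP x) : M.AC := by
  classical
  intro y U hU hUc
  by_contra hcon
  rw [not_lt] at hcon
  set E := univ.filter (fun e : Dart (Nd g V) => e.1 ∈ U ∧ (M.inv e).1 ∈ U ∧ y ∈ M.word e ∧ ¬ M.F e) with hE
  have hcon' : 2 * U.card ≤ E.card := by
    refine le_trans hcon (le_of_eq ?_)
    rw [hE]
    congr
  set U1 := E.image (fun e => e.1) with hU1
  have hU1sub : U1 ⊆ U := by
    intro z hz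
    rw [hU1, mem_image] at hz
    obtain ⟨e, he, rfl⟩ := hz
    rw [hE, mem_filter] at he
    exact he.2.1
  have hEinv : ∀ e ∈ E, M.inv e ∈ E := by
    intro e he
    rw [hE, mem_filter] at he ⊢
    refine ⟨mem_univ _, he.2.2.1, ?_, ?_, ?_⟩
    · rw [M.inv_inv]; exact he.2.1
    · rw [M.word_inv, List.mem_reverse]; exact he.2.2.2.1
    · rw [M.F_inv]; exact he.2.2.2.2
  have hEsub : E.card ≤ (univ.filter (fun e : Dart (Nd g V) => e.1 ∈ U1 ∧ (dinv hg σ e).1 ∈ U1 ∧ sideOf hg e.1.2 e.2 = none)).card +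
      (univ.filter (fun e : Dart (Nd g V) => e.1 ∈ U1 ∧ (dinv hg σ e).1 ∈ U1 ∧ sideOf hg e.1.2 e.2 ≠ none ∧ ¬ FD hg σ F e)).card := by
    refine le_trans (card_le_card ?_) (Finset.card_union_le _ _)
    intro e he
    have h1 : e.1 ∈ U1 := by rw [hU1]; exact mem_image_of_mem _ he
    have h2 : (dinv hg σ e).1 ∈ U1 := by
      rw [← hinv, hU1]
      exact mem_image_of_mem (fun e => e.1) (hEinv e he)
    rw [mem_union, mem_filter, mem_filter]
    by_cases h3 : sideOf hg e.1.2 e.2 = none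
    · exact Or.inl ⟨mem_univ _, h1, h2, h3⟩
    · refine Or.inr ⟨mem_univ _, h1, h2, h3, ?_⟩
      rw [hE, mem_filter] at he
      rw [← hF]
      exact he.2.2.2.2
  have h3 := diag_sum hg σ U1
  have h4 := side_count hg σ F U1
  have h5 : U1.card ≤ U.card := card_le_card hU1sub
  have h6 : 0 < U.card := hU.card_pos
  have hEne : E.Nonempty := by
    rw [← Finset.card_pos]
    omega
  have hdense : FDense σ F (U1.image Prod.fst) := by
    constructor
    · rw [hU1]
      exact (hEne.image _).image _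
    · refine le_trans ?_ (le_trans h4 (le_of_eq ?_))
      · omega
      · congr
  have hcard : (U1.image Prod.fst).card ≤ t3 := by
    refine le_trans ?_ (ht3 y)
    rw [← Set.ncard_coe_finset]
    apply Set.ncard_le_ncard _ (Set.toFinite _)
    intro x hx
    rw [Finset.mem_coe, mem_image] at hx
    obtain ⟨z, hz, rfl⟩ := hx
    rw [hU1, mem_image] at hz
    obtain ⟨e, he, rfl⟩ := hz
    rw [hE, mem_filter] at he
    exact hS' e y he.2.2.2.1
  obtain ⟨x, hx, hxc⟩ := hZ _ hdense hcard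
  rw [mem_image] at hx
  obtain ⟨z, hz, rfl⟩ := hx
  exact hUc z (hU1sub hz) ((hcut z).2 hxc)

end H98T
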