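import Mathlib

set_option autoImplicit false

/-!
# H98T.Z01: the window lemma
-/

namespace H98T

open Finset

theorem z01_geom (s : Finset ℕ) (m : ℕ) : ∑ j ∈ s.filter (fun j => 2 ^ j ≤ m), 2 ^ j ≤ 2 * m := by
  rcases Nat.eq_zero_or_pos m with h | h
  · subst h
    rw [Finset.filter_false_of_mem]
    · simp
    · intro j _ hj
      have : 0 < 2 ^ j := by positivity
      omega
  · have h1 : ∀ k ∈ s.filter (fun j => 2 ^ j ≤ m), k < Nat.log 2 m + 1 := by
      intro k hk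
      rw [Finset.mem_filter] at hk
      exact Nat.lt_succ_of_le (Nat.le_log_of_pow_le (by norm_num) hk.2)
    have h2 := Nat.geomSum_lt (m := 2) le_rfl h1
    have h3 : 2 ^ Nat.log 2 m ≤ m := Nat.pow_log_le_self 2 h.ne'
    rw [pow_succ] at h2
    omega

/-- Z01. Chunk Z01 (size S/M). WINDOW LEMMA.  Sizes `f x`, `X = ∑ f x`, a window `[j1, j2)` of exponents: some `j` in the window has `2^j #{x : 2^j ≤ f x} (j2 - j1) ≤ 2 X`.
Proof: otherwise sum over the window: `2 X < ∑_j 2^j #{x : 2^j ≤ f x} = ∑_x ∑_(j : 2^j ≤ f x) 2^j ≤ ∑_x 2 f x`. -/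
theorem window {V : Type} [Fintype V] (f : V → ℕ) (j1 j2 : ℕ) (h : j1 < j2) :
    ∃ j, j1 ≤ j ∧ j < j2 ∧ 2 ^ j * {x | 2 ^ j ≤ f x}.ncard * (j2 - j1) ≤ 2 * ∑ x, f x := by
  classical
  by_contra hcon
  push Not at hcon
  have hN : ∀ j, {x | 2 ^ j ≤ f x}.ncard = ∑ x, if 2 ^ j ≤ f x then 1 else 0 := by
    intro j
    rw [Finset.sum_boole, Set.ncard_eq_toFinset_card']
    simp
  have hS : ∑ j ∈ Ico j1 j2, 2 ^ j * {x | 2 ^ j ≤ f x}.ncard ≤ 2 * ∑ x, f x := by
    calc ∑ j ∈ Ico j1 j2, 2 ^ j * {x | 2 ^ j ≤ f x}.ncard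
        = ∑ j ∈ Ico j1 j2, ∑ x, if 2 ^ j ≤ f x then 2 ^ j else 0 := by
          apply Finset.sum_congr rfl
          intro j _
          rw [hN, Finset.mul_sum]
          apply Finset.sum_congr rfl
          intro x _
          split_ifs <;> simp
      _ = ∑ x, ∑ j ∈ Ico j1 j2, if 2 ^ j ≤ f x then 2 ^ j else 0 := Finset.sum_comm
      _ ≤ ∑ x, 2 * f x := by
          apply Finset.sum_le_sum
          intro x _
          rw [← Finset.sum_filter]
          exact z01_geom _ _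
      _ = 2 * ∑ x, f x := by rw [Finset.mul_sum]
  have hlt : ∑ j ∈ Ico j1 j2, 2 * ∑ x, f x <
      ∑ j ∈ Ico j1 j2, 2 ^ j * {x | 2 ^ j ≤ f x}.ncard * (j2 - j1) := by
    apply Finset.sum_lt_sum_of_nonempty
    · exact ⟨j1, Finset.mem_Ico.mpr ⟨le_rfl, h⟩⟩
    · intro j hj
      rw [Finset.mem_Ico] at hj
      exact hcon j hj.1 hj.2
  rw [Finset.sum_const, Nat.card_Ico, smul_eq_mul, mul_comm (j2 - j1), ← Finset.sum_mul] at hlt
  exact absurd hlt (not_lt.mpr (Nat.mul_le_mul_right _ hS))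

end H98T
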