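import Pool.Agent.Lib.H98T.FDefs

/-!
# H98T F06 (M): independence of functions of disjoint sets of marks, counting of marks
-/

namespace H98T

open Finset

variable {V : Type*} [Fintype V] [DecidableEq V] {q : ℕ} [NeZero q]

/-- Independence.  `N * ∑ X m Y m = ∑_(m₁, m₂) X m₁ Y m₁`.  The map
`(m₁, m₂) ↦ (m₁ on B and m₂ off B, m₂ on B and m₁ off B)` is an involution of the pairs, and
`X m₁ Y m₂ = X m Y m` for the first component `m` of the image (`m = m₁` on `B`, `m = m₂` on
`B' ⊆ Bᶜ`).  So `∑_(m₁,m₂) X m₁ Y m₂ = ∑_(m₁,m₂) X m₁ Y m₁`. -/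
theorem indep (B B' : Finset V) (hB : Disjoint B B') (X Y : (V → Fin q) → ℝ)
    (hX : ∀ m m' : V → Fin q, (∀ v ∈ B, m v = m' v) → X m = X m')
    (hY : ∀ m m' : V → Fin q, (∀ v ∈ B', m v = m' v) → Y m = Y m') :
    (Fintype.card (V → Fin q) : ℝ) * ∑ m : V → Fin q, X m * Y m =
      (∑ m : V → Fin q, X m) * ∑ m : V → Fin q, Y m := by
  classical
  let Φ : (V → Fin q) × (V → Fin q) ≃ (V → Fin q) × (V → Fin q) :=
    { toFun := fun p => (fun v => if v ∈ B then p.1 v else p.2 v, fun v => if v ∈ B then p.2 v else p.1 v)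
      invFun := fun p => (fun v => if v ∈ B then p.1 v else p.2 v, fun v => if v ∈ B then p.2 v else p.1 v)
      left_inv := fun p => by
        ext v <;> by_cases hv : v ∈ B <;> simp [hv]
      right_inv := fun p => by
        ext v <;> by_cases hv : v ∈ B <;> simp [hv] }
  have h1 : (∑ m : V → Fin q, X m) * ∑ m : V → Fin q, Y m = ∑ p : (V → Fin q) × (V → Fin q), X p.1 * Y p.2 := by
    rw [Finset.sum_mul_sum, Fintype.sum_prod_type]
  have h2 : ∑ p : (V → Fin q) × (V → Fin q), X p.1 * Y p.2 = ∑ p : (V → Fin q) × (V → Fin q), X p.1 * Y p.1 := by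
    rw [← Equiv.sum_comp Φ (fun p => X p.1 * Y p.1)]
    refine Finset.sum_congr rfl (fun p _ => ?_)
    congr 1
    · apply hX
      intro v hv
      simp [Φ, hv]
    · apply hY
      intro v hv
      have : v ∉ B := fun h => Finset.disjoint_left.mp hB h hv
      simp [Φ, this]
  rw [h1, h2, Fintype.sum_prod_type]
  simp only [Finset.sum_const, Finset.card_univ, nsmul_eq_mul]
  rw [Finset.mul_sum]

/-- `Fintype.card_piFinset`: the set is a product of sets, `{c | c ≠ 0}` for `v ∈ B` and
everything for `v ∉ B`. -/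
theorem card_unmarked (B : Finset V) :
    ((Finset.univ.filter (fun m : V → Fin q => ∀ v ∈ B, m v ≠ 0)).card : ℝ) * (q : ℝ) ^ B.card =
      ((q : ℝ) - 1) ^ B.card * (Fintype.card (V → Fin q) : ℝ) := by
  classical
  have hq : 1 ≤ q := NeZero.pos q
  have h1 : Finset.univ.filter (fun m : V → Fin q => ∀ v ∈ B, m v ≠ 0) =
      Fintype.piFinset (fun v => if v ∈ B then (Finset.univ.erase (0 : Fin q)) else Finset.univ) := by
    ext m
    rw [Finset.mem_filter, Fintype.mem_piFinset]
    constructor
    · rintro ⟨_, h⟩ v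
      by_cases hv : v ∈ B
      · rw [if_pos hv, Finset.mem_erase]
        exact ⟨h v hv, Finset.mem_univ _⟩
      · rw [if_neg hv]
        exact Finset.mem_univ _
    · intro h
      refine ⟨Finset.mem_univ _, fun v hv => ?_⟩
      have := h v
      rw [if_pos hv, Finset.mem_erase] at this
      exact this.1
  have h2 : (((Finset.univ.filter (fun m : V → Fin q => ∀ v ∈ B, m v ≠ 0)).card : ℕ) : ℝ) = ∏ v : V, (if v ∈ B then (q : ℝ) - 1 else (q : ℝ)) := by
    rw [h1, Fintype.card_piFinset]
    push_cast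
    refine Finset.prod_congr rfl (fun v _ => ?_)
    by_cases hv : v ∈ B
    · rw [if_pos hv, if_pos hv, Finset.card_erase_of_mem (Finset.mem_univ _), Finset.card_univ, Fintype.card_fin, Nat.cast_sub hq, Nat.cast_one]
    · rw [if_neg hv, if_neg hv, Finset.card_univ, Fintype.card_fin]
  have h3 : (q : ℝ) ^ B.card = ∏ v : V, (if v ∈ B then (q : ℝ) else 1) := by
    rw [Finset.prod_ite_mem, Finset.univ_inter, Finset.prod_const]
  have h4 : ((q : ℝ) - 1) ^ B.card = ∏ v : V, (if v ∈ B then (q : ℝ) - 1 else 1) := by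
    rw [Finset.prod_ite_mem, Finset.univ_inter, Finset.prod_const]
  have h5 : (Fintype.card (V → Fin q) : ℝ) = ∏ _v : V, (q : ℝ) := by
    rw [Fintype.card_fun, Fintype.card_fin, Finset.prod_const, Finset.card_univ]
    push_cast
    rfl
  rw [h2, h3, h4, h5, ← Finset.prod_mul_distrib, ← Finset.prod_mul_distrib]
  refine Finset.prod_congr rfl (fun v _ => ?_)
  by_cases hv : v ∈ B
  · rw [if_pos hv, if_pos hv, if_pos hv]
  · rw [if_neg hv, if_neg hv, if_neg hv]; ring

/-- Complement of `card_unmarked` for `B = {x}`, or directly. -/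
theorem card_marked (x : V) :
    ((Finset.univ.filter (fun m : V → Fin q => m x = 0)).card : ℝ) * q =
      (Fintype.card (V → Fin q) : ℝ) := by
  classical
  have h1 : Finset.univ.filter (fun m : V → Fin q => m x = 0) =
      Fintype.piFinset (fun v => if v = x then {(0 : Fin q)} else Finset.univ) := by
    ext m
    rw [Finset.mem_filter, Fintype.mem_piFinset]
    constructor
    · rintro ⟨_, h⟩ v
      by_cases hv : v = x
      · subst hv
        rw [if_pos rfl, Finset.mem_singleton]
        exact h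
      · rw [if_neg hv]
        exact Finset.mem_univ _
    · intro h
      refine ⟨Finset.mem_univ _, ?_⟩
      have := h x
      rw [if_pos rfl, Finset.mem_singleton] at this
      exact this
  have h2 : (((Finset.univ.filter (fun m : V → Fin q => m x = 0)).card : ℕ) : ℝ) = ∏ v : V, (if v = x then 1 else (q : ℝ)) := by
    rw [h1, Fintype.card_piFinset]
    push_cast
    refine Finset.prod_congr rfl (fun v _ => ?_)
    by_cases hv : v = x
    · rw [if_pos hv, if_pos hv, Finset.card_singleton, Nat.cast_one]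
    · rw [if_neg hv, if_neg hv, Finset.card_univ, Fintype.card_fin]
  have h3 : (q : ℝ) = ∏ v : V, (if v = x then (q : ℝ) else 1) := by
    rw [Finset.prod_ite_eq' Finset.univ x, if_pos (Finset.mem_univ _)]
  have h5 : (Fintype.card (V → Fin q) : ℝ) = ∏ _v : V, (q : ℝ) := by
    rw [Fintype.card_fun, Fintype.card_fin, Finset.prod_const, Finset.card_univ]
    push_cast
    rfl
  rw [h2, h5]
  conv_lhs => rw [h3]
  rw [← Finset.prod_mul_distrib]
  refine Finset.prod_congr rfl (fun v _ => ?_)
  by_cases hv : v = x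
  · subst hv
    simp
  · rw [if_neg hv, if_neg hv]
    simp

end H98T
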