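import Pool.Agent.Lib.H98T.F08
import Pool.Agent.Lib.H98T.F06

/-!
# H98T F11 (M): second moment of the number of visits of a set
-/

namespace H98T

open Finset

variable {V : Type*} [Fintype V] [DecidableEq V] {q : ℕ} [NeZero q]
  (ρ : Fin 2 → Equiv.Perm V) (r : ℕ)

/-- Number of elements of `τ` on the path of `v`. -/
noncomputable def visits (m : V → Fin q) (τ : Finset V) (v : V) : ℝ :=
  (((forest ρ r m).path v ∩ τ).card : ℝ)

/-- `0 ≤ visits ≤ r + 1` (`PForest.card_path_le`, `htm_le`). -/
theorem visits_nonneg (m : V → Fin q) (τ : Finset V) (v : V) : 0 ≤ visits ρ r m τ v := by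
  unfold visits
  positivity

theorem visits_le (m : V → Fin q) (τ : Finset V) (v : V) : visits ρ r m τ v ≤ r + 1 := by
  unfold visits
  have h1 : ((forest ρ r m).path v ∩ τ).card ≤ ((forest ρ r m).path v).card :=
    Finset.card_le_card Finset.inter_subset_left
  have h2 := PForest.card_path_le ρ (forest ρ r m) v
  have h3 : (forest ρ r m).ht v ≤ r := htm_le ρ r m v
  have h4 : ((forest ρ r m).path v ∩ τ).card ≤ r + 1 := by omega
  exact_mod_cast h4

/-- The mean of `visits m τ v`. -/
noncomputable def meanVisits (q : ℕ) [NeZero q] (τ : Finset V) (v : V) : ℝ :=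
  (∑ m : V → Fin q, visits ρ r m τ v) / (Fintype.card (V → Fin q) : ℝ)

/-- The sum over `v` of the means is at most `(r+1) |τ|`: exchange sums, `sum_card_through_le`
for every `u ∈ τ`. -/
theorem sum_meanVisits_le (τ : Finset V) :
    ∑ v, meanVisits ρ r q τ v ≤ (r + 1) * τ.card := by
  classical
  have hN : (0 : ℝ) < (Fintype.card (V → Fin q) : ℝ) := by
    exact_mod_cast Fintype.card_pos
  have h1 : ∑ v, meanVisits ρ r q τ v =
      (∑ m : V → Fin q, ∑ v, visits ρ r m τ v) / (Fintype.card (V → Fin q) : ℝ) := by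
    unfold meanVisits
    rw [← Finset.sum_div, Finset.sum_comm]
  rw [h1, div_le_iff₀ hN]
  have h2 : ∀ m : V → Fin q, ∑ v, visits ρ r m τ v =
      ∑ u ∈ τ, ((Finset.univ.filter (fun v => u ∈ (forest ρ r m).path v)).card : ℝ) := by
    intro m
    have h3 : ∀ v, visits ρ r m τ v = ∑ u ∈ τ, if u ∈ (forest ρ r m).path v then (1 : ℝ) else 0 := by
      intro v
      unfold visits
      rw [Finset.sum_ite_mem, Finset.inter_comm]
      simp
    rw [Finset.sum_congr rfl (fun v _ => h3 v), Finset.sum_comm]
    refine Finset.sum_congr rfl (fun u _ => ?_)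
    rw [Finset.sum_boole]
  rw [Finset.sum_congr rfl (fun m _ => h2 m), Finset.sum_comm]
  calc ∑ u ∈ τ, ∑ m : V → Fin q,
        ((Finset.univ.filter (fun v => u ∈ (forest ρ r m).path v)).card : ℝ)
      ≤ ∑ _u ∈ τ, ((r : ℝ) + 1) * (Fintype.card (V → Fin q) : ℝ) := by
        refine Finset.sum_le_sum (fun u _ => ?_)
        have := sum_card_through_le (q := q) ρ r u
        exact_mod_cast this
    _ = (r + 1) * τ.card * (Fintype.card (V → Fin q) : ℝ) := by
        rw [Finset.sum_const, nsmul_eq_mul]
        ring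

/-- If no `act v w` equals an `act v' w'` (`|w|, |w'| ≤ r`) the covariance vanishes: `indep` with
`B = image of act v`, `B' = image of act v'`, `path_congr`. -/
theorem covariance_eq_zero (τ : Finset V) (v v' : V)
    (h : ∀ w w' : List (Fin 2), w.length ≤ r → w'.length ≤ r → act ρ v w ≠ act ρ v' w') :
    ∑ m : V → Fin q, (visits ρ r m τ v - meanVisits ρ r q τ v) *
      (visits ρ r m τ v' - meanVisits ρ r q τ v') = 0 := by
  classical
  have hN : (0 : ℝ) < (Fintype.card (V → Fin q) : ℝ) := by
    exact_mod_cast Fintype.card_pos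
  have hdis : Disjoint ((words r).image (fun w => act ρ v w))
      ((words r).image (fun w => act ρ v' w)) := by
    rw [Finset.disjoint_left]
    intro x hx hx'
    rw [Finset.mem_image] at hx hx'
    obtain ⟨w, hw, rfl⟩ := hx
    obtain ⟨w', hw', he⟩ := hx'
    exact h w w' ((mem_words r w).1 hw) ((mem_words r w').1 hw') he.symm
  have hcong : ∀ (v₀ : V) (m m' : V → Fin q),
      (∀ x ∈ (words r).image (fun w => act ρ v₀ w), m x = m' x) →
      visits ρ r m τ v₀ - meanVisits ρ r q τ v₀ = visits ρ r m' τ v₀ - meanVisits ρ r q τ v₀ := by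
    intro v₀ m m' hm
    unfold visits
    rw [path_congr ρ r (fwm_congr ρ r (fun w hw => hm _ (Finset.mem_image_of_mem _
      ((mem_words r w).2 hw))))]
  have h0 : ∑ m : V → Fin q, (visits ρ r m τ v - meanVisits ρ r q τ v) = 0 := by
    rw [Finset.sum_sub_distrib, Finset.sum_const, nsmul_eq_mul, Finset.card_univ]
    unfold meanVisits
    rw [mul_div_cancel₀ _ hN.ne', sub_self]
  have key := indep _ _ hdis (fun m => visits ρ r m τ v - meanVisits ρ r q τ v)
    (fun m => visits ρ r m τ v' - meanVisits ρ r q τ v') (hcong v) (hcong v')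
  rw [h0, zero_mul] at key
  exact (mul_eq_zero.1 key).resolve_left hN.ne'

open Classical in
/-- For every `v` at most `4^(r+1)` vertices `v'` have `act v w = act v' w'` for some words:
choose `w` and `w'` (`card_words`), then `v'` is determined (`act_bijective`). -/
theorem card_meeting_le (v : V) :
    (Finset.univ.filter (fun v' => ∃ w w' : List (Fin 2), w.length ≤ r ∧ w'.length ≤ r ∧
      act ρ v w = act ρ v' w')).card ≤ 4 ^ (r + 1) := by
  have hsub : Finset.univ.filter (fun v' => ∃ w w' : List (Fin 2), w.length ≤ r ∧ w'.length ≤ r ∧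
      act ρ v w = act ρ v' w') ⊆ (words r ×ˢ words r).image
        (fun p => (Equiv.ofBijective _ (act_bijective ρ p.2)).symm (act ρ v p.1)) := by
    intro v' hv'
    rw [Finset.mem_filter] at hv'
    obtain ⟨-, w, w', hw, hw', he⟩ := hv'
    rw [Finset.mem_image]
    refine ⟨(w, w'), Finset.mem_product.2 ⟨(mem_words r w).2 hw, (mem_words r w').2 hw'⟩, ?_⟩
    rw [Equiv.symm_apply_eq]
    exact he
  refine (Finset.card_le_card hsub).trans (Finset.card_image_le.trans ?_)
  rw [Finset.card_product]
  have h1 := card_words r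
  have h2 : (words r).card ≤ 2 ^ (r + 1) := by omega
  calc (words r).card * (words r).card ≤ 2 ^ (r + 1) * 2 ^ (r + 1) := Nat.mul_le_mul h2 h2
    _ = 4 ^ (r + 1) := by
      rw [← mul_pow]
      norm_num

/-- Expand the square; by `covariance_eq_zero` only the pairs of `card_meeting_le` remain, for
each of them the product is at most `(r+1)^2` in absolute value (both factors are differences of
numbers in `[0, r+1]`). -/
theorem variance_le (τ : Finset V) :
    ∑ m : V → Fin q, (∑ v, visits ρ r m τ v - ∑ v, meanVisits ρ r q τ v) ^ 2 ≤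
      (Fintype.card (V → Fin q) : ℝ) * Fintype.card V * (4 ^ (r + 1) * (r + 1) ^ 2) := by
  classical
  have hN : (0 : ℝ) < (Fintype.card (V → Fin q) : ℝ) := by
    exact_mod_cast Fintype.card_pos
  have hmean0 : ∀ v, 0 ≤ meanVisits ρ r q τ v := by
    intro v
    unfold meanVisits
    exact div_nonneg (Finset.sum_nonneg (fun m _ => visits_nonneg ρ r m τ v)) hN.le
  have hmean1 : ∀ v, meanVisits ρ r q τ v ≤ r + 1 := by
    intro v
    unfold meanVisits
    rw [div_le_iff₀ hN]
    calc ∑ m : V → Fin q, visits ρ r m τ v ≤ ∑ _m : V → Fin q, ((r : ℝ) + 1) :=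
          Finset.sum_le_sum (fun m _ => visits_le ρ r m τ v)
      _ = (r + 1) * (Fintype.card (V → Fin q) : ℝ) := by
          rw [Finset.sum_const, nsmul_eq_mul, Finset.card_univ]
          ring
  have habs : ∀ (m : V → Fin q) v, |visits ρ r m τ v - meanVisits ρ r q τ v| ≤ r + 1 := by
    intro m v
    rw [abs_le]
    have h1 := visits_nonneg ρ r m τ v
    have h2 := visits_le ρ r m τ v
    have h3 := hmean0 v
    have h4 := hmean1 v
    constructor <;> linarith
  have hexp : ∀ m : V → Fin q, (∑ v, visits ρ r m τ v - ∑ v, meanVisits ρ r q τ v) ^ 2 =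
      ∑ v, ∑ v', (visits ρ r m τ v - meanVisits ρ r q τ v) *
        (visits ρ r m τ v' - meanVisits ρ r q τ v') := by
    intro m
    rw [← Finset.sum_sub_distrib, sq, Finset.sum_mul_sum]
  rw [Finset.sum_congr rfl (fun m _ => hexp m), Finset.sum_comm]
  have hv : ∀ v : V, ∑ m : V → Fin q, ∑ v', (visits ρ r m τ v - meanVisits ρ r q τ v) *
        (visits ρ r m τ v' - meanVisits ρ r q τ v') ≤
      (Fintype.card (V → Fin q) : ℝ) * (4 ^ (r + 1) * (r + 1) ^ 2) := by
    intro v
    rw [Finset.sum_comm]
    set S : Finset V := Finset.univ.filter (fun v' => ∃ w w' : List (Fin 2), w.length ≤ r ∧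
      w'.length ≤ r ∧ act ρ v w = act ρ v' w') with hS
    have hout : ∀ v' : V, v' ∉ S → ∑ m : V → Fin q, (visits ρ r m τ v - meanVisits ρ r q τ v) *
        (visits ρ r m τ v' - meanVisits ρ r q τ v') = 0 := by
      intro v' hv'
      refine covariance_eq_zero ρ r τ v v' ?_
      intro w w' hw hw' he
      exact hv' (by
        rw [hS, Finset.mem_filter]
        exact ⟨Finset.mem_univ _, w, w', hw, hw', he⟩)
    have hin : ∀ v' : V, ∑ m : V → Fin q, (visits ρ r m τ v - meanVisits ρ r q τ v) *
        (visits ρ r m τ v' - meanVisits ρ r q τ v') ≤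
        (Fintype.card (V → Fin q) : ℝ) * (r + 1) ^ 2 := by
      intro v'
      calc ∑ m : V → Fin q, (visits ρ r m τ v - meanVisits ρ r q τ v) *
            (visits ρ r m τ v' - meanVisits ρ r q τ v')
          ≤ ∑ _m : V → Fin q, ((r : ℝ) + 1) ^ 2 := by
            refine Finset.sum_le_sum (fun m _ => ?_)
            refine (le_abs_self _).trans ?_
            rw [abs_mul, sq]
            exact mul_le_mul (habs m v) (habs m v') (abs_nonneg _) (by positivity)
        _ = (Fintype.card (V → Fin q) : ℝ) * (r + 1) ^ 2 := by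
            rw [Finset.sum_const, nsmul_eq_mul, Finset.card_univ]
    have hsum : ∑ v' : V, ∑ m : V → Fin q, (visits ρ r m τ v - meanVisits ρ r q τ v) *
        (visits ρ r m τ v' - meanVisits ρ r q τ v') =
        ∑ v' ∈ S, ∑ m : V → Fin q, (visits ρ r m τ v - meanVisits ρ r q τ v) *
        (visits ρ r m τ v' - meanVisits ρ r q τ v') := by
      symm
      refine Finset.sum_subset (Finset.subset_univ _) (fun v' _ hv' => hout v' hv')
    rw [hsum]
    calc ∑ v' ∈ S, ∑ m : V → Fin q, (visits ρ r m τ v - meanVisits ρ r q τ v) *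
          (visits ρ r m τ v' - meanVisits ρ r q τ v')
        ≤ ∑ _v' ∈ S, (Fintype.card (V → Fin q) : ℝ) * (r + 1) ^ 2 :=
          Finset.sum_le_sum (fun v' _ => hin v')
      _ = (S.card : ℝ) * ((Fintype.card (V → Fin q) : ℝ) * (r + 1) ^ 2) := by
          rw [Finset.sum_const, nsmul_eq_mul]
      _ ≤ (4 ^ (r + 1) : ℝ) * ((Fintype.card (V → Fin q) : ℝ) * (r + 1) ^ 2) := by
          refine mul_le_mul_of_nonneg_right ?_ (by positivity)
          have := card_meeting_le ρ r v
          have h5 : S.card ≤ 4 ^ (r + 1) := by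
            rw [hS]
            exact this
          exact_mod_cast h5
      _ = (Fintype.card (V → Fin q) : ℝ) * (4 ^ (r + 1) * (r + 1) ^ 2) := by ring
  calc ∑ v, ∑ m : V → Fin q, ∑ v', (visits ρ r m τ v - meanVisits ρ r q τ v) *
        (visits ρ r m τ v' - meanVisits ρ r q τ v')
      ≤ ∑ _v : V, (Fintype.card (V → Fin q) : ℝ) * (4 ^ (r + 1) * (r + 1) ^ 2) :=
        Finset.sum_le_sum (fun v _ => hv v)
    _ = (Fintype.card (V → Fin q) : ℝ) * Fintype.card V * (4 ^ (r + 1) * (r + 1) ^ 2) := by
        rw [Finset.sum_const, nsmul_eq_mul, Finset.card_univ]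
        ring

end H98T
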