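import Pool.Agent.Lib.H98T.F10
import Pool.Agent.Lib.H98T.F11

/-!
# H98T F12 (M): the selection theorem
-/

namespace H98T

open Finset

variable {V : Type*} [Fintype V] [DecidableEq V]

/-- Averaging: finitely many nonnegative functions on a nonempty finite set with sums at most
`c i * N` (`N` the number of elements, `c i ≥ 0`), then at some point all are `≤ k * c i` up to the
case `c i = 0`, where the function vanishes identically.  Here for four functions.
Proof: if at every point one of the four inequalities fails, then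
`∑_i [c i > 0] X_i(m) / c i > 4` at every point `m` (for `c i = 0` the function is `0`, so the
inequality cannot fail), but the sum over `m` of the left side is at most `4 N`. -/
theorem exists_all_le {M : Type*} [Fintype M] [Nonempty M] (X : Fin 4 → M → ℝ)
    (hX : ∀ i m, 0 ≤ X i m) (c : Fin 4 → ℝ)
    (h : ∀ i, ∑ m, X i m ≤ c i * Fintype.card M) :
    ∃ m, ∀ i, X i m ≤ 4 * c i := by
  classical
  by_contra hcon
  push Not at hcon
  have hM : (0 : ℝ) < (Fintype.card M : ℝ) := by exact_mod_cast Fintype.card_pos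
  have hc : ∀ i, 0 ≤ c i := by
    intro i
    have h1 : 0 ≤ ∑ m, X i m := Finset.sum_nonneg (fun m _ => hX i m)
    have h2 := h1.trans (h i)
    by_contra h3
    push Not at h3
    have := mul_neg_of_neg_of_pos h3 hM
    linarith
  have hz : ∀ i, c i = 0 → ∀ m, X i m = 0 := by
    intro i hi m
    have h1 : ∑ m, X i m ≤ 0 := by
      have := h i
      rw [hi, zero_mul] at this
      exact this
    have h2 : X i m ≤ ∑ m, X i m := Finset.single_le_sum (fun m _ => hX i m) (Finset.mem_univ m)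
    exact le_antisymm (h2.trans h1) (hX i m)
  have h4 : ∀ m, 4 < ∑ i, X i m / c i := by
    intro m
    obtain ⟨i, hi⟩ := hcon m
    have hci : 0 < c i := by
      rcases (hc i).lt_or_eq with h5 | h5
      · exact h5
      · have := hz i h5.symm m
        rw [this, ← h5] at hi
        simp at hi
    have h6 : 4 < X i m / c i := by
      rw [lt_div_iff₀ hci]
      exact hi
    refine lt_of_lt_of_le h6 (Finset.single_le_sum (f := fun i => X i m / c i)
      (fun j _ => div_nonneg (hX j m) (hc j)) (Finset.mem_univ i))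
  have h5 : ∑ _m : M, (4 : ℝ) < ∑ m : M, ∑ i, X i m / c i := by
    refine Finset.sum_lt_sum_of_nonempty Finset.univ_nonempty (fun m _ => h4 m)
  rw [Finset.sum_comm] at h5
  have h6 : ∀ i, ∑ m : M, X i m / c i ≤ Fintype.card M := by
    intro i
    rw [← Finset.sum_div]
    rcases (hc i).lt_or_eq with h7 | h7
    · rw [div_le_iff₀ h7, mul_comm]
      exact h i
    · rw [← h7, div_zero]
      exact hM.le
  have h7 : ∑ i : Fin 4, ∑ m : M, X i m / c i ≤ ∑ _i : Fin 4, (Fintype.card M : ℝ) :=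
    Finset.sum_le_sum (fun i _ => h6 i)
  rw [Finset.sum_const, nsmul_eq_mul, Finset.card_univ] at h5
  rw [Finset.sum_const, nsmul_eq_mul, Finset.card_univ, Fintype.card_fin] at h7
  push_cast at h7
  linarith

open Classical in
/-- SELECTION (F5 of PROOF.md).  `exists_all_le` for the four functions of the marking `m`:
`∑_v ∑_(path v) s`, `c = (r+1) ∑ s` (`sum_path_le`);
number of good roots, `c = 2 d/q` (`sum_card_good_roots_le`);
`∑_(x good root) ∑_(path (ρ 0⁻¹ x)) s`, `c = (r+2)/q ∑ s` (`sum_root_path_le`);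
`∑_Q (∑_v visits τ_Q v - ∑_v mean)^2`, `c = |Q| d 4^(r+1) (r+1)^2` (`variance_le`); by `hd`
`4 c ≤ (κ₁ d)^2`, so `∑_v visits ≤ ∑_v mean + κ₁ d ≤ (r+1)|τ_Q| + κ₁ d` (`sum_meanVisits_le`).
The forest is `forest ρ r m`. -/
theorem forest_selection (ρ : Fin 2 → Equiv.Perm V) (q r : ℕ) (hq : 8 ≤ q) (hr : 2 ^ r = q ^ 2)
    {Q : Type*} [Fintype Q] (s : V → ℝ) (hs : ∀ u, 0 ≤ s u) (τ : Q → Finset V) (κ₁ : ℝ)
    (hκ : 0 < κ₁)
    (hd : 4 * (Fintype.card Q : ℝ) * (4 ^ (r + 1) * (r + 1) ^ 2) ≤ κ₁ ^ 2 * Fintype.card V) :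
    ∃ P : PForest ρ, (∀ v, P.ht v ≤ r) ∧ (∀ v, ¬ P.root v → Good ρ r v) ∧
      (∑ v, ∑ u ∈ P.path v, s u ≤ 4 * (r + 1) * ∑ u, s u) ∧
      (((Finset.univ.filter (fun v => P.root v ∧ Good ρ r v)).card : ℝ) ≤
        8 / q * Fintype.card V) ∧
      (∑ x ∈ Finset.univ.filter (fun x => P.root x ∧ Good ρ r x),
        ∑ u ∈ P.path ((ρ 0)⁻¹ x), s u ≤ 4 * ((r + 2) / q) * ∑ u, s u) ∧
      (∀ i : Q, ∑ v, ((P.path v ∩ τ i).card : ℝ) ≤
        (r + 1) * (τ i).card + κ₁ * Fintype.card V) := by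
  haveI : NeZero q := ⟨by omega⟩
  have hN : (0 : ℝ) < (Fintype.card (V → Fin q) : ℝ) := by exact_mod_cast Fintype.card_pos
  have hs0 : 0 ≤ ∑ u, s u := Finset.sum_nonneg (fun u _ => hs u)
  set X : Fin 4 → (V → Fin q) → ℝ := ![
    fun m => ∑ v, ∑ u ∈ (forest ρ r m).path v, s u,
    fun m => ((Finset.univ.filter (fun v => rootm ρ r m v ∧ Good ρ r v)).card : ℝ),
    fun m => ∑ x ∈ Finset.univ.filter (fun x => rootm ρ r m x ∧ Good ρ r x),
      ∑ u ∈ (forest ρ r m).path ((ρ 0)⁻¹ x), s u,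
    fun m => ∑ i : Q, (∑ v, visits ρ r m (τ i) v - ∑ v, meanVisits ρ r q (τ i) v) ^ 2] with hXd
  set c : Fin 4 → ℝ := ![(r + 1) * ∑ u, s u, 2 / q * Fintype.card V,
    (r + 2) / q * ∑ u, s u,
    (Fintype.card Q : ℝ) * (Fintype.card V * (4 ^ (r + 1) * (r + 1) ^ 2))] with hcd
  obtain ⟨m, hm⟩ := exists_all_le X (by
    intro i m
    fin_cases i
    · exact Finset.sum_nonneg (fun v _ => Finset.sum_nonneg (fun u _ => hs u))
    · exact Nat.cast_nonneg _
    · exact Finset.sum_nonneg (fun v _ => Finset.sum_nonneg (fun u _ => hs u))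
    · exact Finset.sum_nonneg (fun i _ => sq_nonneg _)) c (by
    intro i
    fin_cases i
    · have := sum_path_le (q := q) ρ r s hs
      calc ∑ m : V → Fin q, ∑ v, ∑ u ∈ (forest ρ r m).path v, s u
          ≤ (r + 1) * (Fintype.card (V → Fin q) : ℝ) * ∑ u, s u := this
        _ = (r + 1) * (∑ u, s u) * (Fintype.card (V → Fin q) : ℝ) := by ring
    · have := sum_card_good_roots_le (q := q) ρ r hq hr
      calc ∑ m : V → Fin q, ((Finset.univ.filter (fun v => rootm ρ r m v ∧ Good ρ r v)).card : ℝ)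
          ≤ 2 / q * (Fintype.card (V → Fin q) : ℝ) * Fintype.card V := this
        _ = 2 / q * Fintype.card V * (Fintype.card (V → Fin q) : ℝ) := by ring
    · have := sum_root_path_le (q := q) ρ r hq hr s hs
      calc ∑ m : V → Fin q, ∑ x ∈ Finset.univ.filter (fun x => rootm ρ r m x ∧ Good ρ r x),
            ∑ u ∈ (forest ρ r m).path ((ρ 0)⁻¹ x), s u
          ≤ (r + 2) / q * (Fintype.card (V → Fin q) : ℝ) * ∑ u, s u := this
        _ = (r + 2) / q * (∑ u, s u) * (Fintype.card (V → Fin q) : ℝ) := by ring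
    · calc ∑ m : V → Fin q, ∑ i : Q,
            (∑ v, visits ρ r m (τ i) v - ∑ v, meanVisits ρ r q (τ i) v) ^ 2
          = ∑ i : Q, ∑ m : V → Fin q,
            (∑ v, visits ρ r m (τ i) v - ∑ v, meanVisits ρ r q (τ i) v) ^ 2 :=
            Finset.sum_comm
        _ ≤ ∑ _i : Q, (Fintype.card (V → Fin q) : ℝ) * Fintype.card V *
              (4 ^ (r + 1) * (r + 1) ^ 2) :=
            Finset.sum_le_sum (fun i _ => variance_le (q := q) ρ r (τ i))
        _ = (Fintype.card Q : ℝ) * (Fintype.card V * (4 ^ (r + 1) * (r + 1) ^ 2)) *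
              (Fintype.card (V → Fin q) : ℝ) := by
            rw [Finset.sum_const, nsmul_eq_mul, Finset.card_univ]
            ring)
  have h0 : ∑ v, ∑ u ∈ (forest ρ r m).path v, s u ≤ 4 * ((r + 1) * ∑ u, s u) := hm 0
  have h1 : ((Finset.univ.filter (fun v => rootm ρ r m v ∧ Good ρ r v)).card : ℝ) ≤
    4 * (2 / q * Fintype.card V) := hm 1
  have h2 : ∑ x ∈ Finset.univ.filter (fun x => rootm ρ r m x ∧ Good ρ r x),
      ∑ u ∈ (forest ρ r m).path ((ρ 0)⁻¹ x), s u ≤ 4 * ((r + 2) / q * ∑ u, s u) := hm 2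
  have h3 : ∑ i : Q, (∑ v, visits ρ r m (τ i) v - ∑ v, meanVisits ρ r q (τ i) v) ^ 2 ≤
    4 * ((Fintype.card Q : ℝ) * (Fintype.card V * (4 ^ (r + 1) * (r + 1) ^ 2))) := hm 3
  refine ⟨forest ρ r m, fun v => htm_le ρ r m v, ?_, ?_, ?_, ?_, ?_⟩
  · intro v hv
    have hv' : ¬ rootm ρ r m v := hv
    unfold rootm at hv'
    push Not at hv'
    exact hv'.1
  · linarith
  · calc ((Finset.univ.filter (fun v => (forest ρ r m).root v ∧ Good ρ r v)).card : ℝ)
        ≤ 4 * (2 / q * Fintype.card V) := h1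
      _ = 8 / q * Fintype.card V := by ring
  · calc ∑ x ∈ Finset.univ.filter (fun x => (forest ρ r m).root x ∧ Good ρ r x),
          ∑ u ∈ (forest ρ r m).path ((ρ 0)⁻¹ x), s u ≤ 4 * ((r + 2) / q * ∑ u, s u) := h2
      _ = 4 * ((r + 2) / q) * ∑ u, s u := by ring
  · intro i
    have h4 : (∑ v, visits ρ r m (τ i) v - ∑ v, meanVisits ρ r q (τ i) v) ^ 2 ≤
        (κ₁ * Fintype.card V) ^ 2 := by
      calc (∑ v, visits ρ r m (τ i) v - ∑ v, meanVisits ρ r q (τ i) v) ^ 2
          ≤ ∑ i : Q, (∑ v, visits ρ r m (τ i) v - ∑ v, meanVisits ρ r q (τ i) v) ^ 2 :=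
            Finset.single_le_sum (f := fun i => (∑ v, visits ρ r m (τ i) v -
              ∑ v, meanVisits ρ r q (τ i) v) ^ 2) (fun i _ => sq_nonneg _) (Finset.mem_univ i)
        _ ≤ 4 * ((Fintype.card Q : ℝ) * (Fintype.card V * (4 ^ (r + 1) * (r + 1) ^ 2))) := h3
        _ = (4 * (Fintype.card Q : ℝ) * (4 ^ (r + 1) * (r + 1) ^ 2)) * Fintype.card V := by ring
        _ ≤ (κ₁ ^ 2 * Fintype.card V) * Fintype.card V :=
            mul_le_mul_of_nonneg_right hd (Nat.cast_nonneg _)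
        _ = (κ₁ * Fintype.card V) ^ 2 := by ring
    have h5 : ∑ v, visits ρ r m (τ i) v - ∑ v, meanVisits ρ r q (τ i) v ≤
        κ₁ * Fintype.card V := by
      have h8 : 0 ≤ κ₁ * (Fintype.card V : ℝ) := mul_nonneg hκ.le (Nat.cast_nonneg _)
      exact (abs_le_of_sq_le_sq' h4 h8).2
    have h6 := sum_meanVisits_le (q := q) ρ r (τ i)
    have h7 : ∑ v, (((forest ρ r m).path v ∩ τ i).card : ℝ) = ∑ v, visits ρ r m (τ i) v := rfl
    rw [h7]
    linarith

end H98T
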