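import Pool.Agent.Lib.H98T.F04

/-!
# H98T F05 (M): paths
-/

namespace H98T

open Finset

variable {V : Type*} [DecidableEq V] {q : ℕ} [NeZero q] (ρ : Fin 2 → Equiv.Perm V) (r : ℕ)

omit [DecidableEq V] in
theorem f05_next (m : V → Fin q) : (forest ρ r m).next = nextm ρ r m := rfl

omit [DecidableEq V] in
theorem f05_htm_congr {m m' : V → Fin q} (n : ℕ) : ∀ v : V, (fwm ρ r m v).length = n →
    fwm ρ r m v = fwm ρ r m' v → htm ρ r m v = htm ρ r m' v := by
  induction n with
  | zero =>
    intro v hn h
    have h1 := htm_le_length ρ r m v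
    have h2 := htm_le_length ρ r m' v
    rw [← h] at h2
    omega
  | succ n ih =>
    intro v hn h
    by_cases hr : rootm ρ r m v
    · have hr' : rootm ρ r m' v := by
        unfold rootm at hr ⊢
        rw [← h]
        exact hr
      rw [(rootm_iff_htm ρ r m v).mp hr, (rootm_iff_htm ρ r m' v).mp hr']
    · have hr' : ¬ rootm ρ r m' v := by
        unfold rootm at hr ⊢
        rw [← h]
        exact hr
      obtain ⟨i, w, h1, _, h3, h4⟩ := fwm_next ρ r m v hr
      obtain ⟨i', w', k1, _, k3, k4⟩ := fwm_next ρ r m' v hr'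
      rw [← h, h1] at k1
      obtain ⟨e1, e2⟩ := List.cons_eq_cons.mp k1
      subst e1
      subst e2
      have h5 : nextm ρ r m v = nextm ρ r m' v := by rw [h3, k3]
      have h6 := ih (nextm ρ r m v) (by
        rw [h4]
        rw [h1, List.length_cons] at hn
        omega) (by
        rw [h4, h5, k4])
      rw [← htm_next ρ r m v hr, ← htm_next ρ r m' v hr', h6, h5]

omit [DecidableEq V] in
theorem f05_iterate_next_act (P : PForest ρ) (v : V) (j : ℕ) :
    ∃ w : List (Fin 2), w.length = j ∧ act ρ v w = P.next^[j] v := by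
  induction j with
  | zero => exact ⟨[], rfl, rfl⟩
  | succ j ih =>
    obtain ⟨w, h1, h2⟩ := ih
    refine ⟨w ++ [P.kind (P.next^[j] v)], by simp [h1], ?_⟩
    rw [act_append, h2, Function.iterate_succ_apply']
    rfl

theorem f05_mem_path_act (P : PForest ρ) (v u : V) (h : u ∈ P.path v) :
    ∃ w : List (Fin 2), w.length ≤ P.ht v ∧ act ρ v w = u := by
  unfold PForest.path at h
  rw [mem_image] at h
  obtain ⟨j, hj, rfl⟩ := h
  rw [mem_range] at hj
  obtain ⟨w, h1, h2⟩ := f05_iterate_next_act ρ P v j
  exact ⟨w, by omega, h2⟩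

/-- `u = next^[j] v`, `j ≤ ht v`.  If `j = 0` then `u = v`.  If `j ≥ 1` then `ht v ≠ 0`, so `v` is
not a root and is good; take `w = take j (fwm v)`, of length `j` (`htm_le_length`,
`iterate_next`). -/
theorem mem_path_forest (m : V → Fin q) (v u : V) (h : u ∈ (forest ρ r m).path v) :
    u = v ∨ (Good ρ r v ∧ ∃ w : List (Fin 2), 1 ≤ w.length ∧ w.length ≤ r ∧
      w <+: fwm ρ r m v ∧ act ρ v w = u) := by
  unfold PForest.path at h
  rw [mem_image] at h
  obtain ⟨j, hj, hu⟩ := h
  rw [mem_range] at hj
  change j < htm ρ r m v + 1 at hj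
  rw [f05_next] at hu
  rcases Nat.eq_zero_or_pos j with h0 | h0
  · subst h0
    exact Or.inl hu.symm
  · right
    have h1 : ¬ rootm ρ r m v := by
      intro hh
      rw [(rootm_iff_htm ρ r m v).mp hh] at hj
      omega
    have h2 := htm_le_length ρ r m v
    have h3 := htm_le ρ r m v
    have h4 : ((fwm ρ r m v).take j).length = j := by
      rw [List.length_take]
      omega
    refine ⟨?_, (fwm ρ r m v).take j, by omega, by omega, List.take_prefix _ _, ?_⟩
    · by_contra hg
      exact h1 (Or.inl hg)
    · rw [← (iterate_next ρ r m v j (by omega)).1]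
      exact hu

/-- The path depends only on the first marked word: by induction on the length of the common first
word (generalising `v`): `rootm m v ↔ rootm m' v`, and for a nonroot the next vertices are equal
and have the same first marked words (`fwm_next`).  So `ht` and the iterates agree. -/
theorem path_congr {m m' : V → Fin q} {v : V} (h : fwm ρ r m v = fwm ρ r m' v) :
    (forest ρ r m).path v = (forest ρ r m').path v := by
  have h1 := f05_htm_congr ρ r (m := m) (m' := m') _ v rfl h
  unfold PForest.path
  change (range (htm ρ r m v + 1)).image _ = (range (htm ρ r m' v + 1)).image _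
  rw [← h1]
  refine image_congr ?_
  intro j hj
  rw [mem_coe, mem_range] at hj
  simp only [f05_next]
  rw [(iterate_next ρ r m v j (by omega)).1, (iterate_next ρ r m' v j (by omega)).1, h]

omit [DecidableEq V] in
/-- General pointer forest: the `j`-th vertex of the path is `act v w` for the word `w` of the
kinds; by induction on `j`. -/
theorem PForest.iterate_next_act (P : PForest ρ) (v : V) (j : ℕ) :
    ∃ w : List (Fin 2), w.length = j ∧ act ρ v w = P.next^[j] v := f05_iterate_next_act ρ P v j

theorem PForest.mem_path_act (P : PForest ρ) (v u : V) (h : u ∈ P.path v) :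
    ∃ w : List (Fin 2), w.length ≤ P.ht v ∧ act ρ v w = u := f05_mem_path_act ρ P v u h

theorem PForest.card_path_le (P : PForest ρ) (v : V) : (P.path v).card ≤ P.ht v + 1 := by
  unfold PForest.path
  refine card_image_le.trans ?_
  rw [card_range]

/-- From `mem_path_act` and `card_filter_act_le`. -/
theorem PForest.card_filter_mem_path [Fintype V] (P : PForest ρ) (hP : ∀ v, P.ht v ≤ r) (u : V) :
    (Finset.univ.filter (fun v => u ∈ P.path v)).card ≤ 2 ^ (r + 1) := by
  refine card_filter_act_le ρ r u _ ?_
  intro v hv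
  rw [mem_filter] at hv
  obtain ⟨w, h1, h2⟩ := f05_mem_path_act ρ P v u hv.2
  exact ⟨w, h1.trans (hP v), h2⟩

/-- The iterates `next^[j] v`, `j ≤ ht v`, are different (their heights are `ht v - j`), so a sum
over the path is a sum over `j`; here as an inequality with the words. -/
theorem sum_path_forest_le [Fintype V] (m : V → Fin q) (v : V) (s : V → ℝ) (hs : ∀ u, 0 ≤ s u) :
    ∑ u ∈ (forest ρ r m).path v, s u ≤ ∑ w ∈ words r, s (act ρ v w) := by
  have hex : ∀ u : V, ∃ w : List (Fin 2), u ∈ (forest ρ r m).path v → w.length ≤ r ∧ act ρ v w = u := by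
    intro u
    by_cases hu : u ∈ (forest ρ r m).path v
    · obtain ⟨w, h1, h2⟩ := f05_mem_path_act ρ (forest ρ r m) v u hu
      exact ⟨w, fun _ => ⟨h1.trans (htm_le ρ r m v), h2⟩⟩
    · exact ⟨[], fun h => absurd h hu⟩
  choose g hg using hex
  have hinj : Set.InjOn g ((forest ρ r m).path v : Set V) := by
    intro u hu u' hu' huu
    rw [mem_coe] at hu hu'
    rw [← (hg u hu).2, ← (hg u' hu').2, huu]
  calc ∑ u ∈ (forest ρ r m).path v, s u = ∑ u ∈ (forest ρ r m).path v, s (act ρ v (g u)) :=
        sum_congr rfl fun u hu => by rw [(hg u hu).2]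
    _ = ∑ w ∈ ((forest ρ r m).path v).image g, s (act ρ v w) := by
        rw [sum_image hinj]
    _ ≤ ∑ w ∈ words r, s (act ρ v w) := by
        refine sum_le_sum_of_subset_of_nonneg ?_ (fun w _ _ => hs _)
        intro w hw
        rw [mem_image] at hw
        obtain ⟨u, hu, rfl⟩ := hw
        exact (mem_words r _).mpr (hg u hu).1

end H98T
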