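import Mathlib
import Pool.Agent.Lib.H98T.SDefs
import Pool.Agent.Lib.H98T.F05

set_option autoImplicit false

/-!
# H98T.S09: the numbers of section 8
-/

namespace H98T

open Finset

variable {V : Type} {g : ℕ} [Fintype V] [DecidableEq V]

theorem s09_eq (σ : Fin (2 * g) → Equiv.Perm V) (P : PForest (two σ)) {A : Type*} (S : V → Set A) (x : V) :
    GS σ P S x = S x ∪ ⋃ s ∈ range (4 * g), ⋃ v ∈ P.path (u σ s x), (S v ∪ S ((two σ 0)⁻¹ v)) := by
  ext a
  unfold GS
  simp only [Set.mem_union, Set.mem_setOf_eq, Set.mem_iUnion, Finset.mem_range, exists_prop]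

/-- S09a (M). (8a).  `GS x` is the union of `S x` and, over `s < 4g`, of the unions over `v ∈ path (u σ s x)` of `S v ∪ S ((σ 0)⁻¹ v)`; bound `ncard` by the sums (`Set.ncard_union_le`, finite unions), then sum over `x`;
for each `s` substitute `u σ s x` by `v` (`Equiv.sum_comp (u σ s)`). -/
theorem sum_GS (σ : Fin (2 * g) → Equiv.Perm V) (P : PForest (two σ)) {A : Type*} (S : V → Set A) (hfin : ∀ x, (S x).Finite) :
    ∑ x, (GS σ P S x).ncard ≤ ∑ x, (S x).ncard + 4 * g * ∑ v, ∑ v' ∈ P.path v, ((S v').ncard + (S ((two σ 0)⁻¹ v')).ncard) := by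
  classical
  have h1 : ∀ x, (GS σ P S x).ncard ≤ (S x).ncard + ∑ s ∈ range (4 * g), ∑ v ∈ P.path (u σ s x), ((S v).ncard + (S ((two σ 0)⁻¹ v)).ncard) := by
    intro x
    rw [s09_eq]
    refine le_trans (Set.ncard_union_le _ _) (Nat.add_le_add_left ?_ _)
    refine le_trans (Finset.set_ncard_biUnion_le _ _) (Finset.sum_le_sum (fun s _ => ?_))
    refine le_trans (Finset.set_ncard_biUnion_le _ _) (Finset.sum_le_sum (fun v _ => ?_))
    exact Set.ncard_union_le _ _
  refine le_trans (Finset.sum_le_sum (fun x _ => h1 x)) ?_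
  rw [Finset.sum_add_distrib, Finset.sum_comm]
  apply Nat.add_le_add_left
  have h2 : ∀ s ∈ range (4 * g), ∑ x, ∑ v ∈ P.path (u σ s x), ((S v).ncard + (S ((two σ 0)⁻¹ v)).ncard) =
      ∑ v, ∑ v' ∈ P.path v, ((S v').ncard + (S ((two σ 0)⁻¹ v')).ncard) := by
    intro s _
    exact Equiv.sum_comp (u σ s) (fun v => ∑ v' ∈ P.path v, ((S v').ncard + (S ((two σ 0)⁻¹ v')).ncard))
  rw [Finset.sum_congr rfl h2, Finset.sum_const, Finset.card_range, smul_eq_mul]

/-- S09b (S). -/
theorem GS_finite (σ : Fin (2 * g) → Equiv.Perm V) (P : PForest (two σ)) {A : Type*} (S : V → Set A) (hfin : ∀ x, (S x).Finite) (x : V) :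
    (GS σ P S x).Finite := by
  rw [s09_eq]
  refine (hfin x).union ?_
  refine Set.Finite.biUnion (Finset.finite_toSet _) (fun s _ => ?_)
  refine Set.Finite.biUnion (Finset.finite_toSet _) (fun v _ => ?_)
  exact (hfin _).union (hfin _)

end H98T
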