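import Mathlib
import Pool.Agent.Lib.H98T.SDefs
import Pool.Agent.Lib.H98T.F05

set_option autoImplicit false

/-!
# H98T.S09B: the numbers of section 8, (8b) and (8c)
-/

namespace H98T

open Finset

variable {V : Type} {g : ℕ} [Fintype V] [DecidableEq V]

/-- S09c (M). (8c).  If `a ∈ GS x` and `a ∉ S x` then for some `s < 4g` the path of `u σ s x` meets `visit σ S a`; for each `s` the number of such `x` is the number of `v` whose path meets `visit σ S a`, which is at
most `∑ v, card (path v ∩ visit σ S a)`. -/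
theorem card_GS (σ : Fin (2 * g) → Equiv.Perm V) (P : PForest (two σ)) {A : Type*} (S : V → Set A) (a : A) :
    {x | a ∈ GS σ P S x}.ncard ≤ {x | a ∈ S x}.ncard + 4 * g * ∑ v, (P.path v ∩ visit σ S a).card := by
  classical
  have h1 : {x | a ∈ GS σ P S x} ⊆ {x | a ∈ S x} ∪ ⋃ s ∈ range (4 * g), {x | (P.path (u σ s x) ∩ visit σ S a).Nonempty} := by
    intro x hx
    rcases hx with hx | ⟨s, hs, v, hv, ha⟩
    · exact Or.inl hx
    · right
      simp only [Set.mem_iUnion, Finset.mem_range, exists_prop]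
      refine ⟨s, hs, v, ?_⟩
      rw [mem_inter]
      refine ⟨hv, ?_⟩
      unfold visit
      rw [mem_filter]
      exact ⟨mem_univ _, ha⟩
  refine le_trans (Set.ncard_le_ncard h1 (Set.toFinite _)) (le_trans (Set.ncard_union_le _ _) (Nat.add_le_add_left ?_ _))
  refine le_trans (Finset.set_ncard_biUnion_le _ _) ?_
  have h2 : ∀ s ∈ range (4 * g), {x | (P.path (u σ s x) ∩ visit σ S a).Nonempty}.ncard ≤ ∑ v, (P.path v ∩ visit σ S a).card := by
    intro s _
    rw [← Equiv.sum_comp (u σ s) (fun v => (P.path v ∩ visit σ S a).card)]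
    have h3 : {x | (P.path (u σ s x) ∩ visit σ S a).Nonempty} = ((univ.filter (fun x => (P.path (u σ s x) ∩ visit σ S a).Nonempty) : Finset V) : Set V) := by
      ext x
      simp
    rw [h3, Set.ncard_coe_finset, Finset.card_filter]
    apply Finset.sum_le_sum
    intro x _
    by_cases h4 : (P.path (u σ s x) ∩ visit σ S a).Nonempty
    · rw [if_pos h4]
      exact h4.card_pos
    · rw [if_neg h4]
      exact Nat.zero_le _
  refine le_trans (Finset.sum_le_sum h2) ?_
  rw [Finset.sum_const, Finset.card_range, smul_eq_mul]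

/-- S09d (S/M). `visit σ S a` is the union of `{v | a ∈ S v}` and of its image under `σ 0`. -/
theorem card_visit (σ : Fin (2 * g) → Equiv.Perm V) {A : Type*} (S : V → Set A) (a : A) : (visit σ S a).card ≤ 2 * {x | a ∈ S x}.ncard := by
  classical
  have h1 : visit σ S a ⊆ (univ.filter (fun v => a ∈ S v)) ∪ (univ.filter (fun v => a ∈ S v)).image (two σ 0) := by
    intro v hv
    unfold visit at hv
    rw [mem_filter] at hv
    rw [mem_union, mem_filter, mem_image]
    rcases hv.2 with h | h
    · exact Or.inl ⟨mem_univ _, h⟩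
    · refine Or.inr ⟨(two σ 0)⁻¹ v, ?_, ?_⟩
      · rw [mem_filter]
        exact ⟨mem_univ _, h⟩
      · exact (two σ 0).apply_symm_apply v
  have h2 : (univ.filter (fun v => a ∈ S v)).card = {x | a ∈ S x}.ncard := by
    have h3 : {x | a ∈ S x} = ((univ.filter (fun v => a ∈ S v) : Finset V) : Set V) := by
      ext x
      simp
    rw [h3, Set.ncard_coe_finset]
  refine le_trans (card_le_card h1) (le_trans (Finset.card_union_le _ _) ?_)
  have h4 : ((univ.filter (fun v => a ∈ S v)).image (two σ 0)).card ≤ (univ.filter (fun v => a ∈ S v)).card := card_image_le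
  rw [← h2]
  omega

/-- S09e (S/M). (8b).  From `card_GS`: `∑ v, card (path v ∩ τ) = ∑_(v' ∈ τ) #{v | v' ∈ path v} ≤ |τ| 2^(r+1)` (`PForest.card_filter_mem_path`), `card_visit`. -/
theorem mult_GS (σ : Fin (2 * g) → Equiv.Perm V) (P : PForest (two σ)) {A : Type*} (S : V → Set A) (a : A) (b r : ℕ) (hr : ∀ v, P.ht v ≤ r)
    (hb : {x | a ∈ S x}.ncard ≤ b) : {x | a ∈ GS σ P S x}.ncard ≤ b * (1 + 16 * g * 2 ^ r) := by
  classical
  have h1 := card_GS σ P S a
  have h2 := card_visit σ S a
  have h3 : ∑ v, (P.path v ∩ visit σ S a).card ≤ (visit σ S a).card * 2 ^ (r + 1) := by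
    have h4 : ∀ v, (P.path v ∩ visit σ S a).card = ∑ v' ∈ visit σ S a, if v' ∈ P.path v then 1 else 0 := by
      intro v
      rw [← Finset.card_filter]
      congr 1
      ext v'
      rw [mem_inter, mem_filter]
      tauto
    rw [Finset.sum_congr rfl (fun v _ => h4 v), Finset.sum_comm]
    have h5 : ∀ v' ∈ visit σ S a, (∑ v, if v' ∈ P.path v then 1 else 0) ≤ 2 ^ (r + 1) := by
      intro v' _
      rw [← Finset.card_filter]
      exact PForest.card_filter_mem_path (two σ) r P hr v'
    refine le_trans (Finset.sum_le_sum h5) ?_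
    rw [Finset.sum_const, smul_eq_mul]
  calc {x | a ∈ GS σ P S x}.ncard ≤ {x | a ∈ S x}.ncard + 4 * g * ∑ v, (P.path v ∩ visit σ S a).card := h1
    _ ≤ b + 4 * g * ((2 * b) * 2 ^ (r + 1)) := by
        apply Nat.add_le_add hb
        apply Nat.mul_le_mul_left
        refine le_trans h3 (Nat.mul_le_mul_right _ (le_trans h2 (Nat.mul_le_mul_left _ hb)))
    _ = b * (1 + 16 * g * 2 ^ r) := by ring

end H98T
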