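import Mathlib
import Pool.Agent.Lib.H98T.S09
import Pool.Agent.Lib.H98T.S09B

set_option autoImplicit false

/-!
# H98T.Z21: the numbers of the gauged sets
-/

namespace H98T

open Finset

variable {V : Type} {g : ℕ} [Fintype V] [DecidableEq V]

/-- Z21a. Chunk Z21 (size S). `Equiv.sum_comp`. -/
theorem sum_two (σ : Fin (2 * g) → Equiv.Perm V) (s : V → ℝ) : ∑ u, (s u + s ((two σ 0)⁻¹ u)) = 2 * ∑ u, s u := by
  rw [Finset.sum_add_distrib, Equiv.sum_comp ((two σ 0)⁻¹) s]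
  ring

/-- Z21b. Chunk Z21 (size S/M). `sum_GS` and the bound for the sums over the paths. -/
theorem sum_GS_le (σ : Fin (2 * g) → Equiv.Perm V) (P : PForest (two σ)) {A : Type*} (S : V → Set A) (hfin : ∀ x, (S x).Finite) (a : ℝ) (r : ℕ)
    (hS : ∑ x, ((S x).ncard : ℝ) ≤ a * Fintype.card V)
    (hP : ∑ v, ∑ u ∈ P.path v, (((S u).ncard : ℝ) + (S ((two σ 0)⁻¹ u)).ncard) ≤ 4 * (r + 1) * ∑ u, (((S u).ncard : ℝ) + (S ((two σ 0)⁻¹ u)).ncard)) :
    ∑ x, ((GS σ P S x).ncard : ℝ) ≤ (1 + 32 * g * (r + 1)) * a * Fintype.card V := by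
  have h1 := sum_GS σ P S hfin
  have h2 : ∑ x, ((GS σ P S x).ncard : ℝ) ≤ ∑ x, ((S x).ncard : ℝ) + 4 * g * ∑ v, ∑ u ∈ P.path v, (((S u).ncard : ℝ) + (S ((two σ 0)⁻¹ u)).ncard) := by
    exact_mod_cast h1
  rw [sum_two σ (fun u => ((S u).ncard : ℝ))] at hP
  have h3 : (4 * (g : ℝ)) * ∑ v, ∑ u ∈ P.path v, (((S u).ncard : ℝ) + (S ((two σ 0)⁻¹ u)).ncard) ≤ (4 * (g : ℝ)) * (4 * (r + 1) * (2 * ∑ u, ((S u).ncard : ℝ))) :=
    mul_le_mul_of_nonneg_left hP (by positivity)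
  have h4 : (4 * (g : ℝ)) * (4 * (r + 1) * (2 * ∑ u, ((S u).ncard : ℝ))) ≤ (4 * (g : ℝ)) * (4 * (r + 1) * (2 * (a * Fintype.card V))) := by
    apply mul_le_mul_of_nonneg_left _ (by positivity)
    apply mul_le_mul_of_nonneg_left _ (by positivity)
    linarith
  calc ∑ x, ((GS σ P S x).ncard : ℝ) ≤ a * Fintype.card V + (4 * (g : ℝ)) * (4 * (r + 1) * (2 * (a * Fintype.card V))) := by linarith
    _ = (1 + 32 * g * (r + 1)) * a * Fintype.card V := by ring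

/-- Z21c. Chunk Z21 (size S/M). `card_GS`, `card_visit` and the bound for the visits. -/
theorem card_GS_le (σ : Fin (2 * g) → Equiv.Perm V) (P : PForest (two σ)) {C : Type*} (R : V → Set C) (c : C) (κ : ℝ) (r : ℕ)
    (hR : ({x | c ∈ R x}.ncard : ℝ) ≤ κ * Fintype.card V)
    (hP : ∑ v, ((P.path v ∩ visit σ R c).card : ℝ) ≤ (r + 1) * (visit σ R c).card + κ * Fintype.card V) :
    ({x | c ∈ GS σ P R x}.ncard : ℝ) ≤ (1 + 4 * g * (2 * r + 3)) * κ * Fintype.card V := by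
  have h1 : ({x | c ∈ GS σ P R x}.ncard : ℝ) ≤ ({x | c ∈ R x}.ncard : ℝ) + 4 * g * ∑ v, ((P.path v ∩ visit σ R c).card : ℝ) := by
    exact_mod_cast card_GS σ P R c
  have h2 : ((visit σ R c).card : ℝ) ≤ 2 * {x | c ∈ R x}.ncard := by exact_mod_cast card_visit σ R c
  have h3 : ((r : ℝ) + 1) * (visit σ R c).card ≤ (r + 1) * (2 * (κ * Fintype.card V)) := by
    apply mul_le_mul_of_nonneg_left _ (by positivity)
    linarith
  have h4 : (4 * (g : ℝ)) * ∑ v, ((P.path v ∩ visit σ R c).card : ℝ) ≤ (4 * (g : ℝ)) * ((r + 1) * (2 * (κ * Fintype.card V)) + κ * Fintype.card V) := by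
    apply mul_le_mul_of_nonneg_left _ (by positivity)
    linarith
  calc ({x | c ∈ GS σ P R x}.ncard : ℝ) ≤ κ * Fintype.card V + (4 * (g : ℝ)) * ((r + 1) * (2 * (κ * Fintype.card V)) + κ * Fintype.card V) := by linarith
    _ = (1 + 4 * g * (2 * r + 3)) * κ * Fintype.card V := by ring

end H98T
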