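import Mathlib
import Pool.Agent.Lib.H98T.F12
import Pool.Agent.Lib.H98T.Z21

set_option autoImplicit false

/-!
# H98T.Z22: the forest
-/

namespace H98T

open Finset

variable {V : Type} {g : ℕ} [Fintype V] [DecidableEq V]

open Classical in
/-- Z22. THE FOREST: `forest_selection` for `ρ = two σ`, `s u = |S u| + |S ((σ 0)⁻¹ u)|`, `τ c = visit σ R c`, `κ₁ = κ`; then `sum_two`, `sum_GS_le`, `card_GS_le`. -/
theorem exists_forest (σ : Fin (2 * g) → Equiv.Perm V) (q r : ℕ) (hq : 8 ≤ q) (hr : 2 ^ r = q ^ 2) {A C : Type} [Fintype C]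
    (S : V → Set A) (R : V → Set C) (a κ : ℝ) (hκ : 0 < κ) (hfin : ∀ x, (S x).Finite)
    (hS : ∑ x, ((S x).ncard : ℝ) ≤ a * Fintype.card V) (hR : ∀ c, ({x | c ∈ R x}.ncard : ℝ) ≤ κ * Fintype.card V)
    (hd : 4 * (Fintype.card C : ℝ) * (4 ^ (r + 1) * (r + 1) ^ 2) ≤ κ ^ 2 * Fintype.card V) :
    ∃ P : PForest (two σ), (∀ v, P.ht v ≤ r) ∧ (∀ v, ¬ P.root v → Good (two σ) r v) ∧
      (((univ.filter (fun v => P.root v ∧ Good (two σ) r v)).card : ℝ) ≤ 8 / q * Fintype.card V) ∧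
      (∑ x ∈ univ.filter (fun x => P.root x ∧ Good (two σ) r x),
        ∑ u ∈ P.path ((two σ 0)⁻¹ x), (((S u).ncard : ℝ) + (S ((two σ 0)⁻¹ u)).ncard) ≤ 8 * ((r + 2) / q) * a * Fintype.card V) ∧
      (∑ x, ((GS σ P S x).ncard : ℝ) ≤ (1 + 32 * g * (r + 1)) * a * Fintype.card V) ∧
      (∀ c, ({x | c ∈ GS σ P R x}.ncard : ℝ) ≤ (1 + 4 * g * (2 * r + 3)) * κ * Fintype.card V) := by
  obtain ⟨P, h1, h2, h3, h4, h5, h6⟩ := forest_selection (two σ) q r hq hr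
    (fun u => ((S u).ncard : ℝ) + (S ((two σ 0)⁻¹ u)).ncard) (fun u => by positivity)
    (fun c : C => visit σ R c) κ hκ hd
  refine ⟨P, h1, h2, h4, ?_, ?_, ?_⟩
  · refine h5.trans ?_
    have h7 := sum_two σ (fun u => ((S u).ncard : ℝ))
    rw [h7]
    have h8 : 4 * (((r : ℝ) + 2) / q) * (2 * ∑ u, ((S u).ncard : ℝ)) ≤
        4 * (((r : ℝ) + 2) / q) * (2 * (a * Fintype.card V)) := by
      apply mul_le_mul_of_nonneg_left _ (by positivity)
      linarith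
    refine h8.trans (le_of_eq ?_)
    ring
  · exact sum_GS_le σ P S hfin a r hS h3
  · intro c
    exact card_GS_le σ P R c κ r (hR c) (h6 c)

end H98T
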