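import Pool.Agent.Lib.H98T.F03

/-!
# H98T F14 (M): a coincidence of two words produces a dense set (F6)
-/

namespace H98T

open Finset

variable {V : Type*} [Fintype V] [DecidableEq V] (ρ : Fin 2 → Equiv.Perm V)

theorem f14_count1 (U : Finset V) :
    ∑ x ∈ U, (Finset.univ.filter (fun i : Fin 2 => ρ i x ∈ U)).card =
      (inside ρ Finset.univ U).card := by
  classical
  have h : inside ρ Finset.univ U = U.biUnion (fun x =>
      (Finset.univ.filter (fun i : Fin 2 => ρ i x ∈ U)).image (fun i => (i, x))) := by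
    ext ⟨i, x⟩
    simp only [inside, Finset.mem_filter, Finset.mem_univ, true_and, Finset.mem_biUnion,
      Finset.mem_image, Prod.mk.injEq]
    constructor
    · rintro ⟨h1, h2⟩
      exact ⟨x, h1, i, h2, rfl, rfl⟩
    · rintro ⟨y, hy, j, hj, rfl, rfl⟩
      exact ⟨hy, hj⟩
  rw [h, Finset.card_biUnion]
  · apply Finset.sum_congr rfl
    intro x _
    rw [Finset.card_image_of_injective]
    intro i j hij
    simpa using hij
  · intro x _ y _ hxy
    rw [Function.onFun, Finset.disjoint_left]
    intro a ha hb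
    simp only [Finset.mem_image, Finset.mem_filter] at ha hb
    obtain ⟨i, -, rfl⟩ := ha
    obtain ⟨j, -, hj⟩ := hb
    simp at hj
    exact hxy hj.2.symm

theorem f14_count2 (U : Finset V) :
    ∑ x ∈ U, (Finset.univ.filter (fun i : Fin 2 => (ρ i)⁻¹ x ∈ U)).card =
      (inside ρ Finset.univ U).card := by
  classical
  have h : inside ρ Finset.univ U = U.biUnion (fun x =>
      (Finset.univ.filter (fun i : Fin 2 => (ρ i)⁻¹ x ∈ U)).image (fun i => (i, (ρ i)⁻¹ x))) := by
    ext ⟨i, y⟩
    simp only [inside, Finset.mem_filter, Finset.mem_univ, true_and, Finset.mem_biUnion,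
      Finset.mem_image, Prod.mk.injEq]
    constructor
    · rintro ⟨h1, h2⟩
      exact ⟨ρ i y, h2, i, by simpa using h1, rfl, by simp⟩
    · rintro ⟨x, hx, j, hj, rfl, rfl⟩
      exact ⟨hj, by simpa using hx⟩
  rw [h, Finset.card_biUnion]
  · apply Finset.sum_congr rfl
    intro x _
    rw [Finset.card_image_of_injective]
    intro i j hij
    simp at hij
    exact hij.1
  · intro x _ y _ hxy
    rw [Function.onFun, Finset.disjoint_left]
    intro a ha hb
    simp only [Finset.mem_image, Finset.mem_filter] at ha hb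
    obtain ⟨i, -, rfl⟩ := ha
    obtain ⟨j, -, hj⟩ := hb
    simp only [Prod.mk.injEq] at hj
    obtain ⟨rfl, hj⟩ := hj
    exact hxy ((ρ j)⁻¹.injective hj).symm

/-- Density from degrees. -/
theorem dense_of_degree (U : Finset V) (hU : U.Nonempty)
    (h : ∀ x ∈ U, 2 ≤ (Finset.univ.filter (fun i : Fin 2 => ρ i x ∈ U)).card +
      (Finset.univ.filter (fun i : Fin 2 => (ρ i)⁻¹ x ∈ U)).card) :
    Dense ρ U := by
  refine ⟨hU, ?_⟩
  have h1 := f14_count1 ρ U
  have h2 := f14_count2 ρ U
  have h3 : ∑ x ∈ U, 2 ≤ ∑ x ∈ U, ((Finset.univ.filter (fun i : Fin 2 => ρ i x ∈ U)).card +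
      (Finset.univ.filter (fun i : Fin 2 => (ρ i)⁻¹ x ∈ U)).card) := Finset.sum_le_sum h
  rw [Finset.sum_add_distrib, h1, h2] at h3
  simp at h3
  omega

/-- The set of vertices of the walk of `w` from `v`. -/
def walkSet (v : V) (w : List (Fin 2)) : Finset V :=
  (Finset.range (w.length + 1)).image (fun j => act ρ v (w.take j))

omit [Fintype V] in
theorem f14_mem_walkSet (v : V) (w : List (Fin 2)) (j : ℕ) (hj : j ≤ w.length) :
    act ρ v (w.take j) ∈ walkSet ρ v w := by
  unfold walkSet
  rw [Finset.mem_image]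
  exact ⟨j, by simp; omega, rfl⟩

omit [Fintype V] [DecidableEq V] in
theorem f14_step (v : V) (w : List (Fin 2)) (j : ℕ) (hj : j < w.length) :
    act ρ v (w.take (j + 1)) = (ρ (w.get ⟨j, hj⟩))⁻¹ (act ρ v (w.take j)) := by
  rw [← List.take_concat_get' w j hj, act_append]
  simp

/-- Inner vertices of a walk have both sorts of ends. -/
theorem walkSet_degree (v : V) (w : List (Fin 2)) (j : ℕ) (hj : j ≤ w.length) :
    (∀ h : j < w.length, (ρ (w.get ⟨j, h⟩))⁻¹ (act ρ v (w.take j)) ∈ walkSet ρ v w) ∧
      (∀ h : 0 < j, ρ (w.get ⟨j - 1, by omega⟩) (act ρ v (w.take j)) ∈ walkSet ρ v w) := by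
  constructor
  · intro h
    rw [← f14_step]
    exact f14_mem_walkSet ρ v w (j + 1) h
  · intro h
    obtain ⟨k, rfl⟩ : ∃ k, j = k + 1 := ⟨j - 1, by omega⟩
    simp only [Nat.add_sub_cancel]
    rw [f14_step ρ v w k (by omega)]
    have he : ∀ (p : Equiv.Perm V) (x : V), p (p⁻¹ x) = x := fun p x => by simp
    rw [he]
    exact f14_mem_walkSet ρ v w k (by omega)

theorem f14_A (U : Finset V) (x : V) (h1 : ∃ i, ρ i x ∈ U) (h2 : ∃ i, (ρ i)⁻¹ x ∈ U) :
    2 ≤ (Finset.univ.filter (fun i : Fin 2 => ρ i x ∈ U)).card +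
      (Finset.univ.filter (fun i : Fin 2 => (ρ i)⁻¹ x ∈ U)).card := by
  obtain ⟨i, hi⟩ := h1
  obtain ⟨j, hj⟩ := h2
  have a1 : 0 < (Finset.univ.filter (fun i : Fin 2 => ρ i x ∈ U)).card :=
    Finset.card_pos.mpr ⟨i, by simpa using hi⟩
  have a2 : 0 < (Finset.univ.filter (fun i : Fin 2 => (ρ i)⁻¹ x ∈ U)).card :=
    Finset.card_pos.mpr ⟨j, by simpa using hj⟩
  omega

theorem f14_B (U : Finset V) (x : V) (i j : Fin 2) (hij : i ≠ j) (h1 : (ρ i)⁻¹ x ∈ U)
    (h2 : (ρ j)⁻¹ x ∈ U) :
    2 ≤ (Finset.univ.filter (fun i : Fin 2 => ρ i x ∈ U)).card +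
      (Finset.univ.filter (fun i : Fin 2 => (ρ i)⁻¹ x ∈ U)).card := by
  have a : 1 < (Finset.univ.filter (fun i : Fin 2 => (ρ i)⁻¹ x ∈ U)).card :=
    Finset.one_lt_card.mpr ⟨i, by simpa using h1, j, by simpa using h2, hij⟩
  omega

theorem f14_C (U : Finset V) (x : V) (i j : Fin 2) (hij : i ≠ j) (h1 : ρ i x ∈ U)
    (h2 : ρ j x ∈ U) :
    2 ≤ (Finset.univ.filter (fun i : Fin 2 => ρ i x ∈ U)).card +
      (Finset.univ.filter (fun i : Fin 2 => (ρ i)⁻¹ x ∈ U)).card := by
  have a : 1 < (Finset.univ.filter (fun i : Fin 2 => ρ i x ∈ U)).card :=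
    Finset.one_lt_card.mpr ⟨i, by simpa using h1, j, by simpa using h2, hij⟩
  omega

theorem f14_aux (v : V) (w w' : List (Fin 2)) (hne : w ≠ w')
    (h : act ρ v w = act ρ v w') (h1 : w = [] ∨ w' = [] ∨ w.head? ≠ w'.head?)
    (h2 : w = [] ∨ w' = [] ∨ w.getLast? ≠ w'.getLast?) (U : Finset V)
    (hU : walkSet ρ v w ⊆ U) (hU' : walkSet ρ v w' ⊆ U) (j : ℕ) (hj : j ≤ w.length) :
    2 ≤ (Finset.univ.filter (fun i : Fin 2 => ρ i (act ρ v (w.take j)) ∈ U)).card +
      (Finset.univ.filter (fun i : Fin 2 => (ρ i)⁻¹ (act ρ v (w.take j)) ∈ U)).card := by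
  -- both ends of a closed walk
  have closed : ∀ u : List (Fin 2), u ≠ [] → act ρ v u = v → walkSet ρ v u ⊆ U →
      2 ≤ (Finset.univ.filter (fun i : Fin 2 => ρ i v ∈ U)).card +
      (Finset.univ.filter (fun i : Fin 2 => (ρ i)⁻¹ v ∈ U)).card := by
    intro u hu huv huU
    have hl : 0 < u.length := List.length_pos_iff.mpr hu
    have b1 := (walkSet_degree ρ v u u.length le_rfl).2 hl
    rw [List.take_length, huv] at b1
    have b2 := (walkSet_degree ρ v u 0 (by omega)).1 hl
    rw [List.take_zero, act_nil] at b2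
    exact f14_A ρ U v ⟨_, huU b1⟩ ⟨_, huU b2⟩
  rcases Nat.eq_zero_or_pos j with hj0 | hj0
  · subst hj0
    rw [List.take_zero, act_nil]
    by_cases hw : w = []
    · subst hw
      have hw' : w' ≠ [] := fun h => hne h.symm
      exact closed w' hw' (by rw [← h]; rfl) hU'
    · by_cases hw' : w' = []
      · subst hw'
        exact closed w hw (by rw [h]; rfl) hU
      · have hl : 0 < w.length := List.length_pos_iff.mpr hw
        have hl' : 0 < w'.length := List.length_pos_iff.mpr hw'
        have a1 := (walkSet_degree ρ v w 0 (by omega)).1 hl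
        have a2 := (walkSet_degree ρ v w' 0 (by omega)).1 hl'
        rw [List.take_zero, act_nil] at a1 a2
        apply f14_B ρ U v _ _ _ (hU a1) (hU' a2)
        intro he
        rcases h1 with h1 | h1 | h1
        · exact hw h1
        · exact hw' h1
        · apply h1
          cases w with
          | nil => exact absurd rfl hw
          | cons a w =>
            cases w' with
            | nil => exact absurd rfl hw'
            | cons b w' => simpa using he
  · rcases lt_or_eq_of_le hj with hj1 | hj1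
    · apply f14_A
      · exact ⟨_, hU ((walkSet_degree ρ v w j hj).2 hj0)⟩
      · exact ⟨_, hU ((walkSet_degree ρ v w j hj).1 hj1)⟩
    · subst hj1
      rw [List.take_length]
      by_cases hw' : w' = []
      · subst hw'
        rw [act_nil] at h
        rw [h]
        exact closed w (fun h => hne h) h hU
      · have hw : w ≠ [] := List.length_pos_iff.mp hj0
        have hl' : 0 < w'.length := List.length_pos_iff.mpr hw'
        have a1 := (walkSet_degree ρ v w w.length le_rfl).2 hj0
        have a2 := (walkSet_degree ρ v w' w'.length le_rfl).2 hl'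
        rw [List.take_length] at a1 a2
        rw [← h] at a2
        apply f14_C ρ U _ _ _ _ (hU a1) (hU' a2)
        intro he
        rcases h2 with h2 | h2 | h2
        · exact hw h2
        · exact hw' h2
        · apply h2
          rw [List.getLast?_eq_getElem?, List.getLast?_eq_getElem?]
          rw [List.getElem?_eq_getElem (by omega : w.length - 1 < w.length),
            List.getElem?_eq_getElem (by omega : w'.length - 1 < w'.length)]
          simpa using he

/-- A reduced coincidence gives a dense set. -/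
theorem dense_of_reduced (v : V) (w w' : List (Fin 2)) (hne : w ≠ w')
    (h : act ρ v w = act ρ v w') (h1 : w = [] ∨ w' = [] ∨ w.head? ≠ w'.head?)
    (h2 : w = [] ∨ w' = [] ∨ w.getLast? ≠ w'.getLast?) :
    Dense ρ (walkSet ρ v w ∪ walkSet ρ v w') := by
  apply dense_of_degree
  · exact ⟨v, Finset.mem_union_left _ (by
      have := f14_mem_walkSet ρ v w 0 (by omega)
      simpa using this)⟩
  · intro x hx
    rw [Finset.mem_union] at hx
    rcases hx with hx | hx
    · unfold walkSet at hx
      rw [Finset.mem_image] at hx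
      obtain ⟨j, hj, rfl⟩ := hx
      exact f14_aux ρ v w w' hne h h1 h2 _ Finset.subset_union_left Finset.subset_union_right j
        (by simpa [Nat.lt_succ_iff] using hj)
    · unfold walkSet at hx
      rw [Finset.mem_image] at hx
      obtain ⟨j, hj, rfl⟩ := hx
      refine f14_aux ρ v w' w hne.symm h.symm ?_ ?_ _ Finset.subset_union_right
        Finset.subset_union_left j (by simpa [Nat.lt_succ_iff] using hj)
      · rcases h1 with h1 | h1 | h1
        · exact Or.inr (Or.inl h1)
        · exact Or.inl h1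
        · exact Or.inr (Or.inr h1.symm)
      · rcases h2 with h1 | h1 | h1
        · exact Or.inr (Or.inl h1)
        · exact Or.inl h1
        · exact Or.inr (Or.inr h1.symm)

omit [Fintype V] in
theorem f14_card_walkSet (v : V) (w : List (Fin 2)) :
    (walkSet ρ v w).card ≤ w.length + 1 := by
  unfold walkSet
  exact Finset.card_image_le.trans (by simp)

/-- Strip common last letters. -/
theorem f14_strip_last : ∀ (n : ℕ) (w w' : List (Fin 2)), w.length ≤ n → w ≠ w' →
    ∃ a a' c : List (Fin 2), w = a ++ c ∧ w' = a' ++ c ∧ a ≠ a' ∧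
      (a = [] ∨ a' = [] ∨ a.getLast? ≠ a'.getLast?) := by
  intro n
  induction n with
  | zero =>
    intro w w' hw hne
    have : w = [] := List.length_eq_zero_iff.mp (by omega)
    exact ⟨w, w', [], by simp, by simp, hne, Or.inl this⟩
  | succ n ih =>
    intro w w' hw hne
    by_cases h0 : w = []
    · exact ⟨w, w', [], by simp, by simp, hne, Or.inl h0⟩
    by_cases h0' : w' = []
    · exact ⟨w, w', [], by simp, by simp, hne, Or.inr (Or.inl h0')⟩
    by_cases hl : w.getLast? = w'.getLast?
    · have e1 := List.dropLast_append_getLast h0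
      have e2 := List.dropLast_append_getLast h0'
      have e3 : w.getLast h0 = w'.getLast h0' := by
        rw [List.getLast?_eq_getLast_of_ne_nil h0, List.getLast?_eq_getLast_of_ne_nil h0'] at hl
        simpa using hl
      have hne' : w.dropLast ≠ w'.dropLast := by
        intro he
        apply hne
        rw [← e1, ← e2, he, e3]
      obtain ⟨a, a', c, h1, h2, h3, h4⟩ := ih w.dropLast w'.dropLast (by simp; omega) hne'
      refine ⟨a, a', c ++ [w.getLast h0], ?_, ?_, h3, h4⟩
      · rw [← List.append_assoc, ← h1, e1]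
      · rw [← List.append_assoc, ← h2, e3, e2]
    · exact ⟨w, w', [], by simp, by simp, hne, Or.inr (Or.inr hl)⟩

/-- Strip common first letters. -/
theorem f14_strip_first : ∀ (w w' : List (Fin 2)), w ≠ w' →
    ∃ p a a' : List (Fin 2), w = p ++ a ∧ w' = p ++ a' ∧ a ≠ a' ∧
      (a = [] ∨ a' = [] ∨ a.head? ≠ a'.head?) := by
  intro w
  induction w with
  | nil =>
    intro w' hne
    exact ⟨[], [], w', by simp, by simp, hne, Or.inl rfl⟩
  | cons i w ih =>
    intro w' hne
    cases w' with
    | nil => exact ⟨[], i :: w, [], by simp, by simp, hne, Or.inr (Or.inl rfl)⟩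
    | cons j w' =>
      by_cases hij : i = j
      · subst hij
        obtain ⟨p, a, a', h1, h2, h3, h4⟩ := ih w' (fun h => hne (by rw [h]))
        exact ⟨i :: p, a, a', by simp [h1], by simp [h2], h3, h4⟩
      · exact ⟨[], i :: w, j :: w', by simp, by simp, hne, Or.inr (Or.inr (by simpa using hij))⟩

theorem f14_head_append (a a' c : List (Fin 2))
    (h : a ++ c = [] ∨ a' ++ c = [] ∨ (a ++ c).head? ≠ (a' ++ c).head?) :
    a = [] ∨ a' = [] ∨ a.head? ≠ a'.head? := by
  rcases h with h | h | h
  · left
    exact (List.append_eq_nil_iff.mp h).1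
  · right; left
    exact (List.append_eq_nil_iff.mp h).1
  · cases a with
    | nil => exact Or.inl rfl
    | cons x a =>
      cases a' with
      | nil => exact Or.inr (Or.inl rfl)
      | cons y a' => exact Or.inr (Or.inr (by simpa using h))

/-- A vertex which is not good lies near a dense set. -/
theorem exists_dense_of_not_good (r : ℕ) (v : V) (hv : ¬ Good ρ r v) :
    ∃ U : Finset V, Dense ρ U ∧ U.card ≤ 2 * r + 4 ∧
      ∀ x ∈ U, ∃ w : List (Fin 2), w.length ≤ r + 1 ∧ act ρ v w = x := by
  unfold Good at hv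
  push Not at hv
  obtain ⟨w, w', hw, hw', hact, hne⟩ := hv
  obtain ⟨p, b, b', e1, e2, hb, hh⟩ := f14_strip_first w w' hne
  obtain ⟨a, a', c, e3, e4, ha, hl⟩ := f14_strip_last b.length b b' le_rfl hb
  subst e3 e4
  have hh' := f14_head_append a a' c hh
  have hlw : (p ++ (a ++ c)).length ≤ r + 1 := by rw [← e1]; exact hw
  have hlw' : (p ++ (a' ++ c)).length ≤ r + 1 := by rw [← e2]; exact hw'
  simp only [List.length_append] at hlw hlw'
  have hact' : act ρ (act ρ v p) a = act ρ (act ρ v p) a' := by
    rw [e1, e2, act_append, act_append, act_append, act_append] at hact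
    exact (act_bijective ρ c).1 hact
  refine ⟨walkSet ρ (act ρ v p) a ∪ walkSet ρ (act ρ v p) a',
    dense_of_reduced ρ _ a a' ha hact' hh' hl, ?_, ?_⟩
  · have h1 := f14_card_walkSet ρ (act ρ v p) a
    have h2 := f14_card_walkSet ρ (act ρ v p) a'
    have h3 := Finset.card_union_le (walkSet ρ (act ρ v p) a) (walkSet ρ (act ρ v p) a')
    omega
  · intro x hx
    rw [Finset.mem_union] at hx
    rcases hx with hx | hx
    · unfold walkSet at hx
      rw [Finset.mem_image] at hx
      obtain ⟨j, hj, rfl⟩ := hx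
      refine ⟨p ++ a.take j, ?_, act_append ρ v _ _⟩
      simp only [List.length_append, List.length_take]
      omega
    · unfold walkSet at hx
      rw [Finset.mem_image] at hx
      obtain ⟨j, hj, rfl⟩ := hx
      refine ⟨p ++ a'.take j, ?_, act_append ρ v _ _⟩
      simp only [List.length_append, List.length_take]
      omega

end H98T
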