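import Pool.Agent.Lib.H98T.F13
import Pool.Agent.Lib.H98T.F14

/-!
# H98T F15 (S): few vertices are not good
-/

namespace H98T

open Finset

variable {V : Type*} [Fintype V] [DecidableEq V] (ρ : Fin 2 → Equiv.Perm V)

open Classical in
/-- `exists_hitting` for `Dense ρ`, `t = 2 r + 4`: a set `Z`, `|Z| ≤ (2 r + 4) k`.  For `v` not good
the dense set of `exists_dense_of_not_good` meets `Z`, so `act v w ∈ Z` for a word of length
`≤ r + 1`.  For every `z` at most `2^(r+2)` vertices `v` (`card_filter_act_le`). -/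
theorem card_not_good_le (r k : ℕ) (h : Few (Dense ρ) (2 * r + 4) k) :
    (Finset.univ.filter (fun v => ¬ Good ρ r v)).card ≤ 2 ^ (r + 2) * ((2 * r + 4) * k) := by
  obtain ⟨Z, hZ, hmeet⟩ := exists_hitting (Dense ρ) (2 * r + 4) k h
  have hsub : Finset.univ.filter (fun v => ¬ Good ρ r v) ⊆
      Z.biUnion (fun z => Finset.univ.filter (fun v => ∃ w : List (Fin 2), w.length ≤ r + 1 ∧ act ρ v w = z)) := by
    intro v hv
    rw [mem_filter] at hv
    obtain ⟨U, hU, hUc, hUw⟩ := exists_dense_of_not_good ρ r v hv.2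
    obtain ⟨z, hz⟩ := hmeet U hU hU.1 hUc
    rw [mem_inter] at hz
    rw [mem_biUnion]
    exact ⟨z, hz.2, by rw [mem_filter]; exact ⟨mem_univ _, hUw z hz.1⟩⟩
  refine (card_le_card hsub).trans (card_biUnion_le.trans ?_)
  have h1 : ∀ z ∈ Z, (Finset.univ.filter (fun v => ∃ w : List (Fin 2), w.length ≤ r + 1 ∧ act ρ v w = z)).card ≤ 2 ^ (r + 2) :=
    fun z _ => card_filter_act_le ρ (r + 1) z _ (fun v hv => (mem_filter.mp hv).2)
  refine (sum_le_sum h1).trans ?_
  rw [sum_const, smul_eq_mul, mul_comm]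
  exact Nat.mul_le_mul_left _ hZ

end H98T
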