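import Pool.Agent.Lib.H98T.F16
import Pool.Agent.Lib.H98T.F13

/-!
# H98T F17 (M): a spanning tree containing almost all pointer edges (F7)
-/

namespace H98T

open Finset

variable {V : Type*} [Fintype V] [DecidableEq V] {ρ : Fin 2 → Equiv.Perm V} (P : PForest ρ)

omit [Fintype V] [DecidableEq V] in
/-- The pointer edge of `v` ends at `v`. -/
theorem PForest.ptr_end (v : V) : ρ (P.ptr v).1 (P.ptr v).2 = v := by
  simp [PForest.ptr, PForest.next]

omit [Fintype V] [DecidableEq V] in
theorem PForest.ptr_injective : Function.Injective P.ptr := by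
  intro v v' h
  rw [← P.ptr_end v, ← P.ptr_end v', h]

/-- `U` is closed: nonempty and `next x ∈ U` for `x ∈ U`. -/
def PForest.Closed (U : Finset V) : Prop := U.Nonempty ∧ ∀ x ∈ U, P.next x ∈ U

/-- A closed set is dense: the edges `ptr x`, `x ∈ U`, are inside `U` and different. -/
theorem PForest.Closed.dense {U : Finset V} (h : P.Closed U) : Dense ρ U := by
  refine ⟨h.1, ?_⟩
  have h1 : U.image P.ptr ⊆ inside ρ Finset.univ U := by
    intro e he
    rw [mem_image] at he
    obtain ⟨x, hx, rfl⟩ := he
    simp only [inside, mem_filter, mem_univ, true_and]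
    exact ⟨h.2 x hx, by rw [P.ptr_end x]; exact hx⟩
  have h2 := card_le_card h1
  rwa [card_image_of_injective _ P.ptr_injective] at h2

/-- If `R` meets every closed set then the pointer edges of the `v ∉ R` form a forest: the ones
inside a nonempty `U` are the `ptr v` with `v ∈ U \ R`, `next v ∈ U`; if there are `|U|` of them
then `U` is closed and disjoint from `R`. -/
theorem PForest.isForest_ptr (R : Finset V) (hR : ∀ U, P.Closed U → (U ∩ R).Nonempty) :
    IsForest ρ ((Finset.univ \ R).image P.ptr) := by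
  intro U hU
  have h1 : inside ρ ((Finset.univ \ R).image P.ptr) U ⊆ ((U \ R).filter (fun x => P.next x ∈ U)).image P.ptr := by
    intro e he
    simp only [inside, mem_filter, mem_image, mem_sdiff, mem_univ, true_and] at he ⊢
    obtain ⟨⟨x, hx, rfl⟩, h2, h3⟩ := he
    rw [P.ptr_end x] at h3
    exact ⟨x, ⟨⟨h3, hx⟩, h2⟩, rfl⟩
  have h2 := card_le_card h1
  rw [card_image_of_injective _ P.ptr_injective] at h2
  have h3 : (U \ R).filter (fun x => P.next x ∈ U) ⊆ U := fun x hx => (mem_sdiff.mp (mem_filter.mp hx).1).1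
  by_contra hcon
  push Not at hcon
  have h4 : (U \ R).filter (fun x => P.next x ∈ U) = U :=
    eq_of_subset_of_card_le h3 (hcon.trans h2)
  have h5 : P.Closed U := by
    refine ⟨hU, fun x hx => ?_⟩
    rw [← h4] at hx
    exact (mem_filter.mp hx).2
  obtain ⟨x, hx⟩ := hR U h5
  rw [mem_inter] at hx
  have h6 := hx.1
  rw [← h4] at h6
  exact (mem_sdiff.mp (mem_filter.mp h6).1).2 hx.2

/-- There is a set `R` meeting all closed sets with `t |R| ≤ t k + |V|` if there are fewer than
`k` disjoint dense sets of size `≤ t`.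
Proof: let `𝒞` be the family of the minimal closed sets (closed, no proper closed subset).  Two
different members are disjoint (a nonempty intersection of closed sets is closed).  Every closed
set contains a minimal one.  `R` = one element of every member of `𝒞`.  The members of size `≤ t`
are fewer than `k` (`Closed.dense`), the others are at most `|V| / t` in number, being disjoint. -/
theorem PForest.exists_hit_closed (t k : ℕ) (h : Few (Dense ρ) t k) :
    ∃ R : Finset V, (∀ U, P.Closed U → (U ∩ R).Nonempty) ∧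
      t * R.card ≤ t * k + Fintype.card V := by
  classical
  let C : Finset (Finset V) := Finset.univ.filter (fun U => P.Closed U ∧ ∀ W, W ⊆ U → P.Closed W → W = U)
  have hC : ∀ U, U ∈ C ↔ P.Closed U ∧ ∀ W, W ⊆ U → P.Closed W → W = U := fun U => by simp [C]
  have hint : ∀ U W : Finset V, P.Closed U → P.Closed W → (U ∩ W).Nonempty → P.Closed (U ∩ W) := by
    intro U W hU hW hne
    refine ⟨hne, fun x hx => ?_⟩
    rw [mem_inter] at hx ⊢
    exact ⟨hU.2 x hx.1, hW.2 x hx.2⟩
  have hdisj : ∀ U ∈ C, ∀ W ∈ C, U ≠ W → Disjoint U W := by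
    intro U hU W hW hne
    rw [hC] at hU hW
    by_contra hcon
    rw [disjoint_iff_inter_eq_empty] at hcon
    have h1 := hint U W hU.1 hW.1 (nonempty_iff_ne_empty.mpr hcon)
    exact hne ((hU.2 _ inter_subset_left h1).symm.trans (hW.2 _ inter_subset_right h1))
  have hmin : ∀ U, P.Closed U → ∃ W ∈ C, W ⊆ U := by
    intro U hU
    have hne : (Finset.univ.filter (fun W => P.Closed W ∧ W ⊆ U)).Nonempty := ⟨U, by simp [hU]⟩
    obtain ⟨W, hW, hWmin⟩ := exists_min_image _ Finset.card hne
    rw [mem_filter] at hW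
    refine ⟨W, ?_, hW.2.2⟩
    rw [hC]
    refine ⟨hW.2.1, fun W' hW' hc => ?_⟩
    refine eq_of_subset_of_card_le hW' ?_
    exact hWmin W' (by rw [mem_filter]; exact ⟨mem_univ _, hc, hW'.trans hW.2.2⟩)
  have hne : ∀ U : C, (U.1).Nonempty := fun U => ((hC U.1).mp U.2).1.1
  refine ⟨C.attach.image (fun U => (hne U).choose), ?_, ?_⟩
  · intro U hU
    obtain ⟨W, hW, hWU⟩ := hmin U hU
    refine ⟨(hne ⟨W, hW⟩).choose, ?_⟩
    rw [mem_inter]
    refine ⟨hWU (hne ⟨W, hW⟩).choose_spec, ?_⟩
    rw [mem_image]
    exact ⟨⟨W, hW⟩, mem_attach _ _, rfl⟩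
  · have h1 : (C.attach.image (fun U => (hne U).choose)).card ≤ C.card := by
      refine card_image_le.trans ?_
      rw [card_attach]
    have h2 : C.card = (C.filter (fun U => U.card ≤ t)).card + (C.filter (fun U => ¬ U.card ≤ t)).card :=
      (card_filter_add_card_filter_not _).symm
    have h3 : (C.filter (fun U => U.card ≤ t)).card < k := by
      refine h _ (fun U hU => ?_) ?_
      · rw [mem_filter, hC] at hU
        exact ⟨PForest.Closed.dense P hU.1.1, hU.2⟩
      · intro U hU W hW hne
        have hU' := (mem_filter.mp (mem_coe.mp hU)).1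
        have hW' := (mem_filter.mp (mem_coe.mp hW)).1
        exact hdisj U hU' W hW' hne
    have h4 : (C.filter (fun U => ¬ U.card ≤ t)).card * t ≤ Fintype.card V := by
      have h5 : (C.filter (fun U => ¬ U.card ≤ t)).card * t ≤ ∑ U ∈ C.filter (fun U => ¬ U.card ≤ t), U.card := by
        rw [← smul_eq_mul]
        refine card_nsmul_le_sum _ _ _ (fun U hU => ?_)
        have := (mem_filter.mp hU).2
        omega
      refine h5.trans ?_
      have h6 : ((C.filter (fun U => ¬ U.card ≤ t)).biUnion id).card = ∑ U ∈ C.filter (fun U => ¬ U.card ≤ t), (id U).card := by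
        refine card_biUnion (fun U hU W hW hne => ?_)
        exact hdisj U (mem_filter.mp hU).1 W (mem_filter.mp hW).1 hne
      simp only [id] at h6
      rw [← h6]
      exact card_le_univ _
    have h7 : t * (C.attach.image (fun U => (hne U).choose)).card ≤ t * C.card := Nat.mul_le_mul_left _ h1
    have h8 : t * (C.filter (fun U => U.card ≤ t)).card ≤ t * k := Nat.mul_le_mul_left _ h3.le
    rw [h2, mul_add] at h7
    have h9 : t * (C.filter (fun U => ¬ U.card ≤ t)).card ≤ Fintype.card V := by rw [mul_comm]; exact h4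
    omega

/-- SPANNING TREE (F7 of PROOF.md).  With `R` from `exists_hit_closed`, `isForest_ptr` and
`exists_spanTree_of_forest` (`transitive_of_expand`): `F ⊇ ptr (V \ R)`.  As `|F| = |V| - 1` and
`ptr` is injective, `|F \ ptr V| ≤ |F| - |ptr (V \ R)| ≤ |V| - 1 - (|V| - |R|) ≤ |R|`. -/
theorem PForest.exists_spanTree [Nonempty V] (hexp : Expand ρ) (t k : ℕ)
    (h : Few (Dense ρ) t k) :
    ∃ F : Finset (Fin 2 × V), IsSpanTree ρ F ∧
      t * (F \ Finset.univ.image P.ptr).card ≤ t * k + Fintype.card V := by
  obtain ⟨R, hR, hRc⟩ := P.exists_hit_closed t k h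
  obtain ⟨F, hF0, hF⟩ := exists_spanTree_of_forest ρ (P.isForest_ptr R hR) (transitive_of_expand ρ hexp)
  refine ⟨F, hF, le_trans (Nat.mul_le_mul_left _ ?_) hRc⟩
  have h1 : F \ Finset.univ.image P.ptr ⊆ F \ (Finset.univ \ R).image P.ptr :=
    sdiff_subset_sdiff (Subset.refl _) (image_subset_image (subset_univ _))
  have h2 := card_le_card h1
  have h3 := card_sdiff_add_card_eq_card hF0
  rw [card_image_of_injective _ P.ptr_injective] at h3
  have h4 : (Finset.univ \ R).card + R.card = Fintype.card V := by
    rw [card_sdiff_add_card_eq_card (subset_univ R)]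
    rfl
  have h5 := hF.2
  omega

end H98T
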