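import Mathlib
import Pool.Agent.Lib.H98T.F15
import Pool.Agent.Lib.H98T.F17

set_option autoImplicit false

/-!
# H98T.Z23: the spanning tree and the exceptional edges
-/

namespace H98T

open Finset

variable {V : Type} [Fintype V] [DecidableEq V]

open Classical in
/-- Z23. THE TREE: `PForest.exists_spanTree` and `card_not_good_le` (`Few.mono`), as real numbers. -/
theorem exists_tree {ρ : Fin 2 → Equiv.Perm V} [Nonempty V] (P : PForest ρ) (r t4 k : ℕ) (ht : 2 * r + 4 ≤ t4) (hexp : Expand ρ)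
    (h : Few (Dense ρ) t4 k) :
    ∃ F : Finset (Fin 2 × V), IsSpanTree ρ F ∧
      ((F \ univ.image P.ptr).card : ℝ) + (univ.filter (fun v => ¬ Good ρ r v)).card ≤
        (1 + 2 ^ (r + 2) * (2 * r + 4)) * k + Fintype.card V / t4 := by
  obtain ⟨F, hF, hFc⟩ := P.exists_spanTree hexp t4 k h
  refine ⟨F, hF, ?_⟩
  have h1 := card_not_good_le ρ r k (Few.mono h ht le_rfl)
  have h2 : ((univ.filter (fun v => ¬ Good ρ r v)).card : ℝ) ≤ 2 ^ (r + 2) * ((2 * r + 4) * k) := by
    exact_mod_cast h1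
  have h3 : (t4 : ℝ) * ((F \ univ.image P.ptr).card : ℝ) ≤ t4 * k + Fintype.card V := by
    exact_mod_cast hFc
  have ht4 : (0 : ℝ) < t4 := by
    have : 0 < t4 := by omega
    exact_mod_cast this
  have h4 : ((F \ univ.image P.ptr).card : ℝ) ≤ k + Fintype.card V / t4 := by
    have h5 : ((F \ univ.image P.ptr).card : ℝ) =
        (t4 * ((F \ univ.image P.ptr).card : ℝ)) / t4 := by
      field_simp
    rw [h5]
    have h6 : (k : ℝ) + Fintype.card V / t4 = (t4 * k + Fintype.card V) / t4 := by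
      field_simp
    rw [h6]
    exact div_le_div_of_nonneg_right h3 ht4.le
  have h7 : (1 + 2 ^ (r + 2) * (2 * (r : ℝ) + 4)) * k = k + 2 ^ (r + 2) * ((2 * r + 4) * k) := by
    ring
  rw [h7]
  linarith

end H98T
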