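import Mathlib
import Pool.Agent.Lib.H98T.S04
import Pool.Agent.Lib.H98T.SDefs

set_option autoImplicit false

/-!
# H98T.Z20: darts carrying edges
-/

namespace H98T

open Finset

variable {V : Type} {g : ℕ} [Fintype V] [DecidableEq V]

omit [Fintype V] in
/-- Z20a. Chunk Z20 (size S). A dart carries an edge of `F` iff it carries one of the edges `f ∈ F` (unfold `FD`, `Fside`). -/
theorem FD_iff (hg : 2 ≤ g) (σ : Fin (2 * g) → Equiv.Perm V) (F : Finset (Fin 2 × V)) (e : Dart (Nd g V)) :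
    FD hg σ F e ↔ ∃ f ∈ F, FD hg σ {f} e := by
  constructor
  · rintro ⟨s, h1, i, h2, h3, h4⟩
    exact ⟨(i, edgeV σ (e.1.1, s)), h4, s, h1, i, h2, h3, mem_singleton_self _⟩
  · rintro ⟨f, hf, s, h1, i, h2, h3, h4⟩
    rw [mem_singleton] at h4
    exact ⟨s, h1, i, h2, h3, by rw [h4]; exact hf⟩

/-- Z20b. Chunk Z20 (size M). An edge `f = (i, v)` is carried by at most two darts.  If `FD hg σ {f} e` then `sideOf hg e.1.2 e.2 = some s` with `s.val < 4`, `s.val % 2 = i`, so `s = i` or `s = i + 2`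
(as numbers) and `edgeV σ (e.1.1, s) = v` gives `e.1.1 = (u σ s)⁻¹ v` or `(u σ (s + 1))⁻¹ v`; `(e.1.2, e.2) = dartOf hg s` (`dartOf_sideOf`).  So `e` is one of two darts. -/
theorem FD_two (hg : 2 ≤ g) (σ : Fin (2 * g) → Equiv.Perm V) (f : Fin 2 × V) : {e : Dart (Nd g V) | FD hg σ {f} e}.ncard ≤ 2 := by
  obtain ⟨i, v⟩ := f
  have hi := i.isLt
  set s1 : Fin (4 * g) := ⟨i.val, by omega⟩ with hs1
  set s2 : Fin (4 * g) := ⟨i.val + 2, by omega⟩ with hs2
  have hsub : {e : Dart (Nd g V) | FD hg σ {(i, v)} e} ⊆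
      {((((u σ s1.val)⁻¹ v, (dartOf hg s1).1), (dartOf hg s1).2) : Dart (Nd g V)), ((((u σ (s2.val + 1))⁻¹ v, (dartOf hg s2).1), (dartOf hg s2).2) : Dart (Nd g V))} := by
    rintro e ⟨s, h1, i', h2, h3, h4⟩
    rw [mem_singleton, Prod.mk.injEq] at h4
    obtain ⟨rfl, h5⟩ := h4
    have h6 := dartOf_sideOf hg _ _ _ h1
    simp only at h2 h3
    have h7 : s = s1 ∨ s = s2 := by
      have : s.val = i'.val ∨ s.val = i'.val + 2 := by omega
      rcases this with h | h
      · exact Or.inl (Fin.ext h)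
      · exact Or.inr (Fin.ext h)
    unfold edgeV at h5
    rcases h7 with rfl | rfl
    · left
      have h8 : s1.val % 4 < 2 := by show i'.val % 4 < 2; omega
      rw [if_pos h8] at h5
      simp only at h5
      refine Prod.ext (Prod.ext ?_ ?_) ?_
      · show e.1.1 = (u σ s1.val)⁻¹ v
        rw [← h5]
        exact ((u σ s1.val).symm_apply_apply _).symm
      · show e.1.2 = (dartOf hg s1).1
        rw [h6]
      · show e.2 = (dartOf hg s1).2
        rw [h6]
    · right
      have h8 : ¬ s2.val % 4 < 2 := by show ¬ (i'.val + 2) % 4 < 2; omega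
      rw [if_neg h8] at h5
      simp only at h5
      refine Prod.ext (Prod.ext ?_ ?_) ?_
      · show e.1.1 = (u σ (s2.val + 1))⁻¹ v
        rw [← h5]
        exact ((u σ (s2.val + 1)).symm_apply_apply _).symm
      · show e.1.2 = (dartOf hg s2).1
        rw [h6]
      · show e.2 = (dartOf hg s2).2
        rw [h6]
  refine le_trans (Set.ncard_le_ncard hsub (Set.toFinite _)) ?_
  refine le_trans (Set.ncard_insert_le _ _) ?_
  rw [Set.ncard_singleton]

open Classical in
/-- Z20c. Chunk Z20 (size S/M). Weighted count of the darts carrying edges of `E`: `if FD E e then h e ≤ ∑_(f ∈ E) (if FD {f} e then b f)`, exchange the sums, `FD_two`. -/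
theorem FD_sum (hg : 2 ≤ g) (σ : Fin (2 * g) → Equiv.Perm V) (E : Finset (Fin 2 × V)) (h : Dart (Nd g V) → ℝ) (b : Fin 2 × V → ℝ)
    (hb : ∀ f ∈ E, 0 ≤ b f) (hle : ∀ f ∈ E, ∀ e, FD hg σ {f} e → h e ≤ b f) :
    (∑ e : Dart (Nd g V), if FD hg σ E e then h e else 0) ≤ 2 * ∑ f ∈ E, b f := by
  have h1 : ∀ e : Dart (Nd g V), (if FD hg σ E e then h e else 0) ≤ ∑ f ∈ E, if FD hg σ {f} e then b f else 0 := by
    intro e
    have h0 : ∀ f ∈ E, 0 ≤ (if FD hg σ {f} e then b f else 0) := by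
      intro f hf
      split_ifs
      · exact hb f hf
      · exact le_rfl
    split_ifs with h2
    · obtain ⟨f, hf, h3⟩ := (FD_iff hg σ E e).1 h2
      refine le_trans (hle f hf e h3) ?_
      have h4 := Finset.single_le_sum h0 hf
      rw [if_pos h3] at h4
      exact h4
    · exact Finset.sum_nonneg h0
  refine le_trans (Finset.sum_le_sum (fun e _ => h1 e)) ?_
  rw [Finset.sum_comm, Finset.mul_sum]
  apply Finset.sum_le_sum
  intro f hf
  rw [Finset.sum_ite, Finset.sum_const_zero, add_zero, Finset.sum_const, nsmul_eq_mul]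
  apply mul_le_mul_of_nonneg_right _ (hb f hf)
  have h2 := FD_two hg σ f
  have h3 : {e : Dart (Nd g V) | FD hg σ {f} e} = ((univ.filter (fun e => FD hg σ {f} e) : Finset (Dart (Nd g V))) : Set (Dart (Nd g V))) := by
    ext x
    simp
  rw [h3, Set.ncard_coe_finset] at h2
  exact_mod_cast h2

/-- Z20d. Chunk Z20 (size S). (`FD_sum` with `h = b = 1`, or directly.) -/
theorem FD_card (hg : 2 ≤ g) (σ : Fin (2 * g) → Equiv.Perm V) (E : Finset (Fin 2 × V)) :
    {e : Dart (Nd g V) | FD hg σ E e}.ncard ≤ 2 * E.card := by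
  classical
  have h1 : {e : Dart (Nd g V) | FD hg σ E e} = ⋃ f ∈ E, {e : Dart (Nd g V) | FD hg σ {f} e} := by
    ext e
    simp only [Set.mem_iUnion, exists_prop]
    exact FD_iff hg σ E e
  rw [h1]
  refine le_trans (Finset.set_ncard_biUnion_le _ _) ?_
  refine le_trans (Finset.sum_le_sum (fun f _ => FD_two hg σ f)) ?_
  rw [Finset.sum_const, smul_eq_mul, mul_comm]

end H98T
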