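import Mathlib
import Pool.Agent.Lib.H98T.Z20

set_option autoImplicit false

/-!
# H98T.Z24: the numbers of the nontrivial darts in `F`
-/

namespace H98T

open Finset

variable {V : Type} {g : ℕ} [Fintype V] [DecidableEq V]

/-- The trivial `F`-darts: they carry an edge of `F` which is the pointer edge of a vertex which is not a root. -/
def F0D (hg : 2 ≤ g) (σ : Fin (2 * g) → Equiv.Perm V) (P : PForest (two σ)) (F : Finset (Fin 2 × V)) (e : Dart (Nd g V)) : Prop :=
  FD hg σ F e ∧ ∃ v, ¬ P.root v ∧ FD hg σ {P.ptr v} e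

omit [Fintype V] [DecidableEq V] in
/-- Z24a. Chunk Z24 (size S). `FD_dinv` twice. -/
theorem F0D_dinv (hg : 2 ≤ g) (σ : Fin (2 * g) → Equiv.Perm V) (P : PForest (two σ)) (F : Finset (Fin 2 × V)) (e : Dart (Nd g V)) :
    F0D hg σ P F (dinv hg σ e) ↔ F0D hg σ P F e := by
  unfold F0D
  rw [FD_dinv]
  constructor
  · rintro ⟨h1, v, h2, h3⟩
    exact ⟨h1, v, h2, (FD_dinv hg σ _ e).1 h3⟩
  · rintro ⟨h1, v, h2, h3⟩
    exact ⟨h1, v, h2, (FD_dinv hg σ _ e).2 h3⟩

open Classical in
/-- Z24b. Chunk Z24 (size S/M). The nontrivial `F`-darts carry edges of the set `E = (F \ ptr V) ∪ ptr (good roots) ∪ ptr (vertices which are not good)`: an edge `f ∈ F` carried by `e` (`FD_iff`) is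
not in `ptr V`, or `f = ptr v`; then `v` is a root (else `F0D`). -/
theorem FD_cases (hg : 2 ≤ g) (σ : Fin (2 * g) → Equiv.Perm V) (P : PForest (two σ)) (F : Finset (Fin 2 × V)) (r : ℕ) (e : Dart (Nd g V))
    (h : FD hg σ F e) (h0 : ¬ F0D hg σ P F e) :
    FD hg σ (F \ univ.image P.ptr) e ∨ FD hg σ ((univ.filter (fun v => ¬ Good (two σ) r v)).image P.ptr) e ∨
      ∃ x, P.root x ∧ Good (two σ) r x ∧ FD hg σ {P.ptr x} e := by
  obtain ⟨f, hf, h1⟩ := (FD_iff hg σ F e).1 h
  by_cases h2 : f ∈ univ.image P.ptr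
  · rw [mem_image] at h2
    obtain ⟨v, _, rfl⟩ := h2
    right
    have hv : P.root v := by
      by_contra hv
      exact h0 ⟨h, v, hv, h1⟩
    by_cases h3 : Good (two σ) r v
    · exact Or.inr ⟨v, hv, h3, h1⟩
    · left
      rw [FD_iff]
      exact ⟨P.ptr v, mem_image_of_mem _ (mem_filter.2 ⟨mem_univ _, h3⟩), h1⟩
  · left
    rw [FD_iff]
    exact ⟨f, mem_sdiff.2 ⟨hf, h2⟩, h1⟩

open Classical in
/-- Z24c. Chunk Z24 (size S/M). The number of nontrivial `F`-darts (`FD_cases`, `FD_card`). -/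
theorem n4_le (hg : 2 ≤ g) (σ : Fin (2 * g) → Equiv.Perm V) (P : PForest (two σ)) (F : Finset (Fin 2 × V)) (r : ℕ) :
    {e : Dart (Nd g V) | FD hg σ F e ∧ ¬ F0D hg σ P F e}.ncard ≤
      2 * ((univ.filter (fun v => P.root v ∧ Good (two σ) r v)).card + (F \ univ.image P.ptr).card + (univ.filter (fun v => ¬ Good (two σ) r v)).card) := by
  set E1 := F \ univ.image P.ptr with hE1
  set E2 := (univ.filter (fun v => ¬ Good (two σ) r v)).image P.ptr with hE2
  set E3 := (univ.filter (fun v => P.root v ∧ Good (two σ) r v)).image P.ptr with hE3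
  have hsub : {e : Dart (Nd g V) | FD hg σ F e ∧ ¬ F0D hg σ P F e} ⊆
      ({e : Dart (Nd g V) | FD hg σ E1 e} ∪ {e : Dart (Nd g V) | FD hg σ E2 e}) ∪ {e : Dart (Nd g V) | FD hg σ E3 e} := by
    rintro e ⟨h1, h2⟩
    rcases FD_cases hg σ P F r e h1 h2 with h | h | ⟨x, h3, h4, h5⟩
    · exact Or.inl (Or.inl h)
    · exact Or.inl (Or.inr h)
    · right
      show FD hg σ E3 e
      rw [FD_iff]
      exact ⟨P.ptr x, mem_image_of_mem _ (mem_filter.2 ⟨mem_univ _, h3, h4⟩), h5⟩
  have h1 := Set.ncard_le_ncard hsub (Set.toFinite _)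
  have h2 := Set.ncard_union_le ({e : Dart (Nd g V) | FD hg σ E1 e} ∪ {e : Dart (Nd g V) | FD hg σ E2 e}) {e : Dart (Nd g V) | FD hg σ E3 e}
  have h3 := Set.ncard_union_le {e : Dart (Nd g V) | FD hg σ E1 e} {e : Dart (Nd g V) | FD hg σ E2 e}
  have h4 := FD_card hg σ E1
  have h5 := FD_card hg σ E2
  have h6 := FD_card hg σ E3
  have h7 : E2.card ≤ (univ.filter (fun v => ¬ Good (two σ) r v)).card := card_image_le
  have h8 : E3.card ≤ (univ.filter (fun v => P.root v ∧ Good (two σ) r v)).card := card_image_le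
  omega

open Classical in
/-- Z24d. Chunk Z24 (size M). The sum of the weights `h e` over the nontrivial `F`-darts at polygons outside `C`: `T` for the edges of `F \ ptr V` and for the pointer edges of vertices which are not good, and `s x` for
the pointer edge of a good root `x` (`FD_cases`, `FD_sum` three times with `h' e = if ¬ C e.1.1 then h e else 0`; for the good roots `b f = s v` if `f = ptr v`, `ptr` is injective: `PForest.ptr_injective`, or use
sums over `x` of `if FD {ptr x} e`, each at most `2 s x` by `FD_two`). -/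
theorem n5_le (hg : 2 ≤ g) (σ : Fin (2 * g) → Equiv.Perm V) (P : PForest (two σ)) (F : Finset (Fin 2 × V)) (r : ℕ) (C : V → Prop)
    (h : Dart (Nd g V) → ℝ) (h0 : ∀ e, 0 ≤ h e) (T : ℝ) (hT : 0 ≤ T) (s : V → ℝ) (hs : ∀ x, 0 ≤ s x) (h1 : ∀ e, ¬ C e.1.1 → h e ≤ T)
    (h2 : ∀ x, P.root x → ∀ e, FD hg σ {P.ptr x} e → h e ≤ s x) :
    (∑ e : Dart (Nd g V), if FD hg σ F e ∧ ¬ F0D hg σ P F e ∧ ¬ C e.1.1 then h e else 0) ≤
      2 * (∑ x ∈ univ.filter (fun x => P.root x ∧ Good (two σ) r x), s x) +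
        2 * T * (((F \ univ.image P.ptr).card : ℝ) + (univ.filter (fun v => ¬ Good (two σ) r v)).card) := by
  set E1 := F \ univ.image P.ptr with hE1
  set N := univ.filter (fun v => ¬ Good (two σ) r v) with hN
  set E2 := N.image P.ptr with hE2
  set Rt := univ.filter (fun x => P.root x ∧ Good (two σ) r x) with hRt
  set h' : Dart (Nd g V) → ℝ := fun e => if ¬ C e.1.1 then h e else 0 with hh'
  have h'0 : ∀ e, 0 ≤ h' e := by
    intro e
    by_cases h3 : C e.1.1
    · simp [hh', h3]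
    · simp only [hh', if_pos h3]
      exact h0 e
  have h'T : ∀ e, h' e ≤ T := by
    intro e
    by_cases h3 : C e.1.1
    · simp only [hh', not_true, h3]
      exact hT
    · simp only [hh', if_pos h3]
      exact h1 e h3
  have key : ∀ e : Dart (Nd g V), (if FD hg σ F e ∧ ¬ F0D hg σ P F e ∧ ¬ C e.1.1 then h e else 0) ≤
      (if FD hg σ E1 e then h' e else 0) + (if FD hg σ E2 e then h' e else 0) + ∑ x ∈ Rt, (if FD hg σ {P.ptr x} e then s x else 0) := by
    intro e
    have p1 : 0 ≤ (if FD hg σ E1 e then h' e else 0) := by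
      split_ifs
      · exact h'0 e
      · exact le_rfl
    have p2 : 0 ≤ (if FD hg σ E2 e then h' e else 0) := by
      split_ifs
      · exact h'0 e
      · exact le_rfl
    have p3' : ∀ x ∈ Rt, 0 ≤ (if FD hg σ {P.ptr x} e then s x else 0) := by
      intro x _
      split_ifs
      · exact hs x
      · exact le_rfl
    have p3 := Finset.sum_nonneg p3'
    by_cases h3 : FD hg σ F e ∧ ¬ F0D hg σ P F e ∧ ¬ C e.1.1
    · rw [if_pos h3]
      have h4 : h' e = h e := by simp only [hh']; rw [if_pos h3.2.2]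
      rcases FD_cases hg σ P F r e h3.1 h3.2.1 with h5 | h5 | ⟨x, h5, h6, h7⟩
      · have h8 : (if FD hg σ E1 e then h' e else 0) = h e := by rw [if_pos h5, h4]
        linarith
      · have h8 : (if FD hg σ E2 e then h' e else 0) = h e := by rw [if_pos h5, h4]
        linarith
      · have h8 : x ∈ Rt := mem_filter.2 ⟨mem_univ _, h5, h6⟩
        have h9 := Finset.single_le_sum p3' h8
        rw [if_pos h7] at h9
        have h10 := h2 x h5 e h7
        linarith
    · rw [if_neg h3]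
      linarith
  refine le_trans (Finset.sum_le_sum (fun e _ => key e)) ?_
  rw [Finset.sum_add_distrib, Finset.sum_add_distrib]
  have s1 : (∑ e : Dart (Nd g V), if FD hg σ E1 e then h' e else 0) ≤ 2 * ∑ f ∈ E1, T :=
    FD_sum hg σ E1 h' (fun _ => T) (fun _ _ => hT) (fun _ _ e _ => h'T e)
  have s2 : (∑ e : Dart (Nd g V), if FD hg σ E2 e then h' e else 0) ≤ 2 * ∑ f ∈ E2, T :=
    FD_sum hg σ E2 h' (fun _ => T) (fun _ _ => hT) (fun _ _ e _ => h'T e)
  have s3 : ∑ e : Dart (Nd g V), ∑ x ∈ Rt, (if FD hg σ {P.ptr x} e then s x else 0) ≤ 2 * ∑ x ∈ Rt, s x := by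
    rw [Finset.sum_comm, Finset.mul_sum]
    apply Finset.sum_le_sum
    intro x _
    rw [Finset.sum_ite, Finset.sum_const_zero, add_zero, Finset.sum_const, nsmul_eq_mul]
    apply mul_le_mul_of_nonneg_right _ (hs x)
    have h2 := FD_two hg σ (P.ptr x)
    have h3 : {e : Dart (Nd g V) | FD hg σ {P.ptr x} e} = ((univ.filter (fun e => FD hg σ {P.ptr x} e) : Finset (Dart (Nd g V))) : Set (Dart (Nd g V))) := by
      ext x
      simp
    rw [h3, Set.ncard_coe_finset] at h2
    exact_mod_cast h2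
  rw [Finset.sum_const, nsmul_eq_mul] at s1 s2
  have h7 : (E2.card : ℝ) ≤ N.card := by exact_mod_cast (card_image_le : E2.card ≤ N.card)
  have h8 : (E2.card : ℝ) * T ≤ N.card * T := mul_le_mul_of_nonneg_right h7 hT
  linarith

end H98T
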