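import Mathlib

set_option autoImplicit false

/-!
# H98T.Z25: the choice of the piece length and of the thresholds for dense sets
-/

namespace H98T

/-- Z25. Chunk Z25 (size S/M). CONSTANTS: `ρ` is the side of the pieces of the walls, `b` bounds the multiplicity of the letters, `t3 = b (1 + 16 g 2^r)`.
Take `ρ ≥ 2^(j2+1) CA K M / eta`, `b = ⌈CA ρ^(n-1)⌉`, `t4 ≥ 2 r + 4` and `t4 ≥ 4 * 2^j2 / eta`, `δ` with `2 * 2^j2 (1 + 2^(r+2) (2r+4)) * 2 δ ≤ eta/2` and `2^j2 t3 * 2 δ ≤ eta/2`, `d0 ≥ 1/δ`: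
then `⌈δ d⌉ ≤ δ d + 1 ≤ 2 δ d`. -/
theorem z_constants (n g K r j2 : ℕ) (CA M eta : ℝ) (hCA : 1 ≤ CA) (hM : 1 ≤ M) (heta : 0 < eta) :
    ∃ (ρ b t4 : ℕ) (δ : ℝ), 1 ≤ ρ ∧ 2 ^ j2 * (CA * K * M / ρ) ≤ eta / 2 ∧ CA * (ρ : ℝ) ^ (n - 1) ≤ b ∧ 2 * r + 4 ≤ t4 ∧ 0 < δ ∧
      ∃ d0 : ℕ, ∀ d : ℕ, d0 ≤ d →
        2 * 2 ^ j2 * ((1 + 2 ^ (r + 2) * (2 * (r : ℝ) + 4)) * (⌈δ * d⌉₊ : ℝ) + (d : ℝ) / t4) ≤ eta * d ∧
        2 ^ j2 * (((b * (1 + 16 * g * 2 ^ r) : ℕ) : ℝ) * (⌈δ * d⌉₊ : ℝ)) ≤ eta / 2 * d := by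
  set ρ : ℕ := ⌈2 ^ (j2 + 1) * CA * K * M / eta⌉₊ + 1 with hρ
  set b : ℕ := ⌈CA * (ρ : ℝ) ^ (n - 1)⌉₊ with hb
  set t4 : ℕ := max (2 * r + 4) ⌈8 * 2 ^ j2 / eta⌉₊ with ht4
  set A : ℝ := 2 * 2 ^ j2 * (1 + 2 ^ (r + 2) * (2 * (r : ℝ) + 4)) with hA
  set B : ℝ := 2 ^ j2 * (((b * (1 + 16 * g * 2 ^ r) : ℕ) : ℝ)) with hB
  have hA0 : 0 ≤ A := by positivity
  have hB0 : 0 ≤ B := by positivity
  set δ : ℝ := eta / (4 * (A + B + 1)) with hδ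
  have hδ0 : 0 < δ := by positivity
  have hδA : A * (2 * δ) ≤ eta / 2 := by
    rw [hδ]
    have h1 : 0 < A + B + 1 := by positivity
    rw [show A * (2 * (eta / (4 * (A + B + 1)))) = (A / (A + B + 1)) * (eta / 2) by field_simp; ring]
    have h2 : A / (A + B + 1) ≤ 1 := by rw [div_le_one h1]; linarith
    nlinarith
  have hδB : B * (2 * δ) ≤ eta / 2 := by
    rw [hδ]
    have h1 : 0 < A + B + 1 := by positivity
    rw [show B * (2 * (eta / (4 * (A + B + 1)))) = (B / (A + B + 1)) * (eta / 2) by field_simp; ring]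
    have h2 : B / (A + B + 1) ≤ 1 := by rw [div_le_one h1]; linarith
    nlinarith
  refine ⟨ρ, b, t4, δ, by omega, ?_, Nat.le_ceil _, le_max_left _ _, hδ0, ⌈1 / δ⌉₊ + 1, ?_⟩
  · have h1 : 2 ^ (j2 + 1) * CA * K * M / eta ≤ ρ := by
      rw [hρ]
      push_cast
      have := Nat.le_ceil (2 ^ (j2 + 1) * CA * K * M / eta)
      linarith
    have h2 : (0 : ℝ) < ρ := by rw [hρ]; positivity
    rw [div_le_iff₀ heta] at h1
    rw [mul_div_assoc', div_le_iff₀ h2]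
    have h3 : (2 : ℝ) ^ (j2 + 1) = 2 * 2 ^ j2 := by ring
    rw [h3] at h1
    nlinarith
  · intro d hd
    have hd1 : 1 / δ ≤ d := by
      have h1 := Nat.le_ceil (1 / δ)
      have h2 : ((⌈1 / δ⌉₊ : ℕ) : ℝ) ≤ d := by exact_mod_cast (by omega : ⌈1 / δ⌉₊ ≤ d)
      linarith
    have hd0 : (0 : ℝ) < d := lt_of_lt_of_le (by positivity) hd1
    have hd2 : 1 ≤ δ * d := by
      rw [div_le_iff₀ hδ0] at hd1
      linarith
    have hceil : (⌈δ * d⌉₊ : ℝ) ≤ 2 * δ * d := by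
      have h1 := Nat.ceil_lt_add_one (by positivity : 0 ≤ δ * d)
      linarith
    have ht4pos : (0 : ℝ) < t4 := by
      have : 0 < t4 := by omega
      exact_mod_cast this
    have ht4' : 8 * 2 ^ j2 / eta ≤ t4 := by
      have h9 : ⌈(8 : ℝ) * 2 ^ j2 / eta⌉₊ ≤ t4 := le_max_right _ _
      refine le_trans (Nat.le_ceil _) ?_
      exact Nat.cast_le.2 h9
    have hc0 : (0 : ℝ) ≤ (⌈δ * d⌉₊ : ℝ) := Nat.cast_nonneg _
    constructor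
    · have h1 : A * (⌈δ * d⌉₊ : ℝ) ≤ eta / 2 * d := by
        calc A * (⌈δ * d⌉₊ : ℝ) ≤ A * (2 * δ * d) := mul_le_mul_of_nonneg_left hceil hA0
          _ = A * (2 * δ) * d := by ring
          _ ≤ eta / 2 * d := mul_le_mul_of_nonneg_right hδA hd0.le
      have h2 : 2 * 2 ^ j2 * ((d : ℝ) / t4) ≤ eta / 2 * d := by
        rw [div_le_iff₀ heta] at ht4'
        rw [mul_div_assoc', div_le_iff₀ ht4pos]
        have h3 : 8 * 2 ^ j2 * (d : ℝ) ≤ t4 * eta * d := mul_le_mul_of_nonneg_right ht4' hd0.le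
        have h4 : (0 : ℝ) ≤ 2 ^ j2 * d := by positivity
        nlinarith
      calc 2 * 2 ^ j2 * ((1 + 2 ^ (r + 2) * (2 * (r : ℝ) + 4)) * (⌈δ * d⌉₊ : ℝ) + (d : ℝ) / t4)
          = A * (⌈δ * d⌉₊ : ℝ) + 2 * 2 ^ j2 * ((d : ℝ) / t4) := by rw [hA]; ring
        _ ≤ eta * d := by linarith
    · calc 2 ^ j2 * (((b * (1 + 16 * g * 2 ^ r) : ℕ) : ℝ) * (⌈δ * d⌉₊ : ℝ)) = B * (⌈δ * d⌉₊ : ℝ) := by rw [hB]; ring
        _ ≤ B * (2 * δ * d) := mul_le_mul_of_nonneg_left hceil hB0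
        _ = B * (2 * δ) * d := by ring
        _ ≤ eta / 2 * d := mul_le_mul_of_nonneg_right hδB hd0.le

end H98T
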