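import Mathlib

set_option autoImplicit false

/-!
# H98T, section 10: the parameters

`K` = number of subdivisions of the box, `q`, `r` the parameters of the random forest, `[0, j1)`, `[j1, j2)` the windows for the exponents of `t1`, `t2`; `m0` gives the
parameter `b = m0 t1` of the colouring; `eta` = a small number which absorbs everything that tends to zero with `1/d`.
-/

namespace H98T

/-- `∑ |S(x)| ≤ Aa d`. -/
noncomputable def Aa (CA M : ℝ) (K : ℕ) : ℝ := CA * K * M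

/-- `∑ |S'(x)| ≤ Ap d`. -/
noncomputable def Ap (g : ℕ) (CA M : ℝ) (K r : ℕ) : ℝ := (1 + 32 * g * (r + 1)) * Aa CA M K

/-- Every cell is near at most `kap d` of the sets `R'(x)`. -/
noncomputable def kapp (g n : ℕ) (CA M : ℝ) (K r : ℕ) : ℝ := (1 + 4 * g * (2 * r + 3)) * (CA * M / (K : ℝ) ^ (n - 1))

/-- The thresholds `w1, w2, w4, w5` of `ZCtx`. -/
noncomputable def ww1 (g : ℕ) (CA M : ℝ) (K r j1 : ℕ) : ℝ := 2 * Ap g CA M K r / j1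

noncomputable def ww2 (g : ℕ) (CA M : ℝ) (K r j1 j2 : ℕ) (eta : ℝ) : ℝ := 2 * Ap g CA M K r / ((j2 : ℝ) - j1) + eta

noncomputable def ww4 (q : ℕ) (eta : ℝ) : ℝ := 16 / q + eta

noncomputable def ww5 (CA M : ℝ) (K q r : ℕ) (eta : ℝ) : ℝ := 16 * (r + 2) / q * Aa CA M K + eta

/-- The sum of the lengths of the labels is at most `A1 d`. -/
noncomputable def AA1 (g : ℕ) (CA M : ℝ) (K r : ℕ) : ℝ := 36 * g * (1 + Ap g CA M K r) + 6 + 12 * g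

/-- The bound for the length of a label. -/
def Pmax (j1 m0 : ℕ) : ℕ := 1 + 2 ^ j1 + 6 * (3 * (m0 * 2 ^ j1) + 1) * 2 ^ j1

/-- Good parameters. -/
structure Par (g n : ℕ) (CA M Cg c : ℝ) where
  K : ℕ
  q : ℕ
  r : ℕ
  j1 : ℕ
  j2 : ℕ
  m0 : ℕ
  I : ℕ
  Lam : ℝ
  T : ℝ
  th : ℝ
  eps : ℝ
  X : ℝ
  eta : ℝ
  hK : 2 ≤ K
  hq : 8 ≤ q
  hr : 2 ^ r = q ^ 2
  hj1 : 1 ≤ j1
  hj : j1 < j2
  hm0 : 1 ≤ m0
  heta : 0 < eta
  hLam : 1 ≤ Lam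
  hT1 : 1 ≤ T
  hth : 0 < th
  hthL : th * Lam ≤ 1
  heps : ww5 CA M K q r eta + 4 * g * ww2 g CA M K r j1 j2 eta + 8 * g * Ap g CA M K r / m0 ≤ eps
  hT : 3 * (3 * (m0 * 2 ^ j1) + 1) * Lam * (2 * Pmax j1 m0) ≤ T
  hn1 : 24 * eps * Real.log T ≤ th / 4
  hn2 : 24 * eps * Lam ≤ 1
  hI : 12 * g * Lam * Pmax j1 m0 ≤ 4 ^ I
  hX : 300 * g ^ 2 * (ww1 g CA M K r j1 + ww2 g CA M K r j1 j2 eta) + 720 * g ^ 2 * Ap g CA M K r / m0 + ww4 q eta + ww5 CA M K q r eta ≤ X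
  hLX : Lam * X ≤ 1
  hkap : kapp g n CA M K r ≤ 1
  hgain : 0 ≤ 1 / 2 * Real.log (1 / kapp g n CA M K r) - 3 / 2 * Real.log (AA1 g CA M K r)
  hfin : c + 1 ≤ (4 * g - 4) * (1 / 2 * Real.log (1 / kapp g n CA M K r) - 3 / 2 * Real.log (AA1 g CA M K r)) -
    Cg * (1 + (AA1 g CA M K r / Lam + 2 * (ww4 q eta + 12 * g * X)) *
        (Real.log (2 * ((K : ℝ) ^ n + 1)) + Real.log (1 / kapp g n CA M K r) + Real.log (AA1 g CA M K r)) +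
      (2 * th * I + ww4 q eta) * (Real.log ((K : ℝ) ^ n + 2) + Real.log ((Pmax j1 m0 : ℝ) + 2)))

end H98T
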