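import Mathlib
import Pool.Agent.Lib.H98T.ZL
import Pool.Agent.Lib.H98T.ZPar
import Pool.Agent.Lib.H98T.Z01
import Pool.Agent.Lib.H98T.Z22
import Pool.Agent.Lib.H98T.Z23
import Pool.Agent.Lib.H98T.Z24
import Pool.Agent.Lib.H98T.Z25
import Pool.Agent.Lib.H98T.GM
import Pool.Agent.Lib.H98T.GE4
import Pool.Agent.Lib.H98T.GE5
import Pool.Agent.Lib.H98T.GE7
import Pool.Agent.Lib.H98T.WA4
import Pool.Agent.Lib.H98T.S08
import Pool.Agent.Lib.H98T.S10C
import Pool.Agent.Lib.H98T.F13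

set_option autoImplicit false

/-!
# H98T.Z09: the context of the assembly exists
-/

namespace H98T

open Finset

/-- Letters of a net of words. -/
theorem z09_mem {Y : Type} [DecidableEq Y] (w : FreeGroup Y) (l : List Y) (h : l = w.toWord.map Prod.fst) (y : Y) (hy : y ∈ l) :
    ∃ t, (y, t) ∈ w.toWord := by
  rw [h, List.mem_map] at hy
  obtain ⟨⟨y', t⟩, h1, h2⟩ := hy
  subst h2
  exact ⟨t, h1⟩

theorem z09_inst {Y : Type} (i1 i2 : DecidableEq Y) (w : FreeGroup Y) : @FreeGroup.toWord Y i1 w = @FreeGroup.toWord Y i2 w := by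
  rw [Subsingleton.elim i1 i2]

theorem z09_n2 (t m s a j d : ℝ) (hj : 1 ≤ j) (h1 : t * m * j ≤ 2 * s) (h2 : s ≤ a * d) : t * m ≤ 2 * a / j * d := by
  have hj0 : 0 < j := by linarith
  rw [show 2 * a / j * d = (2 * a * d) / j by ring, le_div_iff₀ hj0]
  linarith

theorem z09_n3 (t m s a d j1 j2 : ℝ) (hj : j1 < j2) (h1 : t * m * (j2 - j1) ≤ 2 * s) (h2 : s ≤ a * d) : t * m ≤ 2 * a / (j2 - j1) * d := by
  have hj0 : 0 < j2 - j1 := by linarith
  rw [show 2 * a / (j2 - j1) * d = (2 * a * d) / (j2 - j1) by ring, le_div_iff₀ hj0]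
  linarith

theorem z09_P {g : ℕ} {V : Type*} {σ : Fin (2 * g) → Equiv.Perm V} {n C0 W : ℕ} (D : DigiData σ n C0 W) (hg : 2 ≤ g) (v : V) : D.P v ∈ Touch D v := by
  have h := corner_mem D v (⟨0, by omega⟩ : Fin (4 * g))
  exact h

theorem z09_kd (κ c : ℝ) (hκ : 0 < κ) : ∃ d3 : ℕ, ∀ d : ℕ, d3 ≤ d → c ≤ κ ^ 2 * d := by
  refine ⟨⌈c / κ ^ 2⌉₊, fun d hd => ?_⟩
  have h1 : c / κ ^ 2 ≤ d := le_trans (Nat.le_ceil _) (by exact_mod_cast hd)
  rw [div_le_iff₀ (by positivity)] at h1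
  linarith

theorem exists_ctx (n g C0 : ℕ) (hn : 5 ≤ n) (hg : 2 ≤ g) : ∃ CA : ℝ, 1 ≤ CA ∧ ∀ (M eta : ℝ) (K q r j1 j2 : ℕ), 1 ≤ M → 0 < eta →
    2 ≤ K → 8 ≤ q → 2 ^ r = q ^ 2 → 1 ≤ j1 → j1 < j2 →
    ∃ (t3 t4 : ℕ) (δ : ℝ), 0 < δ ∧ ∃ d0 : ℕ, ∀ d : ℕ, d0 ≤ d → ∀ σ : Fin (2 * g) → Equiv.Perm (Fin d), IsCov σ → Expand (two σ) →
      Few (Dense (two σ)) t4 ⌈δ * d⌉₊ → (∀ F : Finset (Fin 2 × Fin d), IsSpanTree (two σ) F → Few (FDense σ F) t3 ⌈δ * d⌉₊) →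
      ∀ W : ℕ, (W : ℝ) ^ (n - 1) ≤ M * d → Digi σ n C0 W →
        ∃ F : Finset (Fin 2 × Fin d), IsSpanTree (two σ) F ∧ ∃ Z : ZCtx hg σ F (Lt n K),
          (∃ t, t < j1 ∧ Z.t1 = 2 ^ t) ∧ Z.Ap = Ap g CA M K r ∧ Z.w1 = ww1 g CA M K r j1 ∧ Z.w2 = ww2 g CA M K r j1 j2 eta ∧
          Z.w4 = ww4 q eta ∧ Z.w5 = ww5 CA M K q r eta ∧ Nonempty (LCtx Z (Cell n K) (kapp g n CA M K r)) := by
  classical
  obtain ⟨CA, hCA, hgeo⟩ := geometry n g C0 (by omega) hg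
  refine ⟨CA, hCA, ?_⟩
  intro M eta K q r j1 j2 hM heta hK hq hr hj1 hj
  obtain ⟨ρ, b, t4, δ, hρ, hc1, hc2, hc3, hδ, d1, hc4⟩ := z_constants n g K r j2 CA M eta hCA hM heta
  obtain ⟨d2, hd2⟩ := hgeo M K ρ hM hK hρ
  have hKpos : (0 : ℝ) < K := by exact_mod_cast (by omega : 0 < K)
  have hqpos : (0 : ℝ) < q := by exact_mod_cast (by omega : 0 < q)
  set κ : ℝ := CA * M / (K : ℝ) ^ (n - 1) with hκ
  have hκ0 : 0 < κ := by rw [hκ]; positivity
  obtain ⟨d3, hd3⟩ := z09_kd κ (4 * (Fintype.card (Cell n K) : ℝ) * (4 ^ (r + 1) * (r + 1) ^ 2)) hκ0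
  refine ⟨b * (1 + 16 * g * 2 ^ r), t4, δ, hδ, max d1 (max d2 (max d3 1)), ?_⟩
  intro d hd σ hcov hexp hdense hfdense W hW hD
  obtain ⟨D⟩ := hD
  have hdd1 : d1 ≤ d := le_trans (le_max_left _ _) hd
  have hdd2 : d2 ≤ d := le_trans (le_trans (le_max_left _ _) (le_max_right _ _)) hd
  have hdd3 : d3 ≤ d := le_trans (le_trans (le_max_left _ _) (le_trans (le_max_right _ _) (le_max_right _ _))) hd
  have hdd4 : 1 ≤ d := le_trans (le_trans (le_max_right _ _) (le_trans (le_max_right _ _) (le_max_right _ _))) hd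
  have hne : Nonempty (Fin d) := ⟨⟨0, hdd4⟩⟩
  obtain ⟨hc4, hc5⟩ := hc4 d hdd1
  obtain ⟨B, hSf, hSs, hSm, hBad, hR⟩ := hd2 d hdd2 σ W hexp hW D
  have hcd : Fintype.card (Fin d) = d := Fintype.card_fin d
  -- the forest
  obtain ⟨P, hPr, hPg, hProots, hPs, hPS, hPR⟩ := exists_forest σ q r hq hr (Sx D B ρ) (Rx D B) (CA * K * M) κ hκ0 hSf
    (by rw [hcd]; exact hSs) (by intro c; rw [hcd]; exact hR c) (by rw [hcd]; exact hd3 d hdd3)
  rw [hcd] at hProots hPs hPS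
  -- the tree
  obtain ⟨F, hF, hFx⟩ := exists_tree P r t4 ⌈δ * d⌉₊ hc3 hexp hdense
  rw [hcd] at hFx
  -- the hitting set
  obtain ⟨Z3, hZ3c, hZ3⟩ := exists_hitting (FDense σ F) (b * (1 + 16 * g * 2 ^ r)) ⌈δ * d⌉₊ (hfdense F hF)
  set S' : Fin d → Set (Lt n K) := GS σ P (Sx D B ρ) with hS'
  have hS'fin : ∀ x, (S' x).Finite := GS_finite σ P (Sx D B ρ) hSf
  have hmult : ∀ y, {x | y ∈ S' x}.ncard ≤ b * (1 + 16 * g * 2 ^ r) := by
    intro y
    apply mult_GS σ P (Sx D B ρ) y b r hPr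
    have h1 : ({x | y ∈ Sx D B ρ x}.ncard : ℝ) ≤ b := le_trans (hSm y) hc2
    exact_mod_cast h1
  obtain ⟨i1, -, hi1, hw1⟩ := window (fun x => (S' x).ncard) 0 j1 (by omega)
  obtain ⟨i2, hi2, hi2', hw2⟩ := window (fun x => (S' x).ncard) j1 j2 hj
  -- the cut polygons
  set cutP : Fin d → Prop := fun x => Bad D B ρ x ∨ 2 ^ i2 ≤ (S' x).ncard ∨ x ∈ Z3 with hcutP
  -- the gauged net
  obtain ⟨wd, st, hwinv, hwrel, hwalk, hstinv, hptr, hlet, hroot, hst⟩ := gauge_net hg σ hcov lsrc ltgt (ew D B ρ) (fun v => B.Q (D.P v))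
    (fun k v => walk_ew D B ρ k v) (Bad D B ρ) (fun x hx => polygon_rel D B ρ x hx) (Sx D B ρ) (fun x s y h => letters_side D B ρ x s y h) P
  obtain ⟨N, hNinv, hNcut, hNF, hNword, hNleg, hNtake⟩ := net_of_words (dinv hg σ) (dinv_dinv hg σ) (dinv_ne hg σ)
    (fun z => cutP z.1) (FD hg σ F) (FD_dinv hg σ F) wd hwinv
    (fun z hz => hwrel z.1 z.2 (fun h => hz (Or.inl h)))
  have hNmem : ∀ e y, y ∈ N.word e → ∃ t, (y, t) ∈ (wd e).toWord := fun e y hy => z09_mem (wd e) (N.word e) (hNword e) y hy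
  have hNmemS : ∀ e y, y ∈ N.word e → y ∈ S' e.1.1 := fun e y hy => hlet e y (hNmem e y hy)
  have hAC : N.AC := by
    apply net_AC hg σ F N hNinv cutP _ _ S' hNmemS (b * (1 + 16 * g * 2 ^ r)) hmult
    · intro U hU hUc
      obtain ⟨x, hx⟩ := hZ3 U hU hU.1 hUc
      rw [Finset.mem_inter] at hx
      exact ⟨x, hx.1, Or.inr (Or.inr hx.2)⟩
    · intro z; rw [hNcut]
    · intro e; rw [hNF]
  have hpow : (1 : ℝ) ≤ 2 ^ j2 := one_le_pow₀ (by norm_num)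
  have hdpos : (0 : ℝ) < d := by exact_mod_cast hdd4
  -- letters of uncut darts
  have hTle : ∀ e : Dart (Nd g (Fin d)), ¬ cutP e.1.1 → (({y | y ∈ N.word e}.ncard : ℕ) : ℝ) ≤ 2 ^ j2 := by
    intro e he
    have h1 : {y | y ∈ N.word e}.ncard ≤ (S' e.1.1).ncard := Set.ncard_le_ncard (fun y hy => hNmemS e y hy) (hS'fin _)
    have h2 : (S' e.1.1).ncard < 2 ^ i2 := by
      by_contra hcon
      push Not at hcon
      exact he (Or.inr (Or.inl hcon))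
    have h3 : {y | y ∈ N.word e}.ncard ≤ 2 ^ j2 := le_trans h1 (le_trans h2.le (Nat.pow_le_pow_right (by norm_num) hi2'.le))
    exact_mod_cast h3
  have hApn : 0 ≤ Ap g CA M K r := by unfold Ap Aa; positivity
  refine ⟨F, hF, ⟨N, hNinv, hNF, hAC, cutP, ?_, S', hS'fin, hNmemS, F0D hg σ P F, ?_, ?_, ?_, 2 ^ i1, 2 ^ i2, Nat.one_le_two_pow, ?_, ?_,
    Ap g CA M K r, ww1 g CA M K r j1, ww2 g CA M K r j1 j2 eta, ww4 q eta, ww5 CA M K q r eta, ?_, ?_, ?_, ?_, ?_, ?_⟩, ⟨i1, hi1, rfl⟩, rfl, rfl, rfl, rfl, rfl, ⟨?_⟩⟩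
  · intro z; rw [hNcut]
  · intro e he; rw [hNF]; exact he.1
  · rintro e ⟨he, v, hv, hve⟩
    have h1 := hptr v hv e hve
    rw [hNword, h1]
    simp
  · intro e; rw [hNinv]; exact F0D_dinv hg σ P F e
  · exact Nat.pow_le_pow_right (by norm_num) (by omega)
  · intro x hx
    by_contra hcon
    push Not at hcon
    exact hx (Or.inr (Or.inl hcon))
  · have h1 : (0 : ℝ) < (j2 : ℝ) - j1 := by
      have : (j1 : ℝ) < j2 := by exact_mod_cast hj
      linarith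
    refine ⟨hApn, ?_, ?_, ?_, ?_⟩
    · unfold ww1; positivity
    · unfold ww2; positivity
    · unfold ww4; positivity
    · unfold ww5 Aa; positivity
  · -- n1
    rw [hcd]
    exact hPS
  · -- n2
    rw [hcd]
    exact z09_n2 _ _ _ _ _ _ (by exact_mod_cast hj1) (by exact_mod_cast hw1) hPS
  · -- n3
    rw [hcd]
    have h1 : {x | cutP x}.ncard ≤ {x | Bad D B ρ x}.ncard + ({x | 2 ^ i2 ≤ (S' x).ncard}.ncard + Z3.card) := by
      have h2 : {x | cutP x} ⊆ {x | Bad D B ρ x} ∪ ({x | 2 ^ i2 ≤ (S' x).ncard} ∪ (Z3 : Set (Fin d))) := fun x hx => hx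
      refine le_trans (Set.ncard_le_ncard h2 (Set.toFinite _)) (le_trans (Set.ncard_union_le _ _) ?_)
      refine Nat.add_le_add_left (le_trans (Set.ncard_union_le _ _) ?_) _
      rw [Set.ncard_coe_finset]
    have h2 : ({x | cutP x}.ncard : ℝ) ≤ {x | Bad D B ρ x}.ncard + (({x | 2 ^ i2 ≤ (S' x).ncard}.ncard : ℝ) + Z3.card) := by exact_mod_cast h1
    have h3 : (2 : ℝ) ^ i2 ≤ 2 ^ j2 := pow_le_pow_right₀ (by norm_num) hi2'.le
    have h4 : (Z3.card : ℝ) ≤ ((b * (1 + 16 * g * 2 ^ r) : ℕ) : ℝ) * (⌈δ * d⌉₊ : ℝ) := by exact_mod_cast hZ3c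
    have h5 : ((2 ^ i2 : ℕ) : ℝ) * ({x | 2 ^ i2 ≤ (S' x).ncard}.ncard : ℝ) ≤ 2 * Ap g CA M K r / ((j2 : ℝ) - j1) * d := by
      apply z09_n3 _ _ _ _ _ _ _ (by exact_mod_cast hj : (j1 : ℝ) < j2) _ hPS
      have h6 := hw2
      have h7 : (2 ^ i2 * {x | 2 ^ i2 ≤ (S' x).ncard}.ncard * (j2 - j1) : ℕ) ≤ 2 * ∑ x, (S' x).ncard := h6
      have h8 : ((2 ^ i2 * {x | 2 ^ i2 ≤ (S' x).ncard}.ncard * (j2 - j1) : ℕ) : ℝ) ≤ ((2 * ∑ x, (S' x).ncard : ℕ) : ℝ) := by exact_mod_cast h7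
      push_cast [Nat.cast_sub hj.le] at h8
      push_cast
      exact h8
    unfold ww2
    have h6 : (0 : ℝ) ≤ {x | Bad D B ρ x}.ncard := Nat.cast_nonneg _
    have h7 : (0 : ℝ) ≤ Z3.card := Nat.cast_nonneg _
    have h8 : (2 : ℝ) ^ i2 * {x | Bad D B ρ x}.ncard ≤ eta / 2 * d := by
      have h9 : (2 : ℝ) ^ j2 * (CA * K * M / ρ) * d ≤ eta / 2 * d := mul_le_mul_of_nonneg_right hc1 hdpos.le
      calc (2 : ℝ) ^ i2 * {x | Bad D B ρ x}.ncard ≤ 2 ^ j2 * (CA * K * M * d / ρ) := mul_le_mul h3 hBad h6 (by positivity)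
        _ = 2 ^ j2 * (CA * K * M / ρ) * d := by ring
        _ ≤ eta / 2 * d := h9
    have h9 : (2 : ℝ) ^ i2 * Z3.card ≤ eta / 2 * d :=
      le_trans (mul_le_mul h3 h4 h7 (by positivity)) hc5
    push_cast at h5 ⊢
    calc (2 : ℝ) ^ i2 * {x | cutP x}.ncard ≤ 2 ^ i2 * ({x | Bad D B ρ x}.ncard + (({x | 2 ^ i2 ≤ (S' x).ncard}.ncard : ℝ) + Z3.card)) :=
          mul_le_mul_of_nonneg_left h2 (by positivity)
      _ = 2 ^ i2 * {x | Bad D B ρ x}.ncard + 2 ^ i2 * ({x | 2 ^ i2 ≤ (S' x).ncard}.ncard : ℝ) + 2 ^ i2 * Z3.card := by ring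
      _ ≤ eta / 2 * d + 2 * Ap g CA M K r / ((j2 : ℝ) - j1) * d + eta / 2 * d := by gcongr
      _ = (2 * Ap g CA M K r / ((j2 : ℝ) - j1) + eta) * d := by ring
  · -- n4
    rw [hcd, hNF]
    have h1 := n4_le hg σ P F r
    have h2 : ({e : Dart (Nd g (Fin d)) | FD hg σ F e ∧ ¬ F0D hg σ P F e}.ncard : ℝ) ≤ 2 * (((univ.filter (fun v => P.root v ∧ Good (two σ) r v)).card : ℝ) +
        (F \ univ.image P.ptr).card + (univ.filter (fun v => ¬ Good (two σ) r v)).card) := by exact_mod_cast h1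
    refine le_trans h2 ?_
    have h3 : 2 * (((F \ univ.image P.ptr).card : ℝ) + (univ.filter (fun v => ¬ Good (two σ) r v)).card) ≤ eta * d := by
      refine le_trans ?_ hc4
      have h4 : 2 * (((F \ univ.image P.ptr).card : ℝ) + (univ.filter (fun v => ¬ Good (two σ) r v)).card) ≤
          2 * ((1 + 2 ^ (r + 2) * (2 * (r : ℝ) + 4)) * (⌈δ * d⌉₊ : ℝ) + (d : ℝ) / t4) := mul_le_mul_of_nonneg_left hFx (by norm_num)
      refine le_trans h4 ?_
      apply mul_le_mul_of_nonneg_right _ (by positivity)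
      linarith
    unfold ww4
    calc 2 * (((univ.filter (fun v => P.root v ∧ Good (two σ) r v)).card : ℝ) + (F \ univ.image P.ptr).card + (univ.filter (fun v => ¬ Good (two σ) r v)).card)
        = 2 * ((univ.filter (fun v => P.root v ∧ Good (two σ) r v)).card : ℝ) +
          2 * (((F \ univ.image P.ptr).card : ℝ) + (univ.filter (fun v => ¬ Good (two σ) r v)).card) := by ring
      _ ≤ 2 * (8 / q * d) + eta * d := add_le_add (mul_le_mul_of_nonneg_left hProots (by norm_num)) h3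
      _ = (16 / q + eta) * d := by ring
  · -- n5
    rw [hcd]
    have h1 := n5_le hg σ P F r cutP (fun e => (({y | y ∈ N.word e}.ncard : ℕ) : ℝ)) (fun e => Nat.cast_nonneg _) (2 ^ j2) (by positivity)
      (fun x => ∑ u ∈ P.path ((two σ 0)⁻¹ x), (((Sx D B ρ u).ncard : ℝ) + (Sx D B ρ ((two σ 0)⁻¹ u)).ncard))
      (fun x => Finset.sum_nonneg (fun u _ => by positivity)) hTle ?_
    · have h5 : (∑ e : Dart (Nd g (Fin d)), if N.F e ∧ ¬ F0D hg σ P F e ∧ ¬ N.cut e.1 then (({y | y ∈ N.word e}.ncard : ℕ) : ℝ) else 0) ≤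
          ww5 CA M K q r eta * d := by
        refine le_trans (le_of_eq ?_) (le_trans h1 ?_)
        · apply Finset.sum_congr rfl
          intro e _
          have h3 : (N.F e ∧ ¬ F0D hg σ P F e ∧ ¬ N.cut e.1) ↔ (FD hg σ F e ∧ ¬ F0D hg σ P F e ∧ ¬ cutP e.1.1) := by
            rw [hNF, hNcut]
          by_cases h4 : FD hg σ F e ∧ ¬ F0D hg σ P F e ∧ ¬ cutP e.1.1
          · rw [if_pos h4, if_pos (h3.2 h4)]
          · rw [if_neg h4, if_neg (fun h => h4 (h3.1 h))]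
        have h6 : 2 * (2 : ℝ) ^ j2 * (((F \ univ.image P.ptr).card : ℝ) + (univ.filter (fun v => ¬ Good (two σ) r v)).card) ≤ eta * d :=
          le_trans (mul_le_mul_of_nonneg_left hFx (by positivity)) hc4
        unfold ww5 Aa
        refine le_trans (add_le_add (mul_le_mul_of_nonneg_left hPs (by norm_num)) h6) (le_of_eq ?_)
        field_simp
        ring
      exact h5
    · intro x hx e he
      have h3 : {y | y ∈ N.word e} ⊆ ⋃ v ∈ P.path ((two σ 0)⁻¹ x), (Sx D B ρ v ∪ Sx D B ρ ((two σ 0)⁻¹ v)) := by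
        intro y hy
        obtain ⟨v, hv, hy'⟩ := hroot x hx e he y (hNmem e y hy)
        rw [Set.mem_iUnion₂]
        exact ⟨v, hv, hy'⟩
      have h4 : (⋃ v ∈ P.path ((two σ 0)⁻¹ x), (Sx D B ρ v ∪ Sx D B ρ ((two σ 0)⁻¹ v))).Finite :=
        Set.Finite.biUnion (Finset.finite_toSet _) (fun v _ => (hSf v).union (hSf _))
      have h5 : {y | y ∈ N.word e}.ncard ≤ ∑ v ∈ P.path ((two σ 0)⁻¹ x), ((Sx D B ρ v).ncard + (Sx D B ρ ((two σ 0)⁻¹ v)).ncard) :=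
        le_trans (Set.ncard_le_ncard h3 h4) (le_trans (Finset.set_ncard_biUnion_le _ _) (Finset.sum_le_sum (fun v _ => Set.ncard_union_le _ _)))
      have h6 : (({y | y ∈ N.word e}.ncard : ℕ) : ℝ) ≤ ((∑ v ∈ P.path ((two σ 0)⁻¹ x), ((Sx D B ρ v).ncard + (Sx D B ρ ((two σ 0)⁻¹ v)).ncard) : ℕ) : ℝ) := by
        exact_mod_cast h5
      push_cast at h6
      exact h6
  · exact
      { src := lsrc
        tgt := ltgt
        wd := wd
        st := st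
        Rp := GS σ P (Rx D B)
        wd_word := fun e => (hNword e).trans (congrArg (List.map Prod.fst) (z09_inst _ _ _))
        leg_le := fun e => (hNleg e).trans (le_of_eq (congrArg List.length (z09_inst _ _ _)))
        leg_take := by
          intro e
          have h := hNtake e
          rw [z09_inst _ (fun a b => Classical.propDecidable (a = b)) (wd e), z09_inst _ (fun a b => Classical.propDecidable (a = b)) ((wd (prv e))⁻¹)] at h
          exact h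
        wd_inv := by
          show ∀ e, wd (N.inv e) = (wd e)⁻¹
          rw [hNinv]; exact hwinv
        walk := hwalk
        st_inv := by
          show ∀ e, st (N.inv e) = st (nxt e)
          rw [hNinv]; exact hstinv
        st_mem := by
          intro e
          obtain ⟨s, hs, hse⟩ := hst e
          rw [hse]
          exact start_mem_GS σ (fun v => B.Q (D.P v)) P (Rx D B) (fun v => (cells_Rx D B ρ v).2 _ (z09_P D hg v)) e.1.1 s hs
        src_mem := fun e y hy => GS_map σ P (Sx D B ρ) (Rx D B) lsrc (fun v a ha => ((cells_Rx D B ρ v).1 a ha).1) e.1.1 y (hNmemS e y hy)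
        tgt_mem := fun e y hy => GS_map σ P (Sx D B ρ) (Rx D B) ltgt (fun v a ha => ((cells_Rx D B ρ v).1 a ha).2) e.1.1 y (hNmemS e y hy)
        mult := hPR }

end H98T
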