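import Mathlib
import Pool.Agent.Lib.H98T.ZPar
import Pool.Agent.Lib.H98T.Enc
import Pool.Agent.Lib.H98T.Digi
import Pool.Agent.Lib.H98T.GM
import Pool.Agent.Lib.H98T.Z07
import Pool.Agent.Lib.H98T.Z08
import Pool.Agent.Lib.H98T.Z09

set_option autoImplicit false

/-!
# H98T.Z10: the data for the entropy count exist
-/

namespace H98T

open Finset

theorem z10_tree {V : Type} [Fintype V] (i1 i2 : DecidableEq V) (ρ : Fin 2 → Equiv.Perm V) (F : Finset (Fin 2 × V))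
    (h : @IsSpanTree V _ i1 ρ F) : @IsSpanTree V _ i2 ρ F := by
  rw [Subsingleton.elim i2 i1]
  exact h

theorem z10_card (n K : ℕ) : Fintype.card (Cell n K) = K ^ n + 1 := by
  simp [Cell, Fintype.card_option]

theorem z10_pmax (t1 j1 m0 : ℕ) (h : t1 ≤ 2 ^ j1) : 1 + t1 + 6 * (3 * (m0 * t1) + 1) * t1 ≤ Pmax j1 m0 := by
  unfold Pmax
  have h1 : m0 * t1 ≤ m0 * 2 ^ j1 := Nat.mul_le_mul_left _ h
  have h2 : 6 * (3 * (m0 * t1) + 1) * t1 ≤ 6 * (3 * (m0 * 2 ^ j1) + 1) * 2 ^ j1 := Nat.mul_le_mul (by omega) h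
  omega

/-- Z10. THE DATA EXIST (assembled from Z08, Z09 and the modules G, F, S, W, N). -/
theorem exists_Enc (n g C0 : ℕ) (hn : 5 ≤ n) (hg : 2 ≤ g) : ∃ CA : ℝ, 1 ≤ CA ∧ ∀ (M Cg c : ℝ), 1 ≤ M → ∀ p : Par g n CA M Cg c,
    ∃ (t3 t4 : ℕ) (δ : ℝ), 0 < δ ∧ ∃ d0 : ℕ, ∀ d : ℕ, d0 ≤ d → ∀ σ : Fin (2 * g) → Equiv.Perm (Fin d), IsCov σ → Expand (two σ) →
      Few (Dense (two σ)) t4 ⌈δ * d⌉₊ → (∀ F : Finset (Fin 2 × Fin d), IsSpanTree (two σ) F → Few (FDense σ F) t3 ⌈δ * d⌉₊) →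
      ∀ W : ℕ, (W : ℝ) ^ (n - 1) ≤ M * d → Digi σ n C0 W →
        Nonempty (Enc hg σ (p.K ^ n + 1) (Pmax p.j1 p.m0) (AA1 g CA M p.K p.r) (kapp g n CA M p.K p.r) (2 * p.th * p.I)
          (AA1 g CA M p.K p.r / p.Lam + 2 * (ww4 p.q p.eta + 12 * g * p.X)) (ww4 p.q p.eta)) := by
  obtain ⟨CA, hCA, hctx⟩ := exists_ctx n g C0 hn hg
  refine ⟨CA, hCA, ?_⟩
  intro M Cg c hM p
  obtain ⟨t3, t4, δ, hδ, d0, hd0⟩ := hctx M p.eta p.K p.q p.r p.j1 p.j2 hM p.heta p.hK p.hq p.hr p.hj1 p.hj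
  refine ⟨t3, t4, δ, hδ, max d0 1, ?_⟩
  intro d hd σ hcov hexp hdense hfdense W hW hD
  obtain ⟨F, hF, Z, ⟨t, ht, ht1⟩, hAp, hw1, hw2, hw4, hw5, ⟨L⟩⟩ :=
    hd0 d (le_trans (le_max_left _ _) hd) σ hcov hexp hdense hfdense W hW hD
  have hd1 : 1 ≤ d := le_trans (le_max_right _ _) hd
  have hV : 0 < Fintype.card (Fin d) := by rw [Fintype.card_fin]; exact hd1
  have ht1le : Z.t1 ≤ 2 ^ p.j1 := by
    rw [ht1]
    exact Nat.pow_le_pow_right (by norm_num) ht.le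
  have ht1pos : 1 ≤ Z.t1 := Z.ht1
  have hpm := z10_pmax Z.t1 p.j1 p.m0 ht1le
  have hpmr : 1 + (Z.t1 : ℝ) + 6 * (3 * ((p.m0 * Z.t1 : ℕ) : ℝ) + 1) * Z.t1 ≤ (Pmax p.j1 p.m0 : ℝ) := by
    have h1 : ((1 + Z.t1 + 6 * (3 * (p.m0 * Z.t1) + 1) * Z.t1 : ℕ) : ℝ) ≤ (Pmax p.j1 p.m0 : ℝ) := by exact_mod_cast hpm
    push_cast at h1 ⊢
    exact h1
  have hApn := Z.nonneg.1
  have hm0 : (1 : ℝ) ≤ p.m0 := by exact_mod_cast p.hm0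
  have ht1r : (1 : ℝ) ≤ Z.t1 := by exact_mod_cast ht1pos
  have hm0t : (p.m0 : ℝ) ≤ ((p.m0 * Z.t1 : ℕ) : ℝ) + 1 := by
    push_cast
    nlinarith
  have hgn : (0 : ℝ) ≤ g := Nat.cast_nonneg _
  have hbq : ∀ a : ℝ, 0 ≤ a → a / (((p.m0 * Z.t1 : ℕ) : ℝ) + 1) ≤ a / p.m0 := by
    intro a ha
    exact div_le_div_of_nonneg_left ha (by linarith) hm0t
  have h1 : Z.w5 + 4 * g * Z.w2 + 8 * g * Z.Ap / (((p.m0 * Z.t1 : ℕ) : ℝ) + 1) ≤ p.eps := by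
    have h2 := hbq (8 * g * Z.Ap) (by positivity)
    have h3 := p.heps
    rw [← hAp, ← hw2, ← hw5] at h3
    linarith
  have h2 : 3 * (3 * ((p.m0 * Z.t1 : ℕ) : ℝ) + 1) * p.Lam * (2 * (1 + Z.t1 + 6 * (3 * ((p.m0 * Z.t1 : ℕ) : ℝ) + 1) * Z.t1)) ≤ p.T := by
    refine le_trans ?_ p.hT
    have h3 : ((p.m0 * Z.t1 : ℕ) : ℝ) ≤ (p.m0 : ℝ) * 2 ^ p.j1 := by
      have : p.m0 * Z.t1 ≤ p.m0 * 2 ^ p.j1 := Nat.mul_le_mul_left _ ht1le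
      exact_mod_cast this
    have h4 := p.hLam
    have h5 : (0 : ℝ) ≤ ((p.m0 * Z.t1 : ℕ) : ℝ) := Nat.cast_nonneg _
    apply mul_le_mul _ (by linarith) (by positivity) (by positivity)
    apply mul_le_mul_of_nonneg_right _ (by linarith)
    linarith
  have h3 : 12 * g * p.Lam * (1 + Z.t1 + 6 * (3 * ((p.m0 * Z.t1 : ℕ) : ℝ) + 1) * Z.t1) ≤ 4 ^ p.I := by
    refine le_trans ?_ p.hI
    have h4 := p.hLam
    exact mul_le_mul_of_nonneg_left hpmr (by positivity)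
  have h4 : 300 * g ^ 2 * (Z.w1 + Z.w2) + 480 * g ^ 2 * Z.Ap * Z.t1 / (((p.m0 * Z.t1 : ℕ) : ℝ) + 1) + 240 * g ^ 2 * Z.Ap / (((p.m0 * Z.t1 : ℕ) : ℝ) + 1) + Z.w4 + Z.w5 ≤ p.X := by
    have h5 := hbq (240 * g ^ 2 * Z.Ap) (by positivity)
    have h6 : 480 * g ^ 2 * Z.Ap * Z.t1 / (((p.m0 * Z.t1 : ℕ) : ℝ) + 1) ≤ 480 * g ^ 2 * Z.Ap / p.m0 := by
      rw [div_le_div_iff₀ (by positivity) (by linarith)]
      push_cast
      have h7 : (0 : ℝ) ≤ 480 * g ^ 2 * Z.Ap := by positivity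
      nlinarith [mul_nonneg h7 (show (0 : ℝ) ≤ 1 by norm_num)]
    have h7 := p.hX
    rw [← hAp, ← hw1, ← hw2, ← hw4, ← hw5] at h7
    have h8 : 720 * (g : ℝ) ^ 2 * Z.Ap / p.m0 = 480 * g ^ 2 * Z.Ap / p.m0 + 240 * g ^ 2 * Z.Ap / p.m0 := by ring
    rw [h8] at h7
    linarith
  obtain ⟨col, P, hP, hPc, hMis, hsum, hspec, hirr⟩ := Z.positions hV (p.m0 * Z.t1) p.Lam p.T p.th p.eps p.X p.I p.hLam p.hth p.hthL p.hT1
    h1 h2 p.hn1 p.hn2 h3 h4 p.hLX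
  have hX0 : 0 ≤ p.X := by
    refine le_trans ?_ h4
    have h5 := Z.nonneg
    have h6 := h5.2.1
    have h7 := h5.2.2.1
    have h8 := h5.2.2.2.1
    have h9 := h5.2.2.2.2
    positivity
  have hEnc := enc_of_positions (z10_tree _ _ _ _ hF) L ((Fintype.equivFinOfCardEq (z10_card n p.K))) col P p.Lam p.th p.X p.I (Pmax p.j1 p.m0) p.hLam hX0
    (by unfold Pmax; omega) hP (fun e => le_trans (hPc e) hpm) hMis hsum hspec hirr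
  rw [hAp, hw4] at hEnc
  exact hEnc

end H98T
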