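import Mathlib
import Pool.Agent.Lib.H98T.ZPar

set_option autoImplicit false

/-!
# H98T.ZP1: asymptotic tools
-/

namespace H98T

open Filter


/-- ZP1a. Chunk ZP1 (size S). Polynomial against exponential. -/
theorem poly_small (C : ℝ) (a : ℕ) : ∀ᶠ k : ℕ in atTop, C * (k : ℝ) ^ a ≤ 2 ^ k := by
  have h1 := (tendsto_pow_const_div_const_pow_of_one_lt a (r := (2 : ℝ)) (by norm_num)).const_mul C
  rw [mul_zero] at h1
  have h2 := h1.eventually_le_const (by norm_num : (0 : ℝ) < 1)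
  filter_upwards [h2] with k hk
  have h3 : (0 : ℝ) < 2 ^ k := by positivity
  have h4 : C * ((k : ℝ) ^ a / 2 ^ k) = (C * (k : ℝ) ^ a) / 2 ^ k := by ring
  rw [h4, div_le_one h3] at hk
  exact hk

/-- ZP1b. Chunk ZP1 (size S/M). Bounds for `Aa`, `Ap`, `AA1` with `K = 2^k`, `r = 56 k`: all are at most `C k 2^k` for `k ≥ 1`, `C` depending only on `g`, `CA`, `M`. -/
theorem Ap_bound (g : ℕ) (CA M : ℝ) (h1 : 1 ≤ CA) (h2 : 1 ≤ M) : ∃ C : ℝ, 1 ≤ C ∧ ∀ k : ℕ, 1 ≤ k →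
    Aa CA M (2 ^ k) ≤ C * 2 ^ k ∧ Ap g CA M (2 ^ k) (56 * k) ≤ C * k * 2 ^ k ∧ AA1 g CA M (2 ^ k) (56 * k) ≤ C * k * 2 ^ k ∧
      0 ≤ Ap g CA M (2 ^ k) (56 * k) ∧ 1 ≤ AA1 g CA M (2 ^ k) (56 * k) := by
  have hCM : 1 ≤ CA * M := by nlinarith
  have hg : (0 : ℝ) ≤ g := Nat.cast_nonneg g
  set D : ℝ := (1 + 1824 * g) * (CA * M) with hD
  have hD1 : 1 ≤ D := by
    have : (1 : ℝ) ≤ 1 + 1824 * g := by linarith
    rw [hD]
    nlinarith
  have hDM : CA * M ≤ D := by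
    rw [hD]
    have : 0 ≤ 1824 * (g : ℝ) * (CA * M) := by positivity
    linarith
  refine ⟨(36 * g + 1) * (1 + D) + 6 + 12 * g, ?_, ?_⟩
  · have : 0 ≤ (36 * (g : ℝ) + 1) * (1 + D) := by positivity
    linarith
  · intro k hk
    have hkr : (1 : ℝ) ≤ k := by exact_mod_cast hk
    have hp : (1 : ℝ) ≤ 2 ^ k := one_le_pow₀ (by norm_num)
    have hkp : (1 : ℝ) ≤ k * 2 ^ k := by nlinarith
    have e1 : Aa CA M (2 ^ k) = (CA * M) * 2 ^ k := by
      unfold Aa
      push_cast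
      ring
    have e2 : Ap g CA M (2 ^ k) (56 * k) = (1 + 32 * g * (56 * k + 1)) * ((CA * M) * 2 ^ k) := by
      unfold Ap
      rw [e1]
      push_cast
      ring
    have hE : D ≤ (36 * g + 1) * (1 + D) + 6 + 12 * g := by
      have : 0 ≤ 36 * (g : ℝ) * (1 + D) := by positivity
      linarith
    have b1 : Ap g CA M (2 ^ k) (56 * k) ≤ D * (k * 2 ^ k) := by
      rw [e2, hD]
      have h3 : 1 + 32 * (g : ℝ) * (56 * k + 1) ≤ (1 + 1824 * g) * k := by
        have h5 : (g : ℝ) ≤ g * k := le_mul_of_one_le_right hg hkr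
        nlinarith
      calc (1 + 32 * (g : ℝ) * (56 * k + 1)) * ((CA * M) * 2 ^ k) ≤
            ((1 + 1824 * g) * k) * ((CA * M) * 2 ^ k) :=
            mul_le_mul_of_nonneg_right h3 (by positivity)
        _ = (1 + 1824 * g) * (CA * M) * (k * 2 ^ k) := by ring
    have b0 : 0 ≤ Ap g CA M (2 ^ k) (56 * k) := by
      rw [e2]
      positivity
    refine ⟨?_, ?_, ?_, b0, ?_⟩
    · rw [e1]
      exact mul_le_mul_of_nonneg_right (hDM.trans hE) (by positivity)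
    · calc Ap g CA M (2 ^ k) (56 * k) ≤ D * (k * 2 ^ k) := b1
        _ ≤ ((36 * g + 1) * (1 + D) + 6 + 12 * g) * (k * 2 ^ k) :=
            mul_le_mul_of_nonneg_right hE (by positivity)
        _ = _ := by ring
    · unfold AA1
      have h6 : 36 * (g : ℝ) * (1 + Ap g CA M (2 ^ k) (56 * k)) ≤
          36 * g * ((1 + D) * (k * 2 ^ k)) := by
        apply mul_le_mul_of_nonneg_left _ (by positivity)
        nlinarith
      have h7 : 6 + 12 * (g : ℝ) ≤ (6 + 12 * g) * (k * 2 ^ k) :=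
        le_mul_of_one_le_right (by positivity) hkp
      have h8 : 0 ≤ (1 + D) * (k * 2 ^ k) := by positivity
      have h9 : ((36 * (g : ℝ) + 1) * (1 + D) + 6 + 12 * g) * k * 2 ^ k =
        36 * g * ((1 + D) * (k * 2 ^ k)) + (1 + D) * (k * 2 ^ k) + (6 + 12 * g) * (k * 2 ^ k) := by
        ring
      rw [h9]
      linarith
    · unfold AA1
      have h6 : 0 ≤ 36 * (g : ℝ) * (1 + Ap g CA M (2 ^ k) (56 * k)) := by positivity
      linarith

end H98T
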