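import Mathlib
import Pool.Agent.Lib.H98T.ZP1

set_option autoImplicit false

/-!
# H98T.ZP3: the inequalities hT, hI
-/

namespace H98T

open Filter

theorem zp3_exp_pow (m : ℕ) : Real.exp ((2 : ℝ) ^ m) = Real.exp 1 ^ (2 ^ m) := by
  rw [← Real.exp_nat_mul]
  congr 1
  push_cast
  ring

theorem zp3_two_le (m : ℕ) : (2 : ℝ) ^ (2 ^ m) ≤ Real.exp (2 ^ m) := by
  rw [zp3_exp_pow]
  have h1 := Real.exp_one_gt_d9
  exact pow_le_pow_left₀ (by norm_num) (by linarith) _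

theorem zp3_le_four (m : ℕ) : Real.exp (2 ^ m) ≤ (4 : ℝ) ^ (2 ^ m) := by
  rw [zp3_exp_pow]
  have h1 := Real.exp_one_lt_d9
  exact pow_le_pow_left₀ (Real.exp_pos _).le (by linarith) _

theorem zp3_Pmax (k : ℕ) :
    Pmax (2 ^ (6 * k)) (2 ^ (40 * k)) ≤ 2 ^ (5 + 40 * k + 2 * 2 ^ (6 * k)) := by
  unfold Pmax
  have e : 2 ^ (5 + 40 * k + 2 * 2 ^ (6 * k)) =
      32 * (2 ^ (40 * k) * (2 ^ (2 ^ (6 * k)) * 2 ^ (2 ^ (6 * k)))) := by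
    rw [← pow_add, ← pow_add, pow_add 2 (5 + 40 * k), pow_add 2 5, pow_add 2 (40 * k)]
    have : 2 ^ (2 ^ (6 * k)) * 2 ^ (2 ^ (6 * k)) = 2 ^ (2 * 2 ^ (6 * k)) := by
      rw [← pow_add]
      congr 1
      ring
    rw [← pow_add] at this
    rw [this]
    ring
  rw [e]
  set a := 2 ^ (2 ^ (6 * k)) with ha
  set b := 2 ^ (40 * k) with hb
  have ha1 : 1 ≤ a := Nat.one_le_two_pow
  have hb1 : 1 ≤ b := Nat.one_le_two_pow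
  have h1 : 1 ≤ b * (a * a) := Nat.one_le_iff_ne_zero.mpr (by positivity)
  have h2 : a ≤ b * (a * a) := by
    calc a = 1 * (a * 1) := by ring
      _ ≤ b * (a * a) := Nat.mul_le_mul hb1 (Nat.mul_le_mul_left _ ha1)
  have h3 : 6 * (3 * (b * a) + 1) * a = 18 * (b * (a * a)) + 6 * a := by ring
  rw [h3]
  omega

theorem zp3_one_le (j m : ℕ) : 1 ≤ Pmax j m := by
  unfold Pmax
  rw [add_assoc]
  exact Nat.le_add_right 1 _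

/-- ZP3a. Chunk ZP3 (size M). `Pmax ≤ 2^(40k+5) * 4^(2^(6k))` (`j1 = 2^(6k)`, `m0 = 2^(40k)`), so it is at most `2^(2^(7k - 1))` eventually; here in the form used below: for every `C`, `C Pmax^2 ≤ exp(2^(7k))` eventually (also `C 2^(50k) Pmax^2`). -/
theorem Pmax_bound (C : ℝ) : ∀ᶠ k : ℕ in atTop, C * 2 ^ (50 * k) * ((Pmax (2 ^ (6 * k)) (2 ^ (40 * k)) : ℕ) : ℝ) ^ 2 ≤ Real.exp (2 ^ (7 * k)) := by
  obtain ⟨c, hc⟩ := exists_nat_ge C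
  have hc2 : C ≤ (2 : ℝ) ^ c := by
    refine hc.trans ?_
    exact_mod_cast (Nat.lt_two_pow_self (n := c)).le
  filter_upwards [eventually_ge_atTop (c + 10)] with k hk
  have h1 : ((Pmax (2 ^ (6 * k)) (2 ^ (40 * k)) : ℕ) : ℝ) ≤
      (2 : ℝ) ^ (5 + 40 * k + 2 * 2 ^ (6 * k)) := by
    exact_mod_cast zp3_Pmax k
  have hnat : c + 50 * k + (5 + 40 * k + 2 * 2 ^ (6 * k)) * 2 ≤ 2 ^ (7 * k) := by
    have e1 : 2 ^ (7 * k) = 2 ^ k * 2 ^ (6 * k) := by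
      rw [← pow_add]
      congr 1
      ring
    have e2 : 16 ≤ 2 ^ k := by
      calc 16 = 2 ^ 4 := by norm_num
        _ ≤ 2 ^ k := Nat.pow_le_pow_right (by norm_num) (by omega)
    have e3 : k < 2 ^ k := Nat.lt_two_pow_self
    have e4 : 256 * 2 ^ k ≤ 2 ^ (6 * k) := by
      calc 256 * 2 ^ k = 2 ^ (8 + k) := by rw [pow_add]; norm_num
        _ ≤ 2 ^ (6 * k) := Nat.pow_le_pow_right (by norm_num) (by omega)
    rw [e1]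
    have e5 : 16 * 2 ^ (6 * k) ≤ 2 ^ k * 2 ^ (6 * k) := Nat.mul_le_mul_right _ e2
    omega
  have hpos : 0 ≤ (2 : ℝ) ^ (50 * k) := by positivity
  calc C * 2 ^ (50 * k) * ((Pmax (2 ^ (6 * k)) (2 ^ (40 * k)) : ℕ) : ℝ) ^ 2
      ≤ 2 ^ c * 2 ^ (50 * k) * ((2 : ℝ) ^ (5 + 40 * k + 2 * 2 ^ (6 * k))) ^ 2 := by
        gcongr
    _ = (2 : ℝ) ^ (c + 50 * k + (5 + 40 * k + 2 * 2 ^ (6 * k)) * 2) := by
        rw [← pow_mul, ← pow_add, ← pow_add]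
    _ ≤ (2 : ℝ) ^ (2 ^ (7 * k)) := pow_le_pow_right₀ (by norm_num) hnat
    _ ≤ Real.exp (2 ^ (7 * k)) := zp3_two_le _

/-- ZP3b. Chunk ZP3 (size S/M). The inequality `hT` with `Lam = 1 + 2^(3k)`, `T = exp(2^(7k))`: `3 (m0 2^j1) + 1 ≤ Pmax`. -/
theorem par_T : ∀ᶠ k : ℕ in atTop,
    3 * (3 * (((2 ^ (40 * k) : ℕ) : ℝ) * 2 ^ (2 ^ (6 * k))) + 1) * (1 + 2 ^ (3 * k)) * (2 * ((Pmax (2 ^ (6 * k)) (2 ^ (40 * k)) : ℕ) : ℝ)) ≤ Real.exp (2 ^ (7 * k)) := by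
  filter_upwards [Pmax_bound 12] with k hk
  refine le_trans ?_ hk
  set P : ℝ := ((Pmax (2 ^ (6 * k)) (2 ^ (40 * k)) : ℕ) : ℝ) with hP
  have h1 : 3 * (((2 ^ (40 * k) : ℕ) : ℝ) * 2 ^ (2 ^ (6 * k))) + 1 ≤ P := by
    have h2 : 3 * (2 ^ (40 * k) * 2 ^ (2 ^ (6 * k))) + 1 ≤ Pmax (2 ^ (6 * k)) (2 ^ (40 * k)) := by
      unfold Pmax
      set a := 2 ^ (2 ^ (6 * k)) with ha
      set b := 2 ^ (40 * k) with hb
      have ha1 : 1 ≤ a := Nat.one_le_two_pow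
      have h3 : 6 * (3 * (b * a) + 1) * 1 ≤ 6 * (3 * (b * a) + 1) * a :=
        Nat.mul_le_mul_left _ ha1
      omega
    rw [hP]
    exact_mod_cast h2
  have hP0 : 0 ≤ P := by
    rw [hP]
    exact Nat.cast_nonneg _
  have h4 : (1 : ℝ) ≤ 2 ^ (3 * k) := one_le_pow₀ (by norm_num)
  have h5 : (2 : ℝ) ^ (3 * k) ≤ 2 ^ (50 * k) := pow_le_pow_right₀ (by norm_num) (by omega)
  calc 3 * (3 * (((2 ^ (40 * k) : ℕ) : ℝ) * 2 ^ (2 ^ (6 * k))) + 1) * (1 + 2 ^ (3 * k)) * (2 * P)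
      ≤ 3 * P * (2 ^ (50 * k) + 2 ^ (50 * k)) * (2 * P) := by
        gcongr
        exact h4.trans h5
    _ = 12 * 2 ^ (50 * k) * P ^ 2 := by ring

/-- ZP3c. Chunk ZP3 (size S/M). The inequality `hI` with `I = 2^(7k)`: `exp(2^(7k)) ≤ 4^(2^(7k))`. -/
theorem par_I (g : ℕ) : ∀ᶠ k : ℕ in atTop,
    12 * g * (1 + 2 ^ (3 * k)) * ((Pmax (2 ^ (6 * k)) (2 ^ (40 * k)) : ℕ) : ℝ) ≤ 4 ^ (2 ^ (7 * k)) := by
  filter_upwards [Pmax_bound (24 * g)] with k hk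
  refine le_trans (le_trans ?_ hk) (zp3_le_four _)
  set P : ℝ := ((Pmax (2 ^ (6 * k)) (2 ^ (40 * k)) : ℕ) : ℝ) with hP
  have hP1 : 1 ≤ P := by
    rw [hP]
    exact_mod_cast zp3_one_le _ _
  have hP2 : P ≤ P ^ 2 := by nlinarith
  have h4 : (1 : ℝ) ≤ 2 ^ (3 * k) := one_le_pow₀ (by norm_num)
  have h5 : (2 : ℝ) ^ (3 * k) ≤ 2 ^ (50 * k) := pow_le_pow_right₀ (by norm_num) (by omega)
  calc 12 * g * (1 + 2 ^ (3 * k)) * P ≤ 12 * g * (2 ^ (50 * k) + 2 ^ (50 * k)) * P ^ 2 := by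
        gcongr
        exact h4.trans h5
    _ = 24 * g * 2 ^ (50 * k) * P ^ 2 := by ring

end H98T
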