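import Mathlib
import Pool.Agent.Lib.H98T.ZP1

set_option autoImplicit false

/-!
# H98T.ZP4: the inequality hX
-/

namespace H98T

open Filter

theorem zp4_pow {a b c : ℕ} (h : a + c ≤ b) : (2 : ℝ) ^ a / 2 ^ b ≤ 1 / 2 ^ c := by
  rw [div_le_div_iff₀ (by positivity) (by positivity), ← pow_add, one_mul]
  exact pow_le_pow_right₀ (by norm_num) h

theorem zp4_pow1 {b c : ℕ} (h : c ≤ b) : 1 / (2 : ℝ) ^ b ≤ 1 / 2 ^ c := by
  have := zp4_pow (a := 0) (b := b) (c := c) (by omega)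
  rwa [pow_zero] at this

/-- ZP4. Chunk ZP4 (size M). Eventually `300 g^2 (ww1 + ww2) + 720 g^2 Ap/m0 + ww4 + ww5 ≤ 1/(2 * 2^(3k))`: the largest term is `ww1 ≤ C k 2^(-5k)`. -/
theorem par_X (g : ℕ) (CA M : ℝ) (h1 : 1 ≤ CA) (h2 : 1 ≤ M) : ∀ᶠ k : ℕ in atTop,
    300 * g ^ 2 * (ww1 g CA M (2 ^ k) (56 * k) (2 ^ (6 * k)) +
        ww2 g CA M (2 ^ k) (56 * k) (2 ^ (6 * k)) (2 ^ (6 * k) + 2 ^ (28 * k)) (1 / 2 ^ (30 * k))) +
      720 * g ^ 2 * Ap g CA M (2 ^ k) (56 * k) / ((2 ^ (40 * k) : ℕ) : ℝ) + ww4 (2 ^ (28 * k)) (1 / 2 ^ (30 * k)) +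
      ww5 CA M (2 ^ k) (2 ^ (28 * k)) (56 * k) (1 / 2 ^ (30 * k)) ≤ 1 / (2 * 2 ^ (3 * k)) := by
  obtain ⟨C, hC1, hC⟩ := Ap_bound g CA M h1 h2
  have hps := poly_small (2 * (300 * g ^ 2 * (4 * C + 1) + 720 * g ^ 2 * C + 18 + 928 * C)) 1
  filter_upwards [hps, eventually_ge_atTop 1] with k hk hk1
  obtain ⟨b1, b2, b3, b4, b5⟩ := hC k hk1
  have hkr : (1 : ℝ) ≤ k := by exact_mod_cast hk1
  set E : ℝ := 1 / 2 ^ (5 * k) with hE
  have hE0 : 0 ≤ E := by positivity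
  have hC0 : 0 ≤ C := by linarith
  set A : ℝ := Ap g CA M (2 ^ k) (56 * k) with hA
  set B : ℝ := Aa CA M (2 ^ k) with hB
  have w1 : ww1 g CA M (2 ^ k) (56 * k) (2 ^ (6 * k)) ≤ 2 * C * k * E := by
    unfold ww1
    push_cast
    calc 2 * A / 2 ^ (6 * k) ≤ 2 * (C * k * 2 ^ k) / 2 ^ (6 * k) := by gcongr
      _ = 2 * C * k * (2 ^ k / 2 ^ (6 * k)) := by ring
      _ ≤ 2 * C * k * E := by
        gcongr
        exact zp4_pow (by omega)
  have w2 : ww2 g CA M (2 ^ k) (56 * k) (2 ^ (6 * k)) (2 ^ (6 * k) + 2 ^ (28 * k))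
      (1 / 2 ^ (30 * k)) ≤ (2 * C * k + 1) * E := by
    unfold ww2
    push_cast
    rw [add_sub_cancel_left]
    calc 2 * A / 2 ^ (28 * k) + 1 / 2 ^ (30 * k)
        ≤ 2 * (C * k * 2 ^ k) / 2 ^ (28 * k) + 1 / 2 ^ (30 * k) := by gcongr
      _ = 2 * C * k * (2 ^ k / 2 ^ (28 * k)) + 1 / 2 ^ (30 * k) := by ring
      _ ≤ 2 * C * k * E + E := by
        gcongr
        · exact zp4_pow (by omega)
        · exact zp4_pow1 (by omega)
      _ = (2 * C * k + 1) * E := by ring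
  have w3 : 720 * g ^ 2 * A / ((2 ^ (40 * k) : ℕ) : ℝ) ≤ 720 * g ^ 2 * C * k * E := by
    push_cast
    calc 720 * g ^ 2 * A / 2 ^ (40 * k) ≤ 720 * g ^ 2 * (C * k * 2 ^ k) / 2 ^ (40 * k) := by gcongr
      _ = 720 * g ^ 2 * C * k * (2 ^ k / 2 ^ (40 * k)) := by ring
      _ ≤ 720 * g ^ 2 * C * k * E := by
        gcongr
        exact zp4_pow (by omega)
  have w4 : ww4 (2 ^ (28 * k)) (1 / 2 ^ (30 * k)) ≤ 17 * E := by
    unfold ww4
    push_cast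
    calc (16 : ℝ) / 2 ^ (28 * k) + 1 / 2 ^ (30 * k) = 16 * (1 / 2 ^ (28 * k)) + 1 / 2 ^ (30 * k) := by
          ring
      _ ≤ 16 * E + E := by
        gcongr
        · exact zp4_pow1 (by omega)
        · exact zp4_pow1 (by omega)
      _ = 17 * E := by ring
  have w5 : ww5 CA M (2 ^ k) (2 ^ (28 * k)) (56 * k) (1 / 2 ^ (30 * k)) ≤ (928 * C * k + 1) * E := by
    unfold ww5
    push_cast
    have hB' : 0 ≤ B := by
      rw [hB]
      unfold Aa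
      have : 0 ≤ CA := by linarith
      have : 0 ≤ M := by linarith
      positivity
    calc 16 * (56 * (k : ℝ) + 2) / 2 ^ (28 * k) * B + 1 / 2 ^ (30 * k)
        ≤ 16 * (56 * (k : ℝ) + 2 * k) / 2 ^ (28 * k) * (C * 2 ^ k) + 1 / 2 ^ (30 * k) := by
          gcongr
          linarith
      _ = 928 * C * k * (2 ^ k / 2 ^ (28 * k)) + 1 / 2 ^ (30 * k) := by ring
      _ ≤ 928 * C * k * E + E := by
        gcongr
        · exact zp4_pow (by omega)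
        · exact zp4_pow1 (by omega)
      _ = (928 * C * k + 1) * E := by ring
  set D : ℝ := 300 * g ^ 2 * (4 * C + 1) + 720 * g ^ 2 * C + 18 + 928 * C with hD
  have hD0 : 0 ≤ D := by positivity
  have hg0 : (0 : ℝ) ≤ 300 * g ^ 2 := by positivity
  have hsum : 300 * g ^ 2 * (ww1 g CA M (2 ^ k) (56 * k) (2 ^ (6 * k)) +
        ww2 g CA M (2 ^ k) (56 * k) (2 ^ (6 * k)) (2 ^ (6 * k) + 2 ^ (28 * k)) (1 / 2 ^ (30 * k))) +
      720 * g ^ 2 * A / ((2 ^ (40 * k) : ℕ) : ℝ) + ww4 (2 ^ (28 * k)) (1 / 2 ^ (30 * k)) +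
      ww5 CA M (2 ^ k) (2 ^ (28 * k)) (56 * k) (1 / 2 ^ (30 * k)) ≤ D * k * E := by
    calc _ ≤ 300 * g ^ 2 * (2 * C * k * E + (2 * C * k + 1) * E) + 720 * g ^ 2 * C * k * E +
          17 * E + (928 * C * k + 1) * E := by gcongr
      _ = (300 * g ^ 2 * (4 * C * k + 1) + 720 * g ^ 2 * C * k + 18 * 1 + 928 * C * k) * E := by
          ring
      _ ≤ (300 * g ^ 2 * (4 * C * k + k) + 720 * g ^ 2 * C * k + 18 * k + 928 * C * k) * E := by
          gcongr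
      _ = D * k * E := by
          rw [hD]
          ring
  refine hsum.trans ?_
  rw [hE, mul_one_div, div_le_div_iff₀ (by positivity) (by positivity), one_mul]
  have h3 : D * k * 2 ≤ 2 ^ k := by
    rw [pow_one] at hk
    linarith
  calc D * k * (2 * 2 ^ (3 * k)) = (D * k * 2) * 2 ^ (3 * k) := by ring
    _ ≤ 2 ^ k * 2 ^ (3 * k) := by gcongr
    _ = 2 ^ (k + 3 * k) := by rw [← pow_add]
    _ ≤ 2 ^ (5 * k) := pow_le_pow_right₀ (by norm_num) (by omega)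

end H98T
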