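import Mathlib
import Pool.Agent.Lib.H98T.ZP1

set_option autoImplicit false

/-!
# H98T.ZP5: the gain
-/

namespace H98T

open Filter


/-- ZP5a. Chunk ZP5 (size M). `kapp ≤ C k 2^(-(n-1)k)`, so `kapp ≤ 1` eventually and `log(1/kapp) ≥ (n-1) k log 2 - log k - log C`. -/
theorem kapp_bound (g n : ℕ) (CA M : ℝ) (h1 : 1 ≤ CA) (h2 : 1 ≤ M) (hn : 5 ≤ n) : ∃ C : ℝ, 1 ≤ C ∧ ∀ k : ℕ, 1 ≤ k →
    0 < kapp g n CA M (2 ^ k) (56 * k) ∧ kapp g n CA M (2 ^ k) (56 * k) ≤ C * k / 2 ^ ((n - 1) * k) ∧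
      1 / kapp g n CA M (2 ^ k) (56 * k) ≤ 2 ^ (n * k) := by
  have hCM : 1 ≤ CA * M := by nlinarith
  refine ⟨(1 + 460 * g) * (CA * M), ?_, ?_⟩
  · have : (1 : ℝ) ≤ 1 + 460 * g := by
      have : (0 : ℝ) ≤ g := Nat.cast_nonneg g
      linarith
    nlinarith
  · intro k hk
    have hkr : (1 : ℝ) ≤ k := by exact_mod_cast hk
    have hg : (0 : ℝ) ≤ g := Nat.cast_nonneg g
    have e0 : ((2 ^ k : ℕ) : ℝ) ^ (n - 1) = 2 ^ ((n - 1) * k) := by
      push_cast
      rw [← pow_mul, mul_comm]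
    have e1 : kapp g n CA M (2 ^ k) (56 * k) =
        (1 + 4 * g * (112 * k + 3)) * (CA * M) / 2 ^ ((n - 1) * k) := by
      unfold kapp
      rw [e0]
      push_cast
      ring
    have hX : 1 ≤ (1 + 4 * g * (112 * (k : ℝ) + 3)) * (CA * M) := by
      have : 1 ≤ 1 + 4 * g * (112 * (k : ℝ) + 3) := by
        have : 0 ≤ 4 * g * (112 * (k : ℝ) + 3) := by positivity
        linarith
      nlinarith
    rw [e1]
    refine ⟨by positivity, ?_, ?_⟩
    · have h3 : (1 + 4 * g * (112 * (k : ℝ) + 3)) * (CA * M) ≤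
          (1 + 460 * g) * (CA * M) * k := by
        have h4 : 1 + 4 * g * (112 * (k : ℝ) + 3) ≤ (1 + 460 * g) * k := by
          have h5 : (g : ℝ) ≤ g * k := le_mul_of_one_le_right hg hkr
          nlinarith
        calc (1 + 4 * g * (112 * (k : ℝ) + 3)) * (CA * M) ≤ ((1 + 460 * g) * k) * (CA * M) :=
              mul_le_mul_of_nonneg_right h4 (by linarith)
          _ = (1 + 460 * g) * (CA * M) * k := by ring
      gcongr
    · rw [one_div_div, div_le_iff₀ (by linarith)]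
      calc (2 : ℝ) ^ ((n - 1) * k) ≤ 2 ^ (n * k) :=
            pow_le_pow_right₀ (by norm_num) (Nat.mul_le_mul_right _ (Nat.sub_le n 1))
        _ = 2 ^ (n * k) * 1 := (mul_one _).symm
        _ ≤ 2 ^ (n * k) * ((1 + 4 * g * (112 * k + 3)) * (CA * M)) := by gcongr

/-- ZP5b. Chunk ZP5 (size M). The gain tends to infinity: `1/2 log(1/kapp) - 3/2 log AA1 ≥ (1/2)(4 k log 2 - log k - log C) - (3/2)(k log 2 + log k + log C) = (1/2) k log 2 - 2 log k - 2 log C`. -/
theorem gain_tendsto (g n : ℕ) (CA M : ℝ) (h1 : 1 ≤ CA) (h2 : 1 ≤ M) (hn : 5 ≤ n) :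
    Tendsto (fun k : ℕ => 1 / 2 * Real.log (1 / kapp g n CA M (2 ^ k) (56 * k)) - 3 / 2 * Real.log (AA1 g CA M (2 ^ k) (56 * k))) atTop atTop := by
  obtain ⟨C, hC1, hC⟩ := Ap_bound g CA M h1 h2
  obtain ⟨D, hD1, hD⟩ := kapp_bound g n CA M h1 h2 hn
  have hl2 : 0 < Real.log 2 := Real.log_pos (by norm_num)
  have hlim : Tendsto (fun k : ℕ => (3 / 8 * Real.log 2) * (k : ℝ) -
      (1 / 2 * Real.log D + 3 / 2 * Real.log C)) atTop atTop := by
    apply tendsto_atTop_add_const_right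
    exact Tendsto.const_mul_atTop (by positivity) tendsto_natCast_atTop_atTop
  refine tendsto_atTop_mono' _ ?_ hlim
  filter_upwards [poly_small 1 16, eventually_ge_atTop 1] with k hk hk1
  obtain ⟨b1, b2, b3, b4, b5⟩ := hC k hk1
  obtain ⟨d1, d2, d3⟩ := hD k hk1
  have hkr : (1 : ℝ) ≤ k := by exact_mod_cast hk1
  have hk0 : (0 : ℝ) < k := by linarith
  have hD0 : 0 < D := by linarith
  have hC0 : 0 < C := by linarith
  have hlogk : 16 * Real.log k ≤ k * Real.log 2 := by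
    rw [one_mul] at hk
    have h3 := Real.log_le_log (by positivity) hk
    rw [Real.log_pow, Real.log_pow] at h3
    push_cast at h3
    exact h3
  have hk1' : Real.log (1 / kapp g n CA M (2 ^ k) (56 * k)) ≥
      4 * k * Real.log 2 - Real.log D - Real.log k := by
    have h4 : Real.log (kapp g n CA M (2 ^ k) (56 * k)) ≤
        Real.log (D * k / 2 ^ ((n - 1) * k)) := Real.log_le_log d1 d2
    rw [Real.log_div (by positivity) (by positivity), Real.log_mul hD0.ne' hk0.ne',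
      Real.log_pow] at h4
    rw [one_div, Real.log_inv]
    have h5 : 4 * (k : ℝ) ≤ (((n - 1) * k : ℕ) : ℝ) := by
      have : 4 * k ≤ (n - 1) * k := Nat.mul_le_mul_right _ (by omega)
      exact_mod_cast this
    have h6 : 4 * (k : ℝ) * Real.log 2 ≤ (((n - 1) * k : ℕ) : ℝ) * Real.log 2 :=
      mul_le_mul_of_nonneg_right h5 hl2.le
    linarith
  have hAA : Real.log (AA1 g CA M (2 ^ k) (56 * k)) ≤
      Real.log C + Real.log k + k * Real.log 2 := by
    have h4 := Real.log_le_log (by linarith : 0 < AA1 g CA M (2 ^ k) (56 * k)) b3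
    rw [Real.log_mul (by positivity) (by positivity), Real.log_mul hC0.ne' hk0.ne',
      Real.log_pow] at h4
    exact h4
  linarith

end H98T
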