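import Mathlib
import Pool.Agent.Lib.H98T.ZP3
import Pool.Agent.Lib.H98T.ZP5

set_option autoImplicit false

/-!
# H98T.ZP6: the error terms
-/

namespace H98T

open Filter

theorem zp6_pow {a b c : ℕ} (h : a + c ≤ b) : (2 : ℝ) ^ a / 2 ^ b ≤ 1 / 2 ^ c := by
  rw [div_le_div_iff₀ (by positivity) (by positivity), ← pow_add, one_mul]
  exact pow_le_pow_right₀ (by norm_num) h

theorem zp6_pow1 {b c : ℕ} (h : c ≤ b) : 1 / (2 : ℝ) ^ b ≤ 1 / 2 ^ c := by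
  have := zp6_pow (a := 0) (b := b) (c := c) (by omega)
  rwa [pow_zero] at this

theorem zp6_ww4 {k c : ℕ} (h : c ≤ 28 * k) :
    ww4 (2 ^ (28 * k)) (1 / 2 ^ (30 * k)) ≤ 17 * (1 / 2 ^ c) := by
  unfold ww4
  push_cast
  have a1 : 1 / (2 : ℝ) ^ (28 * k) ≤ 1 / 2 ^ c := zp6_pow1 h
  have a2 : 1 / (2 : ℝ) ^ (30 * k) ≤ 1 / 2 ^ c := zp6_pow1 (by omega)
  have a3 : (16 : ℝ) / 2 ^ (28 * k) = 16 * (1 / 2 ^ (28 * k)) := by ring
  rw [a3]
  linarith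

theorem zp6_ww4_nonneg (k : ℕ) : 0 ≤ ww4 (2 ^ (28 * k)) (1 / 2 ^ (30 * k)) := by
  unfold ww4
  positivity

theorem zp6_log2 : Real.log 2 ≤ 1 := by
  have := Real.log_two_lt_d9
  linarith

theorem zp6_logpow (m : ℕ) : Real.log ((2 : ℝ) ^ m) ≤ m := by
  rw [Real.log_pow]
  have := zp6_log2
  calc (m : ℝ) * Real.log 2 ≤ m * 1 := by gcongr
    _ = m := mul_one _

/-- ZP6a. Chunk ZP6 (size M). The first error term is at most `1` eventually: `AA1/Lam + 2 (ww4 + 12 g X) ≤ C k 2^(-2k)` and the logarithms are at most `C k`. -/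
theorem par_err1 (g n : ℕ) (CA M : ℝ) (h1 : 1 ≤ CA) (h2 : 1 ≤ M) (hn : 5 ≤ n) : ∀ᶠ k : ℕ in atTop,
    (AA1 g CA M (2 ^ k) (56 * k) / (1 + 2 ^ (3 * k)) + 2 * (ww4 (2 ^ (28 * k)) (1 / 2 ^ (30 * k)) + 12 * g * (1 / (2 * 2 ^ (3 * k))))) *
      (Real.log (2 * (((2 ^ k : ℕ) : ℝ) ^ n + 1)) + Real.log (1 / kapp g n CA M (2 ^ k) (56 * k)) + Real.log (AA1 g CA M (2 ^ k) (56 * k))) ≤ 1 := by
  obtain ⟨C, hC1, hC⟩ := Ap_bound g CA M h1 h2
  obtain ⟨D, hD1, hD⟩ := kapp_bound g n CA M h1 h2 hn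
  filter_upwards [poly_small ((C + 34 + 12 * g) * (2 * n + 4 + C)) 2,
    eventually_ge_atTop 1] with k hk hk1
  obtain ⟨b1, b2, b3, b4, b5⟩ := hC k hk1
  obtain ⟨d1, d2, d3⟩ := hD k hk1
  have hkr : (1 : ℝ) ≤ k := by exact_mod_cast hk1
  have hk0 : (0 : ℝ) < k := by linarith
  have hC0 : 0 < C := by linarith
  have hg : (0 : ℝ) ≤ g := Nat.cast_nonneg g
  have hn0 : (0 : ℝ) ≤ n := Nat.cast_nonneg n
  set A1 : ℝ := AA1 g CA M (2 ^ k) (56 * k) with hA1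
  have hA10 : 0 ≤ A1 := by linarith
  have hw0 := zp6_ww4_nonneg k
  have hF0 : 0 ≤ A1 / (1 + 2 ^ (3 * k)) + 2 * (ww4 (2 ^ (28 * k)) (1 / 2 ^ (30 * k)) +
      12 * g * (1 / (2 * 2 ^ (3 * k)))) := by positivity
  have hF : A1 / (1 + 2 ^ (3 * k)) + 2 * (ww4 (2 ^ (28 * k)) (1 / 2 ^ (30 * k)) +
      12 * g * (1 / (2 * 2 ^ (3 * k)))) ≤ (C + 34 + 12 * g) * k * (1 / 2 ^ (2 * k)) := by
    have e1 : A1 / (1 + 2 ^ (3 * k)) ≤ C * k * (1 / 2 ^ (2 * k)) := by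
      calc A1 / (1 + 2 ^ (3 * k)) ≤ C * k * 2 ^ k / 2 ^ (3 * k) := by
            gcongr
            linarith
        _ = C * k * (2 ^ k / 2 ^ (3 * k)) := by ring
        _ ≤ C * k * (1 / 2 ^ (2 * k)) :=
            mul_le_mul_of_nonneg_left (zp6_pow (by omega)) (by positivity)
    have e2 : ww4 (2 ^ (28 * k)) (1 / 2 ^ (30 * k)) ≤ 17 * (1 / 2 ^ (2 * k)) :=
      zp6_ww4 (by omega)
    have e3 : 12 * g * (1 / (2 * (2 : ℝ) ^ (3 * k))) ≤ 6 * g * (1 / 2 ^ (2 * k)) := by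
      calc 12 * g * (1 / (2 * (2 : ℝ) ^ (3 * k))) = 6 * g * (1 / 2 ^ (3 * k)) := by
            field_simp
            ring
        _ ≤ 6 * g * (1 / 2 ^ (2 * k)) :=
            mul_le_mul_of_nonneg_left (zp6_pow1 (by omega)) (by positivity)
    have hE0 : (0 : ℝ) ≤ 1 / 2 ^ (2 * k) := by positivity
    calc _ ≤ C * k * (1 / 2 ^ (2 * k)) + 2 * (17 * (1 / 2 ^ (2 * k)) + 6 * g * (1 / 2 ^ (2 * k))) := by
          linarith
      _ = (C * k + 34 * 1 + 12 * g * 1) * (1 / 2 ^ (2 * k)) := by ring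
      _ ≤ (C * k + 34 * k + 12 * g * k) * (1 / 2 ^ (2 * k)) := by gcongr
      _ = (C + 34 + 12 * g) * k * (1 / 2 ^ (2 * k)) := by ring
  have hG : Real.log (2 * (((2 ^ k : ℕ) : ℝ) ^ n + 1)) +
      Real.log (1 / kapp g n CA M (2 ^ k) (56 * k)) + Real.log A1 ≤ (2 * n + 4 + C) * k := by
    have e1 : Real.log (2 * (((2 ^ k : ℕ) : ℝ) ^ n + 1)) ≤ (n + 2) * k := by
      have e0 : 2 * (((2 ^ k : ℕ) : ℝ) ^ n + 1) ≤ 2 ^ (n * k + 2) := by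
        push_cast
        rw [← pow_mul, mul_comm k n, pow_add]
        have : (1 : ℝ) ≤ 2 ^ (n * k) := one_le_pow₀ (by norm_num)
        linarith
      have e2 := Real.log_le_log (by positivity) e0
      refine e2.trans ((zp6_logpow _).trans ?_)
      push_cast
      linarith
    have e2 : Real.log (1 / kapp g n CA M (2 ^ k) (56 * k)) ≤ n * k := by
      have e3 := Real.log_le_log (one_div_pos.mpr d1) d3
      refine e3.trans ((zp6_logpow _).trans ?_)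
      push_cast
      exact le_rfl
    have e3 : Real.log A1 ≤ (C + 2) * k := by
      have e4 := Real.log_le_log (by linarith : 0 < A1) b3
      rw [Real.log_mul (by positivity) (by positivity), Real.log_mul hC0.ne' hk0.ne'] at e4
      have e5 := zp6_logpow k
      have e6 : Real.log C ≤ C := (Real.log_le_sub_one_of_pos hC0).trans (by linarith)
      have e7 : Real.log k ≤ k := (Real.log_le_sub_one_of_pos hk0).trans (by linarith)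
      have e8 : C ≤ C * k := le_mul_of_one_le_right hC0.le hkr
      linarith
    linarith
  have hG0 : 0 ≤ (2 * n + 4 + C) * (k : ℝ) := by positivity
  calc _ ≤ (A1 / (1 + 2 ^ (3 * k)) + 2 * (ww4 (2 ^ (28 * k)) (1 / 2 ^ (30 * k)) +
        12 * g * (1 / (2 * 2 ^ (3 * k))))) * ((2 * n + 4 + C) * k) :=
        mul_le_mul_of_nonneg_left hG hF0
    _ ≤ ((C + 34 + 12 * g) * k * (1 / 2 ^ (2 * k))) * ((2 * n + 4 + C) * k) :=
        mul_le_mul_of_nonneg_right hF hG0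
    _ = ((C + 34 + 12 * g) * (2 * n + 4 + C) * (k : ℝ) ^ 2) / 2 ^ (2 * k) := by ring
    _ ≤ 2 ^ k / 2 ^ (2 * k) := by gcongr
    _ ≤ 1 / 2 ^ k := zp6_pow (by omega)
    _ ≤ 1 := by
        rw [div_le_one (by positivity)]
        exact one_le_pow₀ (by norm_num)

/-- ZP6b. Chunk ZP6 (size M). The second error term: `2 th I + ww4 ≤ 2 * 2^(-10k) + 17 * 2^(-28k)`, `log(Pmax + 2) ≤ 2^(7k)` (`Pmax_bound`), `log(K^n + 2) ≤ C k`. -/
theorem par_err2 (n : ℕ) : ∀ᶠ k : ℕ in atTop,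
    (2 * (1 / 2 ^ (17 * k)) * ((2 ^ (7 * k) : ℕ) : ℝ) + ww4 (2 ^ (28 * k)) (1 / 2 ^ (30 * k))) *
      (Real.log (((2 ^ k : ℕ) : ℝ) ^ n + 2) + Real.log (((Pmax (2 ^ (6 * k)) (2 ^ (40 * k)) : ℕ) : ℝ) + 2)) ≤ 1 := by
  filter_upwards [poly_small (19 * (n + 3)) 1, Pmax_bound 9,
    eventually_ge_atTop 1] with k hk hP hk1
  have hkr : (1 : ℝ) ≤ k := by exact_mod_cast hk1
  have hk0 : (0 : ℝ) < k := by linarith
  have hn0 : (0 : ℝ) ≤ n := Nat.cast_nonneg n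
  have hw0 := zp6_ww4_nonneg k
  have hF0 : (0 : ℝ) ≤ 2 * (1 / 2 ^ (17 * k)) * ((2 ^ (7 * k) : ℕ) : ℝ) +
      ww4 (2 ^ (28 * k)) (1 / 2 ^ (30 * k)) := by positivity
  have hF : (2 : ℝ) * (1 / 2 ^ (17 * k)) * ((2 ^ (7 * k) : ℕ) : ℝ) +
      ww4 (2 ^ (28 * k)) (1 / 2 ^ (30 * k)) ≤ 19 * (1 / 2 ^ (10 * k)) := by
    have e1 : (2 : ℝ) * (1 / 2 ^ (17 * k)) * ((2 ^ (7 * k) : ℕ) : ℝ) ≤ 2 * (1 / 2 ^ (10 * k)) := by
      push_cast
      calc (2 : ℝ) * (1 / 2 ^ (17 * k)) * 2 ^ (7 * k) = 2 * (2 ^ (7 * k) / 2 ^ (17 * k)) := by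
            ring
        _ ≤ 2 * (1 / 2 ^ (10 * k)) :=
            mul_le_mul_of_nonneg_left (zp6_pow (by omega)) (by positivity)
    have e2 : ww4 (2 ^ (28 * k)) (1 / 2 ^ (30 * k)) ≤ 17 * (1 / 2 ^ (10 * k)) :=
      zp6_ww4 (by omega)
    linarith
  set P : ℝ := ((Pmax (2 ^ (6 * k)) (2 ^ (40 * k)) : ℕ) : ℝ) with hPd
  have hP1 : 1 ≤ P := by
    rw [hPd]
    exact_mod_cast zp3_one_le _ _
  have hG : Real.log (((2 ^ k : ℕ) : ℝ) ^ n + 2) + Real.log (P + 2) ≤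
      (n + 3) * k * 2 ^ (7 * k) := by
    have h7 : (1 : ℝ) ≤ 2 ^ (7 * k) := one_le_pow₀ (by norm_num)
    have e1 : Real.log (((2 ^ k : ℕ) : ℝ) ^ n + 2) ≤ (n + 2) * k := by
      have e0 : ((2 ^ k : ℕ) : ℝ) ^ n + 2 ≤ 2 ^ (n * k + 2) := by
        push_cast
        rw [← pow_mul, mul_comm k n, pow_add]
        have : (1 : ℝ) ≤ 2 ^ (n * k) := one_le_pow₀ (by norm_num)
        linarith
      have e2 := Real.log_le_log (by positivity) e0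
      refine e2.trans ((zp6_logpow _).trans ?_)
      push_cast
      linarith
    have e2 : Real.log (P + 2) ≤ 2 ^ (7 * k) := by
      rw [Real.log_le_iff_le_exp (by linarith)]
      refine le_trans ?_ hP
      have h5 : (1 : ℝ) ≤ 2 ^ (50 * k) := one_le_pow₀ (by norm_num)
      have h6 : P ≤ P ^ 2 := by nlinarith
      calc P + 2 ≤ 9 * 1 * P ^ 2 := by linarith
        _ ≤ 9 * 2 ^ (50 * k) * P ^ 2 := by gcongr
    calc _ ≤ ((n : ℝ) + 2) * k + 2 ^ (7 * k) := by linarith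
      _ = ((n : ℝ) + 2) * k * 1 + 1 * 2 ^ (7 * k) := by ring
      _ ≤ ((n : ℝ) + 2) * k * 2 ^ (7 * k) + k * 2 ^ (7 * k) := by gcongr
      _ = ((n : ℝ) + 3) * k * 2 ^ (7 * k) := by ring
  have hG0 : 0 ≤ ((n : ℝ) + 3) * k * 2 ^ (7 * k) := by positivity
  calc _ ≤ (2 * (1 / 2 ^ (17 * k)) * ((2 ^ (7 * k) : ℕ) : ℝ) +
        ww4 (2 ^ (28 * k)) (1 / 2 ^ (30 * k))) * ((n + 3) * k * 2 ^ (7 * k)) :=
        mul_le_mul_of_nonneg_left hG hF0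
    _ ≤ (19 * (1 / 2 ^ (10 * k))) * ((n + 3) * k * 2 ^ (7 * k)) :=
        mul_le_mul_of_nonneg_right hF hG0
    _ = (19 * (n + 3) * (k : ℝ) ^ 1) * (2 ^ (7 * k) / 2 ^ (10 * k)) := by ring
    _ ≤ 2 ^ k * (1 / 2 ^ (3 * k)) :=
        mul_le_mul hk (zp6_pow (by omega)) (by positivity) (by positivity)
    _ = 2 ^ k / 2 ^ (3 * k) := by ring
    _ ≤ 1 / 2 ^ k := zp6_pow (by omega)
    _ ≤ 1 := by
        rw [div_le_one (by positivity)]
        exact one_le_pow₀ (by norm_num)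

end H98T
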