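import Mathlib
import Pool.Agent.Lib.H98T.ZP2
import Pool.Agent.Lib.H98T.ZP3
import Pool.Agent.Lib.H98T.ZP4
import Pool.Agent.Lib.H98T.ZP5
import Pool.Agent.Lib.H98T.ZP6

set_option autoImplicit false

/-!
# H98T.ZP7: existence of parameters
-/

namespace H98T

open Filter


/-- ZP7. Chunk ZP7 (size M). GOOD PARAMETERS EXIST: take `k` large, `K = 2^k`, `q = 2^(28k)`, `r = 56 k`, `j1 = 2^(6k)`, `j2 = 2^(6k) + 2^(28k)`, `m0 = 2^(40k)`, `I = 2^(7k)`,
`Lam = 1 + 2^(3k)`, `T = exp(2^(7k))`, `th = 2^(-17k)`, `eps = 2^(-25k)`, `X = 1/(2 * 2^(3k))`, `eta = 2^(-30k)`.  `hn1`: `24 * 2^(-25k) * 2^(7k) ≤ 2^(-17k)/4` for `2^k ≥ 96`. `hfin` from `gain_tendsto`, `par_err1`,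
`par_err2`: the right side is at least `(4g-4) gain - 3 Cg`. -/
theorem exists_Par (g n : ℕ) (CA M Cg c : ℝ) (hg : 2 ≤ g) (hn : 5 ≤ n) (h1 : 1 ≤ CA) (h2 : 1 ≤ M) (h3 : 0 ≤ Cg) :
    Nonempty (Par g n CA M Cg c) := by
  obtain ⟨D, hD1, hD⟩ := kapp_bound g n CA M h1 h2 hn
  have hgain := (gain_tendsto g n CA M h1 h2 hn).eventually_ge_atTop (|c| + 1 + 3 * Cg)
  have hall := (par_eps g CA M h1 h2).and ((par_T).and ((par_I g).and ((par_X g CA M h1 h2).and
    ((par_err1 g n CA M h1 h2 hn).and ((par_err2 n).and (hgain.and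
      ((poly_small D 1).and (eventually_ge_atTop 7))))))))
  obtain ⟨k, e1, e2, e3, e4, e5, e6, e7, e8, e9⟩ := hall.exists
  obtain ⟨d1, d2, d3⟩ := hD k (by omega)
  have hp1 : ∀ m : ℕ, (1 : ℝ) ≤ 2 ^ m := fun m => one_le_pow₀ (by norm_num)
  have hk7 : (128 : ℝ) ≤ 2 ^ k := by
    have : (2 : ℝ) ^ 7 ≤ 2 ^ k := pow_le_pow_right₀ (by norm_num) e9
    norm_num at this
    exact this
  have hle : ∀ {a b : ℕ}, a ≤ b → (2 : ℝ) ^ a ≤ 2 ^ b :=
    fun h => pow_le_pow_right₀ (by norm_num) h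
  set G : ℝ := 1 / 2 * Real.log (1 / kapp g n CA M (2 ^ k) (56 * k)) -
    3 / 2 * Real.log (AA1 g CA M (2 ^ k) (56 * k)) with hG
  have hG0 : 0 ≤ G := by
    have := abs_nonneg c
    linarith
  refine ⟨{ K := 2 ^ k, q := 2 ^ (28 * k), r := 56 * k, j1 := 2 ^ (6 * k),
            j2 := 2 ^ (6 * k) + 2 ^ (28 * k), m0 := 2 ^ (40 * k), I := 2 ^ (7 * k),
            Lam := 1 + 2 ^ (3 * k), T := Real.exp (2 ^ (7 * k)), th := 1 / 2 ^ (17 * k),
            eps := 1 / 2 ^ (25 * k), X := 1 / (2 * 2 ^ (3 * k)), eta := 1 / 2 ^ (30 * k),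
            hK := ?_, hq := ?_, hr := ?_, hj1 := ?_, hj := ?_, hm0 := ?_, heta := ?_, hLam := ?_,
            hT1 := ?_, hth := ?_, hthL := ?_, heps := e1, hT := e2, hn1 := ?_, hn2 := ?_,
            hI := e3, hX := e4, hLX := ?_, hkap := ?_, hgain := hG0, hfin := ?_ }⟩
  · calc 2 = 2 ^ 1 := rfl
      _ ≤ 2 ^ k := Nat.pow_le_pow_right (by norm_num) (by omega)
  · calc 8 = 2 ^ 3 := rfl
      _ ≤ 2 ^ (28 * k) := Nat.pow_le_pow_right (by norm_num) (by omega)
  · rw [← pow_mul]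
    congr 1
    omega
  · exact Nat.one_le_two_pow
  · exact Nat.lt_add_of_pos_right (by positivity)
  · exact Nat.one_le_two_pow
  · positivity
  · have := hp1 (3 * k)
    linarith
  · exact Real.one_le_exp (by positivity)
  · positivity
  · rw [one_div_mul_eq_div, div_le_one (by positivity)]
    calc (1 : ℝ) + 2 ^ (3 * k) ≤ 2 ^ (3 * k) + 2 ^ (3 * k) := by
          have := hp1 (3 * k)
          linarith
      _ = 2 ^ (3 * k + 1) := by ring
      _ ≤ 2 ^ (17 * k) := hle (by omega)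
  · rw [Real.log_exp]
    have h4 : (24 : ℝ) * (1 / 2 ^ (25 * k)) * 2 ^ (7 * k) = 24 * 2 ^ (7 * k) / 2 ^ (25 * k) := by ring
    have h5 : (1 : ℝ) / 2 ^ (17 * k) / 4 = 1 / (4 * 2 ^ (17 * k)) := by
      rw [div_div, mul_comm]
    rw [h4, h5, div_le_div_iff₀ (by positivity) (by positivity)]
    calc (24 : ℝ) * 2 ^ (7 * k) * (4 * 2 ^ (17 * k)) = 96 * (2 ^ (7 * k) * 2 ^ (17 * k)) := by ring
      _ ≤ 2 ^ k * (2 ^ (7 * k) * 2 ^ (17 * k)) := by
          gcongr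
          linarith
      _ = 1 * 2 ^ (25 * k) := by
          rw [← pow_add, ← pow_add, one_mul]
          congr 1
          omega
  · have h4 : (24 : ℝ) * (1 / 2 ^ (25 * k)) * (1 + 2 ^ (3 * k)) =
        24 * (1 + 2 ^ (3 * k)) / 2 ^ (25 * k) := by ring
    rw [h4, div_le_one (by positivity)]
    calc (24 : ℝ) * (1 + 2 ^ (3 * k)) ≤ 24 * (2 ^ (3 * k) + 2 ^ (3 * k)) := by
          have := hp1 (3 * k)
          gcongr
      _ = 48 * 2 ^ (3 * k) := by ring
      _ ≤ 2 ^ k * 2 ^ (3 * k) := by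
          gcongr
          linarith
      _ = 2 ^ (4 * k) := by
          rw [← pow_add]
          congr 1
          omega
      _ ≤ 2 ^ (25 * k) := hle (by omega)
  · rw [mul_one_div, div_le_one (by positivity)]
    have := hp1 (3 * k)
    linarith
  · refine d2.trans ?_
    rw [div_le_one (by positivity)]
    rw [pow_one] at e8
    refine e8.trans (hle ?_)
    calc k = 1 * k := (one_mul k).symm
      _ ≤ (n - 1) * k := Nat.mul_le_mul_right _ (by omega)
  · have h4 : (1 : ℝ) ≤ 4 * g - 4 := by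
      have : (2 : ℝ) ≤ g := by exact_mod_cast hg
      linarith
    have h5 : G ≤ (4 * g - 4) * G := le_mul_of_one_le_left hG0 h4
    have h6 := mul_le_mul_of_nonneg_left
      (add_le_add (add_le_add_right e5 1) e6) h3
    have h7 := le_abs_self c
    have h8 : |c| + 1 + 3 * Cg ≤ G := e7
    refine le_trans ?_ (sub_le_sub h5 h6)
    linarith

end H98T
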