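import Mathlib
import Pool.Agent.Lib.H98T.Z11
import Pool.Agent.Lib.H98T.H14

set_option autoImplicit false

/-!
# H98T.Z12: expanding covers without digitization
-/

namespace H98T

open Finset


theorem z12_exp {x : ℝ} (hx : 3 ≤ x) : 6 < Real.exp x := by
  have h1 := Real.quadratic_le_exp_of_nonneg (by linarith : (0 : ℝ) ≤ x)
  nlinarith

open Classical in
/-- The two counts, compared. -/
theorem z12_compare (n g C0 : ℕ) (hn : 5 ≤ n) (hg : 2 ≤ g) (M : ℝ) : ∃ d0 : ℕ, 6 ≤ d0 ∧ ∀ d : ℕ, d0 ≤ d →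
    ((univ.filter (fun σ : Fin (2 * g) → Equiv.Perm (Fin d) =>
      IsCov σ ∧ Expand (two σ) ∧ ∃ W : ℕ, (W : ℝ) ^ (n - 1) ≤ M * d ∧ Digi σ n C0 W)).card : ℝ) ≤
      Real.exp (-(d : ℝ)) * ((univ.filter (fun σ : Fin (2 * g) → Equiv.Perm (Fin d) => IsCov σ ∧ Expand (two σ))).card : ℝ) ∧
    (0 : ℝ) < ((univ.filter (fun σ : Fin (2 * g) → Equiv.Perm (Fin d) => IsCov σ ∧ Expand (two σ))).card : ℝ) := by
  obtain ⟨d1, h1⟩ := core_count n g C0 hn hg (max M 1) 2 (le_max_right _ _)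
  obtain ⟨d2, h2⟩ := hom_lower hg (ε := 1 / 2) (by norm_num)
  refine ⟨max 6 (max d1 d2), le_max_left _ _, fun d hd => ?_⟩
  have hd6 : 6 ≤ d := le_trans (le_max_left _ _) hd
  have hd1 : d1 ≤ d := le_trans (le_trans (le_max_left _ _) (le_max_right _ _)) hd
  have hd2 : d2 ≤ d := le_trans (le_trans (le_max_right _ _) (le_max_right _ _)) hd
  have g1 := h1 d hd1
  have g2 := h2 d hd2
  have hdR : (6 : ℝ) ≤ d := by exact_mod_cast hd6
  have hF : (0 : ℝ) < (d.factorial : ℝ) ^ (2 * g - 1) := by positivity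
  have hsub : ((univ.filter (fun σ : Fin (2 * g) → Equiv.Perm (Fin d) =>
      IsCov σ ∧ Expand (two σ) ∧ ∃ W : ℕ, (W : ℝ) ^ (n - 1) ≤ M * d ∧ Digi σ n C0 W)).card : ℝ) ≤
      ((univ.filter (fun σ : Fin (2 * g) → Equiv.Perm (Fin d) =>
      IsCov σ ∧ Expand (two σ) ∧ ∃ W : ℕ, (W : ℝ) ^ (n - 1) ≤ max M 1 * d ∧ Digi σ n C0 W)).card : ℝ) := by
    have : (univ.filter (fun σ : Fin (2 * g) → Equiv.Perm (Fin d) =>
      IsCov σ ∧ Expand (two σ) ∧ ∃ W : ℕ, (W : ℝ) ^ (n - 1) ≤ M * d ∧ Digi σ n C0 W)).card ≤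
      (univ.filter (fun σ : Fin (2 * g) → Equiv.Perm (Fin d) =>
      IsCov σ ∧ Expand (two σ) ∧ ∃ W : ℕ, (W : ℝ) ^ (n - 1) ≤ max M 1 * d ∧ Digi σ n C0 W)).card := by
      refine Finset.card_le_card ?_
      intro σ hσ
      obtain ⟨-, a, b, W, c, e⟩ := Finset.mem_filter.1 hσ
      exact Finset.mem_filter.2 ⟨Finset.mem_univ _, a, b, W, c.trans (mul_le_mul_of_nonneg_right (le_max_left _ _) (Nat.cast_nonneg _)), e⟩
    exact_mod_cast this
  have hexp : 3 * Real.exp (-(2 * (d : ℝ))) ≤ Real.exp (-(d : ℝ)) * (1 / 2 * Real.exp (-(1 / 2 * (d : ℝ)))) := by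
    have e1 : Real.exp (-(d : ℝ)) * (1 / 2 * Real.exp (-(1 / 2 * (d : ℝ)))) =
        1 / 2 * (Real.exp (1 / 2 * (d : ℝ)) * Real.exp (-(2 * (d : ℝ)))) := by
      rw [← Real.exp_add]
      have : Real.exp (-(d : ℝ)) * (1 / 2 * Real.exp (-(1 / 2 * (d : ℝ)))) = 1 / 2 * (Real.exp (-(d : ℝ)) * Real.exp (-(1 / 2 * (d : ℝ)))) := by ring
      rw [this, ← Real.exp_add]
      congr 2
      ring
    rw [e1]
    have h6 := z12_exp (x := 1 / 2 * (d : ℝ)) (by linarith)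
    have hpos := Real.exp_pos (-(2 * (d : ℝ)))
    nlinarith
  constructor
  · calc _ ≤ _ := hsub
      _ ≤ 3 * (Real.exp (-(2 * (d : ℝ))) * (d.factorial : ℝ) ^ (2 * g - 1)) := g1
      _ = (3 * Real.exp (-(2 * (d : ℝ)))) * (d.factorial : ℝ) ^ (2 * g - 1) := by ring
      _ ≤ (Real.exp (-(d : ℝ)) * (1 / 2 * Real.exp (-(1 / 2 * (d : ℝ))))) * (d.factorial : ℝ) ^ (2 * g - 1) :=
        mul_le_mul_of_nonneg_right hexp hF.le
      _ = Real.exp (-(d : ℝ)) * (1 / 2 * Real.exp (-(1 / 2 * (d : ℝ))) * (d.factorial : ℝ) ^ (2 * g - 1)) := by ring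
      _ ≤ _ := mul_le_mul_of_nonneg_left g2 (Real.exp_pos _).le
  · refine lt_of_lt_of_le ?_ g2
    positivity

/-- Z12. Chunk Z12 (size S/M). For large `d` there is an expanding covering which has no digitization in a small cube.  Proof: `hom_lower` with `ε = 1/2`, `core_count` with `c = 2`:
`3 exp(-2d) < 1/2 exp(-d/2)` for `d ≥ 2`. -/
theorem exists_cov (n g C0 : ℕ) (hn : 5 ≤ n) (hg : 2 ≤ g) (M : ℝ) : ∃ d0 : ℕ, ∀ d : ℕ, d0 ≤ d →
    ∃ σ : Fin (2 * g) → Equiv.Perm (Fin d), IsCov σ ∧ Expand (two σ) ∧ ∀ W : ℕ, (W : ℝ) ^ (n - 1) ≤ M * d → ¬ Digi σ n C0 W := by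
  classical
  obtain ⟨d0, h6, h⟩ := z12_compare n g C0 hn hg M
  refine ⟨d0, fun d hd => ?_⟩
  obtain ⟨h1, h2⟩ := h d hd
  by_contra hcon
  push Not at hcon
  have hsub : (univ.filter (fun σ : Fin (2 * g) → Equiv.Perm (Fin d) => IsCov σ ∧ Expand (two σ))).card ≤
      (univ.filter (fun σ : Fin (2 * g) → Equiv.Perm (Fin d) =>
      IsCov σ ∧ Expand (two σ) ∧ ∃ W : ℕ, (W : ℝ) ^ (n - 1) ≤ M * d ∧ Digi σ n C0 W)).card := by
    refine Finset.card_le_card ?_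
    intro σ hσ
    obtain ⟨-, a, b⟩ := Finset.mem_filter.1 hσ
    obtain ⟨W, hW1, hW2⟩ := hcon σ a b
    exact Finset.mem_filter.2 ⟨Finset.mem_univ _, a, b, W, hW1, hW2⟩
  have hsub' : ((univ.filter (fun σ : Fin (2 * g) → Equiv.Perm (Fin d) => IsCov σ ∧ Expand (two σ))).card : ℝ) ≤
      ((univ.filter (fun σ : Fin (2 * g) → Equiv.Perm (Fin d) =>
      IsCov σ ∧ Expand (two σ) ∧ ∃ W : ℕ, (W : ℝ) ^ (n - 1) ≤ M * d ∧ Digi σ n C0 W)).card : ℝ) := by exact_mod_cast hsub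
  have h3 : Real.exp (-(d : ℝ)) < 1 := by
    rw [Real.exp_lt_one_iff]
    have : (6 : ℝ) ≤ d := by exact_mod_cast le_trans h6 hd
    linarith
  nlinarith

open Classical in
/-- Z12b. Chunk Z12 (size M). ALMOST ALL expanding coverings: the proportion of the coverings having a digitization among the expanding ones is at most `exp(-d)`. -/
theorem almost_all_cov (n g C0 : ℕ) (hn : 5 ≤ n) (hg : 2 ≤ g) (M : ℝ) : ∃ d0 : ℕ, ∀ d : ℕ, d0 ≤ d →
    ((univ.filter (fun σ : Fin (2 * g) → Equiv.Perm (Fin d) =>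
      IsCov σ ∧ Expand (two σ) ∧ ∃ W : ℕ, (W : ℝ) ^ (n - 1) ≤ M * d ∧ Digi σ n C0 W)).card : ℝ) ≤
      Real.exp (-(d : ℝ)) * ((univ.filter (fun σ : Fin (2 * g) → Equiv.Perm (Fin d) => IsCov σ ∧ Expand (two σ))).card : ℝ) := by
  obtain ⟨d0, -, h⟩ := z12_compare n g C0 hn hg M
  exact ⟨d0, fun d hd => (h d hd).1⟩

end H98T
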