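import Pool.Agent.Lib.H98T.H11

/-! # H12: the sum over the sizes -/

namespace H98T

open Finset

/-- `k ≤ (16/15)^k` for `k ≥ 100`. PROOF. Induction; `(16/15)^100 ≥ 100` because
`(16/15)^10 ≥ 1.9` and `1.9^10 ≥ 600` (`norm_num`), step: `1 + 1/k ≤ 16/15`. -/
theorem le_pow_16 {k : ℕ} (h : 100 ≤ k) : (k : ℝ) ≤ (16 / 15 : ℝ) ^ k := by
  induction k, h using Nat.le_induction with
  | base => norm_num
  | succ k hk ih =>
    have hk' : (100 : ℝ) ≤ k := by exact_mod_cast hk
    rw [pow_succ]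
    push_cast
    nlinarith

theorem h12_mono {d k : ℕ} (hk : 1 ≤ k) (h : 2 * k ≤ d) : d ≤ d.choose k := by
  induction k, hk using Nat.le_induction with
  | base => rw [Nat.choose_one_right]
  | succ k hk ih =>
    exact (ih (by omega)).trans (Nat.choose_le_succ_of_lt_half_left (by omega))

theorem h12_inner {d k : ℕ} (hk : 0 < k) (h : 2 * k ≤ d) (hk2 : 100 ≤ k) :
    (∑ t ∈ (range k).filter (fun t => 100 * t < k),
        ((2 * k).choose t : ℝ) * (2 * (d - k)).choose t) / d.choose k ≤ (4 / 5 : ℝ) ^ k := by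
  rw [Finset.sum_div]
  have h1 : ∑ t ∈ (range k).filter (fun t => 100 * t < k),
      ((2 * k).choose t : ℝ) * (2 * (d - k)).choose t / d.choose k ≤
      ∑ _t ∈ (range k).filter (fun t => 100 * t < k), (3 / 4 : ℝ) ^ k := by
    apply sum_le_sum
    intro t ht
    rw [mem_filter] at ht
    exact term_le hk h ht.2
  refine h1.trans ?_
  rw [sum_const, nsmul_eq_mul]
  have h2 : (((range k).filter (fun t => 100 * t < k)).card : ℝ) ≤ k := by
    have := card_filter_le (range k) (fun t => 100 * t < k)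
    rw [card_range] at this
    exact_mod_cast this
  calc (((range k).filter (fun t => 100 * t < k)).card : ℝ) * (3 / 4 : ℝ) ^ k
      ≤ (16 / 15 : ℝ) ^ k * (3 / 4 : ℝ) ^ k := by
        gcongr
        exact h2.trans (le_pow_16 hk2)
    _ = (4 / 5 : ℝ) ^ k := by
        rw [← mul_pow]
        norm_num

theorem h12_small {d k : ℕ} (hd : 400 ≤ d) (hk : 0 < k) (h : 2 * k ≤ d) (hk2 : k < 100) :
    (∑ t ∈ (range k).filter (fun t => 100 * t < k),
        ((2 * k).choose t : ℝ) * (2 * (d - k)).choose t) / d.choose k ≤ 1 / 400 := by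
  have h1 : (range k).filter (fun t => 100 * t < k) = {0} := by
    ext t
    rw [mem_filter, mem_range, mem_singleton]
    omega
  rw [h1, sum_singleton, Nat.choose_zero_right, Nat.choose_zero_right]
  have h2 : (400 : ℝ) ≤ d.choose k := by
    have := hd.trans (h12_mono hk h)
    exact_mod_cast this
  push_cast
  rw [one_mul]
  exact one_div_le_one_div_of_le (by norm_num) h2

/-- PROOF. `k < 100`: only `t = 0`, the inner sum is `1`, `C(d,k) ≥ d` (`1 ≤ k ≤ d/2`, e.g.
`Nat.choose_le_..`, or `d ≤ C(d,1) ≤ C(d,k)` by `Nat.choose_le_choose..`/`Nat.choose_mono`), so these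
terms sum to at most `99/d ≤ 1/4` (`d ≥ 400`). `k ≥ 100`: the inner sum has at most `k` terms, each over
`C(d,k)` at most `(3/4)^k` (`term_le`), total `k (3/4)^k ≤ (4/5)^k` (`le_pow_16`), and
`∑ k≥100, (4/5)^k ≤ 5 (4/5)^100 ≤ 1/4`. -/
theorem sum_le_half {d : ℕ} (h : 400 ≤ d) :
    ∑ k ∈ (range d).filter (fun k => 0 < k ∧ 2 * k ≤ d),
      (∑ t ∈ (range k).filter (fun t => 100 * t < k),
        ((2 * k).choose t : ℝ) * (2 * (d - k)).choose t) / d.choose k ≤ 1 / 2 := by
  set F : ℕ → ℝ := fun k => (∑ t ∈ (range k).filter (fun t => 100 * t < k),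
        ((2 * k).choose t : ℝ) * (2 * (d - k)).choose t) / d.choose k with hF
  rw [← sum_filter_add_sum_filter_not _ (fun k => k < 100)]
  have hA : ∑ k ∈ ((range d).filter (fun k => 0 < k ∧ 2 * k ≤ d)).filter (fun k => k < 100), F k ≤
      99 * (1 / 400) := by
    have h1 : ∑ k ∈ ((range d).filter (fun k => 0 < k ∧ 2 * k ≤ d)).filter (fun k => k < 100),
        F k ≤ ∑ _k ∈ ((range d).filter (fun k => 0 < k ∧ 2 * k ≤ d)).filter (fun k => k < 100),
        (1 / 400 : ℝ) := by
      apply sum_le_sum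
      intro k hk
      rw [mem_filter, mem_filter] at hk
      exact h12_small h hk.1.2.1 hk.1.2.2 hk.2
    refine h1.trans ?_
    rw [sum_const, nsmul_eq_mul]
    have h2 : ((range d).filter (fun k => 0 < k ∧ 2 * k ≤ d)).filter (fun k => k < 100) ⊆
        Ico 1 100 := by
      intro k hk
      rw [mem_filter, mem_filter] at hk
      rw [mem_Ico]
      exact ⟨hk.1.2.1, hk.2⟩
    have h3 := card_le_card h2
    rw [Nat.card_Ico] at h3
    have h4 : ((((range d).filter (fun k => 0 < k ∧ 2 * k ≤ d)).filter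
        (fun k => k < 100)).card : ℝ) ≤ 99 := by exact_mod_cast h3
    gcongr
  have hB : ∑ k ∈ ((range d).filter (fun k => 0 < k ∧ 2 * k ≤ d)).filter (fun k => ¬ k < 100),
      F k ≤ 1 / 4 := by
    have h1 : ∑ k ∈ ((range d).filter (fun k => 0 < k ∧ 2 * k ≤ d)).filter (fun k => ¬ k < 100),
        F k ≤ ∑ k ∈ ((range d).filter (fun k => 0 < k ∧ 2 * k ≤ d)).filter (fun k => ¬ k < 100),
        (4 / 5 : ℝ) ^ k := by
      apply sum_le_sum
      intro k hk
      rw [mem_filter, mem_filter] at hk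
      exact h12_inner hk.1.2.1 hk.1.2.2 (not_lt.mp hk.2)
    refine h1.trans ?_
    have h2 : ((range d).filter (fun k => 0 < k ∧ 2 * k ≤ d)).filter (fun k => ¬ k < 100) ⊆
        Ico 100 d := by
      intro k hk
      rw [mem_filter, mem_filter, mem_range] at hk
      rw [mem_Ico]
      exact ⟨not_lt.mp hk.2, hk.1.1⟩
    have h3 : ∑ k ∈ ((range d).filter (fun k => 0 < k ∧ 2 * k ≤ d)).filter (fun k => ¬ k < 100),
        (4 / 5 : ℝ) ^ k ≤ ∑ k ∈ Ico 100 d, (4 / 5 : ℝ) ^ k :=
      sum_le_sum_of_subset_of_nonneg h2 fun k _ _ => by positivity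
    refine h3.trans ?_
    have h4 := geom_sum_Ico_le_of_lt_one (x := (4 / 5 : ℝ)) (m := 100) (n := d) (by norm_num)
      (by norm_num)
    refine h4.trans ?_
    norm_num
  linarith

end H98T
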