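import Pool.Agent.Lib.H98T.H10
import Pool.Agent.Lib.H98T.H12

/-! # H13: at least half of all pairs expand; the boundary theorem `hom_lower` -/

namespace H98T

open Finset

/-- PROOF. A pair which does not expand is bad for some `U` with `0 < |U|`, `2 |U| ≤ d` (`push Not`).
Union bound over `U`, grouped by `k = |U|` (`C(d,k)` sets, `card_powersetCard`): by `card_bad_le` the
number of bad pairs is at most `∑ k, C(d,k) (d!)^2 / C(d,k)^2 * ∑ t, .. = (d!)^2 * (sum of sum_le_half)`. -/
theorem expand_half {d : ℕ} (h : 400 ≤ d) : ((d.factorial : ℝ) ^ 2) / 2 ≤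
    cnt2 (fun ρ : Fin 2 → Equiv.Perm (Fin d) => Expand ρ) := by
  classical
  set W : Finset (Finset (Fin d)) :=
    Finset.univ.filter (fun U => 0 < U.card ∧ 2 * U.card ≤ d) with hW
  set bad : Finset (Fin d) → Finset (Fin 2 → Equiv.Perm (Fin d)) := fun U =>
    univ.filter fun ρ : Fin 2 → Equiv.Perm (Fin d) =>
      100 * ((U.image (ρ 0) \ U).card + (U.image (ρ 1) \ U).card) < U.card with hbad
  set S : ℕ → ℝ := fun k => ∑ t ∈ (range k).filter (fun t => 100 * t < k),
        ((2 * k).choose t : ℝ) * (2 * (d - k)).choose t with hS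
  have hS0 : ∀ k, 0 ≤ S k := fun k => Finset.sum_nonneg (fun t _ => by positivity)
  have hf : (0 : ℝ) < d.factorial := by exact_mod_cast Nat.factorial_pos d
  have hbadU : ∀ U ∈ W, ((bad U).card : ℝ) ≤
      (d.factorial : ℝ) ^ 2 * S U.card / (d.choose U.card : ℝ) ^ 2 := by
    intro U hU
    rw [hW, Finset.mem_filter] at hU
    have hC : (0 : ℝ) < (d.choose U.card : ℝ) := by
      exact_mod_cast Nat.choose_pos (by omega)
    rw [le_div_iff₀ (by positivity)]
    have h1 := card_bad_le U
    rw [Fintype.card_fin] at h1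
    have h2 : (((bad U).card * d.choose U.card ^ 2 : ℕ) : ℝ) ≤
        ((d.factorial ^ 2 * ∑ t ∈ (range U.card).filter (fun t => 100 * t < U.card),
          (2 * U.card).choose t * (2 * (d - U.card)).choose t : ℕ) : ℝ) := by
      exact_mod_cast h1
    push_cast at h2
    exact h2
  have hmaps : ∀ U ∈ W, U.card ∈ (range d).filter (fun k => 0 < k ∧ 2 * k ≤ d) := by
    intro U hU
    rw [hW, Finset.mem_filter] at hU
    rw [Finset.mem_filter, Finset.mem_range]
    exact ⟨by omega, hU.2⟩
  have hsum : ∑ U ∈ W, ((bad U).card : ℝ) ≤ (d.factorial : ℝ) ^ 2 * (1 / 2) := by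
    calc ∑ U ∈ W, ((bad U).card : ℝ)
        ≤ ∑ U ∈ W, (d.factorial : ℝ) ^ 2 * S U.card / (d.choose U.card : ℝ) ^ 2 :=
          Finset.sum_le_sum hbadU
      _ = ∑ k ∈ (range d).filter (fun k => 0 < k ∧ 2 * k ≤ d),
            ∑ U ∈ W.filter (fun U => U.card = k),
              (d.factorial : ℝ) ^ 2 * S U.card / (d.choose U.card : ℝ) ^ 2 :=
          (Finset.sum_fiberwise_of_maps_to hmaps _).symm
      _ ≤ ∑ k ∈ (range d).filter (fun k => 0 < k ∧ 2 * k ≤ d),
            (d.factorial : ℝ) ^ 2 * (S k / d.choose k) := by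
          refine Finset.sum_le_sum (fun k hk => ?_)
          rw [Finset.mem_filter, Finset.mem_range] at hk
          have hC : (0 : ℝ) < (d.choose k : ℝ) := by
            exact_mod_cast Nat.choose_pos (by omega)
          have h1 : ∑ U ∈ W.filter (fun U => U.card = k),
              (d.factorial : ℝ) ^ 2 * S U.card / (d.choose U.card : ℝ) ^ 2 =
              ((W.filter (fun U => U.card = k)).card : ℝ) *
                ((d.factorial : ℝ) ^ 2 * S k / (d.choose k : ℝ) ^ 2) := by
            rw [← nsmul_eq_mul, ← Finset.sum_const]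
            refine Finset.sum_congr rfl (fun U hU => ?_)
            rw [(Finset.mem_filter.1 hU).2]
          rw [h1]
          have h2 : ((W.filter (fun U => U.card = k)).card : ℝ) ≤ d.choose k := by
            have h3 : W.filter (fun U => U.card = k) ⊆
                Finset.powersetCard k (Finset.univ : Finset (Fin d)) := by
              intro U hU
              rw [Finset.mem_powersetCard]
              exact ⟨Finset.subset_univ _, (Finset.mem_filter.1 hU).2⟩
            have h4 := Finset.card_le_card h3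
            rw [Finset.card_powersetCard, Finset.card_univ, Fintype.card_fin] at h4
            exact_mod_cast h4
          calc ((W.filter (fun U => U.card = k)).card : ℝ) *
                ((d.factorial : ℝ) ^ 2 * S k / (d.choose k : ℝ) ^ 2)
              ≤ (d.choose k : ℝ) * ((d.factorial : ℝ) ^ 2 * S k / (d.choose k : ℝ) ^ 2) :=
                mul_le_mul_of_nonneg_right h2
                  (div_nonneg (mul_nonneg (by positivity) (hS0 k)) (by positivity))
            _ = (d.factorial : ℝ) ^ 2 * (S k / d.choose k) := by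
                field_simp
      _ = (d.factorial : ℝ) ^ 2 * ∑ k ∈ (range d).filter (fun k => 0 < k ∧ 2 * k ≤ d),
            S k / d.choose k := by
          rw [Finset.mul_sum]
      _ ≤ (d.factorial : ℝ) ^ 2 * (1 / 2) := by
          refine mul_le_mul_of_nonneg_left ?_ (by positivity)
          exact sum_le_half h
  have hsub : (univ.filter fun ρ : Fin 2 → Equiv.Perm (Fin d) => ¬ Expand ρ) ⊆
      W.biUnion bad := by
    intro ρ hρ
    rw [Finset.mem_filter] at hρ
    have h1 := hρ.2
    unfold Expand at h1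
    push Not at h1
    obtain ⟨U, hU, hU2, hU3⟩ := h1
    rw [Fintype.card_fin] at hU2
    rw [Finset.mem_biUnion]
    refine ⟨U, ?_, ?_⟩
    · rw [hW, Finset.mem_filter]
      exact ⟨Finset.mem_univ _, Finset.card_pos.2 hU, hU2⟩
    · rw [hbad, Finset.mem_filter]
      exact ⟨Finset.mem_univ _, hU3⟩
  have hcard1 : (((univ.filter fun ρ : Fin 2 → Equiv.Perm (Fin d) => ¬ Expand ρ)).card : ℝ) ≤
      (d.factorial : ℝ) ^ 2 * (1 / 2) := by
    refine le_trans ?_ hsum
    have h1 := (Finset.card_le_card hsub).trans Finset.card_biUnion_le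
    exact_mod_cast h1
  have hcard2 : (univ.filter fun ρ : Fin 2 → Equiv.Perm (Fin d) => Expand ρ).card +
      (univ.filter fun ρ : Fin 2 → Equiv.Perm (Fin d) => ¬ Expand ρ).card = d.factorial ^ 2 := by
    rw [Finset.card_filter_add_card_filter_not, Finset.card_univ, Fintype.card_fun,
      Fintype.card_perm, Fintype.card_fin, Fintype.card_fin]
  have hcard3 : ((univ.filter fun ρ : Fin 2 → Equiv.Perm (Fin d) => Expand ρ).card : ℝ) +
      ((univ.filter fun ρ : Fin 2 → Equiv.Perm (Fin d) => ¬ Expand ρ).card : ℝ) =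
        (d.factorial : ℝ) ^ 2 := by
    exact_mod_cast hcard2
  have hfin : ((cnt2 (fun ρ : Fin 2 → Equiv.Perm (Fin d) => Expand ρ) : ℕ) : ℝ) =
      ((univ.filter fun ρ : Fin 2 → Equiv.Perm (Fin d) => Expand ρ).card : ℝ) := by
    unfold cnt2
    congr 2
  rw [hfin]
  linarith

end H98T
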