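import Mathlib

/-!
# H98T D01 (S/M): factorials and final numbers
-/

namespace H98T

open Finset

/-- `n! / (n - m)! = n (n-1) ⋯ (n-m+1)` has `m` factors `≥ n - m + 1 ≥ d/2`.  Induction on `m`:
`(n - (m+1))! * (n - m) = (n - m)!` and `n - m ≥ d/2`. -/
theorem factorial_sub_le (d n m : ℕ) (hn : d ≤ n) (hm : 2 * m ≤ d) :
    ((n - m).factorial : ℝ) ≤ (2 / d) ^ m * (n.factorial : ℝ) := by
  induction m with
  | zero => simp
  | succ m ih =>
    have ih' := ih (by omega)
    have hd : (0 : ℝ) < d := by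
      have : 0 < d := by omega
      exact_mod_cast this
    have h1 : n - m = (n - (m + 1)) + 1 := by omega
    have h2 : ((n - m).factorial : ℝ) = ((n - m : ℕ) : ℝ) * ((n - (m + 1)).factorial : ℝ) := by
      rw [h1, Nat.factorial_succ]
      push_cast
      rfl
    have h3 : (d : ℝ) / 2 ≤ ((n - m : ℕ) : ℝ) := by
      have : d ≤ 2 * (n - m) := by omega
      have : (d : ℝ) ≤ 2 * ((n - m : ℕ) : ℝ) := by exact_mod_cast this
      linarith
    have h4 : (0 : ℝ) ≤ ((n - (m + 1)).factorial : ℝ) := Nat.cast_nonneg _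
    have h5 : (d : ℝ) / 2 * ((n - (m + 1)).factorial : ℝ) ≤ ((n - m).factorial : ℝ) := by
      rw [h2]
      exact mul_le_mul_of_nonneg_right h3 h4
    have h6 : ((n - (m + 1)).factorial : ℝ) ≤ 2 / d * ((n - m).factorial : ℝ) := by
      have : ((n - (m + 1)).factorial : ℝ) = 2 / d * (d / 2 * ((n - (m + 1)).factorial : ℝ)) := by
        field_simp
      rw [this]
      exact mul_le_mul_of_nonneg_left h5 (by positivity)
    calc ((n - (m + 1)).factorial : ℝ) ≤ 2 / d * ((n - m).factorial : ℝ) := h6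
      _ ≤ 2 / d * ((2 / d) ^ m * (n.factorial : ℝ)) :=
          mul_le_mul_of_nonneg_left ih' (by positivity)
      _ = (2 / d) ^ (m + 1) * (n.factorial : ℝ) := by ring

/-- `C^k / k! ≤ (e C / k)^k` (`k! ≥ (k/e)^k`, e.g. from `Real.exp` series or Stirling in Mathlib:
`Nat.factorial_lt`-like, or `(k : ℝ)^k / k! ≤ exp k`, one term of the exponential series).  For `d`
large `e C / (δ d) ≤ e^(-L)` with `L = (c + 4) / δ`, and `k ≥ δ d`, so
`C^k / k! ≤ e^(-L k) ≤ e^(-(c+4) d)`; `16^d ≤ e^(3 d)`, `d + 1 ≤ e^d`. -/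
theorem final_numbers (C δ c : ℝ) (hC : 0 ≤ C) (hδ : 0 < δ) (hc : 0 ≤ c) :
    ∃ d₀ : ℕ, ∀ d : ℕ, d₀ ≤ d → ∀ k : ℕ, δ * d ≤ k →
      (16 : ℝ) ^ d * (d + 1) * C ^ k / (k.factorial : ℝ) ≤ Real.exp (-(c * d)) := by
  set L : ℝ := (c + 5) / δ with hL
  have hL0 : 0 ≤ L := by rw [hL]; positivity
  refine ⟨⌈C * Real.exp L⌉₊, ?_⟩
  intro d hd k hk
  have hd' : C * Real.exp L ≤ d := (Nat.le_ceil _).trans (by exact_mod_cast hd)
  have hx : 0 ≤ C * Real.exp L := by positivity
  have h1 := Real.pow_div_factorial_le_exp (C * Real.exp L) hx k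
  have h2 : C ^ k / (k.factorial : ℝ) ≤ Real.exp (C * Real.exp L) * Real.exp (-(L * k)) := by
    have : C ^ k / (k.factorial : ℝ) =
        (C * Real.exp L) ^ k / (k.factorial : ℝ) * Real.exp (-(L * k)) := by
      rw [mul_pow, ← Real.exp_nat_mul, Real.exp_neg, mul_comm (k : ℝ) L]
      have := Real.exp_pos (L * k)
      field_simp
    rw [this]
    exact mul_le_mul_of_nonneg_right h1 (Real.exp_pos _).le
  have h3 : (16 : ℝ) ^ d ≤ Real.exp (3 * d) := by
    have h16 : (16 : ℝ) ≤ Real.exp 3 := by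
      have h := Real.exp_one_gt_d9
      have : Real.exp 3 = Real.exp 1 ^ 3 := by
        rw [← Real.exp_nat_mul]; norm_num
      rw [this]
      have h27 : (2.7 : ℝ) ^ 3 ≤ Real.exp 1 ^ 3 := pow_le_pow_left₀ (by norm_num) (by linarith) 3
      norm_num at h27 ⊢
      linarith
    calc (16 : ℝ) ^ d ≤ (Real.exp 3) ^ d := pow_le_pow_left₀ (by norm_num) h16 d
      _ = Real.exp (3 * d) := by rw [← Real.exp_nat_mul, mul_comm]
  have h4 : (d : ℝ) + 1 ≤ Real.exp d := Real.add_one_le_exp _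
  have h5 : (c + 5) * d ≤ L * k := by
    have : L * (δ * d) ≤ L * k := mul_le_mul_of_nonneg_left hk hL0
    have h6 : L * (δ * d) = (c + 5) * d := by
      rw [hL]; field_simp
    linarith
  calc (16 : ℝ) ^ d * (d + 1) * C ^ k / (k.factorial : ℝ)
      = (16 : ℝ) ^ d * (d + 1) * (C ^ k / (k.factorial : ℝ)) := by ring
    _ ≤ Real.exp (3 * d) * Real.exp d * (Real.exp (C * Real.exp L) * Real.exp (-(L * k))) := by
        apply mul_le_mul
        · exact mul_le_mul h3 h4 (by positivity) (Real.exp_pos _).le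
        · exact h2
        · positivity
        · positivity
    _ = Real.exp (3 * d + d + (C * Real.exp L + -(L * k))) := by
        rw [Real.exp_add, Real.exp_add, Real.exp_add]
    _ ≤ Real.exp (-(c * d)) := by
        apply Real.exp_le_exp.mpr
        nlinarith

end H98T
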