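import Pool.Agent.Lib.H98T.FDefs

/-!
# H98T F01 (S): words and their codes
-/

namespace H98T

open Finset

/-- Induction on `r` (a word is `[]`, `0 :: w` or `1 :: w`). -/
theorem mem_words (r : ℕ) (w : List (Fin 2)) : w ∈ words r ↔ w.length ≤ r := by
  induction r generalizing w with
  | zero => simp [words]
  | succ r ih =>
    rw [words]
    cases w with
    | nil => simp
    | cons i w =>
      fin_cases i <;> simp [ih]

/-- Induction on `r`: the union in the definition is disjoint, `List.cons i` is injective. -/
theorem card_words (r : ℕ) : (words r).card + 1 = 2 ^ (r + 1) := by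
  induction r with
  | zero => simp [words]
  | succ r ih =>
    rw [words]
    have h0 : ([] : List (Fin 2)) ∉ (words r).image (List.cons 0) ∪ (words r).image (List.cons 1) := by
      simp
    rw [Finset.card_insert_of_notMem h0]
    have hd : Disjoint ((words r).image (List.cons (0 : Fin 2))) ((words r).image (List.cons 1)) := by
      rw [Finset.disjoint_left]
      intro a ha hb
      rw [Finset.mem_image] at ha hb
      obtain ⟨x, -, hx⟩ := ha
      obtain ⟨y, -, hy⟩ := hb
      rw [← hx] at hy
      simp at hy
    rw [Finset.card_union_of_disjoint hd,
      Finset.card_image_of_injective _ (List.cons_injective (a := (0 : Fin 2))),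
      Finset.card_image_of_injective _ (List.cons_injective (a := (1 : Fin 2)))]
    rw [pow_succ]
    omega

/-- Induction on `w`. -/
theorem two_pow_le_code (w : List (Fin 2)) : 2 ^ w.length ≤ code w := by
  induction w with
  | nil => simp [code]
  | cons i w ih =>
    rw [code, List.length_cons, pow_succ]
    have : 2 ^ w.length ≤ (1 + i.val) * 2 ^ w.length := Nat.le_mul_of_pos_left _ (by omega)
    omega

/-- Induction on `w`: `code (i :: w) < 2^(|w|+1) + (1+i) 2^|w| - ... ≤ 2^(|w|+2)`
(use `code w < 2 * 2^|w|` and `i ≤ 1`). -/
theorem code_lt (w : List (Fin 2)) : code w < 2 ^ (w.length + 1) := by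
  induction w with
  | nil => simp [code]
  | cons i w ih =>
    rw [code, List.length_cons, pow_succ]
    have h2 : (1 + i.val) * 2 ^ w.length ≤ 2 * 2 ^ w.length :=
      Nat.mul_le_mul_right _ (by have := i.isLt; omega)
    rw [pow_succ] at ih ⊢
    omega

/-- If `|u| = |w|` both sides differ from `code u ≤ code w` by the same number.  If `|u| < |w|`
both inequalities are true and if `|w| < |u|` both are false, by the two bounds above. -/
theorem code_cons_le_iff (i : Fin 2) (u w : List (Fin 2)) :
    code (i :: u) ≤ code (i :: w) ↔ code u ≤ code w := by
  rcases lt_trichotomy u.length w.length with h | h | h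
  · have h1 : code u ≤ code w := by
      have := code_lt u
      have := two_pow_le_code w
      have : 2 ^ (u.length + 1) ≤ 2 ^ w.length := Nat.pow_le_pow_right (by norm_num) h
      omega
    have h2 : code (i :: u) ≤ code (i :: w) := by
      have := code_lt (i :: u)
      have := two_pow_le_code (i :: w)
      have : 2 ^ ((i :: u).length + 1) ≤ 2 ^ (i :: w).length :=
        Nat.pow_le_pow_right (by norm_num) (by simp; omega)
      omega
    simp [h1, h2]
  · rw [code, code, h]
    omega
  · have h1 : ¬ code u ≤ code w := by
      have := code_lt w
      have := two_pow_le_code u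
      have : 2 ^ (w.length + 1) ≤ 2 ^ u.length := Nat.pow_le_pow_right (by norm_num) h
      omega
    have h2 : ¬ code (i :: u) ≤ code (i :: w) := by
      have := code_lt (i :: w)
      have := two_pow_le_code (i :: u)
      have : 2 ^ ((i :: w).length + 1) ≤ 2 ^ (i :: u).length :=
        Nat.pow_le_pow_right (by norm_num) (by simp; omega)
      omega
    simp [h1, h2]

/-- The length is determined by the two bounds; then `code (i :: w) = code w + (1+i) 2^|w|` with
`2^|w| ≤ code w < 2 * 2^|w|` determines `i`, and `code w`, induction. -/
theorem code_injective : Function.Injective code := by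
  have hlen : ∀ u w : List (Fin 2), code u = code w → u.length = w.length := by
    intro u w h
    by_contra hne
    rcases lt_or_gt_of_ne hne with h' | h'
    · have := code_lt u
      have := two_pow_le_code w
      have : 2 ^ (u.length + 1) ≤ 2 ^ w.length := Nat.pow_le_pow_right (by norm_num) h'
      omega
    · have := code_lt w
      have := two_pow_le_code u
      have : 2 ^ (w.length + 1) ≤ 2 ^ u.length := Nat.pow_le_pow_right (by norm_num) h'
      omega
  intro u
  induction u with
  | nil =>
    intro w h
    have := hlen _ _ h
    simp at this
    exact (List.length_eq_zero_iff.mp this.symm).symm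
  | cons i u ih =>
    intro w h
    cases w with
    | nil => exact absurd (hlen _ _ h) (by simp)
    | cons j w =>
      have hl := hlen _ _ h
      simp at hl
      rw [code, code, hl] at h
      have h1 := code_lt u
      have h2 := two_pow_le_code u
      have h3 := code_lt w
      have h4 := two_pow_le_code w
      rw [hl] at h1 h2
      rw [pow_succ] at h1 h3
      have hij : i = j := by
        fin_cases i <;> fin_cases j <;> simp at h ⊢ <;> omega
      subst hij
      rw [ih (by omega : code u = code w)]

end H98T
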