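import Pool.Agent.Lib.H98T.F01

/-!
# H98T F02 (S): the first word with a property
-/

namespace H98T

open Finset

variable {r : ℕ} {P P' : List (Fin 2) → Prop} {w : List (Fin 2)}

/-- Minimum of `code` over the finite nonempty set of the `w ∈ words r` with `P w`
(`Finset.exists_min_image`, `mem_words`). -/
theorem exists_isFirst (h : ∃ w : List (Fin 2), w.length ≤ r ∧ P w) : ∃ w, IsFirst r P w := by
  classical
  obtain ⟨w0, h1, h2⟩ := h
  obtain ⟨w, hw, hmin⟩ := Finset.exists_min_image ((words r).filter P) code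
    ⟨w0, mem_filter.mpr ⟨(mem_words r w0).mpr h1, h2⟩⟩
  rw [mem_filter, mem_words] at hw
  refine ⟨w, hw.1, hw.2, fun u hu hPu => hmin u ?_⟩
  exact mem_filter.mpr ⟨(mem_words r u).mpr hu, hPu⟩

/-- Both codes are `≤` each other, `code_injective`. -/
theorem IsFirst.unique {w' : List (Fin 2)} (h : IsFirst r P w) (h' : IsFirst r P w') :
    w = w' := by
  apply code_injective
  exact le_antisymm (h.2.2 w' h'.1 h'.2.1) (h'.2.2 w h.1 h.2.1)

/-- Definition of `fw` and uniqueness. -/
theorem fw_eq_of_isFirst (h : IsFirst r P w) : fw r P = w := by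
  have hex : ∃ w, IsFirst r P w := ⟨w, h⟩
  unfold fw
  rw [dif_pos hex]
  exact IsFirst.unique hex.choose_spec h

theorem isFirst_fw (h : ∃ w : List (Fin 2), w.length ≤ r ∧ P w) : IsFirst r P (fw r P) := by
  obtain ⟨w, hw⟩ := exists_isFirst h
  rw [fw_eq_of_isFirst hw]
  exact hw

theorem fw_eq_nil_of_none (h : ∀ w : List (Fin 2), w.length ≤ r → ¬ P w) : fw r P = [] := by
  unfold fw
  rw [dif_neg]
  rintro ⟨w, hw⟩
  exact h w hw.1 hw.2.1

/-- `IsFirst r P w ↔ IsFirst r P' w` for every `w`. -/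
theorem fw_congr (h : ∀ w : List (Fin 2), w.length ≤ r → (P w ↔ P' w)) : fw r P = fw r P' := by
  by_cases hex : ∃ w : List (Fin 2), w.length ≤ r ∧ P w
  · have h1 := isFirst_fw hex
    have h2 : IsFirst r P' (fw r P) :=
      ⟨h1.1, (h _ h1.1).mp h1.2.1, fun u hu hPu => h1.2.2 u hu ((h u hu).mpr hPu)⟩
    exact (fw_eq_of_isFirst h2).symm
  · rw [fw_eq_nil_of_none (fun w hw hP => hex ⟨w, hw, hP⟩),
      fw_eq_nil_of_none (fun w hw hP => hex ⟨w, hw, (h w hw).mpr hP⟩)]

theorem length_fw_le (r : ℕ) (P : List (Fin 2) → Prop) : (fw r P).length ≤ r := by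
  by_cases hex : ∃ w : List (Fin 2), w.length ≤ r ∧ P w
  · exact (isFirst_fw hex).1
  · rw [fw_eq_nil_of_none (fun w hw hP => hex ⟨w, hw, hP⟩)]
    exact Nat.zero_le _

/-- If `P []` then `[]` has code `1`, the least possible (`two_pow_le_code`), so it is first.
Conversely if some word of length `≤ r` has `P` then `fw` has `P` (`isFirst_fw`). -/
theorem fw_eq_nil_iff : fw r P = [] ↔ P [] ∨ ∀ u : List (Fin 2), u.length ≤ r → ¬ P u := by
  constructor
  · intro h
    by_cases hex : ∃ w : List (Fin 2), w.length ≤ r ∧ P w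
    · left
      have h1 := (isFirst_fw hex).2.1
      rw [h] at h1
      exact h1
    · right
      intro u hu hPu
      exact hex ⟨u, hu, hPu⟩
  · rintro (h | h)
    · refine fw_eq_of_isFirst ⟨Nat.zero_le _, h, fun u _ _ => ?_⟩
      have h1 := two_pow_le_code u
      have h2 : 1 ≤ 2 ^ u.length := Nat.one_le_two_pow
      change 1 ≤ code u
      omega
    · exact fw_eq_nil_of_none h

/-- `i :: w` is first for `P` (it is not `[]`, so some word has `P`).  Then `w` is first for
`fun u => P (i :: u)`: let `|u| ≤ r`, `P (i :: u)`.  If `|u| < r` then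
`code (i :: w) ≤ code (i :: u)`, so `code w ≤ code u` by `code_cons_le_iff`.  If `|u| = r` then
`|w| < r = |u|`, so `code w < 2^(|w|+1) ≤ 2^|u| ≤ code u`. -/
theorem fw_cons {i : Fin 2} (h : fw r P = i :: w) : fw r (fun u => P (i :: u)) = w := by
  have hex : ∃ w : List (Fin 2), w.length ≤ r ∧ P w := by
    by_contra hno
    rw [fw_eq_nil_of_none (fun w hw hP => hno ⟨w, hw, hP⟩)] at h
    exact absurd h (by simp)
  have h1 := isFirst_fw hex
  rw [h] at h1
  obtain ⟨h2, h3, h4⟩ := h1
  rw [List.length_cons] at h2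
  refine fw_eq_of_isFirst ⟨by omega, h3, fun u hu hPu => ?_⟩
  rcases Nat.lt_or_ge u.length r with h5 | h5
  · exact (code_cons_le_iff i w u).mp (h4 (i :: u) (by rw [List.length_cons]; omega) hPu)
  · have h6 := code_lt w
    have h7 := two_pow_le_code u
    have h8 : 2 ^ (w.length + 1) ≤ 2 ^ u.length := Nat.pow_le_pow_right (by norm_num) (by omega)
    omega

end H98T
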