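import Pool.Agent.Lib.H98T.F01

/-!
# H98T F03 (S): the backward action
-/

namespace H98T

open Finset

variable {V : Type*} (ρ : Fin 2 → Equiv.Perm V)

/-- Induction on `w`. -/
theorem act_append (v : V) (w w' : List (Fin 2)) :
    act ρ v (w ++ w') = act ρ (act ρ v w) w' := by
  induction w generalizing v with
  | nil => rfl
  | cons i w ih =>
    rw [List.cons_append, act_cons, act_cons]
    exact ih _

/-- Induction on `w`: composition of bijections. -/
theorem act_bijective (w : List (Fin 2)) : Function.Bijective (fun v => act ρ v w) := by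
  induction w with
  | nil => exact Function.bijective_id
  | cons i w ih =>
    have h : (fun v => act ρ v (i :: w)) = (fun v => act ρ v w) ∘ ((ρ i)⁻¹ : Equiv.Perm V) := rfl
    rw [h]
    exact ih.comp (Equiv.bijective _)

/-- `Equiv.sum_comp` (or `Function.Bijective.sum_comp`). -/
theorem sum_act [Fintype V] (w : List (Fin 2)) (f : V → ℝ) :
    ∑ v, f (act ρ v w) = ∑ v, f v := by
  exact Function.Bijective.sum_comp (act_bijective ρ w) f

/-- For every word of length `≤ r` exactly one `v` has `act v w = u`; `card_words`. -/
theorem card_filter_act_le [Fintype V] [DecidableEq V] (r : ℕ) (u : V) (A : Finset V)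
    (hA : ∀ v ∈ A, ∃ w : List (Fin 2), w.length ≤ r ∧ act ρ v w = u) :
    A.card ≤ 2 ^ (r + 1) := by
  have h1 : A ⊆ (words r).image (fun w => (Equiv.ofBijective _ (act_bijective ρ w)).symm u) := by
    intro v hv
    obtain ⟨w, hw1, hw2⟩ := hA v hv
    rw [mem_image]
    refine ⟨w, (mem_words r w).mpr hw1, ?_⟩
    rw [Equiv.symm_apply_eq]
    exact hw2.symm
  have h2 := (card_le_card h1).trans card_image_le
  have h3 := card_words r
  omega

end H98T
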