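import Pool.Agent.Lib.H98T.F02
import Pool.Agent.Lib.H98T.F03

/-!
# H98T F04 (M): the pointer forest of a marking
-/

namespace H98T

open Finset

variable {V : Type*} {q : ℕ} [NeZero q] (ρ : Fin 2 → Equiv.Perm V) (r : ℕ)

/-- `fw_congr`. -/
theorem fwm_congr {m m' : V → Fin q} {v : V}
    (h : ∀ w : List (Fin 2), w.length ≤ r → m (act ρ v w) = m' (act ρ v w)) :
    fwm ρ r m v = fwm ρ r m' v := by
  unfold fwm
  exact fw_congr (fun w hw => by rw [h w hw])

/-- At a nonroot the first marked word is `i :: w`, `v` points to `ρ i ⁻¹ v`, and the first marked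
word there is `w`.  (`fw_cons`: the property at `ρ i ⁻¹ v` is `fun u => m (act v (i :: u)) = 0`
by definition of `act`.) -/
theorem fwm_next (m : V → Fin q) (v : V) (h : ¬ rootm ρ r m v) :
    ∃ (i : Fin 2) (w : List (Fin 2)), fwm ρ r m v = i :: w ∧ kindm ρ r m v = i ∧
      nextm ρ r m v = (ρ i)⁻¹ v ∧ fwm ρ r m (nextm ρ r m v) = w := by
  have h1 : fwm ρ r m v ≠ [] := fun hh => h (Or.inr hh)
  obtain ⟨i, w, hiw⟩ := List.exists_cons_of_ne_nil h1
  have h2 : kindm ρ r m v = i := by
    unfold kindm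
    rw [if_neg h, hiw]
    rfl
  have h3 : nextm ρ r m v = (ρ i)⁻¹ v := by
    unfold nextm
    rw [h2]
  refine ⟨i, w, hiw, h2, h3, ?_⟩
  rw [h3]
  exact fw_cons hiw

/-- Induction on the length of `fwm v`, with `fwm_next`. -/
theorem exists_rootm_iterate (m : V → Fin q) (v : V) :
    ∃ j, j ≤ (fwm ρ r m v).length ∧ rootm ρ r m ((nextm ρ r m)^[j] v) := by
  obtain ⟨n, hn⟩ : ∃ n, (fwm ρ r m v).length = n := ⟨_, rfl⟩
  induction n generalizing v with
  | zero =>
    refine ⟨0, Nat.zero_le _, Or.inr ?_⟩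
    exact List.length_eq_zero_iff.mp hn
  | succ n ih =>
    by_cases h : rootm ρ r m v
    · exact ⟨0, Nat.zero_le _, h⟩
    · obtain ⟨i, w, h1, _, _, h4⟩ := fwm_next ρ r m v h
      have h5 : (fwm ρ r m (nextm ρ r m v)).length = n := by
        rw [h4]
        rw [h1, List.length_cons] at hn
        omega
      obtain ⟨j, hj1, hj2⟩ := ih (nextm ρ r m v) h5
      refine ⟨j + 1, by omega, ?_⟩
      rw [Function.iterate_succ_apply]
      exact hj2

/-- Number of steps to the root. -/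
noncomputable def htm (m : V → Fin q) (v : V) : ℕ :=
  sInf {j : ℕ | rootm ρ r m ((nextm ρ r m)^[j] v)}

theorem htm_le_length (m : V → Fin q) (v : V) : htm ρ r m v ≤ (fwm ρ r m v).length := by
  obtain ⟨j, hj1, hj2⟩ := exists_rootm_iterate ρ r m v
  exact (Nat.sInf_le hj2).trans hj1

theorem htm_le (m : V → Fin q) (v : V) : htm ρ r m v ≤ r := by
  exact (htm_le_length ρ r m v).trans (length_fw_le r _)

/-- `sInf` of a nonempty set of naturals is `0` iff `0` is in the set. -/
theorem rootm_iff_htm (m : V → Fin q) (v : V) : rootm ρ r m v ↔ htm ρ r m v = 0 := by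
  constructor
  · intro h
    exact Nat.eq_zero_of_le_zero (Nat.sInf_le (s := {j : ℕ | rootm ρ r m ((nextm ρ r m)^[j] v)}) h)
  · intro h
    obtain ⟨j, _, hj2⟩ := exists_rootm_iterate ρ r m v
    have h1 := Nat.sInf_mem (s := {j : ℕ | rootm ρ r m ((nextm ρ r m)^[j] v)}) ⟨j, hj2⟩
    unfold htm at h
    rw [h] at h1
    exact h1

/-- For a nonroot `v` the set for `v` is the set for `next v` shifted by one
(`Function.iterate_succ_apply`). -/
theorem htm_next (m : V → Fin q) (v : V) (h : ¬ rootm ρ r m v) :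
    htm ρ r m (nextm ρ r m v) + 1 = htm ρ r m v := by
  have e1 : ∀ u : V, htm ρ r m u ∈ {j : ℕ | rootm ρ r m ((nextm ρ r m)^[j] u)} := by
    intro u
    obtain ⟨j, _, hj2⟩ := exists_rootm_iterate ρ r m u
    exact Nat.sInf_mem (s := {j : ℕ | rootm ρ r m ((nextm ρ r m)^[j] u)}) ⟨j, hj2⟩
  have h1 : htm ρ r m v ≠ 0 := fun hh => h ((rootm_iff_htm ρ r m v).mpr hh)
  obtain ⟨k, hk⟩ := Nat.exists_eq_succ_of_ne_zero h1
  have h2 := e1 v
  rw [hk, Set.mem_ofPred_eq, Function.iterate_succ_apply] at h2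
  have h3 : htm ρ r m (nextm ρ r m v) ≤ k :=
    Nat.sInf_le (s := {j : ℕ | rootm ρ r m ((nextm ρ r m)^[j] (nextm ρ r m v))}) h2
  have h4 := e1 (nextm ρ r m v)
  rw [Set.mem_ofPred_eq, ← Function.iterate_succ_apply] at h4
  have h5 : htm ρ r m v ≤ (htm ρ r m (nextm ρ r m v)).succ :=
    Nat.sInf_le (s := {j : ℕ | rootm ρ r m ((nextm ρ r m)^[j] v)}) h4
  omega

/-- The pointer forest of the marking `m`. -/
noncomputable def forest (m : V → Fin q) : PForest ρ where
  root := rootm ρ r m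
  kind := kindm ρ r m
  ht := htm ρ r m
  kind_root := fun v h => by
    unfold kindm
    simp [h]
  root_iff := rootm_iff_htm ρ r m
  ht_next := htm_next ρ r m

/-- Induction on `j` (from `v` to `next v`, so generalise `v`), with `fwm_next`: for `j ≤ ht v`,
`next^[j] v = act v (take j (fwm v))` and `fwm (next^[j] v) = drop j (fwm v)`. -/
theorem iterate_next (m : V → Fin q) (v : V) (j : ℕ) (hj : j ≤ htm ρ r m v) :
    (nextm ρ r m)^[j] v = act ρ v ((fwm ρ r m v).take j) ∧
      fwm ρ r m ((nextm ρ r m)^[j] v) = (fwm ρ r m v).drop j := by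
  induction j generalizing v with
  | zero => simp
  | succ j ih =>
    have h0 : ¬ rootm ρ r m v := by
      intro hh
      rw [(rootm_iff_htm ρ r m v).mp hh] at hj
      omega
    obtain ⟨i, w, h1, _, h3, h4⟩ := fwm_next ρ r m v h0
    have h5 := htm_next ρ r m v h0
    obtain ⟨h6, h7⟩ := ih (nextm ρ r m v) (by omega)
    rw [Function.iterate_succ_apply, h6, h1, List.take_succ_cons, List.drop_succ_cons, act_cons, ← h3]
    rw [h6, h4] at h7
    rw [h4]
    exact ⟨rfl, h7⟩

end H98T
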