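import Pool.Agent.Lib.H98T.F04

/-!
# H98T F07 (M): the law of the first marked word does not depend on the good vertex
-/

namespace H98T

open Finset

variable {V : Type*} [Fintype V] [DecidableEq V] {q : ℕ} [NeZero q]
  (ρ : Fin 2 → Equiv.Perm V) (r : ℕ)

omit [Fintype V] [DecidableEq V] in
theorem f07_bij (v : V) (hv : Good ρ r v) :
    Function.Bijective (fun w : {w : List (Fin 2) // w.length ≤ r} =>
      (⟨act ρ v w.1, w.1, w.2, rfl⟩ : {x : V // ∃ w : List (Fin 2), w.length ≤ r ∧ act ρ v w = x})) := by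
  constructor
  · intro w w' hww
    have h1 : act ρ v w.1 = act ρ v w'.1 := congrArg Subtype.val hww
    exact Subtype.ext (hv w.1 w'.1 (w.2.trans (Nat.le_succ r)) (w'.2.trans (Nat.le_succ r)) h1)
  · rintro ⟨x, w, hw, rfl⟩
    exact ⟨⟨w, hw⟩, rfl⟩

theorem f07_exists (v v' : V) (hv : Good ρ r v) (hv' : Good ρ r v') :
    ∃ e : Equiv.Perm V, ∀ w : List (Fin 2), w.length ≤ r → e (act ρ v w) = act ρ v' w := by
  classical
  set e1 := Equiv.ofBijective _ (f07_bij ρ r v hv) with he1
  set e2 := Equiv.ofBijective _ (f07_bij ρ r v' hv') with he2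
  refine ⟨(e1.symm.trans e2).extendSubtype, ?_⟩
  intro w hw
  rw [Equiv.extendSubtype_apply_of_mem (e1.symm.trans e2) (act ρ v w) ⟨w, hw, rfl⟩]
  have h1 : e1 ⟨w, hw⟩ = ⟨act ρ v w, w, hw, rfl⟩ := rfl
  rw [← h1, Equiv.trans_apply, Equiv.symm_apply_apply]
  rfl

/-- The maps `w ↦ act v w` and `w ↦ act v' w` are injective on `words r`, so
`act v w ↦ act v' w` is a well defined bijection between two subsets of `V`; it extends to a
permutation (`Equiv.extendSubtype`, or `Function.Injective` extension on a finite type). -/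
theorem exists_perm_act (v v' : V) (hv : Good ρ r v) (hv' : Good ρ r v') :
    ∃ e : Equiv.Perm V, ∀ w : List (Fin 2), w.length ≤ r → e (act ρ v w) = act ρ v' w := f07_exists ρ r v v' hv hv'

open Classical in
/-- With `e` from `exists_perm_act`: `m ↦ m ∘ e` is a permutation of the markings
(`Equiv.arrowCongr` or `Equiv.piCongrLeft`) and `fwm (m ∘ e) v = fwm m v'` because
`(m ∘ e) (act v w) = m (act v' w)` (`fw_congr`). -/
theorem card_prefix_eq (v v' : V) (hv : Good ρ r v) (hv' : Good ρ r v') (w : List (Fin 2)) :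
    (Finset.univ.filter (fun m : V → Fin q => w <+: fwm ρ r m v)).card =
      (Finset.univ.filter (fun m : V → Fin q => w <+: fwm ρ r m v')).card := by
  obtain ⟨e, he⟩ := f07_exists ρ r v v' hv hv'
  symm
  refine Finset.card_bijective (fun m : V → Fin q => m ∘ e) ?_ ?_
  · exact (Equiv.arrowCongr e.symm (Equiv.refl (Fin q))).bijective
  · intro m
    rw [mem_filter, mem_filter]
    have h1 : fwm ρ r (m ∘ e) v = fwm ρ r m v' := by
      unfold fwm
      refine fw_congr (fun u hu => ?_)
      rw [Function.comp_apply, he u hu]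
    rw [h1]
    simp

open Classical in
/-- For a given marking at most one word of length `j` is a prefix of `fwm v`
(`List.prefix_iff_eq_take`); exchange the sums. -/
theorem sum_prefix_le (v : V) (j : ℕ) (W : Finset (List (Fin 2))) (hW : ∀ w ∈ W, w.length = j) :
    ∑ w ∈ W, (Finset.univ.filter (fun m : V → Fin q => w <+: fwm ρ r m v)).card ≤
      Fintype.card (V → Fin q) := by
  simp only [card_filter]
  rw [sum_comm]
  have h1 : ∀ m ∈ (univ : Finset (V → Fin q)), ∑ w ∈ W, (if w <+: fwm ρ r m v then 1 else 0) ≤ 1 := by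
    intro m _
    rw [← card_filter, card_le_one]
    intro a ha b hb
    rw [mem_filter] at ha hb
    rw [List.prefix_iff_eq_take.mp ha.2, List.prefix_iff_eq_take.mp hb.2, hW a ha.1, hW b hb.1]
  refine (sum_le_sum h1).trans ?_
  rw [sum_const, card_univ, smul_eq_mul, mul_one]

end H98T
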