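import Pool.Agent.Lib.H98T.F05
import Pool.Agent.Lib.H98T.F07

/-!
# H98T F08 (M): the expected number of paths through a vertex
-/

namespace H98T

open Finset

variable {V : Type*} [Fintype V] [DecidableEq V] {q : ℕ} [NeZero q]
  (ρ : Fin 2 → Equiv.Perm V) (r : ℕ)

/-- the vertex from which the word `w` leads to `u` -/
noncomputable def f08_src (w : List (Fin 2)) (u : V) : V := (Equiv.ofBijective _ (act_bijective ρ w)).symm u

omit [Fintype V] [DecidableEq V] in
theorem f08_src_eq (w : List (Fin 2)) (u v : V) (h : act ρ v w = u) : f08_src ρ w u = v := by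
  unfold f08_src
  rw [Equiv.symm_apply_eq]
  exact h.symm

open Classical in
theorem f08_one (m : V → Fin q) (u : V) :
    (Finset.univ.filter (fun v => u ∈ (forest ρ r m).path v)).card ≤
      1 + ∑ w ∈ (words r).filter (fun w => 1 ≤ w.length), (if Good ρ r (f08_src ρ w u) ∧ w <+: fwm ρ r m (f08_src ρ w u) then 1 else 0) := by
  rw [← Finset.card_filter]
  have h1 : Finset.univ.filter (fun v => u ∈ (forest ρ r m).path v) ⊆
      insert u ((((words r).filter (fun w => 1 ≤ w.length)).filter (fun w => Good ρ r (f08_src ρ w u) ∧ w <+: fwm ρ r m (f08_src ρ w u))).image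
        (fun w => f08_src ρ w u)) := by
    intro v hv
    rw [Finset.mem_filter] at hv
    rcases mem_path_forest ρ r m v u hv.2 with h | ⟨hg, w, hw1, hw2, hw3, hw4⟩
    · rw [h]; exact Finset.mem_insert_self _ _
    · apply Finset.mem_insert_of_mem
      rw [Finset.mem_image]
      have e := f08_src_eq ρ w u v hw4
      refine ⟨w, ?_, e⟩
      rw [Finset.mem_filter, Finset.mem_filter, e]
      exact ⟨⟨(mem_words r w).mpr hw2, hw1⟩, hg, hw3⟩
  refine (Finset.card_le_card h1).trans ((Finset.card_insert_le _ _).trans ?_)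
  rw [add_comm]
  exact Nat.add_le_add_left Finset.card_image_le _

open Classical in
theorem f08_words (v0 : V) :
    ∑ w ∈ (words r).filter (fun w => 1 ≤ w.length), (Finset.univ.filter (fun m : V → Fin q => w <+: fwm ρ r m v0)).card ≤
      r * Fintype.card (V → Fin q) := by
  have h1 : ∀ w ∈ (words r).filter (fun w => 1 ≤ w.length), w.length ∈ Finset.Icc 1 r := by
    intro w hw
    rw [Finset.mem_filter, mem_words] at hw
    rw [Finset.mem_Icc]
    exact ⟨hw.2, hw.1⟩
  rw [← Finset.sum_fiberwise_of_maps_to h1]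
  have h2 : ∀ j ∈ Finset.Icc 1 r, ∑ w ∈ ((words r).filter (fun w => 1 ≤ w.length)).filter (fun w => w.length = j),
      (Finset.univ.filter (fun m : V → Fin q => w <+: fwm ρ r m v0)).card ≤ Fintype.card (V → Fin q) := by
    intro j _
    exact sum_prefix_le ρ r v0 j _ (fun w hw => (Finset.mem_filter.mp hw).2)
  refine (Finset.sum_le_sum h2).trans ?_
  rw [Finset.sum_const, Nat.card_Icc]
  simp

/-- By `mem_path_forest` the number of pairs `(m, v)` with `u ∈ path v` is at most
`N + ∑_(w ∈ words r, 1 ≤ |w|) ∑_(v good, act v w = u) #{m : w <+: fwm m v}`.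
If there is no good vertex the sum is empty.  Otherwise fix a good `v₀`; by `card_prefix_eq` the
inner count is `#{m : w <+: fwm m v₀}` and for every `w` exactly one `v` has `act v w = u`
(`act_bijective`).  Now split the words by their length `j = 1, …, r` and use `sum_prefix_le`. -/
theorem sum_card_through_le (u : V) :
    ∑ m : V → Fin q, (Finset.univ.filter (fun v => u ∈ (forest ρ r m).path v)).card ≤
      (r + 1) * Fintype.card (V → Fin q) := by
  classical
  have h1 : ∑ m : V → Fin q, (Finset.univ.filter (fun v => u ∈ (forest ρ r m).path v)).card ≤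
      ∑ m : V → Fin q, (1 + ∑ w ∈ (words r).filter (fun w => 1 ≤ w.length),
        (if Good ρ r (f08_src ρ w u) ∧ w <+: fwm ρ r m (f08_src ρ w u) then 1 else 0)) :=
    Finset.sum_le_sum (fun m _ => f08_one ρ r m u)
  refine h1.trans ?_
  rw [Finset.sum_add_distrib, Finset.sum_comm]
  have h2 : ∑ _m : V → Fin q, 1 = Fintype.card (V → Fin q) := by
    rw [Finset.sum_const, Finset.card_univ, smul_eq_mul, mul_one]
  rw [h2]
  have h3 : ∑ w ∈ (words r).filter (fun w => 1 ≤ w.length), ∑ m : V → Fin q,
      (if Good ρ r (f08_src ρ w u) ∧ w <+: fwm ρ r m (f08_src ρ w u) then 1 else 0) ≤ r * Fintype.card (V → Fin q) := by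
    by_cases hex : ∃ v0, Good ρ r v0
    · obtain ⟨v0, hv0⟩ := hex
      refine le_trans (Finset.sum_le_sum (fun w _ => ?_)) (f08_words (q := q) ρ r v0)
      rw [← Finset.card_filter]
      by_cases hg : Good ρ r (f08_src ρ w u)
      · rw [card_prefix_eq ρ r v0 (f08_src ρ w u) hv0 hg w]
        apply Finset.card_le_card
        intro m hm
        rw [Finset.mem_filter] at hm ⊢
        exact ⟨hm.1, hm.2.2⟩
      · have : Finset.univ.filter (fun m : V → Fin q => Good ρ r (f08_src ρ w u) ∧ w <+: fwm ρ r m (f08_src ρ w u)) = ∅ := by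
          apply Finset.filter_eq_empty_iff.mpr
          intro m _ hm
          exact hg hm.1
        rw [this, Finset.card_empty]
        exact Nat.zero_le _
    · have : ∑ w ∈ (words r).filter (fun w => 1 ≤ w.length), ∑ m : V → Fin q,
          (if Good ρ r (f08_src ρ w u) ∧ w <+: fwm ρ r m (f08_src ρ w u) then 1 else 0) = 0 := by
        apply Finset.sum_eq_zero
        intro w _
        apply Finset.sum_eq_zero
        intro m _
        rw [if_neg]
        rintro ⟨h, _⟩
        exact hex ⟨_, h⟩
      rw [this]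
      exact Nat.zero_le _
  calc _ ≤ Fintype.card (V → Fin q) + r * Fintype.card (V → Fin q) := Nat.add_le_add_left h3 _
    _ = (r + 1) * Fintype.card (V → Fin q) := by ring

/-- Exchange of sums: `∑_m ∑_v ∑_(u ∈ path v) s u = ∑_u s u ∑_m #{v : u ∈ path v}`. -/
theorem sum_path_le (s : V → ℝ) (hs : ∀ u, 0 ≤ s u) :
    ∑ m : V → Fin q, ∑ v, ∑ u ∈ (forest ρ r m).path v, s u ≤
      (r + 1) * (Fintype.card (V → Fin q) : ℝ) * ∑ u, s u := by
  classical
  have h1 : ∀ (m : V → Fin q) (v : V), ∑ u ∈ (forest ρ r m).path v, s u = ∑ u : V, (if u ∈ (forest ρ r m).path v then s u else 0) := by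
    intro m v
    rw [Finset.sum_ite_mem, Finset.univ_inter]
  have h2 : ∑ m : V → Fin q, ∑ v, ∑ u ∈ (forest ρ r m).path v, s u =
      ∑ u : V, s u * ((∑ m : V → Fin q, (Finset.univ.filter (fun v => u ∈ (forest ρ r m).path v)).card : ℕ) : ℝ) := by
    simp only [h1]
    have h3 : ∀ m : V → Fin q, ∑ v : V, ∑ u : V, (if u ∈ (forest ρ r m).path v then s u else 0) =
        ∑ u : V, s u * ((Finset.univ.filter (fun v => u ∈ (forest ρ r m).path v)).card : ℝ) := by
      intro m
      rw [Finset.sum_comm]
      refine Finset.sum_congr rfl (fun u _ => ?_)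
      rw [← Finset.sum_filter, Finset.sum_const, nsmul_eq_mul, mul_comm]
    rw [Finset.sum_congr rfl (fun m _ => h3 m), Finset.sum_comm]
    refine Finset.sum_congr rfl (fun u _ => ?_)
    rw [← Finset.mul_sum]
    push_cast
    rfl
  rw [h2, Finset.mul_sum]
  apply Finset.sum_le_sum
  intro u _
  have h4 := sum_card_through_le (q := q) ρ r u
  have h5 : ((∑ m : V → Fin q, (Finset.univ.filter (fun v => u ∈ (forest ρ r m).path v)).card : ℕ) : ℝ) ≤ (r + 1) * (Fintype.card (V → Fin q) : ℝ) := by
    exact_mod_cast h4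
  rw [mul_comm]
  exact mul_le_mul_of_nonneg_right h5 (hs u)

end H98T
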