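import Pool.Agent.Lib.H98T.F04
import Pool.Agent.Lib.H98T.F06

/-!
# H98T F09 (M): good roots are rare
-/

namespace H98T

open Finset

variable {V : Type*} [Fintype V] [DecidableEq V] {q : ℕ} [NeZero q]
  (ρ : Fin 2 → Equiv.Perm V) (r : ℕ)

open Classical in
/-- For a good `v` the set `B = {act v w : |w| ≤ r}` has `2^(r+1) - 1 = 2 q^2 - 1 ≥ q^2` elements
(`card_words`), so by `card_unmarked` the number is `N (1 - 1/q)^|B| ≤ N (1-1/q)^(q^2) ≤ N e^(-q)`
(`1 - x ≤ exp (-x)`, `Real.one_sub_le_exp_neg` or `Real.add_one_le_exp`). -/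
theorem card_unlucky_le (hr : 2 ^ r = q ^ 2) (v : V) (hv : Good ρ r v) :
    ((Finset.univ.filter (fun m : V → Fin q => Unlucky ρ r m v)).card : ℝ) ≤
      Real.exp (-(q : ℝ)) * (Fintype.card (V → Fin q) : ℝ) := by
  have hq1 : 1 ≤ q := Nat.one_le_iff_ne_zero.mpr (NeZero.ne q)
  have hqR : (1 : ℝ) ≤ q := by exact_mod_cast hq1
  have hset : Finset.univ.filter (fun m : V → Fin q => Unlucky ρ r m v) =
      Finset.univ.filter (fun m : V → Fin q => ∀ x ∈ (words r).image (fun w => act ρ v w), m x ≠ 0) := by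
    ext m
    simp only [mem_filter, mem_univ, true_and, mem_image, Unlucky]
    constructor
    · rintro h x ⟨w, hw, rfl⟩
      exact h w ((mem_words r w).mp hw)
    · intro h w hw
      exact h _ ⟨w, (mem_words r w).mpr hw, rfl⟩
  have hB : ((words r).image (fun w => act ρ v w)).card = (words r).card := by
    refine card_image_of_injOn (fun w hw w' hw' h => ?_)
    have h1 := (mem_words r w).mp hw
    have h2 := (mem_words r w').mp hw'
    exact hv w w' (by omega) (by omega) h
  obtain ⟨B, hBdef⟩ : ∃ B, B = (words r).image (fun w => act ρ v w) := ⟨_, rfl⟩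
  rw [← hBdef] at hset hB
  have hBc : q ^ 2 ≤ B.card := by
    rw [hB]
    have h1 := card_words r
    rw [pow_succ, hr] at h1
    have h2 : 1 ≤ q ^ 2 := Nat.one_le_pow _ _ hq1
    omega
  have key := card_unmarked (V := V) (q := q) B
  rw [hset]
  have hqpos : (0 : ℝ) < (q : ℝ) ^ B.card := by positivity
  have h3 : ((Finset.univ.filter (fun m : V → Fin q => ∀ x ∈ B, m x ≠ 0)).card : ℝ) =
      (((q : ℝ) - 1) / q) ^ B.card * (Fintype.card (V → Fin q) : ℝ) := by
    rw [div_pow, div_mul_eq_mul_div, eq_div_iff hqpos.ne']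
    exact key
  rw [h3]
  refine mul_le_mul_of_nonneg_right ?_ (Nat.cast_nonneg _)
  have hb0 : 0 ≤ ((q : ℝ) - 1) / q := div_nonneg (by linarith) (by linarith)
  have hb1 : ((q : ℝ) - 1) / q ≤ 1 := by
    rw [div_le_one (by linarith)]; linarith
  have h4 : (((q : ℝ) - 1) / q) ^ B.card ≤ (((q : ℝ) - 1) / q) ^ (q ^ 2) := pow_le_pow_of_le_one hb0 hb1 hBc
  have h5 : ((q : ℝ) - 1) / q ≤ Real.exp (-(1 / (q : ℝ))) := by
    have h6 := Real.add_one_le_exp (-(1 / (q : ℝ)))
    have h7 : ((q : ℝ) - 1) / q = -(1 / (q : ℝ)) + 1 := by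
      field_simp
      ring
    rw [h7]
    exact h6
  refine h4.trans ((pow_le_pow_left₀ hb0 h5 _).trans ?_)
  rw [← Real.exp_nat_mul]
  apply le_of_eq
  congr 1
  push_cast
  field_simp

/-- Numerical: `2 q^3 ≤ e^q` for `q ≥ 8`, so `e^(-q) 2^(r+1) = 2 q^2 e^(-q) ≤ 1/q`. -/
theorem exp_neg_mul_le (hq : 8 ≤ q) (hr : 2 ^ r = q ^ 2) :
    Real.exp (-(q : ℝ)) * 2 ^ (r + 1) ≤ 1 / q := by
  have hqR : (8 : ℝ) ≤ q := by exact_mod_cast hq
  have key : ∀ n : ℕ, 8 ≤ n → 2 * (n : ℝ) ^ 3 ≤ Real.exp n := by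
    intro n hn
    induction n, hn using Nat.le_induction with
    | base =>
      have h1 : Real.exp ((8 : ℕ) : ℝ) = Real.exp 1 ^ 8 := by
        rw [← Real.exp_nat_mul]
        norm_num
      rw [h1]
      have h2 : (2.7 : ℝ) ≤ Real.exp 1 := by
        have := Real.exp_one_gt_d9
        linarith
      have h3 : (2.7 : ℝ) ^ 8 ≤ Real.exp 1 ^ 8 := pow_le_pow_left₀ (by norm_num) h2 8
      refine le_trans ?_ h3
      norm_num
    | succ n hn ih =>
      have hnR : (8 : ℝ) ≤ n := by exact_mod_cast hn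
      push_cast
      rw [Real.exp_add]
      have h2 : (2 : ℝ) ≤ Real.exp 1 := by
        have := Real.exp_one_gt_d9
        linarith
      have h3 : ((n : ℝ) + 1) ^ 3 ≤ 2 * (n : ℝ) ^ 3 := by
        nlinarith [mul_nonneg (by linarith : (0:ℝ) ≤ (n : ℝ) - 8) (sq_nonneg (n : ℝ)), sq_nonneg ((n : ℝ) - 8)]
      have h4 : (0 : ℝ) ≤ 2 * (n : ℝ) ^ 3 := by positivity
      nlinarith
  have h1 := key q hq
  have hr' : (2 : ℝ) ^ r = (q : ℝ) ^ 2 := by exact_mod_cast hr
  rw [pow_succ, hr', Real.exp_neg, ← div_eq_inv_mul, div_le_div_iff₀ (Real.exp_pos _) (by linarith)]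
  nlinarith

omit [NeZero q] in
theorem exp_neg_le (hq : 8 ≤ q) : Real.exp (-(q : ℝ)) ≤ 1 / q := by
  have hqR : (8 : ℝ) ≤ q := by exact_mod_cast hq
  rw [Real.exp_neg, ← one_div]
  refine one_div_le_one_div_of_le (by linarith) ?_
  have := Real.add_one_le_exp (q : ℝ)
  linarith

/-- `Good` and a root: `fwm m v = []`, so (`fw_eq_nil_iff`) `v` is marked or unlucky. -/
theorem rootm_good (m : V → Fin q) (v : V) (h : rootm ρ r m v) (hv : Good ρ r v) :
    m v = 0 ∨ Unlucky ρ r m v := by
  rcases h with h | h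
  · exact absurd hv h
  · unfold fwm at h
    rw [fw_eq_nil_iff] at h
    rcases h with h | h
    · left
      exact h
    · right
      exact h

open Classical in
/-- Sum over `v` of the numbers of markings with `m v = 0` (`card_marked`, `N/q` each) and with
`Unlucky m v` (at most `e^(-q) N ≤ N/q` each). -/
theorem sum_card_good_roots_le (hq : 8 ≤ q) (hr : 2 ^ r = q ^ 2) :
    ∑ m : V → Fin q, ((Finset.univ.filter (fun v => rootm ρ r m v ∧ Good ρ r v)).card : ℝ) ≤
      2 / q * (Fintype.card (V → Fin q) : ℝ) * Fintype.card V := by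
  have hqR : (8 : ℝ) ≤ q := by exact_mod_cast hq
  have e1 : ∑ m : V → Fin q, ((Finset.univ.filter (fun v => rootm ρ r m v ∧ Good ρ r v)).card : ℝ) =
      ∑ v : V, ((Finset.univ.filter (fun m : V → Fin q => rootm ρ r m v ∧ Good ρ r v)).card : ℝ) := by
    simp only [card_filter, Nat.cast_sum]
    exact sum_comm
  rw [e1]
  have e2 : ∀ v : V, ((Finset.univ.filter (fun m : V → Fin q => rootm ρ r m v ∧ Good ρ r v)).card : ℝ) ≤
      2 / q * (Fintype.card (V → Fin q) : ℝ) := by
    intro v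
    by_cases hv : Good ρ r v
    · have h1 : Finset.univ.filter (fun m : V → Fin q => rootm ρ r m v ∧ Good ρ r v) ⊆
          Finset.univ.filter (fun m : V → Fin q => m v = 0) ∪ Finset.univ.filter (fun m : V → Fin q => Unlucky ρ r m v) := by
        intro m hm
        simp only [mem_union, mem_filter, mem_univ, true_and] at hm ⊢
        exact rootm_good ρ r m v hm.1 hv
      have h2 : ((Finset.univ.filter (fun m : V → Fin q => rootm ρ r m v ∧ Good ρ r v)).card : ℝ) ≤
          ((Finset.univ.filter (fun m : V → Fin q => m v = 0)).card : ℝ) +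
            ((Finset.univ.filter (fun m : V → Fin q => Unlucky ρ r m v)).card : ℝ) := by
        exact_mod_cast (card_le_card h1).trans (card_union_le _ _)
      have h3 := card_marked (V := V) (q := q) v
      have h4 : ((Finset.univ.filter (fun m : V → Fin q => m v = 0)).card : ℝ) = 1 / q * (Fintype.card (V → Fin q) : ℝ) := by
        rw [← h3]
        field_simp
      have h5 := card_unlucky_le ρ r hr v hv
      have h6 := mul_le_mul_of_nonneg_right (exp_neg_le hq) (Nat.cast_nonneg (Fintype.card (V → Fin q)) : (0 : ℝ) ≤ _)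
      rw [h4] at h2
      have h7 : (2 : ℝ) / q * (Fintype.card (V → Fin q) : ℝ) = 1 / q * (Fintype.card (V → Fin q) : ℝ) + 1 / q * (Fintype.card (V → Fin q) : ℝ) := by
        ring
      rw [h7]
      linarith
    · have h1 : Finset.univ.filter (fun m : V → Fin q => rootm ρ r m v ∧ Good ρ r v) = ∅ := by
        rw [filter_eq_empty_iff]
        intro m _ h
        exact hv h.2
      rw [h1, card_empty, Nat.cast_zero]
      positivity
  refine (sum_le_sum (fun v _ => e2 v)).trans ?_
  rw [sum_const, card_univ, nsmul_eq_mul]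
  apply le_of_eq
  ring

end H98T
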