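import Pool.Agent.Lib.H98T.F08
import Pool.Agent.Lib.H98T.F09

/-!
# H98T F10 (M): the paths behind the good roots
-/

namespace H98T

open Finset

variable {V : Type*} [Fintype V] [DecidableEq V] {q : ℕ} [NeZero q]
  (ρ : Fin 2 → Equiv.Perm V) (r : ℕ)

omit [Fintype V] in
theorem f10_nonneg (s : V → ℝ) (hs : ∀ u, 0 ≤ s u) (m : V → Fin q) (v : V) :
    0 ≤ ∑ u ∈ (forest ρ r m).path v, s u :=
  Finset.sum_nonneg (fun u _ => hs u)

open Classical in
theorem f10_marked (s : V → ℝ) (x : V) (hx : Good ρ r x) :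
    ∑ m : V → Fin q, (if m x = 0 then ∑ u ∈ (forest ρ r m).path ((ρ 0)⁻¹ x), s u else 0) =
      1 / q * ∑ m : V → Fin q, ∑ u ∈ (forest ρ r m).path ((ρ 0)⁻¹ x), s u := by
  set y := (ρ 0)⁻¹ x with hy
  set N : ℝ := (Fintype.card (V → Fin q) : ℝ) with hN
  have hN0 : 0 < N := by
    rw [hN]
    exact_mod_cast Fintype.card_pos
  have hq0 : (0 : ℝ) < q := by
    have : 0 < q := Nat.pos_of_ne_zero (NeZero.ne q)
    exact_mod_cast this
  have hdis : Disjoint ({x} : Finset V) ((words r).image (act ρ y)) := by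
    rw [Finset.disjoint_singleton_left, Finset.mem_image]
    rintro ⟨w, hw, hwx⟩
    rw [mem_words] at hw
    have h1 : act ρ x [] = act ρ x ((0 : Fin 2) :: w) := by
      rw [act_nil, act_cons, ← hy, hwx]
    have := hx [] ((0 : Fin 2) :: w) (by simp) (by simp; omega) h1
    exact absurd this (by simp)
  have hind := indep (q := q) ({x} : Finset V) ((words r).image (act ρ y)) hdis
    (fun m => if m x = 0 then (1 : ℝ) else 0)
    (fun m => ∑ u ∈ (forest ρ r m).path y, s u) (by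
      intro m m' h
      have := h x (by simp)
      simp only [this]) (by
      intro m m' h
      have : (forest ρ r m).path y = (forest ρ r m').path y := by
        apply path_congr
        apply fwm_congr
        intro w hw
        exact h _ (Finset.mem_image.mpr ⟨w, (mem_words r w).mpr hw, rfl⟩)
      simp only [this])
  have hm : (∑ m : V → Fin q, (if m x = 0 then (1 : ℝ) else 0)) * q = N := by
    have := card_marked (q := q) x
    rw [Finset.card_filter] at this
    push_cast at this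
    exact this
  have hl : ∑ m : V → Fin q, (if m x = 0 then (1 : ℝ) else 0) * ∑ u ∈ (forest ρ r m).path y, s u =
      ∑ m : V → Fin q, (if m x = 0 then ∑ u ∈ (forest ρ r m).path y, s u else 0) := by
    apply Finset.sum_congr rfl
    intro m _
    split_ifs <;> simp
  rw [hl] at hind
  have h1 : ∑ m : V → Fin q, (if m x = 0 then (1 : ℝ) else 0) = N / q := by
    rw [eq_div_iff hq0.ne']
    exact hm
  rw [h1] at hind
  have h2 : N * (∑ m : V → Fin q, (if m x = 0 then ∑ u ∈ (forest ρ r m).path y, s u else 0)) =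
      N * (1 / q * ∑ m : V → Fin q, ∑ u ∈ (forest ρ r m).path y, s u) := by
    rw [hind]
    ring
  exact mul_left_cancel₀ hN0.ne' h2

open Classical in
/-- For a good `x` the vertex `x = act x []` is not of the form `act (ρ 0 ⁻¹ x) w = act x (0 :: w)`
with `|w| ≤ r`.  The path of `y = ρ 0 ⁻¹ x` depends only on the marks of the `act y w`, `|w| ≤ r`
(`path_congr`, `fwm_congr`), so by `indep` (`B = {x}`) and `card_marked`
`∑_m [m x = 0] ∑_(path y) s = (1/q) ∑_m ∑_(path y) s`.  Sum over `x` (`y` runs over different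
vertices) and use `sum_path_le`. -/
theorem sum_marked_path_le (s : V → ℝ) (hs : ∀ u, 0 ≤ s u) :
    ∑ m : V → Fin q, ∑ x ∈ Finset.univ.filter (fun x => m x = 0 ∧ Good ρ r x),
      ∑ u ∈ (forest ρ r m).path ((ρ 0)⁻¹ x), s u ≤
      (r + 1) / q * (Fintype.card (V → Fin q) : ℝ) * ∑ u, s u := by
  have hq0 : (0 : ℝ) < q := by
    have : 0 < q := Nat.pos_of_ne_zero (NeZero.ne q)
    exact_mod_cast this
  have h1 : ∀ m : V → Fin q, ∑ x ∈ Finset.univ.filter (fun x => m x = 0 ∧ Good ρ r x),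
      ∑ u ∈ (forest ρ r m).path ((ρ 0)⁻¹ x), s u =
      ∑ x, (if Good ρ r x then
        (if m x = 0 then ∑ u ∈ (forest ρ r m).path ((ρ 0)⁻¹ x), s u else 0) else 0) := by
    intro m
    rw [Finset.sum_filter]
    apply Finset.sum_congr rfl
    intro x _
    by_cases h1 : m x = 0 <;> by_cases h2 : Good ρ r x <;> simp [h1, h2]
  have h2 : ∀ x : V, ∑ m : V → Fin q, (if Good ρ r x then
        (if m x = 0 then ∑ u ∈ (forest ρ r m).path ((ρ 0)⁻¹ x), s u else 0) else 0) ≤
      1 / q * ∑ m : V → Fin q, ∑ u ∈ (forest ρ r m).path ((ρ 0)⁻¹ x), s u := by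
    intro x
    by_cases hx : Good ρ r x
    · simp only [hx, if_true]
      rw [f10_marked ρ r s x hx]
    · simp only [hx, if_false, Finset.sum_const_zero]
      apply mul_nonneg (by positivity)
      exact Finset.sum_nonneg (fun m _ => f10_nonneg ρ r s hs m _)
  calc ∑ m : V → Fin q, ∑ x ∈ Finset.univ.filter (fun x => m x = 0 ∧ Good ρ r x),
      ∑ u ∈ (forest ρ r m).path ((ρ 0)⁻¹ x), s u
      = ∑ m : V → Fin q, ∑ x, (if Good ρ r x then
        (if m x = 0 then ∑ u ∈ (forest ρ r m).path ((ρ 0)⁻¹ x), s u else 0) else 0) :=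
        Finset.sum_congr rfl (fun m _ => h1 m)
    _ = ∑ x, ∑ m : V → Fin q, (if Good ρ r x then
        (if m x = 0 then ∑ u ∈ (forest ρ r m).path ((ρ 0)⁻¹ x), s u else 0) else 0) :=
        Finset.sum_comm
    _ ≤ ∑ x, 1 / q * ∑ m : V → Fin q, ∑ u ∈ (forest ρ r m).path ((ρ 0)⁻¹ x), s u :=
        Finset.sum_le_sum (fun x _ => h2 x)
    _ = 1 / q * ∑ m : V → Fin q, ∑ x, ∑ u ∈ (forest ρ r m).path ((ρ 0)⁻¹ x), s u := by
        rw [← Finset.mul_sum, Finset.sum_comm]
    _ = 1 / q * ∑ m : V → Fin q, ∑ v, ∑ u ∈ (forest ρ r m).path v, s u := by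
        congr 1
        apply Finset.sum_congr rfl
        intro m _
        exact Equiv.sum_comp ((ρ 0)⁻¹) (fun v => ∑ u ∈ (forest ρ r m).path v, s u)
    _ ≤ 1 / q * ((r + 1) * (Fintype.card (V → Fin q) : ℝ) * ∑ u, s u) :=
        mul_le_mul_of_nonneg_left (sum_path_le ρ r s hs) (by positivity)
    _ = (r + 1) / q * (Fintype.card (V → Fin q) : ℝ) * ∑ u, s u := by ring

open Classical in
/-- `∑_(path y) s ≤ ∑_(w ∈ words r) s (act y w)` (`sum_path_forest_le`), the number of markings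
with `Unlucky m x` is at most `e^(-q) N` (`card_unlucky_le`), and `∑_x s (act (ρ 0 ⁻¹ x) w) = ∑ s`
(`sum_act` for the word `0 :: w`).  Total `e^(-q) N #words ∑ s ≤ N/q ∑ s` (`exp_neg_mul_le`). -/
theorem sum_unlucky_path_le (hq : 8 ≤ q) (hr : 2 ^ r = q ^ 2) (s : V → ℝ) (hs : ∀ u, 0 ≤ s u) :
    ∑ m : V → Fin q, ∑ x ∈ Finset.univ.filter (fun x => Unlucky ρ r m x ∧ Good ρ r x),
      ∑ u ∈ (forest ρ r m).path ((ρ 0)⁻¹ x), s u ≤
      1 / q * (Fintype.card (V → Fin q) : ℝ) * ∑ u, s u := by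
  set N : ℝ := (Fintype.card (V → Fin q) : ℝ) with hN
  have hN0 : 0 ≤ N := by rw [hN]; positivity
  set Sw : V → ℝ := fun x => ∑ w ∈ words r, s (act ρ ((ρ 0)⁻¹ x) w) with hSw
  have hSw0 : ∀ x, 0 ≤ Sw x := fun x => Finset.sum_nonneg (fun w _ => hs _)
  have h1 : ∀ m : V → Fin q, ∑ x ∈ Finset.univ.filter (fun x => Unlucky ρ r m x ∧ Good ρ r x),
      ∑ u ∈ (forest ρ r m).path ((ρ 0)⁻¹ x), s u ≤
      ∑ x, (if Good ρ r x then (if Unlucky ρ r m x then Sw x else 0) else 0) := by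
    intro m
    rw [Finset.sum_filter]
    apply Finset.sum_le_sum
    intro x _
    by_cases h1 : Unlucky ρ r m x <;> by_cases h2 : Good ρ r x <;> simp [h1, h2]
    exact sum_path_forest_le ρ r m _ s hs
  have h2 : ∀ x : V, ∑ m : V → Fin q,
      (if Good ρ r x then (if Unlucky ρ r m x then Sw x else 0) else 0) ≤
      Real.exp (-(q : ℝ)) * N * Sw x := by
    intro x
    by_cases hx : Good ρ r x
    · simp only [hx, if_true]
      rw [← Finset.sum_filter, Finset.sum_const, nsmul_eq_mul]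
      apply mul_le_mul_of_nonneg_right _ (hSw0 x)
      exact card_unlucky_le ρ r hr x hx
    · simp only [hx, if_false, Finset.sum_const_zero]
      have := hSw0 x
      positivity
  have h3 : ∑ x, Sw x = ((words r).card : ℝ) * ∑ u, s u := by
    rw [hSw]
    rw [Finset.sum_comm]
    rw [Finset.sum_congr rfl (fun w _ => (show ∑ x, s (act ρ ((ρ 0)⁻¹ x) w) = ∑ u, s u from
      sum_act ρ ((0 : Fin 2) :: w) s)), Finset.sum_const, nsmul_eq_mul]
  have h4 : ((words r).card : ℝ) ≤ 2 ^ (r + 1) := by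
    have := card_words r
    have h5 : (words r).card ≤ 2 ^ (r + 1) := by omega
    exact_mod_cast h5
  have hs0 : 0 ≤ ∑ u, s u := Finset.sum_nonneg (fun u _ => hs u)
  calc ∑ m : V → Fin q, ∑ x ∈ Finset.univ.filter (fun x => Unlucky ρ r m x ∧ Good ρ r x),
      ∑ u ∈ (forest ρ r m).path ((ρ 0)⁻¹ x), s u
      ≤ ∑ m : V → Fin q, ∑ x, (if Good ρ r x then (if Unlucky ρ r m x then Sw x else 0) else 0) :=
        Finset.sum_le_sum (fun m _ => h1 m)
    _ = ∑ x, ∑ m : V → Fin q, (if Good ρ r x then (if Unlucky ρ r m x then Sw x else 0) else 0) :=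
        Finset.sum_comm
    _ ≤ ∑ x, Real.exp (-(q : ℝ)) * N * Sw x := Finset.sum_le_sum (fun x _ => h2 x)
    _ = Real.exp (-(q : ℝ)) * N * (((words r).card : ℝ) * ∑ u, s u) := by
        rw [← Finset.mul_sum, h3]
    _ ≤ Real.exp (-(q : ℝ)) * N * (2 ^ (r + 1) * ∑ u, s u) := by
        apply mul_le_mul_of_nonneg_left _ (by positivity)
        exact mul_le_mul_of_nonneg_right h4 hs0
    _ = (Real.exp (-(q : ℝ)) * 2 ^ (r + 1)) * (N * ∑ u, s u) := by ring
    _ ≤ (1 / q) * (N * ∑ u, s u) :=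
        mul_le_mul_of_nonneg_right (exp_neg_mul_le r hq hr) (by positivity)
    _ = 1 / q * N * ∑ u, s u := by ring

open Classical in
/-- `rootm_good`: the good roots are marked or unlucky. -/
theorem sum_root_path_le (hq : 8 ≤ q) (hr : 2 ^ r = q ^ 2) (s : V → ℝ) (hs : ∀ u, 0 ≤ s u) :
    ∑ m : V → Fin q, ∑ x ∈ Finset.univ.filter (fun x => rootm ρ r m x ∧ Good ρ r x),
      ∑ u ∈ (forest ρ r m).path ((ρ 0)⁻¹ x), s u ≤
      (r + 2) / q * (Fintype.card (V → Fin q) : ℝ) * ∑ u, s u := by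
  have h1 : ∀ m : V → Fin q, ∑ x ∈ Finset.univ.filter (fun x => rootm ρ r m x ∧ Good ρ r x),
      ∑ u ∈ (forest ρ r m).path ((ρ 0)⁻¹ x), s u ≤
      ∑ x ∈ Finset.univ.filter (fun x => m x = 0 ∧ Good ρ r x),
        ∑ u ∈ (forest ρ r m).path ((ρ 0)⁻¹ x), s u +
      ∑ x ∈ Finset.univ.filter (fun x => Unlucky ρ r m x ∧ Good ρ r x),
        ∑ u ∈ (forest ρ r m).path ((ρ 0)⁻¹ x), s u := by
    intro m
    rw [Finset.sum_filter, Finset.sum_filter, Finset.sum_filter, ← Finset.sum_add_distrib]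
    apply Finset.sum_le_sum
    intro x _
    have hnn := f10_nonneg ρ r s hs m ((ρ 0)⁻¹ x)
    by_cases h : rootm ρ r m x ∧ Good ρ r x
    · rw [if_pos h]
      rcases rootm_good ρ r m x h.1 h.2 with h3 | h3
      · rw [if_pos (show m x = 0 ∧ Good ρ r x from ⟨h3, h.2⟩)]
        split_ifs <;> linarith
      · rw [if_pos (show Unlucky ρ r m x ∧ Good ρ r x from ⟨h3, h.2⟩)]
        split_ifs <;> linarith
    · rw [if_neg h]
      split_ifs <;> linarith
  have h2 := sum_marked_path_le (q := q) ρ r s hs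
  have h3 := sum_unlucky_path_le (q := q) ρ r hq hr s hs
  calc ∑ m : V → Fin q, ∑ x ∈ Finset.univ.filter (fun x => rootm ρ r m x ∧ Good ρ r x),
      ∑ u ∈ (forest ρ r m).path ((ρ 0)⁻¹ x), s u
      ≤ ∑ m : V → Fin q, (∑ x ∈ Finset.univ.filter (fun x => m x = 0 ∧ Good ρ r x),
        ∑ u ∈ (forest ρ r m).path ((ρ 0)⁻¹ x), s u +
      ∑ x ∈ Finset.univ.filter (fun x => Unlucky ρ r m x ∧ Good ρ r x),
        ∑ u ∈ (forest ρ r m).path ((ρ 0)⁻¹ x), s u) := Finset.sum_le_sum (fun m _ => h1 m)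
    _ = _ := Finset.sum_add_distrib
    _ ≤ (r + 1) / q * (Fintype.card (V → Fin q) : ℝ) * ∑ u, s u +
        1 / q * (Fintype.card (V → Fin q) : ℝ) * ∑ u, s u := add_le_add h2 h3
    _ = (r + 2) / q * (Fintype.card (V → Fin q) : ℝ) * ∑ u, s u := by ring

end H98T
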