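import Pool.Agent.Lib.H98T.FDefs

/-!
# H98T F16 (M): forests and spanning trees
-/

namespace H98T

open Finset

variable {V : Type*} [Fintype V] [DecidableEq V] (ρ : Fin 2 → Equiv.Perm V)

/-- A tight set: nonempty with `|U| - 1` edges of `F` inside. -/
def Tight (F : Finset (Fin 2 × V)) (U : Finset V) : Prop :=
  U.Nonempty ∧ (inside ρ F U).card + 1 = U.card

omit [Fintype V] in
/-- `inside F U₁ ∪ inside F U₂ ⊆ inside F (U₁ ∪ U₂)` and the intersection of the two is
`inside F (U₁ ∩ U₂)`; with `IsForest` for `U₁ ∩ U₂` and `U₁ ∪ U₂`. -/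
theorem Tight.union {F : Finset (Fin 2 × V)} (hF : IsForest ρ F) {U₁ U₂ : Finset V}
    (h₁ : Tight ρ F U₁) (h₂ : Tight ρ F U₂) (h : (U₁ ∩ U₂).Nonempty) :
    Tight ρ F (U₁ ∪ U₂) := by
  have hne : (U₁ ∪ U₂).Nonempty := h₁.1.mono Finset.subset_union_left
  refine ⟨hne, ?_⟩
  have hsub : inside ρ F U₁ ∪ inside ρ F U₂ ⊆ inside ρ F (U₁ ∪ U₂) := by
    intro e he
    simp only [inside, Finset.mem_union, Finset.mem_filter] at he ⊢
    tauto
  have hint : inside ρ F U₁ ∩ inside ρ F U₂ = inside ρ F (U₁ ∩ U₂) := by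
    ext e
    simp only [inside, Finset.mem_inter, Finset.mem_filter]
    tauto
  have c1 := Finset.card_union_add_card_inter (inside ρ F U₁) (inside ρ F U₂)
  have c2 := Finset.card_union_add_card_inter U₁ U₂
  have c3 := Finset.card_le_card hsub
  rw [hint] at c1
  have c4 := hF (U₁ ∩ U₂) h
  have c5 := hF (U₁ ∪ U₂) hne
  have c6 := h₁.2
  have c7 := h₂.2
  omega

omit [Fintype V] in
/-- Let `F` be a forest and `e ∉ F` with `insert e F` not a forest.  Then some tight set contains
both ends of `e`.  (A nonempty `U` with `|inside (insert e F) U| ≥ |U|`; then `e` is inside `U` and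
`|inside F U| ≥ |U| - 1`.) -/
theorem exists_tight_of_not_forest {F : Finset (Fin 2 × V)} (hF : IsForest ρ F)
    (e : Fin 2 × V) (he : ¬ IsForest ρ (insert e F)) :
    ∃ U, Tight ρ F U ∧ e.2 ∈ U ∧ ρ e.1 e.2 ∈ U := by
  unfold IsForest at he
  push Not at he
  obtain ⟨U, hU, hcard⟩ := he
  have hlt := hF U hU
  by_cases hin : e.2 ∈ U ∧ ρ e.1 e.2 ∈ U
  · refine ⟨U, ⟨hU, ?_⟩, hin.1, hin.2⟩
    have : inside ρ (insert e F) U ⊆ insert e (inside ρ F U) := by
      intro f hf
      simp only [inside, Finset.mem_insert, Finset.mem_filter] at hf ⊢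
      tauto
    have h1 := Finset.card_le_card this
    have h2 := Finset.card_insert_le e (inside ρ F U)
    omega
  · exfalso
    have : inside ρ (insert e F) U ⊆ inside ρ F U := by
      intro f hf
      simp only [inside, Finset.mem_insert, Finset.mem_filter] at hf ⊢
      obtain ⟨hf1 | hf1, hf2⟩ := hf
      · subst hf1
        exact absurd hf2 hin
      · exact ⟨hf1, hf2⟩
    have h1 := Finset.card_le_card this
    omega

omit [Fintype V] in
/-- An edge of a forest has two different ends (`U = {x}`) and `{x, ρ i x}` is tight. -/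
theorem exists_tight_of_mem {F : Finset (Fin 2 × V)} (hF : IsForest ρ F)
    (e : Fin 2 × V) (he : e ∈ F) : ∃ U, Tight ρ F U ∧ e.2 ∈ U ∧ ρ e.1 e.2 ∈ U := by
  have hne : e.2 ≠ ρ e.1 e.2 := by
    intro h
    have h1 := hF {e.2} (Finset.singleton_nonempty _)
    have h2 : e ∈ inside ρ F {e.2} := by
      simp only [inside, Finset.mem_filter, Finset.mem_singleton]
      exact ⟨he, trivial, h.symm⟩
    have h3 : 0 < (inside ρ F {e.2}).card := Finset.card_pos.mpr ⟨e, h2⟩
    rw [Finset.card_singleton] at h1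
    omega
  have hU : ({e.2, ρ e.1 e.2} : Finset V).Nonempty := ⟨e.2, by simp⟩
  refine ⟨{e.2, ρ e.1 e.2}, ⟨hU, ?_⟩, by simp, by simp⟩
  have h1 := hF _ hU
  have h2 : e ∈ inside ρ F {e.2, ρ e.1 e.2} := by
    simp only [inside, Finset.mem_filter, Finset.mem_insert, Finset.mem_singleton]
    exact ⟨he, Or.inl trivial, Or.inr trivial⟩
  have h3 : 0 < (inside ρ F {e.2, ρ e.1 e.2}).card := Finset.card_pos.mpr ⟨e, h2⟩
  rw [Finset.card_pair hne] at h1 ⊢
  omega

/-- If `ρ` is transitive (no proper nonempty set is mapped into itself by both permutations) a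
maximal forest is a spanning tree.  Proof: fix `v₀` and let `T` be a tight set containing `v₀` with
the largest number of elements (`{v₀}` is tight).  If `x ∈ T` then the edge `(i, x)` has both ends
in a tight set `U` (previous two lemmas); `T ∪ U` is tight by `Tight.union`, so `U ⊆ T` and
`ρ i x ∈ T`.  So `T = univ` and `|F| + 1 = |V|` (`inside F univ = F`). -/
theorem isSpanTree_of_maximal [Nonempty V] {F : Finset (Fin 2 × V)} (hF : IsForest ρ F)
    (hmax : ∀ e, e ∉ F → ¬ IsForest ρ (insert e F))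
    (htrans : ∀ U : Finset V, U.Nonempty → (∀ x ∈ U, ∀ i, ρ i x ∈ U) → U = Finset.univ) :
    IsSpanTree ρ F := by
  classical
  have v₀ : V := Classical.arbitrary V
  have h0 : Tight ρ F {v₀} := by
    refine ⟨Finset.singleton_nonempty _, ?_⟩
    have := hF {v₀} (Finset.singleton_nonempty _)
    simp at this ⊢
    omega
  let 𝒯 : Finset (Finset V) := Finset.univ.filter (fun T => Tight ρ F T ∧ v₀ ∈ T)
  have h𝒯 : 𝒯.Nonempty := ⟨{v₀}, by simp [𝒯, h0]⟩
  obtain ⟨T, hT, hTmax⟩ := Finset.exists_max_image 𝒯 Finset.card h𝒯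
  have hT1 : Tight ρ F T ∧ v₀ ∈ T := by simpa [𝒯] using hT
  have hclosed : ∀ x ∈ T, ∀ i, ρ i x ∈ T := by
    intro x hx i
    obtain ⟨U, hU, h1, h2⟩ : ∃ U, Tight ρ F U ∧ (i, x).2 ∈ U ∧ ρ (i, x).1 (i, x).2 ∈ U := by
      by_cases he : (i, x) ∈ F
      · exact exists_tight_of_mem ρ hF _ he
      · exact exists_tight_of_not_forest ρ hF _ (hmax _ he)
    have hun : Tight ρ F (T ∪ U) := Tight.union ρ hF hT1.1 hU ⟨x, by
      rw [Finset.mem_inter]; exact ⟨hx, h1⟩⟩
    have hmem : T ∪ U ∈ 𝒯 := by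
      simp only [𝒯, Finset.mem_filter, Finset.mem_univ, true_and]
      exact ⟨hun, Finset.mem_union_left _ hT1.2⟩
    have hle := hTmax _ hmem
    have heq : T = T ∪ U := Finset.eq_of_subset_of_card_le Finset.subset_union_left hle
    rw [heq]
    exact Finset.mem_union_right _ h2
  have huniv := htrans T hT1.1.1 hclosed
  refine ⟨hF, ?_⟩
  have h1 := hT1.1.2
  rw [huniv] at h1
  have h2 : inside ρ F Finset.univ = F := by
    ext e
    simp [inside]
  rw [h2, Finset.card_univ] at h1
  exact h1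

/-- Every forest `F₀` is contained in a maximal one (largest number of elements among the forests
containing `F₀`), which is a spanning tree. -/
theorem exists_spanTree_of_forest [Nonempty V] {F₀ : Finset (Fin 2 × V)} (hF : IsForest ρ F₀)
    (htrans : ∀ U : Finset V, U.Nonempty → (∀ x ∈ U, ∀ i, ρ i x ∈ U) → U = Finset.univ) :
    ∃ F, F₀ ⊆ F ∧ IsSpanTree ρ F := by
  classical
  let 𝒯 : Finset (Finset (Fin 2 × V)) := Finset.univ.filter (fun F => IsForest ρ F ∧ F₀ ⊆ F)
  have h𝒯 : 𝒯.Nonempty := ⟨F₀, by simp [𝒯, hF]⟩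
  obtain ⟨F, hmem, hmax⟩ := Finset.exists_max_image 𝒯 Finset.card h𝒯
  have h1 : IsForest ρ F ∧ F₀ ⊆ F := by simpa [𝒯] using hmem
  refine ⟨F, h1.2, isSpanTree_of_maximal ρ h1.1 ?_ htrans⟩
  intro e he hfor
  have h2 : insert e F ∈ 𝒯 := by
    simp only [𝒯, Finset.mem_filter, Finset.mem_univ, true_and]
    exact ⟨hfor, h1.2.trans (Finset.subset_insert _ _)⟩
  have h3 := hmax _ h2
  rw [Finset.card_insert_of_notMem he] at h3
  omega

/-- `Expand` implies transitivity: if `U` is nonempty and mapped into itself then the images of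
`U` under `ρ 0`, `ρ 1` are `U` (finite sets), so by `Expand` `2 |U| > |V|`; the complement is also
mapped onto itself, and if it is nonempty, `2 |Uᶜ| > |V|` too. -/
theorem transitive_of_expand (h : Expand ρ) (U : Finset V) (hU : U.Nonempty)
    (hc : ∀ x ∈ U, ∀ i, ρ i x ∈ U) : U = Finset.univ := by
  classical
  have key : ∀ W : Finset V, W.Nonempty → (∀ x ∈ W, ∀ i, ρ i x ∈ W) →
      Fintype.card V < 2 * W.card := by
    intro W hW hWc
    by_contra hcon
    have h1 := h W hW (by omega)
    have h2 : ∀ i, W.image (ρ i) \ W = ∅ := by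
      intro i
      rw [Finset.sdiff_eq_empty_iff_subset]
      intro y hy
      rw [Finset.mem_image] at hy
      obtain ⟨x, hx, rfl⟩ := hy
      exact hWc x hx i
    rw [h2, h2] at h1
    simp at h1
    exact hW.ne_empty h1
  have himg : ∀ i, U.image (ρ i) = U := by
    intro i
    apply Finset.eq_of_subset_of_card_le
    · intro y hy
      rw [Finset.mem_image] at hy
      obtain ⟨x, hx, rfl⟩ := hy
      exact hc x hx i
    · rw [Finset.card_image_of_injective _ (ρ i).injective]
  by_contra hne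
  have hcomp : (Uᶜ).Nonempty := by
    rw [Finset.nonempty_iff_ne_empty]
    intro h0
    exact hne (Finset.compl_eq_empty_iff U |>.mp h0)
  have hcc : ∀ x ∈ Uᶜ, ∀ i, ρ i x ∈ Uᶜ := by
    intro x hx i
    rw [Finset.mem_compl] at hx ⊢
    intro hin
    apply hx
    rw [← himg i, Finset.mem_image] at hin
    obtain ⟨y, hy, hyx⟩ := hin
    rwa [(ρ i).injective hyx] at hy
  have k1 := key U hU hc
  have k2 := key _ hcomp hcc
  have k3 := Finset.card_add_card_compl U
  omega

end H98T
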