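import Pool.Agent.Lib.H98T.HDefs

/-! # H01: one more handle -/

namespace H98T

variable {V : Type*} {g : ℕ}

theorem h01_u_succ {W : Type*} {k : ℕ} (τ : Fin (2 * k) → Equiv.Perm W) (s : ℕ) (h : s < 4 * k) :
    u τ (s + 1) = tau τ ⟨s, h⟩ * u τ s := by
  rw [u, dif_pos h]

theorem h01_tau_old (σ : Fin (2 * g) → Equiv.Perm V) (a b : Equiv.Perm V) (s : ℕ) (h : s < 4 * g)
    (h' : s < 4 * (g + 1)) : tau (ext2 σ a b) ⟨s, h'⟩ = tau σ ⟨s, h⟩ := by
  have h1 : 2 * (s / 4) + s % 2 < 2 * g := by omega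
  unfold tau gen ext2
  simp only [dif_pos h1]

theorem h01_tau_new (σ : Fin (2 * g) → Equiv.Perm V) (a b : Equiv.Perm V) (i : ℕ) (hi : i < 4)
    (h' : 4 * g + i < 4 * (g + 1)) : tau (ext2 σ a b) ⟨4 * g + i, h'⟩ =
      (if i < 2 then (if i % 2 = 0 then a else b) else (if i % 2 = 0 then a else b)⁻¹) := by
  have h1 : ¬ (2 * ((4 * g + i) / 4) + (4 * g + i) % 2 < 2 * g) := by omega
  have h2 : (2 * ((4 * g + i) / 4) + (4 * g + i) % 2 = 2 * g) ↔ i % 2 = 0 := by omega
  have h3 : ((4 * g + i) % 4 < 2) ↔ i < 2 := by omega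
  unfold tau gen ext2
  simp only [dif_neg h1, h2, h3]

/-- PROOF. Injective: evaluate at the indices `< 2 g`, `2 g`, `2 g + 1`. Surjective: take
`σ i = τ ⟨i, _⟩`, `a = τ ⟨2 g, _⟩`, `b = τ ⟨2 g + 1, _⟩`. -/
theorem ext2_bijective {α : Type*} (g : ℕ) : Function.Bijective
    (fun p : (Fin (2 * g) → α) × (α × α) => ext2 p.1 p.2.1 p.2.2) := by
  constructor
  · rintro ⟨σ, a, b⟩ ⟨σ', a', b'⟩ h
    simp only at h
    have h1 : σ = σ' := by
      funext i
      have h2 := congrFun h ⟨i.val, by have := i.isLt; omega⟩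
      simpa [ext2, i.isLt] using h2
    have h3 : a = a' := by
      have h2 := congrFun h ⟨2 * g, by omega⟩
      simpa [ext2] using h2
    have h4 : b = b' := by
      have h2 := congrFun h ⟨2 * g + 1, by omega⟩
      simpa [ext2] using h2
    rw [h1, h3, h4]
  · intro τ
    refine ⟨(fun i => τ ⟨i.val, by have := i.isLt; omega⟩, τ ⟨2 * g, by omega⟩, τ ⟨2 * g + 1, by omega⟩), ?_⟩
    funext i
    unfold ext2
    simp only
    split_ifs with h1 h2
    · rfl
    · congr 1
      exact Fin.ext h2.symm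
    · congr 1
      apply Fin.ext
      have := i.isLt
      simp only
      omega

/-- the first two generators do not change (`1 ≤ g`) -/
theorem two_ext2 (hg : 1 ≤ g) (σ : Fin (2 * g) → Equiv.Perm V) (a b : Equiv.Perm V) :
    two (ext2 σ a b) = two σ := by
  funext i
  have h1 : i.val < 2 * g := by have := i.isLt; omega
  have h2 : i.val < 2 * (g + 1) := by omega
  unfold two
  rw [dif_pos h1, dif_pos h2]
  unfold ext2
  simp only [dif_pos h1]

/-- PROOF. Induction on `s`; for `s < 4 g` the side `s` has `gen s < 2 g`, so `tau` is the same. -/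
theorem u_ext2_le (σ : Fin (2 * g) → Equiv.Perm V) (a b : Equiv.Perm V) (s : ℕ)
    (hs : s ≤ 4 * g) : u (ext2 σ a b) s = u σ s := by
  induction s with
  | zero => rfl
  | succ s ih =>
    rw [h01_u_succ (ext2 σ a b) s (by omega), h01_u_succ σ s (by omega), ih (by omega),
      h01_tau_old σ a b s (by omega)]

/-- PROOF. `4 (g + 1) = 4 g + 1 + 1 + 1 + 1`; unfold `u` four times; the sides `4 g, .., 4 g + 3` have
`tau = a, b, a⁻¹, b⁻¹` (`gen` is `2 g, 2 g + 1, 2 g, 2 g + 1`, by `omega`); then `u_ext2_le`. -/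
theorem u_ext2 (σ : Fin (2 * g) → Equiv.Perm V) (a b : Equiv.Perm V) :
    u (ext2 σ a b) (4 * (g + 1)) = cm a b * u σ (4 * g) := by
  have e : 4 * (g + 1) = 4 * g + 3 + 1 := by ring
  rw [e, h01_u_succ (ext2 σ a b) (4 * g + 3) (by omega), h01_tau_new σ a b 3 (by norm_num),
    h01_u_succ (ext2 σ a b) (4 * g + 2) (by omega), h01_tau_new σ a b 2 (by norm_num),
    h01_u_succ (ext2 σ a b) (4 * g + 1) (by omega), h01_tau_new σ a b 1 (by norm_num),
    h01_u_succ (ext2 σ a b) (4 * g) (by omega), u_ext2_le σ a b (4 * g) le_rfl]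
  have h0 := h01_tau_new σ a b 0 (by norm_num) (by omega)
  simp only [add_zero] at h0
  rw [h0]
  simp [cm, mul_assoc]

end H98T
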