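import Pool.Agent.Lib.H98T.H01

/-! # H02: recurrence for the number of covers -/

namespace H98T

open Finset

variable {V : Type*} [Fintype V] [DecidableEq V] (Q : (Fin 2 → Equiv.Perm V) → Prop)

/-- PROOF. `ext2_bijective`, `two_ext2`, `u_ext2`: the `σ` counted by `cnt Q (g + 1) x` are the
`ext2 σ' a b` with `Q (two σ')`, `u σ' (4 g) = (cm a b)⁻¹ * x`. (`Finset.card_eq_sum_card_fiberwise` or
write both sides as sums of indicators: `Finset.card_filter`, `Fintype.sum_prod_type`,
`Function.Bijective.sum_comp` / `Equiv.ofBijective`.) -/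
theorem cnt_succ {g : ℕ} (hg : 1 ≤ g) (x : Equiv.Perm V) :
    cnt Q (g + 1) x = ∑ p : Equiv.Perm V × Equiv.Perm V, cnt Q g ((cm p.1 p.2)⁻¹ * x) := by
  classical
  unfold cnt
  simp only [Finset.card_filter]
  rw [← (ext2_bijective (α := Equiv.Perm V) g).sum_comp
     (fun σ => if Q (two σ) ∧ u σ (4 * (g + 1)) = x then 1 else 0)]
  rw [Fintype.sum_prod_type, Finset.sum_comm]
  refine Finset.sum_congr rfl (fun p _ => Finset.sum_congr rfl (fun σ _ => ?_))
  simp only [two_ext2 hg, u_ext2]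
  have h : cm p.1 p.2 * u σ (4 * g) = x ↔ u σ (4 * g) = (cm p.1 p.2)⁻¹ * x := by
    rw [eq_inv_mul_iff_mul_eq]
  simp only [h]

/-- PROOF. Induction on `g`. `g = 1`: the sum is the number of `σ : Fin 2 → Perm V` with `Q (two σ)`, and
`two σ = σ` (`2 * 1 = 2`). Step: `cnt_succ`, exchange the sums, `x ↦ (cm p)⁻¹ * x` is a bijection. -/
theorem sum_cnt (m : ℕ) : ∑ x : Equiv.Perm V, cnt Q (m + 1) x =
    cnt2 Q * Fintype.card (Equiv.Perm V) ^ (2 * m) := by
  classical
  induction m with
  | zero =>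
    unfold cnt cnt2
    simp only [Nat.mul_zero, pow_zero, mul_one]
    have htwo : ∀ σ : Fin (2 * (0 + 1)) → Equiv.Perm V, two σ = σ := by
      intro σ
      funext i
      have hi : i.val < 2 * (0 + 1) := i.isLt
      unfold two
      rw [dif_pos hi]
    have h1 := Finset.card_eq_sum_card_fiberwise (f := fun σ : Fin (2 * (0 + 1)) → Equiv.Perm V =>
      u σ (4 * (0 + 1))) (s := univ.filter fun σ : Fin (2 * (0 + 1)) → Equiv.Perm V => Q (two σ))
      (t := (Finset.univ : Finset (Equiv.Perm V))) (fun σ _ => Finset.mem_coe.2 (Finset.mem_univ _))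
    have h2 : (univ.filter fun σ : Fin (2 * (0 + 1)) → Equiv.Perm V => Q (two σ)).card =
        (univ.filter fun ρ : Fin 2 → Equiv.Perm V => Q ρ).card := by
      have h3 : (univ.filter fun σ : Fin (2 * (0 + 1)) → Equiv.Perm V => Q (two σ)) =
        (univ.filter fun σ : Fin (2 * (0 + 1)) → Equiv.Perm V => Q σ) := by
        refine Finset.filter_congr (fun σ _ => ?_)
        rw [htwo]
      rw [h3]
    rw [← h2, h1]
    refine Finset.sum_congr rfl (fun x _ => ?_)
    rw [Finset.filter_filter]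
  | succ m ih =>
    have h1 : ∀ x : Equiv.Perm V, cnt Q (m + 1 + 1) x =
        ∑ p : Equiv.Perm V × Equiv.Perm V, cnt Q (m + 1) ((cm p.1 p.2)⁻¹ * x) :=
      fun x => cnt_succ Q (by omega) x
    rw [Finset.sum_congr rfl (fun x _ => h1 x), Finset.sum_comm]
    have h2 : ∀ p : Equiv.Perm V × Equiv.Perm V,
        ∑ x : Equiv.Perm V, cnt Q (m + 1) ((cm p.1 p.2)⁻¹ * x) =
          cnt2 Q * Fintype.card (Equiv.Perm V) ^ (2 * m) := by
      intro p
      rw [← ih]
      exact Equiv.sum_comp (Equiv.mulLeft (cm p.1 p.2)⁻¹) (fun x => cnt Q (m + 1) x)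
    rw [Finset.sum_congr rfl (fun p _ => h2 p), Finset.sum_const, Finset.card_univ,
      Fintype.card_prod, smul_eq_mul]
    ring

open Classical in
/-- `cnt Q g 1` is the number wanted (`IsCov σ` is `u σ (4 * g) = 1`) -/
theorem cnt_one (g : ℕ) : cnt Q g 1 =
    (univ.filter fun σ : Fin (2 * g) → Equiv.Perm V => IsCov σ ∧ Q (two σ)).card := by
  unfold cnt IsCov
  congr 1
  ext σ
  simp only [Finset.mem_filter]
  exact and_congr_right (fun _ => and_comm)

end H98T
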