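import Pool.Agent.Lib.H98T.HDefs

/-! # H05: the quadratic form of the commutator kernel -/

namespace H98T

open Finset

variable {G : Type*} [Group G] [Fintype G]

theorem cm_inv (a b : G) : (cm a b)⁻¹ = cm b a := by
  unfold cm
  group

/-- PROOF. `∑ x, f x * f (b⁻¹ a⁻¹ b a x)`; substitute `x = a⁻¹ y`, `c = a⁻¹`: the left side is
`∑ y, ∑ c, φ c * Φ c` with `φ c = f (c y)`, `Φ c = ∑ b, φ (b⁻¹ c b)`. `Φ (e⁻¹ c e) = Φ c`, so
`|G| ∑ c, φ c * Φ c = ∑ e, ∑ c, φ (e⁻¹ c e) * Φ (e⁻¹ c e) = ∑ c, Φ c ^ 2`. Hence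
`|G| * LHS = ∑ y, ∑ c, Φ_y c ^ 2 ≥ (∑ y, ∑ c, Φ_y c)^2 / |G|^2` (Cauchy-Schwarz,
`inner_mul_le_norm_mul_norm` or `Finset.inner_mul_le_norm_mul_norm`, `sq_sum_le_card_mul_sum_sq`) and
`∑ y, ∑ c, Φ_y c = |G|^2 ∑ f`. -/
theorem quad_form (f : G → ℝ) :
    (Fintype.card G : ℝ) * (∑ x, f x) ^ 2 ≤ ∑ x, f x * TT f x := by
  classical
  set n : ℝ := (Fintype.card G : ℝ) with hn
  have hn0 : 0 < n := by
    rw [hn]
    exact_mod_cast Fintype.card_pos
  set Φ : G → G → ℝ := fun y c => ∑ b : G, f (b⁻¹ * c * b * y) with hΦ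
  have hS : ∑ x, f x * TT f x = ∑ y, ∑ c, f (c * y) * Φ y c := by
    calc ∑ x, f x * TT f x = ∑ x, ∑ a, ∑ b, f x * f (b⁻¹ * a⁻¹ * b * a * x) := by
          refine Finset.sum_congr rfl (fun x _ => ?_)
          unfold TT cm
          rw [Fintype.sum_prod_type, Finset.mul_sum]
          refine Finset.sum_congr rfl (fun a _ => ?_)
          rw [Finset.mul_sum]
      _ = ∑ a, ∑ x, ∑ b, f x * f (b⁻¹ * a⁻¹ * b * a * x) := Finset.sum_comm
      _ = ∑ a, ∑ y, ∑ b, f (a⁻¹ * y) * f (b⁻¹ * a⁻¹ * b * y) := by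
          refine Finset.sum_congr rfl (fun a _ => ?_)
          rw [← Equiv.sum_comp (Equiv.mulLeft a⁻¹)
            (fun x => ∑ b, f x * f (b⁻¹ * a⁻¹ * b * a * x))]
          refine Finset.sum_congr rfl (fun y _ => Finset.sum_congr rfl (fun b _ => ?_))
          simp only [Equiv.coe_mulLeft]
          congr 2
          group
      _ = ∑ c, ∑ y, ∑ b, f (c * y) * f (b⁻¹ * c * b * y) := by
          rw [← Equiv.sum_comp (Equiv.inv G)
            (fun c => ∑ y, ∑ b, f (c * y) * f (b⁻¹ * c * b * y))]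
          rfl
      _ = ∑ y, ∑ c, ∑ b, f (c * y) * f (b⁻¹ * c * b * y) := Finset.sum_comm
      _ = ∑ y, ∑ c, f (c * y) * Φ y c := by
          refine Finset.sum_congr rfl (fun y _ => Finset.sum_congr rfl (fun c _ => ?_))
          rw [hΦ, Finset.mul_sum]
  have hconj : ∀ y c e : G, Φ y (e⁻¹ * c * e) = Φ y c := by
    intro y c e
    rw [hΦ]
    simp only
    rw [← Equiv.sum_comp (Equiv.mulLeft e) (fun b => f (b⁻¹ * c * b * y))]
    refine Finset.sum_congr rfl (fun b _ => ?_)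
    simp only [Equiv.coe_mulLeft]
    congr 1
    group
  have hsq : ∀ y, n * ∑ c, f (c * y) * Φ y c = ∑ c, Φ y c ^ 2 := by
    intro y
    have h1 : ∀ e : G, ∑ c, f (c * y) * Φ y c = ∑ c, f (e⁻¹ * c * e * y) * Φ y c := by
      intro e
      rw [← Equiv.sum_comp (MulAut.conj e⁻¹).toEquiv (fun c => f (c * y) * Φ y c)]
      refine Finset.sum_congr rfl (fun c _ => ?_)
      have h2 : (MulAut.conj e⁻¹).toEquiv c = e⁻¹ * c * e := by
        simp
      rw [h2, hconj]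
    calc n * ∑ c, f (c * y) * Φ y c = ∑ _e : G, ∑ c, f (c * y) * Φ y c := by
          rw [Finset.sum_const, nsmul_eq_mul, Finset.card_univ]
      _ = ∑ e : G, ∑ c, f (e⁻¹ * c * e * y) * Φ y c := Finset.sum_congr rfl (fun e _ => h1 e)
      _ = ∑ c, ∑ e : G, f (e⁻¹ * c * e * y) * Φ y c := Finset.sum_comm
      _ = ∑ c, Φ y c ^ 2 := by
          refine Finset.sum_congr rfl (fun c _ => ?_)
          rw [← Finset.sum_mul, sq]
  have hmass : ∑ y, ∑ c, Φ y c = n ^ 2 * ∑ x, f x := by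
    rw [hΦ]
    simp only
    rw [Finset.sum_comm]
    calc ∑ c, ∑ y, ∑ b, f (b⁻¹ * c * b * y) = ∑ _c : G, ∑ _b : G, ∑ x, f x := by
          refine Finset.sum_congr rfl (fun c _ => ?_)
          rw [Finset.sum_comm]
          refine Finset.sum_congr rfl (fun b _ => ?_)
          exact Equiv.sum_comp (Equiv.mulLeft (b⁻¹ * c * b)) f
      _ = n ^ 2 * ∑ x, f x := by
          rw [Finset.sum_const, Finset.sum_const, nsmul_eq_mul, nsmul_eq_mul, Finset.card_univ]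
          ring
  have hCS : (∑ y, ∑ c, Φ y c) ^ 2 ≤ n ^ 2 * ∑ y, ∑ c, Φ y c ^ 2 := by
    have h1 := sq_sum_le_card_mul_sum_sq (s := (Finset.univ : Finset (G × G)))
      (f := fun p => Φ p.1 p.2)
    rw [Fintype.sum_prod_type, Fintype.sum_prod_type, Finset.card_univ, Fintype.card_prod] at h1
    push_cast at h1
    calc (∑ y, ∑ c, Φ y c) ^ 2 ≤ (Fintype.card G : ℝ) * (Fintype.card G : ℝ) *
          ∑ y, ∑ c, Φ y c ^ 2 := h1
      _ = n ^ 2 * ∑ y, ∑ c, Φ y c ^ 2 := by rw [sq n]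
  have hfin : n ^ 4 * (∑ x, f x) ^ 2 ≤ n ^ 3 * ∑ x, f x * TT f x := by
    calc n ^ 4 * (∑ x, f x) ^ 2 = (∑ y, ∑ c, Φ y c) ^ 2 := by
          rw [hmass]
          ring
      _ ≤ n ^ 2 * ∑ y, ∑ c, Φ y c ^ 2 := hCS
      _ = n ^ 2 * ∑ y, n * ∑ c, f (c * y) * Φ y c := by
          rw [Finset.sum_congr rfl (fun y _ => (hsq y).symm)]
      _ = n ^ 3 * ∑ x, f x * TT f x := by
          rw [← Finset.mul_sum, ← hS]
          ring
  have h3 : n ^ 3 * (n * (∑ x, f x) ^ 2) ≤ n ^ 3 * ∑ x, f x * TT f x := by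
    calc n ^ 3 * (n * (∑ x, f x) ^ 2) = n ^ 4 * (∑ x, f x) ^ 2 := by ring
      _ ≤ _ := hfin
  exact le_of_mul_le_mul_left h3 (by positivity)

/-- PROOF. Exchange the sums, `x ↦ (cm a b)⁻¹ * x`, `cm_inv`, exchange `a` and `b`. -/
theorem TT_adj (f h : G → ℝ) : ∑ x, f x * TT h x = ∑ x, TT f x * h x := by
  unfold TT
  calc ∑ x, f x * ∑ p : G × G, h (cm p.1 p.2 * x)
      = ∑ p : G × G, ∑ x, f x * h (cm p.1 p.2 * x) := by
        rw [Finset.sum_comm]
        refine Finset.sum_congr rfl (fun x _ => ?_)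
        rw [Finset.mul_sum]
    _ = ∑ p : G × G, ∑ x, f (cm p.2 p.1 * x) * h x := by
        refine Finset.sum_congr rfl (fun p _ => ?_)
        rw [← Equiv.sum_comp (Equiv.mulLeft (cm p.2 p.1)) (fun x => f x * h (cm p.1 p.2 * x))]
        refine Finset.sum_congr rfl (fun x _ => ?_)
        simp only [Equiv.coe_mulLeft]
        rw [← cm_inv p.1 p.2, mul_inv_cancel_left]
    _ = ∑ p : G × G, ∑ x, f (cm p.1 p.2 * x) * h x :=
        Equiv.sum_comp (Equiv.prodComm G G) (fun p => ∑ x, f (cm p.1 p.2 * x) * h x)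
    _ = ∑ x, (∑ p : G × G, f (cm p.1 p.2 * x)) * h x := by
        rw [Finset.sum_comm]
        refine Finset.sum_congr rfl (fun x _ => ?_)
        rw [Finset.sum_mul]

theorem sum_TT (f : G → ℝ) : ∑ x, TT f x = (Fintype.card G : ℝ) ^ 2 * ∑ x, f x := by
  unfold TT
  rw [Finset.sum_comm]
  calc ∑ p : G × G, ∑ x, f (cm p.1 p.2 * x) = ∑ _p : G × G, ∑ x, f x := by
        refine Finset.sum_congr rfl (fun p _ => ?_)
        exact Equiv.sum_comp (Equiv.mulLeft (cm p.1 p.2)) f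
    _ = (Fintype.card G : ℝ) ^ 2 * ∑ x, f x := by
        rw [Finset.sum_const, nsmul_eq_mul, Finset.card_univ, Fintype.card_prod]
        push_cast
        ring

end H98T
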