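import Pool.Agent.Lib.H98T.HDefs

/-! # H08: images of a set under permutations -/

namespace H98T

open Finset

variable {V : Type*} [Fintype V] [DecidableEq V]

theorem h08_exists (A B : Finset V) (h : A.card = B.card) :
    ∃ c : Equiv.Perm V, A.image c = B := by
  classical
  have e : { x // x ∈ A } ≃ { x // x ∈ B } := Finset.equivOfCardEq h
  refine ⟨e.extendSubtype, ?_⟩
  apply Finset.eq_of_subset_of_card_le
  · intro y hy
    rw [Finset.mem_image] at hy
    obtain ⟨x, hx, rfl⟩ := hy
    exact e.extendSubtype_mem x hx
  · rw [Finset.card_image_of_injective _ (Equiv.injective _), h]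

theorem h08_fibre (U A B : Finset V) (h : A.card = B.card) :
    (univ.filter fun π : Equiv.Perm V => U.image π = A).card =
      (univ.filter fun π : Equiv.Perm V => U.image π = B).card := by
  classical
  obtain ⟨c, hc⟩ := h08_exists A B h
  apply Finset.card_bij' (fun π _ => c * π) (fun π _ => c⁻¹ * π)
  · intro π hπ
    rw [Finset.mem_filter] at hπ ⊢
    refine ⟨Finset.mem_univ _, ?_⟩
    rw [← hc, ← hπ.2, Finset.image_image]
    rfl
  · intro π hπ
    rw [Finset.mem_filter] at hπ ⊢
    refine ⟨Finset.mem_univ _, ?_⟩
    have h1 : U.image (c⁻¹ * π : Equiv.Perm V) = (U.image π).image (c⁻¹ : Equiv.Perm V) := by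
      rw [Finset.image_image]
      rfl
    rw [h1, hπ.2, ← hc, Finset.image_image]
    have h2 : ((c⁻¹ : Equiv.Perm V) : V → V) ∘ c = id := by
      ext x
      simp
    rw [h2, Finset.image_id]
  · intro π _
    simp
  · intro π _
    simp

/-- PROOF. For `W` of the same size there is a permutation `c` with `c W₀ = W`, and `π ↦ c π` is a
bijection of `{π | π U = W₀}` with `{π | π U = W}`; so all the fibres of `π ↦ π U` over the
`|U|`-subsets (`powersetCard`) have the same size; their number is `C(d, |U|)` and the total is `d!`
(`Finset.card_eq_sum_card_fiberwise`, `card_powersetCard`, `Fintype.card_perm`). For the existence of `c`: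
`Finset.equivOfCardEq` and `Equiv.extendSubtype`, or `Equiv.Perm.exists_..`. -/
theorem card_image_eq (U W : Finset V) (h : W.card = U.card) :
    (univ.filter fun π : Equiv.Perm V => U.image π = W).card * (Fintype.card V).choose U.card =
      (Fintype.card V).factorial := by
  have h1 := Finset.card_eq_sum_card_fiberwise (s := (univ : Finset (Equiv.Perm V)))
    (f := fun π : Equiv.Perm V => U.image π) (t := powersetCard U.card (univ : Finset V)) (by
      intro π _
      rw [Finset.mem_coe, Finset.mem_powersetCard]
      exact ⟨Finset.subset_univ _, Finset.card_image_of_injective _ π.injective⟩)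
  rw [Finset.card_univ, Fintype.card_perm] at h1
  rw [h1]
  have h2 : ∀ B ∈ powersetCard U.card (univ : Finset V),
      (univ.filter fun π : Equiv.Perm V => U.image π = B).card =
        (univ.filter fun π : Equiv.Perm V => U.image π = W).card := by
    intro B hB
    rw [Finset.mem_powersetCard] at hB
    exact h08_fibre U B W (by rw [hB.2, h])
  rw [Finset.sum_congr rfl h2, Finset.sum_const, Finset.card_powersetCard, Finset.card_univ,
    smul_eq_mul, mul_comm]

end H98T
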