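import Pool.Agent.Lib.H98T.HDefs

/-! # H09: pairs of sets close to a given set -/

namespace H98T

open Finset

variable {V : Type*} [Fintype V] [DecidableEq V]

/-- PROOF. Map `(W₀, W₁)` to the pair of `A = {(i, v) | v ∈ U, v ∉ W_i}` and `B = {(i, v) | v ∈ W_i,
v ∉ U}`, subsets of `Fin 2 × V` (or `Bool × V`, or `disjSum`). It is injective (`W_i = (U \ A_i) ∪ B_i`).
`|U \ W_i| = |W_i \ U|` because `|W_i| = |U|`, so `|A| = |B| = t`; `A` is a `t`-subset of a set with
`2 |U|` elements and `B` of a set with `2 (|V| - |U|)` elements (`card_powersetCard`). -/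
theorem card_close_le (U : Finset V) (t : ℕ) :
    (univ.filter fun W : Finset V × Finset V => W.1.card = U.card ∧ W.2.card = U.card ∧
      (W.1 \ U).card + (W.2 \ U).card = t).card ≤
      (2 * U.card).choose t * (2 * (Fintype.card V - U.card)).choose t := by
  have hU : (U.disjSum U).card = 2 * U.card := by
    rw [Finset.card_disjSum]
    omega
  have hUc : (Uᶜ.disjSum Uᶜ).card = 2 * (Fintype.card V - U.card) := by
    rw [Finset.card_disjSum, Finset.card_compl]
    omega
  rw [← hU, ← hUc, ← Finset.card_powersetCard, ← Finset.card_powersetCard,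
    ← Finset.card_product]
  apply Finset.card_le_card_of_injOn
    (fun W : Finset V × Finset V => ((U \ W.1).disjSum (U \ W.2), (W.1 \ U).disjSum (W.2 \ U)))
  · intro W hW
    rw [Finset.mem_coe, Finset.mem_filter] at hW
    obtain ⟨-, h1, h2, h3⟩ := hW
    rw [Finset.mem_coe, Finset.mem_product, Finset.mem_powersetCard, Finset.mem_powersetCard]
    have e1 : (U \ W.1).card = (W.1 \ U).card := by
      have a1 := Finset.card_sdiff_add_card_inter U W.1
      have a2 := Finset.card_sdiff_add_card_inter W.1 U
      rw [Finset.inter_comm] at a2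
      omega
    have e2 : (U \ W.2).card = (W.2 \ U).card := by
      have a1 := Finset.card_sdiff_add_card_inter U W.2
      have a2 := Finset.card_sdiff_add_card_inter W.2 U
      rw [Finset.inter_comm] at a2
      omega
    refine ⟨⟨Finset.disjSum_mono Finset.sdiff_subset Finset.sdiff_subset, ?_⟩,
      Finset.disjSum_mono ?_ ?_, ?_⟩
    · rw [Finset.card_disjSum, e1, e2, h3]
    · intro x hx
      rw [Finset.mem_sdiff] at hx
      rw [Finset.mem_compl]
      exact hx.2
    · intro x hx
      rw [Finset.mem_sdiff] at hx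
      rw [Finset.mem_compl]
      exact hx.2
    · rw [Finset.card_disjSum, h3]
  · intro W _ W' _ hWW
    simp only [Prod.mk.injEq] at hWW
    obtain ⟨h1, h2⟩ := hWW
    have a1 : ∀ x, (x ∈ U ∧ x ∉ W.1) ↔ (x ∈ U ∧ x ∉ W'.1) := by
      intro x
      have := Finset.ext_iff.mp h1 (Sum.inl x)
      simpa only [Finset.inl_mem_disjSum, Finset.mem_sdiff] using this
    have a2 : ∀ x, (x ∈ U ∧ x ∉ W.2) ↔ (x ∈ U ∧ x ∉ W'.2) := by
      intro x
      have := Finset.ext_iff.mp h1 (Sum.inr x)
      simpa only [Finset.inr_mem_disjSum, Finset.mem_sdiff] using this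
    have a3 : ∀ x, (x ∈ W.1 ∧ x ∉ U) ↔ (x ∈ W'.1 ∧ x ∉ U) := by
      intro x
      have := Finset.ext_iff.mp h2 (Sum.inl x)
      simpa only [Finset.inl_mem_disjSum, Finset.mem_sdiff] using this
    have a4 : ∀ x, (x ∈ W.2 ∧ x ∉ U) ↔ (x ∈ W'.2 ∧ x ∉ U) := by
      intro x
      have := Finset.ext_iff.mp h2 (Sum.inr x)
      simpa only [Finset.inr_mem_disjSum, Finset.mem_sdiff] using this
    apply Prod.ext
    · ext x
      have b1 := a1 x
      have b3 := a3 x
      by_cases hx : x ∈ U
      · simp only [hx, true_and, not_iff_not] at b1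
        exact b1
      · simp only [hx, not_false_eq_true, and_true] at b3
        exact b3
    · ext x
      have b1 := a2 x
      have b3 := a4 x
      by_cases hx : x ∈ U
      · simp only [hx, true_and, not_iff_not] at b1
        exact b1
      · simp only [hx, not_false_eq_true, and_true] at b3
        exact b3

end H98T
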