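import Pool.Agent.Lib.H98T.H08
import Pool.Agent.Lib.H98T.H09

/-! # H10: the number of pairs which do not expand a given set -/

namespace H98T

open Finset

variable {V : Type*} [Fintype V] [DecidableEq V]

theorem h10_pair (U : Finset V) (W : Finset V × Finset V) (h1 : W.1.card = U.card)
    (h2 : W.2.card = U.card) :
    (univ.filter fun ρ : Fin 2 → Equiv.Perm V => U.image (ρ 0) = W.1 ∧ U.image (ρ 1) = W.2).card *
      (Fintype.card V).choose U.card ^ 2 = (Fintype.card V).factorial ^ 2 := by
  have e1 := card_image_eq U W.1 h1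
  have e2 := card_image_eq U W.2 h2
  have hb : (univ.filter fun ρ : Fin 2 → Equiv.Perm V =>
      U.image (ρ 0) = W.1 ∧ U.image (ρ 1) = W.2).card =
      ((univ.filter fun π : Equiv.Perm V => U.image π = W.1) ×ˢ
        (univ.filter fun π : Equiv.Perm V => U.image π = W.2)).card := by
    apply Finset.card_bij (fun ρ _ => (ρ 0, ρ 1))
    · intro ρ hρ
      simp only [Finset.mem_filter, Finset.mem_univ, true_and, Finset.mem_product] at hρ ⊢
      exact hρ
    · intro ρ _ ρ' _ h
      simp only [Prod.mk.injEq] at h
      funext i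
      fin_cases i
      · exact h.1
      · exact h.2
    · intro b hb
      refine ⟨![b.1, b.2], ?_, ?_⟩
      · simp only [Finset.mem_filter, Finset.mem_univ, true_and, Finset.mem_product] at hb ⊢
        exact hb
      · simp
  rw [hb, Finset.card_product, ← e1]
  rw [show (univ.filter fun π : Equiv.Perm V => U.image π = W.1).card *
      (univ.filter fun π : Equiv.Perm V => U.image π = W.2).card *
      (Fintype.card V).choose U.card ^ 2 =
      ((univ.filter fun π : Equiv.Perm V => U.image π = W.1).card * (Fintype.card V).choose U.card) *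
      ((univ.filter fun π : Equiv.Perm V => U.image π = W.2).card *
        (Fintype.card V).choose U.card) by ring, e1, e2, sq]

/-- PROOF. Sum over the pairs `(W₀, W₁) = (ρ 0 U, ρ 1 U)`. -/
theorem card_bad_le (U : Finset V) :
    (univ.filter fun ρ : Fin 2 → Equiv.Perm V =>
      100 * ((U.image (ρ 0) \ U).card + (U.image (ρ 1) \ U).card) < U.card).card *
      (Fintype.card V).choose U.card ^ 2 ≤
    (Fintype.card V).factorial ^ 2 * ∑ t ∈ (range U.card).filter (fun t => 100 * t < U.card),
      (2 * U.card).choose t * (2 * (Fintype.card V - U.card)).choose t := by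
  classical
  set T := (range U.card).filter (fun t => 100 * t < U.card) with hT
  let Ws : Finset (Finset V × Finset V) := univ.filter (fun W => W.1.card = U.card ∧
    W.2.card = U.card ∧ (W.1 \ U).card + (W.2 \ U).card ∈ T)
  have hmaps : ∀ ρ ∈ (univ.filter fun ρ : Fin 2 → Equiv.Perm V =>
      100 * ((U.image (ρ 0) \ U).card + (U.image (ρ 1) \ U).card) < U.card),
      (U.image (ρ 0), U.image (ρ 1)) ∈ Ws := by
    intro ρ hρ
    simp only [Finset.mem_filter, Finset.mem_univ, true_and] at hρ
    simp only [Ws, Finset.mem_filter, Finset.mem_univ, true_and, hT, Finset.mem_range]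
    refine ⟨Finset.card_image_of_injective _ (ρ 0).injective,
      Finset.card_image_of_injective _ (ρ 1).injective, ?_, hρ⟩
    omega
  rw [Finset.card_eq_sum_card_fiberwise (f := fun ρ : Fin 2 → Equiv.Perm V =>
    (U.image (ρ 0), U.image (ρ 1))) (t := Ws) (fun ρ hρ => hmaps ρ hρ)]
  rw [Finset.sum_mul]
  have h1 : ∀ W ∈ Ws, ((univ.filter fun ρ : Fin 2 → Equiv.Perm V =>
      100 * ((U.image (ρ 0) \ U).card + (U.image (ρ 1) \ U).card) < U.card).filter
        (fun ρ => (U.image (ρ 0), U.image (ρ 1)) = W)).card *
      (Fintype.card V).choose U.card ^ 2 ≤ (Fintype.card V).factorial ^ 2 := by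
    intro W hW
    simp only [Ws, Finset.mem_filter, Finset.mem_univ, true_and] at hW
    rw [← h10_pair U W hW.1 hW.2.1]
    apply Nat.mul_le_mul_right
    apply Finset.card_le_card
    intro ρ hρ
    simp only [Finset.mem_filter, Finset.mem_univ, true_and] at hρ ⊢
    have := hρ.2
    rw [← this]
    exact ⟨rfl, rfl⟩
  refine (Finset.sum_le_sum h1).trans ?_
  rw [Finset.sum_const, smul_eq_mul, mul_comm]
  apply Nat.mul_le_mul_left
  -- number of W
  have h2 : Ws.card = ∑ t ∈ T, (Ws.filter (fun W => (W.1 \ U).card + (W.2 \ U).card = t)).card := by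
    apply Finset.card_eq_sum_card_fiberwise
    intro W hW
    rw [Finset.mem_coe] at hW ⊢
    simp only [Ws, Finset.mem_filter, Finset.mem_univ, true_and] at hW
    exact hW.2.2
  rw [h2]
  apply Finset.sum_le_sum
  intro t _
  refine le_trans (Finset.card_le_card ?_) (card_close_le U t)
  intro W hW
  simp only [Ws, Finset.mem_filter, Finset.mem_univ, true_and] at hW ⊢
  exact ⟨hW.1.1, hW.1.2.1, hW.2⟩

end H98T
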