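import Mathlib

/-! # H11: estimates of binomial coefficients -/

namespace H98T

open Finset

/-- PROOF. `C(d, k) * k! = ∏ i<k, (d - i)` (`Nat.descFactorial_eq_prod_range`,
`Nat.descFactorial_eq_factorial_mul_choose`), `k! = ∏ i<k, (k - i)` and `d (k - i) ≤ k (d - i)`. -/
theorem pow_le_choose {d k : ℕ} (h : k ≤ d) : d ^ k ≤ k ^ k * d.choose k := by
  have h1 : d ^ k * k.descFactorial k ≤ k ^ k * d.descFactorial k := by
    rw [Nat.descFactorial_eq_prod_range, Nat.descFactorial_eq_prod_range]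
    have e1 : d ^ k = ∏ _i ∈ range k, d := by rw [prod_const, card_range]
    have e2 : k ^ k = ∏ _i ∈ range k, k := by rw [prod_const, card_range]
    rw [e1, e2, ← prod_mul_distrib, ← prod_mul_distrib]
    apply prod_le_prod'
    intro i hi
    rw [mem_range] at hi
    obtain ⟨a, rfl⟩ := Nat.exists_eq_add_of_lt hi
    obtain ⟨b, rfl⟩ := Nat.exists_eq_add_of_le h
    have e3 : i + a + 1 - i = a + 1 := by omega
    have e4 : i + a + 1 + b - i = a + 1 + b := by omega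
    rw [e3, e4]
    nlinarith [Nat.zero_le (i * b)]
  rw [Nat.descFactorial_self, Nat.descFactorial_eq_factorial_mul_choose] at h1
  have h2 : d ^ k * k.factorial ≤ (k ^ k * d.choose k) * k.factorial := by
    calc d ^ k * k.factorial ≤ k ^ k * (k.factorial * d.choose k) := h1
      _ = (k ^ k * d.choose k) * k.factorial := by ring
  exact Nat.le_of_mul_le_mul_right h2 (Nat.factorial_pos k)

/-- PROOF. `2 k ≤ d`: `2^(k-t) (d/k)^t ≤ (d/k)^k ≤ C(d,k)`, multiply by `k^k`: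
`2^(k-t) d^t k^(k-t) ≤ d^k ≤ k^k C(d,k)`; cancel `k^(k-t)`. -/
theorem pow_mul_le_choose {d k t : ℕ} (hk : 0 < k) (h : 2 * k ≤ d) (ht : t ≤ k) :
    2 ^ (k - t) * d ^ t ≤ k ^ t * d.choose k := by
  have h1 := pow_le_choose (d := d) (k := k) (by omega)
  have h2 : (2 * k) ^ (k - t) ≤ d ^ (k - t) := Nat.pow_le_pow_left h _
  have h3 : (2 ^ (k - t) * d ^ t) * k ^ (k - t) ≤ (k ^ t * d.choose k) * k ^ (k - t) := by
    calc (2 ^ (k - t) * d ^ t) * k ^ (k - t) = (2 * k) ^ (k - t) * d ^ t := by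
          rw [mul_pow]
          ring
      _ ≤ d ^ (k - t) * d ^ t := Nat.mul_le_mul_right _ h2
      _ = d ^ k := by rw [← pow_add, Nat.sub_add_cancel ht]
      _ ≤ k ^ k * d.choose k := h1
      _ = k ^ (k - t + t) * d.choose k := by rw [Nat.sub_add_cancel ht]
      _ = (k ^ t * d.choose k) * k ^ (k - t) := by
          rw [pow_add]
          ring
  exact Nat.le_of_mul_le_mul_right h3 (pow_pos hk _)

/-- PROOF. `C(2k,t) ≤ (2k)^t / t!` (`Nat.choose_le_pow_div`), `C(2(d-k),t) ≤ (2d)^t / t!`, and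
`pow_mul_le_choose`: `C(2k,t) C(2(d-k),t) 2^(k-t) ≤ ((2k)^t/t!) ((2d)^t/t!) 2^(k-t)
≤ ((2k)^t/t!) (2^t/t!) k^t C(d,k) = ((2k)^t/t!)^2 C(d,k)`. -/
theorem choose_mul_le {d k t : ℕ} (hk : 0 < k) (h : 2 * k ≤ d) (ht : t ≤ k) :
    ((2 * k).choose t : ℝ) * (2 * (d - k)).choose t * 2 ^ (k - t) ≤
      ((2 * (k : ℝ)) ^ t / t.factorial) ^ 2 * d.choose k := by
  have h1 : ((2 * k).choose t : ℝ) ≤ (2 * (k : ℝ)) ^ t / t.factorial := by
    have := Nat.choose_le_pow_div (α := ℝ) t (2 * k)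
    push_cast at this
    exact this
  have h2 : ((2 * (d - k)).choose t : ℝ) ≤ (2 * (d : ℝ)) ^ t / t.factorial := by
    have h3 := Nat.choose_le_pow_div (α := ℝ) t (2 * (d - k))
    refine h3.trans ?_
    have h4 : ((2 * (d - k) : ℕ) : ℝ) ≤ 2 * (d : ℝ) := by
      have : 2 * (d - k) ≤ 2 * d := by omega
      calc ((2 * (d - k) : ℕ) : ℝ) ≤ ((2 * d : ℕ) : ℝ) := by exact_mod_cast this
        _ = 2 * (d : ℝ) := by push_cast; ring
    gcongr
  have h5 : (2 : ℝ) ^ (k - t) * (d : ℝ) ^ t ≤ (k : ℝ) ^ t * d.choose k := by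
    exact_mod_cast pow_mul_le_choose hk h ht
  have hf : (0 : ℝ) < t.factorial := by exact_mod_cast Nat.factorial_pos t
  calc ((2 * k).choose t : ℝ) * (2 * (d - k)).choose t * 2 ^ (k - t)
      ≤ ((2 * (k : ℝ)) ^ t / t.factorial) * ((2 * (d : ℝ)) ^ t / t.factorial) * 2 ^ (k - t) := by
        gcongr
    _ = ((2 * (k : ℝ)) ^ t / t.factorial) * (2 ^ t / t.factorial) *
        ((2 : ℝ) ^ (k - t) * (d : ℝ) ^ t) := by
        rw [mul_pow 2 (d : ℝ)]
        ring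
    _ ≤ ((2 * (k : ℝ)) ^ t / t.factorial) * (2 ^ t / t.factorial) *
        ((k : ℝ) ^ t * d.choose k) := by
        gcongr
    _ = ((2 * (k : ℝ)) ^ t / t.factorial) ^ 2 * d.choose k := by
        rw [mul_pow 2 (k : ℝ)]
        ring

theorem h11_exp (k : ℕ) : Real.exp (k * (1 / 5)) ≤ (3 / 2 : ℝ) ^ k := by
  rw [Real.exp_nat_mul]
  have h1 : Real.exp (1 / 5) < 1 / (1 - 1 / 5) :=
    Real.exp_bound_div_one_sub_of_interval' (by norm_num) (by norm_num)
  have h2 : Real.exp (1 / 5) ≤ 3 / 2 := h1.le.trans (by norm_num)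
  exact pow_le_pow_left₀ (Real.exp_pos _).le h2 k

/-- PROOF. `(2k)^t/t! = 256^t (k/128)^t/t! ≤ 256^t exp(k/128)` (`Real.pow_div_factorial_le_exp`);
so the left side is at most `2^(16 t) exp(k/64) 2^t`, its logarithm is at most
`17 t log 2 + k/64 ≤ 0.17 k log 2 + k/64 ≤ k log (3/2)` (`log (3/2) > 0.4`, `log 2 < 0.7`). -/
theorem pow_div_le {k t : ℕ} (h : 100 * t < k) :
    ((2 * (k : ℝ)) ^ t / t.factorial) ^ 2 * 2 ^ t ≤ (3 / 2 : ℝ) ^ k := by
  have hf : (0 : ℝ) < t.factorial := by exact_mod_cast Nat.factorial_pos t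
  have h1 : ((k : ℝ) / 128) ^ t / t.factorial ≤ Real.exp ((k : ℝ) / 128) :=
    Real.pow_div_factorial_le_exp _ (by positivity) t
  have h2 : (2 * (k : ℝ)) ^ t / t.factorial ≤ 256 ^ t * Real.exp ((k : ℝ) / 128) := by
    have e : (2 * (k : ℝ)) ^ t / t.factorial = 256 ^ t * (((k : ℝ) / 128) ^ t / t.factorial) := by
      rw [← mul_div_assoc, ← mul_pow]
      congr 2
      ring
    rw [e]
    gcongr
  have h0 : 0 ≤ (2 * (k : ℝ)) ^ t / t.factorial := by positivity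
  have h3 : ((2 * (k : ℝ)) ^ t / t.factorial) ^ 2 * 2 ^ t ≤
      (256 ^ t * Real.exp ((k : ℝ) / 128)) ^ 2 * 2 ^ t := by
    gcongr
  refine h3.trans ?_
  have e1 : (256 ^ t * Real.exp ((k : ℝ) / 128)) ^ 2 * 2 ^ t =
      Real.exp (((17 * t : ℕ) : ℝ) * Real.log 2 + (k : ℝ) / 64) := by
    rw [Real.exp_add, Real.exp_nat_mul, Real.exp_log (by norm_num)]
    have e2 : Real.exp ((k : ℝ) / 64) = Real.exp ((k : ℝ) / 128) ^ 2 := by
      rw [← Real.exp_nat_mul]
      congr 1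
      push_cast
      ring
    rw [e2, mul_pow, ← pow_mul, pow_mul 2 17 t, mul_comm t 2, pow_mul (256 : ℝ) 2 t]
    have e3 : ((256 : ℝ) ^ 2) ^ t * Real.exp ((k : ℝ) / 128) ^ 2 * 2 ^ t =
        ((256 : ℝ) ^ 2 * 2) ^ t * Real.exp ((k : ℝ) / 128) ^ 2 := by
      rw [mul_pow]
      ring
    rw [e3]
    norm_num
  rw [e1]
  refine le_trans ?_ (h11_exp k)
  apply Real.exp_le_exp.mpr
  have hl := Real.log_two_lt_d9
  have ht : (t : ℝ) ≤ (k : ℝ) / 100 := by
    have : (100 : ℝ) * t ≤ k := by exact_mod_cast h.le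
    linarith
  have hl0 : 0 ≤ Real.log 2 := Real.log_nonneg (by norm_num)
  have hk0 : (0 : ℝ) ≤ k := Nat.cast_nonneg k
  have h5 : ((17 * t : ℕ) : ℝ) * Real.log 2 ≤ 17 * ((k : ℝ) / 100) * 0.7 := by
    push_cast
    have : Real.log 2 ≤ 0.7 := by linarith
    gcongr
  nlinarith

/-- PROOF. The two preceding theorems: the left side times `2^k` is at most
`2^t (…)^2 C(d,k) ≤ (3/2)^k C(d,k)`. -/
theorem term_le {d k t : ℕ} (hk : 0 < k) (h : 2 * k ≤ d) (ht : 100 * t < k) :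
    ((2 * k).choose t : ℝ) * (2 * (d - k)).choose t / d.choose k ≤ (3 / 4 : ℝ) ^ k := by
  have htk : t ≤ k := by omega
  have hC : (0 : ℝ) < d.choose k := by exact_mod_cast Nat.choose_pos (by omega)
  have h1 := choose_mul_le hk h htk
  have h2 := pow_div_le ht
  rw [div_le_iff₀ hC]
  have h3 : ((2 * k).choose t : ℝ) * (2 * (d - k)).choose t * 2 ^ k ≤
      (3 / 2 : ℝ) ^ k * d.choose k := by
    calc ((2 * k).choose t : ℝ) * (2 * (d - k)).choose t * 2 ^ k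
        = ((2 * k).choose t : ℝ) * (2 * (d - k)).choose t * 2 ^ (k - t) * 2 ^ t := by
          rw [mul_assoc _ ((2 : ℝ) ^ (k - t)), ← pow_add, Nat.sub_add_cancel htk]
      _ ≤ ((2 * (k : ℝ)) ^ t / t.factorial) ^ 2 * d.choose k * 2 ^ t := by gcongr
      _ = (((2 * (k : ℝ)) ^ t / t.factorial) ^ 2 * 2 ^ t) * d.choose k := by ring
      _ ≤ (3 / 2 : ℝ) ^ k * d.choose k := by gcongr
  have e : (3 / 4 : ℝ) ^ k * d.choose k = (3 / 2 : ℝ) ^ k * d.choose k / 2 ^ k := by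
    rw [mul_div_right_comm, ← div_pow]
    norm_num
  rw [e, le_div_iff₀ (by positivity)]
  exact h3

end H98T
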