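import Pool.Agent.Lib.H98T.Defs

/-!
# H98T, module H: counting covers of a surface (section 1 of PROOF.md), definitions

`cm a b = b⁻¹ a⁻¹ b a` is the word read along four consecutive sides. `ext2 σ a b`: one more handle.
`cnt Q g x`: the number of `σ : Fin (2 * g) → Perm V` with `Q (σ 0, σ 1)` and `u σ (4 g) = x`.
`TT f x = ∑ (a, b), f (cm a b * x)`.
-/

namespace H98T

open Finset

/-- the word read along four consecutive sides -/
def cm {G : Type*} [Group G] (a b : G) : G := b⁻¹ * a⁻¹ * b * a

/-- one more handle -/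
def ext2 {α : Type*} {g : ℕ} (σ : Fin (2 * g) → α) (a b : α) : Fin (2 * (g + 1)) → α :=
  fun i => if h : i.val < 2 * g then σ ⟨i.val, h⟩ else if i.val = 2 * g then a else b

open Classical in
/-- the number of pairs with `cm a b = z` -/
noncomputable def nn {G : Type*} [Group G] [Fintype G] (z : G) : ℕ :=
  (univ.filter fun p : G × G => cm p.1 p.2 = z).card

/-- `TT f x = ∑ (a, b), f (cm a b * x)` -/
noncomputable def TT {G : Type*} [Group G] [Fintype G] (f : G → ℝ) (x : G) : ℝ :=
  ∑ p : G × G, f (cm p.1 p.2 * x)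

open Classical in
/-- the number of `σ` with `Q (two σ)` and `u σ (4 * g) = x` -/
noncomputable def cnt {V : Type*} [Fintype V] [DecidableEq V] (Q : (Fin 2 → Equiv.Perm V) → Prop) (g : ℕ)
    (x : Equiv.Perm V) : ℕ :=
  (univ.filter fun σ : Fin (2 * g) → Equiv.Perm V => Q (two σ) ∧ u σ (4 * g) = x).card

open Classical in
/-- the number of pairs with the property `Q` -/
noncomputable def cnt2 {V : Type*} [Fintype V] [DecidableEq V] (Q : (Fin 2 → Equiv.Perm V) → Prop) : ℕ :=
  (univ.filter fun ρ : Fin 2 → Equiv.Perm V => Q ρ).card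

end H98T
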