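import Pool.Agent.Lib.H98T.L02

/-!
# H98T L03 (M): the rotation of the corners around a vertex
-/

namespace H98T

open Finset

variable {V : Type*} {g : ℕ} (σ : Fin (2 * g) → Equiv.Perm V)

/-- `psiEnum` maps `0, …, 4g-1` to itself and is an involution there. -/
theorem psiEnum_lt {t : ℕ} (ht : t < 4 * g) : psiEnum t < 4 * g := by
  unfold psiEnum
  omega

theorem psiEnum_psiEnum (t : ℕ) : psiEnum (psiEnum t) = t := by
  unfold psiEnum
  omega

theorem L03_partner_val (s : Fin (4 * g)) :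
    (partner s).val = if s.val % 4 < 2 then s.val + 2 else s.val - 2 := by
  unfold partner
  split_ifs <;> rfl

/-- `psi` is the cyclic shift in the enumeration `psiEnum`: `psi (psiEnum t) = psiEnum (t + 1)`,
read modulo `4 g` (`psiEnum (4 g) = 4 g`). Cases `t % 4`. -/
theorem psi_psiEnum {t : ℕ} (ht : t < 4 * g) :
    (psi ⟨psiEnum t, psiEnum_lt ht⟩ : Fin (4 * g)).val = psiEnum ((t + 1) % (4 * g)) := by
  have h1 : (psi ⟨psiEnum t, psiEnum_lt ht⟩ : Fin (4 * g)).val =
      ((partner (⟨psiEnum t, psiEnum_lt ht⟩ : Fin (4 * g))).val + 1) % (4 * g) := rfl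
  rw [h1, L03_partner_val]
  by_cases hlast : t + 1 = 4 * g
  · rw [hlast, Nat.mod_self]
    have h2 : psiEnum t = t - 2 := by
      unfold psiEnum
      omega
    have h3 : psiEnum 0 = 0 := by
      unfold psiEnum
      omega
    have h4 : ¬ ((⟨psiEnum t, psiEnum_lt ht⟩ : Fin (4 * g)).val % 4 ≥ 2) := by
      show ¬ (psiEnum t % 4 ≥ 2)
      rw [h2]
      omega
    have h5 : (⟨psiEnum t, psiEnum_lt ht⟩ : Fin (4 * g)).val = t - 2 := h2
    rw [if_pos (by omega), h3, h5]
    have h6 : t - 2 + 2 + 1 = 4 * g := by omega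
    rw [h6, Nat.mod_self]
  · have h2 : (t + 1) % (4 * g) = t + 1 := Nat.mod_eq_of_lt (by omega)
    rw [h2]
    have h5 : (⟨psiEnum t, psiEnum_lt ht⟩ : Fin (4 * g)).val = psiEnum t := rfl
    rw [h5]
    have h6 : (if psiEnum t % 4 < 2 then psiEnum t + 2 else psiEnum t - 2) + 1 = psiEnum (t + 1) := by
      unfold psiEnum
      split_ifs <;> omega
    rw [h6]
    exact Nat.mod_eq_of_lt (psiEnum_lt (by omega))

/-- So `psi^[n] (psiEnum t) = psiEnum ((t + n) % 4g)`, induction. -/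
theorem psi_iterate {t : ℕ} (ht : t < 4 * g) (n : ℕ) :
    (psi^[n] (⟨psiEnum t, psiEnum_lt ht⟩ : Fin (4 * g))).val = psiEnum ((t + n) % (4 * g)) := by
  induction n with
  | zero =>
    show psiEnum t = _
    rw [Nat.add_zero, Nat.mod_eq_of_lt ht]
  | succ n ih =>
    rw [Function.iterate_succ_apply']
    have hlt : (t + n) % (4 * g) < 4 * g := Nat.mod_lt _ (by omega)
    have h1 : psi^[n] (⟨psiEnum t, psiEnum_lt ht⟩ : Fin (4 * g)) =
        ⟨psiEnum ((t + n) % (4 * g)), psiEnum_lt hlt⟩ := Fin.ext ih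
    rw [h1, psi_psiEnum hlt]
    congr 1
    rw [Nat.mod_add_mod]
    congr 1

theorem L03_rep (s : Fin (4 * g)) : ∃ (t : ℕ) (ht : t < 4 * g), s = ⟨psiEnum t, psiEnum_lt ht⟩ := by
  refine ⟨psiEnum s.val, psiEnum_lt s.isLt, ?_⟩
  apply Fin.ext
  show s.val = psiEnum (psiEnum s.val)
  rw [psiEnum_psiEnum]

theorem L03_inj {a b : ℕ} (h : psiEnum a = psiEnum b) : a = b := by
  rw [← psiEnum_psiEnum a, h, psiEnum_psiEnum]

theorem psi_iterate_full (s : Fin (4 * g)) : psi^[4 * g] s = s := by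
  obtain ⟨t, ht, rfl⟩ := L03_rep s
  apply Fin.ext
  rw [psi_iterate ht, Nat.add_mod_right, Nat.mod_eq_of_lt ht]

/-- All sides are visited. -/
theorem exists_psi_iterate (s s' : Fin (4 * g)) : ∃ n, n < 4 * g ∧ psi^[n] s = s' := by
  obtain ⟨t, ht, rfl⟩ := L03_rep s
  obtain ⟨t', ht', rfl⟩ := L03_rep s'
  by_cases h : t ≤ t'
  · refine ⟨t' - t, by omega, ?_⟩
    apply Fin.ext
    rw [psi_iterate ht]
    show psiEnum ((t + (t' - t)) % (4 * g)) = psiEnum t'
    rw [Nat.add_sub_cancel' h, Nat.mod_eq_of_lt ht']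
  · refine ⟨t' + 4 * g - t, by omega, ?_⟩
    apply Fin.ext
    rw [psi_iterate ht]
    show psiEnum ((t + (t' + 4 * g - t)) % (4 * g)) = psiEnum t'
    have h1 : t + (t' + 4 * g - t) = t' + 4 * g := by omega
    rw [h1, Nat.add_mod_right, Nat.mod_eq_of_lt ht']

/-- `psi^[n] s ≠ s` for `0 < n < 4 g`. -/
theorem psi_iterate_ne (s : Fin (4 * g)) (n : ℕ) (h0 : 0 < n) (hn : n < 4 * g) :
    psi^[n] s ≠ s := by
  obtain ⟨t, ht, rfl⟩ := L03_rep s
  intro h
  have h1 := congrArg Fin.val h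
  rw [psi_iterate ht] at h1
  have h2 : (t + n) % (4 * g) = t := L03_inj h1
  by_cases h3 : t + n < 4 * g
  · rw [Nat.mod_eq_of_lt h3] at h2
    omega
  · have h4 : (t + n) % (4 * g) = t + n - 4 * g := by
      rw [Nat.mod_eq_sub_mod (by omega)]
      exact Nat.mod_eq_of_lt (by omega)
    omega

/-- The rotation preserves the vertex: `u_iota_succ`; if `partner s + 1 = 4 g` then `psi s = 0` and
`u (4 g) = 1 = u 0` by `IsCov`. -/
theorem cv_phi (h : IsCov σ) (c : V × Fin (4 * g)) : cv σ (phi σ c) = cv σ c := by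
  have h1 : cv σ (phi σ c) = u σ (psi c.2).val (iota σ c).1 := rfl
  have h2 : cv σ c = u σ c.2.val c.1 := rfl
  rw [h1, h2, ← u_iota_succ σ c]
  congr 1
  have h3 : (psi c.2).val = ((partner c.2).val + 1) % (4 * g) := rfl
  rw [h3]
  have hlt := (partner c.2).isLt
  by_cases h4 : (partner c.2).val + 1 < 4 * g
  · rw [Nat.mod_eq_of_lt h4]
  · have h5 : (partner c.2).val + 1 = 4 * g := by omega
    rw [h5, Nat.mod_self]
    exact h.symm

theorem phi_iterate_snd (c : V × Fin (4 * g)) (n : ℕ) : ((phi σ)^[n] c).2 = psi^[n] c.2 := by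
  induction n with
  | zero => rfl
  | succ n ih =>
    rw [Function.iterate_succ_apply', Function.iterate_succ_apply', ← ih]
    rfl

theorem cv_phi_iterate (h : IsCov σ) (c : V × Fin (4 * g)) (n : ℕ) :
    cv σ ((phi σ)^[n] c) = cv σ c := by
  induction n with
  | zero => rfl
  | succ n ih =>
    rw [Function.iterate_succ_apply', cv_phi σ h, ih]

/-- Second components: `psi_iterate_full`; first components: same vertex (`cv_phi`), same side,
`u σ s` is injective. -/
theorem phi_iterate_full (h : IsCov σ) (c : V × Fin (4 * g)) : (phi σ)^[4 * g] c = c := by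
  have h1 : ((phi σ)^[4 * g] c).2 = c.2 := by
    rw [phi_iterate_snd, psi_iterate_full]
  have h2 := cv_phi_iterate σ h c (4 * g)
  unfold cv at h2
  rw [h1] at h2
  exact Prod.ext ((u σ c.2.val).injective h2) h1

end H98T
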