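import Mathlib
import Pool.Agent.Lib.H98T.Z12
import Pool.Agent.Lib.H32N.Topology

set_option autoImplicit false

/-!
# H98T.Z13: expanding coverings with large radius, for every large degree
-/

namespace H98T

open H32D

/-- For every `M` and every sufficiently large `d` there is a `d`-sheeted covering `L` of `K`, a closed orientable surface of genus `G = d (g - 1) + 1` whose 1-skeleton is an expander
(with a constant which depends only on `K`), with `R_n(L) ≥ M G^(1/(n-1))`. -/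
theorem large_covers {V : Type} [Fintype V] [DecidableEq V] (K : Cpx V) (hK : IsSurface K) (g : ℕ) (hg : 2 ≤ g)
    (hχ : K.euler = 2 - 2 * (g : ℤ)) (n : ℕ) (hn : 5 ≤ n) :
    ∃ h : ℝ, 0 < h ∧ ∀ M : ℝ, ∃ d0 : ℕ, ∀ d : ℕ, d0 ≤ d → ∃ (W : Type) (_ : Fintype W) (_ : DecidableEq W) (L : Cpx W) (p : W → V),
      IsSurface L ∧ IsCovering p L K ∧ L.euler = 2 - 2 * ((d * (g - 1) + 1 : ℕ) : ℤ) ∧ Expands L.graph h ∧
        ENNReal.ofReal (M * ((d * (g - 1) + 1 : ℕ) : ℝ) ^ (1 / ((n : ℝ) - 1))) ≤ thickRadius n L := by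
  obtain ⟨C0, C, h1, hC, hh1, htop⟩ := H32N.topology K hK g hg hχ n
  refine ⟨h1, hh1, ?_⟩
  intro M0
  set M : ℝ := max M0 1 with hM
  have hM1 : 1 ≤ M := le_max_right _ _
  obtain ⟨d0, hd0⟩ := exists_cov n g C0 hn hg ((2 * C + 1) ^ (n - 1) * (M ^ (n - 1) * g))
  refine ⟨max d0 1, ?_⟩
  intro d hd
  have hd1 : 1 ≤ d := le_trans (le_max_right _ _) hd
  obtain ⟨σ, hcov, hexp, hno⟩ := hd0 d (le_trans (le_max_left _ _) hd)
  obtain ⟨W, iW, iW', L, p, hp, hL, hE, hchi, hdig⟩ := htop d hd1 σ hcov hexp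
  have hgen : L.euler = 2 - 2 * ((d * (g - 1) + 1 : ℕ) : ℤ) := by
    rw [hchi, hχ]
    have : ((g - 1 : ℕ) : ℤ) = (g : ℤ) - 1 := by omega
    push_cast
    rw [this]
    ring
  refine ⟨W, iW, iW', L, p, hL, hp, hgen, hE, ?_⟩
  obtain ⟨m, rfl⟩ : ∃ m, n = m + 1 := ⟨n - 1, by omega⟩
  have hm : (0 : ℝ) < m := by exact_mod_cast (by omega : 0 < m)
  have e : (((m + 1 : ℕ) : ℝ) - 1) = m := by push_cast; ring
  rw [e]
  set G : ℝ := ((d * (g - 1) + 1 : ℕ) : ℝ) with hG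
  have hG1 : 1 ≤ G := by
    rw [hG]
    exact_mod_cast Nat.le_add_left _ _
  set ρ : ℝ := M * G ^ (1 / (m : ℝ)) with hρ
  have hGr : 1 ≤ G ^ (1 / (m : ℝ)) := Real.one_le_rpow hG1 (by positivity)
  have hρ1 : 1 ≤ ρ := by rw [hρ]; nlinarith
  have hle : M0 * G ^ (1 / (m : ℝ)) ≤ ρ := mul_le_mul_of_nonneg_right (le_max_left _ _) (by positivity)
  refine le_trans (ENNReal.ofReal_le_ofReal hle) ?_
  by_contra hcon
  push Not at hcon
  obtain ⟨R', ⟨f, hf, hfR⟩, hR'⟩ := sInf_lt_iff.1 hcon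
  have hfρ : ∀ x ∈ L.real, ‖f x‖ ≤ ρ := by
    intro x hx
    have h2 := lt_of_le_of_lt (hfR x hx) hR'
    rw [ENNReal.ofReal_lt_ofReal_iff (by linarith)] at h2
    exact h2.le
  have hD := hdig ρ f hf hfρ ⌈C * (ρ + 1)⌉₊ (Nat.le_ceil _)
  refine hno ⌈C * (ρ + 1)⌉₊ ?_ hD
  have h3 : (⌈C * (ρ + 1)⌉₊ : ℝ) ≤ (2 * C + 1) * ρ := by
    have h4 := (Nat.ceil_lt_add_one (show (0 : ℝ) ≤ C * (ρ + 1) by positivity)).le
    nlinarith
  have h5 : (⌈C * (ρ + 1)⌉₊ : ℝ) ^ m ≤ ((2 * C + 1) * ρ) ^ m := pow_le_pow_left₀ (by positivity) h3 m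
  have h6 : (G ^ (1 / (m : ℝ))) ^ m = G := by
    rw [← Real.rpow_natCast, ← Real.rpow_mul (by linarith), one_div_mul_cancel hm.ne', Real.rpow_one]
  have h7 : ((2 * C + 1) * ρ) ^ m = (2 * C + 1) ^ m * (M ^ m * G) := by
    rw [hρ, mul_pow, mul_pow, h6]
  have h8 : G ≤ g * d := by
    rw [hG]
    have : d * (g - 1) + 1 ≤ g * d := by
      obtain ⟨g', rfl⟩ : ∃ g', g = g' + 1 := ⟨g - 1, by omega⟩
      rw [Nat.add_sub_cancel]
      nlinarith
    exact_mod_cast this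
  rw [Nat.add_sub_cancel]
  refine le_trans h5 ?_
  rw [h7, mul_assoc, mul_assoc]
  apply mul_le_mul_of_nonneg_left _ (by positivity)
  exact mul_le_mul_of_nonneg_left h8 (by positivity)

end H98T
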