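import Mathlib
import Pool.Agent.Lib.H32D.Main

set_option autoImplicit false

/-!
# H98T.ZA: helper32's theorem `expander_covers`, with the form of the genera
-/

open Finset

namespace H98T

open H32D

theorem expander_covers_deg {V : Type} [Fintype V] [DecidableEq V] (K : Cpx V) (hK : IsSurface K) (g : ℕ) (hg : 2 ≤ g)
    (hχ : K.euler = 2 - 2 * (g : ℤ)) (n : ℕ) (hn : 5 ≤ n) :
    ∃ c C h : ℝ, 0 < c ∧ 0 < C ∧ 0 < h ∧ ∃ (W : ℕ → Type) (_ : ∀ i, Fintype (W i)) (_ : ∀ i, DecidableEq (W i)) (L : ∀ i, Cpx (W i))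
      (p : ∀ i, W i → V) (G : ℕ → ℕ), Filter.Tendsto G Filter.atTop Filter.atTop ∧
      ∀ i, (∃ D, G i = D * (g - 1) + 1) ∧ IsSurface (L i) ∧ IsCovering (p i) (L i) K ∧ (L i).euler = 2 - 2 * (G i : ℤ) ∧ Expands (L i).graph h ∧
        ENNReal.ofReal (c * (G i : ℝ) ^ (1 / ((n : ℝ) - 1))) ≤ thickRadius n (L i) ∧
        thickRadius n (L i) ≤ ENNReal.ofReal (C * (G i : ℝ) ^ (1 / ((n : ℝ) - 1))) := by
  obtain ⟨d, rfl⟩ : ∃ d, n = d + 1 := ⟨n - 1, by omega⟩
  have hd : 2 ≤ d := by omega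
  obtain ⟨k, Cp, hk, hCp, hsheet⟩ := exists_sheets d hd
  obtain ⟨lab, hlab⟩ := exists_goodLabel hK (by rw [hχ]; have : (2 : ℤ) ≤ g := by exact_mod_cast hg
                                                linarith)
  obtain ⟨h, hh, hexp⟩ := cover_expands hlab Cp hCp
  obtain ⟨mm, hmm⟩ := cover_count (K := K) hlab.flat (3 * k)
  obtain ⟨C1, hC1, hrad⟩ := thickRadius_le_of_routed (d + 1) hn mm
  obtain ⟨c1, hc1, N0, hlow⟩ := thickRadius_ge d (by omega) h hh (Fintype.card V)
  choose gg cc hgg hpoi using fun i : ℕ => hsheet (i + N0 + 1) ⟨by omega⟩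
  have hflat : ∀ i, Flat K (permLab lab (sig (gg i))) := fun i => flat_permLab hlab.flat _
  have hcardP : ∀ i : ℕ, Fintype.card (Sheet k d (i + N0 + 1)) = k * (i + N0 + 1) ^ d := by
    intro i
    rw [Fintype.card_prod, Fintype.card_fin, Fintype.card_fun, Fintype.card_fin, ZMod.card]
  have hne : ∀ i : ℕ, Nonempty (Sheet k d (i + N0 + 1)) := by
    intro i
    rw [← Fintype.card_pos_iff, hcardP]
    positivity
  have hG : ∀ i : ℕ, (i + N0 + 1) ^ d ≤ k * (i + N0 + 1) ^ d * (g - 1) + 1 := by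
    intro i
    have h1 : 1 ≤ g - 1 := by omega
    calc (i + N0 + 1) ^ d = 1 * (i + N0 + 1) ^ d * 1 := by ring
      _ ≤ k * (i + N0 + 1) ^ d * (g - 1) := Nat.mul_le_mul (Nat.mul_le_mul_right _ hk) h1
      _ ≤ _ := Nat.le_succ _
  have hVne : Nonempty V := hK.conn.nonempty
  have hV : 1 ≤ Fintype.card V := Fintype.card_pos
  refine ⟨c1 * (1 / (g : ℝ)) ^ (1 / (d : ℝ)), C1 * (k + 2), h, by positivity, by positivity, hh, fun i => V × Sheet k d (i + N0 + 1), inferInstance, inferInstance,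
    fun i => coverCpx K (permLab lab (sig (gg i))), fun i => Prod.fst, fun i => k * (i + N0 + 1) ^ d * (g - 1) + 1, ?_, ?_⟩
  · refine Filter.tendsto_atTop_mono (fun i => ?_) Filter.tendsto_id
    refine le_trans ?_ (hG i)
    calc i ≤ i + N0 + 1 := by omega
      _ = (i + N0 + 1) ^ 1 := (pow_one _).symm
      _ ≤ (i + N0 + 1) ^ d := Nat.pow_le_pow_right (Nat.succ_pos _) (by omega)
  · intro i
    have := hne i
    have hE : Expands (coverCpx K (permLab lab (sig (gg i)))).graph h := hexp _ _ _ _ (hpoi i)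
    refine ⟨⟨_, rfl⟩, cover_surface hK (hflat i) hh hE, cover_covering (hflat i), ?_, hE, ?_, ?_⟩
    · rw [cover_euler (hflat i), hcardP, hχ]
      have : ((g - 1 : ℕ) : ℤ) = (g : ℤ) - 1 := by omega
      push_cast
      rw [this]
      ring
    · have hlo := hlow (V × Sheet k d (i + N0 + 1)) inferInstance inferInstance (coverCpx K (permLab lab (sig (gg i)))) hE
        (fun w => cover_degree (hflat i) w) (by
          rw [Fintype.card_prod, hcardP]
          calc N0 ≤ 1 * (1 * (i + N0 + 1) ^ 1) := by rw [pow_one]; omega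
            _ ≤ Fintype.card V * (k * (i + N0 + 1) ^ d) :=
              Nat.mul_le_mul hV (Nat.mul_le_mul hk (Nat.pow_le_pow_right (Nat.succ_pos _) (by omega))))
      refine le_trans (ENNReal.ofReal_le_ofReal ?_) hlo
      rw [Fintype.card_prod, hcardP]
      have hgpos : (0 : ℝ) < g := by exact_mod_cast (by omega : 0 < g)
      have h1 : (1 / (g : ℝ)) * ((k * (i + N0 + 1) ^ d * (g - 1) + 1 : ℕ) : ℝ) ≤
          ((Fintype.card V * (k * (i + N0 + 1) ^ d) : ℕ) : ℝ) := by
        rw [one_div, inv_mul_le_iff₀ hgpos]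
        have h2 : k * (i + N0 + 1) ^ d * (g - 1) + 1 ≤ g * (Fintype.card V * (k * (i + N0 + 1) ^ d)) := by
          have h3 : 1 ≤ k * (i + N0 + 1) ^ d := by
            have := Nat.mul_le_mul hk (Nat.one_le_pow d (i + N0 + 1) (Nat.succ_pos _))
            simpa using this
          obtain ⟨X, hX⟩ : ∃ X, X = k * (i + N0 + 1) ^ d := ⟨_, rfl⟩
          rw [← hX] at h3 ⊢
          obtain ⟨g', rfl⟩ : ∃ g', g = g' + 1 := ⟨g - 1, by omega⟩
          rw [Nat.add_sub_cancel]
          calc X * g' + 1 ≤ X * g' + X := by omega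
            _ = (g' + 1) * (1 * X) := by ring
            _ ≤ (g' + 1) * (Fintype.card V * X) := Nat.mul_le_mul_left _ (Nat.mul_le_mul_right _ hV)
        exact_mod_cast h2
      have e : (((d + 1 : ℕ) : ℝ) - 1) = d := by push_cast; ring
      rw [e, mul_assoc, ← Real.mul_rpow (by positivity) (by positivity)]
      exact mul_le_mul_of_nonneg_left (Real.rpow_le_rpow (by positivity) h1 (by positivity)) hc1.le
    · have hcount := hmm (Sheet k d (i + N0 + 1)) inferInstance inferInstance (d + 1) (sig (gg i)) siteP (routeP (gg i) (cc i))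
        (fun z => (siteP_card z).trans (by omega)) (fun z b => routeP_count (gg i) (cc i) b z)
      have hsize := routeP_size (gg i) (cc i)
      have hR : (0 : ℝ) ≤ (k + 1) * (i + N0 + 1) := by positivity
      have hcast : ((((k : ℤ) + 1) * ((i + N0 + 1 : ℕ) : ℤ) : ℤ) : ℝ) = (k + 1) * (i + N0 + 1) := by push_cast; ring
      have hsite : ∀ p : Sheet k d (i + N0 + 1), ∀ a, |(siteP p a : ℝ)| ≤ (k + 1) * (i + N0 + 1) := by
        intro p a
        rw [← hcast, ← Int.cast_abs]
        exact_mod_cast (hsize false p).1 a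
      have hroute : ∀ b (p : Sheet k d (i + N0 + 1)), ∀ z ∈ routeP (gg i) (cc i) b p, ∀ a, |(z a : ℝ)| ≤ (k + 1) * (i + N0 + 1) := by
        intro b p z hz a
        rw [← hcast, ← Int.cast_abs]
        exact_mod_cast (hsize b p).2 z hz a
      have hb := hrad (V × Sheet k d (i + N0 + 1)) inferInstance inferInstance (coverCpx K (permLab lab (sig (gg i))))
        (fun x => siteP x.2) (edgeList K lab (sig (gg i)) siteP (routeP (gg i) (cc i)))
        (cover_routed hK hlab.flat (routing_routeP (gg i) (cc i) (hgg i))) hcount ((k + 1) * (i + N0 + 1)) hR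
        (fun x a => hsite x.2 a)
        (fun x y _ z hz a => edgeList_mem (K := K) (lab := lab) (σ := sig (gg i)) (Z := {z | ∀ a, |(z a : ℝ)| ≤ (k + 1) * (i + N0 + 1)})
          (fun p => fun a => hsite p a) (fun b p z hz => fun a => hroute b p z hz a) x y z hz a)
      refine hb.trans (ENNReal.ofReal_le_ofReal ?_)
      have hm : ((i : ℝ) + N0 + 1) ≤ ((k * (i + N0 + 1) ^ d * (g - 1) + 1 : ℕ) : ℝ) ^ (1 / (((d + 1 : ℕ) : ℝ) - 1)) := by
        have h1 : (((i + N0 + 1 : ℕ) : ℝ)) ^ (d : ℝ) ≤ ((k * (i + N0 + 1) ^ d * (g - 1) + 1 : ℕ) : ℝ) := by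
          rw [Real.rpow_natCast]
          exact_mod_cast hG i
        have hdpos : (0 : ℝ) < d := by exact_mod_cast (by omega : 0 < d)
        have h2 := Real.rpow_le_rpow (by positivity) h1 (z := 1 / (d : ℝ)) (by positivity)
        rw [← Real.rpow_mul (by positivity), mul_one_div_cancel hdpos.ne', Real.rpow_one] at h2
        have e : (((d + 1 : ℕ) : ℝ) - 1) = d := by push_cast; ring
        rw [e]
        calc ((i : ℝ) + N0 + 1) = ((i + N0 + 1 : ℕ) : ℝ) := by push_cast; ring
          _ ≤ _ := h2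
      have h3 : ((k : ℝ) + 1) * (i + N0 + 1) + 1 ≤ (k + 2) * (i + N0 + 1) := by
        have : (0 : ℝ) ≤ i := Nat.cast_nonneg i
        have : (0 : ℝ) ≤ N0 := Nat.cast_nonneg N0
        nlinarith
      calc C1 * (((k : ℝ) + 1) * (i + N0 + 1) + 1) ≤ C1 * ((k + 2) * (i + N0 + 1)) := mul_le_mul_of_nonneg_left h3 hC1.le
        _ = C1 * (k + 2) * (i + N0 + 1) := by ring
        _ ≤ _ := mul_le_mul_of_nonneg_left hm (by positivity)

end H98T
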