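import Mathlib
import Pool.Agent.Lib.H98T.ZA
import Pool.Agent.Lib.H98T.Z13

set_option autoImplicit false

/-!
# H98T.ZB: the radius is not determined by the genus
-/

open Filter Topology

namespace H98T

open H32D

theorem zb_mono {W : Type} [Fintype W] {G : SimpleGraph W} {h h' : ℝ} (hh : h' ≤ h) (hG : Expands G h) : Expands G h' := by
  intro A hA
  exact le_trans (mul_le_mul_of_nonneg_right hh (Nat.cast_nonneg _)) (hG A hA)

/-- A statement which holds for all large `d`, for every `m`, holds with `m` depending on `d` and tending to infinity. -/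
theorem zb_diag (P : ℕ → ℕ → Prop) (h : ∀ m, ∃ d0, ∀ d, d0 ≤ d → P m d) :
    ∃ (f : ℕ → ℕ) (d0 : ℕ), Tendsto f atTop atTop ∧ ∀ d, d0 ≤ d → P (f d) d := by
  classical
  obtain ⟨e0, he0⟩ := h 0
  refine ⟨fun d => Nat.findGreatest (fun m => P m d) d, e0, ?_, ?_⟩
  · rw [tendsto_atTop]
    intro m
    obtain ⟨e1, he1⟩ := h m
    filter_upwards [eventually_ge_atTop (max e1 m)] with d hd
    exact Nat.le_findGreatest (le_trans (le_max_right _ _) hd) (he1 d (le_trans (le_max_left _ _) hd))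
  · intro d hd
    exact Nat.findGreatest_spec (P := fun m => P m d) (Nat.zero_le d) (he0 d hd)

theorem growth {V : Type} [Fintype V] [DecidableEq V] (K : Cpx V) (hK : IsSurface K) (g : ℕ) (hg : 2 ≤ g)
    (hχ : K.euler = 2 - 2 * (g : ℤ)) (n : ℕ) (hn : 5 ≤ n) :
    ∃ c C h : ℝ, 0 < c ∧ 0 < C ∧ 0 < h ∧
      (∃ (W W' : ℕ → Type) (_ : ∀ i, Fintype (W i)) (_ : ∀ i, DecidableEq (W i)) (_ : ∀ i, Fintype (W' i)) (_ : ∀ i, DecidableEq (W' i))
        (L : ∀ i, Cpx (W i)) (L' : ∀ i, Cpx (W' i)) (p : ∀ i, W i → V) (p' : ∀ i, W' i → V) (G : ℕ → ℕ), Tendsto G atTop atTop ∧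
        (∀ i, IsSurface (L i) ∧ IsCovering (p i) (L i) K ∧ (L i).euler = 2 - 2 * (G i : ℤ) ∧ Expands (L i).graph h ∧
          ENNReal.ofReal (c * (G i : ℝ) ^ (1 / ((n : ℝ) - 1))) ≤ thickRadius n (L i) ∧
          thickRadius n (L i) ≤ ENNReal.ofReal (C * (G i : ℝ) ^ (1 / ((n : ℝ) - 1)))) ∧
        (∀ i, IsSurface (L' i) ∧ IsCovering (p' i) (L' i) K ∧ (L' i).euler = 2 - 2 * (G i : ℤ) ∧ Expands (L' i).graph h) ∧
        Tendsto (fun i => thickRadius n (L' i) / ENNReal.ofReal ((G i : ℝ) ^ (1 / ((n : ℝ) - 1)))) atTop (𝓝 ⊤)) ∧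
      ∀ M : ℝ, ∃ d0 : ℕ, ∀ d : ℕ, d0 ≤ d → ∃ (W : Type) (_ : Fintype W) (_ : DecidableEq W) (L : Cpx W) (p : W → V),
        IsSurface L ∧ IsCovering p L K ∧ L.euler = 2 - 2 * ((d * (g - 1) + 1 : ℕ) : ℤ) ∧ Expands L.graph h ∧
          ENNReal.ofReal (M * ((d * (g - 1) + 1 : ℕ) : ℝ) ^ (1 / ((n : ℝ) - 1))) ≤ thickRadius n L := by
  obtain ⟨c, C, h, hc, hC, hh, W, i1, i2, L, p, G, hG, hL⟩ := expander_covers_deg K hK g hg hχ n hn
  obtain ⟨h', hh', hlarge⟩ := large_covers K hK g hg hχ n hn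
  have hlarge' : ∀ M : ℝ, ∃ d0 : ℕ, ∀ d : ℕ, d0 ≤ d → ∃ (W : Type) (_ : Fintype W) (_ : DecidableEq W) (L : Cpx W) (p : W → V),
        IsSurface L ∧ IsCovering p L K ∧ L.euler = 2 - 2 * ((d * (g - 1) + 1 : ℕ) : ℤ) ∧ Expands L.graph (min h h') ∧
          ENNReal.ofReal (M * ((d * (g - 1) + 1 : ℕ) : ℝ) ^ (1 / ((n : ℝ) - 1))) ≤ thickRadius n L := by
    intro M
    obtain ⟨d0, hd0⟩ := hlarge M
    refine ⟨d0, fun d hd => ?_⟩
    obtain ⟨W, j1, j2, L, p, a1, a2, a3, a4, a5⟩ := hd0 d hd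
    exact ⟨W, j1, j2, L, p, a1, a2, a3, zb_mono (min_le_right _ _) a4, a5⟩
  refine ⟨c, C, min h h', hc, hC, lt_min hh hh', ?_, hlarge'⟩
  obtain ⟨f, e0, hf, hP⟩ := zb_diag (fun m d => ∃ (W : Type) (_ : Fintype W) (_ : DecidableEq W) (L : Cpx W) (p : W → V),
        IsSurface L ∧ IsCovering p L K ∧ L.euler = 2 - 2 * ((d * (g - 1) + 1 : ℕ) : ℤ) ∧ Expands L.graph (min h h') ∧
          ENNReal.ofReal ((m : ℝ) * ((d * (g - 1) + 1 : ℕ) : ℝ) ^ (1 / ((n : ℝ) - 1))) ≤ thickRadius n L) (fun m => hlarge' m)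
  choose D hD using fun i => (hL i).1
  have hDt : Tendsto D atTop atTop := by
    rw [tendsto_atTop]
    intro m
    filter_upwards [hG.eventually_ge_atTop (m * (g - 1) + 2)] with i hi
    rw [hD i] at hi
    by_contra hcon
    push Not at hcon
    have h1 : D i * (g - 1) ≤ m * (g - 1) := Nat.mul_le_mul_right _ hcon.le
    omega
  obtain ⟨i0, hi0⟩ := (hDt.eventually_ge_atTop e0).exists_forall_of_atTop
  choose W' j1 j2 L' p' hL' using fun i => hP (D (i + i0)) (hi0 (i + i0) (Nat.le_add_left _ _))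
  have hshift : Tendsto (fun i : ℕ => i + i0) atTop atTop := tendsto_add_atTop_nat i0
  refine ⟨fun i => W (i + i0), W', fun i => i1 (i + i0), fun i => i2 (i + i0), j1, j2, fun i => L (i + i0), L', fun i => p (i + i0), p',
    fun i => G (i + i0), hG.comp hshift, ?_, ?_, ?_⟩
  · intro i
    obtain ⟨a0, a1, a2, a3, a4, a5, a6⟩ := hL (i + i0)
    exact ⟨a1, a2, a3, zb_mono (min_le_left _ _) a4, a5, a6⟩
  · intro i
    obtain ⟨a1, a2, a3, a4, a5⟩ := hL' i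
    refine ⟨a1, a2, ?_, a4⟩
    show (L' i).euler = 2 - 2 * ((G (i + i0) : ℕ) : ℤ)
    rw [hD (i + i0)]
    exact a3
  · rw [ENNReal.tendsto_nhds_top_iff_nat]
    intro m
    have h1 : Tendsto (fun i => f (D (i + i0))) atTop atTop := hf.comp (hDt.comp hshift)
    filter_upwards [h1.eventually_ge_atTop (m + 1)] with i hi
    obtain ⟨a1, a2, a3, a4, a5⟩ := hL' i
    rw [← hD (i + i0)] at a5
    have hGpos : (0 : ℝ) < (G (i + i0) : ℝ) := by
      rw [hD (i + i0)]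
      exact_mod_cast Nat.succ_pos _
    have h2 : 0 < (G (i + i0) : ℝ) ^ (1 / ((n : ℝ) - 1)) := Real.rpow_pos_of_pos hGpos _
    have h3 : ((m + 1 : ℕ) : ENNReal) ≤ thickRadius n (L' i) / ENNReal.ofReal ((G (i + i0) : ℝ) ^ (1 / ((n : ℝ) - 1))) := by
      rw [ENNReal.le_div_iff_mul_le (Or.inl (by rw [Ne, ENNReal.ofReal_eq_zero]; linarith)) (Or.inl ENNReal.ofReal_ne_top)]
      refine le_trans ?_ a5
      rw [ENNReal.ofReal_mul (Nat.cast_nonneg _), ENNReal.ofReal_natCast]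
      exact mul_le_mul' (by exact_mod_cast hi) le_rfl
    exact lt_of_lt_of_le (by exact_mod_cast Nat.lt_succ_self m) h3

end H98T
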